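import Mathlib

/-! # Poisson summation in several variables -/

open MeasureTheory Set Filter TopologicalSpace

noncomputable section

namespace Pool.Agent.Helper4

variable {d : Type*} [Fintype d]

/-- cast of an integer vector -/
def castVec (n : d → ℤ) : d → ℝ := fun i => (n i : ℝ)

omit [Fintype d] in
@[simp] lemma castVec_apply (n : d → ℤ) (i : d) : castVec n i = (n i : ℝ) := rfl

omit [Fintype d] in
@[simp] lemma castVec_zero : castVec (0 : d → ℤ) = 0 := by
  ext i; simp

omit [Fintype d] in
lemma castVec_add (m n : d → ℤ) : castVec (m + n) = castVec m + castVec n := by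
  ext i; simp

/-- The exponential character `x ↦ exp(-2 π i n·x)` -/
def expChar (n : d → ℤ) (x : d → ℝ) : ℂ :=
  Complex.exp (-(2 * Real.pi * Complex.I * ∑ i, (n i : ℂ) * (x i : ℂ)))

lemma norm_expChar (n : d → ℤ) (x : d → ℝ) : ‖expChar n x‖ = 1 := by
  unfold expChar
  rw [Complex.norm_exp]
  have : (-(2 * (Real.pi : ℂ) * Complex.I * ∑ i, (n i : ℂ) * (x i : ℂ))).re = 0 := by
    have h : (∑ i, (n i : ℂ) * (x i : ℂ)) = ((∑ i, (n i : ℝ) * x i : ℝ) : ℂ) := by
      push_cast; rfl
    rw [h]
    simp
  rw [this, Real.exp_zero]

lemma expChar_eq_mFourier (n : d → ℤ) (x : d → ℝ) :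
    expChar n x = UnitAddTorus.mFourier (-n) (fun i => (x i : UnitAddCircle)) := by
  unfold expChar
  simp only [UnitAddTorus.mFourier, ContinuousMap.coe_mk, fourier_coe_apply]
  rw [← Complex.exp_sum]
  congr 1
  rw [Finset.mul_sum, ← Finset.sum_neg_distrib]
  refine Finset.sum_congr rfl fun i _ => ?_
  simp
  ring

lemma continuous_expChar (n : d → ℤ) : Continuous (expChar n : (d → ℝ) → ℂ) := by
  unfold expChar
  fun_prop

lemma expChar_add (n m : d → ℤ) (x : d → ℝ) : expChar n (x + castVec m) = expChar n x := by
  rw [expChar_eq_mFourier, expChar_eq_mFourier]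
  congr 1
  ext i
  simp

/-- unit cube based at an integer point -/
def cube (m : d → ℤ) : Set (d → ℝ) := {x | ∀ i, x i ∈ Ioc (m i : ℝ) (m i + 1)}

omit [Fintype d] in
lemma cube_disjoint : Pairwise (Function.onFun Disjoint (cube : (d → ℤ) → Set (d → ℝ))) := by
  intro m n hmn
  rw [Function.onFun, Set.disjoint_left]
  intro x hx hy
  apply hmn
  ext i
  have h1 := hx i
  have h2 := hy i
  have h3 : (m i : ℝ) < n i + 1 := lt_of_lt_of_le h1.1 h2.2
  have h4 : (n i : ℝ) < m i + 1 := lt_of_lt_of_le h2.1 h1.2
  have h3' : m i < n i + 1 := by exact_mod_cast h3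
  have h4' : n i < m i + 1 := by exact_mod_cast h4
  omega

omit [Fintype d] in
lemma iUnion_cube : (⋃ m : d → ℤ, cube m) = univ := by
  rw [eq_univ_iff_forall]
  intro x
  rw [mem_iUnion]
  refine ⟨fun i => ⌈x i⌉ - 1, fun i => ?_⟩
  constructor
  · have := Int.ceil_lt_add_one (x i)
    push_cast
    linarith
  · have := Int.le_ceil (x i)
    push_cast
    linarith

lemma measurableSet_cube (m : d → ℤ) : MeasurableSet (cube m) :=
  MeasurableSet.univ_pi' (fun _ => measurableSet_Ioc)

lemma setIntegral_cube (g : (d → ℝ) → ℂ) (m : d → ℤ) :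
    ∫ x in cube m, g x = ∫ x in cube (0 : d → ℤ), g (x + castVec m) := by
  have h : MeasurePreserving (fun x : d → ℝ => x + castVec m) volume volume :=
    measurePreserving_add_right volume (castVec m)
  have he : MeasurableEmbedding (fun x : d → ℝ => x + castVec m) :=
    (MeasurableEquiv.addRight (castVec m)).measurableEmbedding
  have := h.setIntegral_preimage_emb he g (cube m)
  rw [← this]
  congr 2
  ext x
  simp only [cube, mem_preimage, mem_ofPred_eq, Pi.add_apply, castVec_apply, Pi.zero_apply,
    Int.cast_zero, zero_add, mem_Ioc]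
  refine forall_congr' fun i => ?_
  constructor
  · rintro ⟨h1, h2⟩; constructor <;> linarith
  · rintro ⟨h1, h2⟩; constructor <;> linarith

/-- The periodisation. -/
def periodisation (f : C(d → ℝ, ℂ)) : C(d → ℝ, ℂ) :=
  ∑' n : d → ℤ, f.comp (ContinuousMap.addRight (castVec n))

lemma periodisation_apply {f : C(d → ℝ, ℂ)}
    (hf : ∀ K : Compacts (d → ℝ), Summable fun n : d → ℤ =>
      ‖(f.comp (ContinuousMap.addRight (castVec n))).restrict K‖) (x : d → ℝ) :
    HasSum (fun n : d → ℤ => f (x + castVec n)) (periodisation f x) := by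
  have := (ContinuousMap.hasSum_apply
    (ContinuousMap.summable_of_locally_summable_norm hf).hasSum x)
  simpa [periodisation] using this

lemma periodisation_add {f : C(d → ℝ, ℂ)}
    (hf : ∀ K : Compacts (d → ℝ), Summable fun n : d → ℤ =>
      ‖(f.comp (ContinuousMap.addRight (castVec n))).restrict K‖) (x : d → ℝ) (m : d → ℤ) :
    periodisation f (x + castVec m) = periodisation f x := by
  have h1 := periodisation_apply hf (x + castVec m)
  have h2 := periodisation_apply hf x
  have h3 : HasSum (fun n : d → ℤ => f (x + castVec m + castVec n)) (periodisation f x) := by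
    have := (Equiv.addLeft m).hasSum_iff.mpr h2
    refine this.congr_fun ?_ |> fun h => h
    intro n
    simp only [Function.comp_apply, Equiv.coe_addLeft]
    rw [castVec_add, add_assoc]
  exact h1.unique h3

/-- Projection to the torus -/
def toTorus (x : d → ℝ) : UnitAddTorus d := fun i => (x i : UnitAddCircle)

lemma isOpenQuotientMap_toTorus : IsOpenQuotientMap (toTorus : (d → ℝ) → UnitAddTorus d) := by
  have : (toTorus : (d → ℝ) → UnitAddTorus d)
      = Pi.map (fun _ : d => ((↑) : ℝ → UnitAddCircle)) := rfl
  rw [this]
  exact IsOpenQuotientMap.piMap (fun i => QuotientAddGroup.isOpenQuotientMap_mk)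

omit [Fintype d] in
lemma toTorus_eq_iff (x y : d → ℝ) : toTorus x = toTorus y ↔ ∃ m : d → ℤ, y = x + castVec m := by
  constructor
  · intro h
    have : ∀ i, ∃ k : ℤ, y i = x i + k := by
      intro i
      have hi := congrFun h i
      simp only [toTorus] at hi
      rw [QuotientAddGroup.eq] at hi
      obtain ⟨k, hk⟩ := AddSubgroup.mem_zmultiples_iff.mp hi
      refine ⟨k, ?_⟩
      simp at hk
      linarith
    choose m hm using this
    exact ⟨m, funext hm⟩
  · rintro ⟨m, rfl⟩
    ext i
    simp [toTorus]

/-- Poisson summation formula in several variables. -/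
theorem poisson (f : C(d → ℝ, ℂ)) (hint : Integrable f)
    (hf : ∀ K : Compacts (d → ℝ), Summable fun n : d → ℤ =>
      ‖(f.comp (ContinuousMap.addRight (castVec n))).restrict K‖)
    (hs : Summable fun n : d → ℤ => ∫ x, expChar n x * f x) :
    ∑' n : d → ℤ, f (castVec n) = ∑' n : d → ℤ, ∫ x, expChar n x * f x := by
  classical
  -- descend
  have hper : ∀ x y : d → ℝ, toTorus x = toTorus y → periodisation f x = periodisation f y := by
    intro x y h
    obtain ⟨m, rfl⟩ := (toTorus_eq_iff x y).mp h
    rw [periodisation_add hf]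
  have hsurj : Function.Surjective (toTorus : (d → ℝ) → UnitAddTorus d) :=
    (isOpenQuotientMap_toTorus (d := d)).surjective
  let F0 : UnitAddTorus d → ℂ := fun y => periodisation f (Function.surjInv hsurj y)
  have hF0 : ∀ x, F0 (toTorus x) = periodisation f x := fun x =>
    hper _ _ (Function.surjInv_eq hsurj (toTorus x))
  have hF0c : Continuous F0 := by
    rw [(isOpenQuotientMap_toTorus (d := d)).isQuotientMap.continuous_iff]
    have : F0 ∘ toTorus = periodisation f := funext hF0
    rw [this]
    exact (periodisation f).continuous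
  let F : C(UnitAddTorus d, ℂ) := ⟨F0, hF0c⟩
  have hF : ∀ x, F (toTorus x) = periodisation f x := hF0
  -- coefficients
  have hcoef : ∀ n, UnitAddTorus.mFourierCoeff F n = ∫ x, expChar n x * f x := by
    intro n
    rw [UnitAddTorus.mFourierCoeff_eq_integral F n 0]
    have e1 : ∫ x in {x : d → ℝ | ∀ i, x i ∈ Ioc ((0 : d → ℝ) i) ((0 : d → ℝ) i + 1)},
        UnitAddTorus.mFourier (-n) (fun i => (x i : UnitAddCircle)) •
          F (fun i => (x i : UnitAddCircle))
        = ∫ x in cube (0 : d → ℤ), ∑' m : d → ℤ, expChar n (x + castVec m) * f (x + castVec m) := by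
      have : {x : d → ℝ | ∀ i, x i ∈ Ioc ((0 : d → ℝ) i) ((0 : d → ℝ) i + 1)}
          = cube (0 : d → ℤ) := by
        ext x; simp [cube]
      rw [this]
      congr 1
      ext x
      rw [← expChar_eq_mFourier]
      have h2 : F (fun i => (x i : UnitAddCircle)) = periodisation f x := hF x
      rw [h2, ← (periodisation_apply hf x).tsum_eq, smul_eq_mul, ← tsum_mul_left]
      refine tsum_congr fun m => ?_
      rw [expChar_add]
    rw [e1]
    have e2 : ∀ m : d → ℤ, ∀ x, ‖expChar n (x + castVec m) * f (x + castVec m)‖
        = ‖f (x + castVec m)‖ := by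
      intro m x
      rw [norm_mul, norm_expChar, one_mul]
    have hintg : Integrable (fun x => expChar n x * f x) := by
      refine hint.bdd_mul (c := 1) (continuous_expChar n).aestronglyMeasurable ?_
      filter_upwards with x
      rw [norm_expChar]
    have hsumI := hasSum_integral_iUnion (μ := volume) (f := fun x => expChar n x * f x)
      (s := fun m : d → ℤ => cube m) (fun m => measurableSet_cube m) cube_disjoint
      (by rw [iUnion_cube]; exact hintg.integrableOn)
    rw [iUnion_cube, Measure.restrict_univ] at hsumI
    rw [← hsumI.tsum_eq]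
    have e3 : ∀ m : d → ℤ, ∫ x in cube m, expChar n x * f x
        = ∫ x in cube (0 : d → ℤ), expChar n (x + castVec m) * f (x + castVec m) := fun m =>
      setIntegral_cube (fun x => expChar n x * f x) m
    simp_rw [e3]
    symm
    refine (hasSum_integral_of_summable_integral_norm (fun m => ?_) ?_).tsum_eq
    · have := (hintg.comp_add_right (castVec m))
      exact this.integrableOn
    · simp_rw [e2]
      have hn : HasSum (fun m : d → ℤ => ∫ x in cube m, ‖f x‖) (∫ x, ‖f x‖) := by
        have := hasSum_integral_iUnion (μ := volume) (f := fun x => ‖f x‖)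
          (s := fun m : d → ℤ => cube m) (fun m => measurableSet_cube m) cube_disjoint
          (by rw [iUnion_cube]; exact hint.norm.integrableOn)
        rwa [iUnion_cube, Measure.restrict_univ] at this
      have e4 : ∀ m : d → ℤ, ∫ x in cube m, ‖f x‖ = ∫ x in cube (0 : d → ℤ),
          ‖f (x + castVec m)‖ := by
        intro m
        have h : MeasurePreserving (fun x : d → ℝ => x + castVec m) volume volume :=
          measurePreserving_add_right volume (castVec m)
        have he : MeasurableEmbedding (fun x : d → ℝ => x + castVec m) :=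
          (MeasurableEquiv.addRight (castVec m)).measurableEmbedding
        have := h.setIntegral_preimage_emb he (fun x => ‖f x‖) (cube m)
        rw [← this]
        congr 2
        ext x
        simp only [cube, mem_preimage, mem_ofPred_eq, Pi.add_apply, castVec_apply, Pi.zero_apply,
          Int.cast_zero, zero_add, mem_Ioc]
        refine forall_congr' fun i => ?_
        constructor
        · rintro ⟨h1, h2⟩; constructor <;> linarith
        · rintro ⟨h1, h2⟩; constructor <;> linarith
      simp_rw [← e4]
      exact hn.summable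
  have hsF : Summable (UnitAddTorus.mFourierCoeff F) := by
    have : (UnitAddTorus.mFourierCoeff F) = fun n : d → ℤ => ∫ x, expChar n x * f x :=
      funext hcoef
    rw [this]; exact hs
  have key := (UnitAddTorus.hasSum_mFourier_series_apply_of_summable hsF (toTorus 0)).tsum_eq
  rw [hF] at key
  rw [← (periodisation_apply hf 0).tsum_eq] at key
  simp only [zero_add] at key
  rw [← key]
  refine tsum_congr fun n => ?_
  rw [hcoef]
  have : UnitAddTorus.mFourier n (toTorus (0 : d → ℝ)) = 1 := by
    simp [UnitAddTorus.mFourier, toTorus]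
  rw [this, smul_eq_mul, mul_one]

end Pool.Agent.Helper4
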