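import Mathlib
import Pool.Agent.helper4.Poisson

/-! # Theta functions of lattices and their transformation formula -/

open MeasureTheory Filter Topology Set

noncomputable section

namespace Pool.Agent.Helper4

variable {ι : Type*} [Fintype ι]

lemma castVec_mem (m : ι → ℤ) : castVec m ∈ Submodule.span ℤ (Set.range (Pi.basisFun ℝ ι)) := by
  classical
  rw [Module.Basis.mem_span_iff_repr_mem]
  intro i
  exact ⟨m i, by simp⟩

omit [Fintype ι] in
lemma castVec_injective : Function.Injective (castVec : (ι → ℤ) → (ι → ℝ)) := by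
  intro m n hmn
  ext i
  have := congrFun hmn i
  simpa using this

lemma summable_castVec_rpow (r : ℝ) (hr : r < -(Fintype.card ι : ℝ)) :
    Summable fun m : ι → ℤ => ‖castVec m‖ ^ r := by
  classical
  set L : Submodule ℤ (ι → ℝ) := Submodule.span ℤ (Set.range (Pi.basisFun ℝ ι)) with hL
  have i1 : DiscreteTopology L := by rw [hL]; infer_instance
  have i2 : IsZLattice ℝ L :=
    inferInstanceAs (IsZLattice ℝ (Submodule.span ℤ (Set.range (Pi.basisFun ℝ ι))))
  have hrk : Module.finrank ℤ L = Fintype.card ι := by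
    rw [ZLattice.rank ℝ, Module.finrank_fintype_fun_eq_card]
  have h := ZLattice.summable_norm_rpow L r (by rw [hrk]; exact hr)
  have hinj : Function.Injective (fun m : ι → ℤ => (⟨castVec m, castVec_mem m⟩ : L)) := by
    intro m n hmn
    exact castVec_injective (congrArg Subtype.val hmn)
  have h2 := h.comp_injective hinj
  refine h2.congr fun m => ?_
  rfl

lemma finite_norm_castVec_le (R : ℝ) : {m : ι → ℤ | ‖castVec m‖ ≤ R}.Finite := by
  classical
  by_cases hR : 0 ≤ R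
  swap
  · convert Set.finite_empty
    ext m
    simp only [Set.mem_ofPred_eq, Set.mem_empty_iff_false, iff_false, not_le]
    exact lt_of_lt_of_le (not_le.mp hR) (norm_nonneg _)
  refine (Set.finite_Icc (fun _ => -⌈R⌉) (fun _ => ⌈R⌉) :
    (Set.Icc (fun _ : ι => -⌈R⌉) (fun _ => ⌈R⌉)).Finite).subset ?_
  intro m hm
  rw [Set.mem_ofPred_eq, pi_norm_le_iff_of_nonneg hR] at hm
  rw [Set.mem_Icc, Pi.le_def, Pi.le_def]
  constructor
  · intro i
    have := hm i
    rw [Real.norm_eq_abs, abs_le] at this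
    have h2 := Int.le_ceil R
    have h3 : (-(⌈R⌉ : ℝ)) ≤ m i := by simp only [castVec_apply] at this; linarith [this.1]
    exact_mod_cast h3
  · intro i
    have := hm i
    rw [Real.norm_eq_abs, abs_le] at this
    have h2 := Int.le_ceil R
    have h3 : ((m i : ℝ)) ≤ ⌈R⌉ := by simp only [castVec_apply] at this; linarith [this.2]
    exact_mod_cast h3

lemma tendsto_norm_castVec : Tendsto (fun m : ι → ℤ => ‖castVec m‖) cofinite atTop := by
  rw [tendsto_atTop]
  intro b
  rw [eventually_cofinite]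
  refine (finite_norm_castVec_le b).subset ?_
  intro m hm
  simp only [Set.mem_ofPred_eq, not_le] at hm ⊢
  exact hm.le

lemma summable_exp_castVec (a : ℝ) (ha : 0 < a) :
    Summable fun m : ι → ℤ => Real.exp (-a * ‖castVec m‖ ^ 2) := by
  set r : ℝ := -((Fintype.card ι : ℝ) + 1) with hr
  have h1 := summable_castVec_rpow (ι := ι) r (by rw [hr]; linarith)
  refine summable_of_isBigO h1 ?_
  have h2 : (fun x : ℝ => Real.exp (-a * x ^ 2)) =O[atTop] fun x => x ^ r := by
    have h3 := rpow_mul_exp_neg_mul_sq_isLittleO_exp_neg ha (-r)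
    have h4 : (fun x : ℝ => x ^ (-r) * Real.exp (-a * x ^ 2)) =O[atTop] fun _ => (1 : ℝ) := by
      refine h3.isBigO.trans ?_
      refine Asymptotics.IsBigO.of_bound 1 ?_
      filter_upwards [eventually_ge_atTop 0] with x hx
      rw [Real.norm_eq_abs, abs_of_pos (Real.exp_pos _), norm_one, mul_one]
      rw [Real.exp_le_one_iff]
      linarith
    have h5 := (Asymptotics.isBigO_refl (fun x : ℝ => x ^ r) atTop).mul h4
    refine (Asymptotics.IsBigO.congr' h5 ?_ ?_)
    · filter_upwards [eventually_gt_atTop 0] with x hx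
      rw [← mul_assoc, ← Real.rpow_add hx]
      simp
    · filter_upwards with x
      simp
  exact h2.comp_tendsto tendsto_norm_castVec

omit [Fintype ι] in
lemma castVec_ne_zero {m : ι → ℤ} (hm : m ≠ 0) : castVec m ≠ 0 := by
  intro h
  apply hm
  apply castVec_injective
  rw [h, castVec_zero]

lemma one_le_norm_castVec {m : ι → ℤ} (hm : m ≠ 0) : 1 ≤ ‖castVec m‖ := by
  obtain ⟨i, hi⟩ := Function.ne_iff.mp hm
  refine le_trans ?_ (norm_le_pi_norm (castVec m) i)
  rw [castVec_apply, Real.norm_eq_abs]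
  have : (1 : ℤ) ≤ |m i| := Int.one_le_abs hi
  exact_mod_cast this

/-- diagonal quadratic form evaluated on `B x` -/
def quad (B : Matrix ι ι ℝ) (c : ι → ℝ) (x : ι → ℝ) : ℝ := ∑ j, c j * (B.mulVec x j) ^ 2

lemma continuous_quad (B : Matrix ι ι ℝ) (c : ι → ℝ) : Continuous (quad B c) := by
  unfold quad
  have : Continuous (fun x : ι → ℝ => B.mulVec x) := by fun_prop
  fun_prop

lemma continuous_quad' (B : Matrix ι ι ℝ) (x : ι → ℝ) : Continuous (fun c => quad B c x) := by
  unfold quad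
  fun_prop

@[simp] lemma quad_zero (B : Matrix ι ι ℝ) (c : ι → ℝ) : quad B c 0 = 0 := by
  simp [quad]

/-- Coercivity constant. -/
lemma exists_quad_lower [DecidableEq ι] (B : Matrix ι ι ℝ) (hB : B.det ≠ 0) :
    ∃ β : ℝ, 0 < β ∧ ∀ (c₀ : ℝ) (c : ι → ℝ), 0 ≤ c₀ → (∀ j, c₀ ≤ c j) →
      ∀ x, c₀ * β * ‖x‖ ^ 2 ≤ quad B c x := by
  set T := LinearMap.toContinuousLinearMap (Matrix.toLin' B⁻¹) with hT
  set C := ‖T‖ + 1 with hC
  have hCpos : 0 < C := by have := norm_nonneg T; linarith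
  have h1 : ∀ x : ι → ℝ, ‖x‖ ≤ C * ‖B.mulVec x‖ := by
    intro x
    have hx : T (B.mulVec x) = x := by
      rw [hT, LinearMap.coe_toContinuousLinearMap', Matrix.toLin'_apply, Matrix.mulVec_mulVec,
        Matrix.nonsing_inv_mul _ (isUnit_iff_ne_zero.mpr hB), Matrix.one_mulVec]
    calc ‖x‖ = ‖T (B.mulVec x)‖ := by rw [hx]
      _ ≤ ‖T‖ * ‖B.mulVec x‖ := T.le_opNorm _
      _ ≤ C * ‖B.mulVec x‖ := by
        apply mul_le_mul_of_nonneg_right _ (norm_nonneg _)
        linarith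
  have h2 : ∀ y : ι → ℝ, ‖y‖ ^ 2 ≤ ∑ j, (y j) ^ 2 := by
    intro y
    have hs : 0 ≤ ∑ j, (y j) ^ 2 := Finset.sum_nonneg fun j _ => sq_nonneg _
    have : ‖y‖ ≤ Real.sqrt (∑ j, (y j) ^ 2) := by
      rw [pi_norm_le_iff_of_nonneg (Real.sqrt_nonneg _)]
      intro i
      rw [Real.norm_eq_abs]
      apply Real.abs_le_sqrt
      exact Finset.single_le_sum (f := fun j => (y j) ^ 2) (fun j _ => sq_nonneg _)
        (Finset.mem_univ i)
    calc ‖y‖ ^ 2 ≤ (Real.sqrt (∑ j, (y j) ^ 2)) ^ 2 := by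
          apply pow_le_pow_left₀ (norm_nonneg _) this
      _ = _ := Real.sq_sqrt hs
  refine ⟨(C ^ 2)⁻¹, by positivity, ?_⟩
  intro c₀ c hc₀ hc x
  have h3 : ‖x‖ ^ 2 ≤ C ^ 2 * ∑ j, (B.mulVec x j) ^ 2 := by
    calc ‖x‖ ^ 2 ≤ (C * ‖B.mulVec x‖) ^ 2 := pow_le_pow_left₀ (norm_nonneg _) (h1 x) 2
      _ = C ^ 2 * ‖B.mulVec x‖ ^ 2 := by ring
      _ ≤ _ := by
        apply mul_le_mul_of_nonneg_left (h2 _) (by positivity)
  calc c₀ * (C ^ 2)⁻¹ * ‖x‖ ^ 2 ≤ c₀ * (C ^ 2)⁻¹ * (C ^ 2 * ∑ j, (B.mulVec x j) ^ 2) := by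
        apply mul_le_mul_of_nonneg_left h3 (by positivity)
    _ = c₀ * ∑ j, (B.mulVec x j) ^ 2 := by
        field_simp
    _ = ∑ j, c₀ * (B.mulVec x j) ^ 2 := by rw [Finset.mul_sum]
    _ ≤ ∑ j, c j * (B.mulVec x j) ^ 2 := by
        apply Finset.sum_le_sum
        intro j _
        exact mul_le_mul_of_nonneg_right (hc j) (sq_nonneg _)

lemma exists_pos_le (c : ι → ℝ) (hc : ∀ j, 0 < c j) : ∃ c₀ : ℝ, 0 < c₀ ∧ ∀ j, c₀ ≤ c j := by
  classical
  by_cases h : Nonempty ι
  · obtain ⟨j, hj⟩ := Finite.exists_min c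
    exact ⟨c j, hc j, hj⟩
  · rw [not_nonempty_iff] at h
    exact ⟨1, one_pos, fun j => (h.false j).elim⟩

/-- The theta series. -/
def theta (B : Matrix ι ι ℝ) (c : ι → ℝ) : ℝ :=
  ∑' m : ι → ℤ, Real.exp (-Real.pi * quad B c (castVec m))

/-- the Gaussian function -/
def gaussFun (B : Matrix ι ι ℝ) (c : ι → ℝ) : C(ι → ℝ, ℂ) :=
  ⟨fun x => (Real.exp (-Real.pi * quad B c x) : ℂ), by
    have := continuous_quad B c
    fun_prop⟩

lemma gaussFun_apply (B : Matrix ι ι ℝ) (c : ι → ℝ) (x : ι → ℝ) :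
    gaussFun B c x = (Real.exp (-Real.pi * quad B c x) : ℂ) := rfl

lemma norm_gaussFun (B : Matrix ι ι ℝ) (c : ι → ℝ) (x : ι → ℝ) :
    ‖gaussFun B c x‖ = Real.exp (-Real.pi * quad B c x) := by
  rw [gaussFun_apply, Complex.norm_real, Real.norm_eq_abs, abs_of_pos (Real.exp_pos _)]

lemma summable_exp_quad [DecidableEq ι] (B : Matrix ι ι ℝ) (hB : B.det ≠ 0) (c : ι → ℝ)
    (hc : ∀ j, 0 < c j) :
    Summable fun m : ι → ℤ => Real.exp (-Real.pi * quad B c (castVec m)) := by
  obtain ⟨β, hβ, hq⟩ := exists_quad_lower B hB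
  obtain ⟨c₀, hc₀, hc₀'⟩ := exists_pos_le c hc
  refine Summable.of_nonneg_of_le (fun _ => (Real.exp_pos _).le) (fun m => ?_)
    (summable_exp_castVec (Real.pi * (c₀ * β)) (by positivity))
  apply Real.exp_le_exp.mpr
  have := mul_le_mul_of_nonneg_left (hq c₀ c hc₀.le hc₀' (castVec m)) Real.pi_pos.le
  linarith

lemma summable_restrict_gauss [DecidableEq ι] (B : Matrix ι ι ℝ) (hB : B.det ≠ 0) (c : ι → ℝ)
    (hc : ∀ j, 0 < c j) (K : TopologicalSpace.Compacts (ι → ℝ)) :
    Summable fun n : ι → ℤ =>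
      ‖((gaussFun B c).comp (ContinuousMap.addRight (castVec n))).restrict K‖ := by
  obtain ⟨β, hβ, hq⟩ := exists_quad_lower B hB
  obtain ⟨c₀, hc₀, hc₀'⟩ := exists_pos_le c hc
  obtain ⟨R, hR⟩ := K.isCompact.isBounded.subset_closedBall 0
  set a := Real.pi * (c₀ * β) with ha
  have hapos : 0 < a := by positivity
  refine Summable.of_nonneg_of_le (fun _ => norm_nonneg _) (fun m => ?_)
    ((summable_exp_castVec (a / 2) (by positivity)).mul_left (Real.exp (a * R ^ 2)))
  rw [ContinuousMap.norm_le _ (by positivity)]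
  rintro ⟨x, hx⟩
  have hxR : ‖x‖ ≤ R := by
    have := hR hx
    rwa [mem_closedBall_zero_iff] at this
  simp only [ContinuousMap.restrict_apply, ContinuousMap.comp_apply, ContinuousMap.coe_addRight]
  rw [norm_gaussFun, ← Real.exp_add]
  apply Real.exp_le_exp.mpr
  have h1 := mul_le_mul_of_nonneg_left (hq c₀ c hc₀.le hc₀' (x + castVec m)) Real.pi_pos.le
  have h2 : ‖castVec m‖ ≤ ‖x + castVec m‖ + ‖x‖ := by
    calc ‖castVec m‖ = ‖(x + castVec m) - x‖ := by congr 1; abel
      _ ≤ _ := norm_sub_le _ _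
  have h3 : ‖castVec m‖ ^ 2 ≤ 2 * ‖x + castVec m‖ ^ 2 + 2 * R ^ 2 := by
    have h0 : 0 ≤ ‖castVec m‖ := norm_nonneg _
    have h4 : ‖castVec m‖ ≤ ‖x + castVec m‖ + R := by linarith
    have h5 : 0 ≤ ‖x‖ := norm_nonneg _
    nlinarith [sq_nonneg (‖x + castVec m‖ - R), norm_nonneg (x + castVec m)]
  have h4 : a * ‖x + castVec m‖ ^ 2 ≤ Real.pi * quad B c (x + castVec m) := by
    rw [ha]; linarith
  have h5 : a / 2 * ‖castVec m‖ ^ 2 ≤ a / 2 * (2 * ‖x + castVec m‖ ^ 2 + 2 * R ^ 2) :=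
    mul_le_mul_of_nonneg_left h3 (by positivity)
  linarith

lemma integral_comp_mulVec [DecidableEq ι] (B : Matrix ι ι ℝ) (hB : B.det ≠ 0)
    (g : (ι → ℝ) → ℂ) :
    ∫ x, g (B.mulVec x) = |B.det|⁻¹ * ∫ y, g y := by
  have hemb : MeasurableEmbedding (Matrix.toLin' B : (ι → ℝ) → (ι → ℝ)) := by
    have hinj : Function.Injective (Matrix.toLin' B : (ι → ℝ) → (ι → ℝ)) := by
      intro x y hxy
      have h := congrArg (B⁻¹.mulVec) hxy
      simpa [Matrix.mulVec_mulVec, Matrix.nonsing_inv_mul _ (isUnit_iff_ne_zero.mpr hB)] using h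
    exact (LinearMap.continuous_of_finiteDimensional _).measurableEmbedding hinj
  have h1 := hemb.integral_map (μ := volume) g
  rw [Real.map_matrix_volume_pi_eq_smul_volume_pi hB, integral_smul_measure] at h1
  simp only [Matrix.toLin'_apply] at h1
  rw [← h1, ENNReal.toReal_ofReal (abs_nonneg _), abs_inv, Complex.real_smul]

lemma integral_gauss_one (b : ℝ) (hb : 0 < b) (η : ℝ) :
    ∫ y : ℝ, Complex.exp (-(Real.pi * b) * (y : ℂ) ^ 2 + -(2 * Real.pi * Complex.I * η) * y + 0)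
      = ((b ^ (-(1 / 2) : ℝ) * Real.exp (-Real.pi * (b⁻¹ * η ^ 2)) : ℝ) : ℂ) := by
  have h := integral_cexp_quadratic (b := (-(Real.pi * b) : ℂ)) (by
    simp only [Complex.neg_re]
    have : ((Real.pi : ℂ) * b).re = Real.pi * b := by simp
    rw [this]
    have := Real.pi_pos
    have : 0 < Real.pi * b := by positivity
    linarith) (-(2 * Real.pi * Complex.I * η)) 0
  rw [h, neg_neg]
  have hb' : (b : ℂ) ≠ 0 := by exact_mod_cast hb.ne'
  have hpi : (Real.pi : ℂ) ≠ 0 := by exact_mod_cast Real.pi_ne_zero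
  push_cast
  congr 1
  · have : (Real.pi : ℂ) / (Real.pi * b) = ((b⁻¹ : ℝ) : ℂ) := by
      push_cast
      field_simp
    rw [this, Complex.ofReal_cpow hb.le, ← Complex.ofReal_one]
    rw [show ((1 : ℝ) : ℂ) / 2 = (((1 / 2 : ℝ)) : ℂ) by push_cast; rfl,
      ← Complex.ofReal_cpow (inv_nonneg.mpr hb.le)]
    rw [← Complex.ofReal_cpow hb.le]
    congr 1
    rw [Real.inv_rpow hb.le, Real.rpow_neg hb.le]
  · congr 1
    field_simp
    ring_nf
    simp

lemma fourier_gauss [DecidableEq ι] (B : Matrix ι ι ℝ) (hB : B.det ≠ 0) (c : ι → ℝ)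
    (hc : ∀ j, 0 < c j) (n : ι → ℤ) :
    ∫ x, expChar n x * gaussFun B c x =
      ((|B.det|⁻¹ * (∏ j, c j ^ (-(1 / 2) : ℝ)) *
        Real.exp (-Real.pi * quad (B⁻¹).transpose (fun j => (c j)⁻¹) (castVec n)) : ℝ) : ℂ) := by
  set η : ι → ℝ := (B⁻¹).transpose.mulVec (castVec n) with hη
  set g : (ι → ℝ) → ℂ := fun y => ∏ j, Complex.exp (-(Real.pi * c j) * (y j : ℂ) ^ 2 +
    -(2 * Real.pi * Complex.I * η j) * y j + 0) with hg
  have h1 : ∀ x, expChar n x * gaussFun B c x = g (B.mulVec x) := by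
    intro x
    rw [hg, gaussFun_apply, expChar]
    simp only
    rw [← Complex.exp_sum, Complex.ofReal_exp, ← Complex.exp_add]
    congr 1
    have hdot : (∑ i, (n i : ℂ) * (x i : ℂ)) = ((∑ j, η j * (B.mulVec x j) : ℝ) : ℂ) := by
      have : ∑ i, (n i : ℝ) * x i = ∑ j, η j * (B.mulVec x j) := by
        have e1 : ∑ j, η j * (B.mulVec x j) = dotProduct η (B.mulVec x) := rfl
        have e2 : ∑ i, (n i : ℝ) * x i = dotProduct (castVec n) x := rfl
        rw [e1, e2, hη, Matrix.mulVec_transpose, ← Matrix.dotProduct_mulVec,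
          Matrix.mulVec_mulVec, Matrix.nonsing_inv_mul _ (isUnit_iff_ne_zero.mpr hB),
          Matrix.one_mulVec]
      rw [← this]
      push_cast
      rfl
    rw [hdot, quad]
    push_cast
    rw [Finset.mul_sum, Finset.mul_sum, ← Finset.sum_neg_distrib, ← Finset.sum_add_distrib]
    refine Finset.sum_congr rfl fun j _ => ?_
    ring
  simp_rw [h1]
  rw [integral_comp_mulVec B hB g, hg]
  rw [integral_fintype_prod_volume_eq_prod (fun j (y : ℝ) => Complex.exp
    (-(Real.pi * c j) * (y : ℂ) ^ 2 + -(2 * Real.pi * Complex.I * η j) * y + 0))]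
  simp_rw [integral_gauss_one _ (hc _)]
  rw [← Complex.ofReal_prod, ← Complex.ofReal_mul]
  congr 1
  rw [Finset.prod_mul_distrib, mul_assoc]
  congr 2
  rw [← Real.exp_sum, quad, Finset.mul_sum]

lemma integrable_gauss [DecidableEq ι] (B : Matrix ι ι ℝ) (hB : B.det ≠ 0) (c : ι → ℝ)
    (hc : ∀ j, 0 < c j) : Integrable (gaussFun B c : (ι → ℝ) → ℂ) := by
  -- as the integrable function composed with a linear isomorphism
  have hemb : MeasurableEmbedding (Matrix.toLin' B : (ι → ℝ) → (ι → ℝ)) := by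
    have hinj : Function.Injective (Matrix.toLin' B : (ι → ℝ) → (ι → ℝ)) := by
      intro x y hxy
      have h := congrArg (B⁻¹.mulVec) hxy
      simpa [Matrix.mulVec_mulVec, Matrix.nonsing_inv_mul _ (isUnit_iff_ne_zero.mpr hB)] using h
    exact (LinearMap.continuous_of_finiteDimensional _).measurableEmbedding hinj
  set g : (ι → ℝ) → ℂ := fun y => ∏ j, Complex.exp (-(Real.pi * c j) * (y j : ℂ) ^ 2 +
    0 * y j + 0) with hg
  have hgint : Integrable g := by
    rw [hg]
    refine Integrable.fintype_prod (f := fun j (y : ℝ) => Complex.exp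
      (-(Real.pi * c j) * (y : ℂ) ^ 2 + 0 * y + 0)) (fun j => ?_)
    refine integrable_cexp_quadratic ?_ 0 0
    have : ((Real.pi : ℂ) * c j).re = Real.pi * c j := by simp
    rw [this]
    have := hc j
    positivity
  have h1 : (gaussFun B c : (ι → ℝ) → ℂ) = fun x => g (Matrix.toLin' B x) := by
    ext x
    rw [hg, gaussFun_apply]
    simp only
    rw [← Complex.exp_sum, Complex.ofReal_exp]
    congr 1
    rw [quad]
    push_cast
    rw [Finset.mul_sum]
    refine Finset.sum_congr rfl fun j _ => ?_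
    simp
    ring
  rw [h1]
  rw [← Function.comp_def g, ← hemb.integrable_map_iff,
    Real.map_matrix_volume_pi_eq_smul_volume_pi hB]
  exact hgint.smul_measure ENNReal.ofReal_ne_top

/-- Transformation formula of the theta series. -/
theorem theta_transform [DecidableEq ι] (B : Matrix ι ι ℝ) (hB : B.det ≠ 0) (c : ι → ℝ)
    (hc : ∀ j, 0 < c j) :
    theta B c = |B.det|⁻¹ * (∏ j, c j ^ (-(1 / 2) : ℝ)) *
      theta (B⁻¹).transpose (fun j => (c j)⁻¹) := by
  have hB' : ((B⁻¹).transpose).det ≠ 0 := by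
    rw [Matrix.det_transpose, Matrix.det_nonsing_inv, Ring.inverse_eq_inv']
    exact inv_ne_zero hB
  have hs := summable_exp_quad (B⁻¹).transpose hB' (fun j => (c j)⁻¹)
    (fun j => inv_pos.mpr (hc j))
  have hp := poisson (gaussFun B c) (integrable_gauss B hB c hc)
    (summable_restrict_gauss B hB c hc) (by
      simp_rw [fourier_gauss B hB c hc]
      exact_mod_cast (hs.mul_left _))
  simp_rw [fourier_gauss B hB c hc, gaussFun_apply] at hp
  rw [← Complex.ofReal_tsum, ← Complex.ofReal_tsum, tsum_mul_left] at hp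
  exact_mod_cast hp

end Pool.Agent.Helper4
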