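import Mathlib
import Pool.Agent.helper4.Theta

/-! # Integrated theta functions -/

open MeasureTheory Filter Topology Set

noncomputable section

namespace Pool.Agent.Helper4

variable {ι : Type*} [Fintype ι]

/-- non-constant part of theta series -/
def theta1 (B : Matrix ι ι ℝ) (c : ι → ℝ) : ℝ :=
  ∑' m : {m : ι → ℤ // m ≠ 0}, Real.exp (-Real.pi * quad B c (castVec m.1))

lemma theta_eq_one_add [DecidableEq ι] (B : Matrix ι ι ℝ) (hB : B.det ≠ 0) (c : ι → ℝ)
    (hc : ∀ j, 0 < c j) : theta B c = 1 + theta1 B c := by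
  have hs := summable_exp_quad B hB c hc
  unfold theta theta1
  have h := hs.tsum_subtype_add_tsum_subtype_compl {m : ι → ℤ | m = 0}
  rw [← h]
  congr 1
  have : ({m : ι → ℤ | m = 0} : Set (ι → ℤ)) = {0} := rfl
  rw [this, tsum_singleton (0 : ι → ℤ) (fun m => Real.exp (-Real.pi * quad B c (castVec m)))]
  simp

lemma summable_theta1 [DecidableEq ι] (B : Matrix ι ι ℝ) (hB : B.det ≠ 0) (c : ι → ℝ)
    (hc : ∀ j, 0 < c j) :
    Summable fun m : {m : ι → ℤ // m ≠ 0} => Real.exp (-Real.pi * quad B c (castVec m.1)) :=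
  (summable_exp_quad B hB c hc).comp_injective Subtype.val_injective

lemma theta1_nonneg (B : Matrix ι ι ℝ) (c : ι → ℝ) : 0 ≤ theta1 B c :=
  tsum_nonneg fun _ => (Real.exp_pos _).le

/-- continuity of `theta1` in the parameter -/
lemma continuousOn_theta1 [DecidableEq ι] (B : Matrix ι ι ℝ) (hB : B.det ≠ 0) :
    ContinuousOn (theta1 B) {c | ∀ j, 0 < c j} := by
  obtain ⟨β, hβ, hq⟩ := exists_quad_lower B hB
  intro c hc
  obtain ⟨c₀, hc₀, hc₀'⟩ := exists_pos_le c hc
  have hopen : IsOpen {c' : ι → ℝ | ∀ j, c₀ / 2 < c' j} := by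
    have : {c' : ι → ℝ | ∀ j, c₀ / 2 < c' j} = Set.pi univ (fun _ => Ioi (c₀ / 2)) := by
      ext x; simp
    rw [this]
    exact isOpen_set_pi finite_univ (fun _ _ => isOpen_Ioi)
  have hmem : c ∈ {c' : ι → ℝ | ∀ j, c₀ / 2 < c' j} := by
    intro j
    have := hc₀' j
    linarith
  have hcont : ContinuousOn (theta1 B) {c' : ι → ℝ | ∀ j, c₀ / 2 < c' j} := by
    unfold theta1
    refine continuousOn_tsum (u := fun m : {m : ι → ℤ // m ≠ 0} =>
      Real.exp (-(Real.pi * (c₀ / 2 * β)) * ‖castVec m.1‖ ^ 2)) (fun m => ?_) ?_ ?_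
    · have := continuous_quad' B (castVec m.1)
      exact (by fun_prop : Continuous fun c => Real.exp (-Real.pi * quad B c (castVec m.1))).continuousOn
    · exact (summable_exp_castVec _ (by positivity)).comp_injective Subtype.val_injective
    · intro m c' hc'
      rw [Real.norm_eq_abs, abs_of_pos (Real.exp_pos _)]
      apply Real.exp_le_exp.mpr
      have := mul_le_mul_of_nonneg_left
        (hq (c₀ / 2) c' (by positivity) (fun j => (hc' j).le) (castVec m.1)) Real.pi_pos.le
      linarith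
  exact (hcont.continuousAt (hopen.mem_nhds hmem)).continuousWithinAt

variable {κ : Type*} [Fintype κ]

/-- the parameters `t * exp (λ_j u)` -/
def cvec (lam : ι → (κ → ℝ) →ₗ[ℝ] ℝ) (t : ℝ) (u : κ → ℝ) : ι → ℝ :=
  fun j => t * Real.exp (lam j u)

omit [Fintype ι] [Fintype κ] in
lemma cvec_pos (lam : ι → (κ → ℝ) →ₗ[ℝ] ℝ) {t : ℝ} (ht : 0 < t) (u : κ → ℝ) (j : ι) :
    0 < cvec lam t u j := mul_pos ht (Real.exp_pos _)

lemma continuous_cvec (lam : ι → (κ → ℝ) →ₗ[ℝ] ℝ) :
    Continuous (fun p : ℝ × (κ → ℝ) => cvec lam p.1 p.2) := by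
  unfold cvec
  refine continuous_pi fun j => ?_
  have h : Continuous (lam j : (κ → ℝ) → ℝ) := LinearMap.continuous_of_finiteDimensional _
  fun_prop

/-- lower bound of the exponentials on a bounded set -/
lemma exists_exp_lower (lam : ι → (κ → ℝ) →ₗ[ℝ] ℝ) (D : Set (κ → ℝ))
    (hD : Bornology.IsBounded D) :
    ∃ e₀ : ℝ, 0 < e₀ ∧ ∀ u ∈ D, ∀ j, e₀ ≤ Real.exp (lam j u) := by
  classical
  obtain ⟨R, hR⟩ := hD.exists_norm_le
  set T : ι → ((κ → ℝ) →L[ℝ] ℝ) := fun j => LinearMap.toContinuousLinearMap (lam j) with hT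
  set M := ∑ j, ‖T j‖ with hM
  have hMj : ∀ j, ‖T j‖ ≤ M := fun j =>
    Finset.single_le_sum (f := fun j => ‖T j‖) (fun j _ => norm_nonneg _) (Finset.mem_univ j)
  refine ⟨Real.exp (-(M * |R|)), Real.exp_pos _, fun u hu j => ?_⟩
  apply Real.exp_le_exp.mpr
  have h1 : |lam j u| ≤ M * |R| := by
    calc |lam j u| = ‖T j u‖ := rfl
      _ ≤ ‖T j‖ * ‖u‖ := (T j).le_opNorm u
      _ ≤ M * |R| := by
        apply mul_le_mul (hMj j) ((hR u hu).trans (le_abs_self R)) (norm_nonneg _)
        exact Finset.sum_nonneg fun j _ => norm_nonneg _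
  have := neg_abs_le (lam j u)
  linarith

/-- The integrated theta function -/
def thetaInt (B : Matrix ι ι ℝ) (lam : ι → (κ → ℝ) →ₗ[ℝ] ℝ) (D : Set (κ → ℝ)) (t : ℝ) : ℝ :=
  ∫ u in D, theta1 B (cvec lam t u)

section bounds

variable [DecidableEq ι] (B : Matrix ι ι ℝ) (hB : B.det ≠ 0) (lam : ι → (κ → ℝ) →ₗ[ℝ] ℝ)
  (D : Set (κ → ℝ)) (hD : Bornology.IsBounded D)

include hB in
lemma continuousOn_theta1_cvec :
    ContinuousOn (fun p : ℝ × (κ → ℝ) => theta1 B (cvec lam p.1 p.2)) {p | 0 < p.1} := by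
  refine (continuousOn_theta1 B hB).comp (continuous_cvec lam).continuousOn ?_
  intro p hp j
  exact cvec_pos lam hp _ j

include hB in
lemma continuous_theta1_cvec {t : ℝ} (ht : 0 < t) :
    Continuous (fun u : κ → ℝ => theta1 B (cvec lam t u)) := by
  rw [← continuousOn_univ]
  refine (continuousOn_theta1_cvec B hB lam).comp
    (f := fun u : κ → ℝ => ((t, u) : ℝ × (κ → ℝ))) ?_ ?_
  · fun_prop
  · intro u _
    exact ht

include hB hD in
/-- the quadratic form is bounded below uniformly. -/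
lemma exists_gamma : ∃ γ : ℝ, 0 < γ ∧ ∀ u ∈ D, ∀ t : ℝ, 0 < t → ∀ x,
    t * γ * ‖x‖ ^ 2 ≤ quad B (cvec lam t u) x := by
  obtain ⟨β, hβ, hq⟩ := exists_quad_lower B hB
  obtain ⟨e₀, he₀, he₀'⟩ := exists_exp_lower lam D hD
  refine ⟨e₀ * β, by positivity, fun u hu t ht x => ?_⟩
  have := hq (t * e₀) (cvec lam t u) (by positivity)
    (fun j => mul_le_mul_of_nonneg_left (he₀' u hu j) ht.le) x
  linarith

include hB hD in
lemma exists_theta1_bound : ∃ a C : ℝ, 0 < a ∧ 0 ≤ C ∧ ∀ t₀ : ℝ, 0 < t₀ → ∀ t, t₀ ≤ t → ∀ u ∈ D,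
    theta1 B (cvec lam t u) ≤
      Real.exp (-a * (t - t₀)) * ∑' m : {m : ι → ℤ // m ≠ 0},
        Real.exp (-(a * t₀) * ‖castVec m.1‖ ^ 2) := by
  obtain ⟨γ, hγ, hq⟩ := exists_gamma B hB lam D hD
  refine ⟨Real.pi * γ, 0, by positivity, le_rfl, fun t₀ ht₀ t ht u hu => ?_⟩
  have htpos : 0 < t := lt_of_lt_of_le ht₀ ht
  rw [← tsum_mul_left]
  unfold theta1
  have hs2 : Summable fun m : {m : ι → ℤ // m ≠ 0} =>
      Real.exp (-(Real.pi * γ * t₀) * ‖castVec m.1‖ ^ 2) :=
    (summable_exp_castVec _ (by positivity)).comp_injective Subtype.val_injective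
  refine (summable_theta1 B hB _ (cvec_pos lam htpos u)).tsum_le_tsum (fun m => ?_)
    (hs2.mul_left _)
  rw [← Real.exp_add]
  apply Real.exp_le_exp.mpr
  have h1 := mul_le_mul_of_nonneg_left (hq u hu t htpos (castVec m.1)) Real.pi_pos.le
  have h2 : 1 ≤ ‖castVec m.1‖ ^ 2 := by
    have := one_le_norm_castVec m.2
    nlinarith
  have h3 : 0 ≤ Real.pi * γ * (t - t₀) := by
    have : 0 ≤ t - t₀ := by linarith
    positivity
  nlinarith [mul_le_mul_of_nonneg_left h2 h3]

include hB hD in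
lemma integrableOn_theta1 {t : ℝ} (ht : 0 < t) (hDm : MeasurableSet D) :
    IntegrableOn (fun u : κ → ℝ => theta1 B (cvec lam t u)) D := by
  obtain ⟨a, C, ha, hC, hbd⟩ := exists_theta1_bound B hB lam D hD
  refine Measure.integrableOn_of_bounded (M := Real.exp (-a * (t - t)) *
    ∑' m : {m : ι → ℤ // m ≠ 0}, Real.exp (-(a * t) * ‖castVec m.1‖ ^ 2)) hD.measure_lt_top.ne
    (continuous_theta1_cvec B hB lam ht).aestronglyMeasurable ?_
  rw [ae_restrict_iff' hDm]
  refine ae_of_all _ fun u hu => ?_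
  rw [Real.norm_eq_abs, abs_of_nonneg (theta1_nonneg _ _)]
  exact hbd t ht t le_rfl u hu

lemma thetaInt_nonneg (t : ℝ) : 0 ≤ thetaInt B lam D t :=
  integral_nonneg fun _ => theta1_nonneg _ _

include hB hD in
lemma continuousOn_thetaInt (hDm : MeasurableSet D) :
    ContinuousOn (thetaInt B lam D) (Ioi 0) := by
  obtain ⟨a, C, ha, hC, hbd⟩ := exists_theta1_bound B hB lam D hD
  intro t₀ ht₀
  rw [mem_Ioi] at ht₀
  apply ContinuousAt.continuousWithinAt
  unfold thetaInt
  have hnhds : ∀ᶠ t in 𝓝 t₀, t₀ / 2 < t := lt_mem_nhds (by linarith)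
  refine continuousAt_of_dominated (bound := fun _ =>
    ∑' m : {m : ι → ℤ // m ≠ 0}, Real.exp (-(a * (t₀ / 2)) * ‖castVec m.1‖ ^ 2)) ?_ ?_ ?_ ?_
  · filter_upwards [hnhds] with t ht
    exact (continuous_theta1_cvec B hB lam (by linarith : 0 < t)).aestronglyMeasurable
  · filter_upwards [hnhds] with t ht
    rw [ae_restrict_iff' hDm]
    refine ae_of_all _ fun u hu => ?_
    rw [Real.norm_eq_abs, abs_of_nonneg (theta1_nonneg _ _)]
    refine (hbd (t₀ / 2) (by positivity) t ht.le u hu).trans ?_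
    refine mul_le_of_le_one_left (tsum_nonneg fun _ => (Real.exp_pos _).le) ?_
    rw [Real.exp_le_one_iff]
    have : 0 ≤ t - t₀ / 2 := by linarith
    nlinarith
  · exact integrableOn_const hD.measure_lt_top.ne
  · refine ae_of_all _ fun u => ?_
    have h1 := continuousOn_theta1_cvec B hB lam
    have hopen : IsOpen {p : ℝ × (κ → ℝ) | 0 < p.1} := isOpen_lt continuous_const continuous_fst
    have h2 : ContinuousAt (fun p : ℝ × (κ → ℝ) => theta1 B (cvec lam p.1 p.2)) (t₀, u) :=
      h1.continuousAt (hopen.mem_nhds ht₀)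
    exact h2.comp (f := fun t : ℝ => ((t, u) : ℝ × (κ → ℝ))) (by fun_prop)

include hB hD in
lemma thetaInt_decay (hDm : MeasurableSet D) :
    ∃ a M : ℝ, 0 < a ∧ ∀ t, 1 ≤ t → thetaInt B lam D t ≤ M * Real.exp (-a * t) := by
  obtain ⟨a, C, ha, hC, hbd⟩ := exists_theta1_bound B hB lam D hD
  set S := ∑' m : {m : ι → ℤ // m ≠ 0}, Real.exp (-(a * 1) * ‖castVec m.1‖ ^ 2) with hS
  refine ⟨a, volume.real D * (Real.exp a * S), ha, fun t ht => ?_⟩
  unfold thetaInt
  calc ∫ u in D, theta1 B (cvec lam t u) ≤ ∫ u in D, Real.exp (-a * (t - 1)) * S := by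
        refine setIntegral_mono_on (integrableOn_theta1 B hB lam D hD (by linarith) hDm)
          (integrableOn_const hD.measure_lt_top.ne) hDm fun u hu => ?_
        exact hbd 1 one_pos t ht u hu
    _ = volume.real D * (Real.exp (-a * (t - 1)) * S) := by
        rw [setIntegral_const, smul_eq_mul]
    _ = volume.real D * (Real.exp a * S) * Real.exp (-a * t) := by
        rw [show -a * (t - 1) = a + -a * t by ring, Real.exp_add]
        ring

include hB in
lemma det_dual_ne_zero' : ((B⁻¹).transpose).det ≠ 0 := by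
  rw [Matrix.det_transpose, Matrix.det_nonsing_inv, Ring.inverse_eq_inv']
  exact inv_ne_zero hB

include hB hD in
/-- Functional equation of the integrated theta function. -/
lemma thetaInt_feq (hDm : MeasurableSet D) (hlam : ∀ u, ∑ j, lam j u = 0) {t : ℝ} (ht : 0 < t) :
    volume.real D + thetaInt B lam D (1 / t) =
      |B.det|⁻¹ * t ^ ((Fintype.card ι : ℝ) / 2) *
        (volume.real D + thetaInt (B⁻¹).transpose (fun j => -lam j) D t) := by
  have ht' : 0 < 1 / t := by positivity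
  have hB' := det_dual_ne_zero' B hB
  have hc1 : Integrable (fun _ : κ → ℝ => (1 : ℝ)) (volume.restrict D) :=
    integrableOn_const hD.measure_lt_top.ne
  have e1 : volume.real D + thetaInt B lam D (1 / t)
      = ∫ u in D, theta B (cvec lam (1 / t) u) := by
    have : ∀ u, theta B (cvec lam (1 / t) u) = 1 + theta1 B (cvec lam (1 / t) u) := fun u =>
      theta_eq_one_add B hB _ (cvec_pos lam ht' u)
    simp_rw [this]
    rw [integral_add hc1
      (integrableOn_theta1 B hB lam D hD ht' hDm), setIntegral_const, smul_eq_mul, mul_one]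
    rfl
  have e2 : volume.real D + thetaInt (B⁻¹).transpose (fun j => -lam j) D t
      = ∫ u in D, theta (B⁻¹).transpose (cvec (fun j => -lam j) t u) := by
    have : ∀ u, theta (B⁻¹).transpose (cvec (fun j => -lam j) t u)
        = 1 + theta1 (B⁻¹).transpose (cvec (fun j => -lam j) t u) := fun u =>
      theta_eq_one_add _ hB' _ (cvec_pos _ ht u)
    simp_rw [this]
    rw [integral_add hc1
      (integrableOn_theta1 _ hB' _ D hD ht hDm), setIntegral_const, smul_eq_mul, mul_one]
    rfl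
  rw [e1, e2, ← integral_const_mul]
  congr 1
  ext u
  rw [theta_transform B hB _ (cvec_pos lam ht' u)]
  have hinv : (fun j => (cvec lam (1 / t) u j)⁻¹) = cvec (fun j => -lam j) t u := by
    ext j
    simp only [cvec, LinearMap.neg_apply, Real.exp_neg]
    field_simp
  rw [hinv]
  congr 2
  have h1 : ∏ j, cvec lam (1 / t) u j ^ (-(1 / 2) : ℝ)
      = (∏ j, cvec lam (1 / t) u j) ^ (-(1 / 2) : ℝ) := by
    rw [Real.finsetProd_rpow]
    intro j _
    exact (cvec_pos lam ht' u j).le
  rw [h1]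
  have h2 : ∏ j, cvec lam (1 / t) u j = (1 / t) ^ (Fintype.card ι) := by
    simp only [cvec]
    rw [Finset.prod_mul_distrib, ← Real.exp_sum, hlam, Real.exp_zero, mul_one,
      Finset.prod_const, Finset.card_univ]
  rw [h2, one_div, inv_pow, ← Real.rpow_natCast, Real.inv_rpow (by positivity),
    ← Real.rpow_mul ht.le, ← Real.rpow_neg (by positivity)]
  congr 1
  ring

/-- The FE-pair attached to an integrated theta function. -/
def thetaPair [Nonempty ι] (hDm : MeasurableSet D) (hlam : ∀ u, ∑ j, lam j u = 0) :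
    WeakFEPair ℂ where
  f t := ((volume.real D + thetaInt B lam D t : ℝ) : ℂ)
  g t := ((volume.real D + thetaInt (B⁻¹).transpose (fun j => -lam j) D t : ℝ) : ℂ)
  k := (Fintype.card ι : ℝ) / 2
  ε := ((|B.det|⁻¹ : ℝ) : ℂ)
  f₀ := ((volume.real D : ℝ) : ℂ)
  g₀ := ((volume.real D : ℝ) : ℂ)
  hf_int := by
    refine ContinuousOn.locallyIntegrableOn ?_ measurableSet_Ioi
    have := continuousOn_thetaInt B hB lam D hD hDm
    fun_prop
  hg_int := by
    refine ContinuousOn.locallyIntegrableOn ?_ measurableSet_Ioi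
    have := continuousOn_thetaInt _ (det_dual_ne_zero' B hB) (fun j => -lam j) D hD hDm
    fun_prop
  hk := by
    have : 0 < Fintype.card ι := Fintype.card_pos
    positivity
  hε := by
    rw [Ne, Complex.ofReal_eq_zero]
    exact inv_ne_zero (abs_ne_zero.mpr hB)
  h_feq := by
    intro t ht
    have := thetaInt_feq B hB lam D hD hDm hlam ht
    rw [this]
    push_cast
    rfl
  hf_top := by
    intro r
    obtain ⟨a, M, ha, hM⟩ := thetaInt_decay B hB lam D hD hDm
    have h1 : (fun t => ((volume.real D + thetaInt B lam D t : ℝ) : ℂ)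
        - ((volume.real D : ℝ) : ℂ)) =O[atTop] fun t => Real.exp (-a * t) := by
      refine Asymptotics.IsBigO.of_bound M ?_
      filter_upwards [eventually_ge_atTop 1] with t ht
      rw [← Complex.ofReal_sub, add_sub_cancel_left, Complex.norm_real, Real.norm_eq_abs,
        abs_of_nonneg (thetaInt_nonneg _ _ _ _), Real.norm_eq_abs, abs_of_pos (Real.exp_pos _)]
      exact hM t ht
    exact h1.trans (isLittleO_exp_neg_mul_rpow_atTop ha r).isBigO
  hg_top := by
    intro r
    obtain ⟨a, M, ha, hM⟩ := thetaInt_decay _ (det_dual_ne_zero' B hB) (fun j => -lam j) D hD hDm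
    have h1 : (fun t => ((volume.real D + thetaInt (B⁻¹).transpose (fun j => -lam j) D t : ℝ) : ℂ)
        - ((volume.real D : ℝ) : ℂ)) =O[atTop] fun t => Real.exp (-a * t) := by
      refine Asymptotics.IsBigO.of_bound M ?_
      filter_upwards [eventually_ge_atTop 1] with t ht
      rw [← Complex.ofReal_sub, add_sub_cancel_left, Complex.norm_real, Real.norm_eq_abs,
        abs_of_nonneg (thetaInt_nonneg _ _ _ _), Real.norm_eq_abs, abs_of_pos (Real.exp_pos _)]
      exact hM t ht
    exact h1.trans (isLittleO_exp_neg_mul_rpow_atTop ha r).isBigO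

/-- one term of the integrated theta function -/
def thetaTerm (x : ι → ℝ) (t : ℝ) : ℝ :=
  ∫ u in D, Real.exp (-Real.pi * quad B (cvec lam t u) x)

lemma continuous_quad_cvec (x : ι → ℝ) :
    Continuous (fun p : ℝ × (κ → ℝ) => Real.exp (-Real.pi * quad B (cvec lam p.1 p.2) x)) := by
  have := (continuous_quad' B x).comp (continuous_cvec lam)
  simp only [Function.comp_def] at this
  fun_prop

lemma stronglyMeasurable_thetaTerm (x : ι → ℝ) :
    StronglyMeasurable (thetaTerm B lam D x) := by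
  unfold thetaTerm
  exact (continuous_quad_cvec B lam x).stronglyMeasurable.integral_prod_right'

lemma thetaTerm_nonneg (x : ι → ℝ) (t : ℝ) : 0 ≤ thetaTerm B lam D x t :=
  integral_nonneg fun _ => (Real.exp_pos _).le

include hB hD in
lemma exists_thetaTerm_bound (hDm : MeasurableSet D) : ∃ γ : ℝ, 0 < γ ∧ ∀ x, ∀ t, 0 < t →
    thetaTerm B lam D x t ≤ volume.real D * Real.exp (-(γ * ‖x‖ ^ 2) * t) := by
  obtain ⟨γ, hγ, hq⟩ := exists_gamma B hB lam D hD
  refine ⟨Real.pi * γ, by positivity, fun x t ht => ?_⟩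
  unfold thetaTerm
  have hle : ∀ u ∈ D, Real.exp (-Real.pi * quad B (cvec lam t u) x)
      ≤ Real.exp (-(Real.pi * γ * ‖x‖ ^ 2) * t) := by
    intro u hu
    apply Real.exp_le_exp.mpr
    have := mul_le_mul_of_nonneg_left (hq u hu t ht x) Real.pi_pos.le
    linarith
  have hint : IntegrableOn (fun u => Real.exp (-Real.pi * quad B (cvec lam t u) x)) D := by
    refine Measure.integrableOn_of_bounded (M := Real.exp (-(Real.pi * γ * ‖x‖ ^ 2) * t))
      hD.measure_lt_top.ne ?_ ?_
    · have : Continuous (fun u : κ → ℝ => Real.exp (-Real.pi * quad B (cvec lam t u) x)) :=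
        (continuous_quad_cvec B lam x).comp (f := fun u => ((t, u) : ℝ × (κ → ℝ))) (by fun_prop)
      exact this.aestronglyMeasurable
    · rw [ae_restrict_iff' hDm]
      refine ae_of_all _ fun u hu => ?_
      rw [Real.norm_eq_abs, abs_of_pos (Real.exp_pos _)]
      exact hle u hu
  calc _ ≤ ∫ u in D, Real.exp (-(Real.pi * γ * ‖x‖ ^ 2) * t) :=
        setIntegral_mono_on hint (integrableOn_const hD.measure_lt_top.ne) hDm hle
    _ = _ := by rw [setIntegral_const, smul_eq_mul]

include hB hD in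
lemma integrableOn_expquad (hDm : MeasurableSet D) (x : ι → ℝ) {t : ℝ} (ht : 0 < t) :
    IntegrableOn (fun u => Real.exp (-Real.pi * quad B (cvec lam t u) x)) D := by
  obtain ⟨γ, hγ, hq⟩ := exists_gamma B hB lam D hD
  refine Measure.integrableOn_of_bounded (M := 1) hD.measure_lt_top.ne ?_ ?_
  · have : Continuous (fun u : κ → ℝ => Real.exp (-Real.pi * quad B (cvec lam t u) x)) :=
      (continuous_quad_cvec B lam x).comp (f := fun u => ((t, u) : ℝ × (κ → ℝ))) (by fun_prop)
    exact this.aestronglyMeasurable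
  · rw [ae_restrict_iff' hDm]
    refine ae_of_all _ fun u hu => ?_
    rw [Real.norm_eq_abs, abs_of_pos (Real.exp_pos _), Real.exp_le_one_iff]
    have := mul_le_mul_of_nonneg_left (hq u hu t ht x) Real.pi_pos.le
    have : 0 ≤ Real.pi * (t * γ * ‖x‖ ^ 2) := by positivity
    linarith

include hB hD in
lemma hasSum_thetaTerm (hDm : MeasurableSet D) {t : ℝ} (ht : 0 < t) :
    HasSum (fun m : {m : ι → ℤ // m ≠ 0} => thetaTerm B lam D (castVec m.1) t)
      (thetaInt B lam D t) := by
  obtain ⟨γ, hγ, hq⟩ := exists_thetaTerm_bound B hB lam D hD hDm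
  unfold thetaInt theta1 thetaTerm
  refine hasSum_integral_of_summable_integral_norm (fun m => ?_) ?_
  · exact integrableOn_expquad B hB lam D hD hDm _ ht
  · have h1 : ∀ m : {m : ι → ℤ // m ≠ 0},
        ∫ u in D, ‖Real.exp (-Real.pi * quad B (cvec lam t u) (castVec m.1))‖
          = thetaTerm B lam D (castVec m.1) t := by
      intro m
      unfold thetaTerm
      simp only [Real.norm_eq_abs, Real.abs_exp]
    simp_rw [h1]
    refine Summable.of_nonneg_of_le (fun m => thetaTerm_nonneg _ _ _ _ _)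
      (fun m => hq (castVec m.1) t ht) ?_
    refine Summable.mul_left _ ?_
    have := (summable_exp_castVec (ι := ι) (γ * t) (by positivity)).comp_injective
      (Subtype.val_injective (p := fun m : ι → ℤ => m ≠ 0))
    refine this.congr fun m => ?_
    simp only [Function.comp_apply]
    congr 1
    ring

lemma norm_cpow_mul_thetaTerm (x : ι → ℝ) (w : ℂ) {t : ℝ} (ht : 0 < t) :
    ‖((t : ℂ) ^ (w - 1)) • ((thetaTerm B lam D x t : ℝ) : ℂ)‖
      = t ^ (w.re - 1) * thetaTerm B lam D x t := by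
  rw [norm_smul, Complex.norm_cpow_eq_rpow_re_of_pos ht, Complex.norm_real, Real.norm_eq_abs,
    abs_of_nonneg (thetaTerm_nonneg _ _ _ _ _)]
  simp

include hB hD in
/-- Norm bounds for the Mellin transform of one term. -/
lemma exists_mellin_term_bound (hDm : MeasurableSet D) : ∃ γ : ℝ, 0 < γ ∧
    ∀ (w : ℂ), 0 < w.re → ∀ x : ι → ℝ, x ≠ 0 →
      Integrable (fun t : ℝ => ((t : ℂ) ^ (w - 1)) • ((thetaTerm B lam D x t : ℝ) : ℂ))
        (volume.restrict (Ioi 0)) ∧
      ∫ t in Ioi (0 : ℝ), ‖((t : ℂ) ^ (w - 1)) • ((thetaTerm B lam D x t : ℝ) : ℂ)‖ ≤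
        volume.real D * (Real.Gamma w.re * γ ^ (-w.re)) * ‖x‖ ^ (-2 * w.re) := by
  obtain ⟨γ, hγ, hq⟩ := exists_thetaTerm_bound B hB lam D hD hDm
  refine ⟨γ, hγ, fun w hw x hx => ?_⟩
  have hxn : 0 < ‖x‖ := norm_pos_iff.mpr hx
  have hb : 0 < γ * ‖x‖ ^ 2 := by positivity
  have hgi : IntegrableOn (fun t : ℝ => volume.real D *
      (t ^ (w.re - 1) * Real.exp (-(γ * ‖x‖ ^ 2) * t))) (Ioi 0) := by
    refine Integrable.const_mul ?_ _
    have := integrableOn_rpow_mul_exp_neg_mul_rpow (p := 1) (s := w.re - 1)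
      (b := γ * ‖x‖ ^ 2) (by linarith) one_pos hb
    simpa [IntegrableOn] using this
  have hle : ∀ t ∈ Ioi (0 : ℝ), ‖((t : ℂ) ^ (w - 1)) • ((thetaTerm B lam D x t : ℝ) : ℂ)‖
      ≤ volume.real D * (t ^ (w.re - 1) * Real.exp (-(γ * ‖x‖ ^ 2) * t)) := by
    intro t ht
    rw [mem_Ioi] at ht
    rw [norm_cpow_mul_thetaTerm B lam D x w ht]
    have := hq x t ht
    have h2 : 0 ≤ t ^ (w.re - 1) := by positivity
    calc _ ≤ t ^ (w.re - 1) * (volume.real D * Real.exp (-(γ * ‖x‖ ^ 2) * t)) :=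
          mul_le_mul_of_nonneg_left this h2
      _ = _ := by ring
  have hmeas : AEStronglyMeasurable
      (fun t : ℝ => ((t : ℂ) ^ (w - 1)) • ((thetaTerm B lam D x t : ℝ) : ℂ))
      (volume.restrict (Ioi 0)) := by
    have hA : AEStronglyMeasurable (fun t : ℝ => (t : ℂ) ^ (w - 1)) (volume.restrict (Ioi 0)) := by
      refine ContinuousOn.aestronglyMeasurable ?_ measurableSet_Ioi
      intro t ht
      have : ContinuousAt (fun t : ℝ => (t : ℂ) ^ (w - 1)) t :=
        Complex.continuousAt_ofReal_cpow_const _ _ (Or.inr (ne_of_gt ht))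
      exact this.continuousWithinAt
    have hB' : AEStronglyMeasurable (fun t : ℝ => ((thetaTerm B lam D x t : ℝ) : ℂ))
        (volume.restrict (Ioi 0)) :=
      (Complex.continuous_ofReal.comp_stronglyMeasurable
        (stronglyMeasurable_thetaTerm B lam D x)).aestronglyMeasurable
    exact hA.smul hB'
  have hint : Integrable (fun t : ℝ => ((t : ℂ) ^ (w - 1)) • ((thetaTerm B lam D x t : ℝ) : ℂ))
      (volume.restrict (Ioi 0)) := by
    refine Integrable.mono' hgi hmeas ?_
    rw [ae_restrict_iff' measurableSet_Ioi]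
    exact ae_of_all _ hle
  refine ⟨hint, ?_⟩
  calc _ ≤ ∫ t in Ioi (0 : ℝ), volume.real D *
        (t ^ (w.re - 1) * Real.exp (-(γ * ‖x‖ ^ 2) * t)) :=
        setIntegral_mono_on hint.norm hgi measurableSet_Ioi hle
    _ = volume.real D * ((1 / (γ * ‖x‖ ^ 2)) ^ w.re * Real.Gamma w.re) := by
        rw [integral_const_mul]
        congr 1
        have := Real.integral_rpow_mul_exp_neg_mul_Ioi hw hb
        rw [← this]
        simp only [neg_mul]
    _ = _ := by
        rw [one_div, Real.inv_rpow hb.le, Real.mul_rpow hγ.le (by positivity), mul_inv,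
          ← Real.rpow_neg hγ.le, ← Real.rpow_natCast ‖x‖ 2, ← Real.rpow_mul (norm_nonneg x),
          ← Real.rpow_neg (norm_nonneg x)]
        push_cast
        rw [show -2 * w.re = -(2 * w.re) by ring]
        ring

include hB hD in
lemma summable_mellin_term (hDm : MeasurableSet D) {w : ℂ}
    (hw : (Fintype.card ι : ℝ) / 2 < w.re) :
    Summable (fun m : {m : ι → ℤ // m ≠ 0} => ∫ t in Ioi (0 : ℝ),
      ‖((t : ℂ) ^ (w - 1)) • ((thetaTerm B lam D (castVec m.1) t : ℝ) : ℂ)‖) := by
  obtain ⟨γ, hγ, hq⟩ := exists_mellin_term_bound B hB lam D hD hDm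
  have hw0 : 0 < w.re := lt_of_le_of_lt (by positivity) hw
  refine Summable.of_nonneg_of_le (fun m => integral_nonneg fun _ => norm_nonneg _)
    (fun m => (hq w hw0 (castVec m.1) (castVec_ne_zero m.2)).2) ?_
  refine Summable.mul_left _ ?_
  exact (summable_castVec_rpow (ι := ι) (-2 * w.re) (by linarith)).comp_injective
    (Subtype.val_injective (p := fun m : ι → ℤ => m ≠ 0))

include hB hD in
/-- Expansion of the completed zeta function. -/
theorem hasSum_Lambda [Nonempty ι] (hDm : MeasurableSet D) (hlam : ∀ u, ∑ j, lam j u = 0) {w : ℂ}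
    (hw : (Fintype.card ι : ℝ) / 2 < w.re) :
    HasSum (fun m : {m : ι → ℤ // m ≠ 0} => ∫ t in Ioi (0 : ℝ),
      ((t : ℂ) ^ (w - 1)) • ((thetaTerm B lam D (castVec m.1) t : ℝ) : ℂ))
      ((thetaPair B hB lam D hD hDm hlam).Λ w) := by
  have hM := (thetaPair B hB lam D hD hDm hlam).hasMellin (s := w) hw
  rw [← hM.2, mellin]
  obtain ⟨γ, hγ, hq⟩ := exists_mellin_term_bound B hB lam D hD hDm
  have hw0 : 0 < w.re := lt_of_le_of_lt (by positivity) hw
  have h1 := hasSum_integral_of_summable_integral_norm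
    (F := fun (m : {m : ι → ℤ // m ≠ 0}) (t : ℝ) =>
      ((t : ℂ) ^ (w - 1)) • ((thetaTerm B lam D (castVec m.1) t : ℝ) : ℂ))
    (μ := volume.restrict (Ioi (0 : ℝ)))
    (fun m => (hq w hw0 (castVec m.1) (castVec_ne_zero m.2)).1)
    (summable_mellin_term B hB lam D hD hDm hw)
  have heq : ∫ t in Ioi (0 : ℝ), (t : ℂ) ^ (w - 1) •
        ((thetaPair B hB lam D hD hDm hlam).f t - (thetaPair B hB lam D hD hDm hlam).f₀)
      = ∫ t in Ioi (0 : ℝ), ∑' m : {m : ι → ℤ // m ≠ 0},
        ((t : ℂ) ^ (w - 1)) • ((thetaTerm B lam D (castVec m.1) t : ℝ) : ℂ) := by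
    apply setIntegral_congr_fun measurableSet_Ioi
    intro t ht
    simp only [smul_eq_mul]
    rw [tsum_mul_left]
    congr 1
    have h2 := (hasSum_thetaTerm B hB lam D hD hDm ht).tsum_eq
    rw [← Complex.ofReal_tsum, h2]
    simp only [thetaPair]
    push_cast
    ring
  rw [heq]
  exact h1

end bounds

end Pool.Agent.Helper4
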