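import Mathlib
import Pool.Agent.helper4.Theta

/-! # Poisson summation for shifted complex Gaussians with linear factors -/

open MeasureTheory Filter Topology Set

noncomputable section

namespace Pool.Agent.Helper4

set_option linter.unusedSectionVars false

variable {ι : Type*} [Fintype ι] [DecidableEq ι]

/-- one factor -/
def gfac (J : Finset ι) (c : ι → ℂ) (j : ι) (y : ℝ) : ℂ :=
  (if j ∈ J then (y : ℂ) else 1) * Complex.exp (-(Real.pi * c j) * (y : ℂ) ^ 2)

lemma continuous_gfac (J : Finset ι) (c : ι → ℂ) (j : ι) : Continuous (gfac J c j) := by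
  unfold gfac
  split_ifs <;> fun_prop

/-- constant in the Gaussian bound -/
def gC (a : ℝ) : ℝ := 1 / (Real.pi * a) + 1

lemma gC_pos {a : ℝ} (ha : 0 < a) : 0 < gC a := by
  unfold gC; positivity

lemma one_le_gC {a : ℝ} (ha : 0 < a) : 1 ≤ gC a := by
  unfold gC
  have : 0 < 1 / (Real.pi * a) := by positivity
  linarith

lemma abs_le_gC {a : ℝ} (ha : 0 < a) (y : ℝ) :
    |y| ≤ gC a * Real.exp (Real.pi * (a / 2) * y ^ 2) := by
  have h1 : 1 + Real.pi * (a / 2) * y ^ 2 ≤ Real.exp (Real.pi * (a / 2) * y ^ 2) := by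
    have := Real.add_one_le_exp (Real.pi * (a / 2) * y ^ 2)
    linarith
  have h2 : gC a * (1 + Real.pi * (a / 2) * y ^ 2) ≤
      gC a * Real.exp (Real.pi * (a / 2) * y ^ 2) := mul_le_mul_of_nonneg_left h1 (gC_pos ha).le
  refine le_trans ?_ h2
  have h3 : gC a * (1 + Real.pi * (a / 2) * y ^ 2)
      = 1 / (Real.pi * a) + 1 + y ^ 2 / 2 + Real.pi * (a / 2) * y ^ 2 := by
    unfold gC
    have := Real.pi_ne_zero
    field_simp
    ring
  rw [h3]
  have h4 : 0 < 1 / (Real.pi * a) := by positivity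
  have h5 : 0 ≤ Real.pi * (a / 2) * y ^ 2 := by positivity
  rcases abs_cases y with ⟨h, _⟩ | ⟨h, _⟩ <;> rw [h] <;> nlinarith [sq_nonneg (y - 1), sq_nonneg (y + 1)]

lemma norm_gfac_le (J : Finset ι) (c : ι → ℂ) (j : ι) (hc : 0 < (c j).re) (y : ℝ) :
    ‖gfac J c j y‖ ≤ gC (c j).re * Real.exp (-Real.pi * ((c j).re / 2 * y ^ 2)) := by
  unfold gfac
  rw [norm_mul, Complex.norm_exp]
  have e1 : (-(Real.pi * c j) * (y : ℂ) ^ 2).re = -Real.pi * ((c j).re * y ^ 2) := by
    have : (-(Real.pi * c j) * (y : ℂ) ^ 2) = ((-(Real.pi * y ^ 2) : ℝ) : ℂ) * c j := by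
      push_cast; ring
    rw [this, Complex.re_ofReal_mul]
    ring
  rw [e1]
  have e2 : Real.exp (-Real.pi * ((c j).re * y ^ 2))
      = Real.exp (-(Real.pi * ((c j).re / 2) * y ^ 2))
        * Real.exp (-Real.pi * ((c j).re / 2 * y ^ 2)) := by
    rw [← Real.exp_add]; congr 1; ring
  have h1 : ‖(if j ∈ J then (y : ℂ) else 1)‖
      ≤ gC (c j).re * Real.exp (Real.pi * ((c j).re / 2) * y ^ 2) := by
    split_ifs
    · rw [Complex.norm_real, Real.norm_eq_abs]
      exact abs_le_gC hc y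
    · rw [norm_one]
      have h2 := one_le_gC hc
      have h3 : 1 ≤ Real.exp (Real.pi * ((c j).re / 2) * y ^ 2) := by
        apply Real.one_le_exp
        positivity
      nlinarith
  rw [e2, ← mul_assoc]
  refine mul_le_mul_of_nonneg_right ?_ (Real.exp_pos _).le
  calc _ ≤ (gC (c j).re * Real.exp (Real.pi * ((c j).re / 2) * y ^ 2)) *
        Real.exp (-(Real.pi * ((c j).re / 2) * y ^ 2)) :=
        mul_le_mul_of_nonneg_right h1 (Real.exp_pos _).le
    _ = gC (c j).re := by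
        rw [mul_assoc, ← Real.exp_add, add_neg_cancel, Real.exp_zero, mul_one]

/-- The general Gaussian function. -/
def genFun (B : Matrix ι ι ℝ) (J : Finset ι) (c : ι → ℂ) (h : ι → ℝ) : C(ι → ℝ, ℂ) :=
  ⟨fun x => ∏ j, gfac J c j (B.mulVec (x + h) j), by
    refine continuous_finsetProd _ fun j _ => (continuous_gfac J c j).comp ?_
    have : Continuous (fun x : ι → ℝ => B.mulVec (x + h)) := by fun_prop
    fun_prop⟩

lemma genFun_apply (B : Matrix ι ι ℝ) (J : Finset ι) (c : ι → ℂ) (h x : ι → ℝ) :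
    genFun B J c h x = ∏ j, gfac J c j (B.mulVec (x + h) j) := rfl

/-- product of the constants -/
def gCC (c : ι → ℂ) : ℝ := ∏ j, gC (c j).re

lemma gCC_pos {c : ι → ℂ} (hc : ∀ j, 0 < (c j).re) : 0 < gCC c :=
  Finset.prod_pos fun j _ => gC_pos (hc j)

lemma norm_prod_gfac_le (J : Finset ι) (c : ι → ℂ) (hc : ∀ j, 0 < (c j).re) (y : ι → ℝ) :
    ‖∏ j, gfac J c j (y j)‖ ≤ gCC c * Real.exp (-Real.pi * ∑ j, (c j).re / 2 * y j ^ 2) := by
  rw [norm_prod]
  refine (Finset.prod_le_prod (fun _ _ => norm_nonneg _)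
    (fun j _ => norm_gfac_le J c j (hc j) (y j))).trans ?_
  rw [Finset.prod_mul_distrib, ← Real.exp_sum, Finset.mul_sum]
  exact le_of_eq rfl

lemma norm_genFun_le (B : Matrix ι ι ℝ) (J : Finset ι) (c : ι → ℂ) (hc : ∀ j, 0 < (c j).re)
    (h x : ι → ℝ) : ‖genFun B J c h x‖ ≤
      gCC c * Real.exp (-Real.pi * quad B (fun j => (c j).re / 2) (x + h)) := by
  rw [genFun_apply]
  exact norm_prod_gfac_le J c hc _

lemma integral_gauss_zero (c : ℂ) (hc : 0 < c.re) (η : ℝ) :
    ∫ y : ℝ, Complex.exp (-(Real.pi * c) * (y : ℂ) ^ 2 + -(2 * Real.pi * Complex.I * η) * y + 0)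
      = (c⁻¹) ^ (1 / 2 : ℂ) * Complex.exp (-Real.pi * (c⁻¹ * (η : ℂ) ^ 2)) := by
  have hb : (-(Real.pi * c) : ℂ).re < 0 := by
    rw [Complex.neg_re, Complex.re_ofReal_mul]
    have := Real.pi_pos
    have : 0 < Real.pi * c.re := by positivity
    linarith
  rw [integral_cexp_quadratic hb, neg_neg]
  have hc' : c ≠ 0 := by rintro rfl; simp at hc
  have hpi : (Real.pi : ℂ) ≠ 0 := by exact_mod_cast Real.pi_ne_zero
  congr 1
  · congr 1
    field_simp
  · congr 1
    field_simp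
    ring_nf
    simp

lemma integrable_mul_gauss (c : ℂ) (hc : 0 < c.re) (η : ℝ) :
    Integrable (fun y : ℝ => (y : ℂ) *
      Complex.exp (-(Real.pi * c) * (y : ℂ) ^ 2 + -(2 * Real.pi * Complex.I * η) * y + 0)) := by
  have hb : 0 < (Real.pi * c.re) := by have := Real.pi_pos; positivity
  have h1 := (integrable_mul_exp_neg_mul_sq hb).norm
  refine Integrable.mono' h1 ?_ ?_
  · have : Continuous (fun y : ℝ => (y : ℂ) *
      Complex.exp (-(Real.pi * c) * (y : ℂ) ^ 2 + -(2 * Real.pi * Complex.I * η) * y + 0)) := by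
      fun_prop
    exact this.aestronglyMeasurable
  · refine ae_of_all _ fun y => ?_
    rw [norm_mul, Complex.norm_exp, norm_mul, Complex.norm_real, Real.norm_eq_abs,
      Real.norm_eq_abs, Real.abs_exp]
    have e1 : (-(Real.pi * c) * (y : ℂ) ^ 2 + -(2 * Real.pi * Complex.I * η) * y + 0).re
        = -(Real.pi * c.re) * y ^ 2 := by
      have e2 : (-(Real.pi * c) * (y : ℂ) ^ 2) = ((-(Real.pi * y ^ 2) : ℝ) : ℂ) * c := by
        push_cast; ring
      have e3 : (-(2 * Real.pi * Complex.I * η) * y : ℂ)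
          = ((-(2 * Real.pi * η * y) : ℝ) : ℂ) * Complex.I := by
        push_cast; ring
      rw [add_zero, Complex.add_re, e2, e3, Complex.re_ofReal_mul, Complex.re_ofReal_mul]
      simp
      ring
    rw [e1]

lemma integral_gauss_mul (c : ℂ) (hc : 0 < c.re) (η : ℝ) :
    ∫ y : ℝ, (y : ℂ) *
      Complex.exp (-(Real.pi * c) * (y : ℂ) ^ 2 + -(2 * Real.pi * Complex.I * η) * y + 0)
      = (-(Complex.I * η * c⁻¹)) *
        ((c⁻¹) ^ (1 / 2 : ℂ) * Complex.exp (-Real.pi * (c⁻¹ * (η : ℂ) ^ 2))) := by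
  set E : ℝ → ℂ := fun y => Complex.exp (-(Real.pi * c) * (y : ℂ) ^ 2
    + -(2 * Real.pi * Complex.I * η) * y + 0) with hE
  have hb : 0 < ((Real.pi : ℂ) * c).re := by
    rw [Complex.re_ofReal_mul]; have := Real.pi_pos; positivity
  have hint : Integrable E := integrable_cexp_quadratic hb _ _
  have hint1 : Integrable (fun y : ℝ => (y : ℂ) * E y) := integrable_mul_gauss c hc η
  have hder : ∀ y : ℝ, HasDerivAt E ((-(2 * Real.pi * c)) * ((y : ℂ) * E y)
      + (-(2 * Real.pi * Complex.I * η)) * E y) y := by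
    intro y
    have h1 : HasDerivAt (fun y : ℂ => Complex.exp (-(Real.pi * c) * y ^ 2
      + -(2 * Real.pi * Complex.I * η) * y + 0))
      (Complex.exp (-(Real.pi * c) * (y : ℂ) ^ 2 + -(2 * Real.pi * Complex.I * η) * y + 0) *
        (-(Real.pi * c) * (2 * (y : ℂ)) + -(2 * Real.pi * Complex.I * η))) (y : ℂ) := by
      have h2 : HasDerivAt (fun y : ℂ => -(Real.pi * c) * y ^ 2
          + -(2 * Real.pi * Complex.I * η) * y + 0)
          (-(Real.pi * c) * (2 * (y : ℂ)) + -(2 * Real.pi * Complex.I * η)) (y : ℂ) := by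
        have h3 := ((hasDerivAt_pow 2 (y : ℂ)).const_mul (-(Real.pi * c : ℂ)))
        have h4 := ((hasDerivAt_id (y : ℂ)).const_mul (-(2 * Real.pi * Complex.I * η : ℂ)))
        have h5 := (h3.add h4).add_const 0
        refine h5.congr_deriv ?_
        norm_num
      exact h2.cexp
    have h3 := h1.comp_ofReal
    convert h3 using 1
    rw [hE]
    ring
  have h0 := integral_eq_zero_of_hasDerivAt_of_integrable hder
    ((hint1.const_mul _).add (hint.const_mul _)) hint
  rw [integral_add (hint1.const_mul _) (hint.const_mul _), integral_const_mul,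
    integral_const_mul] at h0
  have hI := integral_gauss_zero c hc η
  rw [← hE] at *
  have hI' : ∫ y, E y = (c⁻¹) ^ (1 / 2 : ℂ) * Complex.exp (-Real.pi * (c⁻¹ * (η : ℂ) ^ 2)) := hI
  rw [← hI']
  have hc' : c ≠ 0 := by rintro rfl; simp at hc
  have hpi : (Real.pi : ℂ) ≠ 0 := by exact_mod_cast Real.pi_ne_zero
  have h5 : (2 * Real.pi * c) * (∫ y : ℝ, (y : ℂ) * E y)
      = (2 * Real.pi * c) * (-(Complex.I * η * c⁻¹) * ∫ y, E y) := by
    have : (2 * Real.pi * c) * (∫ y : ℝ, (y : ℂ) * E y)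
        = -(2 * Real.pi * Complex.I * η) * ∫ y, E y := by linear_combination -h0
    rw [this]
    field_simp
  exact mul_left_cancel₀ (by
    refine mul_ne_zero (mul_ne_zero two_ne_zero hpi) hc') h5

/-- the dual factor -/
def dfac (J : Finset ι) (c : ι → ℂ) (j : ι) (η : ℝ) : ℂ :=
  (if j ∈ J then -(Complex.I * η * (c j)⁻¹) else 1) *
    (((c j)⁻¹) ^ (1 / 2 : ℂ) * Complex.exp (-Real.pi * ((c j)⁻¹ * (η : ℂ) ^ 2)))

/-- the phase of the shift -/
def phase (n : ι → ℤ) (h : ι → ℝ) : ℂ :=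
  Complex.exp (2 * Real.pi * Complex.I * ∑ i, (n i : ℂ) * (h i : ℂ))

lemma phase_mul_expChar (n : ι → ℤ) (h x : ι → ℝ) :
    phase n h * expChar n (x + h) = expChar n x := by
  unfold phase expChar
  rw [← Complex.exp_add]
  congr 1
  simp only [Pi.add_apply]
  push_cast
  simp only [mul_add, Finset.sum_add_distrib]
  ring

lemma norm_phase (n : ι → ℤ) (h : ι → ℝ) : ‖phase n h‖ = 1 := by
  unfold phase
  rw [Complex.norm_exp]
  have : (2 * (Real.pi : ℂ) * Complex.I * ∑ i, (n i : ℂ) * (h i : ℂ)).re = 0 := by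
    have h : (∑ i, (n i : ℂ) * (h i : ℂ)) = ((∑ i, (n i : ℝ) * h i : ℝ) : ℂ) := by
      push_cast; rfl
    rw [h]
    simp
  rw [this, Real.exp_zero]

lemma gfac_mul_exp (J : Finset ι) (c : ι → ℂ) (hc : ∀ j, 0 < (c j).re) (j : ι) (η : ℝ) :
    ∫ y : ℝ, gfac J c j y * Complex.exp (-(2 * Real.pi * Complex.I * η) * y) = dfac J c j η := by
  unfold gfac dfac
  have e1 : ∀ y : ℝ, (if j ∈ J then (y : ℂ) else 1) * Complex.exp (-(Real.pi * c j) * (y : ℂ) ^ 2)
      * Complex.exp (-(2 * Real.pi * Complex.I * η) * y) = (if j ∈ J then (y : ℂ) else 1) *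
      Complex.exp (-(Real.pi * c j) * (y : ℂ) ^ 2 + -(2 * Real.pi * Complex.I * η) * y + 0) := by
    intro y
    rw [mul_assoc, ← Complex.exp_add, add_zero]
  simp_rw [e1]
  split_ifs
  · exact integral_gauss_mul _ (hc j) η
  · simp only [one_mul]
    exact integral_gauss_zero _ (hc j) η

lemma integrable_gfac (J : Finset ι) (c : ι → ℂ) (hc : ∀ j, 0 < (c j).re) (j : ι) :
    Integrable (gfac J c j) := by
  have hb : 0 < Real.pi * ((c j).re / 2) := by have := hc j; have := Real.pi_pos; positivity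
  refine Integrable.mono' ((integrable_exp_neg_mul_sq hb).const_mul (gC (c j).re))
    (continuous_gfac J c j).aestronglyMeasurable (ae_of_all _ fun y => ?_)
  refine (norm_gfac_le J c j (hc j) y).trans (le_of_eq ?_)
  congr 2
  ring

lemma integrable_prod_gfac (J : Finset ι) (c : ι → ℂ) (hc : ∀ j, 0 < (c j).re) :
    Integrable (fun y : ι → ℝ => ∏ j, gfac J c j (y j)) :=
  Integrable.fintype_prod (f := fun j (y : ℝ) => gfac J c j y) fun j => integrable_gfac J c hc j

lemma integrable_genFun (B : Matrix ι ι ℝ) (hB : B.det ≠ 0) (J : Finset ι) (c : ι → ℂ)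
    (hc : ∀ j, 0 < (c j).re) (h : ι → ℝ) : Integrable (genFun B J c h : (ι → ℝ) → ℂ) := by
  have hemb : MeasurableEmbedding (Matrix.toLin' B : (ι → ℝ) → (ι → ℝ)) := by
    have hinj : Function.Injective (Matrix.toLin' B : (ι → ℝ) → (ι → ℝ)) := by
      intro x y hxy
      have h := congrArg (B⁻¹.mulVec) hxy
      simpa [Matrix.mulVec_mulVec, Matrix.nonsing_inv_mul _ (isUnit_iff_ne_zero.mpr hB)] using h
    exact (LinearMap.continuous_of_finiteDimensional _).measurableEmbedding hinj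
  have h1 : Integrable (fun x : ι → ℝ => ∏ j, gfac J c j (Matrix.toLin' B x j)) := by
    have : (fun x : ι → ℝ => ∏ j, gfac J c j (Matrix.toLin' B x j))
        = (fun y : ι → ℝ => ∏ j, gfac J c j (y j)) ∘ (Matrix.toLin' B) := rfl
    rw [this, ← hemb.integrable_map_iff, Real.map_matrix_volume_pi_eq_smul_volume_pi hB]
    exact (integrable_prod_gfac J c hc).smul_measure ENNReal.ofReal_ne_top
  have h2 := h1.comp_add_right h
  exact h2

lemma fourier_genFun (B : Matrix ι ι ℝ) (hB : B.det ≠ 0) (J : Finset ι) (c : ι → ℂ)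
    (hc : ∀ j, 0 < (c j).re) (h : ι → ℝ) (n : ι → ℤ) :
    ∫ x, expChar n x * genFun B J c h x =
      phase n h * ((|B.det|⁻¹ : ℝ) * ∏ j, dfac J c j ((B⁻¹).transpose.mulVec (castVec n) j)) := by
  set η : ι → ℝ := (B⁻¹).transpose.mulVec (castVec n) with hη
  set g : (ι → ℝ) → ℂ := fun y => ∏ j, (gfac J c j (y j) *
    Complex.exp (-(2 * Real.pi * Complex.I * η j) * y j)) with hg
  have h1 : ∀ x, expChar n x * genFun B J c h x = phase n h * g (B.mulVec (x + h)) := by
    intro x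
    rw [← phase_mul_expChar n h x, genFun_apply, hg]
    simp only
    rw [Finset.prod_mul_distrib, ← Complex.exp_sum, mul_assoc, mul_comm (expChar n (x + h))]
    congr 2
    unfold expChar
    congr 1
    have hdot : (∑ i, (n i : ℂ) * ((x + h) i : ℂ))
        = ((∑ j, η j * (B.mulVec (x + h) j) : ℝ) : ℂ) := by
      have : ∑ i, (n i : ℝ) * (x + h) i = ∑ j, η j * (B.mulVec (x + h) j) := by
        have e1 : ∑ j, η j * (B.mulVec (x + h) j) = dotProduct η (B.mulVec (x + h)) := rfl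
        have e2 : ∑ i, (n i : ℝ) * (x + h) i = dotProduct (castVec n) (x + h) := rfl
        rw [e1, e2, hη, Matrix.mulVec_transpose, ← Matrix.dotProduct_mulVec,
          Matrix.mulVec_mulVec, Matrix.nonsing_inv_mul _ (isUnit_iff_ne_zero.mpr hB),
          Matrix.one_mulVec]
      rw [← this]
      push_cast
      rfl
    rw [hdot]
    push_cast
    rw [Finset.mul_sum, ← Finset.sum_neg_distrib]
    refine Finset.sum_congr rfl fun j _ => ?_
    ring
  simp_rw [h1]
  rw [integral_const_mul]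
  congr 1
  rw [integral_add_right_eq_self (fun x => g (B.mulVec x)) h, integral_comp_mulVec B hB g, hg]
  rw [integral_fintype_prod_volume_eq_prod (fun j (y : ℝ) => gfac J c j y *
    Complex.exp (-(2 * Real.pi * Complex.I * η j) * y))]
  congr 1
  exact Finset.prod_congr rfl fun j _ => gfac_mul_exp J c hc j (η j)

lemma summable_restrict_genFun (B : Matrix ι ι ℝ) (hB : B.det ≠ 0) (J : Finset ι) (c : ι → ℂ)
    (hc : ∀ j, 0 < (c j).re) (h : ι → ℝ) (K : TopologicalSpace.Compacts (ι → ℝ)) :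
    Summable fun n : ι → ℤ =>
      ‖((genFun B J c h).comp (ContinuousMap.addRight (castVec n))).restrict K‖ := by
  set c' : ι → ℝ := fun j => (c j).re / 2 with hc'
  have hc'pos : ∀ j, 0 < c' j := fun j => half_pos (hc j)
  set K' : TopologicalSpace.Compacts (ι → ℝ) :=
    ⟨(fun x => x + h) '' K, K.isCompact.image (by fun_prop)⟩ with hK'
  have h1 := (summable_restrict_gauss B hB c' hc'pos K').mul_left (gCC c)
  refine Summable.of_nonneg_of_le (fun _ => norm_nonneg _) (fun n => ?_) h1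
  rw [ContinuousMap.norm_le _ (mul_nonneg (gCC_pos hc).le (norm_nonneg _))]
  rintro ⟨x, hx⟩
  simp only [ContinuousMap.restrict_apply, ContinuousMap.comp_apply, ContinuousMap.coe_addRight]
  refine (norm_genFun_le B J c hc h _).trans ?_
  refine mul_le_mul_of_nonneg_left ?_ (gCC_pos hc).le
  have hx' : x + h ∈ K' := ⟨x, hx, rfl⟩
  have h2 := ContinuousMap.norm_coe_le_norm
    (((gaussFun B c').comp (ContinuousMap.addRight (castVec n))).restrict (K' : Set (ι → ℝ)))
    ⟨x + h, hx'⟩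
  refine le_trans (le_of_eq ?_) h2
  simp only [ContinuousMap.restrict_apply, ContinuousMap.comp_apply, ContinuousMap.coe_addRight]
  rw [norm_gaussFun]
  congr 3
  abel

/-- constant in the bound of the dual factors -/
def dC (z : ℂ) : ℝ := (‖z⁻¹‖ + 1) * ‖(z⁻¹) ^ (1 / 2 : ℂ)‖ * gC (z⁻¹).re

lemma inv_re_pos {z : ℂ} (hz : 0 < z.re) : 0 < (z⁻¹).re := by
  rw [Complex.inv_re]
  have : 0 < Complex.normSq z := Complex.normSq_pos.mpr (by rintro rfl; simp at hz)
  positivity

lemma norm_dfac_le (J : Finset ι) (c : ι → ℂ) (j : ι) (hc : 0 < (c j).re) (η : ℝ) :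
    ‖dfac J c j η‖ ≤ dC (c j) * Real.exp (-Real.pi * (((c j)⁻¹).re / 2 * η ^ 2)) := by
  unfold dfac dC
  have ha := inv_re_pos hc
  set a := ((c j)⁻¹).re with haa
  rw [norm_mul, norm_mul, Complex.norm_exp]
  have e1 : (-(Real.pi : ℂ) * ((c j)⁻¹ * (η : ℂ) ^ 2)).re = -Real.pi * (a * η ^ 2) := by
    have : (-(Real.pi : ℂ) * ((c j)⁻¹ * (η : ℂ) ^ 2)) = ((-(Real.pi * η ^ 2) : ℝ) : ℂ) * (c j)⁻¹ := by
      push_cast; ring
    rw [this, Complex.re_ofReal_mul]
    ring
  rw [e1]
  have e2 : Real.exp (-Real.pi * (a * η ^ 2))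
      = Real.exp (-(Real.pi * (a / 2) * η ^ 2)) * Real.exp (-Real.pi * (a / 2 * η ^ 2)) := by
    rw [← Real.exp_add]; congr 1; ring
  have h1 : ‖(if j ∈ J then -(Complex.I * η * (c j)⁻¹) else 1)‖
      ≤ (‖(c j)⁻¹‖ + 1) * (gC a * Real.exp (Real.pi * (a / 2) * η ^ 2)) := by
    split_ifs
    · rw [norm_neg, norm_mul, norm_mul, Complex.norm_I, one_mul, Complex.norm_real,
        Real.norm_eq_abs, mul_comm]
      have h3 := abs_le_gC ha η
      have h4 : 0 ≤ ‖(c j)⁻¹‖ := norm_nonneg _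
      have h5 : 0 ≤ |η| := abs_nonneg _
      nlinarith
    · rw [norm_one]
      have h2 := one_le_gC ha
      have h3 : 1 ≤ Real.exp (Real.pi * (a / 2) * η ^ 2) := Real.one_le_exp (by positivity)
      have h4 : 0 ≤ ‖(c j)⁻¹‖ := norm_nonneg _
      have h5 : 1 ≤ gC a * Real.exp (Real.pi * (a / 2) * η ^ 2) := by nlinarith
      nlinarith
  rw [e2]
  have h6 : 0 ≤ ‖(c j)⁻¹ ^ (1 / 2 : ℂ)‖ := norm_nonneg _
  calc _ ≤ ((‖(c j)⁻¹‖ + 1) * (gC a * Real.exp (Real.pi * (a / 2) * η ^ 2))) *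
        (‖(c j)⁻¹ ^ (1 / 2 : ℂ)‖ * (Real.exp (-(Real.pi * (a / 2) * η ^ 2))
          * Real.exp (-Real.pi * (a / 2 * η ^ 2)))) := by
        refine mul_le_mul_of_nonneg_right h1 ?_
        positivity
    _ = (‖(c j)⁻¹‖ + 1) * ‖(c j)⁻¹ ^ (1 / 2 : ℂ)‖ * gC a *
        Real.exp (-Real.pi * (a / 2 * η ^ 2)) *
        (Real.exp (Real.pi * (a / 2) * η ^ 2) * Real.exp (-(Real.pi * (a / 2) * η ^ 2))) := by
        ring
    _ = _ := by rw [← Real.exp_add, add_neg_cancel, Real.exp_zero, mul_one]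

lemma norm_prod_dfac_le (J : Finset ι) (c : ι → ℂ) (hc : ∀ j, 0 < (c j).re) (η : ι → ℝ) :
    ‖∏ j, dfac J c j (η j)‖ ≤ (∏ j, dC (c j)) *
      Real.exp (-Real.pi * ∑ j, ((c j)⁻¹).re / 2 * η j ^ 2) := by
  rw [norm_prod]
  refine (Finset.prod_le_prod (fun _ _ => norm_nonneg _)
    (fun j _ => norm_dfac_le J c j (hc j) (η j))).trans ?_
  rw [Finset.prod_mul_distrib, ← Real.exp_sum, Finset.mul_sum]

lemma summable_dual (B : Matrix ι ι ℝ) (hB : B.det ≠ 0) (J : Finset ι) (c : ι → ℂ)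
    (hc : ∀ j, 0 < (c j).re) :
    Summable fun n : ι → ℤ => ‖∏ j, dfac J c j ((B⁻¹).transpose.mulVec (castVec n) j)‖ := by
  have hB' : ((B⁻¹).transpose).det ≠ 0 := by
    rw [Matrix.det_transpose, Matrix.det_nonsing_inv, Ring.inverse_eq_inv']
    exact inv_ne_zero hB
  have h1 := (summable_exp_quad (B⁻¹).transpose hB' (fun j => ((c j)⁻¹).re / 2)
    (fun j => half_pos (inv_re_pos (hc j)))).mul_left (∏ j, dC (c j))
  exact Summable.of_nonneg_of_le (fun _ => norm_nonneg _)
    (fun n => norm_prod_dfac_le J c hc _) h1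

lemma summable_genFun (B : Matrix ι ι ℝ) (hB : B.det ≠ 0) (J : Finset ι) (c : ι → ℂ)
    (hc : ∀ j, 0 < (c j).re) (h : ι → ℝ) :
    Summable fun n : ι → ℤ => ‖genFun B J c h (castVec n)‖ := by
  have h1 := summable_restrict_genFun B hB J c hc h ⟨{0}, isCompact_singleton⟩
  refine Summable.of_nonneg_of_le (fun _ => norm_nonneg _) (fun n => ?_) h1
  have h2 := ContinuousMap.norm_coe_le_norm
    (((genFun B J c h).comp (ContinuousMap.addRight (castVec n))).restrict
      (({0} : Set (ι → ℝ)))) ⟨0, rfl⟩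
  refine le_trans (le_of_eq ?_) h2
  simp only [ContinuousMap.restrict_apply, ContinuousMap.comp_apply, ContinuousMap.coe_addRight,
    zero_add]

/-- The general transformation formula. -/
theorem theta_gen (B : Matrix ι ι ℝ) (hB : B.det ≠ 0) (J : Finset ι) (c : ι → ℂ)
    (hc : ∀ j, 0 < (c j).re) (h : ι → ℝ) :
    ∑' n : ι → ℤ, genFun B J c h (castVec n) =
      (|B.det|⁻¹ : ℝ) * ∑' n : ι → ℤ, phase n h *
        ∏ j, dfac J c j ((B⁻¹).transpose.mulVec (castVec n) j) := by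
  have hs : Summable fun n : ι → ℤ => phase n h * ((|B.det|⁻¹ : ℝ) *
      ∏ j, dfac J c j ((B⁻¹).transpose.mulVec (castVec n) j)) := by
    refine Summable.of_norm ?_
    have h1 := (summable_dual B hB J c hc).mul_left (‖((|B.det|⁻¹ : ℝ) : ℂ)‖)
    refine h1.congr fun n => ?_
    rw [norm_mul, norm_phase, one_mul, norm_mul]
  have hp := poisson (genFun B J c h) (integrable_genFun B hB J c hc h)
    (summable_restrict_genFun B hB J c hc h) (by
      simp_rw [fourier_genFun B hB J c hc h]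
      exact hs)
  rw [hp]
  simp_rw [fourier_genFun B hB J c hc h]
  rw [← tsum_mul_left]
  refine tsum_congr fun n => ?_
  ring

end Pool.Agent.Helper4
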