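import Mathlib
import Pool.Agent.helper4.ThetaC
import Pool.Agent.helper4.IntTheta

/-! # Asymptotics of theta functions at cusps and reciprocity of Gauss sums -/

open MeasureTheory Filter Topology Set

noncomputable section

namespace Pool.Agent.Helper4

set_option linter.unusedSectionVars false

variable {ι : Type*} [Fintype ι] [DecidableEq ι]

lemma real_mul_cpow_half {r : ℝ} (hr : 0 < r) {z : ℂ} (hz : z ≠ 0) :
    ((r : ℂ) * z) ^ (1 / 2 : ℂ) = ((Real.sqrt r : ℝ) : ℂ) * z ^ (1 / 2 : ℂ) := by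
  have hr' : (r : ℂ) ≠ 0 := by exact_mod_cast hr.ne'
  rw [Complex.cpow_def_of_ne_zero (mul_ne_zero hr' hz), Complex.log_ofReal_mul hr hz,
    Complex.cpow_def_of_ne_zero hz, add_mul, Complex.exp_add]
  congr 1
  have : ((Real.log r : ℝ) : ℂ) * (1 / 2 : ℂ) = ((Real.log r * (1 / 2) : ℝ) : ℂ) := by
    push_cast; ring
  rw [this, ← Complex.ofReal_exp, Real.sqrt_eq_rpow, Real.rpow_def_of_pos hr]

/-- decay of the non-constant part -/
lemma tendsto_theta1_atTop (B : Matrix ι ι ℝ) (hB : B.det ≠ 0) :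
    Tendsto (fun t : ℝ => theta1 B (fun _ => t)) atTop (𝓝 0) := by
  obtain ⟨a, C, ha, -, hbd⟩ := exists_theta1_bound (κ := Fin 0) B hB (fun _ => 0) {0}
    (Bornology.isBounded_singleton)
  set S := ∑' m : {m : ι → ℤ // m ≠ 0}, Real.exp (-(a * 1) * ‖castVec m.1‖ ^ 2) with hS
  have h1 : ∀ᶠ t : ℝ in atTop, theta1 B (fun _ => t) ≤ Real.exp (-a * (t - 1)) * S := by
    filter_upwards [eventually_ge_atTop 1] with t ht
    have h2 := hbd 1 one_pos t ht 0 rfl
    have h3 : cvec (fun _ : ι => (0 : (Fin 0 → ℝ) →ₗ[ℝ] ℝ)) t 0 = fun _ => t := by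
      funext j
      simp [cvec]
    rwa [h3] at h2
  have h2 : Tendsto (fun t : ℝ => Real.exp (-a * (t - 1)) * S) atTop (𝓝 (0 * S)) := by
    refine Tendsto.mul_const _ ?_
    refine Real.tendsto_exp_atBot.comp ?_
    have : Tendsto (fun t : ℝ => t - 1) atTop atTop := tendsto_atTop_add_const_right _ _ tendsto_id
    exact this.const_mul_atTop_of_neg (by linarith)
  rw [zero_mul] at h2
  exact tendsto_of_tendsto_of_tendsto_of_le_of_le' tendsto_const_nhds h2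
    (Eventually.of_forall fun t => theta1_nonneg _ _) h1

/-- the exponential sum -/
def expSum (B : Matrix ι ι ℝ) (c : ι → ℂ) (h : ι → ℝ) : ℂ :=
  ∑' m : ι → ℤ, Complex.exp (-Real.pi * ∑ j, c j * ((B.mulVec (castVec m + h) j : ℝ) : ℂ) ^ 2)

lemma genFun_empty (B : Matrix ι ι ℝ) (c : ι → ℂ) (h x : ι → ℝ) :
    genFun B ∅ c h x = Complex.exp (-Real.pi * ∑ j, c j * ((B.mulVec (x + h) j : ℝ) : ℂ) ^ 2) := by
  rw [genFun_apply]
  unfold gfac
  simp only [Finset.notMem_empty, if_false, one_mul]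
  rw [← Complex.exp_sum, Finset.mul_sum]
  congr 1
  refine Finset.sum_congr rfl fun j _ => ?_
  ring

lemma expSum_eq (B : Matrix ι ι ℝ) (c : ι → ℂ) (h : ι → ℝ) :
    expSum B c h = ∑' m : ι → ℤ, genFun B ∅ c h (castVec m) := by
  unfold expSum
  refine tsum_congr fun m => ?_
  rw [genFun_empty]

lemma summable_expSum (B : Matrix ι ι ℝ) (hB : B.det ≠ 0) (c : ι → ℂ) (hc : ∀ j, 0 < (c j).re)
    (h : ι → ℝ) : Summable fun m : ι → ℤ =>
      Complex.exp (-Real.pi * ∑ j, c j * ((B.mulVec (castVec m + h) j : ℝ) : ℂ) ^ 2) := by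
  have h1 := (summable_genFun B hB ∅ c hc h).of_norm
  refine h1.congr fun m => ?_
  rw [genFun_empty]

/-- transformation formula -/
lemma expSum_transform (B : Matrix ι ι ℝ) (hB : B.det ≠ 0) (c : ι → ℂ)
    (hc : ∀ j, 0 < (c j).re) (h : ι → ℝ) :
    expSum B c h = (|B.det|⁻¹ : ℝ) * (∏ j, ((c j)⁻¹) ^ (1 / 2 : ℂ)) *
      ∑' n : ι → ℤ, phase n h * Complex.exp (-Real.pi * ∑ j, (c j)⁻¹ *
        (((B⁻¹).transpose.mulVec (castVec n) j : ℝ) : ℂ) ^ 2) := by
  rw [expSum_eq, theta_gen B hB ∅ c hc h, mul_assoc]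
  congr 1
  rw [← tsum_mul_left]
  refine tsum_congr fun n => ?_
  unfold dfac
  simp only [Finset.notMem_empty, if_false, one_mul]
  rw [Finset.prod_mul_distrib, ← Complex.exp_sum, Finset.mul_sum]
  ring

lemma expSum_transform_zero (B : Matrix ι ι ℝ) (hB : B.det ≠ 0) (c : ι → ℂ)
    (hc : ∀ j, 0 < (c j).re) :
    expSum B c 0 = (|B.det|⁻¹ : ℝ) * (∏ j, ((c j)⁻¹) ^ (1 / 2 : ℂ)) *
      expSum (B⁻¹).transpose (fun j => (c j)⁻¹) 0 := by
  rw [expSum_transform B hB c hc 0]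
  congr 1
  unfold expSum
  refine tsum_congr fun n => ?_
  have : phase n 0 = 1 := by simp [phase]
  rw [this, one_mul, add_zero]

theorem tendsto_expSum (B : Matrix ι ι ℝ) (hB : B.det ≠ 0) (d : ℝ → ι → ℂ) (γ : ι → ℝ)
    (hγ : ∀ j, 0 < γ j)
    (hd : ∀ j, Tendsto (fun t : ℝ => d t j / (t : ℂ)) (𝓝[>] 0) (𝓝 (γ j : ℂ))) (h : ι → ℝ) :
    Tendsto (fun t : ℝ => ((Real.sqrt t : ℝ) : ℂ) ^ Fintype.card ι * expSum B (d t) h) (𝓝[>] 0)
      (𝓝 ((|B.det|⁻¹ : ℝ) * ∏ j, ((γ j : ℂ)⁻¹) ^ (1 / 2 : ℂ))) := by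
  have hB' := det_dual_ne_zero' B hB
  have hγ' : ∀ j, (γ j : ℂ) ≠ 0 := fun j => by exact_mod_cast (hγ j).ne'
  -- eventual positivity
  have hpos : ∀ᶠ t : ℝ in 𝓝[>] 0, 0 < t := eventually_mem_nhdsWithin
  have hre : ∀ j, ∀ᶠ t : ℝ in 𝓝[>] 0, 0 < (d t j).re := by
    intro j
    have h1 : Tendsto (fun t : ℝ => (d t j / (t : ℂ)).re) (𝓝[>] 0) (𝓝 (γ j)) := by
      have := (Complex.continuous_re.tendsto (γ j : ℂ)).comp (hd j)
      rw [Complex.ofReal_re] at this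
      exact this
    filter_upwards [h1.eventually (lt_mem_nhds (hγ j)), hpos] with t ht1 ht2
    have h2 : (d t j / (t : ℂ)).re = (d t j).re / t := by
      rw [Complex.div_ofReal_re]
    rw [h2] at ht1
    exact (div_pos_iff_of_pos_right ht2).mp ht1
  have hinv : ∀ j, Tendsto (fun t : ℝ => (d t j / (t : ℂ))⁻¹) (𝓝[>] 0) (𝓝 ((γ j : ℂ)⁻¹)) :=
    fun j => (hd j).inv₀ (hγ' j)
  set c₀ : ℝ := (∑ j, 2 * γ j + 1)⁻¹ with hc₀
  have hsum : 0 < ∑ j, 2 * γ j + 1 := by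
    have : 0 ≤ ∑ j, 2 * γ j := Finset.sum_nonneg fun j _ => by have := hγ j; linarith
    linarith
  have hc₀pos : 0 < c₀ := inv_pos.mpr hsum
  have hbig : ∀ j, ∀ᶠ t : ℝ in 𝓝[>] 0, c₀ / t ≤ ((d t j)⁻¹).re := by
    intro j
    have h1 : Tendsto (fun t : ℝ => ((d t j / (t : ℂ))⁻¹).re) (𝓝[>] 0) (𝓝 ((γ j)⁻¹)) := by
      have := (Complex.continuous_re.tendsto ((γ j : ℂ)⁻¹)).comp (hinv j)
      have e : ((γ j : ℂ)⁻¹).re = (γ j)⁻¹ := by rw [← Complex.ofReal_inv, Complex.ofReal_re]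
      rw [e] at this
      exact this
    have h2 : c₀ < (γ j)⁻¹ := by
      rw [hc₀]
      apply inv_strictAnti₀ (hγ j)
      have := Finset.single_le_sum (f := fun j => 2 * γ j)
        (fun j _ => by have := hγ j; linarith) (Finset.mem_univ j)
      have := hγ j
      linarith
    filter_upwards [h1.eventually (lt_mem_nhds h2), hpos] with t ht1 ht2
    have h3 : ((d t j / (t : ℂ))⁻¹).re = t * ((d t j)⁻¹).re := by
      have : (d t j / (t : ℂ))⁻¹ = (t : ℂ) * (d t j)⁻¹ := by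
        rw [inv_div, div_eq_mul_inv]
      rw [this, Complex.re_ofReal_mul]
    rw [h3] at ht1
    rw [div_le_iff₀ ht2]
    linarith
  -- the dual sum tends to one
  set E : ℝ → ℂ := fun t => ∑' n : ι → ℤ, phase n h * Complex.exp (-Real.pi * ∑ j, (d t j)⁻¹ *
        (((B⁻¹).transpose.mulVec (castVec n) j : ℝ) : ℂ) ^ 2) with hE
  have hEnorm : ∀ (t : ℝ) (n : ι → ℤ), ‖phase n h * Complex.exp (-Real.pi * ∑ j, (d t j)⁻¹ *
        (((B⁻¹).transpose.mulVec (castVec n) j : ℝ) : ℂ) ^ 2)‖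
        = Real.exp (-Real.pi * quad (B⁻¹).transpose (fun j => ((d t j)⁻¹).re) (castVec n)) := by
    intro t n
    rw [norm_mul, norm_phase, one_mul, Complex.norm_exp]
    congr 1
    rw [← Complex.ofReal_neg, Complex.re_ofReal_mul, Complex.re_sum]
    congr 1
    unfold quad
    refine Finset.sum_congr rfl fun j _ => ?_
    rw [← Complex.ofReal_pow, Complex.re_mul_ofReal]
  have hEt : Tendsto E (𝓝[>] 0) (𝓝 1) := by
    have hth : Tendsto (fun t : ℝ => theta1 (B⁻¹).transpose (fun _ => c₀ / t)) (𝓝[>] 0) (𝓝 0) := by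
      refine (tendsto_theta1_atTop (B⁻¹).transpose hB').comp ?_
      have := (tendsto_inv_nhdsGT_zero (𝕜 := ℝ)).const_mul_atTop hc₀pos
      refine this.congr fun t => ?_
      rw [div_eq_mul_inv]
    rw [tendsto_iff_norm_sub_tendsto_zero]
    refine tendsto_of_tendsto_of_tendsto_of_le_of_le' tendsto_const_nhds hth
      (Eventually.of_forall fun t => norm_nonneg _) ?_
    filter_upwards [hpos, eventually_all.mpr hre, eventually_all.mpr hbig] with t ht0 ht1 ht2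
    have hcpos : ∀ j, 0 < ((d t j)⁻¹).re := fun j => inv_re_pos (ht1 j)
    have hs1 : Summable fun n : ι → ℤ => ‖phase n h * Complex.exp (-Real.pi * ∑ j, (d t j)⁻¹ *
        (((B⁻¹).transpose.mulVec (castVec n) j : ℝ) : ℂ) ^ 2)‖ := by
      simp_rw [hEnorm]
      exact summable_exp_quad _ hB' _ hcpos
    have hsplit := hs1.of_norm.tsum_subtype_add_tsum_subtype_compl {m : ι → ℤ | m = 0}
    have h0 : ({m : ι → ℤ | m = 0} : Set (ι → ℤ)) = {0} := rfl
    rw [h0, tsum_singleton (0 : ι → ℤ) (fun n => phase n h * Complex.exp (-Real.pi * ∑ j,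
      (d t j)⁻¹ * (((B⁻¹).transpose.mulVec (castVec n) j : ℝ) : ℂ) ^ 2))] at hsplit
    have h1 : phase (0 : ι → ℤ) h * Complex.exp (-Real.pi * ∑ j, (d t j)⁻¹ *
        (((B⁻¹).transpose.mulVec (castVec (0 : ι → ℤ)) j : ℝ) : ℂ) ^ 2) = 1 := by
      simp [phase]
    rw [h1] at hsplit
    have h2 : E t - 1 = ∑' n : ((({0} : Set (ι → ℤ))ᶜ : Set (ι → ℤ))), phase n.1 h *
        Complex.exp (-Real.pi * ∑ j, (d t j)⁻¹ *
        (((B⁻¹).transpose.mulVec (castVec n.1) j : ℝ) : ℂ) ^ 2) := by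
      rw [hE]
      simp only
      rw [← hsplit]
      ring
    rw [h2]
    have hs2 : Summable fun n : ((({0} : Set (ι → ℤ))ᶜ : Set (ι → ℤ))) => ‖phase n.1 h *
        Complex.exp (-Real.pi * ∑ j, (d t j)⁻¹ *
        (((B⁻¹).transpose.mulVec (castVec n.1) j : ℝ) : ℂ) ^ 2)‖ :=
      hs1.comp_injective Subtype.val_injective
    refine (norm_tsum_le_tsum_norm hs2).trans ?_
    unfold theta1
    have hs3 := summable_theta1 (B⁻¹).transpose hB' (fun _ => c₀ / t)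
      (fun _ => div_pos hc₀pos ht0)
    refine hs2.tsum_le_tsum (fun n => ?_) hs3
    rw [hEnorm]
    apply Real.exp_le_exp.mpr
    have h3 : quad (B⁻¹).transpose (fun _ => c₀ / t) (castVec n.1)
        ≤ quad (B⁻¹).transpose (fun j => ((d t j)⁻¹).re) (castVec n.1) := by
      unfold quad
      exact Finset.sum_le_sum fun j _ => mul_le_mul_of_nonneg_right (ht2 j) (sq_nonneg _)
    have := mul_le_mul_of_nonneg_left h3 Real.pi_pos.le
    linarith
  -- the prefactor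
  have hpre : Tendsto (fun t : ℝ => ∏ j, ((d t j / (t : ℂ))⁻¹) ^ (1 / 2 : ℂ)) (𝓝[>] 0)
      (𝓝 (∏ j, ((γ j : ℂ)⁻¹) ^ (1 / 2 : ℂ))) := by
    refine tendsto_finsetProd _ fun j _ => ?_
    have hmem : ((γ j : ℂ)⁻¹) ∈ Complex.slitPlane := by
      rw [← Complex.ofReal_inv]
      exact Complex.ofReal_mem_slitPlane.mpr (inv_pos.mpr (hγ j))
    exact ((continuousAt_cpow_const hmem).tendsto).comp (hinv j)
  have hfin : Tendsto (fun t : ℝ => (|B.det|⁻¹ : ℝ) * (∏ j, ((d t j / (t : ℂ))⁻¹) ^ (1 / 2 : ℂ))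
      * E t) (𝓝[>] 0) (𝓝 ((|B.det|⁻¹ : ℝ) * (∏ j, ((γ j : ℂ)⁻¹) ^ (1 / 2 : ℂ)) * 1)) :=
    (hpre.const_mul _).mul hEt
  rw [mul_one] at hfin
  refine hfin.congr' ?_
  filter_upwards [hpos, eventually_all.mpr hre] with t ht0 ht1
  rw [expSum_transform B hB (d t) ht1 h]
  have h1 : ∏ j, ((d t j / (t : ℂ))⁻¹) ^ (1 / 2 : ℂ)
      = ((Real.sqrt t : ℝ) : ℂ) ^ Fintype.card ι * ∏ j, ((d t j)⁻¹) ^ (1 / 2 : ℂ) := by
    rw [← Finset.card_univ, ← Finset.prod_const, ← Finset.prod_mul_distrib]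
    refine Finset.prod_congr rfl fun j _ => ?_
    have hne : (d t j)⁻¹ ≠ 0 := by
      apply inv_ne_zero
      intro h0
      have := ht1 j
      rw [h0] at this
      simp at this
    rw [inv_div, div_eq_mul_inv, real_mul_cpow_half ht0 hne]
  rw [h1, hE]
  ring

/-! ### periodic coefficients -/

/-- decomposition of integer vectors modulo `M` -/
def modEquiv (ι : Type*) (M : ℕ) [NeZero M] : (ι → ℤ) ≃ (ι → ℤ) × (ι → Fin M) :=
  (Equiv.arrowCongr (Equiv.refl ι) (Int.divModEquiv M)).trans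
    (Equiv.arrowProdEquivProdArrow _ _ _)

lemma modEquiv_symm_apply (M : ℕ) [NeZero M] (q : ι → ℤ) (r : ι → Fin M) (i : ι) :
    (modEquiv ι M).symm (q, r) i = q i * M + (r i : ℤ) := by
  simp [modEquiv, Int.divModEquiv]

/-- integer representatives -/
def repM {M : ℕ} (r : ι → Fin M) : ι → ℤ := fun i => ((r i : ℕ) : ℤ)

lemma modEquiv_symm (M : ℕ) [NeZero M] (q : ι → ℤ) (r : ι → Fin M) :
    (modEquiv ι M).symm (q, r) = repM r + (M : ℤ) • q := by
  funext i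
  rw [modEquiv_symm_apply]
  simp [repM]
  ring

/-- average of a function on the integer vectors modulo `M` -/
def avgM (M : ℕ) (a : (ι → ℤ) → ℂ) : ℂ := ((M : ℂ) ^ Fintype.card ι)⁻¹ * ∑ r : ι → Fin M, a (repM r)

lemma tsum_periodic (M : ℕ) [NeZero M] (a F : (ι → ℤ) → ℂ)
    (ha : ∀ m k, a (m + (M : ℤ) • k) = a m) (hs : Summable fun m => a m * F m) :
    ∑' m, a m * F m = ∑ r : ι → Fin M, a (repM r) * ∑' k, F (repM r + (M : ℤ) • k) := by
  have h1 := (modEquiv ι M).symm.tsum_eq (fun m => a m * F m)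
  have hs' : Summable fun p : (ι → ℤ) × (ι → Fin M) =>
      a ((modEquiv ι M).symm p) * F ((modEquiv ι M).symm p) :=
    (modEquiv ι M).symm.summable_iff.mpr hs
  rw [← h1]
  have hs2 : Summable fun p : (ι → Fin M) × (ι → ℤ) =>
      a ((modEquiv ι M).symm p.swap) * F ((modEquiv ι M).symm p.swap) :=
    (Equiv.prodComm _ _).summable_iff.mpr hs'
  have h2 := (Equiv.prodComm (ι → Fin M) (ι → ℤ)).tsum_eq
    (fun p : (ι → ℤ) × (ι → Fin M) => a ((modEquiv ι M).symm p) * F ((modEquiv ι M).symm p))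
  rw [← h2]
  change ∑' p : (ι → Fin M) × (ι → ℤ), a ((modEquiv ι M).symm p.swap) *
    F ((modEquiv ι M).symm p.swap) = _
  rw [hs2.tsum_prod, tsum_fintype]
  refine Finset.sum_congr rfl fun r _ => ?_
  rw [← tsum_mul_left]
  refine tsum_congr fun k => ?_
  simp only [Prod.swap_prod_mk]
  rw [modEquiv_symm, ha]

lemma det_natSmul_ne_zero (M : ℕ) [NeZero M] (B : Matrix ι ι ℝ) (hB : B.det ≠ 0) :
    ((M : ℝ) • B).det ≠ 0 := by
  rw [Matrix.det_smul]
  refine mul_ne_zero (pow_ne_zero _ ?_) hB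
  exact_mod_cast NeZero.ne M

lemma mulVec_rep (M : ℕ) [NeZero M] (B : Matrix ι ι ℝ) (r k : ι → ℤ) :
    B.mulVec (castVec (r + (M : ℤ) • k)) =
      ((M : ℝ) • B).mulVec (castVec k + (M : ℝ)⁻¹ • castVec r) := by
  have hM : (M : ℝ) ≠ 0 := by exact_mod_cast NeZero.ne M
  have h1 : castVec (r + (M : ℤ) • k) = (M : ℝ) • (castVec k + (M : ℝ)⁻¹ • castVec r) := by
    funext i
    simp only [castVec_apply, Pi.add_apply, Pi.smul_apply, smul_eq_mul]
    push_cast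
    field_simp
    ring
  rw [h1, Matrix.mulVec_smul, Matrix.smul_mulVec]

theorem tendsto_periodic (B : Matrix ι ι ℝ) (hB : B.det ≠ 0) (d : ℝ → ι → ℂ) (γ : ι → ℝ)
    (hγ : ∀ j, 0 < γ j)
    (hd : ∀ j, Tendsto (fun t : ℝ => d t j / (t : ℂ)) (𝓝[>] 0) (𝓝 (γ j : ℂ)))
    (M : ℕ) [NeZero M] (a : (ι → ℤ) → ℂ) (ha : ∀ m k, a (m + (M : ℤ) • k) = a m)
    (ha1 : ∀ m, ‖a m‖ ≤ 1) :
    Tendsto (fun t : ℝ => ((Real.sqrt t : ℝ) : ℂ) ^ Fintype.card ι *
      ∑' m : ι → ℤ, a m * Complex.exp (-Real.pi * ∑ j, d t j *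
        ((B.mulVec (castVec m) j : ℝ) : ℂ) ^ 2)) (𝓝[>] 0)
      (𝓝 ((|B.det|⁻¹ : ℝ) * avgM M a * ∏ j, ((γ j : ℂ)⁻¹) ^ (1 / 2 : ℂ))) := by
  have hpos : ∀ᶠ t : ℝ in 𝓝[>] 0, 0 < t := eventually_mem_nhdsWithin
  have hre : ∀ j, ∀ᶠ t : ℝ in 𝓝[>] 0, 0 < (d t j).re := by
    intro j
    have h1 : Tendsto (fun t : ℝ => (d t j / (t : ℂ)).re) (𝓝[>] 0) (𝓝 (γ j)) := by
      have := (Complex.continuous_re.tendsto (γ j : ℂ)).comp (hd j)
      rw [Complex.ofReal_re] at this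
      exact this
    filter_upwards [h1.eventually (lt_mem_nhds (hγ j)), hpos] with t ht1 ht2
    have h2 : (d t j / (t : ℂ)).re = (d t j).re / t := by
      rw [Complex.div_ofReal_re]
    rw [h2] at ht1
    exact (div_pos_iff_of_pos_right ht2).mp ht1
  have hMB := det_natSmul_ne_zero M B hB
  have h1 : Tendsto (fun t : ℝ => ∑ r : ι → Fin M, a (repM r) *
      (((Real.sqrt t : ℝ) : ℂ) ^ Fintype.card ι *
        expSum ((M : ℝ) • B) (d t) ((M : ℝ)⁻¹ • castVec (repM r)))) (𝓝[>] 0)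
      (𝓝 (∑ r : ι → Fin M, a (repM r) * ((|((M : ℝ) • B).det|⁻¹ : ℝ) *
        ∏ j, ((γ j : ℂ)⁻¹) ^ (1 / 2 : ℂ)))) := by
    refine tendsto_finsetSum _ fun r _ => Tendsto.const_mul _ ?_
    exact tendsto_expSum ((M : ℝ) • B) hMB d γ hγ hd _
  have e1 : (∑ r : ι → Fin M, a (repM r) * ((|((M : ℝ) • B).det|⁻¹ : ℝ) *
        ∏ j, ((γ j : ℂ)⁻¹) ^ (1 / 2 : ℂ)))
      = (|B.det|⁻¹ : ℝ) * avgM M a * ∏ j, ((γ j : ℂ)⁻¹) ^ (1 / 2 : ℂ) := by
    rw [← Finset.sum_mul, Matrix.det_smul, abs_mul, mul_inv, avgM]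
    have h2 : |(M : ℝ) ^ Fintype.card ι| = (M : ℝ) ^ Fintype.card ι := abs_of_nonneg (by positivity)
    rw [h2]
    push_cast
    ring
  rw [e1] at h1
  refine h1.congr' ?_
  filter_upwards [hpos, eventually_all.mpr hre] with t ht0 ht1
  have hs : Summable fun m : ι → ℤ => Complex.exp (-Real.pi * ∑ j, d t j *
      ((B.mulVec (castVec m) j : ℝ) : ℂ) ^ 2) := by
    have := summable_expSum B hB (d t) ht1 0
    simpa using this
  have hs2 : Summable fun m : ι → ℤ => a m * Complex.exp (-Real.pi * ∑ j, d t j *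
      ((B.mulVec (castVec m) j : ℝ) : ℂ) ^ 2) := by
    refine Summable.of_norm_bounded hs.norm fun m => ?_
    rw [norm_mul]
    exact mul_le_of_le_one_left (norm_nonneg _) (ha1 m)
  rw [tsum_periodic M a _ ha hs2, Finset.mul_sum]
  refine Finset.sum_congr rfl fun r _ => ?_
  have h3 : expSum ((M : ℝ) • B) (d t) ((M : ℝ)⁻¹ • castVec (repM r))
      = ∑' k : ι → ℤ, Complex.exp (-Real.pi * ∑ j, d t j *
        ((B.mulVec (castVec (repM r + (M : ℤ) • k)) j : ℝ) : ℂ) ^ 2) := by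
    unfold expSum
    refine tsum_congr fun k => ?_
    rw [mulVec_rep M B]
  rw [h3]
  ring

/-- **Reciprocity of Gauss sums** in several variables. -/
theorem gauss_reciprocity (B : Matrix ι ι ℝ) (hB : B.det ≠ 0) (w : ι → ℝ) (hw : ∀ j, w j ≠ 0)
    (M₁ M₂ : ℕ) [NeZero M₁] [NeZero M₂] (a b : (ι → ℤ) → ℂ)
    (ha : ∀ m, a m = Complex.exp (Complex.I * Real.pi * ∑ j, (w j : ℂ) *
      ((B.mulVec (castVec m) j : ℝ) : ℂ) ^ 2))
    (hb : ∀ m, b m = Complex.exp (-(Complex.I * Real.pi * ∑ j, (w j : ℂ)⁻¹ *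
      (((B⁻¹).transpose.mulVec (castVec m) j : ℝ) : ℂ) ^ 2)))
    (hap : ∀ m k, a (m + (M₁ : ℤ) • k) = a m) (hbp : ∀ m k, b (m + (M₂ : ℤ) • k) = b m) :
    avgM M₁ a = (|B.det| : ℝ) * (∏ j, ((-(Complex.I * w j))⁻¹) ^ (1 / 2 : ℂ) * (|w j| : ℝ)) *
      avgM M₂ b := by
  have hB' := det_dual_ne_zero' B hB
  have hpos : ∀ᶠ t : ℝ in 𝓝[>] 0, 0 < t := eventually_mem_nhdsWithin
  have ha1 : ∀ m, ‖a m‖ ≤ 1 := by
    intro m
    rw [ha, Complex.norm_exp]
    have : (Complex.I * Real.pi * ∑ j, (w j : ℂ) * ((B.mulVec (castVec m) j : ℝ) : ℂ) ^ 2).re = 0 := by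
      have e : (∑ j, (w j : ℂ) * ((B.mulVec (castVec m) j : ℝ) : ℂ) ^ 2)
        = ((∑ j, w j * (B.mulVec (castVec m) j) ^ 2 : ℝ) : ℂ) := by push_cast; rfl
      rw [e, mul_assoc, ← Complex.ofReal_mul, Complex.re_mul_ofReal, Complex.I_re, zero_mul]
    rw [this, Real.exp_zero]
  have hb1 : ∀ m, ‖b m‖ ≤ 1 := by
    intro m
    rw [hb, Complex.norm_exp]
    have : (-(Complex.I * Real.pi * ∑ j, (w j : ℂ)⁻¹ *
      (((B⁻¹).transpose.mulVec (castVec m) j : ℝ) : ℂ) ^ 2)).re = 0 := by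
      have e : (∑ j, (w j : ℂ)⁻¹ * (((B⁻¹).transpose.mulVec (castVec m) j : ℝ) : ℂ) ^ 2)
        = ((∑ j, (w j)⁻¹ * ((B⁻¹).transpose.mulVec (castVec m) j) ^ 2 : ℝ) : ℂ) := by
        push_cast; rfl
      rw [e, mul_assoc, ← Complex.ofReal_mul, Complex.neg_re, Complex.re_mul_ofReal,
        Complex.I_re, zero_mul, neg_zero]
    rw [this, Real.exp_zero]
  -- first evaluation
  have L1 := tendsto_periodic B hB (fun t _ => (t : ℂ)) (fun _ => 1) (fun _ => one_pos)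
    (fun j => by
      refine Tendsto.congr' ?_ (tendsto_const_nhds (x := ((1 : ℝ) : ℂ)))
      filter_upwards [hpos] with t ht
      have : (t : ℂ) ≠ 0 := by exact_mod_cast ht.ne'
      rw [div_self this]
      simp) M₁ a hap ha1
  -- second evaluation
  set d : ℝ → ι → ℂ := fun t j => (t : ℂ) / ((w j : ℂ) ^ 2 + Complex.I * w j * t) with hd
  have hdlim : ∀ j, Tendsto (fun t : ℝ => d t j / (t : ℂ)) (𝓝[>] 0)
      (𝓝 ((((w j) ^ 2)⁻¹ : ℝ) : ℂ)) := by
    intro j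
    have hwj : (w j : ℂ) ≠ 0 := by exact_mod_cast hw j
    have h1 : Tendsto (fun t : ℝ => ((w j : ℂ) ^ 2 + Complex.I * w j * t)⁻¹) (𝓝[>] 0)
        (𝓝 (((w j : ℂ) ^ 2 + Complex.I * w j * (0 : ℝ))⁻¹)) := by
      refine Tendsto.inv₀ ?_ ?_
      · have : Continuous (fun t : ℝ => (w j : ℂ) ^ 2 + Complex.I * w j * (t : ℂ)) := by fun_prop
        exact (this.tendsto 0).mono_left nhdsWithin_le_nhds
      · simp [hw j]
    have h2 : (((w j : ℂ) ^ 2 + Complex.I * w j * (0 : ℝ))⁻¹) = ((((w j) ^ 2)⁻¹ : ℝ) : ℂ) := by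
      push_cast
      simp
    rw [h2] at h1
    refine h1.congr' ?_
    filter_upwards [hpos] with t ht
    have : (t : ℂ) ≠ 0 := by exact_mod_cast ht.ne'
    rw [hd]
    field_simp
  have L2 := tendsto_periodic (B⁻¹).transpose hB' d (fun j => ((w j) ^ 2)⁻¹)
    (fun j => by have := hw j; positivity) hdlim M₂ b hbp hb1
  -- the prefactor
  have hpre : Tendsto (fun t : ℝ => (|B.det|⁻¹ : ℝ) *
      ∏ j, (((t : ℂ) - Complex.I * w j)⁻¹) ^ (1 / 2 : ℂ)) (𝓝[>] 0)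
      (𝓝 ((|B.det|⁻¹ : ℝ) * ∏ j, ((-(Complex.I * w j))⁻¹) ^ (1 / 2 : ℂ))) := by
    refine Tendsto.const_mul _ (tendsto_finsetProd _ fun j _ => ?_)
    have hwj : (w j : ℂ) ≠ 0 := by exact_mod_cast hw j
    have h0 : (-(Complex.I * w j)) ≠ 0 := neg_ne_zero.mpr (mul_ne_zero Complex.I_ne_zero hwj)
    have h1 : Tendsto (fun t : ℝ => (((t : ℂ) - Complex.I * w j)⁻¹)) (𝓝[>] 0)
        (𝓝 ((-(Complex.I * w j))⁻¹)) := by
      refine Tendsto.inv₀ ?_ h0
      have : Continuous (fun t : ℝ => (t : ℂ) - Complex.I * w j) := by fun_prop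
      have h2 := (this.tendsto 0).mono_left (nhdsWithin_le_nhds (s := Ioi 0))
      simpa using h2
    have hmem : ((-(Complex.I * w j))⁻¹) ∈ Complex.slitPlane := by
      rw [Complex.mem_slitPlane_iff]
      right
      have : (-(Complex.I * w j))⁻¹ = ((w j)⁻¹ : ℝ) * Complex.I := by
        push_cast
        field_simp
        ring_nf
        simp
      rw [this]
      simp [hw j]
    exact ((continuousAt_cpow_const hmem).tendsto).comp h1
  have L3 := hpre.mul L2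
  have huniq := tendsto_nhds_unique (L1.congr' ?_) L3
  · -- conclude
    have hdet : (|B.det|⁻¹ : ℝ) ≠ 0 := inv_ne_zero (abs_ne_zero.mpr hB)
    have e1 : ∏ j : ι, ((((1 : ℝ) : ℂ))⁻¹) ^ (1 / 2 : ℂ) = 1 := by simp
    rw [e1, mul_one] at huniq
    have e2 : (|((B⁻¹).transpose).det|⁻¹ : ℝ) = |B.det| := by
      rw [Matrix.det_transpose, Matrix.det_nonsing_inv, Ring.inverse_eq_inv', abs_inv, inv_inv]
    have e3 : ∀ j, ((((((w j) ^ 2)⁻¹ : ℝ) : ℂ))⁻¹) ^ (1 / 2 : ℂ) = ((|w j| : ℝ) : ℂ) := by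
      intro j
      rw [← Complex.ofReal_inv, inv_inv]
      have : (1 / 2 : ℂ) = ((1 / 2 : ℝ) : ℂ) := by push_cast; rfl
      rw [this, ← Complex.ofReal_cpow (sq_nonneg _), ← Real.sqrt_eq_rpow, Real.sqrt_sq_eq_abs]
    simp_rw [e3] at huniq
    rw [e2] at huniq
    have hdet' : ((|B.det|⁻¹ : ℝ) : ℂ) ≠ 0 := by exact_mod_cast hdet
    apply mul_left_cancel₀ hdet'
    rw [huniq, Finset.prod_mul_distrib]
    ring
  · filter_upwards [hpos] with t ht
    have hc : ∀ j, 0 < ((t : ℂ) - Complex.I * w j).re := by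
      intro j
      simp [ht]
    have h1 := expSum_transform_zero B hB (fun j => (t : ℂ) - Complex.I * w j) hc
    have h2 : expSum B (fun j => (t : ℂ) - Complex.I * w j) 0 = ∑' m : ι → ℤ, a m *
        Complex.exp (-Real.pi * ∑ j, (t : ℂ) * ((B.mulVec (castVec m) j : ℝ) : ℂ) ^ 2) := by
      unfold expSum
      refine tsum_congr fun m => ?_
      rw [ha, ← Complex.exp_add, add_zero]
      congr 1
      rw [Finset.mul_sum, Finset.mul_sum, Finset.mul_sum, ← Finset.sum_add_distrib]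
      refine Finset.sum_congr rfl fun j _ => ?_
      ring
    have h3 : expSum (B⁻¹).transpose (fun j => ((t : ℂ) - Complex.I * w j)⁻¹) 0
        = ∑' m : ι → ℤ, b m * Complex.exp (-Real.pi * ∑ j, d t j *
          (((B⁻¹).transpose.mulVec (castVec m) j : ℝ) : ℂ) ^ 2) := by
      unfold expSum
      refine tsum_congr fun m => ?_
      rw [hb, ← Complex.exp_add, add_zero]
      congr 1
      rw [Finset.mul_sum, Finset.mul_sum, Finset.mul_sum, ← Finset.sum_neg_distrib,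
        ← Finset.sum_add_distrib]
      refine Finset.sum_congr rfl fun j _ => ?_
      have hwj : (w j : ℂ) ≠ 0 := by exact_mod_cast hw j
      have h5 : ((t : ℂ) - Complex.I * w j) ≠ 0 := by
        intro h0
        have := hc j
        rw [h0] at this
        simp at this
      have h6 : (w j : ℂ) ^ 2 + Complex.I * w j * t ≠ 0 := by
        have : (w j : ℂ) ^ 2 + Complex.I * w j * t = (Complex.I * w j) * (t - Complex.I * w j) := by
          linear_combination ((w j : ℂ) ^ 2) * Complex.I_sq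
        rw [this]
        exact mul_ne_zero (mul_ne_zero Complex.I_ne_zero hwj) h5
      have h8 : (w j : ℂ) ^ 2 + Complex.I * w j * t = (Complex.I * w j) * (t - Complex.I * w j) := by
        linear_combination ((w j : ℂ) ^ 2) * Complex.I_sq
      have h7 : ((t : ℂ) - Complex.I * w j)⁻¹ = Complex.I * (w j : ℂ)⁻¹ + d t j := by
        have h9 : d t j = (t : ℂ) / ((Complex.I * w j) * (t - Complex.I * w j)) := by
          rw [hd, ← h8]
        rw [h9, inv_eq_one_div, div_eq_iff h5, add_mul, div_mul_eq_mul_div,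
          mul_div_mul_right _ _ h5]
        have h10 : (t : ℂ) / (Complex.I * w j) = - (Complex.I * t * (w j : ℂ)⁻¹) := by
          rw [div_eq_iff (mul_ne_zero Complex.I_ne_zero hwj)]
          field_simp
          linear_combination (t : ℂ) * Complex.I_sq
        rw [h10]
        field_simp
        linear_combination ((w j : ℂ)) * Complex.I_sq
      simp only
      rw [h7]
      ring
    rw [← h2, h1, h3]
    ring

end Pool.Agent.Helper4
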