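import Mathlib
import Pool.Agent.helper4.GaussLimit

/-! # Relative reciprocity for Gauss sums of symmetric matrices -/

open MeasureTheory Filter Topology Set Matrix

noncomputable section

namespace Pool.Agent.Helper4

set_option linter.unusedSectionVars false

variable {ι : Type*} [Fintype ι] [DecidableEq ι]

/-- real diagonalization -/
lemma exists_diag (S : Matrix ι ι ℝ) (hS : S.IsSymm) (hdet : S.det ≠ 0) :
    ∃ (B : Matrix ι ι ℝ) (w : ι → ℝ), B.det ≠ 0 ∧ (∀ j, w j ≠ 0) ∧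
      S = B.transpose * Matrix.diagonal w * B := by
  have hH : S.IsHermitian := by
    rw [Matrix.IsHermitian, Matrix.conjTranspose_eq_transpose_of_trivial]
    exact hS
  set U : Matrix ι ι ℝ := (hH.eigenvectorUnitary : Matrix ι ι ℝ) with hU
  have hsp : S = U * Matrix.diagonal hH.eigenvalues * U.transpose := by
    have h := hH.spectral_theorem
    rw [Unitary.conjStarAlgAut_apply] at h
    rw [← Matrix.conjTranspose_eq_transpose_of_trivial]
    exact h
  have hdet' : S.det = U.det * (∏ i, hH.eigenvalues i) * U.det := by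
    conv_lhs => rw [hsp]
    rw [Matrix.det_mul, Matrix.det_mul, Matrix.det_diagonal, Matrix.det_transpose]
  refine ⟨U.transpose, hH.eigenvalues, ?_, ?_, ?_⟩
  · rw [Matrix.det_transpose]
    intro h
    apply hdet
    rw [hdet', h]
    simp
  · intro j hj
    apply hdet
    rw [hdet', Finset.prod_eq_zero (Finset.mem_univ j) hj]
    simp
  · rw [Matrix.transpose_transpose]
    exact hsp

lemma dot_diag (B : Matrix ι ι ℝ) (w : ι → ℝ) (x : ι → ℝ) :
    x ⬝ᵥ (B.transpose * Matrix.diagonal w * B) *ᵥ x = ∑ j, w j * (B *ᵥ x) j ^ 2 := by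
  rw [← Matrix.mulVec_mulVec, ← Matrix.mulVec_mulVec, Matrix.dotProduct_mulVec,
    Matrix.vecMul_transpose]
  unfold dotProduct
  refine Finset.sum_congr rfl fun j _ => ?_
  rw [Matrix.mulVec_diagonal]
  ring

lemma inv_diag (B : Matrix ι ι ℝ) (hB : B.det ≠ 0) (w : ι → ℝ) (hw : ∀ j, w j ≠ 0) :
    (B.transpose * Matrix.diagonal w * B)⁻¹
      = (B⁻¹.transpose).transpose * Matrix.diagonal (fun j => (w j)⁻¹) * B⁻¹.transpose := by
  have hu : IsUnit B.det := isUnit_iff_ne_zero.mpr hB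
  have hut : IsUnit B.transpose.det := by rw [Matrix.det_transpose]; exact hu
  apply Matrix.inv_eq_right_inv
  rw [Matrix.transpose_transpose, Matrix.transpose_nonsing_inv]
  have h1 : B * B⁻¹ = 1 := Matrix.mul_nonsing_inv _ hu
  have h2 : B.transpose * B.transpose⁻¹ = 1 := Matrix.mul_nonsing_inv _ hut
  have h3 : Matrix.diagonal w * Matrix.diagonal (fun j => (w j)⁻¹) = 1 := by
    rw [Matrix.diagonal_mul_diagonal]
    have : (fun j => w j * (w j)⁻¹) = fun _ => (1 : ℝ) := by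
      funext j
      exact mul_inv_cancel₀ (hw j)
    rw [this, Matrix.diagonal_one]
  calc B.transpose * Matrix.diagonal w * B * (B⁻¹ * Matrix.diagonal (fun j => (w j)⁻¹) *
        B.transpose⁻¹)
      = B.transpose * (Matrix.diagonal w * (B * B⁻¹) * Matrix.diagonal (fun j => (w j)⁻¹)) *
        B.transpose⁻¹ := by simp only [Matrix.mul_assoc]
    _ = 1 := by rw [h1, Matrix.mul_one, h3, Matrix.mul_one, h2]

/-- constant depending on the diagonal form -/
def sigC (w : ι → ℝ) : ℂ := ∏ j, ((-(Complex.I * w j))⁻¹) ^ (1 / 2 : ℂ) * (|w j| : ℝ)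

lemma reciprocity_symm (S B : Matrix ι ι ℝ) (w : ι → ℝ) (hB : B.det ≠ 0) (hw : ∀ j, w j ≠ 0)
    (hS : S = B.transpose * Matrix.diagonal w * B)
    (M₁ M₂ : ℕ) [NeZero M₁] [NeZero M₂] (a b : (ι → ℤ) → ℂ)
    (ha : ∀ m, a m = Complex.exp (Complex.I * Real.pi *
      ((castVec m ⬝ᵥ S *ᵥ castVec m : ℝ) : ℂ)))
    (hb : ∀ m, b m = Complex.exp (-(Complex.I * Real.pi *
      ((castVec m ⬝ᵥ S⁻¹ *ᵥ castVec m : ℝ) : ℂ))))
    (hap : ∀ m k, a (m + (M₁ : ℤ) • k) = a m) (hbp : ∀ m k, b (m + (M₂ : ℤ) • k) = b m) :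
    avgM M₁ a = (|B.det| : ℝ) * sigC w * avgM M₂ b := by
  refine gauss_reciprocity B hB w hw M₁ M₂ a b ?_ ?_ hap hbp
  · intro m
    rw [ha, hS, dot_diag]
    push_cast
    rfl
  · intro m
    rw [hb, hS, inv_diag B hB w hw, dot_diag]
    push_cast
    rfl

/-- **Relative reciprocity.** -/
theorem relative_reciprocity (S₁ R : Matrix ι ι ℝ) (hS₁ : S₁.IsSymm) (hdet : S₁.det ≠ 0)
    (hR : R.det ≠ 0) (M₀ M₁ M₂ : ℕ) [NeZero M₀] [NeZero M₁] [NeZero M₂] (a a₁ b : (ι → ℤ) → ℂ)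
    (ha₁ : ∀ m, a₁ m = Complex.exp (Complex.I * Real.pi *
      ((castVec m ⬝ᵥ S₁ *ᵥ castVec m : ℝ) : ℂ)))
    (ha : ∀ m, a m = Complex.exp (Complex.I * Real.pi *
      ((castVec m ⬝ᵥ (R.transpose * S₁ * R) *ᵥ castVec m : ℝ) : ℂ)))
    (hb₁ : ∀ m, b m = Complex.exp (-(Complex.I * Real.pi *
      ((castVec m ⬝ᵥ S₁⁻¹ *ᵥ castVec m : ℝ) : ℂ))))
    (hb : ∀ m, b m = Complex.exp (-(Complex.I * Real.pi *
      ((castVec m ⬝ᵥ (R.transpose * S₁ * R)⁻¹ *ᵥ castVec m : ℝ) : ℂ))))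
    (hap₁ : ∀ m k, a₁ (m + (M₀ : ℤ) • k) = a₁ m)
    (hap : ∀ m k, a (m + (M₁ : ℤ) • k) = a m) (hbp : ∀ m k, b (m + (M₂ : ℤ) • k) = b m) :
    avgM M₁ a = (|R.det| : ℝ) * avgM M₀ a₁ := by
  obtain ⟨B, w, hB, hw, hS⟩ := exists_diag S₁ hS₁ hdet
  have h1 := reciprocity_symm S₁ B w hB hw hS M₀ M₂ a₁ b ha₁ hb₁ hap₁ hbp
  have hBR : (B * R).det ≠ 0 := by
    rw [Matrix.det_mul]
    exact mul_ne_zero hB hR
  have hS' : R.transpose * S₁ * R = (B * R).transpose * Matrix.diagonal w * (B * R) := by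
    rw [hS, Matrix.transpose_mul]
    simp only [Matrix.mul_assoc]
  have h2 := reciprocity_symm (R.transpose * S₁ * R) (B * R) w hBR hw hS' M₁ M₂ a b ha hb hap hbp
  rw [h1, h2, Matrix.det_mul, abs_mul]
  push_cast
  ring

end Pool.Agent.Helper4
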