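import Mathlib
import Pool.Agent.helper4.GaussRel

/-! # The trace form in the mixed space and Gram matrices -/

open Filter Topology Set Matrix Module

noncomputable section

namespace Pool.Agent.Helper4

set_option linter.unusedSectionVars false

open NumberField NumberField.InfinitePlace NumberField.mixedEmbedding

variable (K : Type*) [Field K] [NumberField K]

open scoped Classical

lemma trace_eq_sum_places (x : K) :
    ((Algebra.trace ℚ K x : ℚ) : ℝ) = ∑ w : InfinitePlace K, (mult w : ℝ) * (w.embedding x).re := by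
  have h := trace_eq_sum_embeddings (K := ℚ) (L := K) ℂ (x := x)
  have h2 : ((Algebra.trace ℚ K x : ℚ) : ℂ) = ∑ φ : K →+* ℂ, φ x := by
    rw [eq_ratCast] at h
    rw [h]
    exact (Fintype.sum_equiv (RingHom.equivRatAlgHom K ℂ) (fun f => f x)
      (fun φ => φ x) fun _ => by simp [RingHom.equivRatAlgHom_apply]).symm
  have h3 : ((Algebra.trace ℚ K x : ℚ) : ℝ) = ∑ φ : K →+* ℂ, (φ x).re := by
    have := congrArg Complex.re h2
    rw [Complex.re_sum, Complex.ratCast_re] at this
    exact this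
  rw [h3, ← Finset.sum_fiberwise Finset.univ InfinitePlace.mk (fun φ : K →+* ℂ => (φ x).re)]
  refine Finset.sum_congr rfl fun w _ => ?_
  have hw : ∀ φ ∈ (Finset.univ.filter fun φ : K →+* ℂ => InfinitePlace.mk φ = w),
      (φ x).re = (w.embedding x).re := by
    intro φ hφ
    have h4 : InfinitePlace.mk φ = w := (Finset.mem_filter.mp hφ).2
    rw [← mk_embedding w, mk_eq_iff] at h4
    rcases h4 with h5 | h5
    · rw [h5]
    · rw [← h5, ComplexEmbedding.conjugate_coe_eq, Complex.conj_re]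
  rw [Finset.sum_congr rfl hw, Finset.sum_const, card_filter_mk_eq, nsmul_eq_mul]

/-- trace on the mixed space -/
def trM : mixedSpace K →ₗ[ℝ] ℝ :=
  (∑ w : {w : InfinitePlace K // IsReal w}, (LinearMap.proj w : _ →ₗ[ℝ] ℝ)).comp
      (LinearMap.fst ℝ _ _) +
    (∑ w : {w : InfinitePlace K // IsComplex w},
      (2 : ℝ) • Complex.reLm.comp (LinearMap.proj w : _ →ₗ[ℝ] ℂ)).comp (LinearMap.snd ℝ _ _)

lemma trM_apply (X : mixedSpace K) : trM K X = ∑ w, X.1 w + ∑ w, 2 * (X.2 w).re := by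
  simp [trM]

lemma sum_places' (f : InfinitePlace K → ℝ) :
    ∑ w, f w = ∑ w : {w : InfinitePlace K // IsReal w}, f w.1
      + ∑ w : {w : InfinitePlace K // IsComplex w}, f w.1 := by
  rw [← Fintype.sum_subtype_add_sum_subtype (fun w : InfinitePlace K => IsReal w) f]
  congr 1
  exact Fintype.sum_equiv (Equiv.subtypeEquivRight fun w => not_isReal_iff_isComplex) _ _
    (fun w => rfl)

lemma trM_mixedEmbedding (x : K) :
    trM K (mixedEmbedding K x) = ((Algebra.trace ℚ K x : ℚ) : ℝ) := by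
  rw [trM_apply, trace_eq_sum_places, sum_places']
  congr 1
  · refine Finset.sum_congr rfl fun w _ => ?_
    rw [mixedEmbedding_apply_isReal, mult_isReal w]
    have := congrArg Complex.re (embedding_of_isReal_apply w.2 x)
    rw [← this, Complex.ofReal_re, Nat.cast_one, one_mul]
  · refine Finset.sum_congr rfl fun w _ => ?_
    rw [mixedEmbedding_apply_isComplex, mult_isComplex w]
    push_cast
    rfl

/-- index type of the integral basis -/
abbrev IB : Type _ := Free.ChooseBasisIndex ℤ (𝓞 K)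

/-- the Gram matrix of `2 Tr(γ x y)` -/
def gram (γ : K) : Matrix (IB K) (IB K) ℝ :=
  Matrix.of fun i j => 2 * ((Algebra.trace ℚ K (γ * (integralBasis K i * integralBasis K j)) : ℚ) : ℝ)

/-- the inverse Gram matrix -/
def gramInv (γ : K) : Matrix (IB K) (IB K) ℝ :=
  Matrix.of fun i j => 1 / 2 * ((Algebra.trace ℚ K
    (γ⁻¹ * ((integralBasis K).traceDual i * (integralBasis K).traceDual j)) : ℚ) : ℝ)

lemma gram_isSymm (γ : K) : (gram K γ).IsSymm := by
  ext i j
  simp only [gram, Matrix.transpose_apply, Matrix.of_apply]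
  rw [mul_comm (integralBasis K j)]

lemma sum_trace_dual (y : K) :
    ∑ k, Algebra.trace ℚ K (y * integralBasis K k) • (integralBasis K).traceDual k = y := by
  conv_rhs => rw [← (integralBasis K).traceDual.sum_repr y]
  refine Finset.sum_congr rfl fun k _ => ?_
  rw [Basis.traceDual_repr_apply, Algebra.traceForm_apply]

lemma gram_mul_gramInv (γ : K) (hγ : γ ≠ 0) : gram K γ * gramInv K γ = 1 := by
  ext i j
  rw [Matrix.mul_apply, Matrix.one_apply]
  simp only [gram, gramInv, Matrix.of_apply]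
  set ω := integralBasis K with hω
  have h1 : ∑ k, Algebra.trace ℚ K (γ * (ω i * ω k)) *
      Algebra.trace ℚ K (γ⁻¹ * (ω.traceDual k * ω.traceDual j))
      = if i = j then 1 else 0 := by
    have h2 : ∀ k, Algebra.trace ℚ K (γ * (ω i * ω k)) *
        Algebra.trace ℚ K (γ⁻¹ * (ω.traceDual k * ω.traceDual j))
        = Algebra.trace ℚ K (γ⁻¹ * ((Algebra.trace ℚ K ((γ * ω i) * ω k) • ω.traceDual k) *
          ω.traceDual j)) := by
      intro k
      rw [smul_mul_assoc, mul_smul_comm, map_smul, smul_eq_mul, mul_assoc γ]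
    simp_rw [h2]
    rw [← map_sum, ← Finset.mul_sum, ← Finset.sum_mul, hω, sum_trace_dual, ← mul_assoc,
      ← mul_assoc, inv_mul_cancel₀ hγ, one_mul, Basis.trace_mul_traceDual]
  have h3 : ∀ k, (2 * ((Algebra.trace ℚ K (γ * (ω i * ω k)) : ℚ) : ℝ)) *
      (1 / 2 * ((Algebra.trace ℚ K (γ⁻¹ * (ω.traceDual k * ω.traceDual j)) : ℚ) : ℝ))
      = ((Algebra.trace ℚ K (γ * (ω i * ω k)) *
      Algebra.trace ℚ K (γ⁻¹ * (ω.traceDual k * ω.traceDual j)) : ℚ) : ℝ) := by
    intro k
    push_cast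
    ring
  simp_rw [h3]
  rw [← Rat.cast_sum, h1]
  split_ifs <;> simp

lemma gram_det_ne_zero (γ : K) (hγ : γ ≠ 0) : (gram K γ).det ≠ 0 := by
  intro h
  have h1 := congrArg Matrix.det (gram_mul_gramInv K γ hγ)
  rw [Matrix.det_mul, h, zero_mul, Matrix.det_one] at h1
  exact zero_ne_one h1

lemma gram_inv (γ : K) (hγ : γ ≠ 0) : (gram K γ)⁻¹ = gramInv K γ :=
  Matrix.inv_eq_right_inv (gram_mul_gramInv K γ hγ)

/-- integer with given coordinates -/
def xI (m : IB K → ℤ) : 𝓞 K := ∑ i, m i • RingOfIntegers.basis K i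

lemma xI_coe (m : IB K → ℤ) : ((xI K m : 𝓞 K) : K) = ∑ i, (m i : K) * integralBasis K i := by
  unfold xI
  rw [RingOfIntegers.coe_eq_algebraMap, map_sum]
  refine Finset.sum_congr rfl fun i _ => ?_
  rw [zsmul_eq_mul, map_mul, map_intCast, integralBasis_apply]

lemma xI_add (m k : IB K → ℤ) : xI K (m + k) = xI K m + xI K k := by
  unfold xI
  rw [← Finset.sum_add_distrib]
  refine Finset.sum_congr rfl fun i _ => ?_
  rw [Pi.add_apply, add_smul]

lemma xI_smul (M : ℤ) (m : IB K → ℤ) : xI K (M • m) = M * xI K m := by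
  unfold xI
  rw [Finset.mul_sum]
  refine Finset.sum_congr rfl fun i _ => ?_
  rw [Pi.smul_apply, smul_assoc, zsmul_eq_mul]

lemma xI_surjective : Function.Surjective (xI K) := by
  intro y
  refine ⟨fun i => (RingOfIntegers.basis K).repr y i, ?_⟩
  exact (RingOfIntegers.basis K).sum_repr y

/-- dual element with given coordinates -/
def nuI (m : IB K → ℤ) : K := ∑ i, (m i : K) * (integralBasis K).traceDual i

lemma nuI_add (m k : IB K → ℤ) : nuI K (m + k) = nuI K m + nuI K k := by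
  unfold nuI
  rw [← Finset.sum_add_distrib]
  refine Finset.sum_congr rfl fun i _ => ?_
  rw [Pi.add_apply]
  push_cast
  ring

lemma nuI_smul (M : ℤ) (m : IB K → ℤ) : nuI K (M • m) = M * nuI K m := by
  unfold nuI
  rw [Finset.mul_sum]
  refine Finset.sum_congr rfl fun i _ => ?_
  rw [Pi.smul_apply, smul_eq_mul]
  push_cast
  ring

lemma dot_trace (γ : K) (e : IB K → K) (c : ℝ) (S : Matrix (IB K) (IB K) ℝ)
    (hS : ∀ i j, S i j = c * ((Algebra.trace ℚ K (γ * (e i * e j)) : ℚ) : ℝ)) (m : IB K → ℤ) :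
    castVec m ⬝ᵥ S *ᵥ castVec m
      = c * ((Algebra.trace ℚ K (γ * (∑ i, (m i : K) * e i) ^ 2) : ℚ) : ℝ) := by
  have h1 : γ * (∑ i, (m i : K) * e i) ^ 2
      = ∑ i, ∑ j, (m i * m j : ℤ) • (γ * (e i * e j)) := by
    rw [sq, Finset.sum_mul_sum, Finset.mul_sum]
    refine Finset.sum_congr rfl fun i _ => ?_
    rw [Finset.mul_sum]
    refine Finset.sum_congr rfl fun j _ => ?_
    rw [zsmul_eq_mul]
    push_cast
    ring
  rw [h1, map_sum]
  simp only [dotProduct, Matrix.mulVec, castVec_apply]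
  rw [Rat.cast_sum, Finset.mul_sum]
  refine Finset.sum_congr rfl fun i _ => ?_
  rw [map_sum, Rat.cast_sum, Finset.mul_sum, Finset.mul_sum]
  refine Finset.sum_congr rfl fun j _ => ?_
  rw [hS, map_zsmul, zsmul_eq_mul]
  push_cast
  ring

lemma dot_gram (γ : K) (m : IB K → ℤ) : castVec m ⬝ᵥ gram K γ *ᵥ castVec m
    = 2 * ((Algebra.trace ℚ K (γ * (xI K m : K) ^ 2) : ℚ) : ℝ) := by
  rw [dot_trace K γ (integralBasis K) 2 (gram K γ) (fun i j => rfl), xI_coe]

lemma dot_gramInv (γ : K) (m : IB K → ℤ) : castVec m ⬝ᵥ gramInv K γ *ᵥ castVec m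
    = 1 / 2 * ((Algebra.trace ℚ K (γ⁻¹ * (nuI K m) ^ 2) : ℚ) : ℝ) := by
  rw [dot_trace K γ⁻¹ (integralBasis K).traceDual (1 / 2) (gramInv K γ) (fun i j => rfl)]
  rfl

/-- matrix of the multiplication by an element of the mixed space -/
def mulMat (ρ : mixedSpace K) : Matrix (IB K) (IB K) ℝ :=
  LinearMap.toMatrix (latticeBasis K) (latticeBasis K) (LinearMap.mulLeft ℝ ρ)

/-- the trace form -/
def trForm (γ : K) : LinearMap.BilinForm ℝ (mixedSpace K) :=
  LinearMap.mk₂ ℝ (fun X Y => 2 * trM K (mixedEmbedding K γ * (X * Y)))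
    (fun X X' Y => by rw [add_mul, mul_add, map_add, mul_add])
    (fun c X Y => by rw [smul_mul_assoc, mul_smul_comm, map_smul, smul_eq_mul, smul_eq_mul]; ring)
    (fun X Y Y' => by rw [mul_add, mul_add, map_add, mul_add])
    (fun c X Y => by rw [mul_smul_comm, mul_smul_comm, map_smul, smul_eq_mul, smul_eq_mul]; ring)

lemma trForm_apply (γ : K) (X Y : mixedSpace K) :
    trForm K γ X Y = 2 * trM K (mixedEmbedding K γ * (X * Y)) := rfl

lemma toMatrix_trForm (γ : K) : LinearMap.BilinForm.toMatrix (latticeBasis K) (trForm K γ)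
    = gram K γ := by
  ext i j
  rw [LinearMap.BilinForm.toMatrix_apply, trForm_apply, latticeBasis_apply, latticeBasis_apply,
    ← map_mul, ← map_mul, trM_mixedEmbedding]
  rfl

lemma gram_mulMat (γ γ' : K) (ρ : mixedSpace K) (hρ : ρ * ρ = mixedEmbedding K γ') :
    (mulMat K ρ).transpose * gram K γ * mulMat K ρ = gram K (γ * γ') := by
  unfold mulMat
  rw [← toMatrix_trForm, ← toMatrix_trForm, ← LinearMap.BilinForm.toMatrix_comp]
  congr 1
  refine LinearMap.ext fun X => LinearMap.ext fun Y => ?_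
  rw [LinearMap.BilinForm.comp_apply, trForm_apply, trForm_apply]
  simp only [LinearMap.mulLeft_apply]
  have : mixedEmbedding K γ * (ρ * X * (ρ * Y)) = mixedEmbedding K (γ * γ') * (X * Y) := by
    rw [map_mul, ← hρ]
    ring
  rw [this]

lemma mulMat_mul (ρ ρ' : mixedSpace K) : mulMat K ρ * mulMat K ρ' = mulMat K (ρ * ρ') := by
  unfold mulMat
  rw [← LinearMap.toMatrix_mul]
  congr 1
  refine LinearMap.ext fun X => ?_
  simp

lemma mulMat_mixedEmbedding (γ : K) : mulMat K (mixedEmbedding K γ)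
    = (Algebra.leftMulMatrix (integralBasis K) γ).map (fun x : ℚ => (x : ℝ)) := by
  ext i j
  rw [mulMat, LinearMap.toMatrix_apply, Matrix.map_apply, Algebra.leftMulMatrix_apply,
    LinearMap.toMatrix_apply, LinearMap.mulLeft_apply, latticeBasis_apply, ← map_mul,
    latticeBasis_repr_apply]
  rfl

lemma det_mulMat (γ : K) : (mulMat K (mixedEmbedding K γ)).det
    = ((Algebra.norm ℚ γ : ℚ) : ℝ) := by
  rw [mulMat_mixedEmbedding, Algebra.norm_eq_matrix_det (integralBasis K)]
  exact ((Rat.castHom ℝ).map_det (Algebra.leftMulMatrix (integralBasis K) γ)).symm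

lemma exists_sqrt_mixed (γ : K) (hγ : ∀ w, 0 < (mixedEmbedding K γ).1 w) :
    ∃ ρ : mixedSpace K, ρ * ρ = mixedEmbedding K γ := by
  have h1 : ∀ w : {w : InfinitePlace K // IsComplex w},
      ∃ z : ℂ, z * z = (mixedEmbedding K γ).2 w := by
    intro w
    obtain ⟨z, hz⟩ := IsAlgClosed.exists_pow_nat_eq ((mixedEmbedding K γ).2 w) two_pos
    exact ⟨z, by rw [← sq, hz]⟩
  choose z hz using h1
  refine ⟨⟨fun w => Real.sqrt ((mixedEmbedding K γ).1 w), z⟩, ?_⟩
  refine Prod.ext ?_ ?_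
  · funext w
    exact Real.mul_self_sqrt (hγ w).le
  · funext w
    exact hz w

lemma abs_det_mulMat_sqrt (γ : K) (ρ : mixedSpace K) (hρ : ρ * ρ = mixedEmbedding K γ) :
    |(mulMat K ρ).det| ^ 2 = |((Algebra.norm ℚ γ : ℚ) : ℝ)| := by
  rw [← abs_pow, sq, ← Matrix.det_mul, mulMat_mul, hρ, det_mulMat]

end Pool.Agent.Helper4
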