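import Mathlib
import Pool.Agent.helper4.TraceMixed

/-! # Gauss sums over number fields: values at integers congruent to one -/

open Filter Topology Set Matrix Module

noncomputable section

namespace Pool.Agent.Helper4

set_option linter.unusedSectionVars false

open NumberField NumberField.InfinitePlace NumberField.mixedEmbedding

variable (K : Type*) [Field K] [NumberField K]

open scoped Classical

/-- the additive character of the trace -/
def eT (x : K) : ℂ := Complex.exp (2 * Real.pi * Complex.I * ((Algebra.trace ℚ K x : ℚ) : ℂ))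

lemma eT_add (x y : K) : eT K (x + y) = eT K x * eT K y := by
  unfold eT
  rw [← Complex.exp_add, map_add]
  congr 1
  push_cast
  ring

lemma eT_zero : eT K 0 = 1 := by simp [eT]

lemma eT_integer (x : 𝓞 K) : eT K (x : K) = 1 := by
  unfold eT
  have h : (Algebra.trace ℚ K (x : K) : ℚ) = ((Algebra.trace ℤ (𝓞 K) x : ℤ) : ℚ) :=
    (Algebra.coe_trace_int x).symm
  rw [h, Complex.exp_eq_one_iff]
  refine ⟨Algebra.trace ℤ (𝓞 K) x, ?_⟩
  push_cast
  ring

lemma eT_add_integer (x : K) (y : 𝓞 K) : eT K (x + y) = eT K x := by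
  rw [eT_add, eT_integer, mul_one]

lemma eT_eq_of_sub (x y : K) (z : 𝓞 K) (h : x - y = z) : eT K x = eT K y := by
  have : x = y + z := by rw [← h]; ring
  rw [this, eT_add_integer]

lemma exists_dual_denominator : ∃ D : ℕ, D ≠ 0 ∧ ∀ m : IB K → ℤ, ∃ y : 𝓞 K,
    (D : K) * nuI K m = y := by
  obtain ⟨y, hy0, hy⟩ := exists_integral_multiples ℤ ℚ
    (Finset.univ.image (integralBasis K).traceDual)
  refine ⟨y.natAbs, Int.natAbs_ne_zero.mpr hy0, fun m => ?_⟩
  have h1 : ∀ i, ∃ z : 𝓞 K, (y.natAbs : K) * (integralBasis K).traceDual i = z := by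
    intro i
    have h2 := hy ((integralBasis K).traceDual i) (Finset.mem_image_of_mem _ (Finset.mem_univ i))
    rw [zsmul_eq_mul] at h2
    rcases Int.natAbs_eq y with h3 | h3
    · refine ⟨⟨_, h2⟩, ?_⟩
      have : ((y.natAbs : ℕ) : K) = (y : K) := by
        conv_rhs => rw [h3]
        rw [Int.cast_natCast]
      rw [this]
      rfl
    · refine ⟨-⟨_, h2⟩, ?_⟩
      have : ((y.natAbs : ℕ) : K) = -(y : K) := by
        conv_rhs => rw [h3]
        rw [Int.cast_neg, Int.cast_natCast, neg_neg]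
      rw [this, neg_mul]
      rfl
  choose z hz using h1
  refine ⟨∑ i, (m i : 𝓞 K) * z i, ?_⟩
  unfold nuI
  rw [Finset.mul_sum, RingOfIntegers.coe_eq_algebraMap, map_sum]
  refine Finset.sum_congr rfl fun i _ => ?_
  rw [map_mul, map_intCast, ← RingOfIntegers.coe_eq_algebraMap, ← hz]
  ring

lemma exists_mul_eq_absNorm (κ : 𝓞 K) :
    ∃ κ' : 𝓞 K, κ * κ' = (Ideal.absNorm (Ideal.span {κ}) : 𝓞 K) := by
  have h := Ideal.absNorm_mem (Ideal.span {κ})
  rw [Ideal.mem_span_singleton] at h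
  obtain ⟨c, hc⟩ := h
  exact ⟨c, hc.symm⟩

lemma absNorm_span_ne_zero {κ : 𝓞 K} (hκ : κ ≠ 0) : Ideal.absNorm (Ideal.span {κ}) ≠ 0 := by
  rw [Ne, Ideal.absNorm_eq_zero_iff, Ideal.span_singleton_eq_bot]
  exact hκ

lemma abs_norm_inv (β : 𝓞 K) : |((Algebra.norm ℚ ((β : K)⁻¹) : ℚ) : ℝ)|
    = ((Ideal.absNorm (Ideal.span {β}) : ℕ) : ℝ)⁻¹ := by
  have h0 : Algebra.norm ℚ ((β : K)⁻¹) = (Algebra.norm ℚ (β : K))⁻¹ := by
    by_cases hb : (β : K) = 0
    · rw [hb, _root_.inv_zero, Algebra.norm_zero, _root_.inv_zero]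
    · apply eq_inv_of_mul_eq_one_left
      rw [← map_mul, inv_mul_cancel₀ hb, map_one]
  rw [h0, Rat.cast_inv, abs_inv, Ideal.absNorm_span_singleton]
  congr 1
  have h2 : (Algebra.norm ℚ (β : K) : ℝ) = ((Algebra.norm ℤ β : ℤ) : ℝ) := by
    have := Algebra.coe_norm_int β
    rw [← this]
    push_cast
    rfl
  rw [h2, ← Int.cast_abs, ← Int.natCast_natAbs, Int.cast_natCast]

/-- value of the averages at integers congruent to one -/
theorem avg_gauss (κ : 𝓞 K) (hκ : κ ≠ 0) : ∃ M : ℕ, M ≠ 0 ∧ ∀ β : 𝓞 K, β ≠ 0 →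
    (∃ y : 𝓞 K, β = 1 + M * y) → (∀ w, 0 < (mixedEmbedding K (β : K)).1 w) →
    ∀ (N : ℕ) [NeZero N], N = Ideal.absNorm (Ideal.span {β}) →
    avgM N (fun m => eT K ((κ : K) * (β : K)⁻¹ * (xI K m : K) ^ 2))
      = (((Real.sqrt N)⁻¹ : ℝ) : ℂ) := by
  obtain ⟨D, hD, hDm⟩ := exists_dual_denominator K
  obtain ⟨κ', hκ'⟩ := exists_mul_eq_absNorm K κ
  set Nκ := Ideal.absNorm (Ideal.span {κ}) with hNκ
  have hNκ0 : Nκ ≠ 0 := absNorm_span_ne_zero K hκ
  have hκK : (κ : K) ≠ 0 := by exact_mod_cast hκ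
  refine ⟨4 * D ^ 2 * Nκ, by positivity, ?_⟩
  intro β hβ hβ1 hpos N hN0 hN
  obtain ⟨y, hy⟩ := hβ1
  have hβK : (β : K) ≠ 0 := by exact_mod_cast hβ
  obtain ⟨β', hβ'⟩ := exists_mul_eq_absNorm K β
  rw [← hN] at hβ'
  set M₂ : ℕ := 4 * D ^ 2 * Nκ with hM₂
  have hM₂0 : NeZero M₂ := ⟨by positivity⟩
  -- the square root
  have hpos' : ∀ w, 0 < (mixedEmbedding K ((β : K)⁻¹)).1 w := by
    intro w
    have h1 := hpos w
    rw [mixedEmbedding_apply_isReal] at h1 ⊢
    rw [map_inv₀]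
    exact inv_pos.mpr h1
  obtain ⟨ρ, hρ⟩ := exists_sqrt_mixed K ((β : K)⁻¹) hpos'
  have hgram := gram_mulMat K (κ : K) ((β : K)⁻¹) ρ hρ
  have hdet2 := abs_det_mulMat_sqrt K ((β : K)⁻¹) ρ hρ
  rw [abs_norm_inv, ← hN] at hdet2
  have hdet : |(mulMat K ρ).det| = (Real.sqrt N)⁻¹ := by
    have h1 : |(mulMat K ρ).det| = Real.sqrt (|(mulMat K ρ).det| ^ 2) :=
      (Real.sqrt_sq (abs_nonneg _)).symm
    rw [h1, hdet2, Real.sqrt_inv]
  have hR : (mulMat K ρ).det ≠ 0 := by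
    intro h0
    rw [h0, abs_zero] at hdet
    have : (0 : ℝ) < N := by exact_mod_cast Nat.pos_of_ne_zero hN0.out
    have h2 : 0 < (Real.sqrt N)⁻¹ := by positivity
    rw [← hdet] at h2
    exact lt_irrefl _ h2
  have hγ : (κ : K) * (β : K)⁻¹ ≠ 0 := mul_ne_zero hκK (inv_ne_zero hβK)
  have hNK : (κ : K) * κ' = Nκ := by exact_mod_cast congrArg (fun z : 𝓞 K => (z : K)) hκ'
  have hκinv : (κ : K)⁻¹ * Nκ = κ' := by
    rw [← hNK]
    field_simp
  have hβN : (β : K)⁻¹ * N = β' := by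
    have h1 : (β : K) * β' = N := by exact_mod_cast congrArg (fun z : 𝓞 K => (z : K)) hβ'
    rw [← h1]
    field_simp
  -- the dual function
  set b : (IB K → ℤ) → ℂ := fun m => eT K (-((κ : K)⁻¹ * (nuI K m) ^ 2 / 4)) with hb
  have key := relative_reciprocity (gram K (κ : K)) (mulMat K ρ) (gram_isSymm K _)
    (gram_det_ne_zero K _ hκK) hR 1 N M₂
    (fun m => eT K ((κ : K) * (β : K)⁻¹ * (xI K m : K) ^ 2)) (fun _ => 1) b ?_ ?_ ?_ ?_ ?_ ?_ ?_
  · rw [key, hdet]
    unfold avgM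
    simp
  · -- a₁
    intro m
    rw [dot_gram]
    have h1 := eT_integer K (κ * xI K m ^ 2)
    unfold eT at h1
    rw [← h1]
    congr 1
    push_cast
    ring
  · -- a
    intro m
    rw [hgram, dot_gram]
    unfold eT
    congr 1
    push_cast
    ring
  · -- b₁
    intro m
    rw [gram_inv K _ hκK, dot_gramInv, hb]
    unfold eT
    simp only
    congr 1
    have : -((κ : K)⁻¹ * nuI K m ^ 2 / 4) = (-(1 / 4) : ℚ) • ((κ : K)⁻¹ * nuI K m ^ 2) := by
      rw [Rat.smul_def]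
      push_cast
      ring
    rw [this, map_smul, smul_eq_mul]
    push_cast
    ring
  · -- b
    intro m
    rw [hgram, gram_inv K _ hγ, dot_gramInv, hb]
    simp only
    have h1 : Complex.exp (-(Complex.I * Real.pi * ((1 / 2 * ((Algebra.trace ℚ K
        (((κ : K) * (β : K)⁻¹)⁻¹ * nuI K m ^ 2) : ℚ) : ℝ) : ℝ) : ℂ)))
        = eT K (-((κ : K)⁻¹ * β * (nuI K m) ^ 2 / 4)) := by
      unfold eT
      congr 1
      have : -((κ : K)⁻¹ * β * nuI K m ^ 2 / 4)
          = (-(1 / 4) : ℚ) • (((κ : K) * (β : K)⁻¹)⁻¹ * nuI K m ^ 2) := by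
        rw [Rat.smul_def, mul_inv, inv_inv]
        push_cast
        ring
      rw [this, map_smul, smul_eq_mul]
      push_cast
      ring
    rw [h1]
    obtain ⟨z, hz⟩ := hDm m
    apply eT_eq_of_sub K _ _ (κ' * y * z ^ 2)
    have h2 : (β : K) = 1 + M₂ * y := by
      rw [hy]
      push_cast
      rfl
    rw [h2, hM₂]
    simp only [RingOfIntegers.coe_eq_algebraMap, map_mul, map_pow, Nat.cast_mul, Nat.cast_pow,
      Nat.cast_ofNat] at hz hκinv ⊢
    rw [← hz, ← hκinv]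
    ring
  · intro m k
    rfl
  · -- period of a
    intro m k
    apply eT_eq_of_sub K _ _ (κ * β' * (2 * xI K m * xI K k + N * xI K k ^ 2))
    rw [xI_add, xI_smul]
    simp only [RingOfIntegers.coe_eq_algebraMap, map_mul, map_pow, map_add, map_natCast,
      map_ofNat, Int.cast_natCast] at hβN ⊢
    rw [← hβN]
    ring
  · -- period of b
    intro m k
    rw [hb]
    simp only
    obtain ⟨z, hz⟩ := hDm m
    obtain ⟨z', hz'⟩ := hDm k
    apply eT_eq_of_sub K _ _ (-(κ' * (2 * z * z' + M₂ * z' ^ 2)))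
    rw [nuI_add, nuI_smul, hM₂]
    simp only [RingOfIntegers.coe_eq_algebraMap, map_mul, map_pow, map_add, map_natCast,
      map_ofNat, map_neg, Int.cast_natCast, Nat.cast_mul, Nat.cast_pow,
      Nat.cast_ofNat, Int.cast_mul, Int.cast_pow, Int.cast_ofNat] at hz hz' hκinv ⊢
    rw [← hz, ← hz', ← hκinv]
    ring

end Pool.Agent.Helper4
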