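import Mathlib
import Pool.Agent.helper4.GaussNF

/-! # Averages over quotients -/

open Filter Topology Set Module

noncomputable section

namespace Pool.Agent.Helper4

set_option linter.unusedSectionVars false

open NumberField

variable (K : Type*) [Field K] [NumberField K]

open scoped Classical

/-- `Fin M` as `ZMod M` -/
def finZ (M : ℕ) [NeZero M] : Fin M ≃ ZMod M :=
  Equiv.ofBijective (fun r => ((r : ℕ) : ZMod M)) (by
    constructor
    · intro r s h
      simp only at h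
      rw [ZMod.natCast_eq_natCast_iff', Nat.mod_eq_of_lt r.2, Nat.mod_eq_of_lt s.2] at h
      exact Fin.ext h
    · intro z
      exact ⟨⟨z.val, z.val_lt⟩, ZMod.natCast_zmod_val z⟩)

/-- component of the projection -/
def projC (I : Ideal (𝓞 K)) (M : ℕ) (hM : (M : 𝓞 K) ∈ I) (i : IB K) : ZMod M →+ 𝓞 K ⧸ I :=
  ZMod.lift M ⟨zmultiplesHom _ (Ideal.Quotient.mk I (RingOfIntegers.basis K i)), by
    rw [zmultiplesHom_apply, zsmul_eq_mul]
    have h : ((M : ℤ) : 𝓞 K ⧸ I) = Ideal.Quotient.mk I (M : 𝓞 K) := by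
      rw [map_natCast, Int.cast_natCast]
    rw [h, Ideal.Quotient.eq_zero_iff_mem.mpr hM, zero_mul]⟩

/-- the projection from coordinates modulo `M` -/
def projM (I : Ideal (𝓞 K)) (M : ℕ) (hM : (M : 𝓞 K) ∈ I) : (IB K → ZMod M) →+ 𝓞 K ⧸ I :=
  ∑ i, (projC K I M hM i).comp (Pi.evalAddMonoidHom _ i)

lemma projM_intCast (I : Ideal (𝓞 K)) (M : ℕ) (hM : (M : 𝓞 K) ∈ I) (m : IB K → ℤ) :
    projM K I M hM (fun i => (m i : ZMod M)) = Ideal.Quotient.mk I (xI K m) := by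
  unfold projM xI
  rw [AddMonoidHom.finsetSum_apply, map_sum]
  refine Finset.sum_congr rfl fun i _ => ?_
  rw [AddMonoidHom.comp_apply, Pi.evalAddMonoidHom_apply, projC, ZMod.lift_coe]
  rw [zmultiplesHom_apply, map_zsmul]

lemma projM_surjective (I : Ideal (𝓞 K)) (M : ℕ) (hM : (M : 𝓞 K) ∈ I) :
    Function.Surjective (projM K I M hM) := by
  intro q
  obtain ⟨x, rfl⟩ := Ideal.Quotient.mk_surjective q
  obtain ⟨m, rfl⟩ := xI_surjective K x
  exact ⟨_, projM_intCast K I M hM m⟩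

theorem avgM_quot (I : Ideal (𝓞 K)) [Fintype (𝓞 K ⧸ I)] (M : ℕ) [NeZero M]
    (hM : (M : 𝓞 K) ∈ I) (f : 𝓞 K → ℂ) (hf : ∀ x y, y ∈ I → f (x + y) = f x) :
    avgM M (fun m => f (xI K m)) = ((Fintype.card (𝓞 K ⧸ I) : ℂ))⁻¹ * ∑ q : 𝓞 K ⧸ I, f q.out := by
  set π := projM K I M hM with hπ
  set F : 𝓞 K ⧸ I → ℂ := fun q => f q.out with hF
  have hFmk : ∀ x, F (Ideal.Quotient.mk I x) = f x := by
    intro x
    rw [hF]
    simp only
    have h1 : Ideal.Quotient.mk I (Ideal.Quotient.mk I x).out = Ideal.Quotient.mk I x :=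
      Ideal.Quotient.mk_out _
    have h2 : (Ideal.Quotient.mk I x).out - x ∈ I := Ideal.Quotient.eq.mp h1
    have h3 := hf x _ h2
    rw [add_sub_cancel] at h3
    exact h3
  -- the sum over the vectors
  have h1 : ∑ r : IB K → Fin M, f (xI K (repM r)) = ∑ z : IB K → ZMod M, F (π z) := by
    refine Fintype.sum_equiv (Equiv.piCongrRight fun _ => finZ M) _ _ fun r => ?_
    have h2 : (Equiv.piCongrRight fun _ => finZ M) r = fun i => ((repM r i : ℤ) : ZMod M) := by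
      funext i
      simp [finZ, repM]
    rw [h2, hπ, projM_intCast, hFmk]
  -- constant fibers
  have h3 : ∀ q : 𝓞 K ⧸ I, (Finset.univ.filter fun z => π z = q).card
      = (Finset.univ.filter fun z => π z = 0).card := by
    intro q
    exact AddMonoidHom.card_fiber_eq_of_mem_range π (projM_surjective K I M hM q)
      (projM_surjective K I M hM 0)
  set c := (Finset.univ.filter fun z => π z = 0).card with hc
  have h4 : ∀ G : 𝓞 K ⧸ I → ℂ, ∑ z, G (π z) = c * ∑ q, G q := by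
    intro G
    rw [← Finset.sum_fiberwise Finset.univ π (fun z => G (π z)), Finset.mul_sum]
    refine Finset.sum_congr rfl fun q _ => ?_
    have h5 : ∀ z ∈ Finset.univ.filter (fun z => π z = q), G (π z) = G q := by
      intro z hz
      rw [(Finset.mem_filter.mp hz).2]
    rw [Finset.sum_congr rfl h5, Finset.sum_const, h3 q, nsmul_eq_mul]
  have h5 := h4 (fun _ => 1)
  rw [Finset.sum_const, Finset.sum_const, Finset.card_univ, Finset.card_univ,
    Fintype.card_fun, ZMod.card] at h5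
  simp only [nsmul_eq_mul, mul_one] at h5
  unfold avgM
  rw [h1, h4 F]
  have hM0 : (M : ℂ) ≠ 0 := by exact_mod_cast NeZero.ne M
  have hcard : (Fintype.card (𝓞 K ⧸ I) : ℂ) ≠ 0 := by
    exact_mod_cast Fintype.card_ne_zero
  have hMn : ((M : ℂ)) ^ Fintype.card (IB K) ≠ 0 := pow_ne_zero _ hM0
  have h6 : ((M : ℂ)) ^ Fintype.card (IB K) = c * Fintype.card (𝓞 K ⧸ I) := by
    exact_mod_cast h5
  rw [h6] at hMn ⊢
  have hc0 : (c : ℂ) ≠ 0 := left_ne_zero_of_mul hMn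
  rw [mul_inv]
  field_simp

lemma card_quot_eq_absNorm (I : Ideal (𝓞 K)) [Fintype (𝓞 K ⧸ I)] :
    Fintype.card (𝓞 K ⧸ I) = Ideal.absNorm I := by
  rw [Ideal.absNorm_apply, Submodule.cardQuot_apply, Nat.card_eq_fintype_card]

/-- **Values of quadratic Gauss sums** at totally positive integers congruent to one. -/
theorem gauss_principal (κ : 𝓞 K) (hκ : κ ≠ 0) : ∃ M : ℕ, M ≠ 0 ∧ ∀ β : 𝓞 K, β ≠ 0 →
    (∃ y : 𝓞 K, β = 1 + M * y) → (∀ w, 0 < (mixedEmbedding K (β : K)).1 w) →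
    ∀ [Fintype (𝓞 K ⧸ Ideal.span {β})],
    ∑ q : 𝓞 K ⧸ Ideal.span {β}, eT K ((κ : K) * (β : K)⁻¹ * (q.out : K) ^ 2)
      = ((Real.sqrt (Fintype.card (𝓞 K ⧸ Ideal.span {β})) : ℝ) : ℂ) := by
  obtain ⟨M, hM, h⟩ := avg_gauss K κ hκ
  refine ⟨M, hM, ?_⟩
  intro β hβ hβ1 hpos _
  have hβK : (β : K) ≠ 0 := by exact_mod_cast hβ
  set N := Ideal.absNorm (Ideal.span {β}) with hN
  have hN0 : N ≠ 0 := absNorm_span_ne_zero K hβ
  have : NeZero N := ⟨hN0⟩
  have h1 := h β hβ hβ1 hpos N rfl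
  have hmem : (N : 𝓞 K) ∈ Ideal.span {β} := Ideal.absNorm_mem _
  have h2 := avgM_quot K (Ideal.span {β}) N hmem
    (fun x => eT K ((κ : K) * (β : K)⁻¹ * (x : K) ^ 2)) (by
      intro x y hy
      obtain ⟨z, rfl⟩ := Ideal.mem_span_singleton.mp hy
      apply eT_eq_of_sub K _ _ (κ * (2 * x * z + β * z ^ 2))
      simp only [RingOfIntegers.coe_eq_algebraMap, map_mul, map_pow, map_add,
        map_ofNat] at hβK ⊢
      field_simp
      ring)
  rw [h1] at h2
  rw [card_quot_eq_absNorm, ← hN] at h2 ⊢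
  have hNC : (N : ℂ) ≠ 0 := by exact_mod_cast hN0
  have h3 : ∑ q : 𝓞 K ⧸ Ideal.span {β}, eT K ((κ : K) * (β : K)⁻¹ * (q.out : K) ^ 2)
      = (N : ℂ) * (((Real.sqrt N)⁻¹ : ℝ) : ℂ) := by
    rw [h2, ← mul_assoc, mul_inv_cancel₀ hNC, one_mul]
  rw [h3]
  have h4 : (N : ℝ) * (Real.sqrt N)⁻¹ = Real.sqrt N := by
    have h5 : 0 < Real.sqrt N := Real.sqrt_pos.mpr (by exact_mod_cast Nat.pos_of_ne_zero hN0)
    have h6 : Real.sqrt N * Real.sqrt N = N := Real.mul_self_sqrt (by positivity)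
    field_simp
    rw [sq, h6]
  rw [← Complex.ofReal_natCast, ← Complex.ofReal_mul, h4]

end Pool.Agent.Helper4
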