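import Mathlib
import Pool.Agent.helper4.AvgQuot

/-! # Quadratic Gauss sums modulo odd ideals and the Jacobi symbol -/

open Filter Topology Set Module

noncomputable section

namespace Pool.Agent.Helper4

set_option linter.unusedSectionVars false

open NumberField UniqueFactorizationMonoid

open scoped Classical

section field

variable {F : Type*} [Field F] [Fintype F]

lemma sum_sq_field (hF : ringChar F ≠ 2) (f : F → ℂ) :
    ∑ x : F, f (x ^ 2) = ∑ y : F, (1 + (quadraticChar F y : ℂ)) * f y := by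
  rw [← Finset.sum_fiberwise Finset.univ (fun x : F => x ^ 2) (fun x => f (x ^ 2))]
  refine Finset.sum_congr rfl fun y _ => ?_
  have h1 : ∀ x ∈ Finset.univ.filter (fun x : F => x ^ 2 = y), f (x ^ 2) = f y := by
    intro x hx
    rw [(Finset.mem_filter.mp hx).2]
  rw [Finset.sum_congr rfl h1, Finset.sum_const, nsmul_eq_mul]
  congr 1
  have h2 := quadraticChar_card_sqrts hF y
  have h3 : ({x : F | x ^ 2 = y}.toFinset) = Finset.univ.filter (fun x : F => x ^ 2 = y) := by
    ext x; simp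
  rw [h3] at h2
  have h4 : (((Finset.univ.filter (fun x : F => x ^ 2 = y)).card : ℤ) : ℂ)
      = ((quadraticChar F y + 1 : ℤ) : ℂ) := by rw [h2]
  push_cast at h4
  rw [h4]
  ring

lemma gauss_field (hF : ringChar F ≠ 2) (ψ : AddChar F ℂ) (hψ : ψ ≠ 1) (u : F) (hu : u ≠ 0) :
    ∑ x : F, ψ (u * x ^ 2) = (quadraticChar F u : ℂ) * ∑ x : F, ψ (x ^ 2) := by
  rw [sum_sq_field hF (fun y => ψ (u * y)), sum_sq_field hF (fun y => ψ y)]
  have h0 : ∑ y : F, ψ y = 0 := AddChar.sum_eq_zero_of_ne_one hψ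
  have h1 : ∑ y : F, ψ (u * y) = 0 := by
    rw [← h0]
    exact Fintype.sum_equiv (Equiv.mulLeft₀ u hu) _ _ fun _ => rfl
  simp only [add_mul, one_mul, Finset.sum_add_distrib]
  rw [h0, h1, zero_add, zero_add, Finset.mul_sum]
  refine Fintype.sum_equiv (Equiv.mulLeft₀ u hu) _ _ fun y => ?_
  simp only [Equiv.mulLeft₀_apply]
  have h3 : quadraticChar F (u * y) = quadraticChar F u * quadraticChar F y := map_mul _ _ _
  rw [h3]
  have h2 : ((quadraticChar F u : ℤ) : ℂ) * ((quadraticChar F u : ℤ) : ℂ) = 1 := by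
    have := quadraticChar_sq_one hu
    rw [sq] at this
    exact_mod_cast this
  push_cast
  linear_combination (-(quadraticChar F y : ℂ) * ψ (u * y)) * h2

end field

variable {K : Type*} [Field K] [NumberField K]

/-- sum over representatives modulo an ideal -/
def qsum (b : Ideal (𝓞 K)) (f : 𝓞 K → ℂ) : ℂ := ∑ᶠ q : 𝓞 K ⧸ b, f q.out

/-- periodicity modulo an ideal -/
def Per (b : Ideal (𝓞 K)) (f : 𝓞 K → ℂ) : Prop := ∀ x y, y ∈ b → f (x + y) = f x

lemma Per.out {b : Ideal (𝓞 K)} {f : 𝓞 K → ℂ} (hf : Per b f) {x : 𝓞 K} {q : 𝓞 K ⧸ b}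
    (h : Ideal.Quotient.mk b x = q) : f q.out = f x := by
  have h1 : Ideal.Quotient.mk b q.out = Ideal.Quotient.mk b x := by
    rw [h]; exact Ideal.Quotient.mk_out _
  have h2 : q.out - x ∈ b := Ideal.Quotient.eq.mp h1
  have h3 := hf x _ h2
  rw [add_sub_cancel] at h3
  exact h3

lemma Per.mono {b b' : Ideal (𝓞 K)} (h : b' ≤ b) {f : 𝓞 K → ℂ} (hf : Per b f) : Per b' f :=
  fun x y hy => hf x y (h hy)

lemma finite_quotI {b : Ideal (𝓞 K)} (hb : b ≠ ⊥) : Finite (𝓞 K ⧸ b) :=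
  Ideal.finiteQuotientOfFreeOfNeBot b hb

lemma qsum_congr {b : Ideal (𝓞 K)} {f g : 𝓞 K → ℂ} (h : ∀ x, f x = g x) : qsum b f = qsum b g := by
  unfold qsum
  exact finsum_congr fun q => h _

lemma sum_comp_surj {G H : Type*} [AddGroup G] [AddGroup H] [Fintype G] [Fintype H] (π : G →+ H)
    (hπ : Function.Surjective π) (F : H → ℂ) :
    (Fintype.card H : ℂ) * ∑ z, F (π z) = Fintype.card G * ∑ q, F q := by
  have h3 : ∀ q : H, (Finset.univ.filter fun z => π z = q).card
      = (Finset.univ.filter fun z => π z = 0).card := by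
    intro q
    exact AddMonoidHom.card_fiber_eq_of_mem_range π (hπ q) (hπ 0)
  set c := (Finset.univ.filter fun z => π z = 0).card with hc
  have h4 : ∀ G : H → ℂ, ∑ z, G (π z) = c * ∑ q, G q := by
    intro G
    rw [← Finset.sum_fiberwise Finset.univ π (fun z => G (π z)), Finset.mul_sum]
    refine Finset.sum_congr rfl fun q _ => ?_
    have h5 : ∀ z ∈ Finset.univ.filter (fun z => π z = q), G (π z) = G q := by
      intro z hz
      rw [(Finset.mem_filter.mp hz).2]
    rw [Finset.sum_congr rfl h5, Finset.sum_const, h3 q, nsmul_eq_mul]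
  have h5 := h4 (fun _ => 1)
  rw [Finset.sum_const, Finset.sum_const, Finset.card_univ, Finset.card_univ] at h5
  simp only [nsmul_eq_mul, mul_one] at h5
  rw [h4, h5]
  ring

lemma card_quot (b : Ideal (𝓞 K)) [Fintype (𝓞 K ⧸ b)] :
    (Fintype.card (𝓞 K ⧸ b) : ℂ) = (Ideal.absNorm b : ℂ) := by
  rw [card_quot_eq_absNorm]

/-- change of the modulus -/
lemma qsum_index {b b' : Ideal (𝓞 K)} (hb' : b' ≠ ⊥) (h : b' ≤ b) {f : 𝓞 K → ℂ} (hf : Per b f) :
    (Ideal.absNorm b : ℂ) * qsum b' f = (Ideal.absNorm b' : ℂ) * qsum b f := by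
  have hb : b ≠ ⊥ := fun h0 => hb' (le_bot_iff.mp (h0 ▸ h))
  have := finite_quotI hb
  have := finite_quotI hb'
  have : Fintype (𝓞 K ⧸ b) := Fintype.ofFinite _
  have : Fintype (𝓞 K ⧸ b') := Fintype.ofFinite _
  rw [← card_quot, ← card_quot]
  unfold qsum
  rw [finsum_eq_sum_of_fintype, finsum_eq_sum_of_fintype]
  rw [← sum_comp_surj (Ideal.Quotient.factor h).toAddMonoidHom (Ideal.Quotient.factor_surjective h)
    (fun q => f q.out)]
  congr 1
  refine Finset.sum_congr rfl fun q _ => ?_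
  refine (hf.out ?_).symm
  have h1 : q = Ideal.Quotient.mk b' q.out := (Ideal.Quotient.mk_out _).symm
  conv_rhs => rw [h1]
  rfl

/-- multiplication by `π` identifies `R / c` with `q / b` if `b = q c` and `b + (π) = q`. -/
lemma pi_mul_mem {q c : Ideal (𝓞 K)} (hq : q ≠ ⊥) {π : 𝓞 K}
    (hπ : q * c ⊔ Ideal.span {π} = q) {w : 𝓞 K} : π * w ∈ q * c ↔ w ∈ c := by
  constructor
  · intro h
    have h1 : q * Ideal.span {w} ≤ q * c := by
      conv_lhs => rw [← hπ]
      rw [Ideal.sup_mul, sup_le_iff]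
      refine ⟨Ideal.mul_le_left, ?_⟩
      rw [Ideal.span_singleton_mul_span_singleton, Ideal.span_singleton_le_iff_mem]
      exact h
    rw [← Ideal.dvd_iff_le, mul_dvd_mul_iff_left hq, Ideal.dvd_iff_le,
      Ideal.span_singleton_le_iff_mem] at h1
    exact h1
  · intro h
    refine Ideal.mul_mem_mul ?_ h
    have : Ideal.span {π} ≤ q := by
      conv_rhs => rw [← hπ]
      exact le_sup_right
    exact (Ideal.span_singleton_le_iff_mem q).mp this

lemma exists_pi_mul {q b : Ideal (𝓞 K)} {π : 𝓞 K} (hπ : b ⊔ Ideal.span {π} = q) {x : 𝓞 K}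
    (hx : x ∈ q) : ∃ z, x - π * z ∈ b := by
  rw [← hπ] at hx
  obtain ⟨y, hy, z, hz, h⟩ := Submodule.mem_sup.mp hx
  obtain ⟨w, rfl⟩ := Ideal.mem_span_singleton.mp hz
  refine ⟨w, ?_⟩
  rw [← h]
  simpa using hy

/-- the sum over multiples of `π`. -/
lemma qsum_pi {q c : Ideal (𝓞 K)} (hq : q ≠ ⊥) (hc : c ≠ ⊥) {π : 𝓞 K}
    (hπ : q * c ⊔ Ideal.span {π} = q) {f : 𝓞 K → ℂ} (hf : Per (q * c) f)
    (h0 : ∀ x, x ∉ q → f x = 0) : qsum (q * c) f = qsum c (fun z => f (π * z)) := by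
  have hb : q * c ≠ ⊥ := mul_ne_zero hq hc
  have := finite_quotI hb
  have := finite_quotI hc
  have : Fintype (𝓞 K ⧸ (q * c)) := Fintype.ofFinite _
  have : Fintype (𝓞 K ⧸ c) := Fintype.ofFinite _
  unfold qsum
  rw [finsum_eq_sum_of_fintype, finsum_eq_sum_of_fintype]
  have hinj : Function.Injective (fun z : 𝓞 K ⧸ c => Ideal.Quotient.mk (q * c) (π * z.out)) := by
    intro z z' h
    have h1 : π * z.out - π * z'.out ∈ q * c := Ideal.Quotient.eq.mp h
    rw [← mul_sub, pi_mul_mem hq hπ] at h1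
    have h2 := Ideal.Quotient.eq.mpr h1
    rw [Ideal.Quotient.mk_out, Ideal.Quotient.mk_out] at h2
    exact h2
  symm
  have h1 : ∑ z : 𝓞 K ⧸ c, f (π * z.out)
      = ∑ z : 𝓞 K ⧸ c, f (Ideal.Quotient.mk (q * c) (π * z.out)).out := by
    refine Finset.sum_congr rfl fun z _ => ?_
    exact (hf.out rfl).symm
  rw [h1]
  rw [← Finset.sum_image (f := fun y : 𝓞 K ⧸ (q * c) => f y.out)
    (g := fun z : 𝓞 K ⧸ c => Ideal.Quotient.mk (q * c) (π * z.out)) (s := Finset.univ)
    (fun x _ y _ h => hinj h)]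
  refine Finset.sum_subset (Finset.subset_univ _) fun y _ hy => ?_
  apply h0
  intro hyq
  apply hy
  obtain ⟨z, hz⟩ := exists_pi_mul hπ hyq
  rw [Finset.mem_image]
  refine ⟨Ideal.Quotient.mk c z, Finset.mem_univ _, ?_⟩
  have h2 : (Ideal.Quotient.mk c z).out - z ∈ c :=
    Ideal.Quotient.eq.mp (Ideal.Quotient.mk_out _)
  have h3 : π * (Ideal.Quotient.mk c z).out - π * z ∈ q * c := by
    rw [← mul_sub, pi_mul_mem hq hπ]
    exact h2
  have h4 : Ideal.Quotient.mk (q * c) (π * (Ideal.Quotient.mk c z).out)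
      = Ideal.Quotient.mk (q * c) y.out := by
    rw [Ideal.Quotient.eq]
    have := Ideal.sub_mem _ h3 hz
    convert this using 1
    ring
  rw [h4, Ideal.Quotient.mk_out]

/-- translation -/
lemma qsum_translate {b : Ideal (𝓞 K)} (hb : b ≠ ⊥) {f : 𝓞 K → ℂ} (hf : Per b f) (y : 𝓞 K) :
    qsum b (fun x => f (x + y)) = qsum b f := by
  have := finite_quotI hb
  have : Fintype (𝓞 K ⧸ b) := Fintype.ofFinite _
  unfold qsum
  rw [finsum_eq_sum_of_fintype, finsum_eq_sum_of_fintype]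
  refine Fintype.sum_equiv (Equiv.addRight (Ideal.Quotient.mk b y)) _ _ fun q => ?_
  refine (hf.out ?_).symm
  rw [map_add, Ideal.Quotient.mk_out]
  rfl

/-- `ψ` has exact level `b` -/
def IsLevel (ψ : AddChar (𝓞 K) ℂ) (b : Ideal (𝓞 K)) : Prop := ∀ x, x ∈ b ↔ ∀ y, ψ (x * y) = 1

lemma IsLevel.eq_one {ψ : AddChar (𝓞 K) ℂ} {b : Ideal (𝓞 K)} (h : IsLevel ψ b) {x : 𝓞 K}
    (hx : x ∈ b) : ψ x = 1 := by
  have := (h x).mp hx 1
  rwa [mul_one] at this

lemma IsLevel.per {ψ : AddChar (𝓞 K) ℂ} {b : Ideal (𝓞 K)} (h : IsLevel ψ b) : Per b ψ := by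
  intro x y hy
  rw [AddChar.map_add_eq_mul, h.eq_one hy, mul_one]

lemma IsLevel.congr {ψ : AddChar (𝓞 K) ℂ} {b : Ideal (𝓞 K)} (h : IsLevel ψ b) {x y : 𝓞 K}
    (hxy : x - y ∈ b) : ψ x = ψ y := by
  have := h.per y (x - y) hxy
  rwa [add_sub_cancel] at this

/-- quadratic Gauss sum -/
def gs (ψ : AddChar (𝓞 K) ℂ) (b : Ideal (𝓞 K)) (u : 𝓞 K) : ℂ := qsum b (fun x => ψ (u * x ^ 2))

lemma per_gs {ψ : AddChar (𝓞 K) ℂ} {b : Ideal (𝓞 K)} (h : IsLevel ψ b) (u : 𝓞 K) :
    Per b (fun x => ψ (u * x ^ 2)) := by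
  intro x y hy
  apply h.congr
  have : u * (x + y) ^ 2 - u * x ^ 2 = y * (u * (2 * x + y)) := by ring
  rw [this]
  exact Ideal.mul_mem_right _ _ hy

/-- scaling an additive character -/
def scal (ψ : AddChar (𝓞 K) ℂ) (a : 𝓞 K) : AddChar (𝓞 K) ℂ where
  toFun x := ψ (a * x)
  map_zero_eq_one' := by rw [mul_zero, AddChar.map_zero_eq_one]
  map_add_eq_mul' x y := by rw [mul_add, AddChar.map_add_eq_mul]

lemma scal_apply (ψ : AddChar (𝓞 K) ℂ) (a x : 𝓞 K) : scal ψ a x = ψ (a * x) := rfl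

/-- nontriviality implies vanishing of the sum of a character of level containing `b` -/
lemma qsum_char_eq_zero {b : Ideal (𝓞 K)} (hb : b ≠ ⊥) (ψ : AddChar (𝓞 K) ℂ) (hψ : Per b ψ)
    {t : 𝓞 K} (ht : ψ t ≠ 1) : qsum b ψ = 0 := by
  have h1 := qsum_translate hb hψ t
  have h2 : qsum b (fun x => ψ (x + t)) = ψ t * qsum b ψ := by
    have := finite_quotI hb
    have : Fintype (𝓞 K ⧸ b) := Fintype.ofFinite _
    unfold qsum
    rw [finsum_eq_sum_of_fintype, finsum_eq_sum_of_fintype, Finset.mul_sum]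
    refine Finset.sum_congr rfl fun q _ => ?_
    simp only
    rw [AddChar.map_add_eq_mul, mul_comm]
  rw [h2] at h1
  have h3 : (ψ t - 1) * qsum b ψ = 0 := by rw [sub_mul, h1, one_mul, sub_self]
  rcases mul_eq_zero.mp h3 with h | h
  · exact absurd (sub_eq_zero.mp h) ht
  · exact h

lemma qsum_const_mul {b : Ideal (𝓞 K)} (hb : b ≠ ⊥) (c : ℂ) (f : 𝓞 K → ℂ) :
    qsum b (fun x => c * f x) = c * qsum b f := by
  have := finite_quotI hb
  have : Fintype (𝓞 K ⧸ b) := Fintype.ofFinite _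
  unfold qsum
  rw [finsum_eq_sum_of_fintype, finsum_eq_sum_of_fintype, Finset.mul_sum]

lemma qsum_comm {b c : Ideal (𝓞 K)} (hb : b ≠ ⊥) (hc : c ≠ ⊥) (f : 𝓞 K → 𝓞 K → ℂ) :
    qsum b (fun x => qsum c (fun y => f x y)) = qsum c (fun y => qsum b (fun x => f x y)) := by
  have := finite_quotI hb
  have : Fintype (𝓞 K ⧸ b) := Fintype.ofFinite _
  have := finite_quotI hc
  have : Fintype (𝓞 K ⧸ c) := Fintype.ofFinite _
  unfold qsum
  simp only [finsum_eq_sum_of_fintype]
  exact Finset.sum_comm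

lemma qsum_const {b : Ideal (𝓞 K)} (hb : b ≠ ⊥) (c : ℂ) :
    qsum b (fun _ => c) = (Ideal.absNorm b : ℂ) * c := by
  have := finite_quotI hb
  have : Fintype (𝓞 K ⧸ b) := Fintype.ofFinite _
  unfold qsum
  rw [finsum_eq_sum_of_fintype, Finset.sum_const, Finset.card_univ, nsmul_eq_mul, card_quot]

lemma absNorm_ne_zeroC {q : Ideal (𝓞 K)} (hq : q ≠ ⊥) : (Ideal.absNorm q : ℂ) ≠ 0 := by
  exact_mod_cast (Ideal.absNorm_ne_zero_iff_mem_nonZeroDivisors.mpr
      (mem_nonZeroDivisors_of_ne_zero hq))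

lemma mem_of_sup_span {q b : Ideal (𝓞 K)} {π : 𝓞 K} (hπ : b ⊔ Ideal.span {π} = q) : π ∈ q := by
  have : Ideal.span {π} ≤ q := by
    conv_rhs => rw [← hπ]
    exact le_sup_right
  exact (Ideal.span_singleton_le_iff_mem q).mp this

/-- orthogonality step -/
lemma gs_orth {q e : Ideal (𝓞 K)} (hq : q ≠ ⊥) (hqp : q.IsPrime) (he : e ≠ ⊥)
    {ψ : AddChar (𝓞 K) ℂ} (hψ : IsLevel ψ (q * (q * e))) (h2 : (2 : 𝓞 K) ∉ q)
    (u : 𝓞 K) (hu : u ∉ q) :
    gs ψ (q * (q * e)) u = qsum (q * (q * e)) (fun x => if x ∈ q then ψ (u * x ^ 2) else 0) := by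
  set c := q * e with hcdef
  have hc : c ≠ ⊥ := mul_ne_zero hq he
  have hb : q * c ≠ ⊥ := mul_ne_zero hq hc
  obtain ⟨η, hη⟩ := IsDedekindDomain.exists_sup_span_eq (I := q * c) (J := c) Ideal.mul_le_right hb
  have hηc : η ∈ c := mem_of_sup_span hη
  have hη2 : ∀ t : 𝓞 K, (η * t) ^ 2 ∈ q * c := by
    intro t
    have h1 : η * η ∈ c * c := Ideal.mul_mem_mul hηc hηc
    have h3 : c * c ≤ q * c := Ideal.mul_mono_left (by rw [hcdef]; exact Ideal.mul_le_left)
    have h4 : (η * t) ^ 2 = (η * η) * t ^ 2 := by ring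
    rw [h4]
    exact Ideal.mul_mem_right _ _ (h3 h1)
  have hstep : ∀ t x : 𝓞 K, ψ (u * (x + η * t) ^ 2) = ψ (u * x ^ 2) * scal ψ (2 * u * x * η) t := by
    intro t x
    rw [scal_apply, ← AddChar.map_add_eq_mul]
    apply hψ.congr
    have : u * (x + η * t) ^ 2 - (u * x ^ 2 + 2 * u * x * η * t) = u * (η * t) ^ 2 := by ring
    rw [this]
    exact Ideal.mul_mem_left _ _ (hη2 t)
  have hin : ∀ x : 𝓞 K, qsum q (scal ψ (2 * u * x * η)) =
      if x ∈ q then (Ideal.absNorm q : ℂ) else 0 := by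
    intro x
    split_ifs with hx
    · have h3 : ∀ t, scal ψ (2 * u * x * η) t = 1 := by
        intro t
        rw [scal_apply]
        apply hψ.eq_one
        have : 2 * u * x * η * t = (x * η) * (2 * u * t) := by ring
        rw [this]
        exact Ideal.mul_mem_right _ _ (Ideal.mul_mem_mul hx hηc)
      rw [qsum_congr h3, qsum_const hq, mul_one]
    · have h3 : ¬ ∀ t, ψ (2 * u * x * η * t) = 1 := by
        intro h3
        have h4 := (hψ _).mpr h3
        have h5 : Ideal.span {2 * u * x} * c ≤ q * c := by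
          conv_lhs => rw [← hη]
          rw [Ideal.mul_sup, sup_le_iff]
          refine ⟨Ideal.mul_le_right, ?_⟩
          rw [Ideal.span_singleton_mul_span_singleton, Ideal.span_singleton_le_iff_mem]
          exact h4
        rw [← Ideal.dvd_iff_le, mul_dvd_mul_iff_right hc, Ideal.dvd_iff_le,
          Ideal.span_singleton_le_iff_mem] at h5
        rcases hqp.mem_or_mem h5 with h6 | h6
        · rcases hqp.mem_or_mem h6 with h7 | h7
          · exact h2 h7
          · exact hu h7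
        · exact hx h6
      push Not at h3
      obtain ⟨t, ht⟩ := h3
      refine qsum_char_eq_zero hq _ ?_ (t := t) ht
      intro a y hy
      rw [AddChar.map_add_eq_mul, scal_apply (x := y)]
      have : ψ (2 * u * x * η * y) = 1 := by
        apply hψ.eq_one
        have h4 : 2 * u * x * η * y = (y * η) * (2 * u * x) := by ring
        rw [h4]
        exact Ideal.mul_mem_right _ _ (Ideal.mul_mem_mul hy hηc)
      rw [this, mul_one]
  have hNq := absNorm_ne_zeroC hq
  apply mul_left_cancel₀ hNq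
  have e1 : (Ideal.absNorm q : ℂ) * gs ψ (q * c) u
      = qsum q (fun t => qsum (q * c) (fun x => ψ (u * (x + η * t) ^ 2))) := by
    rw [← qsum_const hq]
    apply qsum_congr
    intro t
    exact (qsum_translate hb (per_gs hψ u) (η * t)).symm
  rw [e1, qsum_comm hq hb]
  have e2 : ∀ x : 𝓞 K, qsum q (fun t => ψ (u * (x + η * t) ^ 2))
      = (Ideal.absNorm q : ℂ) * (if x ∈ q then ψ (u * x ^ 2) else 0) := by
    intro x
    have e3 : qsum q (fun t => ψ (u * (x + η * t) ^ 2))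
        = ψ (u * x ^ 2) * qsum q (scal ψ (2 * u * x * η)) := by
      rw [← qsum_const_mul hq]
      exact qsum_congr fun t => hstep t x
    rw [e3, hin]
    split_ifs <;> ring
  rw [qsum_congr e2, qsum_const_mul hb]

/-- removing a square factor from the modulus -/
lemma gs_reduce {q e : Ideal (𝓞 K)} (hq : q ≠ ⊥) (hqp : q.IsPrime) (he : e ≠ ⊥)
    {ψ : AddChar (𝓞 K) ℂ} (hψ : IsLevel ψ (q * (q * e))) (h2 : (2 : 𝓞 K) ∉ q) {π : 𝓞 K}
    (hπ : q * (q * e) ⊔ Ideal.span {π} = q) :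
    IsLevel (scal ψ (π ^ 2)) e ∧ ∀ (u : 𝓞 K) (_ : u ∉ q), gs ψ (q * (q * e)) u
      = (Ideal.absNorm q : ℂ) * gs (scal ψ (π ^ 2)) e u := by
  have hc : q * e ≠ ⊥ := mul_ne_zero hq he
  have hb : q * (q * e) ≠ ⊥ := mul_ne_zero hq hc
  have hNe := absNorm_ne_zeroC he
  have hπq : π ∈ q := mem_of_sup_span hπ
  have hπe : ∀ w, π * w ∈ q * e → w ∈ e := by
    intro w h
    have h1 : q * Ideal.span {w} ≤ q * e := by
      conv_lhs => rw [← hπ]
      rw [Ideal.sup_mul, sup_le_iff]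
      constructor
      · exact le_trans Ideal.mul_le_left Ideal.mul_le_right
      · rw [Ideal.span_singleton_mul_span_singleton, Ideal.span_singleton_le_iff_mem]
        exact h
    rw [← Ideal.dvd_iff_le, mul_dvd_mul_iff_left hq, Ideal.dvd_iff_le,
      Ideal.span_singleton_le_iff_mem] at h1
    exact h1
  have hlev : IsLevel (scal ψ (π ^ 2)) e := by
    intro x
    constructor
    · intro hx y
      rw [scal_apply]
      apply hψ.eq_one
      have : π ^ 2 * (x * y) = (π * (π * x)) * y := by ring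
      rw [this]
      exact Ideal.mul_mem_right _ _ (Ideal.mul_mem_mul hπq (Ideal.mul_mem_mul hπq hx))
    · intro h
      have h3 : π ^ 2 * x ∈ q * (q * e) := by
        rw [hψ]
        intro y
        have := h y
        rw [scal_apply, ← mul_assoc] at this
        exact this
      have h4 : π * (π * x) ∈ q * (q * e) := by
        have : π * (π * x) = π ^ 2 * x := by ring
        rw [this]; exact h3
      exact hπe _ ((pi_mul_mem hq hπ).mp h4)
  refine ⟨hlev, fun u hu => ?_⟩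
  rw [gs_orth hq hqp he hψ h2 u hu]
  rw [qsum_pi hq hc hπ]
  · have h5 : qsum (q * e) (fun z => if π * z ∈ q then ψ (u * (π * z) ^ 2) else 0)
        = qsum (q * e) (fun z => scal ψ (π ^ 2) (u * z ^ 2)) := by
      apply qsum_congr
      intro z
      rw [if_pos (Ideal.mul_mem_right _ _ hπq), scal_apply]
      congr 1
      ring
    rw [h5]
    have h6 := qsum_index hc (Ideal.mul_le_right : q * e ≤ e) (per_gs hlev u)
    rw [map_mul] at h6
    apply mul_left_cancel₀ hNe
    rw [h6]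
    unfold gs
    push_cast
    ring
  · intro x y hy
    have hyq : y ∈ q := Ideal.mul_le_left (I := q) (J := q * e) hy
    have hiff : x + y ∈ q ↔ x ∈ q := by
      constructor
      · intro h
        have := Ideal.sub_mem _ h hyq
        simpa using this
      · intro h
        exact Ideal.add_mem _ h hyq
    simp only [hiff]
    split_ifs
    · exact per_gs hψ u x y hy
    · rfl
  · intro x hx
    exact if_neg hx

/-- the Chinese remainder step -/
lemma gs_crt {q c : Ideal (𝓞 K)} (hq : q ≠ ⊥) (hc : c ≠ ⊥) (hcop : IsCoprime q c)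
    {ψ : AddChar (𝓞 K) ℂ} (hψ : IsLevel ψ (q * c)) :
    ∃ e f : 𝓞 K, IsLevel (scal ψ (e ^ 2)) q ∧ IsLevel (scal ψ (f ^ 2)) c ∧ ∀ u,
      gs ψ (q * c) u = gs (scal ψ (e ^ 2)) q u * gs (scal ψ (f ^ 2)) c u := by
  obtain ⟨f, hf, e, he, hfe⟩ := Ideal.isCoprime_iff_exists.mp hcop
  have hb : q * c ≠ ⊥ := mul_ne_zero hq hc
  have hmem : ∀ x, x ∈ q * c ↔ x ∈ q ∧ x ∈ c := by
    intro x
    rw [Ideal.mul_eq_inf_of_isCoprime hcop, Ideal.mem_inf]
  have he1 : e - 1 ∈ q := by
    have : e - 1 = -f := by rw [← hfe]; ring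
    rw [this]
    exact q.neg_mem hf
  have hf1 : f - 1 ∈ c := by
    have : f - 1 = -e := by rw [← hfe]; ring
    rw [this]
    exact c.neg_mem he
  have lev : ∀ (a b' : Ideal (𝓞 K)) (g : 𝓞 K) (_ : ∀ x, x ∈ q * c ↔ x ∈ a ∧ x ∈ b')
      (_ : g ∈ b') (_ : g - 1 ∈ a), IsLevel (scal ψ (g ^ 2)) a := by
    intro a b' g h1 h2 h3 x
    have h4 : x ∈ a ↔ g ^ 2 * x ∈ q * c := by
      rw [h1]
      constructor
      · intro hx
        refine ⟨Ideal.mul_mem_left _ _ hx, ?_⟩
        have : g ^ 2 * x = g * (g * x) := by ring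
        rw [this]
        exact Ideal.mul_mem_right _ _ h2
      · rintro ⟨hx, -⟩
        have : x = g ^ 2 * x - (g - 1) * ((g + 1) * x) := by ring
        rw [this]
        exact Ideal.sub_mem _ hx (Ideal.mul_mem_right _ _ h3)
    rw [h4, hψ]
    constructor
    · intro h y
      rw [scal_apply, ← mul_assoc]
      exact h y
    · intro h y
      have := h y
      rwa [scal_apply, ← mul_assoc] at this
  refine ⟨e, f, lev q c e hmem he he1, lev c q f (fun x => by rw [hmem, and_comm]) hf hf1, ?_⟩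
  intro u
  have h1 := lev q c e hmem he he1
  have h2 := lev c q f (fun x => by rw [hmem, and_comm]) hf hf1
  unfold gs qsum
  have := finite_quotI hb
  have : Fintype (𝓞 K ⧸ (q * c)) := Fintype.ofFinite _
  have := finite_quotI hc
  have : Fintype (𝓞 K ⧸ c) := Fintype.ofFinite _
  have := finite_quotI hq
  have : Fintype (𝓞 K ⧸ q) := Fintype.ofFinite _
  simp only [finsum_eq_sum_of_fintype]
  rw [Finset.sum_mul_sum, ← Finset.sum_product', Finset.univ_product_univ]
  refine Fintype.sum_equiv (Ideal.quotientMulEquivQuotientProd q c hcop).toEquiv _ _ fun x => ?_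
  obtain ⟨x, rfl⟩ := Ideal.Quotient.mk_surjective x
  have h3 : (Ideal.quotientMulEquivQuotientProd q c hcop).toEquiv (Ideal.Quotient.mk (q * c) x)
      = (Ideal.Quotient.mk q x, Ideal.Quotient.mk c x) := rfl
  rw [h3]
  have e1 := (per_gs hψ u).out (x := x) (q := Ideal.Quotient.mk (q * c) x) rfl
  have e2 := (per_gs h1 u).out (x := x) (q := Ideal.Quotient.mk q x) rfl
  have e3 := (per_gs h2 u).out (x := x) (q := Ideal.Quotient.mk c x) rfl
  rw [e1, e2, e3, scal_apply, scal_apply, ← AddChar.map_add_eq_mul]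
  apply hψ.congr
  have h4 : u * x ^ 2 - (e ^ 2 * (u * x ^ 2) + f ^ 2 * (u * x ^ 2))
      = (f * e) * (2 * (u * x ^ 2)) := by
    have : (1 : 𝓞 K) = (f + e) ^ 2 := by rw [hfe]; ring
    calc u * x ^ 2 - (e ^ 2 * (u * x ^ 2) + f ^ 2 * (u * x ^ 2))
        = 1 * (u * x ^ 2) - (e ^ 2 * (u * x ^ 2) + f ^ 2 * (u * x ^ 2)) := by ring
      _ = (f + e) ^ 2 * (u * x ^ 2) - (e ^ 2 * (u * x ^ 2) + f ^ 2 * (u * x ^ 2)) := by rw [← this]
      _ = _ := by ring
  rw [h4]
  exact Ideal.mul_mem_right _ _ (Ideal.mul_mem_mul hf he)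

/-- quadratic symbol at a prime -/
def chi (u : 𝓞 K) (q : Ideal (𝓞 K)) : ℂ :=
  if u ∈ q then 0 else if ∃ x, x ^ 2 - u ∈ q then 1 else -1

lemma chi_sq {u : 𝓞 K} {q : Ideal (𝓞 K)} (hu : u ∉ q) : chi u q * chi u q = 1 := by
  unfold chi
  rw [if_neg hu]
  split_ifs <;> norm_num

/-- the case of a prime -/
lemma gs_prime {q : Ideal (𝓞 K)} (hq : q ≠ ⊥) (hqp : q.IsPrime)
    {ψ : AddChar (𝓞 K) ℂ} (hψ : IsLevel ψ q) (h2 : (2 : 𝓞 K) ∉ q)
    (u : 𝓞 K) (hu : u ∉ q) : gs ψ q u = chi u q * gs ψ q 1 := by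
  have hmax : q.IsMaximal := hqp.isMaximal hq
  have := finite_quotI hq
  let _ : Fintype (𝓞 K ⧸ q) := Fintype.ofFinite _
  let _ : Field (𝓞 K ⧸ q) := Ideal.Quotient.field q
  have hF : ringChar (𝓞 K ⧸ q) ≠ 2 := by
    intro h
    have h3 : ((2 : ℕ) : 𝓞 K ⧸ q) = 0 := by
      rw [← h]; exact ringChar.Nat.cast_ringChar
    apply h2
    rw [← Ideal.Quotient.eq_zero_iff_mem]
    have h4 : Ideal.Quotient.mk q (2 : 𝓞 K) = ((2 : ℕ) : 𝓞 K ⧸ q) := by
      rw [map_ofNat]; rfl
    rw [h4, h3]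
  have hout : ∀ x : 𝓞 K, ψ (Ideal.Quotient.mk q x).out = ψ x := fun x => hψ.per.out rfl
  let ψ' : AddChar (𝓞 K ⧸ q) ℂ :=
    { toFun := fun y => ψ y.out
      map_zero_eq_one' := by
        have := hout 0
        rw [map_zero, AddChar.map_zero_eq_one] at this
        exact this
      map_add_eq_mul' := by
        intro x y
        obtain ⟨x, rfl⟩ := Ideal.Quotient.mk_surjective x
        obtain ⟨y, rfl⟩ := Ideal.Quotient.mk_surjective y
        rw [← map_add, hout, hout, hout, AddChar.map_add_eq_mul] }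
  have hψ' : ∀ x : 𝓞 K, ψ' (Ideal.Quotient.mk q x) = ψ x := hout
  have hne : ψ' ≠ 1 := by
    intro h
    have h1 : (1 : 𝓞 K) ∈ q := by
      rw [hψ]
      intro y
      rw [one_mul, ← hψ', h]
      rfl
    exact hqp.ne_top ((Ideal.eq_top_iff_one q).mpr h1)
  have hu0 : Ideal.Quotient.mk q u ≠ 0 := by
    rw [Ne, Ideal.Quotient.eq_zero_iff_mem]
    exact hu
  have key := gauss_field hF ψ' hne (Ideal.Quotient.mk q u) hu0
  have hgs : ∀ v : 𝓞 K, gs ψ q v = ∑ x : 𝓞 K ⧸ q, ψ' (Ideal.Quotient.mk q v * x ^ 2) := by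
    intro v
    unfold gs qsum
    rw [finsum_eq_sum_of_fintype]
    refine Finset.sum_congr rfl fun x _ => ?_
    simp only
    rw [← hψ']
    congr 1
    rw [map_mul, map_pow, Ideal.Quotient.mk_out]
  rw [hgs u, hgs 1, key, map_one]
  simp only [one_mul]
  congr 1
  unfold chi
  rw [if_neg hu]
  have hsq : IsSquare (Ideal.Quotient.mk q u) ↔ ∃ x, x ^ 2 - u ∈ q := by
    constructor
    · rintro ⟨r, hr⟩
      obtain ⟨x, rfl⟩ := Ideal.Quotient.mk_surjective r
      refine ⟨x, ?_⟩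
      rw [← Ideal.Quotient.eq, map_pow, sq]
      exact hr.symm
    · rintro ⟨x, hx⟩
      rw [← Ideal.Quotient.eq, map_pow, sq] at hx
      exact ⟨_, hx.symm⟩
  split_ifs with h
  · rw [(quadraticChar_one_iff_isSquare hu0).mpr (hsq.mpr h)]
    norm_num
  · rw [quadraticChar_neg_one_iff_not_isSquare.mpr (fun h' => h (hsq.mp h'))]
    norm_num

/-- multiplicative extension of the quadratic symbol -/
def jac (u : 𝓞 K) (b : Ideal (𝓞 K)) : ℂ := ((normalizedFactors b).map (chi u)).prod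

lemma jac_one (u : 𝓞 K) : jac u (1 : Ideal (𝓞 K)) = 1 := by
  unfold jac
  rw [normalizedFactors_one]
  simp

lemma jac_mul (u : 𝓞 K) {a b : Ideal (𝓞 K)} (ha : a ≠ 0) (hb : b ≠ 0) :
    jac u (a * b) = jac u a * jac u b := by
  unfold jac
  rw [normalizedFactors_mul ha hb, Multiset.map_add, Multiset.prod_add]

lemma jac_prime (u : 𝓞 K) {q : Ideal (𝓞 K)} (hq : q ≠ 0) (hqp : q.IsPrime) :
    jac u q = chi u q := by
  unfold jac
  rw [normalizedFactors_irreducible (Ideal.prime_of_isPrime hq hqp).irreducible, normalize_eq]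
  simp

/-- **Quadratic Gauss sums** modulo odd ideals. -/
theorem gs_eq_jac (u : 𝓞 K) : ∀ (N : ℕ) (b : Ideal (𝓞 K)), b ≠ 0 → Ideal.absNorm b ≤ N →
    (∀ q : Ideal (𝓞 K), q.IsPrime → q ∣ b → (2 : 𝓞 K) ∉ q ∧ u ∉ q) →
    ∀ (ψ : AddChar (𝓞 K) ℂ), IsLevel ψ b → gs ψ b u = jac u b * gs ψ b 1 := by
  intro N
  induction N with
  | zero =>
    intro b hb hN
    exfalso
    have h1 : Ideal.absNorm b = 0 := by omega
    rw [Ideal.absNorm_eq_zero_iff] at h1
    exact hb h1
  | succ N ih =>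
    intro b hb hN hprime ψ hψ
    by_cases hunit : IsUnit b
    · rw [Ideal.isUnit_iff] at hunit
      subst hunit
      have h1 : ∀ x, ψ x = 1 := fun x => hψ.eq_one Submodule.mem_top
      have h2 : jac u (⊤ : Ideal (𝓞 K)) = 1 := by rw [← Ideal.one_eq_top]; exact jac_one u
      rw [h2, one_mul]
      unfold gs
      apply qsum_congr
      intro x
      rw [h1, h1]
    · obtain ⟨q, hqirr, hqb⟩ := WfDvdMonoid.exists_irreducible_factor hunit hb
      have hqP : Prime q := hqirr.prime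
      have hq0 : q ≠ ⊥ := hqP.ne_zero
      have hqp : q.IsPrime := Ideal.isPrime_of_prime hqP
      obtain ⟨c, rfl⟩ := hqb
      have hc0 : c ≠ 0 := right_ne_zero_of_mul hb
      have hq2 : 2 ≤ Ideal.absNorm q := by
        have h1 : Ideal.absNorm q ≠ 0 := by
          rw [Ne, Ideal.absNorm_eq_zero_iff]; exact hq0
        have h2 : Ideal.absNorm q ≠ 1 := by
          rw [Ne, Ideal.absNorm_eq_one_iff]; exact hqp.ne_top
        omega
      obtain ⟨h2q, huq⟩ := hprime q hqp (dvd_mul_right q c)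
      rw [map_mul] at hN
      by_cases hqc : q ∣ c
      · obtain ⟨e, rfl⟩ := hqc
        have he0 : e ≠ 0 := right_ne_zero_of_mul hc0
        obtain ⟨π, hπ⟩ := IsDedekindDomain.exists_sup_span_eq (I := q * (q * e)) (J := q)
          Ideal.mul_le_left hb
        obtain ⟨hlev, hred⟩ := gs_reduce hq0 hqp he0 hψ h2q hπ
        have hNe : Ideal.absNorm e ≤ N := by
          rw [map_mul] at hN
          have h3 : 0 < Ideal.absNorm e := by
            apply Nat.pos_of_ne_zero
            rw [Ne, Ideal.absNorm_eq_zero_iff]; exact he0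
          have h4 := Nat.mul_le_mul hq2 (Nat.mul_le_mul hq2 (le_refl (Ideal.absNorm e)))
          omega
        have h1q : (1 : 𝓞 K) ∉ q := fun h => hqp.ne_top ((Ideal.eq_top_iff_one q).mpr h)
        have hih := ih e he0 hNe (fun r hr hre => hprime r hr
          (hre.trans ((dvd_mul_left e q).trans (dvd_mul_left (q * e) q)))) _ hlev
        rw [hred u huq, hred 1 h1q, hih, jac_mul u hq0 hc0, jac_mul u hq0 he0,
          jac_prime u hq0 hqp]
        have := chi_sq huq
        linear_combination (-(Ideal.absNorm q : ℂ) * jac u e * gs (scal ψ (π ^ 2)) e 1) * this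
      · have hcop : IsCoprime q c := by
          rw [Ideal.isCoprime_iff_sup_eq]
          have hmax : q.IsMaximal := hqp.isMaximal hq0
          by_contra h
          have h1 : q ⊔ c = q := (hmax.eq_of_le h le_sup_left).symm
          apply hqc
          rw [Ideal.dvd_iff_le]
          rw [← h1]
          exact le_sup_right
        obtain ⟨e, f, hle, hlf, hg⟩ := gs_crt hq0 hc0 hcop hψ
        have hNc : Ideal.absNorm c ≤ N := by
          have h3 : 0 < Ideal.absNorm c := by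
            apply Nat.pos_of_ne_zero
            rw [Ne, Ideal.absNorm_eq_zero_iff]; exact hc0
          nlinarith
        have hih := ih c hc0 hNc (fun r hr hre => hprime r hr
          (hre.trans (dvd_mul_left c q))) _ hlf
        rw [hg u, hg 1, hih, gs_prime hq0 hqp hle h2q u huq, jac_mul u hq0 hc0,
          jac_prime u hq0 hqp]
        ring

end Pool.Agent.Helper4
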