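import Mathlib
import Pool.Agent.helper4.GaussJac

/-! # Quadratic reciprocity over number fields -/

open Filter Topology Set Module

noncomputable section

namespace Pool.Agent.Helper4

set_option linter.unusedSectionVars false

open NumberField NumberField.InfinitePlace NumberField.mixedEmbedding

variable {K : Type*} [Field K] [NumberField K]

open scoped Classical

variable (K) in
/-- real places -/
abbrev RP : Type _ := {w : InfinitePlace K // IsReal w}

/-- value at a real place -/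
def rv (w : RP K) : K →+* ℝ := embedding_of_isReal w.2

lemma mixed_fst (w : RP K) (x : K) : (mixedEmbedding K x).1 w = rv w x :=
  mixedEmbedding_apply_isReal K x w

lemma abs_rv (w : RP K) (x : K) : |rv w x| = w.1 x := by
  have h1 := norm_embedding_of_isReal w.2 x
  rw [← h1]
  rfl

lemma rv_ne_zero (w : RP K) {x : K} (hx : x ≠ 0) : rv w x ≠ 0 := by
  rw [Ne, map_eq_zero]; exact hx

/-- the character attached to `β` -/
def psiB (β : 𝓞 K) : AddChar (𝓞 K) ℂ where
  toFun x := eT K ((β : K)⁻¹ * x)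
  map_zero_eq_one' := by simp [eT_zero]
  map_add_eq_mul' x y := by
    rw [← eT_add]
    congr 1
    simp only [RingOfIntegers.coe_eq_algebraMap, map_add]
    ring

lemma psiB_apply (β x : 𝓞 K) : psiB β x = eT K ((β : K)⁻¹ * x) := rfl

lemma eT_eq_one_iff (x : K) : eT K x = 1 ↔ ∃ n : ℤ, Algebra.trace ℚ K x = n := by
  unfold eT
  rw [Complex.exp_eq_one_iff]
  have hpi : (2 * Real.pi * Complex.I : ℂ) ≠ 0 := Complex.two_pi_I_ne_zero
  constructor
  · rintro ⟨n, hn⟩
    refine ⟨n, ?_⟩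
    have h1 : ((Algebra.trace ℚ K x : ℚ) : ℂ) = (n : ℂ) := by
      apply mul_left_cancel₀ hpi
      rw [hn]; ring
    exact_mod_cast h1
  · rintro ⟨n, hn⟩
    refine ⟨n, ?_⟩
    rw [hn]
    push_cast
    ring

lemma isLevel_psiB (D : ℕ) (hDm : ∀ m : IB K → ℤ, ∃ y : 𝓞 K, (D : K) * nuI K m = y)
    (β : 𝓞 K) (hβ : β ≠ 0) (hβD : ∃ y : 𝓞 K, β = 1 + D * y) :
    IsLevel (psiB β) (Ideal.span {β}) := by
  have hβK : (β : K) ≠ 0 := by exact_mod_cast hβ
  intro x
  rw [Ideal.mem_span_singleton]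
  constructor
  · rintro ⟨z, rfl⟩ y
    rw [psiB_apply]
    have : (β : K)⁻¹ * ((β * z * y : 𝓞 K) : K) = ((z * y : 𝓞 K) : K) := by
      simp only [RingOfIntegers.coe_eq_algebraMap, map_mul] at hβK ⊢
      field_simp
    rw [this, eT_integer]
  · intro h
    have h1 : ∀ i, ∃ n : ℤ, Algebra.trace ℚ K (((β : K)⁻¹ * x) * integralBasis K i) = n := by
      intro i
      have h2 := h (RingOfIntegers.basis K i)
      rw [psiB_apply, eT_eq_one_iff] at h2
      obtain ⟨n, hn⟩ := h2
      refine ⟨n, ?_⟩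
      rw [← hn]
      congr 1
      rw [integralBasis_apply]
      simp only [RingOfIntegers.coe_eq_algebraMap, map_mul]
      ring
    choose n hn using h1
    have h2 : (β : K)⁻¹ * x = nuI K n := by
      rw [← sum_trace_dual K ((β : K)⁻¹ * x)]
      unfold nuI
      refine Finset.sum_congr rfl fun i _ => ?_
      rw [hn, Rat.smul_def]
      push_cast
      rfl
    obtain ⟨z, hz⟩ := hDm n
    obtain ⟨y, hy⟩ := hβD
    rw [← h2] at hz
    have h3 : (D : 𝓞 K) * x = β * z := by
      apply RingOfIntegers.coe_injective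
      simp only [RingOfIntegers.coe_eq_algebraMap, map_mul, map_natCast] at hz hβK ⊢
      rw [← hz]
      field_simp
    refine ⟨x - y * z, ?_⟩
    have h4 : β * (x - y * z) = β * x - y * (β * z) := by ring
    rw [h4, ← h3]
    nth_rewrite 1 [hy]
    ring

lemma qsum_eq_sum (b : Ideal (𝓞 K)) [Fintype (𝓞 K ⧸ b)] (f : 𝓞 K → ℂ) :
    qsum b f = ∑ q : 𝓞 K ⧸ b, f q.out := by
  unfold qsum
  rw [finsum_eq_sum_of_fintype]

/-- **Reciprocity.** -/
theorem reciprocity (d : 𝓞 K) (hd : d ≠ 0) : ∃ M : ℕ, 2 ≤ M ∧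
    (∀ q : Ideal (𝓞 K), q.IsPrime → (M : 𝓞 K) ∉ q → (2 : 𝓞 K) ∉ q ∧ d ∉ q) ∧
    ∀ β : 𝓞 K, (∃ y : 𝓞 K, β = 1 + M * y) → (∀ w : RP K, 0 < rv w (β : K)) →
      jac d (Ideal.span {β}) = 1 := by
  obtain ⟨M₁, hM₁, h₁⟩ := gauss_principal K (1 : 𝓞 K) one_ne_zero
  obtain ⟨M₂, hM₂, h₂⟩ := gauss_principal K d hd
  obtain ⟨D, hD, hDm⟩ := exists_dual_denominator K
  obtain ⟨d', hd'⟩ := exists_mul_eq_absNorm K d
  set Nd := Ideal.absNorm (Ideal.span {d}) with hNd
  have hNd0 : Nd ≠ 0 := absNorm_span_ne_zero K hd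
  set M := 2 * (M₁ * (M₂ * (D * Nd))) with hM
  have hM0 : M ≠ 0 := by rw [hM]; positivity
  refine ⟨M, ?_, ?_, ?_⟩
  · have : 0 < M₁ * (M₂ * (D * Nd)) := by positivity
    omega
  · intro q hq hMq
    constructor
    · intro h
      apply hMq
      have : (M : 𝓞 K) = 2 * ((M₁ * (M₂ * (D * Nd)) : ℕ) : 𝓞 K) := by rw [hM]; push_cast; ring
      rw [this]
      exact Ideal.mul_mem_right _ _ h
    · intro h
      apply hMq
      have : (M : 𝓞 K) = d * (d' * ((2 * (M₁ * (M₂ * D)) : ℕ) : 𝓞 K)) := by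
        rw [← mul_assoc, hd', hM]; push_cast; ring
      rw [this]
      exact Ideal.mul_mem_right _ _ h
  · rintro β ⟨y, hy⟩ hpos
    have hcopM : ∀ q : Ideal (𝓞 K), q.IsPrime → β ∈ q → (M : 𝓞 K) ∉ q := by
      intro q hq hβq hMq
      apply hq.ne_top
      rw [Ideal.eq_top_iff_one]
      have : (1 : 𝓞 K) = β - M * y := by rw [hy]; ring
      rw [this]
      exact Ideal.sub_mem _ hβq (Ideal.mul_mem_right _ _ hMq)
    have hβ : β ≠ 0 := by
      rintro rfl
      have h1 : (M : 𝓞 K) ∣ 1 := ⟨-y, by linear_combination -hy⟩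
      have h2 : IsUnit (M : 𝓞 K) := isUnit_of_dvd_one h1
      have h3 : Ideal.span {(M : 𝓞 K)} = ⊤ := Ideal.span_singleton_eq_top.mpr h2
      have h4 : Ideal.absNorm (Ideal.span {(M : 𝓞 K)}) = 1 := by
        rw [h3]; exact Ideal.absNorm_top
      have h5 := Ideal.absNorm_span_natCast (S := 𝓞 K) M
      rw [h4] at h5
      have h6 : M = 1 := by
        have := h5.symm
        rw [pow_eq_one_iff] at this
        rcases this with h | h
        · exact h
        · exact absurd h Module.finrank_pos.ne'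
      have : M = 2 * (M₁ * (M₂ * (D * Nd))) := hM
      omega
    have hspan : Ideal.span {β} ≠ ⊥ := by
      rw [Ne, Ideal.span_singleton_eq_bot]; exact hβ
    have := finite_quotI hspan
    have : Fintype (𝓞 K ⧸ Ideal.span {β}) := Fintype.ofFinite _
    have hpos' : ∀ w, 0 < (mixedEmbedding K (β : K)).1 w := by
      intro w
      rw [mixed_fst]
      exact hpos w
    have e1 := h₁ β hβ ⟨2 * (M₂ * (D * Nd)) * y, by rw [hy, hM]; push_cast; ring⟩ hpos'
    have e2 := h₂ β hβ ⟨2 * (M₁ * (D * Nd)) * y, by rw [hy, hM]; push_cast; ring⟩ hpos'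
    have hlev := isLevel_psiB D hDm β hβ ⟨2 * (M₁ * (M₂ * Nd)) * y, by
      rw [hy, hM]; push_cast; ring⟩
    have hg : ∀ κ : 𝓞 K, gs (psiB β) (Ideal.span {β}) κ
        = ∑ q : 𝓞 K ⧸ Ideal.span {β}, eT K ((κ : K) * (β : K)⁻¹ * (q.out : K) ^ 2) := by
      intro κ
      unfold gs
      rw [qsum_eq_sum]
      refine Finset.sum_congr rfl fun q _ => ?_
      rw [psiB_apply]
      congr 1
      simp only [RingOfIntegers.coe_eq_algebraMap, map_mul, map_pow]
      ring
    have key := gs_eq_jac d (Ideal.absNorm (Ideal.span {β})) (Ideal.span {β}) hspan le_rfl (by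
      intro q hq hqβ
      have hβq : β ∈ q := by
        rw [Ideal.dvd_span_singleton] at hqβ
        exact hqβ
      have hMq := hcopM q hq hβq
      constructor
      · intro h
        apply hMq
        have : (M : 𝓞 K) = 2 * ((M₁ * (M₂ * (D * Nd)) : ℕ) : 𝓞 K) := by rw [hM]; push_cast; ring
        rw [this]
        exact Ideal.mul_mem_right _ _ h
      · intro h
        apply hMq
        have : (M : 𝓞 K) = d * (d' * ((2 * (M₁ * (M₂ * D)) : ℕ) : 𝓞 K)) := by
          rw [← mul_assoc, hd', hM]; push_cast; ring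
        rw [this]
        exact Ideal.mul_mem_right _ _ h) (psiB β) hlev
    rw [hg, hg, e1, e2] at key
    have hs : ((Real.sqrt (Fintype.card (𝓞 K ⧸ Ideal.span {β})) : ℝ) : ℂ) ≠ 0 := by
      have h1 : 0 < Fintype.card (𝓞 K ⧸ Ideal.span {β}) := Fintype.card_pos
      have h2 : 0 < Real.sqrt (Fintype.card (𝓞 K ⧸ Ideal.span {β})) :=
        Real.sqrt_pos.mpr (by exact_mod_cast h1)
      exact_mod_cast h2.ne'
    exact (mul_right_cancel₀ hs (by rw [one_mul]; exact key)).symm

/-- integers congruent to one with prescribed sign changes -/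
lemma exists_neg_at (M : ℕ) (hM : M ≠ 0) (w : RP K) : ∃ π : 𝓞 K, (∃ y : 𝓞 K, π = 1 + M * y) ∧
    rv w (π : K) < 0 ∧ ∀ w', w' ≠ w → 0 < rv w' (π : K) := by
  obtain ⟨a, ha1, ha2⟩ := AbsoluteValue.exists_one_lt_lt_one_pi_of_not_isEquiv
    (v := fun v : InfinitePlace K => v.1) (fun v => v.isNontrivial)
    (fun _ _ h => (eq_iff_isEquiv (K := K)).not.mp h) w.1
  set α : K := 1 - a ^ 2 with hα
  have h1 : rv w α < 0 := by
    rw [hα, map_sub, map_one, map_pow, ← sq_abs, abs_rv]
    have : 1 < w.1 a := ha1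
    nlinarith
  have h2 : ∀ w', w' ≠ w → 0 < rv w' α := by
    intro w' hw'
    rw [hα, map_sub, map_one, map_pow, ← sq_abs, abs_rv]
    have h3 : w'.1 a < 1 := ha2 w'.1 (fun h => hw' (Subtype.ext h))
    have h4 : 0 ≤ w'.1 a := apply_nonneg _ _
    nlinarith
  -- clear denominators
  obtain ⟨N, hN, y, hy⟩ : ∃ N : ℕ, 0 < N ∧ ∃ y : 𝓞 K, (N : K) * α = y := by
    obtain ⟨n, hn0, hn⟩ := exists_integral_multiples ℤ ℚ ({α} : Finset K)
    have hn1 := hn α (Finset.mem_singleton_self _)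
    rw [zsmul_eq_mul] at hn1
    refine ⟨n.natAbs, Int.natAbs_pos.mpr hn0, ?_⟩
    rcases Int.natAbs_eq n with h3 | h3
    · refine ⟨⟨_, hn1⟩, ?_⟩
      have : ((n.natAbs : ℕ) : K) = (n : K) := by
        conv_rhs => rw [h3]
        rw [Int.cast_natCast]
      rw [this]
      rfl
    · refine ⟨-⟨_, hn1⟩, ?_⟩
      have : ((n.natAbs : ℕ) : K) = -(n : K) := by
        conv_rhs => rw [h3]
        rw [Int.cast_neg, Int.cast_natCast, neg_neg]
      rw [this, neg_mul]
      rfl
  obtain ⟨T, hT⟩ := exists_nat_gt (1 / (-(rv w α)))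
  have hT0 : 0 < T := by
    have : 0 < 1 / (-(rv w α)) := by
      have : 0 < -(rv w α) := by linarith
      positivity
    exact_mod_cast this.trans hT
  refine ⟨1 + M * (T * y), ⟨T * y, rfl⟩, ?_, ?_⟩
  · have e1 : rv w ((1 + M * (T * y) : 𝓞 K) : K) = 1 + M * (T * (N * rv w α)) := by
      simp only [RingOfIntegers.coe_eq_algebraMap, map_mul, map_add, map_one, map_natCast] at hy ⊢
      rw [← hy, map_mul, map_natCast]
    rw [e1]
    have h4 : 1 < T * (-(rv w α)) := by
      rw [div_lt_iff₀ (by linarith)] at hT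
      exact hT
    have h5 : (1 : ℝ) ≤ M := by exact_mod_cast Nat.one_le_iff_ne_zero.mpr hM
    have h6 : (1 : ℝ) ≤ N := by exact_mod_cast hN
    have h7 : T * (-(rv w α)) ≤ M * (T * (N * (-(rv w α)))) := by
      have h8 : 0 ≤ T * (-(rv w α)) := by linarith
      have h9 : 1 ≤ (M : ℝ) * N := by nlinarith
      calc T * (-(rv w α)) = 1 * (T * (-(rv w α))) := by ring
        _ ≤ (M * N) * (T * (-(rv w α))) := mul_le_mul_of_nonneg_right h9 h8
        _ = _ := by ring
    nlinarith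
  · intro w' hw'
    have e1 : rv w' ((1 + M * (T * y) : 𝓞 K) : K) = 1 + M * (T * (N * rv w' α)) := by
      simp only [RingOfIntegers.coe_eq_algebraMap, map_mul, map_add, map_one, map_natCast] at hy ⊢
      rw [← hy, map_mul, map_natCast]
    rw [e1]
    have := h2 w' hw'
    positivity

end Pool.Agent.Helper4
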