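import Mathlib
import Pool.Agent.helper4.RecipNF

/-! # The quadratic symbol as a ray class character -/

open Filter Topology Set Module

noncomputable section

namespace Pool.Agent.Helper4

set_option linter.unusedSectionVars false

open NumberField NumberField.InfinitePlace NumberField.mixedEmbedding UniqueFactorizationMonoid

variable {K : Type*} [Field K] [NumberField K]

open scoped Classical

lemma jac_sq (d : 𝓞 K) {b : Ideal (𝓞 K)} (h : ∀ q : Ideal (𝓞 K), q.IsPrime → q ∣ b → d ∉ q) :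
    jac d b * jac d b = 1 := by
  unfold jac
  rw [← Multiset.prod_map_mul]
  have h1 : (normalizedFactors b).map (fun q => chi d q * chi d q)
      = (normalizedFactors b).map (fun _ => (1 : ℂ)) := by
    refine Multiset.map_congr rfl fun q hq => ?_
    have hp := prime_of_normalized_factor q hq
    exact chi_sq (h q (Ideal.isPrime_of_prime hp) (dvd_of_mem_normalizedFactors hq))
  rw [h1]
  simp

/-- the coefficient attached to an integer -/
def CC (d : 𝓞 K) (M : ℕ) (x : 𝓞 K) : ℂ :=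
  if IsCoprime x (M : 𝓞 K) then jac d (Ideal.span {x}) else 0

lemma natCast_not_isUnit {M : ℕ} (hM : 2 ≤ M) : ¬ IsUnit (M : 𝓞 K) := by
  intro h2
  have h3 : Ideal.span {(M : 𝓞 K)} = ⊤ := Ideal.span_singleton_eq_top.mpr h2
  have h4 : Ideal.absNorm (Ideal.span {(M : 𝓞 K)}) = 1 := by
    rw [h3]; exact Ideal.absNorm_top
  have h5 := Ideal.absNorm_span_natCast (S := 𝓞 K) M
  rw [h4] at h5
  have := h5.symm
  rw [pow_eq_one_iff] at this
  rcases this with h | h
  · omega
  · exact absurd h Module.finrank_pos.ne'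

lemma ne_zero_of_coprime {M : ℕ} (hM : 2 ≤ M) {x : 𝓞 K} (h : IsCoprime x (M : 𝓞 K)) : x ≠ 0 := by
  rintro rfl
  rw [isCoprime_zero_left] at h
  exact natCast_not_isUnit hM h

lemma coprime_not_mem {M : ℕ} {x : 𝓞 K} (h : IsCoprime x (M : 𝓞 K)) {q : Ideal (𝓞 K)}
    (hq : q.IsPrime) (hx : x ∈ q) : (M : 𝓞 K) ∉ q := by
  intro hMq
  obtain ⟨a, b, hab⟩ := h
  apply hq.ne_top
  rw [Ideal.eq_top_iff_one, ← hab]
  exact Ideal.add_mem _ (Ideal.mul_mem_left _ _ hx) (Ideal.mul_mem_left _ _ hMq)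

section

variable (d : 𝓞 K) (M : ℕ) (hM : 2 ≤ M)
  (hMq : ∀ q : Ideal (𝓞 K), q.IsPrime → (M : 𝓞 K) ∉ q → (2 : 𝓞 K) ∉ q ∧ d ∉ q)

include hM in
lemma CC_mul (x y : 𝓞 K) : CC d M (x * y) = CC d M x * CC d M y := by
  unfold CC
  by_cases hx : IsCoprime x (M : 𝓞 K)
  · by_cases hy : IsCoprime y (M : 𝓞 K)
    · rw [if_pos hx, if_pos hy, if_pos (hx.mul_left hy), ← Ideal.span_singleton_mul_span_singleton,
        jac_mul]
      · rw [Ne, Ideal.zero_eq_bot, Ideal.span_singleton_eq_bot]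
        exact ne_zero_of_coprime hM hx
      · rw [Ne, Ideal.zero_eq_bot, Ideal.span_singleton_eq_bot]
        exact ne_zero_of_coprime hM hy
    · rw [if_neg hy, if_neg (fun h => hy h.of_mul_left_right), mul_zero]
  · rw [if_neg hx, if_neg (fun h => hx h.of_mul_left_left), zero_mul]

include hMq in
lemma CC_sq {x : 𝓞 K} (hx : IsCoprime x (M : 𝓞 K)) : CC d M x * CC d M x = 1 := by
  unfold CC
  rw [if_pos hx]
  apply jac_sq
  intro q hq hqx
  rw [Ideal.dvd_span_singleton] at hqx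
  exact (hMq q hq (coprime_not_mem hx hq hqx)).2

lemma CC_zero_of_not {x : 𝓞 K} (hx : ¬ IsCoprime x (M : 𝓞 K)) : CC d M x = 0 := if_neg hx

lemma CC_one : CC d M 1 = 1 := by
  unfold CC
  rw [if_pos isCoprime_one_left, Ideal.span_singleton_one, ← Ideal.one_eq_top, jac_one]

include hM in
lemma CC_prod {ι : Type*} (s : Finset ι) (f : ι → 𝓞 K) :
    CC d M (∏ i ∈ s, f i) = ∏ i ∈ s, CC d M (f i) := by
  induction s using Finset.induction_on with
  | empty => simp [CC_one]
  | insert a s ha ih => rw [Finset.prod_insert ha, Finset.prod_insert ha, CC_mul d M hM, ih]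

include hM in
lemma CC_pow (x : 𝓞 K) (n : ℕ) : CC d M (x ^ n) = CC d M x ^ n := by
  induction n with
  | zero => simp [CC_one]
  | succ n ih => rw [pow_succ, CC_mul d M hM, ih, pow_succ]

end

/-- sign at a real place -/
def sgv (w : RP K) (x : K) : ℂ := ((SignType.sign (rv w x) : ℤ) : ℂ)

lemma sgv_mul (w : RP K) (x y : K) : sgv w (x * y) = sgv w x * sgv w y := by
  unfold sgv
  rw [map_mul, sign_mul]
  push_cast
  rfl

lemma sgv_pos (w : RP K) {x : K} (h : 0 < rv w x) : sgv w x = 1 := by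
  unfold sgv
  rw [sign_pos h]; simp

lemma sgv_neg (w : RP K) {x : K} (h : rv w x < 0) : sgv w x = -1 := by
  unfold sgv
  rw [sign_neg h]; simp

lemma sgv_sq (w : RP K) {x : K} (hx : x ≠ 0) : sgv w x * sgv w x = 1 := by
  rcases lt_or_gt_of_ne (rv_ne_zero w hx) with h | h
  · rw [sgv_neg w h]; norm_num
  · rw [sgv_pos w h]; norm_num

lemma sgv_mul_abs (w : RP K) (x : K) : sgv w x * ((|rv w x| : ℝ) : ℂ) = ((rv w x : ℝ) : ℂ) := by
  rcases lt_trichotomy (rv w x) 0 with h | h | h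
  · rw [sgv_neg w h, abs_of_neg h]; push_cast; ring
  · rw [h]; simp
  · rw [sgv_pos w h, abs_of_pos h]; ring

lemma sgv_prod_mul (R : Finset (RP K)) (x y : K) :
    ∏ w ∈ R, sgv w (x * y) = (∏ w ∈ R, sgv w x) * ∏ w ∈ R, sgv w y := by
  rw [← Finset.prod_mul_distrib]
  exact Finset.prod_congr rfl fun w _ => sgv_mul w x y

lemma sgv_prod_pow (R : Finset (RP K)) (x : K) (n : ℕ) :
    ∏ w ∈ R, sgv w (x ^ n) = (∏ w ∈ R, sgv w x) ^ n := by
  induction n with
  | zero =>
    rw [pow_zero, pow_zero]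
    exact Finset.prod_eq_one fun w _ => sgv_pos w (by rw [map_one]; exact one_pos)
  | succ n ih => rw [pow_succ, sgv_prod_mul, ih, pow_succ]

lemma sgv_prod_sq (R : Finset (RP K)) {x : K} (hx : x ≠ 0) :
    (∏ w ∈ R, sgv w x) * ∏ w ∈ R, sgv w x = 1 := by
  rw [← Finset.prod_mul_distrib]
  exact Finset.prod_eq_one fun w _ => sgv_sq w hx

lemma sgv_finprod (w : RP K) {ι : Type*} (s : Finset ι) (f : ι → 𝓞 K) :
    sgv w ((∏ i ∈ s, f i : 𝓞 K) : K) = ∏ i ∈ s, sgv w (f i : K) := by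
  induction s using Finset.induction_on with
  | empty =>
    rw [Finset.prod_empty, Finset.prod_empty]
    exact sgv_pos w (by
      rw [RingOfIntegers.coe_eq_algebraMap, map_one, map_one]; exact one_pos)
  | insert a s ha ih =>
    rw [Finset.prod_insert ha, Finset.prod_insert ha, ← ih, ← sgv_mul]
    congr 1

theorem ray_character (d : 𝓞 K) (hd : d ≠ 0) : ∃ M : ℕ, 2 ≤ M ∧
    (∀ q : Ideal (𝓞 K), q.IsPrime → (M : 𝓞 K) ∉ q → (2 : 𝓞 K) ∉ q ∧ d ∉ q) ∧
    ∃ (R : Finset (RP K)) (χ : 𝓞 K → ℂ), (∀ x y, χ (x + M * y) = χ x) ∧ (∀ x, ‖χ x‖ ≤ 1) ∧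
      χ 0 = 0 ∧ ∀ x : 𝓞 K, CC d M x = χ x * ∏ w ∈ R, sgv w (x : K) := by
  obtain ⟨M, hM, hMq, hrec⟩ := reciprocity d hd
  refine ⟨M, hM, hMq, ?_⟩
  have hM0 : M ≠ 0 := by omega
  choose π hπ1 hπneg hπpos using fun w : RP K => exists_neg_at M hM0 w
  have hcop1 : ∀ x : 𝓞 K, (∃ y : 𝓞 K, x = 1 + M * y) → IsCoprime x (M : 𝓞 K) := by
    rintro x ⟨y, rfl⟩
    exact ⟨1, -y, by ring⟩
  have hmul1 : ∀ x x' : 𝓞 K, (∃ y : 𝓞 K, x = 1 + M * y) → (∃ y : 𝓞 K, x' = 1 + M * y) →
      ∃ y : 𝓞 K, x * x' = 1 + M * y := by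
    rintro x x' ⟨y, rfl⟩ ⟨y', rfl⟩
    exact ⟨y + y' + M * y * y', by ring⟩
  have hprod1 : ∀ P : Finset (RP K), ∃ y : 𝓞 K, ∏ w ∈ P, π w = 1 + M * y := by
    intro P
    induction P using Finset.induction_on with
    | empty => exact ⟨0, by simp⟩
    | insert a s ha ih =>
      rw [Finset.prod_insert ha]
      exact hmul1 _ _ (hπ1 a) ih
  have hrec' : ∀ x : 𝓞 K, (∃ y : 𝓞 K, x = 1 + M * y) → (∀ w : RP K, 0 < rv w (x : K)) →
      CC d M x = 1 := by
    intro x hx hpos
    unfold CC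
    rw [if_pos (hcop1 x hx)]
    exact hrec x hx hpos
  set R : Finset (RP K) := Finset.univ.filter (fun w => CC d M (π w) = -1) with hR
  have hCπ : ∀ w, CC d M (π w) = if w ∈ R then -1 else 1 := by
    intro w
    split_ifs with h
    · exact (Finset.mem_filter.mp h).2
    · have h1 := CC_sq d M hMq (hcop1 _ (hπ1 w))
      rcases mul_self_eq_one_iff.mp h1 with h2 | h2
      · exact h2
      · exact absurd (by rw [hR, Finset.mem_filter]; exact ⟨Finset.mem_univ _, h2⟩ : w ∈ R) h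
  -- the basic lemma
  have hH : ∀ v : 𝓞 K, (∃ y : 𝓞 K, v = 1 + M * y) → CC d M v = ∏ w ∈ R, sgv w (v : K) := by
    intro v hv
    have hv0 : v ≠ 0 := ne_zero_of_coprime hM (hcop1 v hv)
    have hvK : (v : K) ≠ 0 := by exact_mod_cast hv0
    set P : Finset (RP K) := Finset.univ.filter (fun w => rv w (v : K) < 0) with hP
    have hsgv : ∀ w, sgv w (v : K) = if w ∈ P then -1 else 1 := by
      intro w
      split_ifs with h
      · exact sgv_neg w (Finset.mem_filter.mp h).2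
      · apply sgv_pos
        rcases lt_or_gt_of_ne (rv_ne_zero w hvK) with h1 | h1
        · exact absurd (by rw [hP, Finset.mem_filter]; exact ⟨Finset.mem_univ _, h1⟩ : w ∈ P) h
        · exact h1
    set u : 𝓞 K := v * ∏ w ∈ P, π w with hu
    have hu1 : ∃ y : 𝓞 K, u = 1 + M * y := hmul1 _ _ hv (hprod1 P)
    have hu0 : u ≠ 0 := ne_zero_of_coprime hM (hcop1 u hu1)
    have huK : (u : K) ≠ 0 := by exact_mod_cast hu0
    have hupos : ∀ w, 0 < rv w (u : K) := by
      intro w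
      have h1 : sgv w (u : K) = 1 := by
        have h2 : (u : K) = (v : K) * ((∏ w ∈ P, π w : 𝓞 K) : K) :=
          map_mul (algebraMap (𝓞 K) K) _ _
        rw [h2, sgv_mul, sgv_finprod, hsgv]
        have h3 : ∀ w' ∈ P, sgv w (π w' : K) = if w' = w then -1 else 1 := by
          intro w' _
          split_ifs with h
          · subst h; exact sgv_neg _ (hπneg w')
          · exact sgv_pos _ (hπpos w' w (fun h' => h h'.symm))
        rw [Finset.prod_congr rfl h3, Finset.prod_ite_eq' P w (fun _ => (-1 : ℂ))]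
        split_ifs <;> norm_num
      rcases lt_or_gt_of_ne (rv_ne_zero w huK) with h2 | h2
      · rw [sgv_neg w h2] at h1
        norm_num at h1
      · exact h2
    have h1 := hrec' u hu1 hupos
    rw [hu, CC_mul d M hM, CC_prod d M hM] at h1
    have h2 := CC_sq d M hMq (hcop1 v hv)
    have h3 : CC d M v = ∏ w ∈ P, CC d M (π w) := by
      have h4 : CC d M v * (CC d M v * ∏ w ∈ P, CC d M (π w)) = CC d M v := by rw [h1, mul_one]
      rw [← h4, ← mul_assoc, h2, one_mul]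
    rw [h3]
    simp_rw [hCπ, hsgv]
    rw [Finset.prod_ite_mem, Finset.prod_ite_mem, Finset.inter_comm]
  set χ : 𝓞 K → ℂ := fun x => if IsCoprime x (M : 𝓞 K) then CC d M x * ∏ w ∈ R, sgv w (x : K)
    else 0 with hχ
  have hχ1 : ∀ x, IsCoprime x (M : 𝓞 K) → χ x = CC d M x * ∏ w ∈ R, sgv w (x : K) := by
    intro x hx
    rw [hχ]; simp only; rw [if_pos hx]
  have hχ0 : ∀ x, ¬ IsCoprime x (M : 𝓞 K) → χ x = 0 := by
    intro x hx
    rw [hχ]; simp only; rw [if_neg hx]
  have hcopper : ∀ x y : 𝓞 K, IsCoprime (x + M * y) (M : 𝓞 K) ↔ IsCoprime x (M : 𝓞 K) :=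
    fun x y => IsCoprime.add_mul_left_left_iff
  have hχsq : ∀ x, IsCoprime x (M : 𝓞 K) → χ x * χ x = 1 := by
    intro x hx
    have hx0 : (x : K) ≠ 0 := by exact_mod_cast ne_zero_of_coprime hM hx
    rw [hχ1 x hx]
    have h1 := CC_sq d M hMq hx
    have h2 := sgv_prod_sq R hx0
    calc _ = (CC d M x * CC d M x) * ((∏ w ∈ R, sgv w (x : K)) * ∏ w ∈ R, sgv w (x : K)) := by ring
      _ = 1 := by rw [h1, h2, one_mul]
  refine ⟨R, χ, ?_, ?_, ?_, ?_⟩
  · intro x y
    by_cases hx : IsCoprime x (M : 𝓞 K)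
    · have hx' : IsCoprime (x + M * y) (M : 𝓞 K) := (hcopper x y).mpr hx
      -- a power of `x` congruent to one
      obtain ⟨k, hk, z, hz⟩ : ∃ k : ℕ, 0 < k ∧ ∃ z : 𝓞 K, x ^ (2 * k) = 1 + M * z := by
        have hspan : Ideal.span {(M : 𝓞 K)} ≠ ⊥ := by
          rw [Ne, Ideal.span_singleton_eq_bot]
          exact_mod_cast hM0
        have := finite_quotI hspan
        have hu : IsUnit (Ideal.Quotient.mk (Ideal.span {(M : 𝓞 K)}) x) := by
          obtain ⟨a, b, hab⟩ := hx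
          refine IsUnit.of_mul_eq_one (Ideal.Quotient.mk _ a) ?_
          rw [← map_mul, ← map_one (Ideal.Quotient.mk (Ideal.span {(M : 𝓞 K)})),
            Ideal.Quotient.eq, Ideal.mem_span_singleton]
          exact ⟨-b, by linear_combination hab⟩
        obtain ⟨U, hU⟩ := hu
        obtain ⟨k, hk, hk1⟩ := (isOfFinOrder_of_finite U).exists_pow_eq_one
        refine ⟨k, hk, ?_⟩
        have h1 : Ideal.Quotient.mk (Ideal.span {(M : 𝓞 K)}) (x ^ (2 * k))
            = Ideal.Quotient.mk (Ideal.span {(M : 𝓞 K)}) 1 := by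
          rw [map_pow, ← hU, mul_comm, pow_mul, ← Units.val_pow_eq_pow_val, hk1, map_one]
          simp
        rw [Ideal.Quotient.eq, Ideal.mem_span_singleton] at h1
        obtain ⟨z, hz⟩ := h1
        exact ⟨z, by rw [← hz]; ring⟩
      set v : 𝓞 K := (x + M * y) * x ^ (2 * k - 1) with hv
      have hv1 : ∃ z : 𝓞 K, v = 1 + M * z := by
        refine ⟨z + y * x ^ (2 * k - 1), ?_⟩
        have h1 : x ^ (2 * k) = x * x ^ (2 * k - 1) := by
          rw [← pow_succ']; congr 1; omega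
        rw [hv, add_mul, ← h1, hz]
        ring
      have h1 := hH v hv1
      rw [hv, CC_mul d M hM, CC_pow d M hM] at h1
      have h2 : (((x + M * y) * x ^ (2 * k - 1) : 𝓞 K) : K)
          = ((x + M * y : 𝓞 K) : K) * (x : K) ^ (2 * k - 1) := by
        simp only [RingOfIntegers.coe_eq_algebraMap, map_mul, map_pow]
      rw [h2, sgv_prod_mul, sgv_prod_pow] at h1
      have hodd : ∀ c : ℂ, c * c = 1 → c ^ (2 * k - 1) = c := by
        intro c hc
        have : 2 * k - 1 = 2 * (k - 1) + 1 := by omega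
        rw [this, pow_succ, pow_mul, sq, hc, one_pow, one_mul]
      have hx0 : (x : K) ≠ 0 := by exact_mod_cast ne_zero_of_coprime hM hx
      rw [hodd _ (CC_sq d M hMq hx), hodd _ (sgv_prod_sq R hx0)] at h1
      have h3 := hχsq x hx
      have h4 := hχsq (x + M * y) hx'
      have h5 := CC_sq d M hMq hx
      have h7 := sgv_prod_sq R hx0
      rw [hχ1 x hx, hχ1 _ hx']
      set A := CC d M (x + M * y)
      set B := CC d M x
      set S := ∏ w ∈ R, sgv w ((x + M * y : 𝓞 K) : K)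
      set T := ∏ w ∈ R, sgv w (x : K)
      have h6 := CC_sq d M hMq hx'
      have h8 : S * S = 1 := sgv_prod_sq R (by exact_mod_cast ne_zero_of_coprime hM hx')
      calc A * S = A * (B * B) * S := by rw [h5, mul_one]
        _ = (A * B) * B * S := by ring
        _ = (S * T) * B * S := by rw [h1]
        _ = (S * S) * (B * T) := by ring
        _ = B * T := by rw [h8, one_mul]
    · rw [hχ0 x hx, hχ0 _ (fun h => hx ((hcopper x y).mp h))]
  · intro x
    by_cases hx : IsCoprime x (M : 𝓞 K)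
    · have h1 := hχsq x hx
      have h2 : ‖χ x‖ * ‖χ x‖ = 1 := by rw [← norm_mul, h1, norm_one]
      have h3 : 0 ≤ ‖χ x‖ := norm_nonneg _
      nlinarith
    · rw [hχ0 x hx, norm_zero]
      exact zero_le_one
  · apply hχ0
    intro h
    exact ne_zero_of_coprime hM h rfl
  · intro x
    by_cases hx : IsCoprime x (M : 𝓞 K)
    · have hx0 : (x : K) ≠ 0 := by exact_mod_cast ne_zero_of_coprime hM hx
      rw [hχ1 x hx, mul_assoc, sgv_prod_sq R hx0, mul_one]
    · rw [hχ0 x hx, zero_mul, CC_zero_of_not d M hx]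

end Pool.Agent.Helper4
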