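import Mathlib
import Pool.Agent.helper4.IntTheta

/-! # Logarithmic coordinates of a number field -/

open MeasureTheory Filter Topology Set

noncomputable section

namespace Pool.Agent.Helper4

/-- substitution `t = exp a` on the half line -/
lemma integral_exp_subst {E : Type*} [NormedAddCommGroup E] [NormedSpace ℝ E] (g : ℝ → E) :
    ∫ a : ℝ, Real.exp a • g (Real.exp a) = ∫ t in Ioi (0 : ℝ), g t := by
  have h := integral_image_eq_integral_abs_deriv_smul (f := Real.exp) (f' := Real.exp)
    (s := univ) MeasurableSet.univ (fun x _ => (Real.hasDerivAt_exp x).hasDerivWithinAt)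
    (fun x _ y _ hxy => Real.exp_injective hxy) g
  have him : Real.exp '' univ = Ioi 0 := by rw [image_univ, Real.range_exp]
  rw [him, Measure.restrict_univ] at h
  rw [h]
  simp only [abs_of_pos (Real.exp_pos _)]

lemma integrable_exp_subst {E : Type*} [NormedAddCommGroup E] [NormedSpace ℝ E] (g : ℝ → E) :
    Integrable (fun a : ℝ => Real.exp a • g (Real.exp a)) ↔ IntegrableOn g (Ioi (0 : ℝ)) := by
  have h := integrableOn_image_iff_integrableOn_abs_deriv_smul (f := Real.exp) (f' := Real.exp)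
    (s := univ) MeasurableSet.univ (fun x _ => (Real.hasDerivAt_exp x).hasDerivWithinAt)
    (fun x _ y _ hxy => Real.exp_injective hxy) g
  have him : Real.exp '' univ = Ioi 0 := by rw [image_univ, Real.range_exp]
  rw [him, integrableOn_univ] at h
  rw [h]
  simp only [abs_of_pos (Real.exp_pos _)]

lemma cpow_exp (a : ℝ) (w : ℂ) : ((Real.exp a : ℝ) : ℂ) ^ w = Complex.exp (w * a) := by
  rw [Complex.cpow_def_of_ne_zero
    (by exact_mod_cast (Real.exp_pos _).ne'), ← Complex.ofReal_log (Real.exp_pos _).le,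
    Real.log_exp, mul_comm]

/-- one-dimensional Gamma integral in logarithmic coordinates -/
lemma integral_exp_gamma (z : ℂ) (hz : 0 < z.re) (b : ℝ) (hb : 0 < b) :
    ∫ a : ℝ, Complex.exp (z * a - b * Real.exp a) = (1 / (b : ℂ)) ^ z * Complex.Gamma z := by
  rw [← Complex.integral_cpow_mul_exp_neg_mul_Ioi hz hb, ← integral_exp_subst]
  congr 1
  ext a
  rw [cpow_exp, Complex.real_smul, Complex.ofReal_exp, ← Complex.exp_add, ← Complex.exp_add]
  congr 1
  ring

lemma integrable_exp_gamma (z : ℂ) (hz : 0 < z.re) (b : ℝ) (hb : 0 < b) :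
    Integrable (fun a : ℝ => Complex.exp (z * a - b * Real.exp a)) := by
  have h1 : (fun a : ℝ => Complex.exp (z * a - b * Real.exp a)) = fun a : ℝ =>
      Real.exp a • ((fun t : ℝ => (t : ℂ) ^ (z - 1) * Complex.exp (-(b * t))) (Real.exp a)) := by
    ext a
    simp only
    rw [cpow_exp, Complex.real_smul, Complex.ofReal_exp, ← Complex.exp_add, ← Complex.exp_add]
    congr 1
    ring
  rw [h1]
  refine (integrable_exp_subst (fun t : ℝ => (t : ℂ) ^ (z - 1) * Complex.exp (-(b * t)))).mpr ?_
  have hreal : IntegrableOn (fun t : ℝ => t ^ (z.re - 1) * Real.exp (-b * t ^ (1 : ℝ))) (Ioi 0) :=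
    integrableOn_rpow_mul_exp_neg_mul_rpow (by linarith) one_pos hb
  refine Integrable.mono' hreal ?_ ?_
  · refine ContinuousOn.aestronglyMeasurable ?_ measurableSet_Ioi
    intro t ht
    have h2 : ContinuousAt (fun t : ℝ => (t : ℂ) ^ (z - 1)) t :=
      Complex.continuousAt_ofReal_cpow_const _ _ (Or.inr (ne_of_gt ht))
    refine (h2.mul ?_).continuousWithinAt
    fun_prop
  · rw [ae_restrict_iff' measurableSet_Ioi]
    refine ae_of_all _ fun t ht => ?_
    rw [norm_mul, Complex.norm_cpow_eq_rpow_re_of_pos ht, Complex.norm_exp]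
    simp

open NumberField NumberField.Units NumberField.InfinitePlace NumberField.mixedEmbedding
  NumberField.Units.dirichletUnitTheorem

variable (K : Type*) [Field K] [NumberField K]

open scoped Classical

/-- index type of the logarithmic space -/
abbrev LogIdx : Type _ := {w : InfinitePlace K // w ≠ w₀}

/-- the functional `2 log y_w` -/
def ell (w : InfinitePlace K) : (LogIdx K → ℝ) →ₗ[ℝ] ℝ :=
  if h : w = w₀ then
    (-(2 / (mult (w₀ : InfinitePlace K) : ℝ))) • ∑ v : LogIdx K, LinearMap.proj v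
  else (2 / (mult w : ℝ)) • LinearMap.proj ⟨w, h⟩

lemma ell_w0 (u : LogIdx K → ℝ) :
    ell K w₀ u = -(2 / (mult (w₀ : InfinitePlace K) : ℝ)) * ∑ v : LogIdx K, u v := by
  simp [ell]

lemma ell_ne (w : InfinitePlace K) (h : w ≠ w₀) (u : LogIdx K → ℝ) :
    ell K w u = (2 / (mult w : ℝ)) * u ⟨w, h⟩ := by
  simp [ell, h]

lemma mult_pos_real (w : InfinitePlace K) : (0 : ℝ) < mult w := by
  exact_mod_cast mult_pos

lemma sum_mult_ell (u : LogIdx K → ℝ) : ∑ w, (mult w : ℝ) * ell K w u = 0 := by
  rw [Fintype.sum_eq_add_sum_subtype_ne _ w₀, ell_w0]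
  have h1 : ∀ v : LogIdx K, (mult v.1 : ℝ) * ell K v.1 u = 2 * u v := by
    intro v
    rw [ell_ne K v.1 v.2 u]
    have := (mult_pos_real K v.1).ne'
    field_simp
  simp_rw [h1]
  rw [← Finset.mul_sum]
  have := (mult_pos_real K w₀).ne'
  field_simp
  ring

lemma ell_logEmbedding (w : InfinitePlace K) (ε : (𝓞 K)ˣ) :
    ell K w (logEmbedding K (Additive.ofMul ε)) = 2 * Real.log (w (ε : K)) := by
  by_cases h : w = w₀
  · subst h
    rw [ell_w0, sum_logEmbedding_component]
    have := (mult_pos_real K w₀).ne'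
    field_simp
  · rw [ell_ne K w h, logEmbedding_component]
    have := (mult_pos_real K w).ne'
    field_simp

lemma exp_ell_logEmbedding (w : InfinitePlace K) (ε : (𝓞 K)ˣ) :
    Real.exp (ell K w (logEmbedding K (Additive.ofMul ε))) = (w (ε : K)) ^ 2 := by
  rw [ell_logEmbedding]
  have hpos : 0 < w (ε : K) := NumberField.Units.pos_at_place ε w
  rw [show 2 * Real.log (w (ε : K)) = Real.log (w (ε : K)) + Real.log (w (ε : K)) by ring,
    Real.exp_add, Real.exp_log hpos]
  ring

/-- The positive quadratic form `∑_w exp(ℓ_w(u)) |x|_w²`. -/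
def QQ (x : K) (u : LogIdx K → ℝ) : ℝ := ∑ w : InfinitePlace K, Real.exp (ell K w u) * (w x) ^ 2

lemma QQ_unit_mul (x : K) (ε : (𝓞 K)ˣ) (u : LogIdx K → ℝ) :
    QQ K ((ε : K) * x) u = QQ K x (u + logEmbedding K (Additive.ofMul ε)) := by
  unfold QQ
  refine Finset.sum_congr rfl fun w _ => ?_
  rw [map_add, Real.exp_add, exp_ell_logEmbedding, map_mul]
  ring

lemma QQ_nonneg (x : K) (u : LogIdx K → ℝ) : 0 ≤ QQ K x u :=
  Finset.sum_nonneg fun _ _ => by positivity

/-- the linear map `(a, u) ↦ (a + ℓ_w(u))_w` -/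
def logT : (ℝ × (LogIdx K → ℝ)) →ₗ[ℝ] (InfinitePlace K → ℝ) :=
  LinearMap.pi fun w => LinearMap.fst ℝ ℝ (LogIdx K → ℝ) + (ell K w).comp (LinearMap.snd ℝ ℝ _)

lemma logT_apply (p : ℝ × (LogIdx K → ℝ)) (w : InfinitePlace K) :
    logT K p w = p.1 + ell K w p.2 := rfl

lemma sum_mult_logT (p : ℝ × (LogIdx K → ℝ)) :
    ∑ w, (mult w : ℝ) * logT K p w = (Module.finrank ℚ K : ℝ) * p.1 := by
  simp_rw [logT_apply, mul_add]
  rw [Finset.sum_add_distrib, sum_mult_ell, add_zero, ← Finset.sum_mul]
  congr 1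
  exact_mod_cast InfinitePlace.sum_mult_eq

lemma logT_injective : Function.Injective (logT K) := by
  rw [← LinearMap.ker_eq_bot, LinearMap.ker_eq_bot']
  rintro ⟨a, u⟩ h
  have h1 : (Module.finrank ℚ K : ℝ) * a = 0 := by
    rw [← sum_mult_logT K (a, u), h]
    simp
  have h2 : (Module.finrank ℚ K : ℝ) ≠ 0 := by
    have : 0 < Module.finrank ℚ K := Module.finrank_pos
    exact_mod_cast this.ne'
  have ha : a = 0 := by
    rcases mul_eq_zero.mp h1 with h | h
    · exact absurd h h2
    · exact h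
  subst ha
  congr 1
  ext v
  have h3 := congrFun h v.1
  rw [logT_apply, ell_ne K v.1 v.2] at h3
  simp only [zero_add, Pi.zero_apply] at h3
  have h4 := (mult_pos_real K v.1)
  have h5 : (2 / (mult v.1 : ℝ)) ≠ 0 := by positivity
  rcases mul_eq_zero.mp h3 with h | h
  · exact absurd h h5
  · exact h

lemma finrank_source : Module.finrank ℝ (ℝ × (LogIdx K → ℝ))
    = Module.finrank ℝ (InfinitePlace K → ℝ) := by
  rw [Module.finrank_prod, Module.finrank_self, Module.finrank_fintype_fun_eq_card,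
    Module.finrank_fintype_fun_eq_card]
  have h := Fintype.card_subtype_compl (fun w : InfinitePlace K => w = w₀)
  have h2 : Fintype.card {w : InfinitePlace K // w = w₀} = 1 := Fintype.card_unique
  have h3 : 0 < Fintype.card (InfinitePlace K) := Fintype.card_pos
  rw [h2] at h
  have h4 : Fintype.card (LogIdx K) = Fintype.card {w : InfinitePlace K // ¬ w = w₀} := by
    apply Fintype.card_congr
    exact Equiv.refl _
  rw [h4, h]
  omega

/-- `logT` as a continuous linear equivalence -/
def logTE : (ℝ × (LogIdx K → ℝ)) ≃L[ℝ] (InfinitePlace K → ℝ) :=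
  (LinearEquiv.ofInjectiveOfFinrankEq (logT K) (logT_injective K)
    (finrank_source K)).toContinuousLinearEquiv

lemma logTE_apply (p : ℝ × (LogIdx K → ℝ)) : logTE K p = logT K p := rfl

/-- the measure constant -/
lemma exists_const : ∃ C : NNReal, 0 < C ∧
    (volume : Measure (ℝ × (LogIdx K → ℝ))).map (logTE K) = C • volume := by
  have h1 : (volume : Measure (ℝ × (LogIdx K → ℝ))).IsAddHaarMeasure := by
    rw [Measure.volume_eq_prod]; infer_instance
  have h2 : ((volume : Measure (ℝ × (LogIdx K → ℝ))).map (logTE K)).IsAddHaarMeasure :=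
    (logTE K).isAddHaarMeasure_map volume
  exact ⟨_, Measure.addHaarScalarFactor_pos_of_isAddHaarMeasure _ _,
    Measure.isAddLeftInvariant_eq_smul _ _⟩

end Pool.Agent.Helper4
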