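import Mathlib
import Pool.Agent.helper4.LogCoord

/-! # The Gamma integral attached to a number field and unfolding over units -/

open MeasureTheory Filter Topology Set

noncomputable section

namespace Pool.Agent.Helper4

open NumberField NumberField.Units NumberField.InfinitePlace NumberField.mixedEmbedding
  NumberField.Units.dirichletUnitTheorem

variable (K : Type*) [Field K] [NumberField K]

open scoped Classical

/-- The Jacobian constant. -/
def cst : NNReal := (exists_const K).choose

lemma cst_pos : 0 < cst K := (exists_const K).choose_spec.1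

lemma map_logTE : (volume : Measure (ℝ × (LogIdx K → ℝ))).map (logTE K) = cst K • volume :=
  (exists_const K).choose_spec.2

/-- product of exponentials -/
def HH (z : InfinitePlace K → ℂ) (b : InfinitePlace K → ℝ) (τ : InfinitePlace K → ℝ) : ℂ :=
  ∏ v, Complex.exp (z v * τ v - b v * Real.exp (τ v))

lemma integral_HH (z : InfinitePlace K → ℂ) (hz : ∀ v, 0 < (z v).re) (b : InfinitePlace K → ℝ)
    (hb : ∀ v, 0 < b v) :
    ∫ τ, HH K z b τ = ∏ v, ((1 / (b v : ℂ)) ^ (z v) * Complex.Gamma (z v)) := by
  unfold HH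
  rw [integral_fintype_prod_volume_eq_prod (fun v (a : ℝ) =>
    Complex.exp (z v * a - b v * Real.exp a))]
  exact Finset.prod_congr rfl fun v _ => integral_exp_gamma (z v) (hz v) (b v) (hb v)

lemma integrable_HH (z : InfinitePlace K → ℂ) (hz : ∀ v, 0 < (z v).re) (b : InfinitePlace K → ℝ)
    (hb : ∀ v, 0 < b v) : Integrable (HH K z b) := by
  unfold HH
  exact Integrable.fintype_prod (f := fun v (a : ℝ) =>
    Complex.exp (z v * a - b v * Real.exp a)) fun v => integrable_exp_gamma (z v) (hz v) (b v) (hb v)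

/-- exponents -/
def zz (w : ℂ) (v : InfinitePlace K) : ℂ := w * (mult v : ℂ) / (Module.finrank ℚ K : ℂ)

lemma finrank_pos_real : (0 : ℝ) < (Module.finrank ℚ K : ℝ) := by
  exact_mod_cast Module.finrank_pos (R := ℚ) (M := K)

lemma zz_re (w : ℂ) (hw : 0 < w.re) (v : InfinitePlace K) : 0 < (zz K w v).re := by
  have h : zz K w v = w * (((mult v : ℝ) / (Module.finrank ℚ K : ℝ) : ℝ) : ℂ) := by
    unfold zz
    push_cast
    ring
  rw [h, Complex.re_mul_ofReal]
  have := mult_pos_real K v
  have := finrank_pos_real K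
  positivity

/-- the function on `ℝ × W` -/
def FF (w : ℂ) (x : K) (p : ℝ × (LogIdx K → ℝ)) : ℂ :=
  Complex.exp (w * p.1) * ((Real.exp (-Real.pi * (Real.exp p.1 * QQ K x p.2)) : ℝ) : ℂ)

lemma FF_eq (w : ℂ) (x : K) (p : ℝ × (LogIdx K → ℝ)) :
    FF K w x p = HH K (zz K w) (fun v => Real.pi * (v x) ^ 2) (logTE K p) := by
  unfold FF HH
  rw [← Complex.exp_sum, Complex.ofReal_exp, ← Complex.exp_add]
  congr 1
  rw [Finset.sum_sub_distrib, sub_eq_add_neg]
  congr 1
  · have h := sum_mult_logT K p
    have h2 : ∑ v, zz K w v * (logTE K p v : ℂ)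
        = w / (Module.finrank ℚ K : ℂ) * ((∑ v, (mult v : ℝ) * logT K p v : ℝ) : ℂ) := by
      push_cast
      rw [Finset.mul_sum]
      refine Finset.sum_congr rfl fun v _ => ?_
      rw [logTE_apply]
      unfold zz
      ring
    rw [h2, h]
    have h3 : (Module.finrank ℚ K : ℂ) ≠ 0 := by
      exact_mod_cast (Module.finrank_pos (R := ℚ) (M := K)).ne'
    push_cast
    field_simp
  · rw [QQ, ← Finset.sum_neg_distrib]
    push_cast
    rw [Finset.mul_sum, Finset.mul_sum]
    refine Finset.sum_congr rfl fun v _ => ?_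
    rw [logTE_apply, logT_apply]
    push_cast
    rw [Complex.exp_add]
    ring

lemma integrable_FF (w : ℂ) (hw : 0 < w.re) (x : K) (hx : x ≠ 0) : Integrable (FF K w x) := by
  have h1 : FF K w x = fun p => HH K (zz K w) (fun v => Real.pi * (v x) ^ 2) (logTE K p) :=
    funext (FF_eq K w x)
  rw [h1]
  have hb : ∀ v : InfinitePlace K, 0 < Real.pi * (v x) ^ 2 := by
    intro v
    have : 0 < v x := by rw [InfinitePlace.pos_iff]; exact hx
    positivity
  have h2 := integrable_HH K (zz K w) (zz_re K w hw) _ hb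
  have h3 : Integrable (HH K (zz K w) fun v => Real.pi * (v x) ^ 2)
      ((volume : Measure (ℝ × (LogIdx K → ℝ))).map (logTE K)) := by
    rw [map_logTE]
    exact h2.smul_measure_nnreal
  exact ((logTE K).toHomeomorph.measurableEmbedding.integrable_map_iff).mp h3

lemma integral_FF (w : ℂ) (hw : 0 < w.re) (x : K) (hx : x ≠ 0) :
    ∫ p, FF K w x p = ((cst K : ℝ) : ℂ) * ∏ v : InfinitePlace K,
      ((1 / ((Real.pi * (v x) ^ 2 : ℝ) : ℂ)) ^ (zz K w v) * Complex.Gamma (zz K w v)) := by
  have hb : ∀ v : InfinitePlace K, 0 < Real.pi * (v x) ^ 2 := by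
    intro v
    have : 0 < v x := by rw [InfinitePlace.pos_iff]; exact hx
    positivity
  simp_rw [FF_eq]
  have h1 := (logTE K).toHomeomorph.measurableEmbedding.integral_map
    (μ := (volume : Measure (ℝ × (LogIdx K → ℝ)))) (HH K (zz K w) fun v => Real.pi * (v x) ^ 2)
  have h2 : (volume : Measure (ℝ × (LogIdx K → ℝ))).map (logTE K).toHomeomorph
      = cst K • volume := map_logTE K
  rw [h2] at h1
  have h3 : ∫ p, HH K (zz K w) (fun v => Real.pi * (v x) ^ 2) (logTE K p)
      = ∫ y, HH K (zz K w) (fun v => Real.pi * (v x) ^ 2) y ∂(cst K • volume) := h1.symm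
  rw [h3, integral_smul_nnreal_measure, integral_HH K (zz K w) (zz_re K w hw) _ hb]
  rw [NNReal.smul_def, Complex.real_smul]

/-- Fundamental domain for the unit lattice. -/
def DD : Set (LogIdx K → ℝ) :=
  ZSpan.fundamentalDomain ((basisUnitLattice K).ofZLatticeBasis ℝ (unitLattice K))

lemma DD_bounded : Bornology.IsBounded (DD K) := ZSpan.fundamentalDomain_isBounded _

lemma DD_measurable : MeasurableSet (DD K) := ZSpan.fundamentalDomain_measurableSet _

lemma DD_fund : IsAddFundamentalDomain (unitLattice K) (DD K) volume :=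
  ZLattice.isAddFundamentalDomain (basisUnitLattice K) volume

/-- one term of the unfolded sum -/
def GG (w : ℂ) (x : K) (l : LogIdx K → ℝ) (a : ℝ) : ℂ :=
  Complex.exp (w * a) * ((∫ u in DD K, Real.exp (-Real.pi * (Real.exp a * QQ K x (u + l))) : ℝ) : ℂ)

lemma continuous_QQ (x : K) : Continuous (QQ K x) := by
  unfold QQ
  refine continuous_finsetSum _ fun w _ => ?_
  have : Continuous (ell K w : (LogIdx K → ℝ) → ℝ) := LinearMap.continuous_of_finiteDimensional _
  fun_prop

lemma GG_eq (w : ℂ) (x : K) (l : LogIdx K → ℝ) (a : ℝ) :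
    GG K w x l a = ∫ u in DD K, FF K w x (a, u + l) := by
  unfold GG FF
  simp only
  rw [integral_const_mul]
  congr 1
  exact (integral_ofReal (𝕜 := ℂ)).symm

lemma integrable_GG (w : ℂ) (hw : 0 < w.re) (x : K) (hx : x ≠ 0) (l : LogIdx K → ℝ) :
    Integrable (GG K w x l) := by
  have h0 : (volume : Measure (ℝ × (LogIdx K → ℝ))).IsAddHaarMeasure := by
    rw [Measure.volume_eq_prod]; infer_instance
  have h1 := (integrable_FF K w hw x hx).comp_add_right ((0, l) : ℝ × (LogIdx K → ℝ))
  have h2 : Integrable (fun p : ℝ × (LogIdx K → ℝ) => FF K w x (p + (0, l)))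
      ((volume : Measure ℝ).prod (volume.restrict (DD K))) := by
    have h3 : (volume : Measure ℝ).prod ((volume : Measure (LogIdx K → ℝ)).restrict (DD K))
        = ((volume : Measure ℝ).prod (volume : Measure (LogIdx K → ℝ))).restrict
          (univ ×ˢ DD K) := by
      rw [← Measure.prod_restrict, Measure.restrict_univ]
    rw [h3]
    exact Integrable.restrict h1
  have h4 := h2.integral_prod_left
  refine h4.congr ?_
  refine ae_of_all _ fun a => ?_
  rw [GG_eq]
  simp only [Prod.mk_add_mk, add_zero]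

instance vaddInvariant_unitLattice :
    VAddInvariantMeasure (unitLattice K) (LogIdx K → ℝ) volume := by
  refine ⟨fun c s _ => ?_⟩
  exact measure_preimage_add volume (c : LogIdx K → ℝ) s

/-- Unfolding over the unit lattice. -/
lemma hasSum_GG (w : ℂ) (hw : 0 < w.re) (x : K) (hx : x ≠ 0)
    (hs : Summable fun l : unitLattice K => ∫ a, ‖GG K w x l.1 a‖) :
    HasSum (fun l : unitLattice K => ∫ a, GG K w x l.1 a) (∫ p, FF K w x p) := by
  have h1 := hasSum_integral_of_summable_integral_norm
    (F := fun (l : unitLattice K) (a : ℝ) => GG K w x l.1 a)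
    (fun l => integrable_GG K w hw x hx l.1) hs
  have hFF : Integrable (FF K w x) ((volume : Measure ℝ).prod
      (volume : Measure (LogIdx K → ℝ))) := integrable_FF K w hw x hx
  have h2 : ∫ p, FF K w x p = ∫ a, ∫ u, FF K w x (a, u) := by
    rw [Measure.volume_eq_prod, integral_prod _ hFF]
  rw [h2]
  have h3 : ∫ a, ∫ u, FF K w x (a, u) = ∫ a, ∑' l : unitLattice K, GG K w x l.1 a := by
    refine integral_congr_ae ?_
    filter_upwards [hFF.prod_right_ae] with a ha
    rw [(DD_fund K).integral_eq_tsum'' (fun u => FF K w x (a, u)) ha]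
    refine tsum_congr fun l => ?_
    rw [GG_eq]
    congr 1
    ext u
    congr 2
    rw [Submodule.vadd_def, vadd_eq_add, add_comm]
  rw [h3]
  exact h1

end Pool.Agent.Helper4
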