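import Mathlib
import Pool.Agent.helper4.NFIntegral

/-! # Theta functions of ideals -/

open MeasureTheory Filter Topology Set

noncomputable section

namespace Pool.Agent.Helper4

open NumberField NumberField.Units NumberField.InfinitePlace NumberField.mixedEmbedding
  NumberField.Units.dirichletUnitTheorem nonZeroDivisors

variable (K : Type*) [Field K] [NumberField K]

open scoped Classical

/-- place of a real coordinate -/
def placeOf : index K → InfinitePlace K
  | Sum.inl w => w.1
  | Sum.inr (w, _) => w.1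

/-- the functionals in the coordinates -/
def lam (j : index K) : (LogIdx K → ℝ) →ₗ[ℝ] ℝ := ell K (placeOf K j)

/-- Splitting of a sum over places. -/
lemma sum_places (f : InfinitePlace K → ℝ) :
    ∑ w, f w = ∑ w : {w : InfinitePlace K // IsReal w}, f w.1
      + ∑ w : {w : InfinitePlace K // IsComplex w}, f w.1 := by
  rw [← Fintype.sum_subtype_add_sum_subtype (fun w : InfinitePlace K => IsReal w) f]
  congr 1
  exact Fintype.sum_equiv (Equiv.subtypeEquivRight fun w => not_isReal_iff_isComplex) _ _
    (fun w => rfl)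

/-- Sums over the coordinates of functions of the place -/
lemma sum_index (f : InfinitePlace K → ℝ) :
    ∑ j : index K, f (placeOf K j) = ∑ w : InfinitePlace K, (mult w : ℝ) * f w := by
  rw [sum_places, Fintype.sum_sum_type, Fintype.sum_prod_type]
  congr 1
  · refine Finset.sum_congr rfl fun w _ => ?_
    rw [mult_isReal w]
    simp [placeOf]
  · refine Finset.sum_congr rfl fun w _ => ?_
    rw [mult_isComplex w, Fin.sum_univ_two]
    simp only [placeOf]
    push_cast
    ring

lemma sum_lam (u : LogIdx K → ℝ) : ∑ j, lam K j u = 0 := by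
  unfold lam
  rw [sum_index K (fun w => ell K w u), sum_mult_ell]

/-- The quadratic form in coordinates. -/
lemma sum_sq_repr (c : InfinitePlace K → ℝ) (X : mixedSpace K) :
    ∑ j : index K, c (placeOf K j) * ((stdBasis K).repr X j) ^ 2
      = ∑ w : InfinitePlace K, c w * (normAtPlace w X) ^ 2 := by
  rw [sum_places, Fintype.sum_sum_type, Fintype.sum_prod_type]
  congr 1
  · refine Finset.sum_congr rfl fun w _ => ?_
    rw [stdBasis_apply_isReal, normAtPlace_apply_of_isReal w.2]
    simp [placeOf]
  · refine Finset.sum_congr rfl fun w _ => ?_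
    rw [Fin.sum_univ_two, stdBasis_apply_isComplex_fst, stdBasis_apply_isComplex_snd,
      normAtPlace_apply_of_isComplex w.2]
    simp only [placeOf]
    rw [← Complex.normSq_eq_norm_sq, Complex.normSq_apply]
    ring

variable (b : (Ideal (𝓞 K))⁰)

/-- the ideal as a fractional ideal -/
def fr : (FractionalIdeal (𝓞 K)⁰ K)ˣ := FractionalIdeal.mk0 K b

/-- index equivalence -/
def eI : Module.Free.ChooseBasisIndex ℤ (fr K b) ≃ index K :=
  (fractionalIdealLatticeBasis K (fr K b)).indexEquiv (stdBasis K)

/-- the matrix of the lattice -/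
def BB : Matrix (index K) (index K) ℝ :=
  (stdBasis K).toMatrix ((fractionalIdealLatticeBasis K (fr K b)).reindex (eI K b))

lemma BB_det : (BB K b).det ≠ 0 := by
  have := (stdBasis K).isUnit_det ((fractionalIdealLatticeBasis K (fr K b)).reindex (eI K b))
  rw [Module.Basis.det_apply] at this
  exact this.ne_zero

/-- the element of the ideal with given coordinates -/
def elt (m : index K → ℤ) : K :=
  ∑ k, (m k) • basisOfFractionalIdeal K (fr K b) ((eI K b).symm k)

lemma BB_mulVec (m : index K → ℤ) (j : index K) :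
    (BB K b).mulVec (castVec m) j = (stdBasis K).repr (mixedEmbedding K (elt K b m)) j := by
  unfold elt
  rw [map_sum, map_sum, Finset.sum_apply']
  unfold Matrix.mulVec dotProduct
  refine Finset.sum_congr rfl fun k _ => ?_
  rw [map_zsmul, map_zsmul]
  simp only [BB, Module.Basis.toMatrix_apply, Module.Basis.coe_reindex, Function.comp_apply,
    fractionalIdealLatticeBasis_apply, castVec_apply, Finsupp.smul_apply, zsmul_eq_mul]
  ring

lemma quad_BB (m : index K → ℤ) (t : ℝ) (u : LogIdx K → ℝ) :
    quad (BB K b) (cvec (lam K) t u) (castVec m) = t * QQ K (elt K b m) u := by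
  unfold quad cvec QQ lam
  simp_rw [BB_mulVec]
  have h := sum_sq_repr K (fun w => t * Real.exp (ell K w u)) (mixedEmbedding K (elt K b m))
  rw [h, Finset.mul_sum]
  refine Finset.sum_congr rfl fun w _ => ?_
  rw [normAtPlace_apply]
  ring

lemma elt_injective : Function.Injective (elt K b) := by
  intro m n hmn
  have h : (BB K b).mulVec (castVec m) = (BB K b).mulVec (castVec n) := by
    ext j
    rw [BB_mulVec, BB_mulVec, hmn]
  apply castVec_injective
  have h2 := congrArg ((BB K b)⁻¹.mulVec) h
  simpa [Matrix.mulVec_mulVec, Matrix.nonsing_inv_mul _ (isUnit_iff_ne_zero.mpr (BB_det K b))]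
    using h2

lemma mem_fr_iff (x : K) : x ∈ ((fr K b : (FractionalIdeal (𝓞 K)⁰ K)ˣ) : FractionalIdeal (𝓞 K)⁰ K)
    ↔ ∃ y : 𝓞 K, y ∈ (b : Ideal (𝓞 K)) ∧ (y : K) = x := by
  unfold fr
  rw [FractionalIdeal.coe_mk0, FractionalIdeal.mem_coeIdeal]

lemma elt_mem (m : index K → ℤ) : ∃ y : 𝓞 K, y ∈ (b : Ideal (𝓞 K)) ∧ (y : K) = elt K b m := by
  rw [← mem_fr_iff]
  have : elt K b m ∈ Submodule.span ℤ (Set.range (basisOfFractionalIdeal K (fr K b))) := by
    unfold elt
    exact Submodule.sum_mem _ fun k _ => Submodule.smul_mem _ _ (Submodule.subset_span ⟨_, rfl⟩)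
  exact (mem_span_basisOfFractionalIdeal K).mp this

lemma exists_elt (y : 𝓞 K) (hy : y ∈ (b : Ideal (𝓞 K))) : ∃ m, elt K b m = y := by
  have h1 : (y : K) ∈ Submodule.span ℤ (Set.range (basisOfFractionalIdeal K (fr K b))) :=
    (mem_span_basisOfFractionalIdeal K).mpr ((mem_fr_iff K b y).mpr ⟨y, hy, rfl⟩)
  rw [Submodule.mem_span_range_iff_exists_fun] at h1
  obtain ⟨c, hc⟩ := h1
  refine ⟨fun k => c ((eI K b).symm k), ?_⟩
  rw [← hc]
  unfold elt
  exact Equiv.sum_comp (eI K b).symm (fun i => c i • basisOfFractionalIdeal K (fr K b) i)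

/-- nonzero elements of an ideal -/
abbrev NZ : Type _ := {x : 𝓞 K // x ∈ (b : Ideal (𝓞 K)) ∧ x ≠ 0}

/-- Coordinates of nonzero elements. -/
def coordEquiv : {m : index K → ℤ // m ≠ 0} ≃ NZ K b :=
  Equiv.ofBijective (fun m => ⟨(elt_mem K b m.1).choose, (elt_mem K b m.1).choose_spec.1, by
    intro h
    apply m.2
    apply elt_injective K b
    rw [← (elt_mem K b m.1).choose_spec.2, h]
    simp [elt]⟩) (by
    constructor
    · intro m n hmn
      have h : (elt_mem K b m.1).choose = (elt_mem K b n.1).choose := congrArg Subtype.val hmn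
      apply Subtype.ext
      apply elt_injective K b
      rw [← (elt_mem K b m.1).choose_spec.2, ← (elt_mem K b n.1).choose_spec.2, h]
    · rintro ⟨y, hy, hy0⟩
      obtain ⟨m, hm⟩ := exists_elt K b y hy
      have hm0 : m ≠ 0 := by
        rintro rfl
        apply hy0
        have : (y : K) = 0 := by rw [← hm]; simp [elt]
        exact_mod_cast this
      refine ⟨⟨m, hm0⟩, ?_⟩
      apply Subtype.ext
      simp only
      have h5 : (((elt_mem K b m).choose : 𝓞 K) : K) = (y : K) :=
        (elt_mem K b m).choose_spec.2.trans hm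
      exact_mod_cast h5)

lemma coordEquiv_coe (m : {m : index K → ℤ // m ≠ 0}) :
    ((coordEquiv K b m).1 : K) = elt K b m.1 := (elt_mem K b m.1).choose_spec.2

end Pool.Agent.Helper4
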