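import Mathlib
import Pool.Agent.helper4.NFTheta

/-! # Hecke's continuation of Dedekind zeta functions -/

open MeasureTheory Filter Topology Set

noncomputable section

namespace Pool.Agent.Helper4

open NumberField NumberField.Units NumberField.InfinitePlace NumberField.mixedEmbedding
  NumberField.Units.dirichletUnitTheorem nonZeroDivisors

variable (K : Type*) [Field K] [NumberField K]

open scoped Classical

lemma card_index : Fintype.card (index K) = Module.finrank ℚ K := by
  rw [← mixedEmbedding.finrank K, Module.finrank_eq_card_basis (stdBasis K)]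

instance nonempty_index : Nonempty (index K) := by
  rw [← Fintype.card_pos_iff, card_index]
  exact Module.finrank_pos

variable (b : (Ideal (𝓞 K))⁰)

/-- FE-pair of an ideal -/
def idealPair : WeakFEPair ℂ :=
  thetaPair (BB K b) (BB_det K b) (lam K) (DD K) (DD_bounded K) (DD_measurable K) (sum_lam K)

lemma mellinTerm_eq (w : ℂ) (m : {m : index K → ℤ // m ≠ 0}) (a : ℝ) :
    Real.exp a • ((((Real.exp a : ℝ) : ℂ) ^ (w - 1)) •
      ((thetaTerm (BB K b) (lam K) (DD K) (castVec m.1) (Real.exp a) : ℝ) : ℂ))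
      = GG K w ((coordEquiv K b m).1 : K) 0 a := by
  unfold thetaTerm GG
  rw [coordEquiv_coe, cpow_exp, Complex.real_smul, smul_eq_mul, ← mul_assoc, Complex.ofReal_exp,
    ← Complex.exp_add]
  congr 1
  · congr 1
    ring
  · congr 2
    ext u
    rw [quad_BB, add_zero]

lemma hasSum_NZ {w : ℂ} (hw : (Module.finrank ℚ K : ℝ) / 2 < w.re) :
    HasSum (fun x : NZ K b => ∫ a, GG K w (x.1 : K) 0 a) ((idealPair K b).Λ w) := by
  have h := hasSum_Lambda (BB K b) (BB_det K b) (lam K) (DD K) (DD_bounded K) (DD_measurable K)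
    (sum_lam K) (w := w) (by rw [card_index]; exact hw)
  rw [← (coordEquiv K b).hasSum_iff]
  refine h.congr_fun ?_ |> fun h => h
  intro m
  rw [← integral_exp_subst]
  simp only [Function.comp_apply]
  congr 1
  ext a
  exact (mellinTerm_eq K b w m a).symm

lemma summable_NZ {w : ℂ} (hw : (Module.finrank ℚ K : ℝ) / 2 < w.re) :
    Summable (fun x : NZ K b => ∫ a, ‖GG K w (x.1 : K) 0 a‖) := by
  have h := summable_mellin_term (BB K b) (BB_det K b) (lam K) (DD K) (DD_bounded K)
    (DD_measurable K) (w := w) (by rw [card_index]; exact hw)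
  rw [← (coordEquiv K b).summable_iff]
  refine h.congr ?_
  intro m
  rw [← integral_exp_subst]
  simp only [Function.comp_apply]
  congr 1
  ext a
  rw [← mellinTerm_eq K b w m a, _root_.norm_smul (Real.exp a), Real.norm_eq_abs,
    abs_of_pos (Real.exp_pos _), smul_eq_mul]

lemma GG_unit_mul (w : ℂ) (x : K) (ε : (𝓞 K)ˣ) (a : ℝ) :
    GG K w ((ε : K) * x) 0 a = GG K w x (logEmbedding K (Additive.ofMul ε)) a := by
  unfold GG
  congr 3
  ext u
  rw [QQ_unit_mul, add_zero]

/-! ### ideals in a class -/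

/-- ideals in the inverse class of `b` -/
abbrev JJ : Type _ := {I : (Ideal (𝓞 K))⁰ // ClassGroup.mk0 I * ClassGroup.mk0 b = 1}

lemma JJ_principal (I : JJ K b) :
    (((I.1 : Ideal (𝓞 K)) * (b : Ideal (𝓞 K))).IsPrincipal) := by
  have h := I.2
  rw [← map_mul] at h
  exact (ClassGroup.mk0_eq_one_iff (I.1 * b).2).mp h

/-- generator -/
def gen (I : JJ K b) : 𝓞 K := (JJ_principal K b I).principal.choose

lemma span_gen (I : JJ K b) :
    Ideal.span {gen K b I} = (I.1 : Ideal (𝓞 K)) * (b : Ideal (𝓞 K)) :=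
  (JJ_principal K b I).principal.choose_spec.symm

lemma coe_ne_bot (I : (Ideal (𝓞 K))⁰) : (I : Ideal (𝓞 K)) ≠ 0 := nonZeroDivisors.coe_ne_zero I

lemma gen_ne_zero (I : JJ K b) : gen K b I ≠ 0 := by
  intro h
  have h2 := span_gen K b I
  rw [h, Ideal.span_singleton_eq_bot.mpr rfl] at h2
  exact mul_ne_zero (coe_ne_bot K I.1) (coe_ne_bot K b) h2.symm

lemma gen_mem (I : JJ K b) : gen K b I ∈ (b : Ideal (𝓞 K)) := by
  have h : gen K b I ∈ (I.1 : Ideal (𝓞 K)) * (b : Ideal (𝓞 K)) := by
    rw [← span_gen K b I]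
    exact Ideal.mem_span_singleton_self _
  have hle : (I.1 : Ideal (𝓞 K)) * (b : Ideal (𝓞 K)) ≤ (b : Ideal (𝓞 K)) := Ideal.mul_le_right
  exact hle h

/-- elements of the ideal as pairs (ideal, unit) -/
def idealUnitEquiv : JJ K b × (𝓞 K)ˣ ≃ NZ K b :=
  Equiv.ofBijective (fun p => ⟨(p.2 : 𝓞 K) * gen K b p.1, Ideal.mul_mem_left _ _ (gen_mem K b p.1),
    mul_ne_zero p.2.ne_zero (gen_ne_zero K b p.1)⟩) (by
    constructor
    · rintro ⟨I, ε⟩ ⟨I', ε'⟩ h
      have h0 : (ε : 𝓞 K) * gen K b I = (ε' : 𝓞 K) * gen K b I' := congrArg Subtype.val h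
      have h1 : Ideal.span {gen K b I} = Ideal.span {gen K b I'} := by
        have e1 : Ideal.span {(ε : 𝓞 K) * gen K b I} = Ideal.span {gen K b I} :=
          Ideal.span_singleton_mul_left_unit ε.isUnit _
        have e2 : Ideal.span {(ε' : 𝓞 K) * gen K b I'} = Ideal.span {gen K b I'} :=
          Ideal.span_singleton_mul_left_unit ε'.isUnit _
        rw [← e1, ← e2, h0]
      rw [span_gen, span_gen] at h1
      have h2 : (I.1 : Ideal (𝓞 K)) = (I'.1 : Ideal (𝓞 K)) :=
        mul_right_cancel₀ (coe_ne_bot K b) h1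
      have h3 : I = I' := Subtype.ext (Subtype.ext h2)
      subst h3
      have h4 : (ε : 𝓞 K) = ε' := mul_right_cancel₀ (gen_ne_zero K b I) h0
      rw [Units.ext h4]
    · rintro ⟨x, hx, hx0⟩
      have hdvd : (b : Ideal (𝓞 K)) ∣ Ideal.span {x} := by
        rw [Ideal.dvd_span_singleton]
        exact hx
      obtain ⟨I, hI⟩ := hdvd
      have hspan0 : Ideal.span {x} ≠ 0 := by
        intro h
        exact hx0 (Ideal.span_singleton_eq_bot.mp h)
      have hI0 : I ≠ 0 := by
        rintro rfl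
        rw [mul_zero] at hI
        exact hspan0 hI
      set I' : (Ideal (𝓞 K))⁰ := ⟨I, mem_nonZeroDivisors_of_ne_zero hI0⟩ with hI'
      have hcl : ClassGroup.mk0 I' * ClassGroup.mk0 b = 1 := by
        rw [← map_mul]
        rw [ClassGroup.mk0_eq_one_iff (I' * b).2]
        have : ((I' * b : (Ideal (𝓞 K))⁰) : Ideal (𝓞 K)) = Ideal.span {x} := by
          rw [hI, mul_comm]; rfl
        rw [this]
        exact ⟨⟨x, rfl⟩⟩
      set J : JJ K b := ⟨I', hcl⟩ with hJ
      have h5 : Ideal.span {gen K b J} = Ideal.span {x} := by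
        rw [span_gen, hI, mul_comm]
      rw [Ideal.span_singleton_eq_span_singleton] at h5
      obtain ⟨ε, hε⟩ := h5
      refine ⟨(J, ε), ?_⟩
      apply Subtype.ext
      simp only
      rw [mul_comm]
      exact hε)

lemma idealUnitEquiv_coe (p : JJ K b × (𝓞 K)ˣ) :
    (((idealUnitEquiv K b p).1 : 𝓞 K) : K) = ((p.2 : 𝓞 K) : K) * (gen K b p.1 : K) := by
  have : (idealUnitEquiv K b p).1 = (p.2 : 𝓞 K) * gen K b p.1 := rfl
  rw [this]
  exact map_mul (algebraMap (𝓞 K) K) _ _

/-! ### units -/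

lemma exists_section (l : unitLattice K) :
    ∃ ε : (𝓞 K)ˣ, logEmbedding K (Additive.ofMul ε) = l.1 := by
  obtain ⟨l, hl⟩ := l
  rw [unitLattice, Submodule.mem_map] at hl
  obtain ⟨ε, -, hε⟩ := hl
  exact ⟨Additive.toMul ε, hε⟩

/-- a section of the logarithmic map -/
def sec (l : unitLattice K) : (𝓞 K)ˣ := (exists_section K l).choose

lemma log_sec (l : unitLattice K) : logEmbedding K (Additive.ofMul (sec K l)) = l.1 :=
  (exists_section K l).choose_spec

lemma log_mem (ε : (𝓞 K)ˣ) : logEmbedding K (Additive.ofMul ε) ∈ unitLattice K := by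
  rw [unitLattice, Submodule.mem_map]
  exact ⟨Additive.ofMul ε, Submodule.mem_top, rfl⟩

lemma log_mul (ε ε' : (𝓞 K)ˣ) : logEmbedding K (Additive.ofMul (ε * ε'))
    = logEmbedding K (Additive.ofMul ε) + logEmbedding K (Additive.ofMul ε') := by
  rw [ofMul_mul, map_add]

/-- units as torsion times lattice -/
def unitEquiv : torsion K × unitLattice K ≃ (𝓞 K)ˣ :=
  Equiv.ofBijective (fun p => p.1.1 * sec K p.2) (by
    have hlog : ∀ p : torsion K × unitLattice K,
        logEmbedding K (Additive.ofMul (p.1.1 * sec K p.2)) = p.2.1 := by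
      intro p
      rw [log_mul, log_sec, logEmbedding_eq_zero_iff.mpr p.1.2, zero_add]
    constructor
    · intro p q hpq
      have h1 : p.2 = q.2 := by
        apply Subtype.ext
        rw [← hlog p, ← hlog q]
        exact congrArg (fun ε : (𝓞 K)ˣ => logEmbedding K (Additive.ofMul ε)) hpq
      have h2 : p.1.1 * sec K p.2 = q.1.1 * sec K q.2 := hpq
      rw [h1] at h2
      exact Prod.ext (Subtype.ext (mul_right_cancel h2)) h1
    · intro ε
      set l : unitLattice K := ⟨_, log_mem K ε⟩ with hl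
      have h1 : ε * (sec K l)⁻¹ ∈ torsion K := by
        rw [← logEmbedding_eq_zero_iff, log_mul]
        have h2 : logEmbedding K (Additive.ofMul (sec K l)⁻¹)
            = - logEmbedding K (Additive.ofMul (sec K l)) := by
          rw [ofMul_inv, map_neg]
        rw [h2, log_sec, hl]
        simp
      refine ⟨(⟨_, h1⟩, l), ?_⟩
      simp)

lemma log_unitEquiv (p : torsion K × unitLattice K) :
    logEmbedding K (Additive.ofMul (unitEquiv K p)) = p.2.1 := by
  have : unitEquiv K p = p.1.1 * sec K p.2 := rfl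
  rw [this, log_mul, log_sec, logEmbedding_eq_zero_iff.mpr p.1.2, zero_add]

/-- The function of ideals and units. -/
lemma summable_JU {w : ℂ} (hw : (Module.finrank ℚ K : ℝ) / 2 < w.re) :
    Summable (fun p : JJ K b × (𝓞 K)ˣ => ∫ a, ‖GG K w (gen K b p.1 : K)
      (logEmbedding K (Additive.ofMul p.2)) a‖) := by
  have h := (idealUnitEquiv K b).summable_iff.mpr (summable_NZ K b hw)
  refine h.congr fun p => ?_
  simp only [Function.comp_apply]
  rw [idealUnitEquiv_coe]
  congr 1
  ext a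
  rw [GG_unit_mul]

lemma hasSum_JU {w : ℂ} (hw : (Module.finrank ℚ K : ℝ) / 2 < w.re) :
    HasSum (fun p : JJ K b × (𝓞 K)ˣ => ∫ a, GG K w (gen K b p.1 : K)
      (logEmbedding K (Additive.ofMul p.2)) a) ((idealPair K b).Λ w) := by
  have h := (idealUnitEquiv K b).hasSum_iff.mpr (hasSum_NZ K b hw)
  refine h.congr_fun ?_ |> fun h => h
  intro p
  simp only [Function.comp_apply]
  rw [idealUnitEquiv_coe]
  congr 1
  ext a
  rw [GG_unit_mul]

lemma gen_coe_ne_zero (I : JJ K b) : (gen K b I : K) ≠ 0 := by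
  have := gen_ne_zero K b I
  exact_mod_cast this

/-- Sum over the units. -/
lemma hasSum_units {w : ℂ} (hw : (Module.finrank ℚ K : ℝ) / 2 < w.re) (I : JJ K b) :
    HasSum (fun ε : (𝓞 K)ˣ => ∫ a, GG K w (gen K b I : K) (logEmbedding K (Additive.ofMul ε)) a)
      ((Nat.card (torsion K) : ℂ) * ∫ p, FF K w (gen K b I : K) p) := by
  have hw0 : 0 < w.re := by
    have := finrank_pos_real K
    linarith
  have hs : Summable (fun ε : (𝓞 K)ˣ => ∫ a, ‖GG K w (gen K b I : K)
      (logEmbedding K (Additive.ofMul ε)) a‖) :=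
    (summable_JU K b hw).comp_injective (i := fun ε : (𝓞 K)ˣ => ((I, ε) : JJ K b × (𝓞 K)ˣ))
      (fun ε ε' h => (Prod.ext_iff.mp h).2)
  have hs2 : Summable fun p : torsion K × unitLattice K =>
      ∫ a, ‖GG K w (gen K b I : K) p.2.1 a‖ := by
    have := (unitEquiv K).summable_iff.mpr hs
    refine this.congr fun p => ?_
    simp only [Function.comp_apply]
    rw [log_unitEquiv]
  have hs3 : Summable fun l : unitLattice K => ∫ a, ‖GG K w (gen K b I : K) l.1 a‖ :=
    hs2.comp_injective (i := fun l : unitLattice K => ((1, l) : torsion K × unitLattice K))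
      (fun l l' h => (Prod.ext_iff.mp h).2)
  have h1 := hasSum_GG K w hw0 (gen K b I : K) (gen_coe_ne_zero K b I) hs3
  rw [← (unitEquiv K).hasSum_iff]
  have h2 : HasSum (fun _ : torsion K => (1 : ℂ)) (Nat.card (torsion K) : ℂ) := by
    have : Fintype (torsion K) := Fintype.ofFinite _
    have h5 := hasSum_fintype (fun _ : torsion K => (1 : ℂ))
    simpa [Nat.card_eq_fintype_card] using h5
  have h3 : Summable fun p : torsion K × unitLattice K =>
      (1 : ℂ) * ∫ a, GG K w (gen K b I : K) p.2.1 a := by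
    simp only [one_mul]
    refine Summable.of_norm_bounded hs2 fun p => ?_
    exact norm_integral_le_integral_norm _
  have h4 := h2.mul h1 h3
  refine h4.congr_fun ?_ |> fun h => h
  intro p
  simp only [Function.comp_apply, one_mul]
  rw [log_unitEquiv]

/-- Sum over the ideals of a class. -/
lemma hasSum_ideals_aux {w : ℂ} (hw : (Module.finrank ℚ K : ℝ) / 2 < w.re) :
    HasSum (fun I : JJ K b => (Nat.card (torsion K) : ℂ) * ∫ p, FF K w (gen K b I : K) p)
      ((idealPair K b).Λ w) :=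
  (hasSum_JU K b hw).prod_fiberwise (hasSum_units K b hw)

/-! ### evaluation of the integral -/

/-- Gamma factor -/
def gam (s : ℂ) : ℂ := ∏ v : InfinitePlace K, Complex.Gamma ((mult v : ℂ) * s / 2)

/-- power of pi -/
def piF (s : ℂ) : ℂ := Complex.exp (-((Module.finrank ℚ K : ℂ) * s / 2 * Real.log Real.pi))

lemma one_div_cpow_eq (a : ℝ) (ha : 0 < a) (z : ℂ) :
    (1 / (a : ℂ)) ^ z = Complex.exp (-(z * Real.log a)) := by
  have h1 : (1 / (a : ℂ)) = ((a⁻¹ : ℝ) : ℂ) := by push_cast; rw [one_div]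
  have h2 : (0 : ℝ) < a⁻¹ := inv_pos.mpr ha
  rw [h1, Complex.cpow_def_of_ne_zero (by exact_mod_cast h2.ne'), ← Complex.ofReal_log h2.le,
    Real.log_inv]
  congr 1
  push_cast
  ring

lemma finrank_ne_zero_complex : (Module.finrank ℚ K : ℂ) ≠ 0 := by
  exact_mod_cast (Module.finrank_pos (R := ℚ) (M := K)).ne'

lemma zz_half (s : ℂ) (v : InfinitePlace K) :
    zz K ((Module.finrank ℚ K : ℂ) * s / 2) v = (mult v : ℂ) * s / 2 := by
  unfold zz
  have := finrank_ne_zero_complex K
  field_simp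

lemma sum_mult_log_place (x : K) (hx : x ≠ 0) :
    ∑ v : InfinitePlace K, (mult v : ℝ) * Real.log (v x) = Real.log |(Algebra.norm ℚ x : ℝ)| := by
  have h := InfinitePlace.prod_eq_abs_norm x
  have h2 : Real.log (∏ v : InfinitePlace K, v x ^ mult v)
      = ∑ v : InfinitePlace K, (mult v : ℝ) * Real.log (v x) := by
    rw [Real.log_prod]
    · simp_rw [Real.log_pow]
    · intro v _
      have : 0 < v x := by rw [InfinitePlace.pos_iff]; exact hx
      positivity
  rw [← h2, h]
  push_cast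
  rfl

lemma integral_FF_eval (s : ℂ) (hs : 0 < s.re) (x : K) (hx : x ≠ 0) :
    ∫ p, FF K ((Module.finrank ℚ K : ℂ) * s / 2) x p
      = ((cst K : ℝ) : ℂ) * (piF K s * gam K s *
        Complex.exp (-(s * Real.log |(Algebra.norm ℚ x : ℝ)|))) := by
  have hw : 0 < ((Module.finrank ℚ K : ℂ) * s / 2).re := by
    have h1 : (Module.finrank ℚ K : ℂ) * s / 2
        = s * (((Module.finrank ℚ K : ℝ) / 2 : ℝ) : ℂ) := by
      push_cast; ring
    rw [h1, Complex.re_mul_ofReal]
    have := finrank_pos_real K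
    positivity
  rw [integral_FF K _ hw x hx]
  congr 1
  rw [Finset.prod_mul_distrib]
  have h1 : ∏ v : InfinitePlace K, Complex.Gamma (zz K ((Module.finrank ℚ K : ℂ) * s / 2) v)
      = gam K s := by
    unfold gam
    exact Finset.prod_congr rfl fun v _ => by rw [zz_half]
  have h2 : ∏ v : InfinitePlace K, (1 / ((Real.pi * (v x) ^ 2 : ℝ) : ℂ)) ^
      (zz K ((Module.finrank ℚ K : ℂ) * s / 2) v)
      = piF K s * Complex.exp (-(s * Real.log |(Algebra.norm ℚ x : ℝ)|)) := by
    have h3 : ∀ v : InfinitePlace K, (1 / ((Real.pi * (v x) ^ 2 : ℝ) : ℂ)) ^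
      (zz K ((Module.finrank ℚ K : ℂ) * s / 2) v)
        = Complex.exp (-((mult v : ℂ) * s / 2 * Real.log Real.pi
          + s * (((mult v : ℝ) * Real.log (v x) : ℝ) : ℂ))) := by
      intro v
      have hv : 0 < v x := by rw [InfinitePlace.pos_iff]; exact hx
      have hb : 0 < Real.pi * (v x) ^ 2 := by positivity
      rw [one_div_cpow_eq _ hb, zz_half, Real.log_mul Real.pi_ne_zero (by positivity),
        Real.log_pow]
      congr 1
      push_cast
      ring
    simp_rw [h3]
    rw [← Complex.exp_sum, piF, ← Complex.exp_add]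
    congr 1
    rw [Finset.sum_neg_distrib, Finset.sum_add_distrib, ← Finset.mul_sum, ← Complex.ofReal_sum,
      sum_mult_log_place K x hx]
    have h4 : ∑ v : InfinitePlace K, (mult v : ℂ) * s / 2 * (Real.log Real.pi : ℂ)
        = (Module.finrank ℚ K : ℂ) * s / 2 * Real.log Real.pi := by
      have h5 : ∑ v : InfinitePlace K, (mult v : ℂ) = (Module.finrank ℚ K : ℂ) := by
        exact_mod_cast InfinitePlace.sum_mult_eq (K := K)
      rw [← h5, Finset.sum_mul, Finset.sum_div, Finset.sum_mul]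
    rw [h4]
    ring
  rw [h1, h2]
  ring

lemma abs_norm_gen (I : JJ K b) : |(Algebra.norm ℚ (gen K b I : K) : ℝ)|
    = (Ideal.absNorm (I.1 : Ideal (𝓞 K)) : ℝ) * (Ideal.absNorm (b : Ideal (𝓞 K)) : ℝ) := by
  have h1 : Ideal.absNorm (Ideal.span {gen K b I})
      = Ideal.absNorm (I.1 : Ideal (𝓞 K)) * Ideal.absNorm (b : Ideal (𝓞 K)) := by
    rw [span_gen, map_mul]
  rw [Ideal.absNorm_span_singleton] at h1
  have h2 : (Algebra.norm ℚ (gen K b I : K) : ℝ) = ((Algebra.norm ℤ (gen K b I) : ℤ) : ℝ) := by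
    have := Algebra.coe_norm_int (gen K b I)
    rw [← this]
    push_cast
    rfl
  rw [h2, ← Int.cast_abs, ← Int.natCast_natAbs, h1]
  push_cast
  rfl

lemma absNorm_pos (I : (Ideal (𝓞 K))⁰) : 0 < Ideal.absNorm (I : Ideal (𝓞 K)) :=
  Nat.pos_of_ne_zero (Ideal.absNorm_ne_zero_of_nonZeroDivisors I)

lemma natCast_cpow_neg (N : ℕ) (hN : 0 < N) (s : ℂ) :
    (N : ℂ) ^ (-s) = Complex.exp (-(s * Real.log N)) := by
  have h : (N : ℂ) ≠ 0 := by exact_mod_cast hN.ne'
  rw [Complex.cpow_def_of_ne_zero h, Complex.natCast_log.symm]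
  congr 1
  push_cast
  ring

/-- Expansion of the completed partial zeta function. -/
lemma hasSum_class {s : ℂ} (hs : 1 < s.re) :
    HasSum (fun I : JJ K b => ((Nat.card (torsion K) : ℂ) * ((cst K : ℝ) : ℂ) * piF K s * gam K s *
      (Ideal.absNorm (b : Ideal (𝓞 K)) : ℂ) ^ (-s)) * (Ideal.absNorm (I.1 : Ideal (𝓞 K)) : ℂ) ^ (-s))
      ((idealPair K b).Λ ((Module.finrank ℚ K : ℂ) * s / 2)) := by
  have hw : (Module.finrank ℚ K : ℝ) / 2 < ((Module.finrank ℚ K : ℂ) * s / 2).re := by
    have h1 : (Module.finrank ℚ K : ℂ) * s / 2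
        = s * (((Module.finrank ℚ K : ℝ) / 2 : ℝ) : ℂ) := by
      push_cast; ring
    rw [h1, Complex.re_mul_ofReal]
    have := finrank_pos_real K
    have h2 : 0 < (Module.finrank ℚ K : ℝ) / 2 := by positivity
    nlinarith
  have h := hasSum_ideals_aux K b hw
  refine h.congr_fun ?_ |> fun h => h
  intro I
  rw [integral_FF_eval K s (by linarith) _ (gen_coe_ne_zero K b I), abs_norm_gen,
    natCast_cpow_neg _ (absNorm_pos K I.1), natCast_cpow_neg _ (absNorm_pos K b)]
  have hI : (0 : ℝ) < Ideal.absNorm (I.1 : Ideal (𝓞 K)) := by exact_mod_cast absNorm_pos K I.1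
  have hb : (0 : ℝ) < Ideal.absNorm (b : Ideal (𝓞 K)) := by exact_mod_cast absNorm_pos K b
  rw [Real.log_mul hI.ne' hb.ne']
  push_cast
  rw [show -(s * (Complex.log (Ideal.absNorm (I.1 : Ideal (𝓞 K)) : ℂ) +
    Complex.log (Ideal.absNorm (b : Ideal (𝓞 K)) : ℂ))) =
    -(s * Complex.log (Ideal.absNorm (b : Ideal (𝓞 K)) : ℂ)) +
    -(s * Complex.log (Ideal.absNorm (I.1 : Ideal (𝓞 K)) : ℂ)) by ring, Complex.exp_add]
  ring

end Pool.Agent.Helper4
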