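import Mathlib
import Pool.Agent.helper4.NFZeta

/-! # Meromorphic continuation of Dedekind zeta functions (Hecke)

For every number field `K` we construct an entire function `H` such that
`H s = (s - 1) * ζ_K(s)` for `Re s > 1`.
-/

open MeasureTheory Filter Topology Set

noncomputable section

namespace Pool.Agent.Helper4

open NumberField NumberField.Units NumberField.InfinitePlace NumberField.mixedEmbedding
  NumberField.Units.dirichletUnitTheorem nonZeroDivisors

variable (K : Type*) [Field K] [NumberField K]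

open scoped Classical

/-- inverse Gamma factor -/
def igam (s : ℂ) : ℂ := ∏ v : InfinitePlace K, (Complex.Gamma ((mult v : ℂ) * s / 2))⁻¹

lemma differentiable_igam : Differentiable ℂ (igam K) := by
  unfold igam
  refine Differentiable.fun_finsetProd fun v _ => ?_
  have h := Complex.differentiable_one_div_Gamma
  have h2 : Differentiable ℂ (fun s : ℂ => (mult v : ℂ) * s / 2) := by fun_prop
  exact h.comp h2

lemma igam_zero : igam K 0 = 0 := by
  unfold igam
  apply Finset.prod_eq_zero (Finset.mem_univ (w₀ : InfinitePlace K))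
  simp

lemma gam_mul_igam (s : ℂ) (hs : 0 < s.re) : gam K s * igam K s = 1 := by
  unfold gam igam
  rw [← Finset.prod_mul_distrib]
  apply Finset.prod_eq_one
  intro v _
  apply mul_inv_cancel₀
  apply Complex.Gamma_ne_zero_of_re_pos
  have h1 : (mult v : ℂ) * s / 2 = s * (((mult v : ℝ) / 2 : ℝ) : ℂ) := by push_cast; ring
  rw [h1, Complex.re_mul_ofReal]
  have := mult_pos_real K v
  positivity

/-- `igam s / s` -/
def igam1 : ℂ → ℂ := dslope (igam K) 0

lemma differentiable_igam1 : Differentiable ℂ (igam1 K) := by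
  have h : DifferentiableOn ℂ (dslope (igam K) 0) univ :=
    (Complex.differentiableOn_dslope (univ_mem)).mpr (differentiable_igam K).differentiableOn
  exact differentiableOn_univ.mp h

lemma igam1_eq (s : ℂ) (hs : s ≠ 0) : igam1 K s = igam K s / s := by
  unfold igam1
  rw [dslope_of_ne _ hs, slope_def_field, igam_zero, sub_zero, sub_zero]

variable (b : (Ideal (𝓞 K))⁰)

/-- The entire function attached to an ideal class. -/
def HClass (s : ℂ) : ℂ :=
  ((Nat.card (torsion K) : ℂ) * ((cst K : ℝ) : ℂ))⁻¹ *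
    (Ideal.absNorm (b : Ideal (𝓞 K)) : ℂ) ^ s *
    Complex.exp ((Module.finrank ℚ K : ℂ) * s / 2 * Real.log Real.pi) *
    ((s - 1) * igam K s * (idealPair K b).Λ₀ ((Module.finrank ℚ K : ℂ) * s / 2)
      - 2 * (idealPair K b).f₀ / (Module.finrank ℚ K : ℂ) * ((s - 1) * igam1 K s)
      + 2 * ((idealPair K b).ε * (idealPair K b).g₀) / (Module.finrank ℚ K : ℂ) * igam K s)

lemma differentiable_HClass : Differentiable ℂ (HClass K b) := by
  unfold HClass
  have h1 := differentiable_igam K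
  have h2 := differentiable_igam1 K
  have h3 : Differentiable ℂ (fun s : ℂ =>
      (idealPair K b).Λ₀ ((Module.finrank ℚ K : ℂ) * s / 2)) :=
    (idealPair K b).differentiable_Λ₀.comp (by fun_prop)
  have hb : (Ideal.absNorm (b : Ideal (𝓞 K)) : ℂ) ≠ 0 := by
    exact_mod_cast (absNorm_pos K b).ne'
  have h4 : Differentiable ℂ (fun s : ℂ => (Ideal.absNorm (b : Ideal (𝓞 K)) : ℂ) ^ s) := by
    intro s
    exact (differentiableAt_id).const_cpow (Or.inl hb)
  fun_prop

lemma card_torsion_ne_zero : (Nat.card (torsion K) : ℂ) ≠ 0 := by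
  have : Nat.card (torsion K) ≠ 0 := Nat.card_pos.ne'
  exact_mod_cast this

lemma cst_ne_zero : ((cst K : ℝ) : ℂ) ≠ 0 := by
  have := cst_pos K
  exact_mod_cast this.ne'

lemma HClass_eq {s : ℂ} (hs : 1 < s.re) :
    HasSum (fun I : JJ K b => (Ideal.absNorm (I.1 : Ideal (𝓞 K)) : ℂ) ^ (-s))
      (HClass K b s / (s - 1)) := by
  have h := hasSum_class K b hs
  have hs0 : 0 < s.re := by linarith
  set A : ℂ := (Nat.card (torsion K) : ℂ) * ((cst K : ℝ) : ℂ) * piF K s * gam K s *
      (Ideal.absNorm (b : Ideal (𝓞 K)) : ℂ) ^ (-s) with hA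
  have hb : (Ideal.absNorm (b : Ideal (𝓞 K)) : ℂ) ≠ 0 := by
    exact_mod_cast (absNorm_pos K b).ne'
  have hgam : gam K s ≠ 0 := by
    intro h0
    have := gam_mul_igam K s hs0
    rw [h0, zero_mul] at this
    exact zero_ne_one this
  have hA0 : A ≠ 0 := by
    rw [hA]
    refine mul_ne_zero (mul_ne_zero (mul_ne_zero (mul_ne_zero (card_torsion_ne_zero K)
      (cst_ne_zero K)) (Complex.exp_ne_zero _)) hgam) ?_
    rw [Ne, Complex.cpow_eq_zero_iff]
    tauto
  have h2 := h.mul_left A⁻¹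
  have hs1 : s - 1 ≠ 0 := by
    intro h0
    have : s = 1 := by linear_combination h0
    rw [this] at hs
    simp at hs
  have hsne : s ≠ 0 := by
    rintro rfl
    simp at hs0
  have h3 : HClass K b s / (s - 1)
      = A⁻¹ * (idealPair K b).Λ ((Module.finrank ℚ K : ℂ) * s / 2) := by
    have hn := finrank_ne_zero_complex K
    have hk : ((idealPair K b).k : ℂ) = (Module.finrank ℚ K : ℂ) / 2 := by
      have : (idealPair K b).k = (Fintype.card (index K) : ℝ) / 2 := rfl
      rw [this, card_index]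
      push_cast
      rfl
    have hΛ : (idealPair K b).Λ ((Module.finrank ℚ K : ℂ) * s / 2)
        = (idealPair K b).Λ₀ ((Module.finrank ℚ K : ℂ) * s / 2)
          - 2 * (idealPair K b).f₀ / ((Module.finrank ℚ K : ℂ) * s)
          + 2 * ((idealPair K b).ε * (idealPair K b).g₀) / ((Module.finrank ℚ K : ℂ) * (s - 1)) := by
      rw [WeakFEPair.Λ, hk, smul_eq_mul, smul_eq_mul]
      have e1 : (Module.finrank ℚ K : ℂ) / 2 - (Module.finrank ℚ K : ℂ) * s / 2
          = -((Module.finrank ℚ K : ℂ) * (s - 1) / 2) := by ring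
      rw [e1]
      field_simp
      ring
    have hAinv : A⁻¹ = ((Nat.card (torsion K) : ℂ) * ((cst K : ℝ) : ℂ))⁻¹ *
        (Ideal.absNorm (b : Ideal (𝓞 K)) : ℂ) ^ s *
        Complex.exp ((Module.finrank ℚ K : ℂ) * s / 2 * Real.log Real.pi) * igam K s := by
      have e1 : (Ideal.absNorm (b : Ideal (𝓞 K)) : ℂ) ^ (-s)
          = ((Ideal.absNorm (b : Ideal (𝓞 K)) : ℂ) ^ s)⁻¹ := Complex.cpow_neg _ _
      have e2 : piF K s = (Complex.exp ((Module.finrank ℚ K : ℂ) * s / 2 * Real.log Real.pi))⁻¹ := by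
        rw [piF, Complex.exp_neg]
      have e3 : gam K s = (igam K s)⁻¹ := eq_inv_of_mul_eq_one_left (gam_mul_igam K s hs0)
      rw [hA, e1, e2, e3]
      simp only [mul_inv, inv_inv]
      ring
    rw [hΛ, hAinv, HClass, igam1_eq K s hsne]
    field_simp
  rw [h3]
  refine h2.congr_fun ?_ |> fun h => h
  intro I
  rw [← mul_assoc, inv_mul_cancel₀ hA0, one_mul]

/-- an ideal in the inverse class -/
def repIdeal (C : ClassGroup (𝓞 K)) : (Ideal (𝓞 K))⁰ :=
  (ClassGroup.mk0_surjective (C⁻¹)).choose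

lemma mk0_repIdeal (C : ClassGroup (𝓞 K)) : ClassGroup.mk0 (repIdeal K C) = C⁻¹ :=
  (ClassGroup.mk0_surjective (C⁻¹)).choose_spec

/-- The entire function `(s - 1) ζ_K(s)`. -/
def HDed (s : ℂ) : ℂ := ∑ C : ClassGroup (𝓞 K), HClass K (repIdeal K C) s

theorem differentiable_HDed : Differentiable ℂ (HDed K) := by
  unfold HDed
  exact Differentiable.fun_sum fun C _ => differentiable_HClass K _

/-- **Hecke**: `(s-1) ζ_K(s)` is entire. -/
theorem hasSum_HDed {s : ℂ} (hs : 1 < s.re) :
    HasSum (fun I : (Ideal (𝓞 K))⁰ => (Ideal.absNorm (I : Ideal (𝓞 K)) : ℂ) ^ (-s))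
      (HDed K s / (s - 1)) := by
  unfold HDed
  rw [Finset.sum_div]
  have h1 : ∀ C : ClassGroup (𝓞 K), HasSum (fun I : (Ideal (𝓞 K))⁰ =>
      if ClassGroup.mk0 I = C then (Ideal.absNorm (I : Ideal (𝓞 K)) : ℂ) ^ (-s) else 0)
      (HClass K (repIdeal K C) s / (s - 1)) := by
    intro C
    have h := HClass_eq K (repIdeal K C) hs
    have h2 := (hasSum_subtype_iff_indicator (s := {I : (Ideal (𝓞 K))⁰ |
      ClassGroup.mk0 I * ClassGroup.mk0 (repIdeal K C) = 1})
      (f := fun I : (Ideal (𝓞 K))⁰ => (Ideal.absNorm (I : Ideal (𝓞 K)) : ℂ) ^ (-s))).mp h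
    refine h2.congr_fun ?_ |> fun h => h
    intro I
    have hiff : (I ∈ {I : (Ideal (𝓞 K))⁰ |
        ClassGroup.mk0 I * ClassGroup.mk0 (repIdeal K C) = 1}) ↔ ClassGroup.mk0 I = C := by
      rw [Set.mem_ofPred_eq, mk0_repIdeal, mul_inv_eq_one]
    by_cases hI : ClassGroup.mk0 I = C
    · rw [if_pos hI, Set.indicator_of_mem (hiff.mpr hI)]
    · rw [if_neg hI, Set.indicator_of_notMem (fun h => hI (hiff.mp h))]
  have h3 := hasSum_sum (s := Finset.univ) (fun C _ => h1 C)
  refine h3.congr_fun ?_ |> fun h => h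
  intro I
  rw [Finset.sum_ite_eq]
  simp

end Pool.Agent.Helper4
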