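import Mathlib

/-! # Frobenius eigenvalues determined by point counts -/

noncomputable section

namespace Pool.Agent.Helper4

open Polynomial

/-- `B j` is the multiset of Frobenius eigenvalues on the cohomology in degree `j` of a smooth
projective variety over the field with `p` elements which has `N r` points over the field with
`p ^ r` elements: purity (Deligne) and the trace formula. -/
structure IsFrobSpec (p : ℕ) (N : ℕ → ℕ) (B : ℕ → Multiset ℂ) : Prop where
  pure : ∀ j, ∀ α ∈ B j, ‖α‖ = (p : ℝ) ^ ((j : ℝ) / 2)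
  bounded : ∃ D, ∀ j, D ≤ j → B j = 0
  trace : ∀ r, 1 ≤ r → (N r : ℂ) = ∑ᶠ j, (-1) ^ j * ((B j).map (fun α => α ^ r)).sum

lemma vanish_of_power_sums (T : Finset ℂ) (m : ℂ → ℂ) (h0 : (0 : ℂ) ∉ T)
    (h : ∀ r : ℕ, 1 ≤ r → ∑ z ∈ T, m z * z ^ r = 0) : ∀ z ∈ T, m z = 0 := by
  classical
  have h1 : ∀ P : ℂ[X], ∑ z ∈ T, m z * z * P.eval z = 0 := by
    intro P
    induction P using Polynomial.induction_on' with
    | add p q hp hq =>
      have : ∑ z ∈ T, m z * z * (p + q).eval z
          = ∑ z ∈ T, m z * z * p.eval z + ∑ z ∈ T, m z * z * q.eval z := by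
        rw [← Finset.sum_add_distrib]
        refine Finset.sum_congr rfl fun z _ => ?_
        rw [eval_add]; ring
      rw [this, hp, hq, add_zero]
    | monomial k c =>
      have : ∑ z ∈ T, m z * z * (monomial k c).eval z = c * ∑ z ∈ T, m z * z ^ (k + 1) := by
        rw [Finset.mul_sum]
        refine Finset.sum_congr rfl fun z _ => ?_
        rw [eval_monomial, pow_succ]; ring
      rw [this, h (k + 1) (by omega), mul_zero]
  intro z hz
  have h2 := h1 (∏ w ∈ T.erase z, (X - C w))
  rw [Finset.sum_eq_single z] at h2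
  · rw [eval_prod] at h2
    have h3 : ∏ w ∈ T.erase z, (X - C w : ℂ[X]).eval z ≠ 0 := by
      rw [Finset.prod_ne_zero_iff]
      intro w hw
      rw [eval_sub, eval_X, eval_C, sub_ne_zero]
      exact (Finset.ne_of_mem_erase hw).symm
    have h4 : z ≠ 0 := fun h => h0 (h ▸ hz)
    rcases mul_eq_zero.mp h2 with h5 | h5
    · rcases mul_eq_zero.mp h5 with h6 | h6
      · exact h6
      · exact absurd h6 h4
    · exact absurd h5 h3
  · intro w hw hwz
    rw [eval_prod, Finset.prod_eq_zero (Finset.mem_erase.mpr ⟨hwz, hw⟩), mul_zero]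
    simp
  · intro h5
    exact absurd hz h5

theorem IsFrobSpec.unique {p : ℕ} (hp : 1 < p) {N : ℕ → ℕ} {B B' : ℕ → Multiset ℂ}
    (h : IsFrobSpec p N B) (h' : IsFrobSpec p N B') : B = B' := by
  classical
  obtain ⟨D₁, hD₁⟩ := h.bounded
  obtain ⟨D₂, hD₂⟩ := h'.bounded
  set D := max D₁ D₂ with hD
  have b1 : ∀ j, D ≤ j → B j = 0 := fun j hj => hD₁ j ((le_max_left _ _).trans hj)
  have b2 : ∀ j, D ≤ j → B' j = 0 := fun j hj => hD₂ j ((le_max_right _ _).trans hj)
  have hp0 : (0 : ℝ) < p := by exact_mod_cast (by omega : 0 < p)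
  set T : Finset ℂ := (Finset.range D).biUnion (fun j => (B j).toFinset ∪ (B' j).toFinset) with hT
  have fs : ∀ (C : ℕ → Multiset ℂ), (∀ j, D ≤ j → C j = 0) →
      (∀ j ∈ Finset.range D, (C j).toFinset ⊆ T) → ∀ r : ℕ,
      ∑ᶠ j, (-1 : ℂ) ^ j * ((C j).map (fun α => α ^ r)).sum
        = ∑ z ∈ T, (∑ j ∈ Finset.range D, (-1 : ℂ) ^ j * ((C j).count z : ℂ)) * z ^ r := by
    intro C hC hCT r
    rw [finsum_eq_sum_of_support_subset (s := Finset.range D)]
    · have h1 : ∀ j ∈ Finset.range D, (-1 : ℂ) ^ j * ((C j).map (fun α => α ^ r)).sum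
          = ∑ z ∈ T, (-1 : ℂ) ^ j * ((C j).count z : ℂ) * z ^ r := by
        intro j hj
        rw [Finset.sum_multiset_map_count, Finset.mul_sum]
        rw [Finset.sum_subset (hCT j hj)]
        · refine Finset.sum_congr rfl fun z _ => ?_
          rw [nsmul_eq_mul]; ring
        · intro z _ hz
          rw [Multiset.mem_toFinset, ← Multiset.count_eq_zero] at hz
          rw [hz]; simp
      rw [Finset.sum_congr rfl h1, Finset.sum_comm]
      refine Finset.sum_congr rfl fun z _ => ?_
      rw [Finset.sum_mul]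
    · intro j hj
      rw [Function.mem_support] at hj
      rw [Finset.coe_range, Set.mem_Iio]
      by_contra h1
      apply hj
      rw [hC j (not_lt.mp h1)]
      simp
  have f1 := fs B b1 (fun j hj => by
    intro z hz
    rw [hT, Finset.mem_biUnion]
    exact ⟨j, hj, Finset.mem_union_left _ hz⟩)
  have f2 := fs B' b2 (fun j hj => by
    intro z hz
    rw [hT, Finset.mem_biUnion]
    exact ⟨j, hj, Finset.mem_union_right _ hz⟩)
  have hTnorm : ∀ z ∈ T, ∃ j : ℕ, ‖z‖ = (p : ℝ) ^ ((j : ℝ) / 2) := by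
    intro z hz
    rw [hT, Finset.mem_biUnion] at hz
    obtain ⟨j, -, hz⟩ := hz
    rw [Finset.mem_union, Multiset.mem_toFinset, Multiset.mem_toFinset] at hz
    rcases hz with hz | hz
    · exact ⟨j, h.pure j z hz⟩
    · exact ⟨j, h'.pure j z hz⟩
  have h0 : (0 : ℂ) ∉ T := by
    intro hz
    obtain ⟨j, hj⟩ := hTnorm 0 hz
    rw [norm_zero] at hj
    exact absurd hj.symm (Real.rpow_pos_of_pos hp0 _).ne'
  have hv := vanish_of_power_sums T (fun z => (∑ j ∈ Finset.range D, (-1 : ℂ) ^ j * ((B j).count z : ℂ))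
    - (∑ j ∈ Finset.range D, (-1 : ℂ) ^ j * ((B' j).count z : ℂ))) h0 (fun r hr => by
      have e1 := h.trace r hr
      have e2 := h'.trace r hr
      rw [f1] at e1
      rw [f2] at e2
      rw [e1] at e2
      rw [← sub_eq_zero, ← Finset.sum_sub_distrib] at e2
      rw [← e2]
      refine Finset.sum_congr rfl fun z _ => ?_
      ring)
  have hinj : ∀ j j' : ℕ, (p : ℝ) ^ ((j : ℝ) / 2) = (p : ℝ) ^ ((j' : ℝ) / 2) → j = j' := by
    intro j j' hjj
    have hp1 : (1 : ℝ) < p := by exact_mod_cast hp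
    have h1 : (j : ℝ) / 2 = (j' : ℝ) / 2 := by
      apply (Real.strictMono_rpow_of_base_gt_one hp1).injective hjj
    have h2 : (j : ℝ) = j' := by linarith
    exact_mod_cast h2
  -- counts agree
  have key : ∀ (j : ℕ) (z : ℂ), ‖z‖ = (p : ℝ) ^ ((j : ℝ) / 2) → (B j).count z = (B' j).count z := by
    intro j z hz
    by_cases hzT : z ∈ T
    · have h1 := hv z hzT
      by_cases hjD : j < D
      · have single : ∀ (C : ℕ → Multiset ℂ), (∀ i, ∀ α ∈ C i, ‖α‖ = (p : ℝ) ^ ((i : ℝ) / 2)) →
            ∑ i ∈ Finset.range D, (-1 : ℂ) ^ i * ((C i).count z : ℂ)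
              = (-1) ^ j * ((C j).count z : ℂ) := by
          intro C hC
          rw [Finset.sum_eq_single j]
          · intro i _ hij
            have : (C i).count z = 0 := by
              rw [Multiset.count_eq_zero]
              intro hzi
              exact hij (hinj i j ((hC i z hzi).symm.trans hz))
            rw [this]; simp
          · intro h2
            exact absurd (Finset.mem_range.mpr hjD) h2
        rw [single B h.pure, single B' h'.pure, ← mul_sub] at h1
        rcases mul_eq_zero.mp h1 with h2 | h2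
        · exact absurd h2 (pow_ne_zero _ (by norm_num))
        · rw [sub_eq_zero] at h2
          exact_mod_cast h2
      · rw [b1 j (not_lt.mp hjD), b2 j (not_lt.mp hjD)]
    · by_cases hjD : j < D
      · have h1 : z ∉ B j := fun h2 => hzT (by
          rw [hT, Finset.mem_biUnion]
          exact ⟨j, Finset.mem_range.mpr hjD, Finset.mem_union_left _ (Multiset.mem_toFinset.mpr h2)⟩)
        have h2 : z ∉ B' j := fun h2 => hzT (by
          rw [hT, Finset.mem_biUnion]
          exact ⟨j, Finset.mem_range.mpr hjD, Finset.mem_union_right _ (Multiset.mem_toFinset.mpr h2)⟩)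
        rw [Multiset.count_eq_zero.mpr h1, Multiset.count_eq_zero.mpr h2]
      · rw [b1 j (not_lt.mp hjD), b2 j (not_lt.mp hjD)]
  funext j
  ext z
  by_cases hz : ‖z‖ = (p : ℝ) ^ ((j : ℝ) / 2)
  · exact key j z hz
  · rw [Multiset.count_eq_zero.mpr (fun h1 => hz (h.pure j z h1)),
      Multiset.count_eq_zero.mpr (fun h1 => hz (h'.pure j z h1))]

end Pool.Agent.Helper4
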