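import Mathlib

/-! # Euler products over free commutative monoids and over ideals -/

noncomputable section

namespace Pool.Agent.Helper4

open Filter Topology

section Free

variable {P : Type*} (x : P → ℂ)

/-- multisets supported on a finite set -/
abbrev MS (S : Finset P) : Type _ := {m : Multiset P // ∀ q ∈ m, q ∈ S}

lemma prod_map_norm (m : Multiset P) : ‖(m.map x).prod‖ = (m.map (fun q => ‖x q‖)).prod := by
  induction m using Multiset.induction_on with
  | empty => simp
  | cons a m ih => simp [ih]

open scoped Classical in
/-- splitting off one prime -/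
def msEquiv (S : Finset P) (q : P) (hq : q ∉ S) : ℕ × MS S ≃ MS (insert q S) where
  toFun y := ⟨Multiset.replicate y.1 q + y.2.1, by
    intro r hr
    rw [Multiset.mem_add] at hr
    rcases hr with hr | hr
    · rw [Multiset.eq_of_mem_replicate hr]
      exact Finset.mem_insert_self _ _
    · exact Finset.mem_insert_of_mem (y.2.2 r hr)⟩
  invFun m := (m.1.count q, ⟨m.1.filter (fun r => ¬ r = q), by
    intro r hr
    rw [Multiset.mem_filter] at hr
    have := m.2 r hr.1
    rw [Finset.mem_insert] at this
    exact this.resolve_left hr.2⟩)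
  left_inv := by
    rintro ⟨e, m, hm⟩
    have h1 : m.count q = 0 := Multiset.count_eq_zero_of_notMem (fun h => hq (hm q h))
    apply Prod.ext
    · simp [h1]
    · apply Subtype.ext
      simp only [Multiset.filter_add]
      rw [Multiset.filter_eq_nil.mpr, Multiset.filter_eq_self.mpr, zero_add]
      · intro r hr h
        exact hq (h ▸ hm r hr)
      · intro r hr
        rw [Multiset.eq_of_mem_replicate hr]
        simp
  right_inv := by
    rintro ⟨m, hm⟩
    apply Subtype.ext
    simp only
    rw [← Multiset.filter_eq']
    exact Multiset.filter_add_not _ _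

lemma hasSum_MS (S : Finset P) (hx : ∀ p, ‖x p‖ < 1) :
    Summable (fun m : MS S => ‖(m.1.map x).prod‖) ∧
      HasSum (fun m : MS S => (m.1.map x).prod) (∏ p ∈ S, (1 - x p)⁻¹) := by
  classical
  induction S using Finset.induction_on with
  | empty =>
    let _ : Unique (MS (∅ : Finset P)) :=
      { default := ⟨0, by simp⟩
        uniq := by
          rintro ⟨m, hm⟩
          apply Subtype.ext
          apply Multiset.eq_zero_of_forall_notMem
          intro a ha
          simpa using hm a ha }
    refine ⟨(hasSum_unique _).summable, ?_⟩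
    convert hasSum_unique _
    rw [Finset.prod_empty]
    change 1 = (Multiset.map x 0).prod
    simp
  | insert q S hq ih =>
    have hg : Summable (fun e : ℕ => ‖x q ^ e‖) := by
      simp_rw [norm_pow]
      exact summable_geometric_of_lt_one (norm_nonneg _) (hx q)
    have hg2 : HasSum (fun e : ℕ => x q ^ e) ((1 - x q)⁻¹) := hasSum_geometric_of_norm_lt_one (hx q)
    have e1 : ∀ y : ℕ × MS S, (((msEquiv S q hq) y).1.map x).prod = x q ^ y.1 * (y.2.1.map x).prod := by
      intro y
      change (Multiset.map x (Multiset.replicate y.1 q + y.2.1)).prod = _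
      simp
    constructor
    · rw [← (msEquiv S q hq).summable_iff]
      have e2 : (fun m : MS (insert q S) => ‖(m.1.map x).prod‖) ∘ (msEquiv S q hq)
          = fun y : ℕ × MS S => ‖x q ^ y.1 * (y.2.1.map x).prod‖ := by
        funext y
        simp only [Function.comp]
        rw [e1]
      rw [e2]
      exact Summable.mul_norm (f := fun e : ℕ => x q ^ e)
        (g := fun m : MS S => (m.1.map x).prod) hg ih.1
    · rw [← (msEquiv S q hq).hasSum_iff, Finset.prod_insert hq]
      have e2 : (fun m : MS (insert q S) => (m.1.map x).prod) ∘ (msEquiv S q hq)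
          = fun y : ℕ × MS S => x q ^ y.1 * (y.2.1.map x).prod := by
        funext y
        simp only [Function.comp]
        rw [e1]
      rw [e2]
      have h7 : Summable (fun y : ℕ × MS S => x q ^ y.1 * (y.2.1.map x).prod) :=
        summable_mul_of_summable_norm (f := fun e : ℕ => x q ^ e)
          (g := fun m : MS S => (m.1.map x).prod) hg ih.1
      exact HasSum.mul (f := fun e : ℕ => x q ^ e) (g := fun m : MS S => (m.1.map x).prod)
        hg2 ih.2 h7

theorem hasProd_free (hx : ∀ p, ‖x p‖ < 1) {a : ℂ}
    (h : HasSum (fun m : Multiset P => (m.map x).prod) a) :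
    HasProd (fun p => (1 - x p)⁻¹) a := by
  classical
  rw [HasProd, SummationFilter.unconditional_filter, Metric.tendsto_nhds]
  intro ε hε
  rw [HasSum, SummationFilter.unconditional_filter, Metric.tendsto_nhds] at h
  have h1 := h (ε / 2) (half_pos hε)
  rw [eventually_atTop] at h1 ⊢
  obtain ⟨T, hT⟩ := h1
  refine ⟨T.biUnion (fun m => m.toFinset), fun S hS => ?_⟩
  have h2 := (hasSum_MS x S hx).2
  -- partial sums over large sets are close to `a`
  have h3 : ∀ U : Finset (MS S), T.subtype (fun m => ∀ q ∈ m, q ∈ S) ⊆ U →
      dist (∑ m ∈ U, (m.1.map x).prod) a < ε / 2 := by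
    intro U hU
    have h4 : T ≤ U.map (Function.Embedding.subtype _) := by
      intro m hm
      have hmS : ∀ q ∈ m, q ∈ S := by
        intro q hq
        apply hS
        rw [Finset.mem_biUnion]
        exact ⟨m, hm, Multiset.mem_toFinset.mpr hq⟩
      rw [Finset.mem_map]
      refine ⟨⟨m, hmS⟩, hU ?_, rfl⟩
      rw [Finset.mem_subtype]
      exact hm
    have h5 := hT _ h4
    rw [Finset.sum_map] at h5
    exact h5
  have h6 : dist (∏ p ∈ S, (1 - x p)⁻¹) a ≤ ε / 2 := by
    rw [HasSum, SummationFilter.unconditional_filter] at h2
    refine le_of_tendsto (h2.dist tendsto_const_nhds) ?_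
    rw [eventually_atTop]
    exact ⟨_, fun U hU => (h3 U hU).le⟩
  linarith

end Free

end Pool.Agent.Helper4
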