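import Mathlib
import Pool.Agent.helper4.EulerFree

/-! # Euler products over the primes of a number field -/

noncomputable section

namespace Pool.Agent.Helper4

open Filter Topology NumberField nonZeroDivisors IsDedekindDomain UniqueFactorizationMonoid

variable (K : Type*) [Field K] [NumberField K]

/-- non-zero primes of the ring of integers -/
abbrev PK : Type _ := HeightOneSpectrum (𝓞 K)

variable {K}

lemma prod_asIdeal_ne_zero (m : Multiset (PK K)) : (m.map (fun q => q.asIdeal)).prod ≠ 0 := by
  rw [Ne, Multiset.prod_eq_zero_iff]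
  intro h
  rw [Multiset.mem_map] at h
  obtain ⟨q, -, hq⟩ := h
  exact q.ne_bot hq

/-- product of a multiset of primes -/
def prodM (m : Multiset (PK K)) : (Ideal (𝓞 K))⁰ :=
  ⟨(m.map (fun q => q.asIdeal)).prod, mem_nonZeroDivisors_of_ne_zero (prod_asIdeal_ne_zero m)⟩

lemma prodM_bijective : Function.Bijective (prodM (K := K)) := by
  classical
  constructor
  · intro m m' h
    have h1 : (m.map (fun q => q.asIdeal)).prod = (m'.map (fun q => q.asIdeal)).prod :=
      congrArg Subtype.val h
    have h2 : ∀ m : Multiset (PK K), normalizedFactors (m.map (fun q => q.asIdeal)).prod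
        = m.map (fun q => q.asIdeal) := by
      intro m
      apply normalizedFactors_prod_of_prime
      intro I hI
      rw [Multiset.mem_map] at hI
      obtain ⟨q, -, rfl⟩ := hI
      exact q.prime
    have h3 : m.map (fun q => q.asIdeal) = m'.map (fun q => q.asIdeal) := by
      rw [← h2 m, ← h2 m', h1]
    exact Multiset.map_injective (fun q q' hq => HeightOneSpectrum.ext hq) h3
  · rintro ⟨I, hI⟩
    have hI0 : I ≠ 0 := nonZeroDivisors.ne_zero hI
    have h1 : ∀ J ∈ normalizedFactors I, ∃ q : PK K, q.asIdeal = J := by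
      intro J hJ
      have hp := prime_of_normalized_factor J hJ
      exact ⟨⟨J, Ideal.isPrime_of_prime hp, hp.ne_zero⟩, rfl⟩
    refine ⟨(normalizedFactors I).attach.map (fun J => (h1 J.1 J.2).choose), ?_⟩
    apply Subtype.ext
    change (Multiset.map (fun q => q.asIdeal)
      ((normalizedFactors I).attach.map (fun J => (h1 J.1 J.2).choose))).prod = I
    rw [Multiset.map_map]
    have h2 : (normalizedFactors I).attach.map
        ((fun q : PK K => q.asIdeal) ∘ (fun J => (h1 J.1 J.2).choose))
        = (normalizedFactors I).attach.map (fun J => J.1) := by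
      apply Multiset.map_congr rfl
      intro J _
      exact (h1 J.1 J.2).choose_spec
    rw [h2, Multiset.attach_map_val]
    exact associated_iff_eq.mp (prod_normalizedFactors hI0)

/-- completely multiplicative function on ideals attached to values at primes -/
theorem hasProd_ideal (x : PK K → ℂ) (hx : ∀ q, ‖x q‖ < 1) (F : (Ideal (𝓞 K))⁰ → ℂ)
    (hF : ∀ m : Multiset (PK K), F (prodM m) = (m.map x).prod) {a : ℂ} (h : HasSum F a) :
    HasProd (fun q : PK K => (1 - x q)⁻¹) a := by
  apply hasProd_free x hx
  have h1 := (Equiv.ofBijective _ (prodM_bijective (K := K))).hasSum_iff.mpr h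
  convert h1 using 1
  funext m
  exact (hF m).symm

lemma absNorm_prodM (m : Multiset (PK K)) :
    Ideal.absNorm (prodM m : Ideal (𝓞 K)) = (m.map (fun q => Ideal.absNorm q.asIdeal)).prod := by
  change Ideal.absNorm ((m.map (fun q => q.asIdeal)).prod) = _
  rw [map_multiset_prod, Multiset.map_map]
  rfl

lemma cpow_prod (m : Multiset (PK K)) (s : ℂ) :
    (((m.map (fun q => Ideal.absNorm q.asIdeal)).prod : ℕ) : ℂ) ^ s
      = (m.map (fun q => (Ideal.absNorm q.asIdeal : ℂ) ^ s)).prod := by
  induction m using Multiset.induction_on with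
  | empty => simp
  | cons a m ih =>
    rw [Multiset.map_cons, Multiset.prod_cons, Multiset.map_cons, Multiset.prod_cons, ← ih,
      Nat.cast_mul, Complex.natCast_mul_natCast_cpow]

lemma two_le_absNorm (q : PK K) : 2 ≤ Ideal.absNorm q.asIdeal := by
  have h0 : Ideal.absNorm q.asIdeal ≠ 0 := by
    rw [Ne, Ideal.absNorm_eq_zero_iff]
    exact q.ne_bot
  have h1 : Ideal.absNorm q.asIdeal ≠ 1 := by
    rw [Ne, Ideal.absNorm_eq_one_iff]
    exact q.isPrime.ne_top
  omega

lemma norm_cpow_lt_one (q : PK K) {s : ℂ} (hs : 0 < s.re) :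
    ‖(Ideal.absNorm q.asIdeal : ℂ) ^ (-s)‖ < 1 := by
  have h := two_le_absNorm q
  rw [Complex.norm_natCast_cpow_of_pos (by omega)]
  apply Real.rpow_lt_one_of_one_lt_of_neg
  · exact_mod_cast (by omega : 1 < Ideal.absNorm q.asIdeal)
  · simpa using hs

end Pool.Agent.Helper4
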