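import Mathlib

/-! # Homomorphisms out of rings of integers are Galois conjugate -/

noncomputable section

namespace Pool.Agent.Helper4

open Polynomial

/-- Polynomial trick: conjugacy of homomorphisms on the coefficients of one polynomial. -/
lemma exists_conj {B Ω C G : Type*} [CommRing B] [Group G] [Finite G] [MulSemiringAction G B]
    [CommRing Ω] [IsDomain Ω] [CommRing C] (i : C →+* B) (hi : Function.Injective i)
    (φ₀ : B →+* Ω) (φ : C →+* Ω)
    (hinv : ∀ x : B, (∀ g : G, g • x = x) → ∃ z : ℤ, x = (z : B)) (b : C[X]) :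
    ∃ g : G, b.map φ = (g • (b.map i)).map φ₀ := by
  classical
  cases nonempty_fintype G
  set P : B[X][X] := MulSemiringAction.charpoly G (b.map i) with hP
  -- coefficients are integral
  have h1 : ∀ n m : ℕ, ∃ z : ℤ, (P.coeff n).coeff m = (z : B) := by
    intro n m
    apply hinv
    intro g
    have h2 := MulSemiringAction.smul_coeff_charpoly (b.map i) n g
    have h3 : (g • P.coeff n).coeff m = g • (P.coeff n).coeff m := Polynomial.coeff_smul _ _ _
    rw [← h3, hP, h2]
  have h2 : ∃ P₀ : ℤ[X][X], P₀.map (mapRingHom (Int.castRingHom B)) = P := by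
    have h3 : P ∈ lifts (mapRingHom (Int.castRingHom B)) := by
      rw [lifts_iff_coeff_lifts]
      intro n
      have h4 : P.coeff n ∈ lifts (Int.castRingHom B) := by
        rw [lifts_iff_coeff_lifts]
        intro m
        obtain ⟨z, hz⟩ := h1 n m
        exact ⟨z, by rw [hz]; rfl⟩
      obtain ⟨p, hp⟩ := (mem_lifts _).mp h4
      exact ⟨p, hp⟩
    exact (mem_lifts _).mp h3
  obtain ⟨P₀, hP₀⟩ := h2
  set PC : C[X][X] := P₀.map (mapRingHom (Int.castRingHom C)) with hPC
  have hmapi : PC.map (mapRingHom i) = P := by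
    rw [← hP₀, hPC, Polynomial.map_map]
    congr 1
    ext <;> simp
  have hzero : PC.eval b = 0 := by
    have hinj : Function.Injective (mapRingHom i : C[X] →+* B[X]) := map_injective i hi
    apply hinj
    rw [map_zero, ← eval₂_at_apply, ← eval_map, hmapi]
    exact MulSemiringAction.eval_charpoly _ _
  have hmapφ : PC.map (mapRingHom φ) = P.map (mapRingHom φ₀) := by
    rw [← hP₀, hPC, Polynomial.map_map, Polynomial.map_map]
    congr 1
    ext <;> simp
  have h5 : (P.map (mapRingHom φ₀)).eval (b.map φ) = 0 := by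
    rw [← hmapφ]
    have : b.map φ = mapRingHom φ b := rfl
    rw [this, eval_map, eval₂_at_apply, hzero, map_zero]
  rw [hP, MulSemiringAction.charpoly_eq, Polynomial.map_prod, eval_prod,
    Finset.prod_eq_zero_iff] at h5
  obtain ⟨g, -, hg⟩ := h5
  refine ⟨g, ?_⟩
  simp only [Polynomial.map_sub, map_X, map_C, eval_sub, eval_X, eval_C, coe_mapRingHom] at hg
  exact sub_eq_zero.mp hg

/-- Any homomorphism is Galois conjugate to a restriction of `φ₀`. -/
lemma exists_conj_hom {B Ω C G : Type*} [CommRing B] [Group G] [Finite G] [MulSemiringAction G B]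
    [CommRing Ω] [IsDomain Ω] [CommRing C] [Module.Finite ℤ C] (i : C →+* B)
    (hi : Function.Injective i) (φ₀ : B →+* Ω) (φ : C →+* Ω)
    (hinv : ∀ x : B, (∀ g : G, g • x = x) → ∃ z : ℤ, x = (z : B)) :
    ∃ g : G, ∀ x : C, φ x = φ₀ (g • i x) := by
  classical
  obtain ⟨m, s, hs⟩ := Module.Finite.exists_fin (R := ℤ) (M := C)
  set b : C[X] := ∑ j : Fin m, monomial (j : ℕ) (s j) with hb
  obtain ⟨g, hg⟩ := exists_conj i hi φ₀ φ hinv b
  refine ⟨g, ?_⟩
  have hcoef : ∀ j : Fin m, b.coeff j = s j := by
    intro j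
    rw [hb, finsetSum_coeff, Finset.sum_eq_single j]
    · rw [coeff_monomial, if_pos rfl]
    · intro k _ hk
      rw [coeff_monomial, if_neg]
      intro h
      exact hk (Fin.ext h)
    · intro h
      exact absurd (Finset.mem_univ j) h
  have h1 : ∀ j : Fin m, φ (s j) = φ₀ (g • i (s j)) := by
    intro j
    have := congrArg (fun p : Polynomial Ω => p.coeff j) hg
    simp only [coeff_map, Polynomial.coeff_smul, hcoef] at this
    exact this
  set A : Submodule ℤ C := AddSubgroup.toIntSubmodule
    (AddMonoidHom.eqLocus φ.toAddMonoidHom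
      (φ₀.toAddMonoidHom.comp ((MulSemiringAction.toRingHom G B g).toAddMonoidHom.comp
        i.toAddMonoidHom))) with hA
  have h2 : (⊤ : Submodule ℤ C) ≤ A := by
    rw [← hs, Submodule.span_le]
    rintro _ ⟨j, rfl⟩
    exact h1 j
  intro x
  exact h2 Submodule.mem_top

end Pool.Agent.Helper4
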