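import Mathlib
import Pool.Agent.helper4.ConjTrick

/-! # The fields attached to subsets of roots -/

noncomputable section

namespace Pool.Agent.Helper4

open Polynomial NumberField

variable (f : ℤ[X])

/-- the splitting field -/
abbrev LL : Type := (f.map (Int.castRingHom ℚ)).SplittingField

instance instCharZeroLL : CharZero (LL f) := charZero_of_injective_algebraMap
  (algebraMap ℚ (LL f)).injective

instance instNumberFieldLL : NumberField (LL f) where
  to_charZero := inferInstance
  to_finiteDimensional := inferInstance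

lemma normLL : @Normal ℚ (LL f) _ _ (Polynomial.SplittingField.instAlgebra _) :=
  @Normal.of_isSplittingField ℚ _ (LL f) _ (_) (f.map (Int.castRingHom ℚ))
    (Polynomial.IsSplittingField.splittingField _)

instance instNormalLL : Normal ℚ (LL f) := by
  have h := normLL f
  have e : (Polynomial.SplittingField.instAlgebra _ : Algebra ℚ (LL f))
      = DivisionRing.toRatAlgebra := Subsingleton.elim _ _
  rw [e] at h
  exact h

instance instIsGaloisLL : IsGalois ℚ (LL f) where
  to_isSeparable := inferInstance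
  to_normal := inferInstance

/-- automorphisms of the ring of integers -/
abbrev GalR : Type := 𝓞 (LL f) ≃ₐ[ℤ] 𝓞 (LL f)

instance instFiniteGalR : Finite (GalR f) :=
  Finite.of_equiv _ (galRestrict ℤ ℚ (LL f) (𝓞 (LL f))).toEquiv

lemma galR_invariant (x : 𝓞 (LL f)) (hx : ∀ g : GalR f, g • x = x) :
    ∃ z : ℤ, x = (z : 𝓞 (LL f)) := by
  have h := Algebra.isInvariant_of_isGalois' ℤ ℚ (LL f) (𝓞 (LL f))
  obtain ⟨z, hz⟩ := h.isInvariant x hx
  exact ⟨z, by rw [← hz]; simp⟩

open scoped Classical in
/-- roots in the ring of integers -/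
def rootsR : Finset (𝓞 (LL f)) := (f.map (Int.castRingHom (𝓞 (LL f)))).roots.toFinset

lemma castRingHom_comp : (algebraMap (𝓞 (LL f)) (LL f)).comp (Int.castRingHom (𝓞 (LL f)))
    = Int.castRingHom (LL f) := RingHom.ext_int _ _

variable {f}

lemma mem_rootsR (hf : f.Monic) (α : 𝓞 (LL f)) :
    α ∈ rootsR f ↔ (f.map (Int.castRingHom (𝓞 (LL f)))).IsRoot α := by
  classical
  unfold rootsR
  rw [Multiset.mem_toFinset, mem_roots]
  exact (hf.map _).ne_zero

lemma natDegree_mapR (hf : f.Monic) : (f.map (Int.castRingHom (𝓞 (LL f)))).natDegree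
    = f.natDegree := hf.natDegree_map _

lemma card_rootsR_aux (hf : f.Monic) (hsep : (f.map (Int.castRingHom ℚ)).Separable) :
    f.natDegree ≤ (rootsR f).card := by
  classical
  set fL := f.map (Int.castRingHom (LL f)) with hfL
  have e0 : (f.map (Int.castRingHom ℚ)).map (algebraMap ℚ (LL f)) = fL := by
    rw [Polynomial.map_map]
    congr 1
  have hsplit : fL.Splits := by
    rw [← e0]
    exact SplittingField.splits _
  have hsepL : fL.Separable := by
    rw [← e0]
    exact hsep.map
  have hcard : fL.roots.toFinset.card = f.natDegree := by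
    rw [Multiset.toFinset_card_of_nodup (nodup_roots hsepL), ← hsplit.natDegree_eq_card_roots,
      hfL, hf.natDegree_map]
  rw [← hcard]
  -- injection from roots in L to roots in R
  have hint : ∀ β ∈ fL.roots.toFinset, ∃ α ∈ rootsR f, (α : LL f) = β := by
    intro β hβ
    rw [Multiset.mem_toFinset, mem_roots (hf.map _).ne_zero, IsRoot.def, eval_map] at hβ
    have hI : IsIntegral ℤ β := ⟨f, hf, by
      have : algebraMap ℤ (LL f) = Int.castRingHom (LL f) := RingHom.ext_int _ _
      rw [this]; exact hβ⟩
    refine ⟨⟨β, hI⟩, ?_, rfl⟩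
    rw [mem_rootsR hf, IsRoot.def, eval_map]
    have hinj : Function.Injective (algebraMap (𝓞 (LL f)) (LL f)) :=
      RingOfIntegers.coe_injective
    apply hinj
    rw [hom_eval₂, castRingHom_comp, map_zero]
    exact hβ
  choose! r hr1 hr2 using hint
  refine Finset.card_le_card_of_injOn r (fun β hβ => hr1 β hβ) ?_
  intro β hβ β' hβ' h
  rw [← hr2 β hβ, ← hr2 β' hβ', h]

lemma rootsR_facts (hf : f.Monic) (hsep : (f.map (Int.castRingHom ℚ)).Separable) :
    (rootsR f).card = f.natDegree ∧
      f.map (Int.castRingHom (𝓞 (LL f))) = ∏ α ∈ rootsR f, (X - C α) := by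
  classical
  set fR := f.map (Int.castRingHom (𝓞 (LL f))) with hfR
  have h1 := card_rootsR_aux hf hsep
  have h2 : Multiset.card fR.roots ≤ fR.natDegree := card_roots' fR
  rw [natDegree_mapR hf] at h2
  have h3 : (rootsR f).card ≤ Multiset.card fR.roots := Multiset.toFinset_card_le _
  have h4 : Multiset.card fR.roots = fR.natDegree := by
    rw [natDegree_mapR hf]; omega
  have h5 : fR.roots.Nodup := by
    rw [← Multiset.toFinset_card_eq_card_iff_nodup]
    change (rootsR f).card = _
    omega
  refine ⟨by omega, ?_⟩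
  have h6 := prod_multiset_X_sub_C_of_monic_of_roots_card_eq (hf.map _) h4
  rw [hfR, ← h6]
  have h7 : (rootsR f).val = fR.roots := by
    unfold rootsR
    rw [Multiset.toFinset_val, Multiset.dedup_eq_self.mpr h5]
  rw [Finset.prod, h7]

/-- polynomial with given set of roots -/
def polyA (A : Finset (𝓞 (LL f))) : (𝓞 (LL f))[X] := ∏ α ∈ A, (X - C α)

lemma monic_polyA (A : Finset (𝓞 (LL f))) : (polyA A).Monic :=
  monic_prod_of_monic _ _ fun α _ => monic_X_sub_C α

lemma natDegree_polyA (A : Finset (𝓞 (LL f))) : (polyA A).natDegree = A.card := by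
  unfold polyA
  rw [natDegree_prod_of_monic _ _ fun α _ => monic_X_sub_C α]
  simp

open scoped Classical in
lemma smul_polyA (g : GalR f) (A : Finset (𝓞 (LL f))) :
    g • polyA A = polyA (A.image (fun x => g • x)) := by
  unfold polyA
  rw [Finset.smul_prod', Finset.prod_image (fun x _ y _ h => MulAction.injective g h)]
  refine Finset.prod_congr rfl fun α _ => ?_
  rw [smul_sub, smul_X, smul_C]

/-- the field generated by the elementary symmetric functions of `A` -/
def fieldA (A : Finset (𝓞 (LL f))) : IntermediateField ℚ (LL f) :=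
  IntermediateField.adjoin ℚ (Set.range fun j : ℕ => (((polyA A).coeff j : 𝓞 (LL f)) : LL f))

lemma coeff_mem_fieldA (A : Finset (𝓞 (LL f))) (j : ℕ) :
    (((polyA A).coeff j : 𝓞 (LL f)) : LL f) ∈ fieldA A :=
  IntermediateField.subset_adjoin _ _ ⟨j, rfl⟩

/-- inclusion of rings of integers -/
def inclA (A : Finset (𝓞 (LL f))) : 𝓞 (fieldA A) →+* 𝓞 (LL f) :=
  algebraMap (𝓞 (fieldA A)) (𝓞 (LL f))

lemma inclA_coe (A : Finset (𝓞 (LL f))) (x : 𝓞 (fieldA A)) :
    ((inclA A x : 𝓞 (LL f)) : LL f) = ((x : fieldA A) : LL f) := rfl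

lemma inclA_injective (A : Finset (𝓞 (LL f))) : Function.Injective (inclA A) := by
  intro x y h
  have h2 : ((inclA A x : 𝓞 (LL f)) : LL f) = ((inclA A y : 𝓞 (LL f)) : LL f) := by rw [h]
  rw [inclA_coe, inclA_coe] at h2
  exact RingOfIntegers.coe_injective (Subtype.ext h2)

lemma exists_lift_poly (A : Finset (𝓞 (LL f))) :
    ∃ h : (𝓞 (fieldA A))[X], h.map (inclA A) = polyA A := by
  have h1 : polyA A ∈ lifts (inclA A) := by
    rw [lifts_iff_coeff_lifts]
    intro j
    have hx := coeff_mem_fieldA A j
    have hint : IsIntegral ℤ (⟨_, hx⟩ : fieldA A) := by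
      have h2 : IsIntegral ℤ (((polyA A).coeff j : 𝓞 (LL f)) : LL f) :=
        RingOfIntegers.isIntegral_coe _
      have hinj : Function.Injective (algebraMap (fieldA A) (LL f)) :=
        (algebraMap (fieldA A) (LL f)).injective
      exact (isIntegral_algebraMap_iff hinj).mp h2
    refine ⟨⟨_, hint⟩, ?_⟩
    apply RingOfIntegers.coe_injective
    rfl
  exact (mem_lifts _).mp h1

/-- the lift of the polynomial to the ring of integers of its field -/
def hA (A : Finset (𝓞 (LL f))) : (𝓞 (fieldA A))[X] := (exists_lift_poly A).choose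

lemma hA_map (A : Finset (𝓞 (LL f))) : (hA A).map (inclA A) = polyA A :=
  (exists_lift_poly A).choose_spec

end Pool.Agent.Helper4
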