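import Mathlib
import Pool.Agent.helper4.SubsetFields

/-! # Counting homomorphisms of the subset fields into finite fields -/

noncomputable section

namespace Pool.Agent.Helper4

open Polynomial NumberField

/-- A homomorphism from the ring of integers to an algebraically closed field. -/
lemma exists_hom_of_char (K : Type*) [Field K] [NumberField K] (p : ℕ) [hp : Fact p.Prime]
    (Ω : Type*) [Field Ω] [IsAlgClosed Ω] [CharP Ω p] : Nonempty (𝓞 K →+* Ω) := by
  have hmax : (Ideal.span {(p : ℤ)}).IsMaximal :=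
    PrincipalIdealRing.isMaximal_of_irreducible (Nat.prime_iff_prime_int.mp hp.out).irreducible
  obtain ⟨Q, hQ, hQ2⟩ := Ideal.exists_maximal_ideal_liesOver_of_isIntegral (S := 𝓞 K)
    (Ideal.span {(p : ℤ)})
  have : CharP (𝓞 K ⧸ Q) p := by
    rw [CharP.charP_iff_prime_eq_zero hp.out]
    have h1 : ((p : ℤ) : 𝓞 K) ∈ Q := by
      have h2 : (p : ℤ) ∈ Ideal.span {(p : ℤ)} := Ideal.mem_span_singleton_self _
      rw [hQ2.over] at h2
      exact h2
    have h3 : Ideal.Quotient.mk Q ((p : ℤ) : 𝓞 K) = 0 := Ideal.Quotient.eq_zero_iff_mem.mpr h1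
    simpa using h3
  let _ : Field (𝓞 K ⧸ Q) := Ideal.Quotient.field Q
  let _ : Algebra (ZMod p) (𝓞 K ⧸ Q) := ZMod.algebra _ p
  let _ : Algebra (ZMod p) Ω := ZMod.algebra _ p
  have : Algebra.IsAlgebraic (ZMod p) (𝓞 K ⧸ Q) := by
    refine ⟨fun x => ?_⟩
    obtain ⟨y, rfl⟩ := Ideal.Quotient.mk_surjective x
    obtain ⟨P, hP1, hP2⟩ := RingOfIntegers.isIntegral y
    refine ⟨P.map (Int.castRingHom (ZMod p)), (hP1.map _).ne_zero, ?_⟩
    have h4 : (Ideal.Quotient.mk Q) (P.eval₂ (algebraMap ℤ (𝓞 K)) y) = 0 := by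
      rw [hP2, map_zero]
    rw [aeval_def, eval₂_map]
    rw [hom_eval₂] at h4
    have e5 : (algebraMap (ZMod p) (𝓞 K ⧸ Q)).comp (Int.castRingHom (ZMod p))
      = (Ideal.Quotient.mk Q).comp (algebraMap ℤ (𝓞 K)) := RingHom.ext_int _ _
    rw [e5]
    exact h4
  exact ⟨(IsAlgClosed.lift : (𝓞 K ⧸ Q) →ₐ[ZMod p] Ω).toRingHom.comp (Ideal.Quotient.mk Q)⟩

variable {f : ℤ[X]}

lemma smul_mem_rootsR (hf : f.Monic) (g : GalR f) {α : 𝓞 (LL f)} (h : α ∈ rootsR f) :
    g • α ∈ rootsR f := by
  rw [mem_rootsR hf, IsRoot.def, eval_map] at *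
  have h1 : g (f.eval₂ (Int.castRingHom (𝓞 (LL f))) α) = 0 := by rw [h, map_zero]
  have h2 := hom_eval₂ f (Int.castRingHom (𝓞 (LL f))) (g : 𝓞 (LL f) →+* 𝓞 (LL f)) α
  have h3 : ((g : 𝓞 (LL f) →+* 𝓞 (LL f))).comp (Int.castRingHom (𝓞 (LL f)))
    = Int.castRingHom (𝓞 (LL f)) := RingHom.ext_int _ _
  rw [h3] at h2
  have h4 : g • α = (g : 𝓞 (LL f) →+* 𝓞 (LL f)) α := rfl
  rw [h4, ← h2]
  exact h1

section Omega

variable {Ω : Type*} [Field Ω] (φ₀ : 𝓞 (LL f) →+* Ω)

lemma injOn_roots (hf : f.Monic) (hsep : (f.map (Int.castRingHom ℚ)).Separable)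
    (hsep2 : (f.map (Int.castRingHom Ω)).Separable) :
    Set.InjOn φ₀ (rootsR f) := by
  have h1 := (rootsR_facts hf hsep).2
  have h2 : f.map (Int.castRingHom Ω) = ∏ α ∈ rootsR f, (X - C (φ₀ α)) := by
    have h3 : (f.map (Int.castRingHom (𝓞 (LL f)))).map φ₀ = f.map (Int.castRingHom Ω) := by
      rw [Polynomial.map_map]
      congr 1
      exact RingHom.ext_int _ _
    rw [← h3, h1, Polynomial.map_prod]
    simp
  rw [h2, separable_prod_X_sub_C_iff'] at hsep2
  intro x hx y hy h
  exact hsep2 x hx y hy h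

open scoped Classical in
lemma image_eq_of_prod_eq (hf : f.Monic) (hinj : Set.InjOn φ₀ (rootsR f))
    {A A' : Finset (𝓞 (LL f))} (hA : A ⊆ rootsR f) (hA' : A' ⊆ rootsR f) (g g' : GalR f)
    (h : ∏ α ∈ A, (X - C (φ₀ (g • α))) = ∏ α ∈ A', (X - C (φ₀ (g' • α)))) :
    A.image (fun x => g • x) = A'.image (fun x => g' • x) := by
  have key : ∀ (A : Finset (𝓞 (LL f))) (_ : A ⊆ rootsR f) (g : GalR f),
      (∏ α ∈ A, (X - C (φ₀ (g • α)))).roots = ((A.image (fun x => g • x)).image φ₀).val := by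
    intro A hA g
    have h1 : ∏ α ∈ A, (X - C (φ₀ (g • α))) = ∏ β ∈ (A.image (fun x => g • x)).image φ₀,
        (X - C β) := by
      rw [Finset.prod_image, Finset.prod_image]
      · intro x _ y _ hxy
        exact MulAction.injective g hxy
      · intro x hx y hy hxy
        simp only [Finset.coe_image, Set.mem_image, Finset.mem_coe] at hx hy
        obtain ⟨x', hx', rfl⟩ := hx
        obtain ⟨y', hy', rfl⟩ := hy
        exact hinj (smul_mem_rootsR hf g (hA hx')) (smul_mem_rootsR hf g (hA hy')) hxy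
    rw [h1, roots_prod_X_sub_C]
  have h2 := congrArg Polynomial.roots h
  rw [key A hA g, key A' hA' g'] at h2
  have h3 : (A.image (fun x => g • x)).image φ₀ = (A'.image (fun x => g' • x)).image φ₀ :=
    Finset.val_injective h2
  have key2 : ∀ (A A' : Finset (𝓞 (LL f))) (_ : A ⊆ rootsR f) (_ : A' ⊆ rootsR f) (g g' : GalR f),
      (A.image (fun x => g • x)).image φ₀ ⊆ (A'.image (fun x => g' • x)).image φ₀ →
      A.image (fun x => g • x) ⊆ A'.image (fun x => g' • x) := by
    intro A A' hA hA' g g' h x hx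
    have h4 : φ₀ x ∈ (A'.image (fun x => g' • x)).image φ₀ := h (Finset.mem_image_of_mem _ hx)
    rw [Finset.mem_image] at h4
    obtain ⟨y, hy, hxy⟩ := h4
    have hx' : x ∈ rootsR f := by
      rw [Finset.mem_image] at hx
      obtain ⟨x', hx', rfl⟩ := hx
      exact smul_mem_rootsR hf g (hA hx')
    have hy' : y ∈ rootsR f := by
      rw [Finset.mem_image] at hy
      obtain ⟨y', hy', rfl⟩ := hy
      exact smul_mem_rootsR hf g' (hA' hy')
    rw [← hinj hy' hx' hxy]
    exact hy
  exact Finset.Subset.antisymm (key2 A A' hA hA' g g' h3.le) (key2 A' A hA' hA g' g h3.ge)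

/-- If `g` and `g'` agree on the set `A`, they agree on the field of `A`. -/
lemma agree_of_image_eq (A : Finset (𝓞 (LL f))) (g g' : GalR f)
    (h : g • polyA A = g' • polyA A) (x : 𝓞 (fieldA A)) :
    g • inclA A x = g' • inclA A x := by
  classical
  set σ := (galRestrict ℤ ℚ (LL f) (𝓞 (LL f))).symm g with hσ
  set σ' := (galRestrict ℤ ℚ (LL f) (𝓞 (LL f))).symm g' with hσ'
  have e1 : ∀ x : 𝓞 (LL f), σ (x : LL f) = ((g • x : 𝓞 (LL f)) : LL f) := fun x =>
    galRestrict_symm_algebraMap_apply ℤ ℚ g x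
  have e2 : ∀ x : 𝓞 (LL f), σ' (x : LL f) = ((g' • x : 𝓞 (LL f)) : LL f) := fun x =>
    galRestrict_symm_algebraMap_apply ℤ ℚ g' x
  have h1 : ∀ j, g • (polyA A).coeff j = g' • (polyA A).coeff j := by
    intro j
    have := congrArg (fun p : Polynomial (𝓞 (LL f)) => p.coeff j) h
    simpa only [Polynomial.coeff_smul] using this
  have h2 : ∀ y ∈ fieldA A, σ y = σ' y := by
    intro y hy
    unfold fieldA at hy
    induction hy using IntermediateField.adjoin_induction with
    | mem x hx =>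
      obtain ⟨j, rfl⟩ := hx
      rw [e1, e2, h1]
    | algebraMap x => rw [AlgEquiv.commutes, AlgEquiv.commutes]
    | add x y _ _ hx hy => rw [map_add, map_add, hx, hy]
    | inv x _ hx => rw [map_inv₀, map_inv₀, hx]
    | mul x y _ _ hx hy => rw [map_mul, map_mul, hx, hy]
  apply RingOfIntegers.coe_injective
  have := h2 ((x : fieldA A) : LL f) (x : fieldA A).2
  have e3 : ((inclA A x : 𝓞 (LL f)) : LL f) = ((x : fieldA A) : LL f) := inclA_coe A x
  rw [← e3, e1, e2] at this
  exact this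

end Omega

/-! ### Orbit representatives -/

open scoped Classical in
/-- conjugate sets of roots -/
def setoidA (f : ℤ[X]) : Setoid (Finset (𝓞 (LL f))) where
  r A B := ∃ g : GalR f, A.image (fun x => g • x) = B
  iseqv := {
    refl := fun A => ⟨1, by simp⟩
    symm := by
      rintro A B ⟨g, rfl⟩
      refine ⟨g⁻¹, ?_⟩
      rw [Finset.image_image]
      simp [Function.comp_def]
    trans := by
      rintro A B C ⟨g, rfl⟩ ⟨g', rfl⟩
      refine ⟨g' * g, ?_⟩
      rw [Finset.image_image]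
      simp [Function.comp_def, mul_smul] }

open scoped Classical in
/-- representatives of the orbits on `k`-subsets of roots -/
def reps (f : ℤ[X]) (k : ℕ) : Finset (Finset (𝓞 (LL f))) :=
  ((rootsR f).powersetCard k).image (fun A => (Quotient.mk (setoidA f) A).out)

lemma reps_sub (hf : f.Monic) {k : ℕ} {A : Finset (𝓞 (LL f))} (h : A ∈ reps f k) :
    A ⊆ rootsR f ∧ A.card = k := by
  classical
  unfold reps at h
  rw [Finset.mem_image] at h
  obtain ⟨B, hB, rfl⟩ := h
  rw [Finset.mem_powersetCard] at hB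
  obtain ⟨g, hg⟩ : (setoidA f).r B (Quotient.mk (setoidA f) B).out :=
    (setoidA f).symm (Quotient.mk_out (s := setoidA f) B)
  rw [← hg]
  constructor
  · intro x hx
    rw [Finset.mem_image] at hx
    obtain ⟨y, hy, rfl⟩ := hx
    exact smul_mem_rootsR hf g (hB.1 hy)
  · rw [Finset.card_image_of_injective _ (MulAction.injective g)]
    exact hB.2

open scoped Classical in
lemma exists_rep {k : ℕ} {B : Finset (𝓞 (LL f))} (h : B ⊆ rootsR f) (h2 : B.card = k) :
    ∃ A ∈ reps f k, ∃ g : GalR f, A.image (fun x => g • x) = B := by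
  refine ⟨(Quotient.mk (setoidA f) B).out, ?_, Quotient.mk_out (s := setoidA f) B⟩
  unfold reps
  exact Finset.mem_image_of_mem _ (Finset.mem_powersetCard.mpr ⟨h, h2⟩)

open scoped Classical in
lemma reps_unique {k : ℕ} {A A' : Finset (𝓞 (LL f))} (h : A ∈ reps f k) (h' : A' ∈ reps f k)
    (g g' : GalR f) (e : A.image (fun x => g • x) = A'.image (fun x => g' • x)) : A = A' := by
  unfold reps at h h'
  rw [Finset.mem_image] at h h'
  obtain ⟨B, hB, rfl⟩ := h
  obtain ⟨B', hB', rfl⟩ := h'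
  have h1 : (setoidA f).r (Quotient.mk (setoidA f) B).out (Quotient.mk (setoidA f) B').out :=
    (setoidA f).trans ⟨g, rfl⟩ ((setoidA f).symm ⟨g', e.symm⟩)
  have h2 := Quotient.sound (s := setoidA f) h1
  rw [Quotient.out_eq, Quotient.out_eq] at h2
  rw [h2]

lemma finite_hom (C F : Type*) [CommRing C] [Module.Finite ℤ C] [CommRing F] [Finite F] :
    Finite (C →+* F) := by
  obtain ⟨m, s, hs⟩ := Module.Finite.exists_fin (R := ℤ) (M := C)
  refine Finite.of_injective (fun φ : C →+* F => fun j => φ (s j)) ?_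
  intro φ ψ h
  set A : Submodule ℤ C := AddSubgroup.toIntSubmodule
    (AddMonoidHom.eqLocus φ.toAddMonoidHom ψ.toAddMonoidHom) with hA
  have h2 : (⊤ : Submodule ℤ C) ≤ A := by
    rw [← hs, Submodule.span_le]
    rintro _ ⟨j, rfl⟩
    exact congrFun h j
  ext x
  exact h2 (Submodule.mem_top (x := x))

/-- Elements fixed by the power of Frobenius are in the finite field. -/
lemma mem_range_of_pow_eq {F Ω : Type*} [Field F] [Fintype F] [Field Ω] [Algebra F Ω] (x : Ω)
    (h : x ^ Fintype.card F = x) : ∃ y : F, algebraMap F Ω y = x := by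
  classical
  have hq : 1 < Fintype.card F := Fintype.one_lt_card
  have hne : (X ^ Fintype.card F - X : Polynomial Ω) ≠ 0 := FiniteField.X_pow_card_sub_X_ne_zero Ω hq
  have h1 : (Finset.univ.image (algebraMap F Ω)) ⊆ (X ^ Fintype.card F - X : Polynomial Ω).roots.toFinset := by
    intro z hz
    rw [Finset.mem_image] at hz
    obtain ⟨y, -, rfl⟩ := hz
    rw [Multiset.mem_toFinset, mem_roots hne, IsRoot.def, eval_sub, eval_pow, eval_X, ← map_pow,
      FiniteField.pow_card, sub_self]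
  have h2 : (X ^ Fintype.card F - X : Polynomial Ω).roots.toFinset.card ≤ Fintype.card F := by
    refine (Multiset.toFinset_card_le _).trans ((card_roots' _).trans ?_)
    rw [FiniteField.X_pow_card_sub_X_natDegree_eq Ω hq]
  have h3 : (Finset.univ.image (algebraMap F Ω)).card = Fintype.card F := by
    rw [Finset.card_image_of_injective _ (algebraMap F Ω).injective, Finset.card_univ]
  have h4 := Finset.eq_of_subset_of_card_le h1 (by omega)
  have h5 : x ∈ (X ^ Fintype.card F - X : Polynomial Ω).roots.toFinset := by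
    rw [Multiset.mem_toFinset, mem_roots hne, IsRoot.def, eval_sub, eval_pow, eval_X, h, sub_self]
  rw [← h4, Finset.mem_image] at h5
  obtain ⟨y, -, hy⟩ := h5
  exact ⟨y, hy⟩

end Pool.Agent.Helper4
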