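import Mathlib
import Pool.Agent.helper4.SubsetCount

/-! # The number of degree `k` divisors of `f` over a finite field -/

noncomputable section

namespace Pool.Agent.Helper4

open Polynomial NumberField

variable {f : ℤ[X]}

lemma monic_hA (A : Finset (𝓞 (LL f))) : (hA A).Monic := by
  have h1 : ((hA A).map (inclA A)).Monic := by
    rw [hA_map]
    exact monic_polyA A
  exact monic_of_injective (inclA_injective A) h1

lemma natDegree_hA (A : Finset (𝓞 (LL f))) : (hA A).natDegree = A.card := by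
  rw [← (monic_hA A).natDegree_map (inclA A), hA_map, natDegree_polyA]

lemma hA_dvd (hf : f.Monic) (hsep : (f.map (Int.castRingHom ℚ)).Separable)
    {A : Finset (𝓞 (LL f))} (h : A ⊆ rootsR f) :
    hA A ∣ f.map (Int.castRingHom (𝓞 (fieldA A))) := by
  rw [← Polynomial.map_dvd_map (inclA A) (inclA_injective A) (monic_hA A), hA_map,
    Polynomial.map_map]
  have e : (inclA A).comp (Int.castRingHom (𝓞 (fieldA A))) = Int.castRingHom (𝓞 (LL f)) :=
    RingHom.ext_int _ _
  rw [e, (rootsR_facts hf hsep).2]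
  exact Finset.prod_dvd_prod_of_subset _ _ _ h

lemma map_hA_eq {Ω : Type*} [CommRing Ω] (φ₀ : 𝓞 (LL f) →+* Ω) (A : Finset (𝓞 (LL f)))
    (g : GalR f) (ψ : 𝓞 (fieldA A) →+* Ω) (h : ∀ x, ψ x = φ₀ (g • inclA A x)) :
    (hA A).map ψ = ∏ α ∈ A, (X - C (φ₀ (g • α))) := by
  have e : ψ = φ₀.comp ((MulSemiringAction.toRingHom (GalR f) _ g).comp (inclA A)) := by
    ext x
    exact h x
  rw [e, ← Polynomial.map_map, ← Polynomial.map_map, hA_map]
  unfold polyA
  rw [Polynomial.map_prod, Polynomial.map_prod]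
  refine Finset.prod_congr rfl fun α _ => ?_
  rw [Polynomial.map_sub, Polynomial.map_sub, map_X, map_X, map_C, map_C]
  rfl

theorem card_sum_hom (hf : f.Monic) (hsep : (f.map (Int.castRingHom ℚ)).Separable)
    (F : Type*) [Field F] [Finite F] (hsepF : (f.map (Int.castRingHom F)).Separable) (k : ℕ) :
    ∑ A ∈ reps f k, Nat.card (𝓞 (fieldA A) →+* F) =
      Nat.card {h : F[X] // h.Monic ∧ h.natDegree = k ∧ h ∣ f.map (Int.castRingHom F)} := by
  classical
  cases nonempty_fintype F
  obtain ⟨p, hp⟩ := CharP.exists F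
  have : Fact p.Prime := ⟨CharP.char_is_prime F p⟩
  set Ω := AlgebraicClosure F with hΩ
  have : CharP Ω p := charP_of_injective_algebraMap (algebraMap F Ω).injective p
  obtain ⟨φ₀⟩ := exists_hom_of_char (LL f) p Ω
  have hmapΩ : (f.map (Int.castRingHom F)).map (algebraMap F Ω) = f.map (Int.castRingHom Ω) := by
    rw [Polynomial.map_map]
    congr 1
  have hsepΩ : (f.map (Int.castRingHom Ω)).Separable := by
    rw [← hmapΩ]
    exact hsepF.map
  have hinj : Set.InjOn φ₀ (rootsR f) := injOn_roots φ₀ hf hsep hsepΩ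
  -- conjugation
  have hconj : ∀ (A : Finset (𝓞 (LL f))) (ψ : 𝓞 (fieldA A) →+* Ω),
      ∃ g : GalR f, ∀ x, ψ x = φ₀ (g • inclA A x) := fun A ψ =>
    exists_conj_hom (inclA A) (inclA_injective A) φ₀ ψ (galR_invariant f)
  have hfin : ∀ A : Finset (𝓞 (LL f)), Finite (𝓞 (fieldA A) →+* F) := fun A => finite_hom _ _
  -- equality criterion
  have hcrit : ∀ (A A' : Finset (𝓞 (LL f))) (_ : A ∈ reps f k) (_ : A' ∈ reps f k)
      (ψ : 𝓞 (fieldA A) →+* Ω) (ψ' : 𝓞 (fieldA A') →+* Ω) (_ : (hA A).map ψ = (hA A').map ψ'),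
      A = A' ∧ HEq ψ ψ' := by
    intro A A' h h' ψ ψ' e
    obtain ⟨g, hg⟩ := hconj A ψ
    obtain ⟨g', hg'⟩ := hconj A' ψ'
    have e2 := e
    rw [map_hA_eq φ₀ A g ψ hg, map_hA_eq φ₀ A' g' ψ' hg'] at e2
    have e3 := image_eq_of_prod_eq φ₀ hf hinj (reps_sub hf h).1 (reps_sub hf h').1 g g' e2
    have e4 := reps_unique h h' g g' e3
    subst e4
    refine ⟨rfl, heq_of_eq ?_⟩
    have e5 : g • polyA A = g' • polyA A := by
      rw [smul_polyA, smul_polyA, e3]
    ext x
    rw [hg, hg', agree_of_image_eq A g g' e5 x]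
  have key : Nat.card (Σ A : reps f k, (𝓞 (fieldA (A : Finset (𝓞 (LL f)))) →+* F)) =
      ∑ A ∈ reps f k, Nat.card (𝓞 (fieldA A) →+* F) := by
    rw [Nat.card_sigma]
    exact Finset.sum_coe_sort (reps f k) (fun A => Nat.card (𝓞 (fieldA A) →+* F))
  rw [← key]
  refine Nat.card_eq_of_bijective (fun x => ⟨(hA (x.1 : Finset (𝓞 (LL f)))).map x.2, ?_, ?_, ?_⟩)
    ⟨?_, ?_⟩
  · exact (monic_hA _).map _
  · rw [(monic_hA _).natDegree_map, natDegree_hA]
    exact (reps_sub hf x.1.2).2
  · have h1 := Polynomial.map_dvd x.2 (hA_dvd hf hsep (reps_sub hf x.1.2).1)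
    rw [Polynomial.map_map] at h1
    have e : x.2.comp (Int.castRingHom (𝓞 (fieldA (x.1 : Finset (𝓞 (LL f)))))) = Int.castRingHom F :=
      RingHom.ext_int _ _
    rw [e] at h1
    exact h1
  · rintro ⟨⟨A, hA1⟩, φ⟩ ⟨⟨A', hA1'⟩, φ'⟩ h
    have h1 : (hA A).map φ = (hA A').map φ' := congrArg Subtype.val h
    have h2 : (hA A).map ((algebraMap F Ω).comp φ) = (hA A').map ((algebraMap F Ω).comp φ') := by
      rw [← Polynomial.map_map, ← Polynomial.map_map, h1]
    obtain ⟨e1, e2⟩ := hcrit A A' hA1 hA1' _ _ h2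
    subst e1
    have e3 : φ = φ' := by
      ext x
      have e4 := RingHom.congr_fun (eq_of_heq e2) x
      exact (algebraMap F Ω).injective e4
    rw [e3]
  · rintro ⟨h, hm, hd, hdvd⟩
    -- roots of `h`
    have hfact : f.map (Int.castRingHom Ω) = ∏ α ∈ rootsR f, (X - C (φ₀ α)) := by
      have h3 : (f.map (Int.castRingHom (𝓞 (LL f)))).map φ₀ = f.map (Int.castRingHom Ω) := by
        rw [Polynomial.map_map]
        congr 1
        exact RingHom.ext_int _ _
      rw [← h3, (rootsR_facts hf hsep).2, Polynomial.map_prod]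
      simp
    set hΩ' := h.map (algebraMap F Ω) with hhΩ
    have hdvd2 : hΩ' ∣ f.map (Int.castRingHom Ω) := by
      rw [← hmapΩ]
      exact Polynomial.map_dvd _ hdvd
    have hsep' : hΩ'.Separable := hsepΩ.of_dvd hdvd2
    have hsplit : hΩ'.Splits := IsAlgClosed.splits _
    have hroots : hΩ' = ∏ β ∈ hΩ'.roots.toFinset, (X - C β) := by
      have h6 := prod_multiset_X_sub_C_of_monic_of_roots_card_eq (hm.map (algebraMap F Ω))
        hsplit.natDegree_eq_card_roots.symm
      conv_lhs => rw [hhΩ, ← h6]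
      have h7 : hΩ'.roots.toFinset.val = hΩ'.roots := by
        rw [Multiset.toFinset_val, Multiset.dedup_eq_self.mpr (nodup_roots hsep')]
      rw [Finset.prod, h7]
    set B : Finset (𝓞 (LL f)) := (rootsR f).filter (fun α => φ₀ α ∈ hΩ'.roots.toFinset) with hB
    have hBsub : B ⊆ rootsR f := Finset.filter_subset _ _
    have hBim : B.image φ₀ = hΩ'.roots.toFinset := by
      apply Finset.Subset.antisymm
      · intro y hy
        rw [Finset.mem_image] at hy
        obtain ⟨x, hx, rfl⟩ := hy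
        exact (Finset.mem_filter.mp hx).2
      · intro y hy
        have hy1 : y ∈ hΩ'.roots := Multiset.mem_toFinset.mp hy
        have hy2 : (f.map (Int.castRingHom Ω)).IsRoot y :=
          (isRoot_of_mem_roots hy1).dvd hdvd2
        rw [hfact, IsRoot.def, eval_prod, Finset.prod_eq_zero_iff] at hy2
        obtain ⟨α, hα, hα2⟩ := hy2
        have hα3 : y = φ₀ α := by
          simpa [sub_eq_zero] using hα2
        rw [Finset.mem_image]
        refine ⟨α, Finset.mem_filter.mpr ⟨hα, ?_⟩, hα3.symm⟩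
        rw [← hα3]
        exact hy
    have hprodB : hΩ' = ∏ α ∈ B, (X - C (φ₀ α)) := by
      rw [hroots, ← hBim, Finset.prod_image]
      intro x hx y hy hxy
      exact hinj (hBsub hx) (hBsub hy) hxy
    have hcardB : B.card = k := by
      have h1 := congrArg natDegree hprodB
      rw [hhΩ, hm.natDegree_map, hd, natDegree_prod_of_monic _ _ (fun α _ => monic_X_sub_C _)] at h1
      simpa using h1.symm
    obtain ⟨A, hAr, g, hg⟩ := exists_rep hBsub hcardB
    set ψ : 𝓞 (fieldA A) →+* Ω := φ₀.comp ((MulSemiringAction.toRingHom (GalR f) _ g).comp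
      (inclA A)) with hψ
    have hψ1 : ∀ x, ψ x = φ₀ (g • inclA A x) := fun x => rfl
    have hψ2 : (hA A).map ψ = hΩ' := by
      rw [map_hA_eq φ₀ A g ψ hψ1, hprodB, ← hg, Finset.prod_image]
      intro x _ y _ hxy
      exact MulAction.injective g hxy
    -- Frobenius
    set fr : Ω →+* Ω := ((FiniteField.frobeniusAlgHom F Ω : Ω →ₐ[F] Ω) : Ω →+* Ω) with hfr
    have hfr1 : ∀ x : Ω, fr x = x ^ Fintype.card F := fun x => by
      rw [hfr]; simp
    have hfr2 : fr.comp (algebraMap F Ω) = algebraMap F Ω := by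
      ext x
      simp [hfr1, ← map_pow, FiniteField.pow_card]
    have hψ3 : (hA A).map (fr.comp ψ) = (hA A).map ψ := by
      rw [← Polynomial.map_map, hψ2, hhΩ, Polynomial.map_map, hfr2]
    have hψ4 : fr.comp ψ = ψ := eq_of_heq (hcrit A A hAr hAr _ _ hψ3).2
    have hψ5 : ∀ x, ∃ y : F, algebraMap F Ω y = ψ x := by
      intro x
      apply mem_range_of_pow_eq
      rw [← hfr1]
      exact RingHom.congr_fun hψ4 x
    choose φ hφ using hψ5
    have hinjF := (algebraMap F Ω).injective
    let φ' : 𝓞 (fieldA A) →+* F :=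
      { toFun := φ
        map_one' := hinjF (by rw [hφ, map_one, map_one])
        map_mul' := fun x y => hinjF (by rw [hφ, map_mul, map_mul, hφ, hφ])
        map_zero' := hinjF (by rw [hφ, map_zero, map_zero])
        map_add' := fun x y => hinjF (by rw [hφ, map_add, map_add, hφ, hφ]) }
    have hφ' : (algebraMap F Ω).comp φ' = ψ := by
      ext x
      exact hφ x
    refine ⟨⟨⟨A, hAr⟩, φ'⟩, ?_⟩
    apply Subtype.ext
    change (hA A).map φ' = h
    apply Polynomial.map_injective (algebraMap F Ω) hinjF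
    rw [Polynomial.map_map, hφ', hψ2]

end Pool.Agent.Helper4
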