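import Mathlib
import Pool.Agent.helper4.EulerDed
import Pool.Agent.helper4.SubsetMain

/-! # Primes over a rational prime, and homomorphisms to finite fields -/

noncomputable section

namespace Pool.Agent.Helper4

open Filter Topology NumberField nonZeroDivisors IsDedekindDomain Module

variable {K : Type*} [Field K] [NumberField K]

/-- primes above `p` -/
abbrev Over (K : Type*) [Field K] [NumberField K] (p : ℕ) : Type _ :=
  {q : PK K // (p : 𝓞 K) ∈ q.asIdeal}

lemma finite_Over (p : ℕ) (hp : p ≠ 0) : Finite (Over K p) := by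
  have h0 : Ideal.span {(p : 𝓞 K)} ≠ 0 := by
    rw [Ne, Ideal.zero_eq_bot, Ideal.span_singleton_eq_bot]
    exact_mod_cast hp
  have h1 := Ideal.finite_factors h0
  refine (Set.Finite.subset h1 ?_).to_subtype
  intro q hq
  change q.asIdeal ∣ _
  rw [Ideal.dvd_span_singleton]
  exact hq

/-- residue degree -/
def resDeg (p : ℕ) (q : PK K) : ℕ := Nat.log p (Ideal.absNorm q.asIdeal)

lemma charP_quot {p : ℕ} (hp : p.Prime) (q : PK K) (hq : (p : 𝓞 K) ∈ q.asIdeal) :
    CharP (𝓞 K ⧸ q.asIdeal) p := by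
  have : Nontrivial (𝓞 K ⧸ q.asIdeal) := Ideal.Quotient.nontrivial_iff.mpr q.isPrime.ne_top
  rw [CharP.charP_iff_prime_eq_zero hp]
  have := Ideal.Quotient.eq_zero_iff_mem.mpr hq
  simpa using this

lemma finite_quot (q : PK K) : Finite (𝓞 K ⧸ q.asIdeal) :=
  Ideal.finiteQuotientOfFreeOfNeBot _ q.ne_bot

lemma absNorm_eq_card (q : PK K) : Ideal.absNorm q.asIdeal = Nat.card (𝓞 K ⧸ q.asIdeal) := by
  rw [Ideal.absNorm_apply, Submodule.cardQuot_apply]

lemma absNorm_eq_pow {p : ℕ} (hp : p.Prime) (q : PK K) (hq : (p : 𝓞 K) ∈ q.asIdeal) :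
    Ideal.absNorm q.asIdeal = p ^ resDeg p q ∧ 0 < resDeg p q := by
  have := finite_quot q
  have : Fact p.Prime := ⟨hp⟩
  have := charP_quot hp q hq
  let _ : Field (𝓞 K ⧸ q.asIdeal) := @Ideal.Quotient.field _ _ q.asIdeal q.isMaximal
  let _ : Algebra (ZMod p) (𝓞 K ⧸ q.asIdeal) := ZMod.algebra _ p
  have h1 : p ^ finrank (ZMod p) (𝓞 K ⧸ q.asIdeal) = Ideal.absNorm q.asIdeal := by
    rw [absNorm_eq_card]
    exact FiniteField.pow_finrank_eq_natCard p _
  have h2 : resDeg p q = finrank (ZMod p) (𝓞 K ⧸ q.asIdeal) := by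
    unfold resDeg
    rw [← h1, Nat.log_pow hp.one_lt]
  rw [h2]
  exact ⟨h1.symm, finrank_pos⟩

/-- homomorphisms between finite fields -/
lemma card_hom_finite {p : ℕ} [Fact p.Prime] (k F : Type*) [Field k] [Finite k] [CharP k p]
    [Field F] [Finite F] [CharP F p] (f r : ℕ) (hk : Nat.card k = p ^ f) (hF : Nat.card F = p ^ r) :
    Nat.card (k →+* F) = if f ∣ r then f else 0 := by
  let _ : Algebra (ZMod p) k := ZMod.algebra _ p
  let _ : Algebra (ZMod p) F := ZMod.algebra _ p
  have hp : 1 < p := (Fact.out : p.Prime).one_lt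
  have h1 : finrank (ZMod p) k = f := by
    apply Nat.pow_right_injective hp
    simp only
    rw [← hk, FiniteField.pow_finrank_eq_natCard]
  have h2 : finrank (ZMod p) F = r := by
    apply Nat.pow_right_injective hp
    simp only
    rw [← hF, FiniteField.pow_finrank_eq_natCard]
  have e : (k →+* F) ≃ (k →ₐ[ZMod p] F) :=
    { toFun := fun φ => { φ with commutes' := fun x => by
                                  have : φ.comp (algebraMap (ZMod p) k) = algebraMap (ZMod p) F :=
                                    Subsingleton.elim _ _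
                                  exact RingHom.congr_fun this x }
      invFun := fun φ => φ.toRingHom
      left_inv := fun φ => by ext; rfl
      right_inv := fun φ => by ext; rfl }
  rw [Nat.card_congr e]
  split_ifs with h
  · rw [FiniteField.natCard_algHom_of_finrank_dvd (by rw [h1, h2]; exact h), h1]
  · have : IsEmpty (k →ₐ[ZMod p] F) := by
      rw [← not_nonempty_iff, FiniteField.nonempty_algHom_iff_finrank_dvd, h1, h2]
      exact h
    exact Nat.card_of_isEmpty

lemma card_hom_sum {p : ℕ} (hp : p.Prime) (F : Type*) [Field F] [Finite F] [CharP F p] (r : ℕ)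
    (hF : Nat.card F = p ^ r) [Fintype (Over K p)] :
    Nat.card (𝓞 K →+* F) = ∑ q : Over K p, if resDeg p q.1 ∣ r then resDeg p q.1 else 0 := by
  have : Fact p.Prime := ⟨hp⟩
  have hfin : ∀ q : Over K p, Finite ((𝓞 K ⧸ q.1.asIdeal) →+* F) := by
    intro q
    have : Module.Finite ℤ (𝓞 K ⧸ q.1.asIdeal) := inferInstance
    exact finite_hom _ _
  have h1 : Nat.card (𝓞 K →+* F) = Nat.card (Σ q : Over K p, ((𝓞 K ⧸ q.1.asIdeal) →+* F)) := by
    symm
    refine Nat.card_eq_of_bijective (fun x => x.2.comp (Ideal.Quotient.mk x.1.1.asIdeal)) ⟨?_, ?_⟩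
    · rintro ⟨q, ψ⟩ ⟨q', ψ'⟩ h
      simp only at h
      have hker : ∀ (q : Over K p) (ψ : (𝓞 K ⧸ q.1.asIdeal) →+* F),
          RingHom.ker (ψ.comp (Ideal.Quotient.mk q.1.asIdeal)) = q.1.asIdeal := by
        intro q ψ
        let _ : Field (𝓞 K ⧸ q.1.asIdeal) := @Ideal.Quotient.field _ _ q.1.asIdeal q.1.isMaximal
        ext x
        rw [RingHom.mem_ker, RingHom.comp_apply, map_eq_zero_iff ψ ψ.injective,
          Ideal.Quotient.eq_zero_iff_mem]
      have e1 : q = q' := by
        apply Subtype.ext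
        apply HeightOneSpectrum.ext
        rw [← hker q ψ, ← hker q' ψ', h]
      subst e1
      have e2 : ψ = ψ' := by
        apply Ideal.Quotient.ringHom_ext
        exact h
      rw [e2]
    · intro φ
      have hpk : (p : 𝓞 K) ∈ RingHom.ker φ := by
        rw [RingHom.mem_ker, map_natCast, CharP.cast_eq_zero]
      have hne : RingHom.ker φ ≠ ⊥ := by
        intro h0
        rw [h0, Ideal.mem_bot] at hpk
        exact hp.ne_zero (by exact_mod_cast hpk)
      refine ⟨⟨⟨⟨RingHom.ker φ, RingHom.ker_isPrime φ, hne⟩, hpk⟩,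
        Ideal.Quotient.lift _ φ (fun x hx => hx)⟩, ?_⟩
      ext x
      simp
  rw [h1, Nat.card_sigma]
  refine Finset.sum_congr rfl fun q _ => ?_
  have := finite_quot q.1
  have := charP_quot hp q.1 q.2
  let _ : Field (𝓞 K ⧸ q.1.asIdeal) := @Ideal.Quotient.field _ _ q.1.asIdeal q.1.isMaximal
  refine card_hom_finite (p := p) _ _ _ _ ?_ hF
  rw [← absNorm_eq_card]
  exact (absNorm_eq_pow hp q.1 q.2).1

end Pool.Agent.Helper4
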