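import Mathlib
import Pool.Agent.helper4.PrimesOver

/-! # Local factors over rational primes -/

set_option linter.unusedSectionVars false

noncomputable section

namespace Pool.Agent.Helper4

open Filter Topology NumberField nonZeroDivisors IsDedekindDomain Module Polynomial

variable {K : Type*} [Field K] [NumberField K]

lemma exists_prime_mem (q : PK K) : ∃ p : ℕ, p.Prime ∧ (p : 𝓞 K) ∈ q.asIdeal := by
  have := finite_quot q
  have : IsDomain (𝓞 K ⧸ q.asIdeal) := Ideal.Quotient.isDomain_iff_prime _ |>.mpr q.isPrime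
  obtain ⟨p, hp⟩ := CharP.exists (𝓞 K ⧸ q.asIdeal)
  refine ⟨p, CharP.char_is_prime (𝓞 K ⧸ q.asIdeal) p, ?_⟩
  rw [← Ideal.Quotient.eq_zero_iff_mem, map_natCast]
  exact CharP.cast_eq_zero _ _

lemma prime_mem_unique (q : PK K) {p p' : ℕ} (hp : p.Prime) (hp' : p'.Prime)
    (h : (p : 𝓞 K) ∈ q.asIdeal) (h' : (p' : 𝓞 K) ∈ q.asIdeal) : p = p' := by
  by_contra hne
  have hcop : Nat.Coprime p p' := (Nat.coprime_primes hp hp').mpr hne
  obtain ⟨a, b, hab⟩ := (Nat.isCoprime_iff_coprime.mpr hcop)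
  apply q.isPrime.ne_top
  rw [Ideal.eq_top_iff_one]
  have h1 : ((a * (p : ℤ) + b * (p' : ℤ) : ℤ) : 𝓞 K) = 1 := by rw [hab]; simp
  rw [← h1]
  push_cast
  exact q.asIdeal.add_mem (q.asIdeal.mul_mem_left _ h) (q.asIdeal.mul_mem_left _ h')

/-- primes of `K` sorted by residue characteristic -/
def equivSigma : (Σ p : Nat.Primes, Over K p) ≃ PK K :=
  Equiv.ofBijective (fun x => x.2.1) (by
    constructor
    · rintro ⟨p, q, hq⟩ ⟨p', q', hq'⟩ h
      simp only at h
      subst h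
      have : p = p' := Subtype.ext (prime_mem_unique q p.2 p'.2 hq hq')
      subst this
      rfl
    · intro q
      obtain ⟨p, hp, hq⟩ := exists_prime_mem q
      exact ⟨⟨⟨p, hp⟩, ⟨q, hq⟩⟩, rfl⟩)

/-- Euler factor at `p` of the Euler product attached to a function on primes -/
def locF (x : PK K → ℂ) (p : ℕ) : ℂ := ∏ᶠ q : Over K p, (1 - x q.1)⁻¹

lemma hasProd_locF (x : PK K → ℂ) {a : ℂ} (h : HasProd (fun q : PK K => (1 - x q)⁻¹) a) :
    HasProd (fun p : Nat.Primes => locF x p) a := by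
  have h1 := (equivSigma (K := K)).hasProd_iff.mpr h
  refine HasProd.sigma h1 ?_
  intro p
  have := finite_Over (K := K) p p.2.ne_zero
  have : Fintype (Over K p) := Fintype.ofFinite _
  unfold locF
  rw [finprod_eq_prod_of_fintype]
  exact hasProd_fintype _

/-- the roots of `X ^ f = ε` -/
def rootsOf (f : ℕ) (ε : ℂ) : Multiset ℂ := nthRoots f ε

lemma rootsOf_eq {f : ℕ} (hf : 0 < f) (α : ℂ) :
    rootsOf f (α ^ f) = (Multiset.range f).map
      (fun k => Complex.exp (2 * Real.pi * Complex.I / f) ^ k * α) :=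
  (Complex.isPrimitiveRoot_exp f hf.ne').nthRoots_eq rfl

lemma exists_root {f : ℕ} (hf : 0 < f) (ε : ℂ) : ∃ α : ℂ, α ^ f = ε :=
  IsAlgClosed.exists_pow_nat_eq ε hf

lemma norm_of_mem_rootsOf {f : ℕ} (hf : 0 < f) {ε : ℂ} (hε : ‖ε‖ = 1) {α : ℂ}
    (h : α ∈ rootsOf f ε) : ‖α‖ = 1 := by
  rw [rootsOf, mem_nthRoots hf] at h
  have h1 : ‖α‖ ^ f = 1 := by rw [← norm_pow, h, hε]
  exact (pow_eq_one_iff_of_nonneg (norm_nonneg _) hf.ne').mp h1

lemma sum_pow_rootsOf {f : ℕ} (hf : 0 < f) (ε : ℂ) (r : ℕ) :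
    ((rootsOf f ε).map (fun α => α ^ r)).sum = if f ∣ r then (f : ℂ) * ε ^ (r / f) else 0 := by
  obtain ⟨α, rfl⟩ := exists_root hf ε
  rw [rootsOf_eq hf, Multiset.map_map]
  set ζ := Complex.exp (2 * Real.pi * Complex.I / f) with hζ
  have hprim : IsPrimitiveRoot ζ f := Complex.isPrimitiveRoot_exp f hf.ne'
  have h1 : (Multiset.map ((fun α => α ^ r) ∘ fun k => ζ ^ k * α) (Multiset.range f)).sum
      = ∑ k ∈ Finset.range f, (ζ ^ r) ^ k * α ^ r := by
    rw [Finset.sum, Finset.range_val]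
    congr 1
    apply Multiset.map_congr rfl
    intro k _
    simp only [Function.comp]
    rw [mul_pow, ← pow_mul, ← pow_mul, mul_comm k r]
  rw [h1, ← Finset.sum_mul]
  split_ifs with h
  · obtain ⟨m, rfl⟩ := h
    have h2 : ζ ^ (f * m) = 1 := by rw [pow_mul, hprim.pow_eq_one, one_pow]
    rw [h2, Nat.mul_div_cancel_left m hf]
    simp [pow_mul]
  · have h2 : ζ ^ r ≠ 1 := by
      intro h3
      exact h (hprim.dvd_of_pow_eq_one r h3)
    rw [geom_sum_eq h2, ← pow_mul, mul_comm r f, pow_mul, hprim.pow_eq_one, one_pow, sub_self,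
      zero_div, zero_mul]

lemma prod_one_sub_rootsOf {f : ℕ} (hf : 0 < f) (ε T : ℂ) :
    ((rootsOf f ε).map (fun α => 1 - α * T)).prod = 1 - ε * T ^ f := by
  obtain ⟨α, rfl⟩ := exists_root hf ε
  rw [rootsOf_eq hf, Multiset.map_map]
  set ζ := Complex.exp (2 * Real.pi * Complex.I / f) with hζ
  have hprim : IsPrimitiveRoot ζ f := Complex.isPrimitiveRoot_exp f hf.ne'
  have h1 := hprim.pow_sub_pow_eq_prod_sub_mul 1 (α * T) hf
  rw [one_pow, mul_pow] at h1
  rw [h1]
  have h2 : nthRootsFinset f (1 : ℂ) = (Finset.range f).image (fun k => ζ ^ k) := by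
    classical
    ext z
    rw [mem_nthRootsFinset hf, Finset.mem_image]
    constructor
    · intro hz
      have : NeZero f := ⟨hf.ne'⟩
      obtain ⟨i, hi, rfl⟩ := hprim.eq_pow_of_pow_eq_one hz
      exact ⟨i, Finset.mem_range.mpr hi, rfl⟩
    · rintro ⟨k, -, rfl⟩
      rw [← pow_mul, mul_comm, pow_mul, hprim.pow_eq_one, one_pow]
  rw [h2, Finset.prod_image]
  · rw [Finset.prod, Finset.range_val]
    congr 1
    apply Multiset.map_congr rfl
    intro k _
    simp only [Function.comp]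
    ring
  · intro i hi j hj h
    exact hprim.pow_inj (Finset.mem_range.mp hi) (Finset.mem_range.mp hj) h

variable (K) in
/-- Frobenius eigenvalues at `p` attached to a function on the primes of `K` -/
def specF (p : ℕ) (ε : PK K → ℂ) : Multiset ℂ := ∑ᶠ q : Over K p, rootsOf (resDeg p q.1) (ε q.1)

lemma specF_eq (p : ℕ) [Fintype (Over K p)] (ε : PK K → ℂ) :
    specF K p ε = ∑ q : Over K p, rootsOf (resDeg p q.1) (ε q.1) :=
  finsum_eq_sum_of_fintype _

lemma sum_map_finset_sum {ι : Type*} (s : Finset ι) (B : ι → Multiset ℂ) (g : ℂ → ℂ) :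
    ((∑ i ∈ s, B i).map g).sum = ∑ i ∈ s, ((B i).map g).sum := by
  classical
  induction s using Finset.induction_on with
  | empty => simp
  | insert a s ha ih => rw [Finset.sum_insert ha, Finset.sum_insert ha, Multiset.map_add,
      Multiset.sum_add, ih]

lemma prod_map_finset_sum {ι : Type*} (s : Finset ι) (B : ι → Multiset ℂ) (g : ℂ → ℂ) :
    ((∑ i ∈ s, B i).map g).prod = ∏ i ∈ s, ((B i).map g).prod := by
  classical
  induction s using Finset.induction_on with
  | empty => simp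
  | insert a s ha ih => rw [Finset.sum_insert ha, Finset.prod_insert ha, Multiset.map_add,
      Multiset.prod_add, ih]

lemma norm_of_mem_specF {p : ℕ} (hp : p.Prime) {ε : PK K → ℂ} (hε : ∀ q, (p : 𝓞 K) ∈ q.asIdeal → ‖ε q‖ = 1)
    {α : ℂ} (h : α ∈ specF K p ε) : ‖α‖ = 1 := by
  have := finite_Over (K := K) p hp.ne_zero
  have : Fintype (Over K p) := Fintype.ofFinite _
  rw [specF_eq, Multiset.mem_sum] at h
  obtain ⟨q, -, hq⟩ := h
  exact norm_of_mem_rootsOf (absNorm_eq_pow hp q.1 q.2).2 (hε q.1 q.2) hq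

lemma sum_pow_specF {p : ℕ} (hp : p.Prime) [Fintype (Over K p)] (ε : PK K → ℂ) (r : ℕ) :
    ((specF K p ε).map (fun α => α ^ r)).sum = ∑ q : Over K p,
      if resDeg p q.1 ∣ r then (resDeg p q.1 : ℂ) * ε q.1 ^ (r / resDeg p q.1) else 0 := by
  rw [specF_eq, sum_map_finset_sum]
  refine Finset.sum_congr rfl fun q _ => ?_
  exact sum_pow_rootsOf (absNorm_eq_pow hp q.1 q.2).2 _ _

lemma sum_pow_specF_one {p : ℕ} (hp : p.Prime) (F : Type*) [Field F] [Finite F] [CharP F p]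
    (r : ℕ) (hF : Nat.card F = p ^ r) :
    ((specF K p (fun _ => 1)).map (fun α => α ^ r)).sum = Nat.card (𝓞 K →+* F) := by
  have := finite_Over (K := K) p hp.ne_zero
  have : Fintype (Over K p) := Fintype.ofFinite _
  rw [sum_pow_specF hp, card_hom_sum hp F r hF]
  push_cast
  refine Finset.sum_congr rfl fun q _ => ?_
  simp

lemma natpow_cpow (p f : ℕ) (s : ℂ) : ((p ^ f : ℕ) : ℂ) ^ s = ((p : ℂ) ^ s) ^ f := by
  induction f with
  | zero => simp
  | succ f ih =>
    rw [pow_succ, pow_succ, ← ih, Nat.cast_mul, Complex.natCast_mul_natCast_cpow]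

lemma pow_resDeg_cpow {p : ℕ} (hp : p.Prime) (q : PK K) (hq : (p : 𝓞 K) ∈ q.asIdeal) (s : ℂ) :
    ((p : ℂ) ^ (-s)) ^ resDeg p q = (Ideal.absNorm q.asIdeal : ℂ) ^ (-s) := by
  rw [(absNorm_eq_pow hp q hq).1, natpow_cpow]

lemma prod_specF {p : ℕ} (hp : p.Prime) (ε : PK K → ℂ) (s : ℂ) :
    ((specF K p ε).map (fun α => (1 - α * (p : ℂ) ^ (-s))⁻¹)).prod
      = locF (fun q => ε q * (Ideal.absNorm q.asIdeal : ℂ) ^ (-s)) p := by
  have := finite_Over (K := K) p hp.ne_zero
  have : Fintype (Over K p) := Fintype.ofFinite _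
  unfold locF
  rw [finprod_eq_prod_of_fintype, specF_eq, prod_map_finset_sum]
  refine Finset.prod_congr rfl fun q _ => ?_
  simp only
  rw [← pow_resDeg_cpow hp q.1 q.2, ← prod_one_sub_rootsOf (absNorm_eq_pow hp q.1 q.2).2,
    ← Multiset.prod_map_inv']
  rw [Multiset.map_map]
  rfl

end Pool.Agent.Helper4
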