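import Mathlib
import Pool.Agent.helper4.LocalFactor
import Pool.Agent.helper4.GaussJac

/-! # Quadratic characters of finite fields and homomorphisms -/

set_option linter.unusedSectionVars false

noncomputable section

namespace Pool.Agent.Helper4

open Filter Topology NumberField nonZeroDivisors IsDedekindDomain Module Polynomial

open scoped Classical

/-- the quadratic character of a field, as a complex number -/
def eta (F : Type*) [Field F] (x : F) : ℂ := if x = 0 then 0 else if IsSquare x then 1 else -1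

section finite

variable (F : Type*) [Field F] [Finite F]

lemma eta_zero : eta F 0 = 0 := by simp [eta]

lemma eta_one : eta F 1 = 1 := by simp [eta]

lemma eta_sq {x : F} (hx : x ≠ 0) : eta F x * eta F x = 1 := by
  unfold eta
  rw [if_neg hx]
  split_ifs <;> norm_num

lemma eta_eq_quadraticChar [Fintype F] (x : F) : eta F x = ((quadraticChar F x : ℤ) : ℂ) := by
  unfold eta
  rw [quadraticChar_apply, quadraticCharFun]
  split_ifs <;> simp

lemma eta_mul (x y : F) : eta F (x * y) = eta F x * eta F y := by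
  have := Fintype.ofFinite F
  rw [eta_eq_quadraticChar, eta_eq_quadraticChar, eta_eq_quadraticChar, map_mul]
  push_cast
  rfl

lemma eta_mul_sq {x y : F} (hy : y ≠ 0) : eta F (x * y ^ 2) = eta F x := by
  rw [eta_mul, sq, eta_mul, eta_sq F hy, mul_one]

lemma card_sqrt (h2 : (2 : F) ≠ 0) (a : F) : (Nat.card {y : F // y ^ 2 = a} : ℂ) = 1 + eta F a := by
  have := Fintype.ofFinite F
  have h := quadraticChar_card_sqrts (F := F) (by
    intro h
    apply h2
    have h3 : ((2 : ℕ) : F) = 0 := by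
      rw [← h]; exact ringChar.Nat.cast_ringChar
    exact_mod_cast h3) a
  rw [eta_eq_quadraticChar]
  have h4 : (Nat.card {y : F // y ^ 2 = a} : ℤ) = quadraticChar F a + 1 := by
    rw [← h, Nat.card_eq_fintype_card, Set.toFinset_card]
    rfl
  have h5 : ((Nat.card {y : F // y ^ 2 = a} : ℤ) : ℂ) = ((quadraticChar F a + 1 : ℤ) : ℂ) := by
    rw [h4]
  push_cast at h5
  rw [h5]
  ring

lemma sum_eta (h2 : (2 : F) ≠ 0) [Fintype F] : ∑ x : F, eta F x = 0 := by
  have h := quadraticChar_sum_zero (F := F) (by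
    intro h
    apply h2
    have h3 : ((2 : ℕ) : F) = 0 := by
      rw [← h]; exact ringChar.Nat.cast_ringChar
    exact_mod_cast h3)
  simp_rw [eta_eq_quadraticChar]
  exact_mod_cast h

lemma eta_pow (h2 : (2 : F) ≠ 0) {x : F} (hx : x ≠ 0) :
    ∃ ε : ℤ, (ε = 1 ∨ ε = -1) ∧ eta F x = (ε : ℂ) ∧ x ^ (Nat.card F / 2) = (ε : F) := by
  have := Fintype.ofFinite F
  have hchar : ringChar F ≠ 2 := by
    intro h
    apply h2
    have h3 : ((2 : ℕ) : F) = 0 := by
      rw [← h]; exact ringChar.Nat.cast_ringChar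
    exact_mod_cast h3
  refine ⟨quadraticChar F x, quadraticChar_dichotomy hx, eta_eq_quadraticChar F x, ?_⟩
  rw [Nat.card_eq_fintype_card]
  exact (quadraticChar_eq_pow_of_char_ne_two' hchar x).symm

end finite

lemma eta_hom {k F : Type*} [Field k] [Finite k] [Field F] [Finite F] (h2 : (2 : k) ≠ 0)
    (ψ : k →+* F) {m : ℕ} (hcard : Nat.card F = Nat.card k ^ m) {x : k} (hx : x ≠ 0) :
    eta F (ψ x) = eta k x ^ m := by
  have h2F : (2 : F) ≠ 0 := by
    have : ψ 2 ≠ 0 := by
      rw [Ne, map_eq_zero_iff ψ ψ.injective]; exact h2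
    rwa [map_ofNat] at this
  obtain ⟨ε, hε, h1, h3⟩ := eta_pow k h2 hx
  obtain ⟨ε', hε', h1', h3'⟩ := eta_pow F h2F (x := ψ x)
    (by rw [Ne, map_eq_zero_iff ψ ψ.injective]; exact hx)
  have hodd : Odd (Nat.card k) := by
    have := Fintype.ofFinite k
    rw [Nat.card_eq_fintype_card]
    have h4 : Fintype.card k % 2 = 1 := FiniteField.odd_card_of_char_ne_two (by
      intro h
      apply h2
      have h5 : ((2 : ℕ) : k) = 0 := by
        rw [← h]; exact ringChar.Nat.cast_ringChar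
      exact_mod_cast h5)
    exact Nat.odd_iff.mpr h4
  set q := Nat.card k with hq
  have hq1 : 1 ≤ q := hodd.pos
  -- `card F / 2 = (q / 2) * ∑ q ^ i`
  have h5 : Nat.card F / 2 = (q / 2) * ∑ i ∈ Finset.range m, q ^ i := by
    obtain ⟨l, hl⟩ := hodd
    have h6 : (∑ i ∈ Finset.range m, q ^ i) * (q - 1) + 1 = q ^ m := by
      have h := geom_sum_mul_add (q - 1) m
      rwa [Nat.sub_add_cancel hq1] at h
    rw [hcard, ← h6]
    have e1 : q - 1 = 2 * l := by omega
    have e2 : q / 2 = l := by omega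
    rw [e1, e2]
    set S := ∑ i ∈ Finset.range m, q ^ i
    have e3 : S * (2 * l) + 1 = 2 * (l * S) + 1 := by ring
    rw [e3]
    omega
  have hpow : ∀ z : ℤ, (z = 1 ∨ z = -1) → z ^ (∑ i ∈ Finset.range m, q ^ i) = z ^ m := by
    intro z hz
    rw [← Finset.prod_pow_eq_pow_sum]
    rw [← Finset.card_range m, ← Finset.prod_const, Finset.card_range]
    refine Finset.prod_congr rfl fun i _ => ?_
    rcases hz with h | h
    · rw [h, one_pow]
    · rw [h]
      exact Odd.neg_one_pow (hodd.pow)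
  have h7 : (ε' : F) = ((ε ^ m : ℤ) : F) := by
    rw [← h3', h5, pow_mul, ← map_pow, h3, ← hpow ε hε, map_intCast]
    push_cast
    rfl
  have h8 : ε' = ε ^ m := by
    have hεm : ε ^ m = 1 ∨ ε ^ m = -1 := by
      rcases hε with h | h
      · left; rw [h, one_pow]
      · rw [h]; exact neg_one_pow_eq_or ℤ m
    have hne : (1 : F) ≠ -1 := by
      intro h
      apply h2F
      linear_combination h
    rcases hε' with h | h <;> rcases hεm with h' | h'
    · rw [h, h']
    · exfalso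
      rw [h, h'] at h7
      push_cast at h7
      exact hne h7
    · exfalso
      rw [h, h'] at h7
      push_cast at h7
      exact hne h7.symm
    · rw [h, h']
  rw [h1', h1, h8]
  push_cast
  rfl

variable {K : Type*} [Field K] [NumberField K]

instance finite_homK (F : Type*) [Field F] [Finite F] : Finite (𝓞 K →+* F) := by
  have : Module.Finite ℤ (𝓞 K) := inferInstance
  exact finite_hom _ _

/-- homomorphisms sorted by their kernels -/
lemma sum_hom {p : ℕ} (hp : p.Prime) (F : Type*) [Field F] [Finite F] [CharP F p]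
    [Fintype (Over K p)] (g : (𝓞 K →+* F) → ℂ) :
    ∑ᶠ φ : 𝓞 K →+* F, g φ = ∑ q : Over K p, ∑ᶠ ψ : (𝓞 K ⧸ q.1.asIdeal) →+* F,
      g (ψ.comp (Ideal.Quotient.mk q.1.asIdeal)) := by
  have : Fact p.Prime := ⟨hp⟩
  have hfin : ∀ q : Over K p, Finite ((𝓞 K ⧸ q.1.asIdeal) →+* F) := by
    intro q
    have : Module.Finite ℤ (𝓞 K ⧸ q.1.asIdeal) := inferInstance
    exact finite_hom _ _
  have hfin' : ∀ q : Over K p, Fintype ((𝓞 K ⧸ q.1.asIdeal) →+* F) := fun q => Fintype.ofFinite _
  have hfin'' : Fintype (𝓞 K →+* F) := Fintype.ofFinite _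
  have hbij : Function.Bijective (fun x : (Σ q : Over K p, ((𝓞 K ⧸ q.1.asIdeal) →+* F)) =>
      x.2.comp (Ideal.Quotient.mk x.1.1.asIdeal)) := by
    refine ⟨?_, ?_⟩
    · rintro ⟨q, ψ⟩ ⟨q', ψ'⟩ h
      simp only at h
      have hker : ∀ (q : Over K p) (ψ : (𝓞 K ⧸ q.1.asIdeal) →+* F),
          RingHom.ker (ψ.comp (Ideal.Quotient.mk q.1.asIdeal)) = q.1.asIdeal := by
        intro q ψ
        let _ : Field (𝓞 K ⧸ q.1.asIdeal) := @Ideal.Quotient.field _ _ q.1.asIdeal q.1.isMaximal
        ext x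
        rw [RingHom.mem_ker, RingHom.comp_apply, map_eq_zero_iff ψ ψ.injective,
          Ideal.Quotient.eq_zero_iff_mem]
      have e1 : q = q' := by
        apply Subtype.ext
        apply HeightOneSpectrum.ext
        rw [← hker q ψ, ← hker q' ψ', h]
      subst e1
      have e2 : ψ = ψ' := by
        apply Ideal.Quotient.ringHom_ext
        exact h
      rw [e2]
    · intro φ
      have hpk : (p : 𝓞 K) ∈ RingHom.ker φ := by
        rw [RingHom.mem_ker, map_natCast, CharP.cast_eq_zero]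
      have hne : RingHom.ker φ ≠ ⊥ := by
        intro h0
        rw [h0, Ideal.mem_bot] at hpk
        exact hp.ne_zero (by exact_mod_cast hpk)
      refine ⟨⟨⟨⟨RingHom.ker φ, RingHom.ker_isPrime φ, hne⟩, hpk⟩,
        Ideal.Quotient.lift _ φ (fun x hx => hx)⟩, ?_⟩
      ext x
      simp
  rw [finsum_eq_sum_of_fintype]
  have h1 := Fintype.sum_equiv (Equiv.ofBijective _ hbij) (fun x => g (x.2.comp
    (Ideal.Quotient.mk x.1.1.asIdeal))) (fun φ => g φ) (fun x => rfl)
  rw [← h1, Fintype.sum_sigma]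
  refine Finset.sum_congr rfl fun q _ => ?_
  rw [finsum_eq_sum_of_fintype]

/-- **Character sums over homomorphisms** as power sums of Frobenius eigenvalues. -/
theorem sum_eta_hom {p : ℕ} (hp : p.Prime) (hp2 : p ≠ 2) (d : 𝓞 K)
    (hd : ∀ q : PK K, (p : 𝓞 K) ∈ q.asIdeal → d ∉ q.asIdeal)
    (F : Type*) [Field F] [Finite F] [CharP F p] (r : ℕ) (hF : Nat.card F = p ^ r) :
    ∑ᶠ φ : 𝓞 K →+* F, eta F (φ d)
      = ((specF K p (fun q => chi d q.asIdeal)).map (fun α => α ^ r)).sum := by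
  have := finite_Over (K := K) p hp.ne_zero
  have : Fintype (Over K p) := Fintype.ofFinite _
  have hpF : Fact p.Prime := ⟨hp⟩
  rw [sum_hom hp F, sum_pow_specF hp]
  refine Finset.sum_congr rfl fun q _ => ?_
  have := finite_quot q.1
  have := charP_quot hp q.1 q.2
  have hfinite : Finite ((𝓞 K ⧸ q.1.asIdeal) →+* F) := by
    have : Module.Finite ℤ (𝓞 K ⧸ q.1.asIdeal) := inferInstance
    exact finite_hom _ _
  have hft : Fintype ((𝓞 K ⧸ q.1.asIdeal) →+* F) := Fintype.ofFinite _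
  let _ : Field (𝓞 K ⧸ q.1.asIdeal) := @Ideal.Quotient.field _ _ q.1.asIdeal q.1.isMaximal
  have hk : Nat.card (𝓞 K ⧸ q.1.asIdeal) = p ^ resDeg p q.1 := by
    rw [← absNorm_eq_card]
    exact (absNorm_eq_pow hp q.1 q.2).1
  have hcard := card_hom_finite (p := p) (𝓞 K ⧸ q.1.asIdeal) F (resDeg p q.1) r hk hF
  have h20 : (2 : 𝓞 K ⧸ q.1.asIdeal) ≠ 0 := by
    intro h
    have h3 : ((2 : ℕ) : 𝓞 K ⧸ q.1.asIdeal) = 0 := by exact_mod_cast h
    rw [CharP.cast_eq_zero_iff (𝓞 K ⧸ q.1.asIdeal) p] at h3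
    exact hp2 ((Nat.prime_dvd_prime_iff_eq hp Nat.prime_two).mp h3)
  have hd0 : Ideal.Quotient.mk q.1.asIdeal d ≠ 0 := by
    rw [Ne, Ideal.Quotient.eq_zero_iff_mem]
    exact hd q.1 q.2
  have hchi : eta (𝓞 K ⧸ q.1.asIdeal) (Ideal.Quotient.mk q.1.asIdeal d) = chi d q.1.asIdeal := by
    unfold eta chi
    rw [if_neg hd0, if_neg (hd q.1 q.2)]
    have hsq : IsSquare (Ideal.Quotient.mk q.1.asIdeal d) ↔ ∃ x, x ^ 2 - d ∈ q.1.asIdeal := by
      constructor
      · rintro ⟨r, hr⟩
        obtain ⟨x, rfl⟩ := Ideal.Quotient.mk_surjective r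
        refine ⟨x, ?_⟩
        rw [← Ideal.Quotient.eq, map_pow, sq]
        exact hr.symm
      · rintro ⟨x, hx⟩
        rw [← Ideal.Quotient.eq, map_pow, sq] at hx
        exact ⟨_, hx.symm⟩
    simp only [hsq]
  rw [finsum_eq_sum_of_fintype]
  by_cases hdvd : resDeg p q.1 ∣ r
  · rw [if_pos hdvd]
    obtain ⟨m, rfl⟩ := hdvd
    have hf : 0 < resDeg p q.1 := (absNorm_eq_pow hp q.1 q.2).2
    rw [Nat.mul_div_cancel_left m hf]
    have h1 : ∀ ψ : (𝓞 K ⧸ q.1.asIdeal) →+* F,
        eta F ((ψ.comp (Ideal.Quotient.mk q.1.asIdeal)) d) = chi d q.1.asIdeal ^ m := by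
      intro ψ
      rw [RingHom.comp_apply, eta_hom h20 ψ (m := m) (by rw [hF, hk, pow_mul]) hd0, hchi]
    rw [Finset.sum_congr rfl (fun ψ _ => h1 ψ), Finset.sum_const, nsmul_eq_mul, Finset.card_univ,
      ← Nat.card_eq_fintype_card, hcard, if_pos (dvd_mul_right _ _)]
  · rw [if_neg hdvd] at hcard ⊢
    have : IsEmpty ((𝓞 K ⧸ q.1.asIdeal) →+* F) := by
      rw [Nat.card_eq_zero] at hcard
      rcases hcard with h | h
      · exact h
      · exact absurd hfinite (not_finite_iff_infinite.mpr h)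
    simp

end Pool.Agent.Helper4
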