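import Mathlib
import Pool.Agent.helper4.QuadChar
import Pool.Agent.helper4.FrobSpec

/-! # Euler factors of quadratic extensions -/

set_option linter.unusedSectionVars false

noncomputable section

namespace Pool.Agent.Helper4

open Filter Topology NumberField nonZeroDivisors IsDedekindDomain Module Polynomial

open scoped Classical

variable {K M : Type*} [Field K] [NumberField K] [Field M] [NumberField M] [Algebra K M]

/-- `M = K(δ)` with `δ ^ 2 = d`. -/
structure IsQuad (d : 𝓞 K) (δ : 𝓞 M) : Prop where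
  sq : (δ : M) ^ 2 = algebraMap K M (d : K)
  fr : finrank K M = 2
  ne : ∀ a : K, algebraMap K M a ≠ (δ : M)

variable {d : 𝓞 K} {δ : 𝓞 M} (hq : IsQuad d δ)

include hq

lemma IsQuad.ne_zero : (d : K) ≠ 0 := by
  intro h
  have h1 := hq.sq
  rw [h, map_zero] at h1
  apply hq.ne 0
  rw [map_zero]
  exact (pow_eq_zero_iff two_ne_zero).mp h1 |>.symm

lemma IsQuad.indep {a b : K} (h : algebraMap K M a + algebraMap K M b * (δ : M) = 0) :
    a = 0 ∧ b = 0 := by
  by_cases hb : b = 0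
  · subst hb
    rw [map_zero, zero_mul, add_zero, map_eq_zero] at h
    exact ⟨h, rfl⟩
  · exfalso
    apply hq.ne (-(a / b))
    have hb' : algebraMap K M b ≠ 0 := by rwa [Ne, map_eq_zero]
    rw [map_neg, map_div₀]
    field_simp
    linear_combination -h

lemma IsQuad.linInd : LinearIndependent K ![(1 : M), (δ : M)] := by
  rw [LinearIndependent.pair_iff]
  intro s t h
  apply hq.indep
  rw [Algebra.smul_def, Algebra.smul_def, mul_one] at h
  exact h

/-- the basis `1, δ` -/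
def IsQuad.basis : Basis (Fin 2) K M :=
  basisOfLinearIndependentOfCardEqFinrank hq.linInd (by rw [Fintype.card_fin, hq.fr])

lemma IsQuad.basis_zero : hq.basis 0 = 1 := by
  simp [IsQuad.basis]

lemma IsQuad.basis_one : hq.basis 1 = (δ : M) := by
  simp [IsQuad.basis]

lemma IsQuad.exists_coord (x : M) : ∃ a b : K, x = algebraMap K M a + algebraMap K M b * (δ : M) := by
  refine ⟨hq.basis.repr x 0, hq.basis.repr x 1, ?_⟩
  conv_lhs => rw [← hq.basis.sum_repr x]
  rw [Fin.sum_univ_two, hq.basis_zero, hq.basis_one, Algebra.smul_def, Algebra.smul_def, mul_one]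

lemma IsQuad.repr_eq (a b : K) :
    hq.basis.repr (algebraMap K M a + algebraMap K M b * (δ : M)) = ![a, b] := by
  have h : algebraMap K M a + algebraMap K M b * (δ : M) = ∑ i, (![a, b] : Fin 2 → K) i • hq.basis i := by
    rw [Fin.sum_univ_two, hq.basis_zero, hq.basis_one, Algebra.smul_def, Algebra.smul_def]
    simp
  rw [h]
  funext i
  rw [hq.basis.repr_sum_self]

lemma IsQuad.trace (a b : K) :
    Algebra.trace K M (algebraMap K M a + algebraMap K M b * (δ : M)) = 2 * a := by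
  rw [Algebra.trace_eq_matrix_trace hq.basis, Matrix.trace, Fin.sum_univ_two]
  simp only [Matrix.diag_apply, Algebra.leftMulMatrix_eq_repr_mul]
  have h1 : (algebraMap K M a + algebraMap K M b * (δ : M)) * hq.basis 0
      = algebraMap K M a + algebraMap K M b * (δ : M) := by
    rw [hq.basis_zero, mul_one]
  have h2 : (algebraMap K M a + algebraMap K M b * (δ : M)) * hq.basis 1
      = algebraMap K M (b * d) + algebraMap K M a * (δ : M) := by
    rw [hq.basis_one, map_mul, ← hq.sq]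
    ring
  rw [h1, h2, hq.repr_eq, hq.repr_eq]
  simp
  ring

/-- trace to the ring of integers -/
lemma IsQuad.exists_int (x : 𝓞 M) : ∃ A B : 𝓞 K,
    2 * algebraMap (𝓞 K) (𝓞 M) d * x
      = algebraMap (𝓞 K) (𝓞 M) (d * A) + algebraMap (𝓞 K) (𝓞 M) B * δ := by
  obtain ⟨a, b, hab⟩ := hq.exists_coord (x : M)
  have hA : IsIntegral ℤ (Algebra.trace K M (x : M)) := Algebra.isIntegral_trace x.isIntegral_coe
  have hB : IsIntegral ℤ (Algebra.trace K M ((x : M) * (δ : M))) :=
    Algebra.isIntegral_trace (x.isIntegral_coe.mul δ.isIntegral_coe)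
  have h1 : Algebra.trace K M (x : M) = 2 * a := by rw [hab, hq.trace]
  have h2 : Algebra.trace K M ((x : M) * (δ : M)) = 2 * (b * d) := by
    have : (x : M) * (δ : M) = algebraMap K M (b * d) + algebraMap K M a * (δ : M) := by
      rw [hab, map_mul, ← hq.sq]
      ring
    rw [this, hq.trace]
  rw [h1] at hA
  rw [h2] at hB
  refine ⟨⟨_, hA⟩, ⟨_, hB⟩, ?_⟩
  apply RingOfIntegers.coe_injective
  have e : ∀ z : 𝓞 K, algebraMap (𝓞 M) M (algebraMap (𝓞 K) (𝓞 M) z) = algebraMap K M (z : K) :=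
    fun z => rfl
  simp only [map_mul, map_add, map_ofNat, e]
  have h3 : (algebraMap (𝓞 M) M) x = algebraMap K M a + algebraMap K M b * (δ : M) := hab
  rw [h3]
  change 2 * algebraMap K M (d : K) * (algebraMap K M a + algebraMap K M b * (δ : M))
    = algebraMap K M (d : K) * algebraMap K M (2 * a) + algebraMap K M (2 * (b * d)) * (δ : M)
  simp only [map_mul, map_ofNat]
  ring

lemma IsQuad.indepO {A B A' B' : 𝓞 K}
    (h : algebraMap (𝓞 K) (𝓞 M) A + algebraMap (𝓞 K) (𝓞 M) B * δ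
      = algebraMap (𝓞 K) (𝓞 M) A' + algebraMap (𝓞 K) (𝓞 M) B' * δ) : A = A' ∧ B = B' := by
  have e : ∀ z : 𝓞 K, algebraMap (𝓞 M) M (algebraMap (𝓞 K) (𝓞 M) z) = algebraMap K M (z : K) :=
    fun z => rfl
  have h1 := congrArg (algebraMap (𝓞 M) M) h
  simp only [map_mul, map_add, e] at h1
  have h2 : algebraMap K M ((A : K) - A') + algebraMap K M ((B : K) - B') * (δ : M) = 0 := by
    rw [map_sub, map_sub]
    have : (δ : M) = algebraMap (𝓞 M) M δ := rfl
    rw [this]
    linear_combination h1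
  obtain ⟨h3, h4⟩ := hq.indep h2
  constructor
  · apply RingOfIntegers.coe_injective; exact sub_eq_zero.mp h3
  · apply RingOfIntegers.coe_injective; exact sub_eq_zero.mp h4

lemma IsQuad.sqO : δ ^ 2 = algebraMap (𝓞 K) (𝓞 M) d := by
  apply RingOfIntegers.coe_injective
  rw [map_pow]
  exact hq.sq

/-- first coordinate -/
def IsQuad.AA (x : 𝓞 M) : 𝓞 K := (hq.exists_int x).choose

/-- second coordinate -/
def IsQuad.BB (x : 𝓞 M) : 𝓞 K := (hq.exists_int x).choose_spec.choose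

lemma IsQuad.spec (x : 𝓞 M) : 2 * algebraMap (𝓞 K) (𝓞 M) d * x
      = algebraMap (𝓞 K) (𝓞 M) (d * hq.AA x) + algebraMap (𝓞 K) (𝓞 M) (hq.BB x) * δ :=
  (hq.exists_int x).choose_spec.choose_spec

lemma IsQuad.dO_ne_zero : d ≠ 0 := by
  rintro rfl
  exact hq.ne_zero (map_zero _)

variable {F : Type*} [Field F] (φ : 𝓞 K →+* F) (y : F) (hy : y ^ 2 = φ d) (h2d : φ (2 * d) ≠ 0)

/-- the value of the extension -/
def IsQuad.psiFun (x : 𝓞 M) : F := (φ (d * hq.AA x) + φ (hq.BB x) * y) / φ (2 * d)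

lemma IsQuad.rel_of (x : 𝓞 M) {A B : 𝓞 K} (h : 2 * algebraMap (𝓞 K) (𝓞 M) d * x
      = algebraMap (𝓞 K) (𝓞 M) A + algebraMap (𝓞 K) (𝓞 M) B * δ) :
    d * hq.AA x = A ∧ hq.BB x = B := by
  rw [hq.spec x] at h
  exact hq.indepO h

include hy h2d in
lemma IsQuad.psi_mul (x x' : 𝓞 M) :
    hq.psiFun φ y (x * x') = hq.psiFun φ y x * hq.psiFun φ y x' := by
  have h1 := hq.spec x
  have h2 := hq.spec x'
  have h3 := hq.spec (x * x')
  have hs := hq.sqO
  -- compare the coordinates of `(2d) ^ 2 x x'`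
  have h4 : algebraMap (𝓞 K) (𝓞 M) (2 * d * (d * hq.AA (x * x'))) +
      algebraMap (𝓞 K) (𝓞 M) (2 * d * hq.BB (x * x')) * δ
      = algebraMap (𝓞 K) (𝓞 M) (d * hq.AA x * (d * hq.AA x') + hq.BB x * hq.BB x' * d) +
      algebraMap (𝓞 K) (𝓞 M) (d * hq.AA x * hq.BB x' + hq.BB x * (d * hq.AA x')) * δ := by
    have e1 : 2 * algebraMap (𝓞 K) (𝓞 M) d * (2 * algebraMap (𝓞 K) (𝓞 M) d * (x * x'))
        = (2 * algebraMap (𝓞 K) (𝓞 M) d * x) * (2 * algebraMap (𝓞 K) (𝓞 M) d * x') := by ring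
    rw [h1, h2, h3] at e1
    simp only [map_mul, map_add, map_ofNat] at e1 ⊢
    linear_combination e1 + (algebraMap (𝓞 K) (𝓞 M) (hq.BB x) * algebraMap (𝓞 K) (𝓞 M) (hq.BB x')) * hs
  obtain ⟨h5, h6⟩ := hq.indepO h4
  have h7 := congrArg φ h5
  have h8 := congrArg φ h6
  have h2d' : φ 2 * φ d ≠ 0 := by rwa [map_mul] at h2d
  unfold IsQuad.psiFun
  rw [div_mul_div_comm, div_eq_div_iff h2d (mul_ne_zero h2d h2d)]
  simp only [map_mul, map_add] at h7 h8 ⊢
  linear_combination (φ 2 * φ d) * h7 + (φ 2 * φ d) * y * h8 +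
    (-(φ 2 * φ d) * (φ (hq.BB x) * φ (hq.BB x'))) * hy

lemma IsQuad.psi_add (x x' : 𝓞 M) :
    hq.psiFun φ y (x + x') = hq.psiFun φ y x + hq.psiFun φ y x' := by
  have h1 := hq.spec x
  have h2 := hq.spec x'
  obtain ⟨h3, h4⟩ := hq.rel_of (x + x') (A := d * hq.AA x + d * hq.AA x')
    (B := hq.BB x + hq.BB x') (by
      rw [mul_add, h1, h2, map_add, map_add]
      ring)
  unfold IsQuad.psiFun
  rw [h3, h4, map_add, map_add, ← add_div]
  congr 1
  ring

include h2d in
lemma IsQuad.psi_algebraMap (a : 𝓞 K) : hq.psiFun φ y (algebraMap (𝓞 K) (𝓞 M) a) = φ a := by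
  obtain ⟨h3, h4⟩ := hq.rel_of (algebraMap (𝓞 K) (𝓞 M) a) (A := 2 * d * a) (B := 0) (by
      simp only [map_mul, map_ofNat, map_zero, zero_mul, add_zero])
  unfold IsQuad.psiFun
  rw [h3, h4, map_zero, zero_mul, add_zero, map_mul, mul_div_assoc, mul_comm, div_mul_cancel₀]
  exact h2d

include h2d in
lemma IsQuad.psi_delta : hq.psiFun φ y δ = y := by
  obtain ⟨h3, h4⟩ := hq.rel_of δ (A := 0) (B := 2 * d) (by
      simp only [map_mul, map_ofNat, map_zero, zero_add])
  unfold IsQuad.psiFun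
  rw [h3, h4, map_zero, zero_add, mul_div_assoc, mul_comm, div_mul_cancel₀]
  exact h2d

/-- extension of a homomorphism -/
def IsQuad.psi : 𝓞 M →+* F where
  toFun := hq.psiFun φ y
  map_one' := by
    have h := hq.psi_algebraMap φ y h2d 1
    rwa [map_one, map_one] at h
  map_mul' := hq.psi_mul φ y hy h2d
  map_zero' := by
    have h := hq.psi_algebraMap φ y h2d 0
    rwa [map_zero, map_zero] at h
  map_add' := hq.psi_add φ y

lemma IsQuad.hom_eq (ψ : 𝓞 M →+* F) (hψ : ∀ a, ψ (algebraMap (𝓞 K) (𝓞 M) a) = φ a) (x : 𝓞 M) :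
    φ (2 * d) * ψ x = φ (d * hq.AA x) + φ (hq.BB x) * ψ δ := by
  have h := congrArg ψ (hq.spec x)
  simp only [map_mul, map_add, map_ofNat, hψ] at h ⊢
  exact h

/-- homomorphisms of the ring of integers of a quadratic extension -/
def IsQuad.homEquiv (h2d : ∀ φ : 𝓞 K →+* F, φ (2 * d) ≠ 0) :
    (Σ φ : 𝓞 K →+* F, {y : F // y ^ 2 = φ d}) ≃ (𝓞 M →+* F) where
  toFun x := hq.psi x.1 x.2.1 x.2.2 (h2d x.1)
  invFun ψ := ⟨ψ.comp (algebraMap (𝓞 K) (𝓞 M)), ψ δ, by
    rw [← map_pow, hq.sqO]; rfl⟩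
  left_inv x := by
    obtain ⟨φ, y, hy⟩ := x
    have e1 : (hq.psi φ y hy (h2d φ)).comp (algebraMap (𝓞 K) (𝓞 M)) = φ := by
      ext a
      exact hq.psi_algebraMap φ y (h2d φ) a
    have e2 : (hq.psi φ y hy (h2d φ)) δ = y := hq.psi_delta φ y (h2d φ)
    refine Sigma.ext e1 ?_
    simp only
    rw [Subtype.heq_iff_coe_eq]
    · exact e2
    · intro z
      rw [e1]
  right_inv ψ := by
    ext x
    have h := hq.hom_eq (ψ.comp (algebraMap (𝓞 K) (𝓞 M))) ψ (fun a => rfl) x
    have h0 := h2d (ψ.comp (algebraMap (𝓞 K) (𝓞 M)))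
    change hq.psiFun _ (ψ δ) x = ψ x
    unfold IsQuad.psiFun
    rw [div_eq_iff h0, mul_comm (ψ x)]
    exact h.symm

lemma IsQuad.card_hom [Finite F] (h2 : (2 : F) ≠ 0) (h2d : ∀ φ : 𝓞 K →+* F, φ (2 * d) ≠ 0) :
    (Nat.card (𝓞 M →+* F) : ℂ) = Nat.card (𝓞 K →+* F) + ∑ᶠ φ : 𝓞 K →+* F, eta F (φ d) := by
  have : Fintype (𝓞 K →+* F) := Fintype.ofFinite _
  rw [← Nat.card_congr (hq.homEquiv h2d), Nat.card_sigma]
  push_cast
  simp_rw [card_sqrt F h2]
  rw [Finset.sum_add_distrib, Finset.sum_const, Finset.card_univ, finsum_eq_sum_of_fintype,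
    nsmul_eq_mul, mul_one, Nat.card_eq_fintype_card]

omit hq in
lemma multiset_eq_of_power_sums {p : ℕ} (hp : 1 < p) {A B : Multiset ℂ} (hA : ∀ α ∈ A, ‖α‖ = 1)
    (hB : ∀ α ∈ B, ‖α‖ = 1) (N : ℕ → ℕ)
    (h1 : ∀ r, 1 ≤ r → (N r : ℂ) = (A.map (fun α => α ^ r)).sum)
    (h2 : ∀ r, 1 ≤ r → (N r : ℂ) = (B.map (fun α => α ^ r)).sum) : A = B := by
  have key : ∀ A : Multiset ℂ, (∀ α ∈ A, ‖α‖ = 1) →
      (∀ r, 1 ≤ r → (N r : ℂ) = (A.map (fun α => α ^ r)).sum) →
      IsFrobSpec p N (fun j => if j = 0 then A else 0) := by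
    intro A hA h1
    refine ⟨?_, ⟨1, fun j hj => if_neg (by omega)⟩, ?_⟩
    · intro j α hα
      by_cases hj : j = 0
      · subst hj
        simp only [if_pos] at hα
        rw [hA α hα]
        simp
      · simp only [if_neg hj] at hα
        simp at hα
    · intro r hr
      rw [h1 r hr, finsum_eq_single _ 0]
      · simp
      · intro j hj
        simp [hj]
  have h3 := (key A hA h1).unique hp (key B hB h2)
  have h4 := congrFun h3 0
  simpa using h4

/-- **Euler factors of quadratic extensions**: the Frobenius eigenvalues. -/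
theorem IsQuad.specF_eq {p : ℕ} (hp : p.Prime) (hp2 : p ≠ 2)
    (hd : ∀ q : PK K, (p : 𝓞 K) ∈ q.asIdeal → d ∉ q.asIdeal) :
    specF M p (fun _ => 1) = specF K p (fun _ => 1) + specF K p (fun q => chi d q.asIdeal) := by
  have hpf : Fact p.Prime := ⟨hp⟩
  have hchi : ∀ q : PK K, (p : 𝓞 K) ∈ q.asIdeal → ‖chi d q.asIdeal‖ = 1 := by
    intro q hq
    have h1 := chi_sq (hd q hq)
    have h2 : ‖chi d q.asIdeal‖ * ‖chi d q.asIdeal‖ = 1 := by rw [← norm_mul, h1, norm_one]
    nlinarith [norm_nonneg (chi d q.asIdeal)]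
  apply multiset_eq_of_power_sums hp.one_lt (N := fun r => Nat.card (𝓞 M →+* GaloisField p r))
  · intro α hα
    exact norm_of_mem_specF hp (fun _ _ => by simp) hα
  · intro α hα
    rw [Multiset.mem_add] at hα
    rcases hα with h | h
    · exact norm_of_mem_specF hp (fun _ _ => by simp) h
    · exact norm_of_mem_specF hp hchi h
  · intro r hr
    have hcard : Nat.card (GaloisField p r) = p ^ r := GaloisField.card p r (by omega)
    exact (sum_pow_specF_one hp (GaloisField p r) r hcard).symm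
  · intro r hr
    have hcard : Nat.card (GaloisField p r) = p ^ r := GaloisField.card p r (by omega)
    have h2 : (2 : GaloisField p r) ≠ 0 := by
      intro h
      have h3 : ((2 : ℕ) : GaloisField p r) = 0 := by exact_mod_cast h
      rw [CharP.cast_eq_zero_iff (GaloisField p r) p] at h3
      exact hp2 ((Nat.prime_dvd_prime_iff_eq hp Nat.prime_two).mp h3)
    have h2d : ∀ φ : 𝓞 K →+* GaloisField p r, φ (2 * d) ≠ 0 := by
      intro φ h
      rw [map_mul, map_ofNat, mul_eq_zero] at h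
      rcases h with h | h
      · exact h2 h
      · have hpk : (p : 𝓞 K) ∈ RingHom.ker φ := by
          rw [RingHom.mem_ker, map_natCast, CharP.cast_eq_zero]
        have hne : RingHom.ker φ ≠ ⊥ := by
          intro h0
          rw [h0, Ideal.mem_bot] at hpk
          exact hp.ne_zero (by exact_mod_cast hpk)
        exact hd ⟨RingHom.ker φ, RingHom.ker_isPrime φ, hne⟩ hpk (RingHom.mem_ker.mpr h)
    rw [Multiset.map_add, Multiset.sum_add, sum_pow_specF_one hp (GaloisField p r) r hcard,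
      ← sum_eta_hom hp hp2 d hd (GaloisField p r) r hcard]
    exact hq.card_hom h2 h2d

/-- **Euler factors of quadratic extensions**. -/
theorem IsQuad.locF_eq {p : ℕ} (hp : p.Prime) (hp2 : p ≠ 2)
    (hd : ∀ q : PK K, (p : 𝓞 K) ∈ q.asIdeal → d ∉ q.asIdeal) (s : ℂ) :
    locF (fun q : PK M => (Ideal.absNorm q.asIdeal : ℂ) ^ (-s)) p
      = locF (fun q : PK K => (Ideal.absNorm q.asIdeal : ℂ) ^ (-s)) p *
        locF (fun q : PK K => chi d q.asIdeal * (Ideal.absNorm q.asIdeal : ℂ) ^ (-s)) p := by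
  have h1 := prod_specF (K := M) hp (fun _ => 1) s
  have h2 := prod_specF (K := K) hp (fun _ => 1) s
  have h3 := prod_specF (K := K) hp (fun q => chi d q.asIdeal) s
  simp only [one_mul] at h1 h2
  rw [← h1, ← h2, ← h3, hq.specF_eq hp hp2 hd, Multiset.map_add, Multiset.prod_add]

end Pool.Agent.Helper4
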