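import Mathlib
import Pool.Agent.helper4.Dedekind
import Pool.Agent.helper4.QuadExt

/-! # Gamma factors of quadratic extensions -/

set_option linter.unusedSectionVars false

noncomputable section

namespace Pool.Agent.Helper4

open Filter Topology NumberField NumberField.InfinitePlace Module

/-- inverse of `Γ(z/2)` -/
def g1 (z : ℂ) : ℂ := (Complex.Gamma (z / 2))⁻¹

/-- inverse of `Γ(z)` -/
def g2 (z : ℂ) : ℂ := (Complex.Gamma z)⁻¹

/-- inverse of `Γ((z+1)/2)`, scaled -/
def g3 (z : ℂ) : ℂ := (Complex.Gamma (z / 2 + 1 / 2))⁻¹ * ((2 : ℂ) ^ (1 - z) * ((Real.sqrt Real.pi : ℝ) : ℂ))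

lemma g3_aux_ne (z : ℂ) : (2 : ℂ) ^ (1 - z) * ((Real.sqrt Real.pi : ℝ) : ℂ) ≠ 0 := by
  refine mul_ne_zero ?_ ?_
  · rw [Ne, Complex.cpow_eq_zero_iff]
    intro h
    exact two_ne_zero h.1
  · have : Real.sqrt Real.pi ≠ 0 := (Real.sqrt_pos.mpr Real.pi_pos).ne'
    exact_mod_cast this

lemma g2_eq (z : ℂ) : g2 z = g1 z * g3 z := by
  have h := Complex.Gamma_mul_Gamma_add_half (z / 2)
  have e1 : 2 * (z / 2) = z := by ring
  rw [e1] at h
  unfold g1 g2 g3
  rw [← mul_assoc, ← mul_inv, h, mul_assoc (Complex.Gamma z), mul_inv, mul_assoc,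
    inv_mul_cancel₀ (g3_aux_ne z), mul_one]

lemma differentiable_g1 : Differentiable ℂ g1 := by
  have h := Complex.differentiable_one_div_Gamma
  exact h.comp (by fun_prop : Differentiable ℂ (fun z : ℂ => z / 2))

lemma differentiable_g2 : Differentiable ℂ g2 := Complex.differentiable_one_div_Gamma

lemma differentiable_g3 : Differentiable ℂ g3 := by
  have h := Complex.differentiable_one_div_Gamma
  have h1 : Differentiable ℂ (fun z : ℂ => (Complex.Gamma (z / 2 + 1 / 2))⁻¹) :=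
    h.comp (by fun_prop : Differentiable ℂ (fun z : ℂ => z / 2 + 1 / 2))
  have h2 : Differentiable ℂ (fun z : ℂ => (2 : ℂ) ^ (1 - z)) := by
    intro z
    exact ((differentiableAt_const 1).sub differentiableAt_id).const_cpow (Or.inl two_ne_zero)
  unfold g3
  fun_prop

lemma g1_ne_zero {z : ℂ} (hz : 0 < z.re) : g1 z ≠ 0 := by
  apply inv_ne_zero
  apply Complex.Gamma_ne_zero_of_re_pos
  have : z / 2 = z * ((1 / 2 : ℝ) : ℂ) := by push_cast; ring
  rw [this, Complex.re_mul_ofReal]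
  linarith

lemma g2_ne_zero {z : ℂ} (hz : 0 < z.re) : g2 z ≠ 0 :=
  inv_ne_zero (Complex.Gamma_ne_zero_of_re_pos hz)

section

variable (K : Type*) [Field K] [NumberField K]

open scoped Classical

lemma igam_eq (z : ℂ) : igam K z = g1 z ^ nrRealPlaces K * g2 z ^ nrComplexPlaces K := by
  unfold igam
  rw [← Fintype.prod_subtype_mul_prod_subtype (fun w : InfinitePlace K => IsReal w)]
  have h1 : ∀ w : {w : InfinitePlace K // IsReal w},
      (Complex.Gamma ((mult w.1 : ℂ) * z / 2))⁻¹ = g1 z := by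
    intro w
    rw [mult_isReal w]
    unfold g1
    simp
  have h2 : ∀ w : {w : InfinitePlace K // ¬ IsReal w},
      (Complex.Gamma ((mult w.1 : ℂ) * z / 2))⁻¹ = g2 z := by
    intro w
    have : mult w.1 = 2 := mult_isComplex ⟨w.1, not_isReal_iff_isComplex.mp w.2⟩
    rw [this]
    unfold g2
    congr 2
    push_cast
    ring
  rw [Finset.prod_congr rfl (fun w _ => h1 w), Finset.prod_congr rfl (fun w _ => h2 w),
    Finset.prod_const, Finset.prod_const, Finset.card_univ, Finset.card_univ]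
  congr 2
  unfold nrComplexPlaces
  exact Fintype.card_congr (Equiv.subtypeEquivRight fun w => not_isReal_iff_isComplex)

lemma igam_ne_zero {z : ℂ} (hz : 0 < z.re) : igam K z ≠ 0 := by
  rw [igam_eq]
  exact mul_ne_zero (pow_ne_zero _ (g1_ne_zero hz)) (pow_ne_zero _ (g2_ne_zero hz))

end

section quad

variable {K M : Type*} [Field K] [NumberField K] [Field M] [NumberField M] [Algebra K M]
  {d : 𝓞 K} {δ : 𝓞 M} (hq : IsQuad d δ)

include hq

lemma IsQuad.real_le : nrRealPlaces M ≤ 2 * nrRealPlaces K := by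
  classical
  rw [← card_real_embeddings M, ← card_real_embeddings K]
  have hroots : ∀ a : ℂ, Nat.card {y : ℂ // y ^ 2 = a} ≤ 2 ∧ Finite {y : ℂ // y ^ 2 = a} := by
    intro a
    have h1 : {y : ℂ | y ^ 2 = a} ⊆ ((Polynomial.nthRoots 2 a).toFinset : Set ℂ) := by
      intro y hy
      rw [Finset.mem_coe, Multiset.mem_toFinset, Polynomial.mem_nthRoots two_pos]
      exact hy
    have h2 : {y : ℂ | y ^ 2 = a}.Finite := (Finset.finite_toSet _).subset h1
    refine ⟨?_, h2.to_subtype⟩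
    have h3 : Nat.card {y : ℂ // y ^ 2 = a} ≤ (Polynomial.nthRoots 2 a).toFinset.card := by
      have h4 := Nat.card_le_card_of_injective
        (fun y : {y : ℂ // y ^ 2 = a} => (⟨y.1, h1 y.2⟩ : ↥(Polynomial.nthRoots 2 a).toFinset))
        (fun y y' h => Subtype.ext (congrArg (fun z : ↥(Polynomial.nthRoots 2 a).toFinset => z.1) h))
      have h5 : Nat.card ↥(Polynomial.nthRoots 2 a).toFinset = (Polynomial.nthRoots 2 a).toFinset.card := by
        rw [Nat.card_eq_fintype_card, Fintype.card_coe]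
      exact h4.trans h5.le
    exact h3.trans ((Multiset.toFinset_card_le _).trans (Polynomial.card_nthRoots 2 a))
  have hres : ∀ ψ : {ψ : M →+* ℂ // ComplexEmbedding.IsReal ψ},
      ComplexEmbedding.IsReal (ψ.1.comp (algebraMap K M)) := by
    intro ψ
    rw [ComplexEmbedding.isReal_iff]
    ext x
    rw [ComplexEmbedding.conjugate_coe_eq, RingHom.comp_apply]
    have h := congrArg (fun f : M →+* ℂ => f (algebraMap K M x)) (ComplexEmbedding.isReal_iff.mp ψ.2)
    simp only [ComplexEmbedding.conjugate_coe_eq] at h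
    exact h
  let g : {ψ : M →+* ℂ // ComplexEmbedding.IsReal ψ} →
      (Σ φ : {φ : K →+* ℂ // ComplexEmbedding.IsReal φ}, {y : ℂ // y ^ 2 = φ.1 (d : K)}) :=
    fun ψ => ⟨⟨ψ.1.comp (algebraMap K M), hres ψ⟩, ⟨ψ.1 (δ : M), by
      rw [← map_pow, hq.sq]; rfl⟩⟩
  have hfin : ∀ φ : {φ : K →+* ℂ // ComplexEmbedding.IsReal φ}, Finite {y : ℂ // y ^ 2 = φ.1 (d : K)} :=
    fun φ => (hroots _).2
  have hg : Function.Injective g := by
    intro ψ ψ' h
    have h1 : ψ.1.comp (algebraMap K M) = ψ'.1.comp (algebraMap K M) :=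
      congrArg (fun x : (Σ φ : {φ : K →+* ℂ // ComplexEmbedding.IsReal φ},
        {y : ℂ // y ^ 2 = φ.1 (d : K)}) => x.1.1) h
    have h2 : ψ.1 (δ : M) = ψ'.1 (δ : M) :=
      congrArg (fun x : (Σ φ : {φ : K →+* ℂ // ComplexEmbedding.IsReal φ},
        {y : ℂ // y ^ 2 = φ.1 (d : K)}) => x.2.1) h
    apply Subtype.ext
    ext x
    obtain ⟨a, b, rfl⟩ := hq.exists_coord x
    have h3 : ∀ a : K, ψ.1 (algebraMap K M a) = ψ'.1 (algebraMap K M a) := fun a =>
      congrArg (fun f : K →+* ℂ => f a) h1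
    rw [map_add, map_add, map_mul, map_mul, h3, h3, h2]
  have h5 := Nat.card_le_card_of_injective g hg
  rw [Nat.card_sigma] at h5
  rw [← Nat.card_eq_fintype_card, ← Nat.card_eq_fintype_card]
  calc _ ≤ _ := h5
    _ ≤ ∑ _φ : {φ : K →+* ℂ // ComplexEmbedding.IsReal φ}, 2 :=
      Finset.sum_le_sum fun φ _ => (hroots _).1
    _ = _ := by
      rw [Finset.sum_const, Finset.card_univ, smul_eq_mul, mul_comm, Nat.card_eq_fintype_card]

lemma IsQuad.finrank_eq : finrank ℚ M = 2 * finrank ℚ K := by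
  rw [← Module.finrank_mul_finrank ℚ K M, hq.fr, mul_comm]

/-- quotient of the Gamma factors -/
def gamQ (K M : Type*) [Field K] [NumberField K] [Field M] [NumberField M] (z : ℂ) : ℂ :=
  g1 z ^ (nrRealPlaces M / 2) * g2 z ^ nrComplexPlaces K *
    g3 z ^ (nrRealPlaces K - nrRealPlaces M / 2)

omit hq in
lemma differentiable_gamQ : Differentiable ℂ (gamQ K M) := by
  have h1 := differentiable_g1
  have h2 := differentiable_g2
  have h3 := differentiable_g3
  unfold gamQ
  fun_prop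

lemma IsQuad.igam_eq_mul (z : ℂ) : igam M z = igam K z * gamQ K M z := by
  have h1 := card_add_two_mul_card_eq_rank K
  have h2 := card_add_two_mul_card_eq_rank M
  rw [hq.finrank_eq, ← h1] at h2
  have h3 := hq.real_le
  rw [igam_eq, igam_eq, gamQ]
  set r1 := nrRealPlaces K
  set r2 := nrComplexPlaces K
  set R1 := nrRealPlaces M
  set R2 := nrComplexPlaces M
  obtain ⟨a, ha⟩ : ∃ a, R1 = 2 * a := ⟨R1 / 2, by omega⟩
  have ha2 : R1 / 2 = a := by omega
  obtain ⟨c, hc⟩ : ∃ c, r1 = a + c := ⟨r1 - a, by omega⟩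
  have hR2 : R2 = 2 * r2 + c := by omega
  have hc2 : r1 - a = c := by omega
  rw [ha2, hc2, hR2, hc, ha, g2_eq]
  rw [mul_pow, mul_pow]
  ring

end quad

end Pool.Agent.Helper4
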