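import Mathlib
import Pool.Agent.helper4.Dedekind
import Pool.Agent.helper4.TraceMixed

/-! # Dual lattices of ideals -/

open MeasureTheory Filter Topology Set

noncomputable section

namespace Pool.Agent.Helper4

set_option linter.unusedSectionVars false

open NumberField NumberField.Units NumberField.InfinitePlace NumberField.mixedEmbedding
  NumberField.Units.dirichletUnitTheorem nonZeroDivisors

variable (K : Type*) [Field K] [NumberField K]

open scoped Classical

/-- the twist of the mixed space -/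
def dmap : mixedSpace K →ₗ[ℝ] mixedSpace K :=
  LinearMap.prodMap LinearMap.id (LinearMap.pi fun w =>
    (2 : ℝ) • (Complex.conjAe.toLinearMap.comp (LinearMap.proj w)))

lemma dmap_fst (X : mixedSpace K) (w : {w : InfinitePlace K // IsReal w}) :
    (dmap K X).1 w = X.1 w := rfl

lemma dmap_snd (X : mixedSpace K) (w : {w : InfinitePlace K // IsComplex w}) :
    (dmap K X).2 w = (2 : ℝ) • (starRingEnd ℂ) (X.2 w) := rfl

lemma dot_repr (X Y : mixedSpace K) :
    ∑ j, (stdBasis K).repr (dmap K X) j * (stdBasis K).repr Y j = trM K (X * Y) := by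
  rw [trM_apply, Fintype.sum_sum_type, Fintype.sum_prod_type]
  congr 1
  refine Finset.sum_congr rfl fun w _ => ?_
  rw [Fin.sum_univ_two, stdBasis_apply_isComplex_fst, stdBasis_apply_isComplex_snd,
    stdBasis_apply_isComplex_fst, stdBasis_apply_isComplex_snd, dmap_snd]
  simp only [Complex.smul_re, Complex.smul_im, Complex.conj_re, Complex.conj_im, smul_eq_mul,
    Prod.snd_mul, Pi.mul_apply, Complex.mul_re]
  ring

lemma norm_dmap (w : InfinitePlace K) (x : K) :
    normAtPlace w (dmap K (mixedEmbedding K x)) = (mult w : ℝ) * w x := by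
  by_cases hw : IsReal w
  · rw [normAtPlace_apply_of_isReal hw, mult_isReal ⟨w, hw⟩]
    have h := normAtPlace_apply w x
    rw [normAtPlace_apply_of_isReal hw] at h
    rw [dmap_fst, h]
    simp
  · have hw' := not_isReal_iff_isComplex.mp hw
    rw [normAtPlace_apply_of_isComplex hw', mult_isComplex ⟨w, hw'⟩]
    have h := normAtPlace_apply w x
    rw [normAtPlace_apply_of_isComplex hw'] at h
    rw [dmap_snd, _root_.norm_smul, Complex.norm_conj, h]
    simp

variable (b : (Ideal (𝓞 K))⁰)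

/-- rational basis given by the ideal -/
def bb : Module.Basis (index K) ℚ K := (basisOfFractionalIdeal K (fr K b)).reindex (eI K b)

lemma bb_apply (k : index K) :
    bb K b k = basisOfFractionalIdeal K (fr K b) ((eI K b).symm k) := by
  unfold bb
  rw [Module.Basis.reindex_apply]

lemma BB_apply (j k : index K) : BB K b j k = (stdBasis K).repr (mixedEmbedding K (bb K b k)) j := by
  rw [bb_apply]
  simp only [BB, Module.Basis.toMatrix_apply, Module.Basis.coe_reindex, Function.comp_apply,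
    fractionalIdealLatticeBasis_apply]

/-- dual element with given coordinates -/
def nu (m : index K → ℤ) : K := ∑ k, (m k : K) * (bb K b).traceDual k

/-- the dual matrix -/
def WW : Matrix (index K) (index K) ℝ :=
  Matrix.of fun j k => (stdBasis K).repr (dmap K (mixedEmbedding K ((bb K b).traceDual k))) j

lemma WW_transpose_mul : (WW K b).transpose * BB K b = 1 := by
  ext k l
  rw [Matrix.mul_apply, Matrix.one_apply]
  simp only [Matrix.transpose_apply, WW, Matrix.of_apply]
  have h1 : ∀ j, BB K b j l = (stdBasis K).repr (mixedEmbedding K (bb K b l)) j :=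
    fun j => BB_apply K b j l
  simp_rw [h1]
  rw [dot_repr, ← map_mul, trM_mixedEmbedding, Module.Basis.trace_traceDual_mul]
  by_cases h : l = k
  · rw [if_pos h, if_pos h.symm]; simp
  · rw [if_neg h, if_neg (fun h' => h h'.symm)]; simp

lemma BB_inv_transpose : ((BB K b)⁻¹).transpose = WW K b := by
  rw [Matrix.inv_eq_left_inv (WW_transpose_mul K b), Matrix.transpose_transpose]

lemma WW_mulVec (m : index K → ℤ) (j : index K) :
    (WW K b).mulVec (castVec m) j = (stdBasis K).repr (dmap K (mixedEmbedding K (nu K b m))) j := by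
  unfold nu
  rw [map_sum, map_sum, map_sum, Finset.sum_apply']
  unfold Matrix.mulVec dotProduct
  refine Finset.sum_congr rfl fun k _ => ?_
  have h1 : mixedEmbedding K ((m k : K) * (bb K b).traceDual k)
      = (m k : ℝ) • mixedEmbedding K ((bb K b).traceDual k) := by
    rw [← zsmul_eq_mul, map_zsmul]
    exact (Int.cast_smul_eq_zsmul ℝ (m k) _).symm
  rw [h1, map_smul, map_smul]
  simp only [WW, Matrix.of_apply, castVec_apply, Finsupp.smul_apply, smul_eq_mul]
  ring

lemma quad_dual (m : index K → ℤ) (t : ℝ) (u : LogIdx K → ℝ) :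
    quad ((BB K b)⁻¹).transpose (cvec (fun j => -lam K j) t u) (castVec m)
      = t * ∑ w : InfinitePlace K, Real.exp (-ell K w u) * ((mult w : ℝ) * w (nu K b m)) ^ 2 := by
  rw [BB_inv_transpose]
  unfold quad cvec lam
  simp_rw [WW_mulVec]
  have h := sum_sq_repr K (fun w => t * Real.exp (-ell K w u)) (dmap K (mixedEmbedding K (nu K b m)))
  simp only [LinearMap.neg_apply]
  rw [h, Finset.mul_sum]
  refine Finset.sum_congr rfl fun w _ => ?_
  rw [norm_dmap]
  ring

/-! ### the dual ideal -/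

/-- the different -/
def dd : Ideal (𝓞 K) := differentIdeal ℤ (𝓞 K)

lemma dd_ne_zero : dd K ≠ 0 := differentIdeal_ne_bot

/-- a positive integer in `b 𝔡` -/
def Nd : ℕ := Ideal.absNorm ((b : Ideal (𝓞 K)) * dd K)

lemma Nd_ne_zero : Nd K b ≠ 0 := by
  unfold Nd
  rw [Ne, Ideal.absNorm_eq_zero_iff]
  exact mul_ne_zero (coe_ne_bot K b) (dd_ne_zero K)

lemma exists_dual_ideal : ∃ c : (Ideal (𝓞 K))⁰,
    ((b : Ideal (𝓞 K)) * dd K) * (c : Ideal (𝓞 K)) = Ideal.span {((Nd K b : ℕ) : 𝓞 K)} := by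
  have h1 : ((Nd K b : ℕ) : 𝓞 K) ∈ (b : Ideal (𝓞 K)) * dd K := Ideal.absNorm_mem _
  have h2 : ((b : Ideal (𝓞 K)) * dd K) ∣ Ideal.span {((Nd K b : ℕ) : 𝓞 K)} := by
    rw [Ideal.dvd_span_singleton]; exact h1
  obtain ⟨c, hc⟩ := h2
  have hspan : Ideal.span {((Nd K b : ℕ) : 𝓞 K)} ≠ 0 := by
    rw [Ne, Ideal.zero_eq_bot, Ideal.span_singleton_eq_bot]
    exact_mod_cast Nd_ne_zero K b
  have hc0 : c ≠ 0 := by
    rintro rfl
    rw [mul_zero] at hc
    exact hspan hc
  exact ⟨⟨c, mem_nonZeroDivisors_of_ne_zero hc0⟩, hc.symm⟩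

/-- the dual ideal -/
def dI : (Ideal (𝓞 K))⁰ := (exists_dual_ideal K b).choose

lemma dI_spec : ((b : Ideal (𝓞 K)) * dd K) * (dI K b : Ideal (𝓞 K))
    = Ideal.span {((Nd K b : ℕ) : 𝓞 K)} := (exists_dual_ideal K b).choose_spec

lemma fr_coe : ((fr K b : (FractionalIdeal (𝓞 K)⁰ K)ˣ) : FractionalIdeal (𝓞 K)⁰ K)
    = ((b : Ideal (𝓞 K)) : FractionalIdeal (𝓞 K)⁰ K) := by
  unfold fr
  rw [FractionalIdeal.coe_mk0]

lemma coeIdeal_ne_zero' (c : (Ideal (𝓞 K))⁰) :
    ((c : Ideal (𝓞 K)) : FractionalIdeal (𝓞 K)⁰ K) ≠ 0 := by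
  rw [FractionalIdeal.coeIdeal_ne_zero]
  exact coe_ne_bot K c

lemma dual_coe : FractionalIdeal.spanSingleton (𝓞 K)⁰ ((Nd K b : ℕ) : K) *
    FractionalIdeal.dual ℤ ℚ ((b : Ideal (𝓞 K)) : FractionalIdeal (𝓞 K)⁰ K)
      = ((dI K b : Ideal (𝓞 K)) : FractionalIdeal (𝓞 K)⁰ K) := by
  have h1 : ((dd K : Ideal (𝓞 K)) : FractionalIdeal (𝓞 K)⁰ K)
      = (FractionalIdeal.dual ℤ ℚ (1 : FractionalIdeal (𝓞 K)⁰ K))⁻¹ :=
    coeIdeal_differentIdeal ℤ ℚ K (𝓞 K)
  have h2 := congrArg (fun I : Ideal (𝓞 K) => (I : FractionalIdeal (𝓞 K)⁰ K)) (dI_spec K b)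
  simp only [FractionalIdeal.coeIdeal_mul, FractionalIdeal.coeIdeal_span_singleton, map_natCast] at h2
  rw [FractionalIdeal.dual_eq_mul_inv, ← h2, h1]
  have h3 : (FractionalIdeal.dual ℤ ℚ (1 : FractionalIdeal (𝓞 K)⁰ K)) ≠ 0 :=
    FractionalIdeal.dual_ne_zero _ _ one_ne_zero
  have h4 := coeIdeal_ne_zero' K b
  field_simp

lemma mem_dI_iff (y : 𝓞 K) : y ∈ (dI K b : Ideal (𝓞 K)) ↔
    ∀ β ∈ (b : Ideal (𝓞 K)), ∃ n : ℤ, Algebra.trace ℚ K ((y : K) * (β : K)) = (Nd K b : ℚ) * n := by
  have hN : ((Nd K b : ℕ) : K) ≠ 0 := by exact_mod_cast Nd_ne_zero K b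
  have hNq : ((Nd K b : ℕ) : ℚ) ≠ 0 := by exact_mod_cast Nd_ne_zero K b
  have h1 : y ∈ (dI K b : Ideal (𝓞 K)) ↔
      (y : K) ∈ ((dI K b : Ideal (𝓞 K)) : FractionalIdeal (𝓞 K)⁰ K) := by
    rw [RingOfIntegers.coe_eq_algebraMap, FractionalIdeal.mem_coeIdeal]
    constructor
    · intro h
      exact ⟨y, h, rfl⟩
    · rintro ⟨y', hy', he⟩
      have : y' = y := RingOfIntegers.coe_injective he
      rwa [← this]
  rw [h1, ← dual_coe, FractionalIdeal.mem_singleton_mul]
  constructor
  · rintro ⟨z, hz, hyz⟩ β hβ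
    rw [FractionalIdeal.mem_dual (coeIdeal_ne_zero' K b)] at hz
    obtain ⟨n, hn⟩ := hz (β : K) (by
      rw [FractionalIdeal.mem_coeIdeal]; exact ⟨β, hβ, rfl⟩)
    refine ⟨n, ?_⟩
    rw [Algebra.traceForm_apply] at hn
    have e1 : (y : K) * (β : K) = ((Nd K b : ℕ) : ℚ) • (z * (β : K)) := by
      rw [hyz, Algebra.smul_def, map_natCast, mul_assoc]
    rw [e1, map_smul, ← hn, smul_eq_mul]
    simp
  · intro h
    refine ⟨((Nd K b : ℕ) : K)⁻¹ * y, ?_, by rw [mul_inv_cancel_left₀ hN]⟩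
    rw [FractionalIdeal.mem_dual (coeIdeal_ne_zero' K b)]
    intro a ha
    rw [FractionalIdeal.mem_coeIdeal] at ha
    obtain ⟨β, hβ, rfl⟩ := ha
    obtain ⟨n, hn⟩ := h β hβ
    refine ⟨n, ?_⟩
    rw [Algebra.traceForm_apply]
    have e1 : ((Nd K b : ℕ) : K)⁻¹ * (y : K) * (algebraMap (𝓞 K) K β)
        = (((Nd K b : ℕ) : ℚ)⁻¹) • ((y : K) * (β : K)) := by
      rw [Algebra.smul_def, map_inv₀, map_natCast, mul_assoc]
    rw [e1, map_smul, hn, smul_eq_mul]
    simp only [algebraMap_int_eq, eq_intCast]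
    field_simp

lemma nu_repr (z : K) (c : index K → ℤ)
    (h : ∀ k, Algebra.trace ℚ K (z * bb K b k) = c k) : nu K b c = z := by
  unfold nu
  conv_rhs => rw [← (bb K b).traceDual.sum_repr z]
  refine Finset.sum_congr rfl fun k _ => ?_
  rw [Module.Basis.traceDual_repr_apply, Algebra.traceForm_apply, h, Algebra.smul_def]
  simp

lemma trace_nu (m : index K → ℤ) (k : index K) :
    Algebra.trace ℚ K (nu K b m * bb K b k) = m k := by
  unfold nu
  rw [Finset.sum_mul, map_sum]
  have h1 : ∀ i, Algebra.trace ℚ K ((m i : K) * (bb K b).traceDual i * bb K b k)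
      = (m i : ℚ) * (if k = i then 1 else 0) := by
    intro i
    rw [mul_assoc, ← (bb K b).trace_traceDual_mul i k]
    have : (m i : K) * ((bb K b).traceDual i * bb K b k)
        = (m i : ℚ) • ((bb K b).traceDual i * bb K b k) := by
      rw [Algebra.smul_def]; simp
    rw [this, map_smul, smul_eq_mul]
  simp_rw [h1]
  simp

lemma nu_injective : Function.Injective (nu K b) := by
  intro m m' h
  funext k
  have h1 := trace_nu K b m k
  rw [h, trace_nu] at h1
  exact_mod_cast h1.symm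

lemma nu_zero : nu K b 0 = 0 := by simp [nu]

lemma bb_mem (k : index K) : ∃ β ∈ (b : Ideal (𝓞 K)), (β : K) = bb K b k := by
  have h1 := elt_mem K b (Pi.single k 1)
  obtain ⟨y, hy, hye⟩ := h1
  refine ⟨y, hy, ?_⟩
  rw [hye, elt, bb_apply]
  rw [Finset.sum_eq_single k]
  · simp
  · intro i _ hi
    rw [Pi.single_eq_of_ne hi, zero_smul]
  · intro h
    exact absurd (Finset.mem_univ k) h

lemma mem_span_bb (β : 𝓞 K) (hβ : β ∈ (b : Ideal (𝓞 K))) :
    ∃ c : index K → ℤ, (β : K) = ∑ k, (c k : K) * bb K b k := by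
  obtain ⟨m, hm⟩ := exists_elt K b β hβ
  refine ⟨m, ?_⟩
  rw [← hm, elt]
  refine Finset.sum_congr rfl fun k _ => ?_
  rw [bb_apply, zsmul_eq_mul]

/-- the elements of the dual lattice, scaled -/
lemma exists_int_of_nu (m : index K → ℤ) : ∃ y : 𝓞 K, y ∈ (dI K b : Ideal (𝓞 K)) ∧
    (y : K) = (Nd K b : K) * nu K b m := by
  have hN : ((Nd K b : ℕ) : K) ≠ 0 := by exact_mod_cast Nd_ne_zero K b
  -- the element lies in the scaled dual fractional ideal
  have h1 : (Nd K b : K) * nu K b m ∈ ((dI K b : Ideal (𝓞 K)) : FractionalIdeal (𝓞 K)⁰ K) := by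
    rw [← dual_coe, FractionalIdeal.mem_singleton_mul]
    refine ⟨nu K b m, ?_, rfl⟩
    rw [FractionalIdeal.mem_dual (coeIdeal_ne_zero' K b)]
    intro a ha
    rw [FractionalIdeal.mem_coeIdeal] at ha
    obtain ⟨β, hβ, rfl⟩ := ha
    obtain ⟨c, hc⟩ := mem_span_bb K b β hβ
    refine ⟨∑ k, c k * m k, ?_⟩
    rw [Algebra.traceForm_apply]
    have e1 : nu K b m * (algebraMap (𝓞 K) K β) = ∑ k, (c k : ℚ) • (nu K b m * bb K b k) := by
      have : (algebraMap (𝓞 K) K β) = ∑ k, (c k : K) * bb K b k := hc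
      rw [this, Finset.mul_sum]
      refine Finset.sum_congr rfl fun k _ => ?_
      rw [Algebra.smul_def]
      simp only [map_intCast]
      ring
    rw [e1, map_sum, map_sum]
    have e2 : ∀ k, Algebra.trace ℚ K ((c k : ℚ) • (nu K b m * bb K b k)) = (c k : ℚ) * (m k : ℚ) := by
      intro k
      rw [map_smul, trace_nu, smul_eq_mul]
    rw [Finset.sum_congr rfl (fun k _ => e2 k)]
    simp
  rw [FractionalIdeal.mem_coeIdeal] at h1
  obtain ⟨y, hy, hye⟩ := h1
  exact ⟨y, hy, hye⟩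

lemma exists_nu_of_mem (y : 𝓞 K) (hy : y ∈ (dI K b : Ideal (𝓞 K))) :
    ∃ m : index K → ℤ, (y : K) = (Nd K b : K) * nu K b m := by
  have hN : ((Nd K b : ℕ) : K) ≠ 0 := by exact_mod_cast Nd_ne_zero K b
  have hNq : ((Nd K b : ℕ) : ℚ) ≠ 0 := by exact_mod_cast Nd_ne_zero K b
  rw [mem_dI_iff] at hy
  have h1 : ∀ k, ∃ n : ℤ, Algebra.trace ℚ K ((y : K) * bb K b k) = (Nd K b : ℚ) * n := by
    intro k
    obtain ⟨β, hβ, hβe⟩ := bb_mem K b k
    rw [← hβe]
    exact hy β hβ
  choose c hc using h1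
  refine ⟨c, ?_⟩
  have h2 : nu K b c = ((Nd K b : ℕ) : K)⁻¹ * y := by
    apply nu_repr
    intro k
    have e1 : ((Nd K b : ℕ) : K)⁻¹ * (y : K) * bb K b k
        = (((Nd K b : ℕ) : ℚ)⁻¹) • ((y : K) * bb K b k) := by
      rw [Algebra.smul_def, map_inv₀, map_natCast, mul_assoc]
    rw [e1, map_smul, hc, smul_eq_mul]
    field_simp
  rw [h2, mul_inv_cancel_left₀ hN]

/-- the correspondence of the coordinates -/
def dualEquiv : {m : index K → ℤ // m ≠ 0} ≃ NZ K (dI K b) :=
  Equiv.ofBijective (fun m => ⟨(exists_int_of_nu K b m.1).choose,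
    (exists_int_of_nu K b m.1).choose_spec.1, by
      intro h
      apply m.2
      apply nu_injective K b
      have hN : ((Nd K b : ℕ) : K) ≠ 0 := by exact_mod_cast Nd_ne_zero K b
      have h2 := (exists_int_of_nu K b m.1).choose_spec.2
      rw [h, RingOfIntegers.coe_eq_algebraMap, map_zero] at h2
      rw [nu_zero]
      exact (mul_eq_zero.mp h2.symm).resolve_left hN⟩) (by
    have hN : ((Nd K b : ℕ) : K) ≠ 0 := by exact_mod_cast Nd_ne_zero K b
    constructor
    · intro m m' hmm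
      have h : (exists_int_of_nu K b m.1).choose = (exists_int_of_nu K b m'.1).choose :=
        congrArg Subtype.val hmm
      apply Subtype.ext
      apply nu_injective K b
      apply mul_left_cancel₀ hN
      rw [← (exists_int_of_nu K b m.1).choose_spec.2, ← (exists_int_of_nu K b m'.1).choose_spec.2, h]
    · rintro ⟨y, hy, hy0⟩
      obtain ⟨m, hm⟩ := exists_nu_of_mem K b y hy
      have hm0 : m ≠ 0 := by
        rintro rfl
        apply hy0
        rw [nu_zero, mul_zero] at hm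
        exact_mod_cast hm
      refine ⟨⟨m, hm0⟩, ?_⟩
      apply Subtype.ext
      simp only
      have h5 : (((exists_int_of_nu K b m).choose : 𝓞 K) : K) = (y : K) :=
        (exists_int_of_nu K b m).choose_spec.2.trans hm.symm
      exact_mod_cast h5)

lemma dualEquiv_coe (m : {m : index K → ℤ // m ≠ 0}) :
    ((dualEquiv K b m).1 : K) = (Nd K b : K) * nu K b m.1 :=
  (exists_int_of_nu K b m.1).choose_spec.2

/-! ### determinants -/

lemma exists_covol : ∃ c : ℝ, 0 < c ∧ ∀ b : (Ideal (𝓞 K))⁰,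
    |(BB K b).det| = c * (Ideal.absNorm (b : Ideal (𝓞 K)) : ℝ) := by
  have hc : Fintype.card (Module.Free.ChooseBasisIndex ℤ (𝓞 K)) = Fintype.card (index K) := by
    rw [← Module.finrank_eq_card_chooseBasisIndex, card_index, RingOfIntegers.rank]
  let e : Module.Free.ChooseBasisIndex ℤ (𝓞 K) ≃ index K := Fintype.equivOfCardEq hc
  refine ⟨|(stdBasis K).det ((latticeBasis K).reindex e)|, ?_, ?_⟩
  · exact abs_pos.mpr ((stdBasis K).isUnit_det _).ne_zero
  · intro b
    have h1 : (BB K b).det = (stdBasis K).det (fun k => mixedEmbedding K (bb K b k)) := by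
      rw [Module.Basis.det_apply]
      congr 1
      ext j k
      rw [BB_apply, Module.Basis.toMatrix_apply]
    have h2 : (stdBasis K).det (fun k => mixedEmbedding K (bb K b k))
        = (stdBasis K).det ((latticeBasis K).reindex e) *
          ((latticeBasis K).reindex e).det (fun k => mixedEmbedding K (bb K b k)) := by
      rw [Module.Basis.det_apply, Module.Basis.det_apply, Module.Basis.det_apply,
        ← Matrix.det_mul, Module.Basis.toMatrix_mul_toMatrix]
    have h3 : ((latticeBasis K).reindex e).det (fun k => mixedEmbedding K (bb K b k))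
        = (latticeBasis K).det (mixedEmbedding K ∘ (basisOfFractionalIdeal K (fr K b)) ∘
          (e.trans (eI K b).symm)) := by
      rw [Module.Basis.det_reindex]
      congr 1
      funext i
      simp only [Function.comp_apply, bb_apply, Equiv.trans_apply]
    rw [h1, h2, abs_mul, h3, det_basisOfFractionalIdeal_eq_norm, fr_coe,
      FractionalIdeal.coeIdeal_absNorm]
    simp

end Pool.Agent.Helper4
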