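import Mathlib
import Pool.Agent.helper4.DedDual

/-! # The functional equation of Dedekind zeta functions -/

open MeasureTheory Filter Topology Set

noncomputable section

namespace Pool.Agent.Helper4

set_option linter.unusedSectionVars false

open NumberField NumberField.Units NumberField.InfinitePlace NumberField.mixedEmbedding
  NumberField.Units.dirichletUnitTheorem nonZeroDivisors

variable (K : Type*) [Field K] [NumberField K]

open scoped Classical

variable (b c : (Ideal (𝓞 K))⁰)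

/-- theta function of the nonzero elements of an ideal -/
def thN (t : ℝ) (u : LogIdx K → ℝ) : ℝ := ∑' x : NZ K c, Real.exp (-Real.pi * (t * QQ K (x.1 : K) u))

lemma theta1_BB (t : ℝ) (u : LogIdx K → ℝ) : theta1 (BB K c) (cvec (lam K) t u) = thN K c t u := by
  unfold theta1 thN
  rw [← (coordEquiv K c).tsum_eq]
  refine tsum_congr fun m => ?_
  rw [quad_BB, coordEquiv_coe]

/-- multiplication by a unit -/
def unitMul (ε : (𝓞 K)ˣ) : NZ K c ≃ NZ K c where
  toFun x := ⟨(ε : 𝓞 K) * x.1, Ideal.mul_mem_left _ _ x.2.1, mul_ne_zero ε.ne_zero x.2.2⟩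
  invFun x := ⟨((ε⁻¹ : (𝓞 K)ˣ) : 𝓞 K) * x.1, Ideal.mul_mem_left _ _ x.2.1,
    mul_ne_zero (ε⁻¹).ne_zero x.2.2⟩
  left_inv x := by
    apply Subtype.ext
    simp only
    rw [← mul_assoc, Units.inv_mul, one_mul]
  right_inv x := by
    apply Subtype.ext
    simp only
    rw [← mul_assoc, Units.mul_inv, one_mul]

lemma thN_add_log (t : ℝ) (u : LogIdx K → ℝ) (ε : (𝓞 K)ˣ) :
    thN K c t (u + logEmbedding K (Additive.ofMul ε)) = thN K c t u := by
  unfold thN
  rw [← (unitMul K c ε).tsum_eq (fun x : NZ K c => Real.exp (-Real.pi * (t * QQ K (x.1 : K) u)))]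
  refine tsum_congr fun x => ?_
  rw [← QQ_unit_mul]
  congr 4

lemma thN_vadd (t : ℝ) (l : unitLattice K) (u : LogIdx K → ℝ) :
    thN K c t (l +ᵥ u) = thN K c t u := by
  obtain ⟨ε, hε⟩ := exists_section K l
  have : l +ᵥ u = u + logEmbedding K (Additive.ofMul ε) := by
    rw [hε, Submodule.vadd_def, vadd_eq_add, add_comm]
  rw [this, thN_add_log]

/-- the translation and the scaling -/
def shiftP : ℝ × (LogIdx K → ℝ) :=
  (logTE K).symm (fun w => 2 * Real.log (mult w) - 2 * Real.log (Nd K b))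

lemma shiftP_spec (w : InfinitePlace K) :
    (shiftP K b).1 + ell K w (shiftP K b).2 = 2 * Real.log (mult w) - 2 * Real.log (Nd K b) := by
  have h : logTE K (shiftP K b) = fun w => 2 * Real.log (mult w) - 2 * Real.log (Nd K b) :=
    (logTE K).apply_symm_apply _
  have h2 := congrFun h w
  rwa [logTE_apply, logT_apply] at h2

/-- the constant `∑ mult log mult` -/
def c2 : ℝ := ∑ w : InfinitePlace K, (mult w : ℝ) * Real.log (mult w)

lemma shiftP_fst : (Module.finrank ℚ K : ℝ) * (shiftP K b).1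
    = 2 * c2 K - 2 * (Module.finrank ℚ K : ℝ) * Real.log (Nd K b) := by
  have h := sum_mult_logT K (shiftP K b)
  rw [← h]
  have h2 : ∀ w, logT K (shiftP K b) w = 2 * Real.log (mult w) - 2 * Real.log (Nd K b) := by
    intro w
    rw [logT_apply]
    exact shiftP_spec K b w
  simp_rw [h2]
  have h3 : ∑ w : InfinitePlace K, (mult w : ℝ) = (Module.finrank ℚ K : ℝ) := by
    exact_mod_cast InfinitePlace.sum_mult_eq (K := K)
  rw [← h3, c2, Finset.mul_sum, Finset.mul_sum, Finset.sum_mul, ← Finset.sum_sub_distrib]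
  refine Finset.sum_congr rfl fun w _ => ?_
  ring

lemma theta1_dual (t : ℝ) (u : LogIdx K → ℝ) :
    theta1 ((BB K b)⁻¹).transpose (cvec (fun j => -lam K j) t u)
      = thN K (dI K b) (Real.exp (shiftP K b).1 * t) ((shiftP K b).2 - u) := by
  unfold theta1 thN
  rw [← (dualEquiv K b).tsum_eq]
  refine tsum_congr fun m => ?_
  rw [quad_dual, dualEquiv_coe]
  congr 2
  rw [mul_comm (Real.exp _) t, mul_assoc]
  congr 1
  unfold QQ
  rw [Finset.mul_sum]
  refine Finset.sum_congr rfl fun w _ => ?_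
  have hm : (0 : ℝ) < mult w := mult_pos_real K w
  have hN : (0 : ℝ) < Nd K b := by
    exact_mod_cast Nat.pos_of_ne_zero (Nd_ne_zero K b)
  have h1 : w ((Nd K b : K) * nu K b m.1) = (Nd K b : ℝ) * w (nu K b m.1) := by
    rw [map_mul]
    congr 1
    rw [← InfinitePlace.norm_embedding_eq, map_natCast, Complex.norm_natCast]
  have h2 : Real.exp (shiftP K b).1 * Real.exp (ell K w ((shiftP K b).2 - u))
      = Real.exp (-ell K w u) * ((mult w : ℝ) ^ 2 / (Nd K b : ℝ) ^ 2) := by
    rw [map_sub, sub_eq_add_neg, Real.exp_add, ← mul_assoc, ← Real.exp_add, shiftP_spec,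
      Real.exp_sub]
    have e1 : Real.exp (2 * Real.log (mult w)) = (mult w : ℝ) ^ 2 := by
      rw [mul_comm, ← Real.rpow_def_of_pos hm]
      norm_cast
    have e2 : Real.exp (2 * Real.log (Nd K b)) = (Nd K b : ℝ) ^ 2 := by
      rw [mul_comm, ← Real.rpow_def_of_pos hN]
      norm_cast
    rw [e1, e2]
    ring
  rw [h1, ← mul_assoc, h2]
  field_simp

/-! ### integration -/

lemma fund_reflect (u₀ : LogIdx K → ℝ) :
    IsAddFundamentalDomain (unitLattice K) ((fun v => u₀ - v) ⁻¹' DD K) volume := by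
  refine (DD_fund K).preimage_of_equiv (f := fun v : LogIdx K → ℝ => u₀ - v)
    (e := fun l : unitLattice K => -l) ?_ neg_involutive.bijective ?_
  · exact (Measure.measurePreserving_sub_left volume u₀).quasiMeasurePreserving
  · intro l v
    simp only [Submodule.vadd_def, vadd_eq_add, NegMemClass.coe_neg]
    abel

lemma integral_reflect (u₀ : LogIdx K → ℝ) (t : ℝ) :
    ∫ u in DD K, thN K c t (u₀ - u) = ∫ u in DD K, thN K c t u := by
  have h1 : ∫ u in (fun v => u₀ - v) ⁻¹' DD K, thN K c t u = ∫ u in DD K, thN K c t u :=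
    (fund_reflect K u₀).setIntegral_eq (DD_fund K) (thN_vadd K c t)
  rw [← h1]
  have hmp := Measure.measurePreserving_sub_left (volume : Measure (LogIdx K → ℝ)) u₀
  have hemb : MeasurableEmbedding (fun v : LogIdx K → ℝ => u₀ - v) :=
    (Homeomorph.subLeft u₀).measurableEmbedding
  have h2 := hmp.setIntegral_preimage_emb hemb (thN K c t) ((fun v => u₀ - v) ⁻¹' DD K)
  rw [← h2]
  congr 2
  ext u
  simp

lemma thetaInt_BB (t : ℝ) : thetaInt (BB K c) (lam K) (DD K) t = ∫ u in DD K, thN K c t u := by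
  unfold thetaInt
  congr 1
  ext u
  rw [theta1_BB]

lemma thetaInt_dual (t : ℝ) : thetaInt ((BB K b)⁻¹).transpose (fun j => -lam K j) (DD K) t
    = thetaInt (BB K (dI K b)) (lam K) (DD K) (Real.exp (shiftP K b).1 * t) := by
  rw [thetaInt_BB, ← integral_reflect K (dI K b) (shiftP K b).2]
  unfold thetaInt
  congr 1
  ext u
  rw [theta1_dual]

lemma symm_Lambda {w : ℂ} (hw : (Module.finrank ℚ K : ℝ) / 2 < w.re) :
    (idealPair K b).symm.Λ w
      = Complex.exp (-(w * (shiftP K b).1)) * (idealPair K (dI K b)).Λ w := by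
  have hk : ∀ c, (idealPair K c).k = (Module.finrank ℚ K : ℝ) / 2 := by
    intro c
    have : (idealPair K c).k = (Fintype.card (index K) : ℝ) / 2 := rfl
    rw [this, card_index]
  have h1 := ((idealPair K b).symm.hasMellin (s := w) (by
    rw [WeakFEPair.symm_k, hk]; exact hw)).2
  have h2 := ((idealPair K (dI K b)).hasMellin (s := w) (by rw [hk]; exact hw)).2
  rw [← h1, ← h2]
  set F : ℝ → ℂ := fun t => (idealPair K (dI K b)).f t - (idealPair K (dI K b)).f₀ with hF
  have h3 : (fun t => (idealPair K b).symm.f t - (idealPair K b).symm.f₀)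
      = fun t => F (Real.exp (shiftP K b).1 * t) := by
    funext t
    rw [hF, WeakFEPair.symm_f, WeakFEPair.symm_f₀]
    change (((volume.real (DD K) + thetaInt ((BB K b)⁻¹).transpose (fun j => -lam K j) (DD K) t : ℝ) : ℂ)
      - ((volume.real (DD K) : ℝ) : ℂ)) = (((volume.real (DD K) +
        thetaInt (BB K (dI K b)) (lam K) (DD K) (Real.exp (shiftP K b).1 * t) : ℝ) : ℂ)
      - ((volume.real (DD K) : ℝ) : ℂ))
    rw [thetaInt_dual]
  rw [h3, mellin_comp_mul_left F w (Real.exp_pos _), smul_eq_mul]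
  congr 1
  rw [cpow_exp]
  congr 1
  ring

lemma Lambda_FE {w : ℂ} (hw : (Module.finrank ℚ K : ℝ) / 2 < w.re) :
    (idealPair K b).Λ ((Module.finrank ℚ K : ℂ) / 2 - w)
      = ((|(BB K b).det|⁻¹ : ℝ) : ℂ) *
        (Complex.exp (-(w * (shiftP K b).1)) * (idealPair K (dI K b)).Λ w) := by
  have h := (idealPair K b).functional_equation w
  have hk : ((idealPair K b).k : ℂ) = (Module.finrank ℚ K : ℂ) / 2 := by
    have : (idealPair K b).k = (Fintype.card (index K) : ℝ) / 2 := rfl
    rw [this, card_index]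
    push_cast
    rfl
  rw [hk, symm_Lambda K b hw, smul_eq_mul] at h
  rw [h]
  rfl

/-- general formula for the partial zeta function -/
lemma HClass_div (s : ℂ) (h0 : s ≠ 0) (h1 : s ≠ 1) :
    HClass K b s / (s - 1) = ((Nat.card (torsion K) : ℂ) * ((cst K : ℝ) : ℂ))⁻¹ *
        (Ideal.absNorm (b : Ideal (𝓞 K)) : ℂ) ^ s *
        Complex.exp ((Module.finrank ℚ K : ℂ) * s / 2 * Real.log Real.pi) * igam K s *
        (idealPair K b).Λ ((Module.finrank ℚ K : ℂ) * s / 2) := by
  have hn := finrank_ne_zero_complex K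
  have hs1 : s - 1 ≠ 0 := sub_ne_zero.mpr h1
  have hk : ((idealPair K b).k : ℂ) = (Module.finrank ℚ K : ℂ) / 2 := by
    have : (idealPair K b).k = (Fintype.card (index K) : ℝ) / 2 := rfl
    rw [this, card_index]
    push_cast
    rfl
  have hΛ : (idealPair K b).Λ ((Module.finrank ℚ K : ℂ) * s / 2)
      = (idealPair K b).Λ₀ ((Module.finrank ℚ K : ℂ) * s / 2)
        - 2 * (idealPair K b).f₀ / ((Module.finrank ℚ K : ℂ) * s)
        + 2 * ((idealPair K b).ε * (idealPair K b).g₀) / ((Module.finrank ℚ K : ℂ) * (s - 1)) := by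
    rw [WeakFEPair.Λ, hk, smul_eq_mul, smul_eq_mul]
    have e1 : (Module.finrank ℚ K : ℂ) / 2 - (Module.finrank ℚ K : ℂ) * s / 2
        = -((Module.finrank ℚ K : ℂ) * (s - 1) / 2) := by ring
    rw [e1]
    field_simp
    ring
  rw [hΛ, HClass, igam1_eq K s h0]
  generalize (idealPair K b).Λ₀ ((Module.finrank ℚ K : ℂ) * s / 2) = z1
  field_simp

lemma natCast_cpow (N : ℕ) (hN : 0 < N) (s : ℂ) :
    (N : ℂ) ^ s = Complex.exp (s * Real.log N) := by
  have h : (N : ℂ) ≠ 0 := by exact_mod_cast hN.ne'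
  rw [Complex.cpow_def_of_ne_zero h, Complex.natCast_log.symm]
  congr 1
  push_cast
  ring

/-- covolume constant -/
def cov : ℝ := (exists_covol K).choose

lemma cov_pos : 0 < cov K := (exists_covol K).choose_spec.1

lemma det_eq : |(BB K b).det| = cov K * (Ideal.absNorm (b : Ideal (𝓞 K)) : ℝ) :=
  (exists_covol K).choose_spec.2 b

lemma log_norms : Real.log (Ideal.absNorm (b : Ideal (𝓞 K))) + Real.log (Ideal.absNorm (dd K)) +
    Real.log (Ideal.absNorm (dI K b : Ideal (𝓞 K))) = (Module.finrank ℚ K : ℝ) * Real.log (Nd K b) := by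
  have h1 := congrArg Ideal.absNorm (dI_spec K b)
  rw [map_mul, map_mul, Ideal.absNorm_span_natCast, RingOfIntegers.rank] at h1
  have hb : (0 : ℝ) < Ideal.absNorm (b : Ideal (𝓞 K)) := by exact_mod_cast absNorm_pos K b
  have hd : (0 : ℝ) < Ideal.absNorm (dI K b : Ideal (𝓞 K)) := by exact_mod_cast absNorm_pos K (dI K b)
  have hdd : (0 : ℝ) < Ideal.absNorm (dd K) := by
    exact_mod_cast absNorm_pos K ⟨dd K, mem_nonZeroDivisors_of_ne_zero (dd_ne_zero K)⟩
  rw [← Real.log_mul hb.ne' hdd.ne', ← Real.log_mul (by positivity) hd.ne', ← Real.log_pow]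
  congr 1
  exact_mod_cast h1

/-- conductor constant -/
def Lc : ℝ := -(Module.finrank ℚ K : ℝ) * Real.log Real.pi - c2 K + Real.log (Ideal.absNorm (dd K))

/-- constant -/
def Cc : ℂ := ((cov K)⁻¹ : ℝ) * Complex.exp ((Module.finrank ℚ K : ℂ) / 2 * Real.log Real.pi)

lemma Cc_ne_zero : Cc K ≠ 0 := by
  unfold Cc
  refine mul_ne_zero ?_ (Complex.exp_ne_zero _)
  exact_mod_cast inv_ne_zero (cov_pos K).ne'

lemma re_half {s : ℂ} (hs : 1 < s.re) :
    (Module.finrank ℚ K : ℝ) / 2 < ((Module.finrank ℚ K : ℂ) * s / 2).re := by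
  have h1 : (Module.finrank ℚ K : ℂ) * s / 2
      = s * (((Module.finrank ℚ K : ℝ) / 2 : ℝ) : ℂ) := by
    push_cast; ring
  rw [h1, Complex.re_mul_ofReal]
  have := finrank_pos_real K
  have h2 : 0 < (Module.finrank ℚ K : ℝ) / 2 := by positivity
  nlinarith

lemma class_FE {s : ℂ} (hs : 1 < s.re) :
    igam K s * (HClass K b (1 - s) / (-s))
      = Cc K * Complex.exp (s * Lc K) * igam K (1 - s) * (HClass K (dI K b) s / (s - 1)) := by
  have hs1 : s ≠ 1 := by
    rintro rfl
    simp at hs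
  have hs0 : s ≠ 0 := by
    rintro rfl
    simp at hs
    linarith
  have h1 : HClass K b (1 - s) / (-s) = HClass K b (1 - s) / ((1 - s) - 1) := by
    congr 1
    ring
  rw [h1, HClass_div K b (1 - s) (sub_ne_zero.mpr (Ne.symm hs1)) (by
    intro h
    apply hs0
    linear_combination -h), HClass_div K (dI K b) s hs0 hs1]
  have h2 : (Module.finrank ℚ K : ℂ) * (1 - s) / 2
      = (Module.finrank ℚ K : ℂ) / 2 - (Module.finrank ℚ K : ℂ) * s / 2 := by ring
  rw [h2, Lambda_FE K b (re_half K hs)]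
  have hb := absNorm_pos K b
  have hd := absNorm_pos K (dI K b)
  have hbR : (0 : ℝ) < Ideal.absNorm (b : Ideal (𝓞 K)) := by exact_mod_cast hb
  rw [natCast_cpow _ hb, natCast_cpow _ hd, det_eq]
  have e0 : (((cov K * (Ideal.absNorm (b : Ideal (𝓞 K)) : ℝ))⁻¹ : ℝ) : ℂ)
      = (((cov K)⁻¹ : ℝ) : ℂ) * (((Ideal.absNorm (b : Ideal (𝓞 K)) : ℝ)⁻¹ : ℝ) : ℂ) := by
    rw [mul_inv, Complex.ofReal_mul]
  have e1 : (((Ideal.absNorm (b : Ideal (𝓞 K)) : ℝ)⁻¹ : ℝ) : ℂ)
      = Complex.exp (-(Real.log (Ideal.absNorm (b : Ideal (𝓞 K))) : ℝ)) := by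
    rw [← Complex.ofReal_neg, ← Complex.ofReal_exp, Real.exp_neg, Real.exp_log hbR]
  rw [e0, e1, Cc]
  have h3 := log_norms K b
  have h4 := shiftP_fst K b
  have h5 : Complex.exp ((1 - s) * (Real.log (Ideal.absNorm (b : Ideal (𝓞 K))) : ℝ)) *
      Complex.exp (((Module.finrank ℚ K : ℂ) / 2 - (Module.finrank ℚ K : ℂ) * s / 2) *
        (Real.log Real.pi : ℝ)) *
      Complex.exp (-(Real.log (Ideal.absNorm (b : Ideal (𝓞 K))) : ℝ)) *
      Complex.exp (-((Module.finrank ℚ K : ℂ) * s / 2 * ((shiftP K b).1 : ℝ)))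
      = Complex.exp ((Module.finrank ℚ K : ℂ) / 2 * (Real.log Real.pi : ℝ)) *
        Complex.exp (s * (Lc K : ℝ)) *
        Complex.exp (s * (Real.log (Ideal.absNorm (dI K b : Ideal (𝓞 K))) : ℝ)) *
        Complex.exp ((Module.finrank ℚ K : ℂ) * s / 2 * (Real.log Real.pi : ℝ)) := by
    rw [← Complex.exp_add, ← Complex.exp_add, ← Complex.exp_add, ← Complex.exp_add,
      ← Complex.exp_add, ← Complex.exp_add]
    congr 1
    have h3' := congrArg (fun x : ℝ => (x : ℂ)) h3
    have h4' := congrArg (fun x : ℝ => (x : ℂ)) h4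
    unfold Lc
    push_cast at h3' h4' ⊢
    linear_combination (-s) * h3' + (-s / 2) * h4'
  linear_combination (((Nat.card (torsion K) : ℂ) * ((cst K : ℝ) : ℂ))⁻¹ * igam K s *
    igam K (1 - s) * (((cov K)⁻¹ : ℝ) : ℂ) *
    (idealPair K (dI K b)).Λ ((Module.finrank ℚ K : ℂ) * s / 2)) * h5

lemma HClass_congr {b b' : (Ideal (𝓞 K))⁰} (h : ClassGroup.mk0 b = ClassGroup.mk0 b') {s : ℂ}
    (hs : 1 < s.re) : HClass K b s / (s - 1) = HClass K b' s / (s - 1) := by
  have h1 := HClass_eq K b hs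
  have h2 := HClass_eq K b' hs
  have e : JJ K b ≃ JJ K b' := Equiv.subtypeEquivRight (fun I => by rw [h])
  have h3 : HasSum (fun I : JJ K b => (Ideal.absNorm (I.1 : Ideal (𝓞 K)) : ℂ) ^ (-s))
      (HClass K b' s / (s - 1)) :=
    (Equiv.subtypeEquivRight (p := fun I : (Ideal (𝓞 K))⁰ =>
      ClassGroup.mk0 I * ClassGroup.mk0 b = 1) (q := fun I : (Ideal (𝓞 K))⁰ =>
      ClassGroup.mk0 I * ClassGroup.mk0 b' = 1) (fun I => by rw [h])).hasSum_iff.mpr h2
  exact h1.unique h3

/-- class of the different -/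
def dcl : ClassGroup (𝓞 K) :=
  ClassGroup.mk0 (⟨dd K, mem_nonZeroDivisors_of_ne_zero (dd_ne_zero K)⟩ : (Ideal (𝓞 K))⁰)

lemma mk0_dI : ClassGroup.mk0 (dI K b) = (ClassGroup.mk0 b * dcl K)⁻¹ := by
  rw [eq_inv_iff_mul_eq_one, dcl, ← map_mul, ← map_mul, ClassGroup.mk0_eq_one_iff
    (dI K b * (b * (⟨dd K, mem_nonZeroDivisors_of_ne_zero (dd_ne_zero K)⟩ : (Ideal (𝓞 K))⁰))).2]
  refine ⟨⟨((Nd K b : ℕ) : 𝓞 K), ?_⟩⟩
  change (dI K b : Ideal (𝓞 K)) * ((b : Ideal (𝓞 K)) * dd K) = _
  rw [mul_comm, dI_spec]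

/-- **Hecke**: functional equation of the Dedekind zeta function. -/
theorem dedekind_FE_aux {s : ℂ} (hs : 1 < s.re) :
    igam K s * (HDed K (1 - s) / (-s))
      = Cc K * Complex.exp (s * Lc K) * igam K (1 - s) * (HDed K s / (s - 1)) := by
  unfold HDed
  rw [Finset.sum_div, Finset.sum_div, Finset.mul_sum, Finset.mul_sum]
  have h1 : ∀ C : ClassGroup (𝓞 K), igam K s * (HClass K (repIdeal K C) (1 - s) / (-s))
      = Cc K * Complex.exp (s * Lc K) * igam K (1 - s) *
        (HClass K (repIdeal K (C⁻¹ * dcl K)) s / (s - 1)) := by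
    intro C
    rw [class_FE K _ hs]
    congr 1
    apply HClass_congr K _ hs
    rw [mk0_dI, mk0_repIdeal, mk0_repIdeal]
  rw [Finset.sum_congr rfl (fun C _ => h1 C)]
  exact Fintype.sum_equiv ((Equiv.inv _).trans (Equiv.mulRight (dcl K))) _ _ (fun C => rfl)

lemma eq_of_eq_on_half {f g : ℂ → ℂ} (hf : Differentiable ℂ f) (hg : Differentiable ℂ g)
    (h : ∀ s : ℂ, 1 < s.re → f s = g s) : f = g := by
  have hf' : AnalyticOnNhd ℂ f Set.univ := fun z _ => hf.analyticAt z
  have hg' : AnalyticOnNhd ℂ g Set.univ := fun z _ => hg.analyticAt z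
  apply hf'.eq_of_eventuallyEq hg' (z₀ := 2)
  have hopen : IsOpen {s : ℂ | 1 < s.re} := isOpen_lt continuous_const Complex.continuous_re
  filter_upwards [hopen.mem_nhds (show (2 : ℂ) ∈ {s : ℂ | 1 < s.re} by simp)] with s hs
  exact h s hs

/-- functional equation, valid everywhere -/
theorem dedekind_FE (s : ℂ) :
    igam K s * ((s - 1) * HDed K (1 - s))
      = Cc K * Complex.exp (s * Lc K) * (igam K (1 - s) * (-s * HDed K s)) := by
  have h1 := differentiable_igam K
  have h2 := differentiable_HDed K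
  have h3 : Differentiable ℂ (fun s : ℂ => igam K (1 - s)) := h1.comp (by fun_prop)
  have h4 : Differentiable ℂ (fun s : ℂ => HDed K (1 - s)) := h2.comp (by fun_prop)
  have hf : Differentiable ℂ (fun s : ℂ => igam K s * ((s - 1) * HDed K (1 - s))) := by fun_prop
  have hg : Differentiable ℂ (fun s : ℂ => Cc K * Complex.exp (s * Lc K) *
    (igam K (1 - s) * (-s * HDed K s))) := by fun_prop
  have h := eq_of_eq_on_half hf hg (by
    intro s hs
    have hs1 : s - 1 ≠ 0 := by
      intro h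
      have : s = 1 := by linear_combination h
      rw [this] at hs
      simp at hs
    have hs0 : s ≠ 0 := by
      rintro rfl
      simp at hs
      linarith
    have h5 := dedekind_FE_aux K hs
    have h6 : igam K s * ((s - 1) * HDed K (1 - s))
        = (-s * (s - 1)) * (igam K s * (HDed K (1 - s) / (-s))) := by
      field_simp
    rw [h6, h5]
    field_simp)
  exact congrFun h s

end Pool.Agent.Helper4
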