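import Mathlib
import Pool.Agent.helper4.DedFE

/-! # The residue of the Dedekind zeta function is not zero -/

set_option linter.unusedSectionVars false

noncomputable section

namespace Pool.Agent.Helper4

open MeasureTheory Filter Topology NumberField NumberField.InfinitePlace Module nonZeroDivisors
  NumberField.Units.dirichletUnitTheorem NumberField.Units

variable (K : Type*) [Field K] [NumberField K]

open scoped Classical

lemma vol_DD_pos : 0 < volume.real (DD K) := by
  have h1 : volume (DD K) ≠ 0 := ZSpan.measure_fundamentalDomain_ne_zero _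
  have h2 : volume (DD K) ≠ ⊤ := (DD_bounded K).measure_lt_top.ne
  exact ENNReal.toReal_pos h1 h2

lemma igam_one : ∃ x : ℝ, 0 < x ∧ igam K 1 = x := by
  refine ⟨∏ v : InfinitePlace K, (Real.Gamma ((mult v : ℝ) / 2))⁻¹, ?_, ?_⟩
  · apply Finset.prod_pos
    intro v _
    have := mult_pos_real K v
    exact inv_pos.mpr (Real.Gamma_pos_of_pos (by positivity))
  · unfold igam
    push_cast
    refine Finset.prod_congr rfl fun v _ => ?_
    rw [← Complex.Gamma_ofReal]
    push_cast
    rw [mul_one]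

lemma HClass_one (b : (Ideal (𝓞 K))⁰) : ∃ x : ℝ, 0 < x ∧ HClass K b 1 = x := by
  obtain ⟨x, hx, hxe⟩ := igam_one K
  have hW : (0 : ℝ) < Nat.card (torsion K) := by exact_mod_cast Nat.card_pos
  have hc := cst_pos K
  have hb : (0 : ℝ) < Ideal.absNorm (b : Ideal (𝓞 K)) := by exact_mod_cast absNorm_pos K b
  have hn := finrank_pos_real K
  have hv := vol_DD_pos K
  have hdet : 0 < |(BB K b).det|⁻¹ := inv_pos.mpr (abs_pos.mpr (BB_det K b))
  have hc' : (0 : ℝ) < (cst K : ℝ) := hc
  refine ⟨((Nat.card (torsion K) : ℝ) * (cst K : ℝ))⁻¹ * (Ideal.absNorm (b : Ideal (𝓞 K)) : ℝ) *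
    Real.exp ((Module.finrank ℚ K : ℝ) / 2 * Real.log Real.pi) *
    (2 * (|(BB K b).det|⁻¹ * volume.real (DD K)) / (Module.finrank ℚ K : ℝ) * x), by positivity, ?_⟩
  unfold HClass
  have h1 : (idealPair K b).ε = ((|(BB K b).det|⁻¹ : ℝ) : ℂ) := rfl
  have h2 : (idealPair K b).g₀ = ((volume.real (DD K) : ℝ) : ℂ) := rfl
  rw [h1, h2, hxe, Complex.cpow_one]
  push_cast
  ring_nf

theorem HDed_one_ne_zero : HDed K 1 ≠ 0 := by
  choose x hx hxe using HClass_one K
  unfold HDed
  simp_rw [hxe]
  rw [← Complex.ofReal_sum, Ne, Complex.ofReal_eq_zero]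
  apply ne_of_gt
  exact Finset.sum_pos (fun C _ => hx _) ⟨1, Finset.mem_univ _⟩

end Pool.Agent.Helper4
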