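import Mathlib

/-! # Counting pairs of subspaces `U₁ ≤ U₂`, `T U₁ ≤ U₂` over a finite field -/

noncomputable section

namespace Pool.Agent.Helper4

open Module

/-- `q`-integer -/
def br (q m : ℕ) : ℕ := ∑ i ∈ Finset.range m, q ^ i

lemma br_mul (q m : ℕ) : ((q : ℤ) - 1) * (br q m : ℤ) = (q : ℤ) ^ m - 1 := by
  unfold br
  push_cast
  rw [mul_comm, ← mul_geom_sum]
  ring

lemma br_zero (q : ℕ) : br q 0 = 0 := by simp [br]

lemma br_one (q : ℕ) : br q 1 = 1 := by simp [br]

lemma br_pos (q m : ℕ) (hq : 0 < q) (hm : 0 < m) : 0 < br q m := by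
  unfold br
  apply Finset.sum_pos
  · intro i _; positivity
  · exact ⟨0, Finset.mem_range.mpr hm⟩

lemma finite_V (F : Type*) {V : Type*} [Field F] [Finite F] [AddCommGroup V] [Module F V]
    [FiniteDimensional F V] : Finite V := Module.finite_of_finite F

variable {F V : Type*} [Field F] [Finite F] [AddCommGroup V] [Module F V] [FiniteDimensional F V]

lemma card_submodule (U : Submodule F V) : Nat.card U = Nat.card F ^ finrank F U := by
  have : Finite V := finite_V F
  exact Module.natCard_eq_pow_finrank (K := F) (V := U)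

/-- one-step extensions of `A` inside `W` -/
abbrev Ext1 (A W : Submodule F V) : Type _ :=
  {U : Submodule F V // A ≤ U ∧ U ≤ W ∧ finrank F U = finrank F A + 1}

instance : Finite (Submodule F V) := by
  have : Finite V := finite_V F
  exact Finite.of_injective (fun U : Submodule F V => (U : Set V)) SetLike.coe_injective

lemma finrank_sup_span (A : Submodule F V) (x : V) (hx : x ∉ A) :
    finrank F (A ⊔ Submodule.span F {x} : Submodule F V) = finrank F A + 1 := by
  have h := Submodule.finrank_sup_add_finrank_inf_eq A (Submodule.span F {x})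
  have hx0 : x ≠ 0 := by rintro rfl; exact hx A.zero_mem
  have h1 : finrank F (Submodule.span F {x}) = 1 := finrank_span_singleton hx0
  have h2 : (A ⊓ Submodule.span F {x} : Submodule F V) = ⊥ := by
    rw [← disjoint_iff, Submodule.disjoint_span_singleton']
    · exact hx
    · exact hx0
  rw [h2, finrank_bot, h1] at h
  omega

/-- vectors of `W` outside `A` are fibred over the one-step extensions -/
def ext1Equiv (A W : Submodule F V) (hAW : A ≤ W) :
    {x : V // x ∈ W ∧ x ∉ A} ≃ Σ U : Ext1 A W, {x : V // x ∈ U.1 ∧ x ∉ A} where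
  toFun x := ⟨⟨A ⊔ Submodule.span F {x.1}, le_sup_left, sup_le hAW (by
      rw [Submodule.span_singleton_le_iff_mem]; exact x.2.1), finrank_sup_span A x.1 x.2.2⟩,
    ⟨x.1, Submodule.mem_sup_right (Submodule.mem_span_singleton_self _), x.2.2⟩⟩
  invFun y := ⟨y.2.1, y.1.2.2.1 y.2.2.1, y.2.2.2⟩
  left_inv x := rfl
  right_inv := by
    rintro ⟨⟨U, hAU, hUW, hf⟩, ⟨x, hxU, hxA⟩⟩
    have h : A ⊔ Submodule.span F {x} = U := by
      apply Submodule.eq_of_le_of_finrank_eq
      · exact sup_le hAU (by rw [Submodule.span_singleton_le_iff_mem]; exact hxU)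
      · rw [finrank_sup_span A x hxA, hf]
    subst h
    rfl

lemma card_diff (A U : Submodule F V) (h : A ≤ U) :
    Nat.card {x : V // x ∈ U ∧ x ∉ A} + Nat.card F ^ finrank F A = Nat.card F ^ finrank F U := by
  classical
  have : Finite V := finite_V F
  rw [← card_submodule A, ← card_submodule U]
  have : Fintype V := Fintype.ofFinite V
  have e1 : Nat.card {x : V // x ∈ U ∧ x ∉ A} = (Finset.univ.filter fun x : V => x ∈ U ∧ x ∉ A).card := by
    rw [Nat.card_eq_fintype_card, Fintype.card_subtype]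
  have e2 : Nat.card A = (Finset.univ.filter fun x : V => x ∈ A).card := by
    rw [Nat.card_eq_fintype_card]
    exact Fintype.card_subtype _
  have e3 : Nat.card U = (Finset.univ.filter fun x : V => x ∈ U).card := by
    rw [Nat.card_eq_fintype_card]
    exact Fintype.card_subtype _
  rw [e1, e2, e3, ← Finset.card_union_of_disjoint]
  · congr 1
    ext x
    simp only [Finset.mem_union, Finset.mem_filter, Finset.mem_univ, true_and]
    constructor
    · rintro (h1 | h1)
      · exact h1.1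
      · exact h h1
    · intro hx
      by_cases hxA : x ∈ A
      · right; exact hxA
      · left; exact ⟨hx, hxA⟩
  · rw [Finset.disjoint_left]
    intro x hx hx'
    simp only [Finset.mem_filter, Finset.mem_univ, true_and] at hx hx'
    exact hx.2 hx'

lemma two_le_card : 2 ≤ Nat.card F := Finite.one_lt_card

/-- Number of one-step extensions. -/
lemma card_ext1 (A W : Submodule F V) (hAW : A ≤ W) (y : ℕ)
    (hy : finrank F W = finrank F A + y) : Nat.card (Ext1 A W) = br (Nat.card F) y := by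
  classical
  have hq2 : 2 ≤ Nat.card F := two_le_card
  have : Finite V := finite_V F
  have : Fintype (Ext1 A W) := Fintype.ofFinite _
  have h1 := Nat.card_congr (ext1Equiv A W hAW)
  rw [Nat.card_sigma] at h1
  have h2 : ∀ U : Ext1 A W, Nat.card {x : V // x ∈ U.1 ∧ x ∉ A}
      = (Nat.card F) ^ (finrank F A + 1) - (Nat.card F) ^ finrank F A := by
    intro U
    have := card_diff A U.1 U.2.1
    rw [U.2.2.2] at this
    omega
  simp_rw [h2] at h1
  rw [Finset.sum_const, Finset.card_univ, smul_eq_mul, ← Nat.card_eq_fintype_card] at h1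
  have h3 := card_diff A W hAW
  rw [hy] at h3
  have h4 : (Nat.card (Ext1 A W) : ℤ) * ((Nat.card F : ℤ) ^ (finrank F A + 1) - (Nat.card F) ^ finrank F A)
      = (Nat.card F : ℤ) ^ (finrank F A + y) - (Nat.card F) ^ finrank F A := by
    have h5 : (Nat.card F) ^ finrank F A ≤ (Nat.card F) ^ (finrank F A + 1) := Nat.pow_le_pow_right (by omega) (by omega)
    have h6 : (Nat.card F) ^ finrank F A ≤ (Nat.card F) ^ (finrank F A + y) := Nat.pow_le_pow_right (by omega) (by omega)
    have h7 : Nat.card (Ext1 A W) * ((Nat.card F) ^ (finrank F A + 1) - (Nat.card F) ^ finrank F A)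
        = (Nat.card F) ^ (finrank F A + y) - (Nat.card F) ^ finrank F A := by omega
    zify [h5, h6] at h7
    exact h7
  have h8 := br_mul (Nat.card F) y
  have h9 : ((Nat.card F : ℤ) ^ finrank F A) * (((Nat.card F : ℤ) - 1) * (Nat.card (Ext1 A W) : ℤ))
      = ((Nat.card F : ℤ) ^ finrank F A) * (((Nat.card F : ℤ) - 1) * (br (Nat.card F) y : ℤ)) := by
    rw [h8]
    rw [pow_add, pow_one, pow_add] at h4
    linear_combination h4
  have h10 : ((Nat.card F : ℤ) ^ finrank F A) ≠ 0 := by positivity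
  have h11 := mul_left_cancel₀ h10 h9
  have h12 : ((Nat.card F : ℤ) - 1) ≠ 0 := by omega
  have h13 := mul_left_cancel₀ h12 h11
  exact_mod_cast h13

/-- hyperplanes of `W` containing `A` -/
abbrev Hyp (A W : Submodule F V) : Type _ :=
  {U : Submodule F V // A ≤ U ∧ U ≤ W ∧ finrank F U + 1 = finrank F W}

/-- Number of hyperplanes. -/
lemma card_hyp (y : ℕ) : ∀ (A W : Submodule F V), A ≤ W → finrank F W = finrank F A + y →
    Nat.card (Hyp A W) = br (Nat.card F) y := by
  classical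
  have : Finite V := finite_V F
  have hq2 : 2 ≤ Nat.card F := two_le_card
  induction y with
  | zero =>
    intro A W hAW hy
    rw [br_zero]
    have : IsEmpty (Hyp A W) := by
      constructor
      rintro ⟨U, hAU, hUW, hf⟩
      have := Submodule.finrank_mono hAU
      omega
    exact Nat.card_of_isEmpty
  | succ y ih =>
    intro A W hAW hy
    rcases Nat.eq_zero_or_pos y with hy0 | hy0
    · subst hy0
      rw [zero_add, br_one]
      have : Unique (Hyp A W) := by
        refine ⟨⟨⟨A, le_rfl, hAW, by omega⟩⟩, ?_⟩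
        rintro ⟨U, hAU, hUW, hf⟩
        apply Subtype.ext
        exact (Submodule.eq_of_le_of_finrank_eq hAU (by omega)).symm
      exact Nat.card_unique
    · -- double counting of pairs
      have : Fintype (Ext1 A W) := Fintype.ofFinite _
      have : Fintype (Hyp A W) := Fintype.ofFinite _
      have e : (Σ L : Ext1 A W, Hyp L.1 W) ≃ (Σ H : Hyp A W, Ext1 A H.1) :=
        { toFun := fun p => ⟨⟨p.2.1, p.1.2.1.trans p.2.2.1, p.2.2.2.1, p.2.2.2.2⟩,
            ⟨p.1.1, p.1.2.1, p.2.2.1, p.1.2.2.2⟩⟩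
          invFun := fun p => ⟨⟨p.2.1, p.2.2.1, p.2.2.2.1.trans p.1.2.2.1, p.2.2.2.2⟩,
            ⟨p.1.1, p.2.2.2.1, p.1.2.2.1, p.1.2.2.2⟩⟩
          left_inv := fun p => rfl
          right_inv := fun p => rfl }
      have h1 := Nat.card_congr e
      rw [Nat.card_sigma, Nat.card_sigma] at h1
      have h2 : ∀ L : Ext1 A W, Nat.card (Hyp L.1 W) = br (Nat.card F) y := by
        intro L
        apply ih L.1 W L.2.2.1
        rw [L.2.2.2, hy]; ring
      have h3 : ∀ H : Hyp A W, Nat.card (Ext1 A H.1) = br (Nat.card F) y := by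
        intro H
        apply card_ext1 A H.1 H.2.1
        have := H.2.2.2
        omega
      simp_rw [h2, h3] at h1
      rw [Finset.sum_const, Finset.sum_const, Finset.card_univ, Finset.card_univ, smul_eq_mul,
        smul_eq_mul, ← Nat.card_eq_fintype_card, ← Nat.card_eq_fintype_card] at h1
      have h4 : 0 < br (Nat.card F) y := br_pos (Nat.card F) y (by omega) hy0
      have h5 := Nat.eq_of_mul_eq_mul_right h4 h1
      rw [← h5]
      exact card_ext1 A W hAW (y + 1) hy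

/-- pairs `U₁ ≤ U₂` with `T U₁ ≤ U₂` and prescribed dimensions -/
abbrev Flag2 (T : V →ₗ[F] V) (a b : ℕ) : Type _ :=
  {P : Submodule F V × Submodule F V // finrank F P.1 = a ∧ finrank F P.2 = b ∧ P.1 ≤ P.2 ∧
    P.1.map T ≤ P.2}

/-- the intermediate set of triples -/
abbrev Trip1 (T : V →ₗ[F] V) (a b : ℕ) : Type _ :=
  Σ P : Flag2 T a b, Ext1 P.1.1 P.1.2

abbrev Trip2 (T : V →ₗ[F] V) (a b : ℕ) : Type _ :=
  Σ P : Flag2 T a b, Hyp P.1.1 P.1.2

lemma card_Trip1 (T : V →ₗ[F] V) (a b : ℕ) :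
    Nat.card (Trip1 T a b) = br (Nat.card F) (b - a) * Nat.card (Flag2 T a b) := by
  classical
  have : Finite V := finite_V F
  have : Fintype (Flag2 T a b) := Fintype.ofFinite _
  rw [Nat.card_sigma]
  have h2 : ∀ P : Flag2 T a b, Nat.card (Ext1 P.1.1 P.1.2) = br (Nat.card F) (b - a) := by
    intro P
    apply card_ext1 _ _ P.2.2.2.1
    have h := Submodule.finrank_mono P.2.2.2.1
    rw [P.2.1, P.2.2.1] at *
    omega
  simp_rw [h2]
  rw [Finset.sum_const, Finset.card_univ, smul_eq_mul, ← Nat.card_eq_fintype_card, mul_comm]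

lemma card_Trip2 (T : V →ₗ[F] V) (a b : ℕ) :
    Nat.card (Trip2 T a b) = br (Nat.card F) (b - a) * Nat.card (Flag2 T a b) := by
  classical
  have : Finite V := finite_V F
  have : Fintype (Flag2 T a b) := Fintype.ofFinite _
  rw [Nat.card_sigma]
  have h2 : ∀ P : Flag2 T a b, Nat.card (Hyp P.1.1 P.1.2) = br (Nat.card F) (b - a) := by
    intro P
    apply card_hyp _ _ _ P.2.2.2.1
    have h := Submodule.finrank_mono P.2.2.2.1
    rw [P.2.1, P.2.2.1] at *
    omega
  simp_rw [h2]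
  rw [Finset.sum_const, Finset.card_univ, smul_eq_mul, ← Nat.card_eq_fintype_card, mul_comm]

/-- quadruples -/
abbrev Quad (T : V →ₗ[F] V) (a b : ℕ) : Type _ :=
  {P : (Submodule F V × Submodule F V) × (Submodule F V × Submodule F V) //
    (finrank F P.1.1 + 1 = a ∧ finrank F P.1.2 = a ∧ finrank F P.2.1 = b ∧
      finrank F P.2.2 = b + 1) ∧
    (P.1.1 ≤ P.1.2 ∧ P.1.2 ≤ P.2.1 ∧ P.2.1 ≤ P.2.2) ∧
    P.1.1.map T ≤ P.2.1 ∧ P.1.2.map T ≤ P.2.2}

/-- Fibre of `Quad` over the triple `(A, U₁, U₂)`. -/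
abbrev FibB (T : V →ₗ[F] V) (U₁ U₂ : Submodule F V) : Type _ :=
  {B : Submodule F V // U₂ ≤ B ∧ finrank F B = finrank F U₂ + 1 ∧ U₁.map T ≤ B}

/-- Fibre of `Quad` over the triple `(U₁, U₂, B)`. -/
abbrev FibA (T : V →ₗ[F] V) (U₁ U₂ : Submodule F V) : Type _ :=
  {A : Submodule F V // A ≤ U₁ ∧ finrank F A + 1 = finrank F U₁ ∧ A.map T ≤ U₂}

def quadEquivB (T : V →ₗ[F] V) (a b : ℕ) :
    Quad T (a + 1) b ≃ Σ t : Trip1 T a b, FibB T t.2.1 t.1.1.2 where
  toFun P := ⟨⟨⟨(P.1.1.1, P.1.2.1), by have := P.2.1.1; simp only; omega, P.2.1.2.2.1,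
      P.2.2.1.1.trans P.2.2.1.2.1, P.2.2.2.1⟩,
    ⟨P.1.1.2, P.2.2.1.1, P.2.2.1.2.1, by
      have h1 := P.2.1.1; have h2 := P.2.1.2.1; simp only; omega⟩⟩,
    ⟨P.1.2.2, P.2.2.1.2.2, by have h1 := P.2.1.2.2.1; have h2 := P.2.1.2.2.2; simp only; omega,
      P.2.2.2.2⟩⟩
  invFun t := ⟨((t.1.1.1.1, t.1.2.1), (t.1.1.1.2, t.2.1)),
    ⟨by have := t.1.1.2.1; simp only; omega,
     by have h1 := t.1.2.2.2.2; have h2 := t.1.1.2.1; simp only; omega,
     t.1.1.2.2.1, by have h1 := t.2.2.2.1; have h2 := t.1.1.2.2.1; simp only; omega⟩,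
    ⟨t.1.2.2.1, t.1.2.2.2.1, t.2.2.1⟩, t.1.1.2.2.2.2, t.2.2.2.2⟩
  left_inv P := rfl
  right_inv t := rfl

def quadEquivA (T : V →ₗ[F] V) (a b : ℕ) :
    Quad T a b ≃ Σ t : Trip2 T a (b + 1), FibA T t.1.1.1 t.2.1 where
  toFun P := ⟨⟨⟨(P.1.1.2, P.1.2.2), P.2.1.2.1, P.2.1.2.2.2,
      P.2.2.1.2.1.trans P.2.2.1.2.2, P.2.2.2.2⟩,
    ⟨P.1.2.1, P.2.2.1.2.1, P.2.2.1.2.2, by
      have h1 := P.2.1.2.2.1; have h2 := P.2.1.2.2.2; simp only; omega⟩⟩,
    ⟨P.1.1.1, P.2.2.1.1, by have h1 := P.2.1.1; have h2 := P.2.1.2.1; simp only; omega,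
      P.2.2.2.1⟩⟩
  invFun t := ⟨((t.2.1, t.1.1.1.1), (t.1.2.1, t.1.1.1.2)),
    ⟨by have h1 := t.2.2.2.1; have h2 := t.1.1.2.1; simp only; omega,
     t.1.1.2.1,
     by have h1 := t.1.2.2.2.2; have h2 := t.1.1.2.2.1; simp only; omega,
     t.1.1.2.2.1⟩,
    ⟨t.2.2.1, t.1.2.2.1, t.1.2.2.2.1⟩, t.2.2.2.2, t.1.1.2.2.2.2⟩
  left_inv P := rfl
  right_inv t := rfl

lemma card_FibB_of_le (T : V →ₗ[F] V) (U₁ U₂ : Submodule F V) (h12 : U₁.map T ≤ U₂) (c : ℕ)
    (hc : finrank F V = finrank F U₂ + c) : Nat.card (FibB T U₁ U₂) = br (Nat.card F) c := by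
  have e : FibB T U₁ U₂ ≃ Ext1 U₂ (⊤ : Submodule F V) :=
    { toFun := fun B => ⟨B.1, B.2.1, le_top, B.2.2.1⟩
      invFun := fun B => ⟨B.1, B.2.1, B.2.2.2, h12.trans B.2.1⟩
      left_inv := fun B => rfl
      right_inv := fun B => rfl }
  rw [Nat.card_congr e]
  apply card_ext1 _ _ le_top
  rw [finrank_top]
  exact hc

lemma card_FibB_of_not_le (T : V →ₗ[F] V) (A U₁ U₂ : Submodule F V) (hA : A ≤ U₁)
    (hAf : finrank F U₁ = finrank F A + 1) (hTA : A.map T ≤ U₂) (h12 : ¬ U₁.map T ≤ U₂) :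
    Nat.card (FibB T U₁ U₂) = 1 := by
  -- choose x in U₁ with T x ∉ U₂
  obtain ⟨y, hy, hyU⟩ := Set.not_subset.mp h12
  obtain ⟨x, hx, rfl⟩ := hy
  have hxA : x ∉ A := fun h => hyU (hTA ⟨x, h, rfl⟩)
  have hU1 : A ⊔ Submodule.span F {x} = U₁ := by
    apply Submodule.eq_of_le_of_finrank_eq
    · exact sup_le hA (by rw [Submodule.span_singleton_le_iff_mem]; exact hx)
    · rw [finrank_sup_span A x hxA, hAf]
  have hB : finrank F (U₂ ⊔ Submodule.span F {T x} : Submodule F V) = finrank F U₂ + 1 :=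
    finrank_sup_span U₂ (T x) hyU
  have hmap : U₁.map T ≤ U₂ ⊔ Submodule.span F {T x} := by
    rw [← hU1, Submodule.map_sup, Submodule.map_span, Set.image_singleton]
    exact sup_le (hTA.trans le_sup_left) le_sup_right
  have : Unique (FibB T U₁ U₂) := by
    refine ⟨⟨⟨_, le_sup_left, hB, hmap⟩⟩, ?_⟩
    rintro ⟨B, hB1, hB2, hB3⟩
    apply Subtype.ext
    symm
    apply Submodule.eq_of_le_of_finrank_eq
    · refine sup_le hB1 ?_
      rw [Submodule.span_singleton_le_iff_mem]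
      exact hB3 ⟨x, hx, rfl⟩
    · exact hB.trans hB2.symm
  exact Nat.card_unique

lemma card_FibA_of_le (T : V →ₗ[F] V) (U₁ U₂ : Submodule F V) (h12 : U₁.map T ≤ U₂) :
    Nat.card (FibA T U₁ U₂) = br (Nat.card F) (finrank F U₁) := by
  have e : FibA T U₁ U₂ ≃ Hyp (⊥ : Submodule F V) U₁ :=
    { toFun := fun B => ⟨B.1, bot_le, B.2.1, B.2.2.1⟩
      invFun := fun B => ⟨B.1, B.2.2.1, B.2.2.2, (Submodule.map_mono B.2.2.1).trans h12⟩
      left_inv := fun B => rfl
      right_inv := fun B => rfl }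
  rw [Nat.card_congr e]
  apply card_hyp _ _ _ bot_le
  rw [finrank_bot, zero_add]

lemma card_FibA_of_not_le (T : V →ₗ[F] V) (U₁ U₂ B : Submodule F V) (hU : U₂ ≤ B)
    (hUf : finrank F U₂ + 1 = finrank F B) (hTB : U₁.map T ≤ B) (h12 : ¬ U₁.map T ≤ U₂) :
    Nat.card (FibA T U₁ U₂) = 1 := by
  obtain ⟨y, hy, hyU⟩ := Set.not_subset.mp h12
  obtain ⟨x, hx, rfl⟩ := hy
  set A : Submodule F V := U₁ ⊓ U₂.comap T with hA
  have hBeq : U₂ ⊔ Submodule.span F {T x} = B := by
    apply Submodule.eq_of_le_of_finrank_eq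
    · exact sup_le hU (by rw [Submodule.span_singleton_le_iff_mem]; exact hTB ⟨x, hx, rfl⟩)
    · rw [finrank_sup_span U₂ (T x) hyU, hUf]
  have hxA : x ∉ A := fun h => hyU h.2
  have hAsup : A ⊔ Submodule.span F {x} = U₁ := by
    apply le_antisymm
    · exact sup_le inf_le_left (by rw [Submodule.span_singleton_le_iff_mem]; exact hx)
    · intro z hz
      have hTz : T z ∈ U₂ ⊔ Submodule.span F {T x} := by rw [hBeq]; exact hTB ⟨z, hz, rfl⟩
      obtain ⟨u, hu, v, hv, huv⟩ := Submodule.mem_sup.mp hTz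
      obtain ⟨c, rfl⟩ := Submodule.mem_span_singleton.mp hv
      have : z = (z - c • x) + c • x := by abel
      rw [this]
      apply Submodule.add_mem_sup
      · refine ⟨U₁.sub_mem hz (U₁.smul_mem c hx), ?_⟩
        rw [SetLike.mem_coe, Submodule.mem_comap, map_sub, map_smul, ← huv]
        simpa using hu
      · exact Submodule.smul_mem _ _ (Submodule.mem_span_singleton_self _)
  have hAf : finrank F A + 1 = finrank F U₁ := by
    rw [← hAsup, finrank_sup_span A x hxA]
  have hmapA : A.map T ≤ U₂ := by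
    rw [Submodule.map_le_iff_le_comap]
    exact inf_le_right
  have : Unique (FibA T U₁ U₂) := by
    refine ⟨⟨⟨A, inf_le_left, hAf, hmapA⟩⟩, ?_⟩
    rintro ⟨A', hA1, hA2, hA3⟩
    apply Subtype.ext
    apply Submodule.eq_of_le_of_finrank_eq
    · exact le_inf hA1 (by rw [← Submodule.map_le_iff_le_comap]; exact hA3)
    · change finrank F A' = finrank F A
      omega
  exact Nat.card_unique

lemma sum_ite_card {α : Type*} [Finite α] (P : α → Prop) (x : ℕ) (f : α → ℕ)
    (h1 : ∀ t, P t → f t = x) (h2 : ∀ t, ¬ P t → f t = 1) [Fintype α] :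
    ∑ t, f t + Nat.card {t // P t} = x * Nat.card {t // P t} + Nat.card α := by
  classical
  have e1 : ∀ t, f t = if P t then x else 1 := by
    intro t
    split_ifs with h
    · exact h1 t h
    · exact h2 t h
  simp_rw [e1]
  rw [Finset.sum_ite, Finset.sum_const, Finset.sum_const, Nat.card_eq_fintype_card,
    Nat.card_eq_fintype_card, Fintype.card_subtype]
  have := Finset.card_filter_add_card_filter_not (s := (Finset.univ : Finset α)) P
  rw [Finset.card_univ] at this
  simp only [smul_eq_mul, mul_one]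
  rw [← this]
  ring

def trip1LeEquiv (T : V →ₗ[F] V) (a b : ℕ) :
    {t : Trip1 T a b // t.2.1.map T ≤ t.1.1.2} ≃
      Σ P : Flag2 T (a + 1) b, Hyp (⊥ : Submodule F V) P.1.1 where
  toFun t := ⟨⟨(t.1.2.1, t.1.1.1.2), by
      have h1 := t.1.2.2.2.2; have h2 := t.1.1.2.1; simp only; omega,
      t.1.1.2.2.1, t.1.2.2.2.1, t.2⟩, ⟨t.1.1.1.1, bot_le, t.1.2.2.1, by
      have h1 := t.1.2.2.2.2; simp only; omega⟩⟩
  invFun p := ⟨⟨⟨(p.2.1, p.1.1.2), by
      have h1 := p.2.2.2.2; have h2 := p.1.2.1; simp only; omega,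
      p.1.2.2.1, p.2.2.2.1.trans p.1.2.2.2.1,
      (Submodule.map_mono p.2.2.2.1).trans p.1.2.2.2.2⟩,
      ⟨p.1.1.1, p.2.2.2.1, p.1.2.2.2.1, by
        have h1 := p.2.2.2.2; have h2 := p.1.2.1; simp only; omega⟩⟩, p.1.2.2.2.2⟩
  left_inv t := rfl
  right_inv p := rfl

def trip2LeEquiv (T : V →ₗ[F] V) (a b : ℕ) :
    {t : Trip2 T a (b + 1) // t.1.1.1.map T ≤ t.2.1} ≃
      Σ P : Flag2 T a b, Ext1 P.1.2 (⊤ : Submodule F V) where
  toFun t := ⟨⟨(t.1.1.1.1, t.1.2.1), t.1.1.2.1, by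
      have h1 := t.1.2.2.2.2; have h2 := t.1.1.2.2.1; simp only; omega,
      t.1.2.2.1, t.2⟩, ⟨t.1.1.1.2, t.1.2.2.2.1, le_top, by
      have h1 := t.1.2.2.2.2; simp only; omega⟩⟩
  invFun p := ⟨⟨⟨(p.1.1.1, p.2.1), p.1.2.1, by
      have h1 := p.2.2.2.2; have h2 := p.1.2.2.1; simp only; omega,
      p.1.2.2.2.1.trans p.2.2.1, p.1.2.2.2.2.trans p.2.2.1⟩,
      ⟨p.1.1.2, p.1.2.2.2.1, p.2.2.1, by
        have h1 := p.2.2.2.2; simp only; omega⟩⟩, p.1.2.2.2.2⟩
  left_inv t := rfl
  right_inv p := rfl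

/-- number of points of the variety -/
def GG2 (T : V →ₗ[F] V) (a b : ℕ) : ℕ := Nat.card (Flag2 T a b)

lemma card_quad1 (T : V →ₗ[F] V) (a b c : ℕ) (hc : finrank F V = b + c) :
    Nat.card (Quad T (a + 1) b) + br (Nat.card F) (a + 1) * GG2 T (a + 1) b =
      br (Nat.card F) c * (br (Nat.card F) (a + 1) * GG2 T (a + 1) b)
        + br (Nat.card F) (b - a) * GG2 T a b := by
  classical
  have : Finite V := finite_V F
  have : Fintype (Flag2 T a b) := Fintype.ofFinite _
  have : Fintype (Trip1 T a b) := Fintype.ofFinite _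
  have : Fintype (Flag2 T (a + 1) b) := Fintype.ofFinite _
  rw [Nat.card_congr (quadEquivB T a b), Nat.card_sigma]
  have h := sum_ite_card (α := Trip1 T a b) (fun t => t.2.1.map T ≤ t.1.1.2)
    (br (Nat.card F) c) (fun t => Nat.card (FibB T t.2.1 t.1.1.2))
    (fun t ht => card_FibB_of_le T _ _ ht c (by rw [t.1.2.2.1]; exact hc))
    (fun t ht => card_FibB_of_not_le T t.1.1.1 _ _ t.2.2.1 t.2.2.2.2 t.1.2.2.2.2 ht)
  have h2 : Nat.card {t : Trip1 T a b // t.2.1.map T ≤ t.1.1.2}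
      = br (Nat.card F) (a + 1) * GG2 T (a + 1) b := by
    rw [Nat.card_congr (trip1LeEquiv T a b), Nat.card_sigma]
    have h3 : ∀ P : Flag2 T (a + 1) b, Nat.card (Hyp (⊥ : Submodule F V) P.1.1)
        = br (Nat.card F) (a + 1) := by
      intro P
      apply card_hyp _ _ _ bot_le
      rw [finrank_bot, zero_add]
      exact P.2.1
    simp_rw [h3]
    rw [Finset.sum_const, Finset.card_univ, smul_eq_mul, ← Nat.card_eq_fintype_card, mul_comm]
    rfl
  rw [h2] at h
  rw [h, card_Trip1]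
  rfl

lemma card_quad2 (T : V →ₗ[F] V) (a b c : ℕ) (hc : finrank F V = b + c) :
    Nat.card (Quad T a b) + br (Nat.card F) c * GG2 T a b =
      br (Nat.card F) a * (br (Nat.card F) c * GG2 T a b)
        + br (Nat.card F) (b + 1 - a) * GG2 T a (b + 1) := by
  classical
  have : Finite V := finite_V F
  have : Fintype (Flag2 T a b) := Fintype.ofFinite _
  have : Fintype (Trip2 T a (b + 1)) := Fintype.ofFinite _
  rw [Nat.card_congr (quadEquivA T a b), Nat.card_sigma]
  have h := sum_ite_card (α := Trip2 T a (b + 1)) (fun t => t.1.1.1.map T ≤ t.2.1)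
    (br (Nat.card F) a) (fun t => Nat.card (FibA T t.1.1.1 t.2.1))
    (fun t ht => by rw [card_FibA_of_le T _ _ ht, t.1.2.1])
    (fun t ht => card_FibA_of_not_le T _ _ t.1.1.2 t.2.2.2.1 t.2.2.2.2 t.1.2.2.2.2 ht)
  have h2 : Nat.card {t : Trip2 T a (b + 1) // t.1.1.1.map T ≤ t.2.1}
      = br (Nat.card F) c * GG2 T a b := by
    rw [Nat.card_congr (trip2LeEquiv T a b), Nat.card_sigma]
    have h3 : ∀ P : Flag2 T a b, Nat.card (Ext1 P.1.2 (⊤ : Submodule F V))
        = br (Nat.card F) c := by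
      intro P
      apply card_ext1 _ _ le_top
      rw [finrank_top, P.2.2.1]
      exact hc
    simp_rw [h3]
    rw [Finset.sum_const, Finset.card_univ, smul_eq_mul, ← Nat.card_eq_fintype_card, mul_comm]
    rfl
  rw [h2] at h
  rw [h, card_Trip2]
  rfl

/-- The basic recursion. -/
theorem recursion (T : V →ₗ[F] V) (a b c : ℕ) (hab : a + 1 ≤ b) (hc : finrank F V = b + c) :
    (br (Nat.card F) (b - a) : ℤ) * ((GG2 T (a + 1) (b + 1) : ℤ) - GG2 T a b)
      = ((br (Nat.card F) c : ℤ) - br (Nat.card F) (a + 1)) * GG2 T (a + 1) b := by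
  have h1 := card_quad1 T a b c hc
  have h2 := card_quad2 T (a + 1) b c hc
  have h3 : b + 1 - (a + 1) = b - a := by omega
  rw [h3] at h2
  zify at h1 h2
  linear_combination h1 - h2

/-- The recursion for `a = 0`. -/
theorem recursion_zero (T : V →ₗ[F] V) (b c : ℕ) (hc : finrank F V = b + c) :
    (br (Nat.card F) (b + 1) : ℤ) * (GG2 T 0 (b + 1) : ℤ)
      = (br (Nat.card F) c : ℤ) * GG2 T 0 b := by
  have h2 := card_quad2 T 0 b c hc
  have h3 : Nat.card (Quad T 0 b) = 0 := by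
    have : IsEmpty (Quad T 0 b) := ⟨fun P => by have := P.2.1.1; omega⟩
    exact Nat.card_of_isEmpty
  rw [h3, br_zero, Nat.sub_zero] at h2
  zify at h2
  linear_combination -h2

end Pool.Agent.Helper4
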