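import Mathlib
import Pool.Agent.helper4.HessCount

/-! # Solution of the recursion -/

noncomputable section

namespace Pool.Agent.Helper4

open Module Polynomial

/-- Gaussian binomial coefficients as polynomials with coefficients in `ℕ`. -/
def qbinP : ℕ → ℕ → ℕ[X]
  | _, 0 => 1
  | 0, _ + 1 => 0
  | n + 1, k + 1 => qbinP n k + X ^ (k + 1) * qbinP n (k + 1)

/-- value of the Gaussian binomial coefficient -/
def qb (q n k : ℕ) : ℕ := (qbinP n k).eval q

lemma qb_zero (q n : ℕ) : qb q n 0 = 1 := by
  cases n <;> simp [qb, qbinP]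

lemma qb_zero_succ (q k : ℕ) : qb q 0 (k + 1) = 0 := by simp [qb, qbinP]

lemma qb_succ (q n k : ℕ) : qb q (n + 1) (k + 1) = qb q n k + q ^ (k + 1) * qb q n (k + 1) := by
  simp [qb, qbinP]

lemma qb_eq_zero (q n k : ℕ) (h : n < k) : qb q n k = 0 := by
  induction n generalizing k with
  | zero =>
    cases k with
    | zero => omega
    | succ k => exact qb_zero_succ q k
  | succ n ih =>
    cases k with
    | zero => omega
    | succ k => rw [qb_succ, ih k (by omega), ih (k + 1) (by omega)]; simp

lemma br_add (q x k : ℕ) : br q (k + x) = br q k + q ^ k * br q x := by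
  unfold br
  rw [Finset.sum_range_add, Finset.mul_sum]
  congr 1
  exact Finset.sum_congr rfl fun i _ => pow_add _ _ _

lemma br_self (q : ℕ) : br q 1 = 1 := by simp [br]

/-- `[k+1] C(n,k+1) = [n-k] C(n,k)` -/
lemma qb_A (q n k : ℕ) (h : k ≤ n) : br q (k + 1) * qb q n (k + 1) = br q (n - k) * qb q n k := by
  induction n generalizing k with
  | zero =>
    have : k = 0 := by omega
    subst this
    rw [qb_zero_succ]
    simp [br]
  | succ n ih =>
    have hB : k ≤ n → br q (k + 1) * qb q (n + 1) (k + 1) = br q (n + 1) * qb q n k := by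
      intro hk
      rw [qb_succ, mul_add, ← mul_assoc, mul_comm (br q (k + 1)) (q ^ (k + 1)), mul_assoc, ih k hk]
      have h5 : br q (n + 1) = br q (k + 1) + q ^ (k + 1) * br q (n - k) := by
        rw [← br_add]; congr 1; omega
      rw [h5]
      ring
    rcases Nat.lt_or_ge n k with hk | hk
    · have : k = n + 1 := by omega
      subst this
      rw [qb_eq_zero q (n + 1) (n + 1 + 1) (by omega)]
      simp [br]
    · rw [hB hk]
      cases k with
      | zero => rw [qb_zero, qb_zero]; simp
      | succ k' =>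
        have h1 : n + 1 - (k' + 1) = n - k' := by omega
        rw [h1, qb_succ, mul_add, ← ih k' (by omega)]
        have h5 : br q (n + 1) = br q (k' + 1) + q ^ (k' + 1) * br q (n - k') := by
          rw [← br_add]; congr 1; omega
        rw [h5]
        ring

/-- `[k+1] C(n+1,k+1) = [n+1] C(n,k)` -/
lemma qb_B (q n k : ℕ) (hk : k ≤ n) :
    br q (k + 1) * qb q (n + 1) (k + 1) = br q (n + 1) * qb q n k := by
  rw [qb_succ, mul_add, ← mul_assoc, mul_comm (br q (k + 1)) (q ^ (k + 1)), mul_assoc, qb_A q n k hk]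
  have h5 : br q (n + 1) = br q (k + 1) + q ^ (k + 1) * br q (n - k) := by
    rw [← br_add]; congr 1; omega
  rw [h5]
  ring

/-- The multiplicity polynomials `g_c(j, m)`. -/
def gP : ℕ → ℕ → ℕ → ℕ[X]
  | 0, j, _ => if j = 0 then 1 else 0
  | c + 1, j, m => qbinP (j + c + 1) (c + 1) * qbinP (m - j - 1) c
      + X ^ (j + c + 1) * (qbinP (j + c) c * qbinP (m - j - 1) (c + 1))

/-- value of `gP` -/
def gv (q c j m : ℕ) : ℕ := (gP c j m).eval q

lemma gv_zero (q j m : ℕ) : gv q 0 j m = if j = 0 then 1 else 0 := by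
  by_cases h : j = 0 <;> simp [gv, gP, h]

lemma gv_succ (q c j m : ℕ) : gv q (c + 1) j m = qb q (j + c + 1) (c + 1) * qb q (m - j - 1) c
      + q ^ (j + c + 1) * (qb q (j + c) c * qb q (m - j - 1) (c + 1)) := by
  simp [gv, gP, qb]

/-- product form -/
lemma gv_prod (q c j m : ℕ) (hm : j + 1 ≤ m) :
    br q (c + 1) * gv q (c + 1) j m = br q m * (qb q (j + c) c * qb q (m - j - 1) c) := by
  rw [gv_succ]
  rcases Nat.lt_or_ge (m - j - 1) c with h | h
  · rw [qb_eq_zero q _ _ h, qb_eq_zero q (m - j - 1) (c + 1) (by omega)]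
    simp
  · have h1 := qb_B q (j + c) c (by omega)
    have h2 := qb_A q (m - j - 1) c h
    have h3 : m = (j + c + 1) + (m - j - 1 - c) := by omega
    have h4 : br q m = br q (j + c + 1) + q ^ (j + c + 1) * br q (m - j - 1 - c) := by
      conv_lhs => rw [h3]
      exact br_add q _ _
    rw [h4]
    calc _ = (br q (c + 1) * qb q (j + c + 1) (c + 1)) * qb q (m - j - 1) c
          + q ^ (j + c + 1) * (qb q (j + c) c * (br q (c + 1) * qb q (m - j - 1) (c + 1))) := by ring
      _ = _ := by rw [h1, h2]; ring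

lemma br_pos' (q m : ℕ) (hm : 0 < m) : 0 < br q m := by
  unfold br
  have h0 : (0 : ℕ) ∈ Finset.range m := Finset.mem_range.mpr hm
  exact lt_of_lt_of_le (by simp) (Finset.single_le_sum (f := fun i => q ^ i)
    (fun i _ => Nat.zero_le _) h0)

/-- recursion for `j = 0` -/
lemma gv_rec_zero (q c m : ℕ) (hm : c + 1 ≤ m) :
    br q (c + 1) * gv q (c + 1) 0 m = br q (m - c) * gv q c 0 m := by
  rw [gv_prod q c 0 m (by omega)]
  cases c with
  | zero => rw [gv_zero]; simp [qb_zero]
  | succ c' =>
    have h1 := gv_prod q c' 0 m (by omega)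
    have h2 := qb_A q (m - 0 - 1) c' (by omega)
    have h3 : m - 0 - 1 - c' = m - (c' + 1) := by omega
    rw [h3] at h2
    have hself : ∀ n, qb q n n = 1 := by
      intro n
      induction n with
      | zero => exact qb_zero q 0
      | succ n ih => rw [qb_succ, ih, qb_eq_zero q n (n + 1) (by omega)]; simp
    simp only [zero_add, hself, one_mul] at h1 ⊢
    have hpos := br_pos' q (c' + 1) (by omega)
    apply Nat.eq_of_mul_eq_mul_left hpos
    calc _ = br q m * (br q (c' + 1) * qb q (m - 0 - 1) (c' + 1)) := by ring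
      _ = br q m * (br q (m - (c' + 1)) * qb q (m - 0 - 1) c') := by rw [h2]
      _ = br q (m - (c' + 1)) * (br q m * qb q (m - 0 - 1) c') := by ring
      _ = _ := by rw [← h1]; ring

/-- recursion for `j ≥ 1` -/
lemma gv_rec_succ (q c j m : ℕ) (hm : 2 * (j + 1) + c + 1 ≤ m) :
    (br q (c + 1) : ℤ) * ((gv q (c + 1) (j + 1) m : ℤ) - gv q (c + 1) j m)
      = ((br q (m - (j + 1) - c) : ℤ) - br q (j + 1)) * gv q c (j + 1) m := by
  have e1 := gv_prod q c (j + 1) m (by omega)
  have e2 := gv_prod q c j m (by omega)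
  cases c with
  | zero =>
    simp only [add_zero, qb_zero, mul_one] at e1 e2
    rw [gv_zero]
    have h0 : br q (0 + 1) = 1 := br_self q
    rw [h0, one_mul] at e1 e2
    simp [e1, e2]
  | succ c' =>
    have e3 := gv_prod q c' (j + 1) m (by omega)
    -- C(j+1+c'+1, c'+1) [c'+1] = [j+1+c'+1] C(j+1+c', c')
    have b1 := qb_B q (j + 1 + c') c' (by omega)
    -- C(j+c'+1, c'+1) [c'+1] = [j+1] C(j+1+c',c')
    have b2 := qb_A q (j + 1 + c') c' (by omega)
    have b3 := qb_A q (m - (j + 1) - 1) c' (by omega)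
    have b4 := qb_B q (m - (j + 1) - 1) c' (by omega)
    have x1 : j + 1 + c' - c' = j + 1 := by omega
    have x2 : m - (j + 1) - 1 + 1 = m - j - 1 := by omega
    have x3 : m - (j + 1) - 1 - c' = m - (j + 1) - (c' + 1) := by omega
    have x4 : j + 1 + c' = j + (c' + 1) := by omega
    rw [x1] at b2
    rw [x2] at b4
    rw [x3] at b3
    have x5 : j + 1 + (c' + 1) = j + 1 + c' + 1 := by omega
    rw [x5] at e1
    rw [← x4] at e2
    have hpos : (0 : ℤ) < br q (c' + 1) := by exact_mod_cast br_pos' q (c' + 1) (by omega)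
    have key : (br q (j + 1 + c' + 1) : ℤ) * br q (m - (j + 1) - (c' + 1))
        - (br q (j + 1) : ℤ) * br q (m - j - 1)
        = (br q (c' + 1) : ℤ) * ((br q (m - (j + 1) - (c' + 1)) : ℤ) - br q (j + 1)) := by
      have y1 : br q (j + 1 + c' + 1) = br q (j + 1) + q ^ (j + 1) * br q (c' + 1) := by
        rw [← br_add]; congr 1
      have y2 : br q (m - j - 1) = br q (m - (j + 1) - (c' + 1))
          + q ^ (m - (j + 1) - (c' + 1)) * br q (c' + 1) := by
        rw [← br_add]; congr 1; omega
      have z1 : (q : ℤ) ^ (j + 1) = 1 + ((q : ℤ) - 1) * br q (j + 1) := by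
        rw [br_mul]; ring
      have z2 : (q : ℤ) ^ (m - (j + 1) - (c' + 1))
          = 1 + ((q : ℤ) - 1) * br q (m - (j + 1) - (c' + 1)) := by
        rw [br_mul]; ring
      rw [y1, y2]
      push_cast
      rw [z1, z2]
      ring
    zify at e1 e2 e3 b1 b2 b3 b4
    have h3ne : (br q (c' + 1) : ℤ) * br q (c' + 1) ≠ 0 := by positivity
    apply mul_left_cancel₀ h3ne
    have lhs : (br q (c' + 1) : ℤ) * br q (c' + 1) * ((br q (c' + 1 + 1) : ℤ) *
        ((gv q (c' + 1 + 1) (j + 1) m : ℤ) - gv q (c' + 1 + 1) j m))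
        = br q m * (((br q (c' + 1) : ℤ) * qb q (j + 1 + c' + 1) (c' + 1)) *
            ((br q (c' + 1) : ℤ) * qb q (m - (j + 1) - 1) (c' + 1))
          - ((br q (c' + 1) : ℤ) * qb q (j + 1 + c') (c' + 1)) *
            ((br q (c' + 1) : ℤ) * qb q (m - j - 1) (c' + 1))) := by
      linear_combination (br q (c' + 1) : ℤ) * br q (c' + 1) * (e1 - e2)
    rw [lhs, b1, b2, b3, b4]
    linear_combination (br q m : ℤ) * qb q (j + 1 + c') c' * qb q (m - (j + 1) - 1) c' * key
      - (br q (c' + 1) : ℤ) * ((br q (m - (j + 1) - (c' + 1)) : ℤ) - br q (j + 1)) * e3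

variable {F V : Type*} [Field F] [Finite F] [AddCommGroup V] [Module F V] [FiniteDimensional F V]

/-- Closed formula below the middle. -/
theorem closed_formula (T : V →ₗ[F] V) (c : ℕ) : ∀ a, 2 * a + c ≤ finrank F V →
    GG2 T a (a + c) = ∑ k ∈ Finset.range (a + 1), GG2 T k k *
      (Nat.card F ^ (k * c) * gv (Nat.card F) c (a - k) (finrank F V - 2 * k)) := by
  classical
  set q := Nat.card F with hq
  set n := finrank F V with hn
  induction c with
  | zero =>
    intro a _
    simp only [gv_zero, add_zero, mul_zero, pow_zero, one_mul]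
    rw [Finset.sum_eq_single a]
    · simp
    · intro k hk hka
      have : a - k ≠ 0 := by
        have := Finset.mem_range.mp hk
        omega
      simp [this]
    · intro h
      exact absurd (Finset.mem_range.mpr (by omega)) h
  | succ c ihc =>
    intro a
    have hpos : (br q (c + 1) : ℤ) ≠ 0 := by
      have := br_pos' q (c + 1) (by omega)
      exact_mod_cast this.ne'
    induction a with
    | zero =>
      intro ha
      have h1 := recursion_zero T c (n - c) (by omega)
      have h2 := ihc 0 (by omega)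
      simp only [zero_add, Finset.range_one, Finset.sum_singleton, zero_mul, pow_zero, one_mul,
        mul_zero, Nat.sub_zero, Nat.sub_self] at h2 ⊢
      have h3 := gv_rec_zero q c n (by omega)
      zify at h2 h3 ⊢
      apply mul_left_cancel₀ hpos
      rw [h1, h2]
      linear_combination (-(GG2 T 0 0 : ℤ)) * h3
    | succ a iha =>
      intro ha
      have h0 : a + 1 + (c + 1) = (a + 1 + c) + 1 := by ring
      have h1 := recursion T a (a + 1 + c) (n - (a + 1 + c)) (by omega) (by omega)
      have hb : a + 1 + c - a = c + 1 := by omega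
      rw [hb] at h1
      have h2 := ihc (a + 1) (by omega)
      have h3 := iha (by omega)
      have h4 : a + (c + 1) = a + 1 + c := by ring
      rw [h4] at h3
      rw [h0]
      -- split top term
      rw [Finset.sum_range_succ]
      rw [Finset.sum_range_succ] at h2
      zify at h2 h3 ⊢
      apply mul_left_cancel₀ hpos
      have h5 : (br q (c + 1) : ℤ) * (GG2 T (a + 1) (a + 1 + c + 1) : ℤ)
          = (br q (c + 1) : ℤ) * GG2 T a (a + 1 + c)
            + ((br q (n - (a + 1 + c)) : ℤ) - br q (a + 1)) * GG2 T (a + 1) (a + 1 + c) := by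
        linear_combination h1
      rw [h5, h3, h2]
      rw [mul_add ((br q (n - (a + 1 + c)) : ℤ) - br q (a + 1)), mul_add (br q (c + 1) : ℤ),
        Finset.mul_sum, Finset.mul_sum, Finset.mul_sum, ← add_assoc,
        ← Finset.sum_add_distrib]
      congr 1
      · refine Finset.sum_congr rfl fun k hk => ?_
        have hk' := Finset.mem_range.mp hk
        obtain ⟨j, rfl⟩ : ∃ j, a = k + j := ⟨a - k, by omega⟩
        have e1 : k + j - k = j := by omega
        have e2 : k + j + 1 - k = j + 1 := by omega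
        have h6 := gv_rec_succ q c j (n - 2 * k) (by omega)
        have e3 : br q (n - (k + j + 1 + c)) = br q k + q ^ k * br q (n - 2 * k - (j + 1) - c) := by
          rw [← br_add]; congr 1; omega
        have e4 : br q (k + j + 1) = br q k + q ^ k * br q (j + 1) := by
          rw [← br_add]; congr 1
        rw [e1, e2, e3, e4]
        have e5 : k * (c + 1) = k * c + k := by ring
        rw [e5, pow_add]
        push_cast
        linear_combination (-(GG2 T k k : ℤ) * (q : ℤ) ^ (k * c) * (q : ℤ) ^ k) * h6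
      · have e1 : a + 1 - (a + 1) = 0 := by omega
        rw [e1]
        have h6 := gv_rec_zero q c (n - 2 * (a + 1)) (by omega)
        have e3 : br q (n - (a + 1 + c)) = br q (a + 1) + q ^ (a + 1) * br q (n - 2 * (a + 1) - c) := by
          rw [← br_add]; congr 1; omega
        rw [e3]
        have e5 : (a + 1) * (c + 1) = (a + 1) * c + (a + 1) := by ring
        rw [e5, pow_add]
        zify at h6
        push_cast
        linear_combination (-(GG2 T (a + 1) (a + 1) : ℤ) * (q : ℤ) ^ ((a + 1) * c) * (q : ℤ) ^ (a + 1)) * h6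

end Pool.Agent.Helper4
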