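import Mathlib
import Pool.Agent.helper4.HessCount

/-! # Invariant subspaces and divisors of the characteristic polynomial -/

noncomputable section

namespace Pool.Agent.Helper4

open Polynomial Module

lemma sub_dvd_aeval_sub {R B : Type*} [CommRing R] [Ring B] [Algebra R B] (x y : B)
    (hxy : Commute x y) (g : R[X]) : x - y ∣ aeval x g - aeval y g := by
  induction g using Polynomial.induction_on' with
  | add p q hp hq =>
    rw [map_add, map_add, add_sub_add_comm]
    exact dvd_add hp hq
  | monomial k c =>
    rw [aeval_monomial, aeval_monomial, ← mul_sub]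
    obtain ⟨q, hq⟩ := hxy.sub_dvd_pow_sub_pow k
    rw [hq]
    refine ⟨algebraMap R B c * q, ?_⟩
    rw [← mul_assoc, Algebra.commutes c (x - y), mul_assoc]

lemma charpoly_dvd_pow {F n : Type*} [Field F] [Fintype n] [DecidableEq n] (A : Matrix n n F)
    (g : F[X]) (h : aeval A g = 0) : A.charpoly ∣ g ^ Fintype.card n := by
  -- work in matrices over `F[X]`
  set x : Matrix n n F[X] := Matrix.scalar n (X : F[X]) with hx
  set y : Matrix n n F[X] := A.map C with hy
  have hxy : Commute x y := Matrix.scalar_commute _ (fun r => Commute.all _ _) _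
  obtain ⟨Q, hQ⟩ := sub_dvd_aeval_sub (R := F) x y hxy g
  have h1 : aeval y g = 0 := by
    have h2 : y = (Algebra.ofId F F[X]).mapMatrix A := by
      rw [hy]; rfl
    rw [h2, aeval_algHom_apply, h, map_zero]
  have h2 : aeval x g = Matrix.scalar n g := by
    have h3 : x = (Algebra.ofId F[X] (Matrix n n F[X])).restrictScalars F X := by
      rw [hx]; rfl
    rw [h3, aeval_algHom_apply]
    rw [aeval_X_left_apply]
    rfl
  rw [h1, sub_zero, h2] at hQ
  have h4 := congrArg Matrix.det hQ
  rw [Matrix.det_mul] at h4
  have h5 : (Matrix.scalar n g).det = g ^ Fintype.card n := by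
    rw [Matrix.scalar_apply, Matrix.det_diagonal]
    simp
  rw [h5] at h4
  exact ⟨_, h4⟩

variable {F V : Type*} [Field F] [AddCommGroup V] [Module F V] [FiniteDimensional F V]

set_option linter.unusedSectionVars false

lemma lin_charpoly_dvd_pow (T : Module.End F V) (g : F[X]) (h : aeval T g = 0) :
    T.charpoly ∣ g ^ finrank F V := by
  set b := finBasis F V with hb
  have h1 : aeval (LinearMap.toMatrixAlgEquiv b T) g = 0 := by
    rw [aeval_algHom_apply, h, map_zero]
  have h2 := charpoly_dvd_pow _ g h1
  rw [Fintype.card_fin] at h2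
  have h3 : (LinearMap.toMatrixAlgEquiv b T).charpoly = T.charpoly := LinearMap.charpoly_toMatrix T b
  rwa [h3] at h2

lemma mapsTo_ker_aeval (T : Module.End F V) (g : F[X]) :
    ∀ x ∈ LinearMap.ker (aeval T g), T x ∈ LinearMap.ker (aeval T g) := by
  intro x hx
  rw [LinearMap.mem_ker] at hx ⊢
  have h1 : aeval T g * T = T * aeval T g := by
    have : Commute (aeval T g) T := by
      have h2 : Commute (aeval T g) (aeval T (X : F[X])) := by
        rw [Commute, SemiconjBy, ← map_mul, ← map_mul, mul_comm]
      rwa [aeval_X] at h2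
    exact this
  have h2 : (aeval T g * T) x = (T * aeval T g) x := by rw [h1]
  rw [Module.End.mul_apply, Module.End.mul_apply, hx, map_zero] at h2
  exact h2

lemma aeval_restrict_apply (T : Module.End F V) (U : Submodule F V) (hU : ∀ x ∈ U, T x ∈ U)
    (g : F[X]) (x : U) : ((aeval (T.restrict hU) g x : U) : V) = aeval T g (x : V) := by
  induction g using Polynomial.induction_on' with
  | add p q hp hq => simp [hp, hq]
  | monomial k c =>
    rw [aeval_monomial, aeval_monomial]
    simp only [Module.End.mul_apply, Module.algebraMap_end_apply]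
    have h1 : ∀ (k : ℕ) (x : U), (((T.restrict hU) ^ k) x : V) = (T ^ k) (x : V) := by
      intro k
      induction k with
      | zero => intro x; simp
      | succ k ih => intro x; rw [pow_succ, pow_succ, Module.End.mul_apply, Module.End.mul_apply, ih]; rfl
    rw [Submodule.coe_smul, h1]

/-- characteristic polynomial on the kernel of a divisor of the characteristic polynomial -/
lemma charpoly_ker_aeval (T : Module.End F V) (hT : T.charpoly.Separable) (g : F[X]) (hg : g.Monic)
    (hd : g ∣ T.charpoly) (U : Submodule F V) (hU : U = LinearMap.ker (aeval T g))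
    (hUs : ∀ x ∈ U, T x ∈ U) : (T.restrict hUs).charpoly = g := by
  obtain ⟨h, hgh⟩ := hd
  have hmon : h.Monic := by
    have h1 := LinearMap.charpoly_monic T
    rw [hgh] at h1
    exact hg.of_mul_monic_left h1
  have hcop : IsCoprime g h := (hgh ▸ hT).isCoprime
  set W := LinearMap.ker (aeval T h) with hW
  have hdis : Disjoint U W := by
    rw [hU]
    exact disjoint_ker_aeval_of_isCoprime T hcop
  have hsup : U ⊔ W = ⊤ := by
    rw [hU, hW, sup_ker_aeval_eq_ker_aeval_mul_of_coprime T hcop, ← hgh, LinearMap.aeval_self_charpoly]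
    exact LinearMap.ker_zero
  have hcompl : IsCompl U W := ⟨hdis, codisjoint_iff.mpr hsup⟩
  have hWs := mapsTo_ker_aeval T h
  set T1 := T.restrict hUs with hT1
  set T2 := T.restrict hWs with hT2
  have e : T.charpoly = T1.charpoly * T2.charpoly := by
    rw [← LinearMap.charpoly_prodMap, ← (Submodule.prodEquivOfIsCompl U W hcompl).charpoly_conj]
    congr 1
    apply LinearMap.ext
    intro v
    obtain ⟨w, rfl⟩ := (Submodule.prodEquivOfIsCompl U W hcompl).surjective v
    rw [LinearEquiv.conj_apply_apply, LinearEquiv.symm_apply_apply]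
    obtain ⟨u, w⟩ := w
    simp [hT1, hT2]
  have hz1 : aeval T1 g = 0 := by
    apply LinearMap.ext
    intro x
    apply Subtype.ext
    rw [aeval_restrict_apply]
    have hx := x.2
    have hU' := hU.le
    exact hU' hx
  have hz2 : aeval T2 h = 0 := by
    apply LinearMap.ext
    intro x
    apply Subtype.ext
    rw [aeval_restrict_apply]
    exact x.2
  have hsq : Squarefree T.charpoly := hT.squarefree
  have hd1 : T1.charpoly ∣ g := by
    have h1 := lin_charpoly_dvd_pow T1 g hz1
    have h2 : T1.charpoly ∣ g ^ (finrank F U + 1) := h1.trans (pow_dvd_pow g (Nat.le_succ _))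
    have h3 : Squarefree T1.charpoly := hsq.squarefree_of_dvd (Dvd.intro _ e.symm)
    exact (h3.dvd_pow_iff_dvd (Nat.succ_ne_zero _)).mp h2
  have hd2 : T2.charpoly ∣ h := by
    have h1 := lin_charpoly_dvd_pow T2 h hz2
    have h2 : T2.charpoly ∣ h ^ (finrank F W + 1) := h1.trans (pow_dvd_pow h (Nat.le_succ _))
    have h3 : Squarefree T2.charpoly := hsq.squarefree_of_dvd (Dvd.intro_left _ e.symm)
    exact (h3.dvd_pow_iff_dvd (Nat.succ_ne_zero _)).mp h2
  have l1 := natDegree_le_of_dvd hd1 hg.ne_zero
  have l2 := natDegree_le_of_dvd hd2 hmon.ne_zero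
  have l3 : T1.charpoly.natDegree + T2.charpoly.natDegree = g.natDegree + h.natDegree := by
    rw [← (LinearMap.charpoly_monic T1).natDegree_mul (LinearMap.charpoly_monic T2),
      ← hg.natDegree_mul hmon, ← hgh, e]
  exact (eq_of_monic_of_dvd_of_natDegree_le (LinearMap.charpoly_monic T1) hg hd1 (by omega)).symm

/-- dimension of the kernel of a divisor of the characteristic polynomial -/
lemma finrank_ker_aeval (T : Module.End F V) (hT : T.charpoly.Separable) (g : F[X]) (hg : g.Monic)
    (hd : g ∣ T.charpoly) : finrank F (LinearMap.ker (aeval T g)) = g.natDegree := by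
  rw [← LinearMap.charpoly_natDegree (T.restrict (mapsTo_ker_aeval T g)),
    charpoly_ker_aeval T hT g hg hd _ rfl]

/-- stable subspaces and divisors -/
theorem card_stable (T : Module.End F V) (hT : T.charpoly.Separable) (k : ℕ) :
    Nat.card {U : Submodule F V // finrank F U = k ∧ U.map T ≤ U} =
      Nat.card {h : F[X] // h.Monic ∧ h.natDegree = k ∧ h ∣ T.charpoly} := by
  symm
  refine Nat.card_eq_of_bijective (fun h => ⟨LinearMap.ker (aeval T h.1), ?_, ?_⟩) ⟨?_, ?_⟩
  · rw [finrank_ker_aeval T hT h.1 h.2.1 h.2.2.2, h.2.2.1]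
  · rw [Submodule.map_le_iff_le_comap]
    intro x hx
    exact mapsTo_ker_aeval T h.1 x hx
  · rintro ⟨g, hg1, hg2, hg3⟩ ⟨g', hg1', hg2', hg3'⟩ h
    have e : LinearMap.ker (aeval T g) = LinearMap.ker (aeval T g') := congrArg Subtype.val h
    have hU := mapsTo_ker_aeval T g
    have e1 := charpoly_ker_aeval T hT g hg1 hg3 _ rfl hU
    have e2 := charpoly_ker_aeval T hT g' hg1' hg3' _ e hU
    apply Subtype.ext
    exact e1.symm.trans e2
  · rintro ⟨U, hU1, hU2⟩
    have hU : ∀ x ∈ U, T x ∈ U := fun x hx => hU2 (Submodule.mem_map_of_mem hx)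
    set T1 := T.restrict hU with hT1
    set g := minpoly F T1 with hg
    have hgm : g.Monic := minpoly.monic (Algebra.IsIntegral.isIntegral T1)
    have hgd : g ∣ T.charpoly := by
      apply minpoly.dvd
      apply LinearMap.ext
      intro x
      apply Subtype.ext
      rw [aeval_restrict_apply, LinearMap.aeval_self_charpoly]
      rfl
    have hle : U ≤ LinearMap.ker (aeval T g) := by
      intro x hx
      rw [LinearMap.mem_ker]
      have := aeval_restrict_apply T U hU g ⟨x, hx⟩
      rw [minpoly.aeval] at this
      exact this.symm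
    have hdeg : g.natDegree ≤ finrank F U := by
      rw [← LinearMap.charpoly_natDegree T1]
      exact natDegree_le_of_dvd (LinearMap.minpoly_dvd_charpoly T1)
        (LinearMap.charpoly_monic T1).ne_zero
    have hker := finrank_ker_aeval T hT g hgm hgd
    have heq : U = LinearMap.ker (aeval T g) := by
      apply Submodule.eq_of_le_of_finrank_le hle
      omega
    refine ⟨⟨g, hgm, ?_, hgd⟩, ?_⟩
    · have : finrank F U = finrank F (LinearMap.ker (aeval T g)) := by rw [← heq]
      omega
    · apply Subtype.ext
      exact heq.symm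

end Pool.Agent.Helper4
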