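import Mathlib
import Pool.Agent.helper4.StableCount
import Pool.Agent.helper4.HessSolve

/-! # Duality and the final counting formula -/

noncomputable section

namespace Pool.Agent.Helper4

open Polynomial Module

set_option linter.unusedSectionVars false

variable {F V : Type*} [Field F] [AddCommGroup V] [Module F V] [FiniteDimensional F V]

lemma charpoly_dualMap (T : V →ₗ[F] V) : (T.dualMap).charpoly = T.charpoly := by
  classical
  set b := finBasis F V with hb
  rw [← LinearMap.charpoly_toMatrix T b, ← LinearMap.charpoly_toMatrix T.dualMap b.dualBasis,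
    ← Matrix.charpoly_transpose (LinearMap.toMatrix b b T), ← LinearMap.toMatrix_transpose]
  rfl

lemma map_le_iff_dual (T : V →ₗ[F] V) (U₁ U₂ : Submodule F V) :
    U₁.map T ≤ U₂ ↔ (U₂.dualAnnihilator).map T.dualMap ≤ U₁.dualAnnihilator := by
  constructor
  · intro h
    rw [Submodule.map_le_iff_le_comap]
    intro φ hφ
    rw [Submodule.mem_comap, Submodule.mem_dualAnnihilator]
    intro w hw
    rw [Submodule.mem_dualAnnihilator] at hφ
    exact hφ _ (h (Submodule.mem_map_of_mem hw))
  · intro h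
    rw [Submodule.map_le_iff_le_comap]
    intro u hu
    rw [Submodule.mem_comap]
    rw [← Subspace.forall_mem_dualAnnihilator_apply_eq_zero_iff U₂]
    intro φ hφ
    have h1 := h (Submodule.mem_map_of_mem (f := T.dualMap) hφ)
    rw [Submodule.mem_dualAnnihilator] at h1
    exact h1 u hu

theorem GG2_dual (T : V →ₗ[F] V) (a b : ℕ) (ha : a ≤ finrank F V) (hb : b ≤ finrank F V) :
    GG2 T a b = GG2 T.dualMap (finrank F V - b) (finrank F V - a) := by
  unfold GG2
  have hdim : ∀ U : Submodule F V, finrank F U + finrank F U.dualAnnihilator = finrank F V :=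
    fun U => Subspace.finrank_add_finrank_dualAnnihilator_eq U
  refine Nat.card_eq_of_bijective (fun P => ⟨(P.1.2.dualAnnihilator, P.1.1.dualAnnihilator),
    ?_, ?_, ?_, ?_⟩) ⟨?_, ?_⟩
  · have h1 := hdim P.1.2
    have h2 := P.2.2.1
    change finrank F (P.1.2.dualAnnihilator) = _
    omega
  · have h1 := hdim P.1.1
    have h2 := P.2.1
    change finrank F (P.1.1.dualAnnihilator) = _
    omega
  · exact Submodule.dualAnnihilator_anti P.2.2.2.1
  · exact (map_le_iff_dual T P.1.1 P.1.2).mp P.2.2.2.2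
  · rintro ⟨⟨U₁, U₂⟩, h⟩ ⟨⟨U₁', U₂'⟩, h'⟩ e
    have e1 := congrArg Subtype.val e
    simp only [Prod.mk.injEq, Subspace.dualAnnihilator_inj] at e1
    apply Subtype.ext
    exact Prod.ext e1.2 e1.1
  · rintro ⟨⟨W₁, W₂⟩, h1, h2, h3, h4⟩
    simp only at h1 h2 h3 h4
    have e1 : W₁.dualCoannihilator.dualAnnihilator = W₁ :=
      Subspace.dualCoannihilator_dualAnnihilator_eq
    have e2 : W₂.dualCoannihilator.dualAnnihilator = W₂ :=
      Subspace.dualCoannihilator_dualAnnihilator_eq
    refine ⟨⟨(W₂.dualCoannihilator, W₁.dualCoannihilator), ?_, ?_, ?_, ?_⟩, ?_⟩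
    · have h5 := hdim W₂.dualCoannihilator
      rw [e2] at h5
      change finrank F (W₂.dualCoannihilator) = _
      omega
    · have h5 := hdim W₁.dualCoannihilator
      rw [e1] at h5
      change finrank F (W₁.dualCoannihilator) = _
      omega
    · exact Submodule.dualCoannihilator_anti h3
    · rw [map_le_iff_dual, e1, e2]
      exact h4
    · apply Subtype.ext
      exact Prod.ext e1 e2

lemma GG2_self (T : V →ₗ[F] V) (hT : T.charpoly.Separable) (k : ℕ) :
    GG2 T k k = Nat.card {h : F[X] // h.Monic ∧ h.natDegree = k ∧ h ∣ T.charpoly} := by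
  rw [← card_stable T hT k]
  unfold GG2
  refine Nat.card_eq_of_bijective (fun P => ⟨P.1.1, P.2.1, ?_⟩) ⟨?_, ?_⟩
  · have h1 : P.1.1 = P.1.2 := Submodule.eq_of_le_of_finrank_eq P.2.2.2.1 (by rw [P.2.1, P.2.2.1])
    have h2 := P.2.2.2.2
    rw [← h1] at h2
    exact h2
  · rintro ⟨⟨U₁, U₂⟩, h⟩ ⟨⟨U₁', U₂'⟩, h'⟩ e
    have e1 : U₁ = U₁' := congrArg Subtype.val e
    have h1 : U₁ = U₂ := Submodule.eq_of_le_of_finrank_eq h.2.2.1 (by rw [h.1, h.2.1])
    have h1' : U₁' = U₂' := Submodule.eq_of_le_of_finrank_eq h'.2.2.1 (by rw [h'.1, h'.2.1])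
    apply Subtype.ext
    exact Prod.ext e1 (h1.symm.trans (e1.trans h1'))
  · rintro ⟨U, h1, h2⟩
    exact ⟨⟨(U, U), h1, h1, le_rfl, h2⟩, rfl⟩

theorem count_formula [Finite F] (T : V →ₗ[F] V) (hT : T.charpoly.Separable) (a b : ℕ)
    (hab : a ≤ b) (hb : b ≤ finrank F V) :
    GG2 T a b = ∑ k ∈ Finset.range (min a (finrank F V - b) + 1),
      Nat.card {h : F[X] // h.Monic ∧ h.natDegree = k ∧ h ∣ T.charpoly} *
        (Nat.card F ^ (k * (b - a)) *
          gv (Nat.card F) (b - a) (min a (finrank F V - b) - k) (finrank F V - 2 * k)) := by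
  by_cases h : a + b ≤ finrank F V
  · have h1 : min a (finrank F V - b) = a := by omega
    rw [h1]
    obtain ⟨c, rfl⟩ := Nat.exists_eq_add_of_le hab
    have h2 : a + c - a = c := by omega
    rw [h2, closed_formula T c a (by omega)]
    refine Finset.sum_congr rfl fun k _ => ?_
    rw [GG2_self T hT k]
  · have h1 : min a (finrank F V - b) = finrank F V - b := by omega
    rw [h1, GG2_dual T a b (by omega) hb]
    have hfd : finrank F (Dual F V) = finrank F V := Subspace.dual_finrank_eq
    obtain ⟨c, hc⟩ := Nat.exists_eq_add_of_le hab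
    have h3 : finrank F V - a = (finrank F V - b) + c := by omega
    have h2 : b - a = c := by omega
    rw [h2, h3, closed_formula T.dualMap c (finrank F V - b) (by rw [hfd]; omega), hfd]
    refine Finset.sum_congr rfl fun k _ => ?_
    rw [GG2_self T.dualMap (by rw [charpoly_dualMap]; exact hT) k, charpoly_dualMap]

end Pool.Agent.Helper4
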