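import Mathlib
import Pool.Agent.helper4.HessDual
import Pool.Agent.helper4.LocalFactor
import Pool.Agent.helper4.FrobSpec
import Pool.Agent.helper4.Dedekind

/-! # L-functions of two-step regular semisimple Hessenberg varieties -/

noncomputable section

namespace Pool.Agent.Helper4

open Polynomial Module NumberField nonZeroDivisors IsDedekindDomain

variable {n : ℕ}

/-- Number of points over the field `F` of the Hessenberg variety of pairs of subspaces
`U₁ ≤ U₂` of `F ^ n` of dimensions `a`, `b` with `S U₁ ≤ U₂`. -/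
def hessCount (S : Matrix (Fin n) (Fin n) ℤ) (a b : ℕ) (F : Type*) [Field F] : ℕ :=
  Nat.card {P : Submodule F (Fin n → F) × Submodule F (Fin n → F) //
    finrank F P.1 = a ∧ finrank F P.2 = b ∧ P.1 ≤ P.2 ∧
      P.1.map (Matrix.toLin' (S.map (Int.castRingHom F))) ≤ P.2}

/-- `p` is good for `S`: the characteristic polynomial of `S` is separable modulo `p`. -/
def GoodPrime (S : Matrix (Fin n) (Fin n) ℤ) (p : ℕ) : Prop :=
  (S.charpoly.map (Int.castRingHom (ZMod p))).Separable

lemma charpoly_toLin (S : Matrix (Fin n) (Fin n) ℤ) (F : Type*) [Field F] :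
    (Matrix.toLin' (S.map (Int.castRingHom F))).charpoly = S.charpoly.map (Int.castRingHom F) := by
  rw [← Matrix.charpoly_map]
  have h := LinearMap.charpoly_toMatrix (Matrix.toLin' (S.map (Int.castRingHom F)))
    (Pi.basisFun F (Fin n))
  rw [← h, ← Matrix.toLin_eq_toLin', LinearMap.toMatrix_toLin]

/-- the multiplicity polynomial of the fields of `k`-subsets -/
def multP (n a b k : ℕ) : ℕ[X] :=
  X ^ (k * (b - a)) * gP (b - a) (min a (n - b) - k) (n - 2 * k)

lemma multP_eval (n a b k q : ℕ) : (multP n a b k).eval q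
    = q ^ (k * (b - a)) * gv q (b - a) (min a (n - b) - k) (n - 2 * k) := by
  unfold multP gv
  rw [eval_mul, eval_pow, eval_X]

theorem hessCount_eq (S : Matrix (Fin n) (Fin n) ℤ)
    (hS : (S.charpoly.map (Int.castRingHom ℚ)).Separable) (a b : ℕ) (hab : a ≤ b) (hbn : b ≤ n)
    (F : Type*) [Field F] [Finite F] (hF : (S.charpoly.map (Int.castRingHom F)).Separable) :
    hessCount S a b F = ∑ k ∈ Finset.range (min a (n - b) + 1), ∑ A ∈ reps S.charpoly k,
      Nat.card (𝓞 (fieldA A) →+* F) * (multP n a b k).eval (Nat.card F) := by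
  have h1 : hessCount S a b F = GG2 (Matrix.toLin' (S.map (Int.castRingHom F))) a b := rfl
  have h2 : finrank F (Fin n → F) = n := by simp
  rw [h1, count_formula _ (by rw [charpoly_toLin]; exact hF) a b hab (by rw [h2]; exact hbn), h2]
  refine Finset.sum_congr rfl fun k _ => ?_
  rw [← Finset.sum_mul, card_sum_hom (Matrix.charpoly_monic S) hS F hF k, charpoly_toLin,
    multP_eval]

/-- Frobenius eigenvalues of the Hessenberg variety in degree `i` -/
def hessB (S : Matrix (Fin n) (Fin n) ℤ) (a b p i : ℕ) : Multiset ℂ :=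
  if Even i then
    ∑ k ∈ Finset.range (min a (n - b) + 1), ∑ A ∈ reps S.charpoly k,
      (multP n a b k).coeff (i / 2) •
        ((specF (fieldA A) p (fun _ => 1)).map (fun α => (p : ℂ) ^ (i / 2) * α))
  else 0

lemma sum_map_nsmul (m : ℕ) (B : Multiset ℂ) (g : ℂ → ℂ) :
    ((m • B).map g).sum = m * (B.map g).sum := by
  rw [Multiset.map_nsmul, Multiset.sum_nsmul, nsmul_eq_mul]

lemma hessB_sum (S : Matrix (Fin n) (Fin n) ℤ) (a b : ℕ) {p : ℕ} (hp : p.Prime) (m r : ℕ)
    (F : Type*) [Field F] [Finite F] [CharP F p] (hF : Nat.card F = p ^ r) :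
    ((hessB S a b p (2 * m)).map (fun α => α ^ r)).sum
      = ∑ k ∈ Finset.range (min a (n - b) + 1), ∑ A ∈ reps S.charpoly k,
      ((multP n a b k).coeff m : ℂ) * (((p : ℂ) ^ r) ^ m * Nat.card (𝓞 (fieldA A) →+* F)) := by
  unfold hessB
  rw [if_pos (even_two_mul m), Nat.mul_div_cancel_left m two_pos, sum_map_finset_sum]
  refine Finset.sum_congr rfl fun k _ => ?_
  rw [sum_map_finset_sum]
  refine Finset.sum_congr rfl fun A _ => ?_
  rw [sum_map_nsmul, Multiset.map_map, ← sum_pow_specF_one hp F r hF]
  have h1 : (fun α : ℂ => α ^ r) ∘ (fun α : ℂ => (p : ℂ) ^ m * α)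
      = fun α => ((p : ℂ) ^ r) ^ m * α ^ r := by
    funext α
    simp only [Function.comp]
    rw [mul_pow, ← pow_mul, ← pow_mul, mul_comm m r]
  rw [h1, Multiset.sum_map_mul_left]

theorem isFrobSpec_hessB (S : Matrix (Fin n) (Fin n) ℤ)
    (hS : (S.charpoly.map (Int.castRingHom ℚ)).Separable) (a b : ℕ) (hab : a ≤ b) (hbn : b ≤ n)
    (p : ℕ) [hp : Fact p.Prime] (hgood : GoodPrime S p) :
    IsFrobSpec p (fun r => hessCount S a b (GaloisField p r)) (hessB S a b p) := by
  set D : ℕ := ∑ k ∈ Finset.range (min a (n - b) + 1), ((multP n a b k).natDegree + 1) with hD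
  have hDk : ∀ k ∈ Finset.range (min a (n - b) + 1), (multP n a b k).natDegree + 1 ≤ D := by
    intro k hk
    rw [hD]
    exact Finset.single_le_sum (f := fun k => (multP n a b k).natDegree + 1)
      (fun _ _ => Nat.zero_le _) hk
  have hzero : ∀ j, 2 * D ≤ j → hessB S a b p j = 0 := by
    intro j hj
    unfold hessB
    split_ifs with h
    · apply Finset.sum_eq_zero
      intro k hk
      apply Finset.sum_eq_zero
      intro A _
      have h1 := hDk k hk
      rw [coeff_eq_zero_of_natDegree_lt (by omega), zero_smul]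
    · rfl
  refine ⟨?_, ⟨2 * D, hzero⟩, ?_⟩
  · intro j α hα
    unfold hessB at hα
    split_ifs at hα with h
    · rw [Multiset.mem_sum] at hα
      obtain ⟨k, -, hα⟩ := hα
      rw [Multiset.mem_sum] at hα
      obtain ⟨A, -, hα⟩ := hα
      have h1 := Multiset.mem_of_mem_nsmul hα
      rw [Multiset.mem_map] at h1
      obtain ⟨β, hβ, rfl⟩ := h1
      rw [norm_mul, norm_of_mem_specF hp.out (fun _ _ => by simp) hβ, mul_one, norm_pow,
        Complex.norm_natCast]
      obtain ⟨m, rfl⟩ := h
      have e1 : (m + m) / 2 = m := by omega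
      rw [e1]
      push_cast
      rw [add_self_div_two, Real.rpow_natCast]
    · simp at hα
  · intro r hr
    have hr0 : r ≠ 0 := by omega
    have hcard : Nat.card (GaloisField p r) = p ^ r := GaloisField.card p r hr0
    have hFsep : (S.charpoly.map (Int.castRingHom (GaloisField p r))).Separable := by
      have h1 : S.charpoly.map (Int.castRingHom (GaloisField p r))
          = (S.charpoly.map (Int.castRingHom (ZMod p))).map (algebraMap (ZMod p) (GaloisField p r)) := by
        rw [Polynomial.map_map]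
        congr 1
      rw [h1]
      exact Separable.map hgood
    rw [hessCount_eq S hS a b hab hbn _ hFsep, hcard]
    -- right hand side
    have h2 : ∑ᶠ j, (-1 : ℂ) ^ j * ((hessB S a b p j).map (fun α => α ^ r)).sum
        = ∑ m ∈ Finset.range D, ((hessB S a b p (2 * m)).map (fun α => α ^ r)).sum := by
      rw [finsum_eq_sum_of_support_subset (s := (Finset.range D).image (fun m => 2 * m))]
      · rw [Finset.sum_image]
        · refine Finset.sum_congr rfl fun m _ => ?_
          rw [pow_mul]; simp
        · intro x _ y _ hxy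
          simp only at hxy
          omega
      · intro j hj
        rw [Function.mem_support] at hj
        rw [Finset.coe_image, Set.mem_image]
        by_cases hev : Even j
        · obtain ⟨m, rfl⟩ := hev
          refine ⟨m, ?_, by omega⟩
          rw [Finset.coe_range, Set.mem_Iio]
          by_contra h3
          apply hj
          rw [hzero _ (by omega)]
          simp
        · exfalso
          apply hj
          unfold hessB
          rw [if_neg hev]
          simp
    rw [h2]
    have h3 : ∀ m ∈ Finset.range D, ((hessB S a b p (2 * m)).map (fun α => α ^ r)).sum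
        = ∑ k ∈ Finset.range (min a (n - b) + 1), ∑ A ∈ reps S.charpoly k,
      ((multP n a b k).coeff m : ℂ) *
        (((p : ℂ) ^ r) ^ m * Nat.card (𝓞 (fieldA A) →+* GaloisField p r)) :=
      fun m _ => hessB_sum S a b hp.out m r _ hcard
    rw [Finset.sum_congr rfl h3, Finset.sum_comm]
    push_cast
    refine Finset.sum_congr rfl fun k hk => ?_
    rw [Finset.sum_comm]
    refine Finset.sum_congr rfl fun A _ => ?_
    have h4 : (((multP n a b k).eval (p ^ r) : ℕ) : ℂ)
        = ∑ m ∈ Finset.range D, ((multP n a b k).coeff m : ℂ) * ((p : ℂ) ^ r) ^ m := by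
      rw [eval_eq_sum_range' (n := D) (by have := hDk k hk; omega)]
      push_cast
      rfl
    rw [h4, Finset.mul_sum]
    refine Finset.sum_congr rfl fun m _ => ?_
    ring

/-- Euler factor at `p` of the product of the shifted Dedekind zeta functions -/
def dedL (S : Matrix (Fin n) (Fin n) ℤ) (a b i : ℕ) (s : ℂ) (p : ℕ) : ℂ :=
  if Even i then
    ∏ k ∈ Finset.range (min a (n - b) + 1), ∏ A ∈ reps S.charpoly k,
      locF (fun q : PK (fieldA A) => (Ideal.absNorm q.asIdeal : ℂ) ^ (-(s - (i : ℂ) / 2))) p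
        ^ (multP n a b k).coeff (i / 2)
  else 1

lemma prod_hessB (S : Matrix (Fin n) (Fin n) ℤ) (a b i : ℕ) (s : ℂ) {p : ℕ} (hp : p.Prime) :
    ((hessB S a b p i).map (fun α => (1 - α * (p : ℂ) ^ (-s))⁻¹)).prod = dedL S a b i s p := by
  unfold hessB dedL
  split_ifs with h
  · rw [prod_map_finset_sum]
    refine Finset.prod_congr rfl fun k _ => ?_
    rw [prod_map_finset_sum]
    refine Finset.prod_congr rfl fun A _ => ?_
    rw [Multiset.map_nsmul, Multiset.prod_nsmul, Multiset.map_map]
    congr 1
    have hp0 : (p : ℂ) ≠ 0 := by exact_mod_cast hp.ne_zero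
    have h1 : (fun α : ℂ => (1 - α * (p : ℂ) ^ (-s))⁻¹) ∘ (fun α : ℂ => (p : ℂ) ^ (i / 2) * α)
        = fun α => (1 - α * (p : ℂ) ^ (-(s - (i : ℂ) / 2)))⁻¹ := by
      funext α
      simp only [Function.comp]
      have h2 : (p : ℂ) ^ (-(s - (i : ℂ) / 2)) = (p : ℂ) ^ (i / 2) * (p : ℂ) ^ (-s) := by
        rw [neg_sub, sub_eq_add_neg, Complex.cpow_add _ _ hp0]
        congr 1
        obtain ⟨m, rfl⟩ := h
        have e1 : (m + m) / 2 = m := by omega
        rw [e1]
        push_cast
        rw [add_self_div_two, Complex.cpow_natCast]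
      rw [h2]
      ring
    rw [h1, prod_specF hp]
    simp only [one_mul]
  · simp

lemma hasProd_pow {ι : Type*} {f : ι → ℂ} {a : ℂ} (h : HasProd f a) (m : ℕ) :
    HasProd (fun i => f i ^ m) (a ^ m) := by
  have h1 := hasProd_prod (s := Finset.range m) (f := fun _ i => f i) (a := fun _ => a)
    (fun _ _ => h)
  simpa using h1

theorem hasProd_dedekind (K : Type*) [Field K] [NumberField K] {s : ℂ} (hs : 1 < s.re) :
    HasProd (fun p : Nat.Primes => locF (fun q : PK K => (Ideal.absNorm q.asIdeal : ℂ) ^ (-s)) p)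
      (HDed K s / (s - 1)) := by
  apply hasProd_locF
  apply hasProd_ideal _ (fun q => norm_cpow_lt_one q (by linarith)) _ _ (hasSum_HDed K hs)
  intro m
  rw [absNorm_prodM, cpow_prod]

theorem hasProd_dedL (S : Matrix (Fin n) (Fin n) ℤ) (a b i : ℕ) {s : ℂ}
    (hs : (i : ℝ) / 2 + 1 < s.re) (hi : Even i) :
    HasProd (fun p : Nat.Primes => dedL S a b i s p)
      (∏ k ∈ Finset.range (min a (n - b) + 1), ∏ A ∈ reps S.charpoly k,
        (HDed (fieldA A) (s - (i : ℂ) / 2) / (s - (i : ℂ) / 2 - 1))
          ^ (multP n a b k).coeff (i / 2)) := by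
  unfold dedL
  simp only [if_pos hi]
  refine hasProd_prod fun k _ => hasProd_prod fun A _ => hasProd_pow ?_ _
  apply hasProd_dedekind
  have h1 : (s - (i : ℂ) / 2).re = s.re - (i : ℝ) / 2 := by
    rw [Complex.sub_re]
    congr 1
    have : ((i : ℂ) / 2) = (((i : ℝ) / 2 : ℝ) : ℂ) := by push_cast; rfl
    rw [this, Complex.ofReal_re]
  rw [h1]
  linarith

/-- order of the pole -/
def poleOrd (S : Matrix (Fin n) (Fin n) ℤ) (a b i : ℕ) : ℕ :=
  if Even i then
    ∑ k ∈ Finset.range (min a (n - b) + 1), ∑ _A ∈ reps S.charpoly k,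
      (multP n a b k).coeff (i / 2)
  else 0

/-- the entire numerator -/
def hessH (S : Matrix (Fin n) (Fin n) ℤ) (a b i : ℕ) (s : ℂ) : ℂ :=
  if Even i then
    ∏ k ∈ Finset.range (min a (n - b) + 1), ∏ A ∈ reps S.charpoly k,
      (HDed (fieldA A) (s - (i : ℂ) / 2)) ^ (multP n a b k).coeff (i / 2)
  else 1

theorem differentiable_hessH (S : Matrix (Fin n) (Fin n) ℤ) (a b i : ℕ) :
    Differentiable ℂ (hessH S a b i) := by
  unfold hessH
  split_ifs with h
  · refine Differentiable.fun_finsetProd fun k _ => Differentiable.fun_finsetProd fun A _ => ?_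
    refine Differentiable.fun_pow ?_ _
    exact (differentiable_HDed (fieldA A)).comp (differentiable_id.sub_const _)
  · exact differentiable_const _

theorem hasProd_dedL' (S : Matrix (Fin n) (Fin n) ℤ) (a b i : ℕ) {s : ℂ}
    (hs : (i : ℝ) / 2 + 1 < s.re) :
    HasProd (fun p : Nat.Primes => dedL S a b i s p)
      (hessH S a b i s / (s - ((i : ℂ) / 2 + 1)) ^ poleOrd S a b i) := by
  by_cases hi : Even i
  · have h1 := hasProd_dedL S a b i hs hi
    convert h1 using 1
    unfold hessH poleOrd
    rw [if_pos hi, if_pos hi, ← Finset.prod_pow_eq_pow_sum, ← Finset.prod_div_distrib]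
    refine Finset.prod_congr rfl fun k _ => ?_
    rw [← Finset.prod_pow_eq_pow_sum, ← Finset.prod_div_distrib]
    refine Finset.prod_congr rfl fun A _ => ?_
    rw [div_pow]
    congr 2
    ring
  · unfold hessH poleOrd dedL
    simp only [if_neg hi, pow_zero, div_one]
    exact hasProd_one

end Pool.Agent.Helper4
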