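import Mathlib
import Pool.Agent.helper4.GaussLimit

/-! # Theta functions with coefficients and linear factors -/

open MeasureTheory Filter Topology Set

noncomputable section

namespace Pool.Agent.Helper4

set_option linter.unusedSectionVars false

variable {ι : Type*} [Fintype ι] [DecidableEq ι] {κ : Type*} [Fintype κ]

/-- product of linear factors -/
def pf (B : Matrix ι ι ℝ) (J : Finset ι) (lam : ι → (κ → ℝ) →ₗ[ℝ] ℝ) (u : κ → ℝ) (x : ι → ℝ) : ℝ :=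
  ∏ j ∈ J, (Real.exp (lam j u / 2) * B.mulVec x j)

/-- one term -/
def tt (B : Matrix ι ι ℝ) (J : Finset ι) (lam : ι → (κ → ℝ) →ₗ[ℝ] ℝ) (t : ℝ) (u : κ → ℝ)
    (x : ι → ℝ) : ℝ :=
  pf B J lam u x * Real.exp (-Real.pi * quad B (cvec lam t u) x)

lemma pow_mul_exp_bound (k : ℕ) {a : ℝ} (ha : 0 < a) : ∃ C : ℝ, 0 ≤ C ∧ ∀ y : ℝ, 0 ≤ y →
    y ^ k * Real.exp (-(a * y ^ 2)) ≤ C * Real.exp (-(a / 2 * y ^ 2)) := by
  refine ⟨1 + (k.factorial : ℝ) * (2 / a) ^ k, by positivity, fun y hy => ?_⟩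
  have h1 : y ^ k ≤ 1 + (y ^ 2) ^ k := by
    by_cases h : y ≤ 1
    · have : y ^ k ≤ 1 := pow_le_one₀ hy h
      have : 0 ≤ (y ^ 2) ^ k := by positivity
      linarith
    · have h2 : y ≤ y ^ 2 := by nlinarith
      have h3 : y ^ k ≤ (y ^ 2) ^ k := pow_le_pow_left₀ hy h2 k
      linarith
  have h2 : (y ^ 2) ^ k ≤ (k.factorial : ℝ) * (2 / a) ^ k * Real.exp (a / 2 * y ^ 2) := by
    have h3 := Real.pow_div_factorial_le_exp (a / 2 * y ^ 2) (by positivity) k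
    rw [div_le_iff₀ (by positivity)] at h3
    have h4 : (y ^ 2) ^ k = (2 / a) ^ k * (a / 2 * y ^ 2) ^ k := by
      rw [← mul_pow]
      congr 1
      field_simp
    rw [h4]
    calc (2 / a) ^ k * (a / 2 * y ^ 2) ^ k ≤ (2 / a) ^ k *
          (Real.exp (a / 2 * y ^ 2) * k.factorial) :=
          mul_le_mul_of_nonneg_left h3 (by positivity)
      _ = _ := by ring
  have h5 : 1 ≤ Real.exp (a / 2 * y ^ 2) := Real.one_le_exp (by positivity)
  have h6 : y ^ k ≤ (1 + (k.factorial : ℝ) * (2 / a) ^ k) * Real.exp (a / 2 * y ^ 2) := by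
    have : 0 ≤ (k.factorial : ℝ) * (2 / a) ^ k := by positivity
    nlinarith
  have h7 : Real.exp (-(a * y ^ 2)) = Real.exp (-(a / 2 * y ^ 2)) * Real.exp (-(a / 2 * y ^ 2)) := by
    rw [← Real.exp_add]; congr 1; ring
  rw [h7]
  calc y ^ k * (Real.exp (-(a / 2 * y ^ 2)) * Real.exp (-(a / 2 * y ^ 2)))
      ≤ ((1 + (k.factorial : ℝ) * (2 / a) ^ k) * Real.exp (a / 2 * y ^ 2)) *
        (Real.exp (-(a / 2 * y ^ 2)) * Real.exp (-(a / 2 * y ^ 2))) :=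
        mul_le_mul_of_nonneg_right h6 (by positivity)
    _ = (1 + (k.factorial : ℝ) * (2 / a) ^ k) * Real.exp (-(a / 2 * y ^ 2)) *
        (Real.exp (a / 2 * y ^ 2) * Real.exp (-(a / 2 * y ^ 2))) := by ring
    _ = _ := by rw [← Real.exp_add, add_neg_cancel, Real.exp_zero, mul_one]

lemma exists_pf_bound (B : Matrix ι ι ℝ) (J : Finset ι) (lam : ι → (κ → ℝ) →ₗ[ℝ] ℝ)
    (D : Set (κ → ℝ)) (hD : Bornology.IsBounded D) :
    ∃ P : ℝ, 0 ≤ P ∧ ∀ u ∈ D, ∀ x : ι → ℝ, |pf B J lam u x| ≤ P * ‖x‖ ^ J.card := by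
  classical
  obtain ⟨e₀, he₀, he₀'⟩ := exists_exp_lower (fun j => -lam j) D hD
  set T := LinearMap.toContinuousLinearMap (Matrix.toLin' B) with hT
  set Q : ℝ := (1 / e₀ + 1) * ‖T‖ with hQ
  have hQ0 : 0 ≤ Q := by positivity
  refine ⟨Q ^ J.card, by positivity, fun u hu x => ?_⟩
  unfold pf
  rw [Finset.abs_prod, ← mul_pow]
  calc ∏ j ∈ J, |Real.exp (lam j u / 2) * B.mulVec x j| ≤ ∏ _j ∈ J, (Q * ‖x‖) := by
        refine Finset.prod_le_prod (fun _ _ => abs_nonneg _) fun j _ => ?_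
        rw [abs_mul, Real.abs_exp]
        have h1 : |B.mulVec x j| ≤ ‖T‖ * ‖x‖ := by
          have h2 : ‖T x‖ ≤ ‖T‖ * ‖x‖ := T.le_opNorm x
          exact (norm_le_pi_norm (T x) j).trans h2
        have h3 : Real.exp (lam j u / 2) ≤ 1 / e₀ + 1 := by
          have h4 := he₀' u hu j
          rw [LinearMap.neg_apply, Real.exp_neg] at h4
          have h5 : Real.exp (lam j u) ≤ 1 / e₀ := by
            rw [le_div_iff₀ he₀]
            have h6 := mul_le_mul_of_nonneg_left h4 (Real.exp_pos (lam j u)).le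
            rw [mul_inv_cancel₀ (Real.exp_pos _).ne'] at h6
            exact h6
          by_cases h6 : 0 ≤ lam j u
          · have : Real.exp (lam j u / 2) ≤ Real.exp (lam j u) :=
              Real.exp_le_exp.mpr (by linarith)
            linarith
          · have : Real.exp (lam j u / 2) ≤ 1 := Real.exp_le_one_iff.mpr (by linarith)
            have : 0 < 1 / e₀ := by positivity
            linarith
        calc Real.exp (lam j u / 2) * |B.mulVec x j| ≤ (1 / e₀ + 1) * (‖T‖ * ‖x‖) :=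
              mul_le_mul h3 h1 (abs_nonneg _) (by positivity)
          _ = Q * ‖x‖ := by rw [hQ]; ring
    _ = (Q * ‖x‖) ^ J.card := by rw [Finset.prod_const]

variable (B : Matrix ι ι ℝ) (hB : B.det ≠ 0) (J : Finset ι) (lam : ι → (κ → ℝ) →ₗ[ℝ] ℝ)

include hB in
lemma exists_tt_bound (D : Set (κ → ℝ)) (hD : Bornology.IsBounded D) :
    ∃ γ P : ℝ, 0 < γ ∧ 0 ≤ P ∧ ∀ u ∈ D, ∀ t : ℝ, 0 < t → ∀ x : ι → ℝ,
      |tt B J lam t u x| ≤ P * (‖x‖ ^ J.card * Real.exp (-(γ * t * ‖x‖ ^ 2))) := by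
  obtain ⟨γ, hγ, hq⟩ := exists_gamma B hB lam D hD
  obtain ⟨P, hP, hpf⟩ := exists_pf_bound B J lam D hD
  refine ⟨Real.pi * γ, P, by positivity, hP, fun u hu t ht x => ?_⟩
  unfold tt
  rw [abs_mul, Real.abs_exp, ← mul_assoc]
  refine mul_le_mul (hpf u hu x) ?_ (Real.exp_pos _).le (by positivity)
  apply Real.exp_le_exp.mpr
  have := mul_le_mul_of_nonneg_left (hq u hu t ht x) Real.pi_pos.le
  linarith

/-- bound for `t ≥ t₀`. -/
lemma tt_bound_of_le {γ P : ℝ} (hγ : 0 < γ) (hP : 0 ≤ P) (k : ℕ) {t₀ : ℝ} (ht₀ : 0 < t₀) :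
    ∃ C : ℝ, 0 ≤ C ∧ ∀ t, t₀ ≤ t → ∀ x : ι → ℝ, 1 ≤ ‖x‖ →
      P * (‖x‖ ^ k * Real.exp (-(γ * t * ‖x‖ ^ 2))) ≤
        C * Real.exp (-(γ * t₀ / 2) * ‖x‖ ^ 2) * Real.exp (-γ * (t - t₀)) := by
  obtain ⟨C, hC, hbd⟩ := pow_mul_exp_bound k (a := γ * t₀) (by positivity)
  refine ⟨P * C, by positivity, fun t ht x hx => ?_⟩
  have h1 : Real.exp (-(γ * t * ‖x‖ ^ 2)) ≤ Real.exp (-(γ * t₀ * ‖x‖ ^ 2)) *
      Real.exp (-γ * (t - t₀)) := by
    rw [← Real.exp_add]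
    apply Real.exp_le_exp.mpr
    have h2 : 1 ≤ ‖x‖ ^ 2 := by nlinarith
    have h3 : 0 ≤ γ * (t - t₀) := mul_nonneg hγ.le (by linarith)
    nlinarith [mul_le_mul_of_nonneg_left h2 h3]
  calc P * (‖x‖ ^ k * Real.exp (-(γ * t * ‖x‖ ^ 2)))
      ≤ P * (‖x‖ ^ k * (Real.exp (-(γ * t₀ * ‖x‖ ^ 2)) * Real.exp (-γ * (t - t₀)))) :=
        mul_le_mul_of_nonneg_left (mul_le_mul_of_nonneg_left h1 (by positivity)) hP
    _ = P * (‖x‖ ^ k * Real.exp (-(γ * t₀ * ‖x‖ ^ 2))) * Real.exp (-γ * (t - t₀)) := by ring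
    _ ≤ P * (C * Real.exp (-(γ * t₀ / 2 * ‖x‖ ^ 2))) * Real.exp (-γ * (t - t₀)) := by
        refine mul_le_mul_of_nonneg_right ?_ (Real.exp_pos _).le
        exact mul_le_mul_of_nonneg_left (hbd _ (norm_nonneg _)) hP
    _ = _ := by
        rw [show -(γ * t₀ / 2) * ‖x‖ ^ 2 = -(γ * t₀ / 2 * ‖x‖ ^ 2) by ring]
        ring

/-- uniform bound of the nonzero terms -/
lemma exists_unif (hB' : B.det ≠ 0) (D : Set (κ → ℝ)) (hD : Bornology.IsBounded D) :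
    ∃ γ : ℝ, 0 < γ ∧ ∀ t₀ : ℝ, 0 < t₀ → ∃ C : ℝ, 0 ≤ C ∧ ∀ t, t₀ ≤ t → ∀ u ∈ D,
      ∀ m : {m : ι → ℤ // m ≠ 0}, |tt B J lam t u (castVec m.1)| ≤
        C * Real.exp (-(γ * t₀ / 2) * ‖castVec m.1‖ ^ 2) * Real.exp (-γ * (t - t₀)) := by
  obtain ⟨γ, P, hγ, hP, hbd⟩ := exists_tt_bound B hB' J lam D hD
  refine ⟨γ, hγ, fun t₀ ht₀ => ?_⟩
  obtain ⟨C, hC, hbd2⟩ := tt_bound_of_le (ι := ι) hγ hP J.card ht₀
  refine ⟨C, hC, fun t ht u hu m => ?_⟩
  exact (hbd u hu t (lt_of_lt_of_le ht₀ ht) _).trans (hbd2 t ht _ (one_le_norm_castVec m.2))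

/-- the non-constant part of the theta series -/
def th1 (a : (ι → ℤ) → ℂ) (t : ℝ) (u : κ → ℝ) : ℂ :=
  ∑' m : {m : ι → ℤ // m ≠ 0}, a m.1 * ((tt B J lam t u (castVec m.1) : ℝ) : ℂ)

lemma summable_gauss_sub {a : ℝ} (ha : 0 < a) :
    Summable fun m : {m : ι → ℤ // m ≠ 0} => Real.exp (-a * ‖castVec m.1‖ ^ 2) :=
  (summable_exp_castVec (ι := ι) a ha).comp_injective Subtype.val_injective

lemma continuous_tt (x : ι → ℝ) :
    Continuous (fun p : ℝ × (κ → ℝ) => tt B J lam p.1 p.2 x) := by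
  unfold tt pf
  have h1 := continuous_quad_cvec B lam x
  refine Continuous.mul ?_ h1
  refine continuous_finsetProd _ fun j _ => ?_
  have h : Continuous (lam j : (κ → ℝ) → ℝ) := LinearMap.continuous_of_finiteDimensional _
  fun_prop

include hB in
lemma norm_th1_le {a : (ι → ℤ) → ℂ} (ha : ∀ m, ‖a m‖ ≤ 1) (D : Set (κ → ℝ))
    (hD : Bornology.IsBounded D) :
    ∃ γ : ℝ, 0 < γ ∧ ∀ t₀ : ℝ, 0 < t₀ → ∃ C : ℝ, 0 ≤ C ∧ ∀ t, t₀ ≤ t → ∀ u ∈ D,
      ‖th1 B J lam a t u‖ ≤ C * Real.exp (-γ * (t - t₀)) := by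
  obtain ⟨γ, hγ, h⟩ := exists_unif B J lam hB D hD
  refine ⟨γ, hγ, fun t₀ ht₀ => ?_⟩
  obtain ⟨C, hC, hbd⟩ := h t₀ ht₀
  set S := ∑' m : {m : ι → ℤ // m ≠ 0}, Real.exp (-(γ * t₀ / 2) * ‖castVec m.1‖ ^ 2) with hS
  refine ⟨C * S, mul_nonneg hC (tsum_nonneg fun _ => (Real.exp_pos _).le), fun t ht u hu => ?_⟩
  have hs := (summable_gauss_sub (ι := ι) (a := γ * t₀ / 2) (by positivity))
  have hs2 := (hs.mul_left C).mul_right (Real.exp (-γ * (t - t₀)))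
  unfold th1
  have h1 : ∀ m : {m : ι → ℤ // m ≠ 0}, ‖a m.1 * ((tt B J lam t u (castVec m.1) : ℝ) : ℂ)‖
      ≤ C * Real.exp (-(γ * t₀ / 2) * ‖castVec m.1‖ ^ 2) * Real.exp (-γ * (t - t₀)) := by
    intro m
    rw [norm_mul, Complex.norm_real, Real.norm_eq_abs]
    calc ‖a m.1‖ * |tt B J lam t u (castVec m.1)| ≤ 1 * |tt B J lam t u (castVec m.1)| :=
          mul_le_mul_of_nonneg_right (ha _) (abs_nonneg _)
      _ ≤ _ := by rw [one_mul]; exact hbd t ht u hu m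
  refine (tsum_of_norm_bounded hs2.hasSum h1).trans ?_
  rw [tsum_mul_right, tsum_mul_left]

include hB in
lemma summable_th1 {a : (ι → ℤ) → ℂ} (ha : ∀ m, ‖a m‖ ≤ 1) {t : ℝ} (ht : 0 < t) (u : κ → ℝ) :
    Summable fun m : {m : ι → ℤ // m ≠ 0} =>
      ‖a m.1 * ((tt B J lam t u (castVec m.1) : ℝ) : ℂ)‖ := by
  obtain ⟨γ, hγ, h⟩ := exists_unif B J lam hB {u} Bornology.isBounded_singleton
  obtain ⟨C, hC, hbd⟩ := h t ht
  have hs := (summable_gauss_sub (ι := ι) (a := γ * t / 2) (by positivity))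
  refine Summable.of_nonneg_of_le (fun _ => norm_nonneg _) (fun m => ?_)
    ((hs.mul_left C).mul_right (Real.exp (-γ * (t - t))))
  rw [norm_mul, Complex.norm_real, Real.norm_eq_abs]
  calc ‖a m.1‖ * |tt B J lam t u (castVec m.1)| ≤ 1 * |tt B J lam t u (castVec m.1)| :=
        mul_le_mul_of_nonneg_right (ha _) (abs_nonneg _)
    _ ≤ _ := by rw [one_mul]; exact hbd t le_rfl u rfl m

include hB in
lemma continuousOn_th1 {a : (ι → ℤ) → ℂ} (ha : ∀ m, ‖a m‖ ≤ 1) :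
    ContinuousOn (fun p : ℝ × (κ → ℝ) => th1 B J lam a p.1 p.2) {p | 0 < p.1} := by
  intro p₀ hp₀
  have hp₀' : 0 < p₀.1 := hp₀
  set D : Set (κ → ℝ) := Metric.ball p₀.2 1 with hD
  obtain ⟨γ, hγ, h⟩ := exists_unif B J lam hB D Metric.isBounded_ball
  obtain ⟨C, hC, hbd⟩ := h (p₀.1 / 2) (by positivity)
  set U : Set (ℝ × (κ → ℝ)) := {p | p₀.1 / 2 < p.1 ∧ p.2 ∈ D} with hU
  have hUo : IsOpen U := by
    have h1 : IsOpen {p : ℝ × (κ → ℝ) | p₀.1 / 2 < p.1} := isOpen_lt continuous_const continuous_fst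
    have h2 : IsOpen {p : ℝ × (κ → ℝ) | p.2 ∈ D} := Metric.isOpen_ball.preimage continuous_snd
    exact h1.inter h2
  have hmem : p₀ ∈ U := by
    refine ⟨by linarith, ?_⟩
    exact Metric.mem_ball_self one_pos
  have hcont : ContinuousOn (fun p : ℝ × (κ → ℝ) => th1 B J lam a p.1 p.2) U := by
    unfold th1
    refine continuousOn_tsum (u := fun m : {m : ι → ℤ // m ≠ 0} =>
      C * Real.exp (-(γ * (p₀.1 / 2) / 2) * ‖castVec m.1‖ ^ 2)) (fun m => ?_) ?_ ?_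
    · have := continuous_tt B J lam (castVec m.1)
      exact (continuous_const.mul (Complex.continuous_ofReal.comp this)).continuousOn
    · exact (summable_gauss_sub (by positivity)).mul_left C
    · intro m p hp
      rw [norm_mul, Complex.norm_real, Real.norm_eq_abs]
      have h1 := hbd p.1 hp.1.le p.2 hp.2 m
      have h2 : Real.exp (-γ * (p.1 - p₀.1 / 2)) ≤ 1 := by
        apply Real.exp_le_one_iff.mpr
        have := hp.1
        nlinarith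
      calc ‖a m.1‖ * |tt B J lam p.1 p.2 (castVec m.1)|
          ≤ 1 * |tt B J lam p.1 p.2 (castVec m.1)| :=
            mul_le_mul_of_nonneg_right (ha _) (abs_nonneg _)
        _ ≤ C * Real.exp (-(γ * (p₀.1 / 2) / 2) * ‖castVec m.1‖ ^ 2) *
            Real.exp (-γ * (p.1 - p₀.1 / 2)) := by rw [one_mul]; exact h1
        _ ≤ _ := mul_le_of_le_one_right (by positivity) h2
  exact (hcont.continuousAt (hUo.mem_nhds hmem)).continuousWithinAt

include hB in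
lemma continuous_th1 {a : (ι → ℤ) → ℂ} (ha : ∀ m, ‖a m‖ ≤ 1) {t : ℝ} (ht : 0 < t) :
    Continuous (fun u : κ → ℝ => th1 B J lam a t u) := by
  rw [← continuousOn_univ]
  refine (continuousOn_th1 B hB J lam ha).comp
    (f := fun u : κ → ℝ => ((t, u) : ℝ × (κ → ℝ))) ?_ ?_
  · fun_prop
  · intro u _
    exact ht

variable (D : Set (κ → ℝ)) (hD : Bornology.IsBounded D) (hDm : MeasurableSet D)

/-- The integrated theta function -/
def thI (a : (ι → ℤ) → ℂ) (t : ℝ) : ℂ := ∫ u in D, th1 B J lam a t u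

include hB hD hDm in
lemma integrableOn_th1 {a : (ι → ℤ) → ℂ} (ha : ∀ m, ‖a m‖ ≤ 1) {t : ℝ} (ht : 0 < t) :
    IntegrableOn (fun u : κ → ℝ => th1 B J lam a t u) D := by
  obtain ⟨γ, hγ, h⟩ := norm_th1_le B hB J lam ha D hD
  obtain ⟨C, hC, hbd⟩ := h t ht
  refine Measure.integrableOn_of_bounded (M := C * Real.exp (-γ * (t - t)))
    hD.measure_lt_top.ne (continuous_th1 B hB J lam ha ht).aestronglyMeasurable ?_
  rw [ae_restrict_iff' hDm]
  exact ae_of_all _ fun u hu => hbd t le_rfl u hu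

include hB hD hDm in
lemma continuousOn_thI {a : (ι → ℤ) → ℂ} (ha : ∀ m, ‖a m‖ ≤ 1) :
    ContinuousOn (thI B J lam D a) (Ioi 0) := by
  obtain ⟨γ, hγ, h⟩ := norm_th1_le B hB J lam ha D hD
  intro t₀ ht₀
  rw [mem_Ioi] at ht₀
  obtain ⟨C, hC, hbd⟩ := h (t₀ / 2) (by positivity)
  apply ContinuousAt.continuousWithinAt
  unfold thI
  have hnhds : ∀ᶠ t in 𝓝 t₀, t₀ / 2 < t := lt_mem_nhds (by linarith)
  refine continuousAt_of_dominated (bound := fun _ => C) ?_ ?_ ?_ ?_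
  · filter_upwards [hnhds] with t ht
    exact (continuous_th1 B hB J lam ha (by linarith : 0 < t)).aestronglyMeasurable
  · filter_upwards [hnhds] with t ht
    rw [ae_restrict_iff' hDm]
    refine ae_of_all _ fun u hu => ?_
    refine (hbd t ht.le u hu).trans ?_
    refine mul_le_of_le_one_right hC ?_
    rw [Real.exp_le_one_iff]
    have : 0 ≤ t - t₀ / 2 := by linarith
    nlinarith
  · exact integrableOn_const hD.measure_lt_top.ne
  · refine ae_of_all _ fun u => ?_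
    have h1 := continuousOn_th1 B hB J lam ha
    have hopen : IsOpen {p : ℝ × (κ → ℝ) | 0 < p.1} := isOpen_lt continuous_const continuous_fst
    have h2 : ContinuousAt (fun p : ℝ × (κ → ℝ) => th1 B J lam a p.1 p.2) (t₀, u) :=
      h1.continuousAt (hopen.mem_nhds ht₀)
    exact h2.comp (f := fun t : ℝ => ((t, u) : ℝ × (κ → ℝ))) (by fun_prop)

include hB hD hDm in
lemma thI_decay {a : (ι → ℤ) → ℂ} (ha : ∀ m, ‖a m‖ ≤ 1) :
    ∃ γ M : ℝ, 0 < γ ∧ ∀ t, 1 ≤ t → ‖thI B J lam D a t‖ ≤ M * Real.exp (-γ * t) := by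
  obtain ⟨γ, hγ, h⟩ := norm_th1_le B hB J lam ha D hD
  obtain ⟨C, hC, hbd⟩ := h 1 one_pos
  refine ⟨γ, volume.real D * (C * Real.exp γ), hγ, fun t ht => ?_⟩
  unfold thI
  calc ‖∫ u in D, th1 B J lam a t u‖ ≤ (C * Real.exp (-γ * (t - 1))) * volume.real D :=
        norm_setIntegral_le_of_norm_le_const hD.measure_lt_top (fun u hu => hbd t ht u hu)
    _ = _ := by
        rw [show -γ * (t - 1) = γ + -γ * t by ring, Real.exp_add]
        ring

end Pool.Agent.Helper4
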