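import Mathlib
import Pool.Agent.helper4.HTheta

/-! # Functional equation of theta functions with coefficients -/

open MeasureTheory Filter Topology Set

noncomputable section

namespace Pool.Agent.Helper4

set_option linter.unusedSectionVars false

variable {ι : Type*} [Fintype ι] [DecidableEq ι] {κ : Type*} [Fintype κ]

/-- value of the constant term -/
def eJ (J : Finset ι) : ℂ := if J = ∅ then 1 else 0

lemma tt_zero (B : Matrix ι ι ℝ) (J : Finset ι) (lam : ι → (κ → ℝ) →ₗ[ℝ] ℝ) (t : ℝ) (u : κ → ℝ) :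
    ((tt B J lam t u 0 : ℝ) : ℂ) = eJ J := by
  unfold tt pf eJ
  rw [quad_zero, mul_zero, Real.exp_zero, mul_one]
  split_ifs with h
  · subst h; simp
  · obtain ⟨j, hj⟩ := Finset.nonempty_iff_ne_empty.mpr h
    rw [Finset.prod_eq_zero hj]
    · simp
    · rw [Matrix.mulVec_zero]; simp

lemma tsum_split (B : Matrix ι ι ℝ) (hB : B.det ≠ 0) (J : Finset ι)
    (lam : ι → (κ → ℝ) →ₗ[ℝ] ℝ) {a : (ι → ℤ) → ℂ} (ha : ∀ m, ‖a m‖ ≤ 1) {t : ℝ} (ht : 0 < t)
    (u : κ → ℝ) :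
    (Summable fun m : ι → ℤ => ‖a m * ((tt B J lam t u (castVec m) : ℝ) : ℂ)‖) ∧
    ∑' m : ι → ℤ, a m * ((tt B J lam t u (castVec m) : ℝ) : ℂ)
      = a 0 * eJ J + th1 B J lam a t u := by
  have h1 := summable_th1 B hB J lam ha ht u
  have h2 : Summable fun m : ι → ℤ => ‖a m * ((tt B J lam t u (castVec m) : ℝ) : ℂ)‖ := by
    have h3 := (Finset.summable_compl_iff ({0} : Finset (ι → ℤ)) (f := fun m : ι → ℤ =>
      ‖a m * ((tt B J lam t u (castVec m) : ℝ) : ℂ)‖)).mp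
    apply h3
    have e : {m : ι → ℤ // m ≠ 0} ≃ {m : ι → ℤ // m ∉ ({0} : Finset (ι → ℤ))} :=
      Equiv.subtypeEquivRight (fun m => by simp)
    rw [← (Equiv.subtypeEquivRight (p := fun m : ι → ℤ => m ≠ 0)
      (q := fun m => m ∉ ({0} : Finset (ι → ℤ))) (fun m => by simp)).summable_iff]
    exact h1
  refine ⟨h2, ?_⟩
  have h := h2.of_norm.tsum_subtype_add_tsum_subtype_compl {m : ι → ℤ | m = 0}
  rw [← h]
  unfold th1
  congr 1
  have : ({m : ι → ℤ | m = 0} : Set (ι → ℤ)) = {0} := rfl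
  rw [this, tsum_singleton (0 : ι → ℤ) (fun m => a m * ((tt B J lam t u (castVec m) : ℝ) : ℂ))]
  rw [castVec_zero, tt_zero]

lemma tt_eq_gfac (B : Matrix ι ι ℝ) (J : Finset ι) (lam : ι → (κ → ℝ) →ₗ[ℝ] ℝ) (t : ℝ)
    (u : κ → ℝ) (x : ι → ℝ) :
    ((tt B J lam t u x : ℝ) : ℂ) = (∏ j ∈ J, ((Real.exp (lam j u / 2) : ℝ) : ℂ)) *
      ∏ j, gfac J (fun j => ((cvec lam t u j : ℝ) : ℂ)) j (B.mulVec x j) := by
  have h1 : ∏ j, gfac J (fun j => ((cvec lam t u j : ℝ) : ℂ)) j (B.mulVec x j)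
      = (∏ j ∈ J, ((B.mulVec x j : ℝ) : ℂ)) * Complex.exp (∑ j,
        -((Real.pi : ℂ) * ((cvec lam t u j : ℝ) : ℂ)) * ((B.mulVec x j : ℝ) : ℂ) ^ 2) := by
    unfold gfac
    rw [Finset.prod_mul_distrib, ← Complex.exp_sum, Finset.prod_ite_mem, Finset.univ_inter]
  rw [h1]
  unfold tt pf quad
  push_cast
  rw [Finset.prod_mul_distrib, Finset.mul_sum]
  have : ∀ j, -(Real.pi : ℂ) * ((cvec lam t u j : ℂ) * ((B.mulVec x j : ℝ) : ℂ) ^ 2)
      = -((Real.pi : ℂ) * (cvec lam t u j : ℂ)) * ((B.mulVec x j : ℝ) : ℂ) ^ 2 := fun j => by ring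
  simp_rw [this]
  ring

lemma cvec_inv (lam : ι → (κ → ℝ) →ₗ[ℝ] ℝ) {t : ℝ} (ht : 0 < t) (u : κ → ℝ) (j : ι) :
    (cvec lam (1 / t) u j)⁻¹ = cvec (fun j => -lam j) t u j := by
  simp only [cvec, LinearMap.neg_apply, Real.exp_neg]
  field_simp

lemma prod_dfac (B' : Matrix ι ι ℝ) (J : Finset ι) (lam : ι → (κ → ℝ) →ₗ[ℝ] ℝ)
    (hlam : ∀ u, ∑ j, lam j u = 0) {t : ℝ} (ht : 0 < t) (u : κ → ℝ) (x : ι → ℝ) :
    (∏ j ∈ J, ((Real.exp (lam j u / 2) : ℝ) : ℂ)) *
      ∏ j, dfac J (fun j => ((cvec lam (1 / t) u j : ℝ) : ℂ)) j (B'.mulVec x j)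
      = (-Complex.I) ^ J.card * ((t ^ ((Fintype.card ι : ℝ) / 2 + J.card) : ℝ) : ℂ) *
        ((tt B' J (fun j => -lam j) t u x : ℝ) : ℂ) := by
  unfold dfac
  rw [Finset.prod_mul_distrib, Finset.prod_mul_distrib, ← Complex.exp_sum, Finset.prod_ite_mem,
    Finset.univ_inter]
  have hc : ∀ j, (((cvec lam (1 / t) u j : ℝ) : ℂ))⁻¹
      = ((cvec (fun j => -lam j) t u j : ℝ) : ℂ) := by
    intro j
    rw [← cvec_inv lam ht u j]
    push_cast
    rfl
  simp_rw [hc]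
  have h1 : ∏ j, (((cvec (fun j => -lam j) t u j : ℝ) : ℂ)) ^ (1 / 2 : ℂ)
      = ((t ^ ((Fintype.card ι : ℝ) / 2) : ℝ) : ℂ) := by
    have h2 : ∀ j, (((cvec (fun j => -lam j) t u j : ℝ) : ℂ)) ^ (1 / 2 : ℂ)
        = ((cvec (fun j => -lam j) t u j ^ (1 / 2 : ℝ) : ℝ) : ℂ) := by
      intro j
      rw [Complex.ofReal_cpow (cvec_pos _ ht u j).le]
      push_cast
      rfl
    simp_rw [h2]
    rw [← Complex.ofReal_prod]
    congr 1
    rw [Real.finsetProd_rpow]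
    · have h3 : ∏ j, cvec (fun j => -lam j) t u j = t ^ (Fintype.card ι) := by
        simp only [cvec]
        rw [Finset.prod_mul_distrib, ← Real.exp_sum]
        have : ∑ j, (-lam j) u = 0 := by
          simp only [LinearMap.neg_apply, Finset.sum_neg_distrib, hlam, neg_zero]
        rw [this, Real.exp_zero, mul_one, Finset.prod_const, Finset.card_univ]
      rw [h3, ← Real.rpow_natCast, ← Real.rpow_mul ht.le]
      congr 1
      ring
    · intro j _
      exact (cvec_pos _ ht u j).le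
  rw [h1]
  have h4 : (∏ j ∈ J, ((Real.exp (lam j u / 2) : ℝ) : ℂ)) *
      ∏ j ∈ J, -(Complex.I * ((B'.mulVec x j : ℝ) : ℂ) * ((cvec (fun j => -lam j) t u j : ℝ) : ℂ))
      = (-Complex.I) ^ J.card * ((t ^ J.card : ℝ) : ℂ) *
        ((pf B' J (fun j => -lam j) u x : ℝ) : ℂ) := by
    unfold pf
    rw [← Finset.prod_mul_distrib]
    push_cast
    rw [← Finset.prod_const, ← Finset.prod_const, ← Finset.prod_mul_distrib,
      ← Finset.prod_mul_distrib]
    refine Finset.prod_congr rfl fun j _ => ?_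
    simp only [cvec, LinearMap.neg_apply]
    push_cast
    have h5 : Complex.exp ((lam j u : ℂ) / 2) * Complex.exp (-(lam j u : ℂ))
        = Complex.exp (-(lam j u : ℂ) / 2) := by
      rw [← Complex.exp_add]; congr 1; ring
    calc _ = -(Complex.I * ((B'.mulVec x j : ℝ) : ℂ) * t) *
          (Complex.exp ((lam j u : ℂ) / 2) * Complex.exp (-(lam j u : ℂ))) := by ring
      _ = _ := by rw [h5]; ring
  have h6 : ((t ^ ((Fintype.card ι : ℝ) / 2 + J.card) : ℝ) : ℂ)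
      = ((t ^ ((Fintype.card ι : ℝ) / 2) : ℝ) : ℂ) * ((t ^ J.card : ℝ) : ℂ) := by
    rw [Real.rpow_add ht, Real.rpow_natCast]
    push_cast
    rfl
  rw [h6]
  unfold tt quad
  push_cast
  rw [← mul_assoc, ← mul_assoc]
  have h7 : (∏ j ∈ J, ((Real.exp (lam j u / 2) : ℝ) : ℂ)) = ∏ j ∈ J, Complex.exp ((lam j u : ℂ) / 2) := by
    refine Finset.prod_congr rfl fun j _ => ?_
    push_cast
    rfl
  rw [h7] at h4
  rw [h4, Finset.mul_sum]
  push_cast
  ring

/-- finite Fourier transform of a periodic coefficient function -/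
def ahat (M : ℕ) (a : (ι → ℤ) → ℂ) (n : ι → ℤ) : ℂ :=
  ((M : ℂ) ^ Fintype.card ι)⁻¹ * ∑ r : ι → Fin M, a (repM r) * phase n ((M : ℝ)⁻¹ • castVec (repM r))

lemma norm_ahat_le (M : ℕ) [NeZero M] {a : (ι → ℤ) → ℂ} (ha : ∀ m, ‖a m‖ ≤ 1) (n : ι → ℤ) :
    ‖ahat M a n‖ ≤ 1 := by
  unfold ahat
  have hM : (0 : ℝ) < (M : ℝ) ^ Fintype.card ι := by
    have : (0 : ℝ) < M := by exact_mod_cast Nat.pos_of_ne_zero (NeZero.ne M)
    positivity
  rw [norm_mul, norm_inv, norm_pow, Complex.norm_natCast, inv_mul_le_iff₀ hM, mul_one]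
  refine (norm_sum_le _ _).trans ?_
  calc ∑ r : ι → Fin M, ‖a (repM r) * phase n ((M : ℝ)⁻¹ • castVec (repM r))‖
      ≤ ∑ _r : ι → Fin M, (1 : ℝ) := by
        refine Finset.sum_le_sum fun r _ => ?_
        rw [norm_mul, norm_phase, mul_one]
        exact ha _
    _ = _ := by simp

/-- the dual matrix -/
def dualMat (M : ℕ) (B : Matrix ι ι ℝ) : Matrix ι ι ℝ := (((M : ℝ) • B)⁻¹).transpose

lemma det_dualMat (M : ℕ) [NeZero M] (B : Matrix ι ι ℝ) (hB : B.det ≠ 0) :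
    (dualMat M B).det ≠ 0 := det_dual_ne_zero' _ (det_natSmul_ne_zero M B hB)

/-- Poisson summation with periodic coefficients. -/
theorem tt_transform (B : Matrix ι ι ℝ) (hB : B.det ≠ 0) (J : Finset ι)
    (lam : ι → (κ → ℝ) →ₗ[ℝ] ℝ) (hlam : ∀ u, ∑ j, lam j u = 0) (M : ℕ) [NeZero M]
    {a : (ι → ℤ) → ℂ} (ha : ∀ m, ‖a m‖ ≤ 1) (hper : ∀ m k, a (m + (M : ℤ) • k) = a m)
    {t : ℝ} (ht : 0 < t) (u : κ → ℝ) :
    ∑' m : ι → ℤ, a m * ((tt B J lam (1 / t) u (castVec m) : ℝ) : ℂ)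
      = ((-Complex.I) ^ J.card * ((|B.det|⁻¹ : ℝ) : ℂ)) *
        ((t ^ ((Fintype.card ι : ℝ) / 2 + J.card) : ℝ) : ℂ) *
        ∑' n : ι → ℤ, ahat M a n *
          ((tt (dualMat M B) J (fun j => -lam j) t u (castVec n) : ℝ) : ℂ) := by
  have ht' : 0 < 1 / t := by positivity
  have hMB := det_natSmul_ne_zero M B hB
  set c : ι → ℂ := fun j => ((cvec lam (1 / t) u j : ℝ) : ℂ) with hc
  have hcpos : ∀ j, 0 < (c j).re := by
    intro j
    rw [hc]
    simp only [Complex.ofReal_re]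
    exact cvec_pos lam ht' u j
  set E : ℂ := ∏ j ∈ J, ((Real.exp (lam j u / 2) : ℝ) : ℂ) with hE
  have hE0 : E ≠ 0 := by
    rw [hE, Finset.prod_ne_zero_iff]
    intro j _
    exact_mod_cast (Real.exp_pos _).ne'
  set F : (ι → ℤ) → ℂ := fun m => ∏ j, gfac J c j (B.mulVec (castVec m) j) with hF
  have h1 : ∀ m : ι → ℤ, ((tt B J lam (1 / t) u (castVec m) : ℝ) : ℂ) = E * F m :=
    fun m => tt_eq_gfac B J lam (1 / t) u (castVec m)
  have hsum := (tsum_split B hB J lam ha ht' u).1.of_norm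
  have hsumF : Summable fun m : ι → ℤ => a m * F m := by
    have h2 := hsum.mul_left E⁻¹
    refine h2.congr fun m => ?_
    rw [h1]
    field_simp
  have h2 : ∑' m : ι → ℤ, a m * ((tt B J lam (1 / t) u (castVec m) : ℝ) : ℂ)
      = E * ∑' m, a m * F m := by
    rw [← tsum_mul_left]
    refine tsum_congr fun m => ?_
    rw [h1]; ring
  rw [h2, tsum_periodic M a F hper hsumF]
  have h3 : ∀ r : ι → Fin M, ∑' k, F (repM r + (M : ℤ) • k)
      = (|((M : ℝ) • B).det|⁻¹ : ℝ) * ∑' n : ι → ℤ, phase n ((M : ℝ)⁻¹ • castVec (repM r)) *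
        ∏ j, dfac J c j ((dualMat M B).mulVec (castVec n) j) := by
    intro r
    have h4 := theta_gen ((M : ℝ) • B) hMB J c hcpos ((M : ℝ)⁻¹ • castVec (repM r))
    rw [dualMat, ← h4]
    refine tsum_congr fun k => ?_
    rw [genFun_apply, hF]
    simp only
    rw [mulVec_rep M B]
  simp_rw [h3]
  -- interchange
  have hdsum : ∀ r : ι → Fin M, Summable fun n : ι → ℤ =>
      a (repM r) * phase n ((M : ℝ)⁻¹ • castVec (repM r)) *
        ∏ j, dfac J c j ((dualMat M B).mulVec (castVec n) j) := by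
    intro r
    have h5 := (summable_dual ((M : ℝ) • B) hMB J c hcpos).mul_left ‖a (repM r)‖
    refine Summable.of_norm (h5.congr fun n => ?_)
    rw [norm_mul, norm_mul, norm_phase, mul_one]
    rfl
  have hMn : ((M : ℂ) ^ Fintype.card ι) ≠ 0 := by
    apply pow_ne_zero
    exact_mod_cast NeZero.ne M
  have hdet : (((|((M : ℝ) • B).det|⁻¹ : ℝ)) : ℂ) * ((M : ℂ) ^ Fintype.card ι)
      = ((|B.det|⁻¹ : ℝ) : ℂ) := by
    rw [Matrix.det_smul, abs_mul, mul_inv]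
    have h6 : |(M : ℝ) ^ Fintype.card ι| = (M : ℝ) ^ Fintype.card ι := abs_of_nonneg (by positivity)
    rw [h6]
    push_cast
    field_simp
  have h7 : ∑ r : ι → Fin M, a (repM r) * ((|((M : ℝ) • B).det|⁻¹ : ℝ) *
        ∑' n : ι → ℤ, phase n ((M : ℝ)⁻¹ • castVec (repM r)) *
        ∏ j, dfac J c j ((dualMat M B).mulVec (castVec n) j))
      = ((|B.det|⁻¹ : ℝ) : ℂ) * ∑' n : ι → ℤ, ahat M a n *
        ∏ j, dfac J c j ((dualMat M B).mulVec (castVec n) j) := by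
    have h8 : ∀ r : ι → Fin M, a (repM r) * ((|((M : ℝ) • B).det|⁻¹ : ℝ) *
        ∑' n : ι → ℤ, phase n ((M : ℝ)⁻¹ • castVec (repM r)) *
        ∏ j, dfac J c j ((dualMat M B).mulVec (castVec n) j))
        = (|((M : ℝ) • B).det|⁻¹ : ℝ) * ∑' n : ι → ℤ,
        a (repM r) * phase n ((M : ℝ)⁻¹ • castVec (repM r)) *
        ∏ j, dfac J c j ((dualMat M B).mulVec (castVec n) j) := by
      intro r
      have : ∀ n : ι → ℤ, a (repM r) * phase n ((M : ℝ)⁻¹ • castVec (repM r)) *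
        ∏ j, dfac J c j ((dualMat M B).mulVec (castVec n) j)
        = a (repM r) * (phase n ((M : ℝ)⁻¹ • castVec (repM r)) *
        ∏ j, dfac J c j ((dualMat M B).mulVec (castVec n) j)) := fun n => by ring
      simp_rw [this]
      rw [tsum_mul_left]
      ring
    simp_rw [h8]
    rw [← Finset.mul_sum, ← (Summable.tsum_finsetSum (fun r _ => hdsum r)), ← hdet, mul_assoc]
    congr 1
    rw [← tsum_mul_left]
    refine tsum_congr fun n => ?_
    unfold ahat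
    rw [← Finset.sum_mul]
    field_simp
  rw [h7]
  have h9 : ∀ n : ι → ℤ, E * ∏ j, dfac J c j ((dualMat M B).mulVec (castVec n) j)
      = (-Complex.I) ^ J.card * ((t ^ ((Fintype.card ι : ℝ) / 2 + J.card) : ℝ) : ℂ) *
        ((tt (dualMat M B) J (fun j => -lam j) t u (castVec n) : ℝ) : ℂ) :=
    fun n => prod_dfac (dualMat M B) J lam hlam ht u (castVec n)
  calc E * (((|B.det|⁻¹ : ℝ) : ℂ) * ∑' n : ι → ℤ, ahat M a n *
        ∏ j, dfac J c j ((dualMat M B).mulVec (castVec n) j))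
      = ((|B.det|⁻¹ : ℝ) : ℂ) * ∑' n : ι → ℤ, ahat M a n *
        (E * ∏ j, dfac J c j ((dualMat M B).mulVec (castVec n) j)) := by
        rw [mul_left_comm, ← tsum_mul_left]
        congr 1
        refine tsum_congr fun n => ?_
        ring
    _ = _ := by
        simp_rw [h9]
        rw [← tsum_mul_left, ← tsum_mul_left]
        refine tsum_congr fun n => ?_
        ring

end Pool.Agent.Helper4
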