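import Mathlib
import Pool.Agent.helper4.HThetaFE

/-! # The FE-pair of a theta function with coefficients -/

open MeasureTheory Filter Topology Set

noncomputable section

namespace Pool.Agent.Helper4

set_option linter.unusedSectionVars false

variable {ι : Type*} [Fintype ι] [DecidableEq ι] {κ : Type*} [Fintype κ]
  (B : Matrix ι ι ℝ) (hB : B.det ≠ 0) (J : Finset ι) (lam : ι → (κ → ℝ) →ₗ[ℝ] ℝ)
  (D : Set (κ → ℝ)) (hD : Bornology.IsBounded D) (hDm : MeasurableSet D)
  (hlam : ∀ u, ∑ j, lam j u = 0) (M : ℕ) [NeZero M]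
  (a : (ι → ℤ) → ℂ) (ha : ∀ m, ‖a m‖ ≤ 1) (hper : ∀ m k, a (m + (M : ℤ) • k) = a m)

/-- root number -/
def rootN : ℂ := (-Complex.I) ^ J.card * ((|B.det|⁻¹ : ℝ) : ℂ)

include hB in
lemma rootN_ne_zero : rootN B J ≠ 0 := by
  unfold rootN
  refine mul_ne_zero (pow_ne_zero _ (neg_ne_zero.mpr Complex.I_ne_zero)) ?_
  rw [Ne, Complex.ofReal_eq_zero]
  exact inv_ne_zero (abs_ne_zero.mpr hB)

include hB hD hDm ha in
lemma integral_full {t : ℝ} (ht : 0 < t) :
    ∫ u in D, ∑' m : ι → ℤ, a m * ((tt B J lam t u (castVec m) : ℝ) : ℂ)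
      = a 0 * eJ J * ((volume.real D : ℝ) : ℂ) + thI B J lam D a t := by
  have h1 : ∀ u : κ → ℝ, ∑' m : ι → ℤ, a m * ((tt B J lam t u (castVec m) : ℝ) : ℂ)
      = a 0 * eJ J + th1 B J lam a t u := fun u => (tsum_split B hB J lam ha ht u).2
  simp_rw [h1]
  have hc1 : Integrable (fun _ : κ → ℝ => a 0 * eJ J) (volume.restrict D) :=
    integrableOn_const hD.measure_lt_top.ne
  rw [integral_add hc1 (integrableOn_th1 B hB J lam D hD hDm ha ht), setIntegral_const]
  rw [Complex.real_smul]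
  unfold thI
  ring

include hB hD hDm ha hper hlam in
lemma thI_feq {t : ℝ} (ht : 0 < t) :
    a 0 * eJ J * ((volume.real D : ℝ) : ℂ) + thI B J lam D a (1 / t) =
      rootN B J * ((t ^ ((Fintype.card ι : ℝ) / 2 + J.card) : ℝ) : ℂ) *
        (ahat M a 0 * eJ J * ((volume.real D : ℝ) : ℂ) +
          thI (dualMat M B) J (fun j => -lam j) D (ahat M a) t) := by
  rw [← integral_full B hB J lam D hD hDm a ha (by positivity : 0 < 1 / t),
    ← integral_full (dualMat M B) (det_dualMat M B hB) J (fun j => -lam j) D hD hDm (ahat M a)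
      (norm_ahat_le M ha) ht, ← integral_const_mul]
  congr 1
  ext u
  rw [tt_transform B hB J lam hlam M ha hper ht u]
  rfl

/-- The FE-pair attached to an integrated theta function. -/
def hPair [Nonempty ι] : WeakFEPair ℂ where
  f t := a 0 * eJ J * ((volume.real D : ℝ) : ℂ) + thI B J lam D a t
  g t := ahat M a 0 * eJ J * ((volume.real D : ℝ) : ℂ) +
    thI (dualMat M B) J (fun j => -lam j) D (ahat M a) t
  k := (Fintype.card ι : ℝ) / 2 + J.card
  ε := rootN B J
  f₀ := a 0 * eJ J * ((volume.real D : ℝ) : ℂ)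
  g₀ := ahat M a 0 * eJ J * ((volume.real D : ℝ) : ℂ)
  hf_int := by
    refine ContinuousOn.locallyIntegrableOn ?_ measurableSet_Ioi
    have := continuousOn_thI B hB J lam D hD hDm ha
    fun_prop
  hg_int := by
    refine ContinuousOn.locallyIntegrableOn ?_ measurableSet_Ioi
    have := continuousOn_thI _ (det_dualMat M B hB) J (fun j => -lam j) D hD hDm
      (norm_ahat_le M ha)
    fun_prop
  hk := by
    have : 0 < Fintype.card ι := Fintype.card_pos
    positivity
  hε := rootN_ne_zero B hB J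
  h_feq := by
    intro t ht
    rw [thI_feq B hB J lam D hD hDm hlam M a ha hper ht]
    rfl
  hf_top := by
    intro r
    obtain ⟨γ, C, hγ, hC⟩ := thI_decay B hB J lam D hD hDm ha
    have h1 : (fun t => (a 0 * eJ J * ((volume.real D : ℝ) : ℂ) + thI B J lam D a t)
        - a 0 * eJ J * ((volume.real D : ℝ) : ℂ)) =O[atTop] fun t => Real.exp (-γ * t) := by
      refine Asymptotics.IsBigO.of_bound C ?_
      filter_upwards [eventually_ge_atTop 1] with t ht
      rw [add_sub_cancel_left, Real.norm_eq_abs, abs_of_pos (Real.exp_pos _)]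
      exact hC t ht
    exact h1.trans (isLittleO_exp_neg_mul_rpow_atTop hγ r).isBigO
  hg_top := by
    intro r
    obtain ⟨γ, C, hγ, hC⟩ := thI_decay _ (det_dualMat M B hB) J (fun j => -lam j) D hD hDm
      (norm_ahat_le M ha)
    have h1 : (fun t => (ahat M a 0 * eJ J * ((volume.real D : ℝ) : ℂ) +
        thI (dualMat M B) J (fun j => -lam j) D (ahat M a) t)
        - ahat M a 0 * eJ J * ((volume.real D : ℝ) : ℂ)) =O[atTop] fun t => Real.exp (-γ * t) := by
      refine Asymptotics.IsBigO.of_bound C ?_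
      filter_upwards [eventually_ge_atTop 1] with t ht
      rw [add_sub_cancel_left, Real.norm_eq_abs, abs_of_pos (Real.exp_pos _)]
      exact hC t ht
    exact h1.trans (isLittleO_exp_neg_mul_rpow_atTop hγ r).isBigO

/-- Mellin transform of the pair in the region of absolute convergence. -/
lemma hPair_hasMellin [Nonempty ι] {w : ℂ}
    (hw : (Fintype.card ι : ℝ) / 2 + (J.card : ℝ) / 2 < w.re) :
    HasMellin (thI B J lam D a) w ((hPair B hB J lam D hD hDm hlam M a ha hper).Λ w) := by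
  set P := hPair B hB J lam D hD hDm hlam M a ha hper with hP
  have hf : (fun t => P.f t - P.f₀) = thI B J lam D a := by
    funext t
    rw [hP]
    simp only [hPair]
    ring
  by_cases hJ : J = ∅
  · have hk : P.k < w.re := by
      rw [hP]
      simp only [hPair]
      rw [hJ] at hw ⊢
      simpa using hw
    have := P.hasMellin hk
    rw [hf] at this
    exact this
  · have hstrong : IsStrongFEPair P := by
      constructor
      · rw [hP]; simp only [hPair, eJ]
        rw [if_neg hJ]; ring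
      · rw [hP]; simp only [hPair, eJ]
        rw [if_neg hJ]; ring
    have h1 := hstrong.hasMellin w
    have h2 : P.f = thI B J lam D a := by
      rw [← hf]
      funext t
      rw [hstrong.hf₀, sub_zero]
    rw [h2] at h1
    exact h1

/-- one term of the integrated theta function -/
def ttI (x : ι → ℝ) (t : ℝ) : ℝ := ∫ u in D, tt B J lam t u x

lemma stronglyMeasurable_ttI (x : ι → ℝ) : StronglyMeasurable (ttI B J lam D x) := by
  unfold ttI
  exact (continuous_tt B J lam x).stronglyMeasurable.integral_prod_right'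

include hB hD in
lemma exists_ttI_bound : ∃ γ P : ℝ, 0 < γ ∧ 0 ≤ P ∧ ∀ x : ι → ℝ, ∀ t, 0 < t →
    |ttI B J lam D x t| ≤ P * (‖x‖ ^ J.card * Real.exp (-(γ * t * ‖x‖ ^ 2))) := by
  obtain ⟨γ, P, hγ, hP, hbd⟩ := exists_tt_bound B hB J lam D hD
  refine ⟨γ, P * volume.real D, hγ, by positivity, fun x t ht => ?_⟩
  unfold ttI
  rw [← Real.norm_eq_abs]
  have h := norm_setIntegral_le_of_norm_le_const (μ := volume) (f := fun u => tt B J lam t u x)
    (C := P * (‖x‖ ^ J.card * Real.exp (-(γ * t * ‖x‖ ^ 2)))) hD.measure_lt_top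
    (fun u hu => hbd u hu t ht x)
  calc _ ≤ P * (‖x‖ ^ J.card * Real.exp (-(γ * t * ‖x‖ ^ 2))) * volume.real D := h
    _ = _ := by ring

include hB hD hDm ha in
lemma hasSum_ttI {t : ℝ} (ht : 0 < t) :
    HasSum (fun m : {m : ι → ℤ // m ≠ 0} => a m.1 * ((ttI B J lam D (castVec m.1) t : ℝ) : ℂ))
      (thI B J lam D a t) := by
  obtain ⟨γ, hγ, h⟩ := exists_unif B J lam hB D hD
  obtain ⟨C, hC, hbd⟩ := h t ht
  have hmeas : ∀ x : ι → ℝ, Continuous fun u : κ → ℝ => tt B J lam t u x := by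
    intro x
    exact (continuous_tt B J lam x).comp (f := fun u : κ → ℝ => ((t, u) : ℝ × (κ → ℝ)))
      (by fun_prop)
  have hint : ∀ m : {m : ι → ℤ // m ≠ 0}, IntegrableOn
      (fun u => a m.1 * ((tt B J lam t u (castVec m.1) : ℝ) : ℂ)) D := by
    intro m
    refine Measure.integrableOn_of_bounded (M := C * Real.exp (-(γ * t / 2) * ‖castVec m.1‖ ^ 2) *
      Real.exp (-γ * (t - t))) hD.measure_lt_top.ne ?_ ?_
    · exact (continuous_const.mul (Complex.continuous_ofReal.comp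
        (hmeas _))).aestronglyMeasurable
    · rw [ae_restrict_iff' hDm]
      refine ae_of_all _ fun u hu => ?_
      rw [norm_mul, Complex.norm_real, Real.norm_eq_abs]
      calc ‖a m.1‖ * |tt B J lam t u (castVec m.1)| ≤ 1 * |tt B J lam t u (castVec m.1)| :=
            mul_le_mul_of_nonneg_right (ha _) (abs_nonneg _)
        _ ≤ _ := by rw [one_mul]; exact hbd t le_rfl u hu m
  have h1 := hasSum_integral_of_summable_integral_norm
    (F := fun (m : {m : ι → ℤ // m ≠ 0}) (u : κ → ℝ) =>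
      a m.1 * ((tt B J lam t u (castVec m.1) : ℝ) : ℂ)) (μ := volume.restrict D) hint ?_
  · unfold thI th1
    refine h1.congr_fun ?_ |> fun h => h
    intro m
    rw [integral_const_mul]
    congr 1
    unfold ttI
    exact (integral_ofReal (𝕜 := ℂ)).symm
  · have hs := (summable_gauss_sub (ι := ι) (a := γ * t / 2) (by positivity))
    refine Summable.of_nonneg_of_le (fun _ => integral_nonneg fun _ => norm_nonneg _) (fun m => ?_)
      (((hs.mul_left C).mul_right (Real.exp (-γ * (t - t)))).mul_right (volume.real D))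
    have h3 := norm_setIntegral_le_of_norm_le_const (μ := volume)
      (f := fun u => ‖a m.1 * ((tt B J lam t u (castVec m.1) : ℝ) : ℂ)‖)
      (C := C * Real.exp (-(γ * t / 2) * ‖castVec m.1‖ ^ 2) * Real.exp (-γ * (t - t)))
      hD.measure_lt_top (fun u hu => by
        rw [norm_norm, norm_mul, Complex.norm_real, Real.norm_eq_abs]
        calc ‖a m.1‖ * |tt B J lam t u (castVec m.1)| ≤ 1 * |tt B J lam t u (castVec m.1)| :=
              mul_le_mul_of_nonneg_right (ha _) (abs_nonneg _)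
          _ ≤ _ := by rw [one_mul]; exact hbd t le_rfl u hu m)
    exact (le_abs_self _).trans h3

include hB hD in
/-- Norm bounds for the Mellin transform of one term. -/
lemma exists_mellin_ttI_bound : ∃ γ P : ℝ, 0 < γ ∧ 0 ≤ P ∧
    ∀ (w : ℂ), 0 < w.re → ∀ x : ι → ℝ, x ≠ 0 →
      Integrable (fun t : ℝ => ((t : ℂ) ^ (w - 1)) • ((ttI B J lam D x t : ℝ) : ℂ))
        (volume.restrict (Ioi 0)) ∧
      ∫ t in Ioi (0 : ℝ), ‖((t : ℂ) ^ (w - 1)) • ((ttI B J lam D x t : ℝ) : ℂ)‖ ≤
        P * (Real.Gamma w.re * γ ^ (-w.re)) * ‖x‖ ^ ((J.card : ℝ) - 2 * w.re) := by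
  obtain ⟨γ, P, hγ, hP, hbd⟩ := exists_ttI_bound B hB J lam D hD
  refine ⟨γ, P, hγ, hP, fun w hw x hx => ?_⟩
  have hxn : 0 < ‖x‖ := norm_pos_iff.mpr hx
  have hb : 0 < γ * ‖x‖ ^ 2 := by positivity
  have hgi : IntegrableOn (fun t : ℝ => P * ‖x‖ ^ J.card *
      (t ^ (w.re - 1) * Real.exp (-(γ * ‖x‖ ^ 2) * t))) (Ioi 0) := by
    refine Integrable.const_mul ?_ _
    have := integrableOn_rpow_mul_exp_neg_mul_rpow (p := 1) (s := w.re - 1)
      (b := γ * ‖x‖ ^ 2) (by linarith) one_pos hb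
    simpa [IntegrableOn] using this
  have hle : ∀ t ∈ Ioi (0 : ℝ), ‖((t : ℂ) ^ (w - 1)) • ((ttI B J lam D x t : ℝ) : ℂ)‖
      ≤ P * ‖x‖ ^ J.card * (t ^ (w.re - 1) * Real.exp (-(γ * ‖x‖ ^ 2) * t)) := by
    intro t ht
    rw [mem_Ioi] at ht
    rw [norm_smul, Complex.norm_cpow_eq_rpow_re_of_pos ht, Complex.norm_real, Real.norm_eq_abs]
    have h1 := hbd x t ht
    have h2 : 0 ≤ t ^ (w - 1).re := by positivity
    have h3 : (w - 1).re = w.re - 1 := by simp
    calc _ ≤ t ^ (w - 1).re * (P * (‖x‖ ^ J.card * Real.exp (-(γ * t * ‖x‖ ^ 2)))) :=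
          mul_le_mul_of_nonneg_left h1 h2
      _ = _ := by
          rw [h3, show -(γ * t * ‖x‖ ^ 2) = -(γ * ‖x‖ ^ 2) * t by ring]
          ring
  have hmeas : AEStronglyMeasurable
      (fun t : ℝ => ((t : ℂ) ^ (w - 1)) • ((ttI B J lam D x t : ℝ) : ℂ))
      (volume.restrict (Ioi 0)) := by
    have hA : AEStronglyMeasurable (fun t : ℝ => (t : ℂ) ^ (w - 1)) (volume.restrict (Ioi 0)) := by
      refine ContinuousOn.aestronglyMeasurable ?_ measurableSet_Ioi
      intro t ht
      have : ContinuousAt (fun t : ℝ => (t : ℂ) ^ (w - 1)) t :=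
        Complex.continuousAt_ofReal_cpow_const _ _ (Or.inr (ne_of_gt ht))
      exact this.continuousWithinAt
    have hB' : AEStronglyMeasurable (fun t : ℝ => ((ttI B J lam D x t : ℝ) : ℂ))
        (volume.restrict (Ioi 0)) :=
      (Complex.continuous_ofReal.comp_stronglyMeasurable
        (stronglyMeasurable_ttI B J lam D x)).aestronglyMeasurable
    exact hA.smul hB'
  have hint : Integrable (fun t : ℝ => ((t : ℂ) ^ (w - 1)) • ((ttI B J lam D x t : ℝ) : ℂ))
      (volume.restrict (Ioi 0)) := by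
    refine Integrable.mono' hgi hmeas ?_
    rw [ae_restrict_iff' measurableSet_Ioi]
    exact ae_of_all _ hle
  refine ⟨hint, ?_⟩
  calc _ ≤ ∫ t in Ioi (0 : ℝ), P * ‖x‖ ^ J.card *
        (t ^ (w.re - 1) * Real.exp (-(γ * ‖x‖ ^ 2) * t)) :=
        setIntegral_mono_on hint.norm hgi measurableSet_Ioi hle
    _ = P * ‖x‖ ^ J.card * ((1 / (γ * ‖x‖ ^ 2)) ^ w.re * Real.Gamma w.re) := by
        rw [integral_const_mul]
        congr 1
        have := Real.integral_rpow_mul_exp_neg_mul_Ioi hw hb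
        rw [← this]
        simp only [neg_mul]
    _ = _ := by
        rw [one_div, Real.inv_rpow hb.le, Real.mul_rpow hγ.le (by positivity), mul_inv,
          ← Real.rpow_neg hγ.le, ← Real.rpow_natCast ‖x‖ 2, ← Real.rpow_mul (norm_nonneg x),
          ← Real.rpow_neg (norm_nonneg x), Real.rpow_sub hxn, Real.rpow_natCast]
        push_cast
        rw [div_eq_mul_inv, ← Real.rpow_neg hxn.le]
        ring

include hB hD ha in
lemma summable_mellin_ttI {w : ℂ}
    (hw : (Fintype.card ι : ℝ) / 2 + (J.card : ℝ) / 2 < w.re) :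
    Summable (fun m : {m : ι → ℤ // m ≠ 0} => ∫ t in Ioi (0 : ℝ),
      ‖((t : ℂ) ^ (w - 1)) • (a m.1 * ((ttI B J lam D (castVec m.1) t : ℝ) : ℂ))‖) := by
  obtain ⟨γ, P, hγ, hP, hq⟩ := exists_mellin_ttI_bound B hB J lam D hD
  have hw0 : 0 < w.re := lt_of_le_of_lt (by positivity) hw
  have h1 : ∀ m : {m : ι → ℤ // m ≠ 0}, ∫ t in Ioi (0 : ℝ),
      ‖((t : ℂ) ^ (w - 1)) • (a m.1 * ((ttI B J lam D (castVec m.1) t : ℝ) : ℂ))‖
      ≤ P * (Real.Gamma w.re * γ ^ (-w.re)) * ‖castVec m.1‖ ^ ((J.card : ℝ) - 2 * w.re) := by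
    intro m
    have h2 : ∀ t : ℝ, ‖((t : ℂ) ^ (w - 1)) • (a m.1 * ((ttI B J lam D (castVec m.1) t : ℝ) : ℂ))‖
        = ‖a m.1‖ * ‖((t : ℂ) ^ (w - 1)) • ((ttI B J lam D (castVec m.1) t : ℝ) : ℂ)‖ := by
      intro t
      rw [smul_eq_mul, smul_eq_mul, norm_mul, norm_mul, norm_mul]
      ring
    simp_rw [h2]
    rw [integral_const_mul]
    have h3 := (hq w hw0 (castVec m.1) (castVec_ne_zero m.2)).2
    have h4 : 0 ≤ ∫ t in Ioi (0 : ℝ),
        ‖((t : ℂ) ^ (w - 1)) • ((ttI B J lam D (castVec m.1) t : ℝ) : ℂ)‖ :=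
      integral_nonneg fun _ => norm_nonneg _
    calc _ ≤ 1 * ∫ t in Ioi (0 : ℝ),
        ‖((t : ℂ) ^ (w - 1)) • ((ttI B J lam D (castVec m.1) t : ℝ) : ℂ)‖ :=
          mul_le_mul_of_nonneg_right (ha _) h4
      _ ≤ _ := by rw [one_mul]; exact h3
  refine Summable.of_nonneg_of_le (fun m => integral_nonneg fun _ => norm_nonneg _) h1 ?_
  refine Summable.mul_left _ ?_
  exact (summable_castVec_rpow (ι := ι) ((J.card : ℝ) - 2 * w.re) (by linarith)).comp_injective
    (Subtype.val_injective (p := fun m : ι → ℤ => m ≠ 0))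

/-- Expansion of the Mellin transform. -/
theorem hasSum_mellin_ttI [Nonempty ι] {w : ℂ}
    (hw : (Fintype.card ι : ℝ) / 2 + (J.card : ℝ) / 2 < w.re) :
    HasSum (fun m : {m : ι → ℤ // m ≠ 0} => ∫ t in Ioi (0 : ℝ),
      ((t : ℂ) ^ (w - 1)) • (a m.1 * ((ttI B J lam D (castVec m.1) t : ℝ) : ℂ)))
      ((hPair B hB J lam D hD hDm hlam M a ha hper).Λ w) := by
  have hM := hPair_hasMellin B hB J lam D hD hDm hlam M a ha hper hw
  rw [← hM.2, mellin]
  obtain ⟨γ, P, hγ, hP, hq⟩ := exists_mellin_ttI_bound B hB J lam D hD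
  have hw0 : 0 < w.re := lt_of_le_of_lt (by positivity) hw
  have h1 := hasSum_integral_of_summable_integral_norm
    (F := fun (m : {m : ι → ℤ // m ≠ 0}) (t : ℝ) =>
      ((t : ℂ) ^ (w - 1)) • (a m.1 * ((ttI B J lam D (castVec m.1) t : ℝ) : ℂ)))
    (μ := volume.restrict (Ioi (0 : ℝ)))
    (fun m => by
      have h2 := (hq w hw0 (castVec m.1) (castVec_ne_zero m.2)).1.const_mul (a m.1)
      refine h2.congr ?_
      refine ae_of_all _ fun t => ?_
      simp only [smul_eq_mul]
      ring)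
    (summable_mellin_ttI B hB J lam D hD a ha hw)
  have heq : ∫ t in Ioi (0 : ℝ), (t : ℂ) ^ (w - 1) • thI B J lam D a t
      = ∫ t in Ioi (0 : ℝ), ∑' m : {m : ι → ℤ // m ≠ 0},
        ((t : ℂ) ^ (w - 1)) • (a m.1 * ((ttI B J lam D (castVec m.1) t : ℝ) : ℂ)) := by
    apply setIntegral_congr_fun measurableSet_Ioi
    intro t ht
    simp only [smul_eq_mul]
    rw [tsum_mul_left]
    congr 1
    exact (hasSum_ttI B hB J lam D hD hDm a ha ht).tsum_eq.symm
  rw [heq]
  exact h1

end Pool.Agent.Helper4
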