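import Mathlib
import Pool.Agent.helper4.NFZeta

/-! # Unfolding over the unit group, general form -/

open MeasureTheory Filter Topology Set

noncomputable section

namespace Pool.Agent.Helper4

open NumberField NumberField.Units NumberField.InfinitePlace NumberField.mixedEmbedding
  NumberField.Units.dirichletUnitTheorem nonZeroDivisors

variable (K : Type*) [Field K] [NumberField K]

open scoped Classical

lemma integrable_part (Ψ : ℝ × (LogIdx K → ℝ) → ℂ) (hΨ : Integrable Ψ) (l : LogIdx K → ℝ) :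
    Integrable (fun a : ℝ => ∫ u in DD K, Ψ (a, u + l)) := by
  have h0 : (volume : Measure (ℝ × (LogIdx K → ℝ))).IsAddHaarMeasure := by
    rw [Measure.volume_eq_prod]; infer_instance
  have h1 := hΨ.comp_add_right ((0, l) : ℝ × (LogIdx K → ℝ))
  have h2 : Integrable (fun p : ℝ × (LogIdx K → ℝ) => Ψ (p + (0, l)))
      ((volume : Measure ℝ).prod (volume.restrict (DD K))) := by
    have h3 : (volume : Measure ℝ).prod ((volume : Measure (LogIdx K → ℝ)).restrict (DD K))
        = ((volume : Measure ℝ).prod (volume : Measure (LogIdx K → ℝ))).restrict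
          (univ ×ˢ DD K) := by
      rw [← Measure.prod_restrict, Measure.restrict_univ]
    rw [h3]
    exact Integrable.restrict h1
  have h4 := h2.integral_prod_left
  refine h4.congr ?_
  refine ae_of_all _ fun a => ?_
  simp only [Prod.mk_add_mk, add_zero]

lemma hasSum_unfold (Ψ : ℝ × (LogIdx K → ℝ) → ℂ) (hΨ : Integrable Ψ)
    (hs : Summable fun l : unitLattice K => ∫ a, ‖∫ u in DD K, Ψ (a, u + l.1)‖) :
    HasSum (fun l : unitLattice K => ∫ a : ℝ, ∫ u in DD K, Ψ (a, u + l.1)) (∫ p, Ψ p) := by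
  have h1 := hasSum_integral_of_summable_integral_norm
    (F := fun (l : unitLattice K) (a : ℝ) => ∫ u in DD K, Ψ (a, u + l.1))
    (fun l => integrable_part K Ψ hΨ l.1) hs
  have hFF : Integrable Ψ ((volume : Measure ℝ).prod
      (volume : Measure (LogIdx K → ℝ))) := hΨ
  have h2 : ∫ p, Ψ p = ∫ a, ∫ u, Ψ (a, u) := by
    rw [Measure.volume_eq_prod, integral_prod _ hFF]
  rw [h2]
  have h3 : ∫ a, ∫ u, Ψ (a, u) = ∫ a, ∑' l : unitLattice K, ∫ u in DD K, Ψ (a, u + l.1) := by
    refine integral_congr_ae ?_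
    filter_upwards [hFF.prod_right_ae] with a ha
    rw [(DD_fund K).integral_eq_tsum'' (fun u => Ψ (a, u)) ha]
    refine tsum_congr fun l => ?_
    congr 1
    ext u
    congr 2
    rw [Submodule.vadd_def, vadd_eq_add, add_comm]
  rw [h3]
  exact h1

lemma hasSum_unfold_units (Ψ : ℝ × (LogIdx K → ℝ) → ℂ) (hΨ : Integrable Ψ)
    (hs : Summable fun ε : (𝓞 K)ˣ =>
      ∫ a, ‖∫ u in DD K, Ψ (a, u + logEmbedding K (Additive.ofMul ε))‖) :
    HasSum (fun ε : (𝓞 K)ˣ =>
      ∫ a : ℝ, ∫ u in DD K, Ψ (a, u + logEmbedding K (Additive.ofMul ε)))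
      ((Nat.card (torsion K) : ℂ) * ∫ p, Ψ p) := by
  have hs2 : Summable fun p : torsion K × unitLattice K =>
      ∫ a, ‖∫ u in DD K, Ψ (a, u + p.2.1)‖ := by
    have := (unitEquiv K).summable_iff.mpr hs
    refine this.congr fun p => ?_
    simp only [Function.comp_apply]
    rw [log_unitEquiv]
  have hs3 : Summable fun l : unitLattice K => ∫ a, ‖∫ u in DD K, Ψ (a, u + l.1)‖ :=
    hs2.comp_injective (i := fun l : unitLattice K => ((1, l) : torsion K × unitLattice K))
      (fun l l' h => (Prod.ext_iff.mp h).2)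
  have h1 := hasSum_unfold K Ψ hΨ hs3
  rw [← (unitEquiv K).hasSum_iff]
  have h2 : HasSum (fun _ : torsion K => (1 : ℂ)) (Nat.card (torsion K) : ℂ) := by
    have : Fintype (torsion K) := Fintype.ofFinite _
    have h5 := hasSum_fintype (fun _ : torsion K => (1 : ℂ))
    simpa [Nat.card_eq_fintype_card] using h5
  have h3 : Summable fun p : torsion K × unitLattice K =>
      (1 : ℂ) * ∫ a, ∫ u in DD K, Ψ (a, u + p.2.1) := by
    simp only [one_mul]
    refine Summable.of_norm_bounded hs2 fun p => ?_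
    exact norm_integral_le_integral_norm _
  have h4 := h2.mul h1 h3
  refine h4.congr_fun ?_ |> fun h => h
  intro p
  simp only [Function.comp_apply, one_mul]
  rw [log_unitEquiv]

/-- weighted exponents -/
def zd (δ : InfinitePlace K → ℝ) (w : ℂ) (v : InfinitePlace K) : ℂ :=
  (w - ((∑ v, δ v : ℝ) : ℂ) / 2) * (mult v : ℂ) / (Module.finrank ℚ K : ℂ) + (δ v : ℂ) / 2

/-- the weighted kernel -/
def FFd (δ b : InfinitePlace K → ℝ) (w : ℂ) (p : ℝ × (LogIdx K → ℝ)) : ℂ :=
  Complex.exp (w * p.1) * ((Real.exp (∑ v, δ v * ell K v p.2 / 2) : ℝ) : ℂ) *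
    ((Real.exp (-∑ v, b v * Real.exp (p.1 + ell K v p.2)) : ℝ) : ℂ)

lemma FFd_eq (δ b : InfinitePlace K → ℝ) (w : ℂ) (p : ℝ × (LogIdx K → ℝ)) :
    FFd K δ b w p = HH K (zd K δ w) b (logTE K p) := by
  unfold FFd HH
  rw [← Complex.exp_sum, Complex.ofReal_exp, Complex.ofReal_exp, ← Complex.exp_add,
    ← Complex.exp_add]
  congr 1
  rw [Finset.sum_sub_distrib]
  push_cast
  rw [← sub_eq_add_neg]
  congr 1
  · have h := sum_mult_logT K p
    have h3 : (Module.finrank ℚ K : ℂ) ≠ 0 := finrank_ne_zero_complex K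
    have e1 : ∀ v, zd K δ w v * (logTE K p v : ℂ)
        = (w - ((∑ v, δ v : ℝ) : ℂ) / 2) / (Module.finrank ℚ K : ℂ) *
          (((mult v : ℝ) * logT K p v : ℝ) : ℂ) + ((p.1 : ℂ) / 2) * (δ v : ℂ) +
          (δ v : ℂ) * ((ell K v p.2 : ℝ) : ℂ) / 2 := by
      intro v
      rw [logTE_apply, logT_apply]
      unfold zd
      push_cast
      ring
    simp_rw [e1]
    rw [Finset.sum_add_distrib, Finset.sum_add_distrib, ← Finset.mul_sum, ← Finset.mul_sum,
      ← Complex.ofReal_sum, h, ← Complex.ofReal_sum]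
    push_cast
    field_simp
    ring
  · refine Finset.sum_congr rfl fun v _ => ?_
    rw [logTE_apply, logT_apply]
    push_cast
    rfl

lemma integrable_FFd (δ b : InfinitePlace K → ℝ) (w : ℂ) (hz : ∀ v, 0 < (zd K δ w v).re)
    (hb : ∀ v, 0 < b v) : Integrable (FFd K δ b w) := by
  have h1 : FFd K δ b w = fun p => HH K (zd K δ w) b (logTE K p) := funext (FFd_eq K δ b w)
  rw [h1]
  have h2 := integrable_HH K (zd K δ w) hz _ hb
  have h3 : Integrable (HH K (zd K δ w) b)
      ((volume : Measure (ℝ × (LogIdx K → ℝ))).map (logTE K)) := by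
    rw [map_logTE]
    exact h2.smul_measure_nnreal
  exact ((logTE K).toHomeomorph.measurableEmbedding.integrable_map_iff).mp h3

lemma integral_FFd (δ b : InfinitePlace K → ℝ) (w : ℂ) (hz : ∀ v, 0 < (zd K δ w v).re)
    (hb : ∀ v, 0 < b v) :
    ∫ p, FFd K δ b w p = ((cst K : ℝ) : ℂ) * ∏ v : InfinitePlace K,
      ((1 / (b v : ℂ)) ^ (zd K δ w v) * Complex.Gamma (zd K δ w v)) := by
  simp_rw [FFd_eq]
  have h1 := (logTE K).toHomeomorph.measurableEmbedding.integral_map
    (μ := (volume : Measure (ℝ × (LogIdx K → ℝ)))) (HH K (zd K δ w) b)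
  have h2 : (volume : Measure (ℝ × (LogIdx K → ℝ))).map (logTE K).toHomeomorph
      = cst K • volume := map_logTE K
  rw [h2] at h1
  have h3 : ∫ p, HH K (zd K δ w) b (logTE K p)
      = ∫ y, HH K (zd K δ w) b y ∂(cst K • volume) := h1.symm
  rw [h3, integral_smul_nnreal_measure, integral_HH K (zd K δ w) hz _ hb]
  rw [NNReal.smul_def, Complex.real_smul]

/-- the substitution `w = n s / 2 + (∑ δ) / 2` -/
lemma zd_half (δ : InfinitePlace K → ℝ) (s : ℂ) (v : InfinitePlace K) :
    zd K δ ((Module.finrank ℚ K : ℂ) * s / 2 + ((∑ v, δ v : ℝ) : ℂ) / 2) v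
      = (mult v : ℂ) * s / 2 + (δ v : ℂ) / 2 := by
  unfold zd
  have := finrank_ne_zero_complex K
  field_simp
  ring

lemma mult_half_re (δ : InfinitePlace K → ℝ) (hδ : ∀ v, 0 ≤ δ v) {s : ℂ} (hs : 0 < s.re)
    (v : InfinitePlace K) : 0 < ((mult v : ℂ) * s / 2 + (δ v : ℂ) / 2).re := by
  have h1 : (mult v : ℂ) * s / 2 + (δ v : ℂ) / 2
      = s * (((mult v : ℝ) / 2 : ℝ) : ℂ) + ((δ v / 2 : ℝ) : ℂ) := by
    push_cast; ring
  rw [h1, Complex.add_re, Complex.re_mul_ofReal, Complex.ofReal_re]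
  have h2 := mult_pos_real K v
  have h3 := hδ v
  have h4 : 0 < s.re * ((mult v : ℝ) / 2) := by positivity
  linarith

end Pool.Agent.Helper4
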