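import Mathlib
import Pool.Agent.helper4.Unfold
import Pool.Agent.helper4.HThetaPair
import Pool.Agent.helper4.RayChar

/-! # Partial L-functions of quadratic ray class characters -/

open MeasureTheory Filter Topology Set

noncomputable section

namespace Pool.Agent.Helper4

open NumberField NumberField.Units NumberField.InfinitePlace NumberField.mixedEmbedding
  NumberField.Units.dirichletUnitTheorem nonZeroDivisors

variable (K : Type*) [Field K] [NumberField K]

open scoped Classical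

variable (b : (Ideal (𝓞 K))⁰)

/-- the integer with given coordinates in an ideal -/
def eltO (m : index K → ℤ) : 𝓞 K := (elt_mem K b m).choose

lemma eltO_coe (m : index K → ℤ) : ((eltO K b m : 𝓞 K) : K) = elt K b m :=
  (elt_mem K b m).choose_spec.2

lemma elt_add (m k : index K → ℤ) : elt K b (m + k) = elt K b m + elt K b k := by
  unfold elt
  rw [← Finset.sum_add_distrib]
  refine Finset.sum_congr rfl fun i _ => ?_
  rw [Pi.add_apply, add_smul]

lemma elt_smul (M : ℤ) (m : index K → ℤ) : elt K b (M • m) = M * elt K b m := by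
  unfold elt
  rw [Finset.mul_sum]
  refine Finset.sum_congr rfl fun i _ => ?_
  rw [Pi.smul_apply, smul_assoc, zsmul_eq_mul]

lemma eltO_add_smul (m k : index K → ℤ) (M : ℕ) :
    eltO K b (m + (M : ℤ) • k) = eltO K b m + M * eltO K b k := by
  apply RingOfIntegers.coe_injective
  have h1 : ((eltO K b (m + (M : ℤ) • k) : 𝓞 K) : K)
      = ((eltO K b m : 𝓞 K) : K) + M * ((eltO K b k : 𝓞 K) : K) := by
    rw [eltO_coe, eltO_coe, eltO_coe, elt_add, elt_smul]
    push_cast
    rfl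
  simp only [RingOfIntegers.coe_eq_algebraMap, map_add, map_mul, map_natCast] at h1 ⊢
  exact h1

lemma eltO_zero : eltO K b 0 = 0 := by
  apply RingOfIntegers.coe_injective
  have h1 : ((eltO K b 0 : 𝓞 K) : K) = 0 := by
    rw [eltO_coe]; simp [elt]
  rw [← RingOfIntegers.coe_eq_algebraMap, h1, map_zero]

variable {K}
variable (R : Finset (RP K))

/-- coordinates of the real places in `R` -/
def Jset : Finset (index K) := R.map ⟨Sum.inl, Sum.inl_injective⟩

lemma card_Jset : (Jset R).card = R.card := Finset.card_map _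

/-- indicator of the places in `R` -/
def delta (v : InfinitePlace K) : ℝ := if h : IsReal v then (if (⟨v, h⟩ : RP K) ∈ R then 1 else 0) else 0

lemma delta_nonneg (v : InfinitePlace K) : 0 ≤ delta R v := by
  unfold delta
  split_ifs <;> norm_num

lemma delta_mul_sum (g : InfinitePlace K → ℝ) :
    ∑ v, delta R v * g v = ∑ w ∈ R, g w.1 := by
  rw [sum_places' K]
  have h1 : ∑ w : {w : InfinitePlace K // IsComplex w}, delta R w.1 * g w.1 = 0 := by
    apply Finset.sum_eq_zero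
    intro w _
    unfold delta
    rw [dif_neg (not_isReal_iff_isComplex.mpr w.2), zero_mul]
  have h2 : ∀ w : {w : InfinitePlace K // IsReal w}, delta R w.1 * g w.1
      = if w ∈ R then g w.1 else 0 := by
    intro w
    unfold delta
    rw [dif_pos w.2]
    split_ifs <;> simp
  rw [h1, add_zero, Finset.sum_congr rfl (fun w _ => h2 w), Finset.sum_ite_mem, Finset.univ_inter]

lemma sum_delta : ∑ v, delta R v = R.card := by
  have := delta_mul_sum R (fun _ => 1)
  simp only [mul_one, Finset.sum_const, nsmul_eq_mul] at this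
  exact this

variable (K)

lemma tt_BB (m : index K → ℤ) (t : ℝ) (u : LogIdx K → ℝ) :
    tt (BB K b) (Jset R) (lam K) t u (castVec m)
      = (∏ w ∈ R, (Real.exp (ell K w.1 u / 2) * rv w (elt K b m))) *
        Real.exp (-Real.pi * (t * QQ K (elt K b m) u)) := by
  unfold tt pf
  rw [quad_BB, Jset, Finset.prod_map]
  congr 1
  refine Finset.prod_congr rfl fun w _ => ?_
  rw [BB_mulVec]
  simp only [Function.Embedding.coeFn_mk]
  rw [stdBasis_apply_isReal, mixed_fst]
  rfl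

/-- the kernel -/
def Ker (x : K) (w : ℂ) (p : ℝ × (LogIdx K → ℝ)) : ℂ :=
  Complex.exp (w * p.1) * ((∏ v ∈ R, (Real.exp (ell K v.1 p.2 / 2) * v.1 x) : ℝ) : ℂ) *
    ((Real.exp (-Real.pi * (Real.exp p.1 * QQ K x p.2)) : ℝ) : ℂ)

lemma Ker_eq (x : K) (w : ℂ) (p : ℝ × (LogIdx K → ℝ)) :
    Ker K R x w p = ((∏ v ∈ R, v.1 x : ℝ) : ℂ) *
      FFd K (delta R) (fun v => Real.pi * (v x) ^ 2) w p := by
  unfold Ker FFd
  have h1 : ∏ v ∈ R, (Real.exp (ell K v.1 p.2 / 2) * v.1 x)
      = (∏ v ∈ R, v.1 x) * Real.exp (∑ v, delta R v * ell K v p.2 / 2) := by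
    rw [Finset.prod_mul_distrib, ← Real.exp_sum]
    have h2 := delta_mul_sum R (fun v => ell K v p.2 / 2)
    have h3 : ∑ v, delta R v * ell K v p.2 / 2 = ∑ v, delta R v * (ell K v p.2 / 2) :=
      Finset.sum_congr rfl fun v _ => by ring
    rw [h3, h2]
    ring
  have h4 : -Real.pi * (Real.exp p.1 * QQ K x p.2)
      = -∑ v, Real.pi * (v x) ^ 2 * Real.exp (p.1 + ell K v p.2) := by
    unfold QQ
    rw [neg_mul, Finset.mul_sum, Finset.mul_sum]
    congr 1
    refine Finset.sum_congr rfl fun v _ => ?_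
    rw [Real.exp_add]
    ring
  rw [h1, h4]
  push_cast
  ring

lemma Ker_unit (x : K) (w : ℂ) (ε : (𝓞 K)ˣ) (a : ℝ) (u : LogIdx K → ℝ) :
    Ker K R ((ε : K) * x) w (a, u) = Ker K R x w (a, u + logEmbedding K (Additive.ofMul ε)) := by
  unfold Ker
  simp only
  rw [QQ_unit_mul]
  congr 3
  refine Finset.prod_congr rfl fun v _ => ?_
  have h1 : v.1 (ε : K) = Real.exp (ell K v.1 (logEmbedding K (Additive.ofMul ε)) / 2) := by
    rw [ell_logEmbedding]
    have hpos : 0 < v.1 (ε : K) := NumberField.Units.pos_at_place ε v.1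
    rw [show 2 * Real.log (v.1 (ε : K)) / 2 = Real.log (v.1 (ε : K)) by ring, Real.exp_log hpos]
  rw [map_mul, h1, map_add, add_div, Real.exp_add]
  ring

/-- the relation between the coefficients -/
def CharRel (d : 𝓞 K) (M : ℕ) (χ : 𝓞 K → ℂ) : Prop :=
  2 ≤ M ∧ (∀ q : Ideal (𝓞 K), q.IsPrime → (M : 𝓞 K) ∉ q → (2 : 𝓞 K) ∉ q ∧ d ∉ q) ∧
    (∀ x y, χ (x + M * y) = χ x) ∧ (∀ x, ‖χ x‖ ≤ 1) ∧
      χ 0 = 0 ∧ ∀ x : 𝓞 K, CC d M x = χ x * ∏ w ∈ R, sgv w (x : K)

variable (d : 𝓞 K) (M : ℕ) (χ : 𝓞 K → ℂ) (hχ : CharRel K R d M χ)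

include hχ in
lemma coef_mul (x : 𝓞 K) :
    χ x * ((∏ w ∈ R, rv w (x : K) : ℝ) : ℂ) = CC d M x * ((∏ w ∈ R, w.1 (x : K) : ℝ) : ℂ) := by
  rw [hχ.2.2.2.2.2 x, mul_assoc]
  congr 1
  push_cast
  rw [← Finset.prod_mul_distrib]
  refine Finset.prod_congr rfl fun w _ => ?_
  rw [← abs_rv]
  exact (sgv_mul_abs w (x : K)).symm

/-- coefficient in coordinates -/
def acoef (m : index K → ℤ) : ℂ := χ (eltO K b m)

include hχ in
lemma norm_acoef (m : index K → ℤ) : ‖acoef K b χ m‖ ≤ 1 := hχ.2.2.2.1 _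

include hχ in
lemma acoef_per (m k : index K → ℤ) : acoef K b χ (m + (M : ℤ) • k) = acoef K b χ m := by
  unfold acoef
  rw [eltO_add_smul]
  exact hχ.2.2.1 _ _

variable [NeZero M]

/-- the FE-pair of an ideal and a character -/
def charPair : WeakFEPair ℂ :=
  hPair (BB K b) (BB_det K b) (Jset R) (lam K) (DD K) (DD_bounded K) (DD_measurable K) (sum_lam K)
    M (acoef K b χ) (norm_acoef K b R d M χ hχ) (acoef_per K b R d M χ hχ)

lemma eltO_eq (m : {m : index K → ℤ // m ≠ 0}) : eltO K b m.1 = (coordEquiv K b m).1 := by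
  apply RingOfIntegers.coe_injective
  rw [← RingOfIntegers.coe_eq_algebraMap, ← RingOfIntegers.coe_eq_algebraMap, eltO_coe,
    coordEquiv_coe]

include hχ in
lemma mellinTerm_char (w : ℂ) (m : {m : index K → ℤ // m ≠ 0}) (a : ℝ) :
    Real.exp a • ((((Real.exp a : ℝ) : ℂ) ^ (w - 1)) •
      (acoef K b χ m.1 * ((ttI (BB K b) (Jset R) (lam K) (DD K) (castVec m.1) (Real.exp a) : ℝ) : ℂ)))
      = ∫ u in DD K, CC d M (coordEquiv K b m).1 * Ker K R ((coordEquiv K b m).1 : K) w (a, u) := by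
  set x : 𝓞 K := (coordEquiv K b m).1 with hx
  have hxe : (x : K) = elt K b m.1 := coordEquiv_coe K b m
  unfold ttI acoef
  rw [eltO_eq, ← hx, cpow_exp, Complex.real_smul, smul_eq_mul, ← mul_assoc, Complex.ofReal_exp,
    ← Complex.exp_add]
  have e1 : (a : ℂ) + (w - 1) * a = w * a := by ring
  rw [e1]
  have e2 : (((∫ u in DD K, tt (BB K b) (Jset R) (lam K) (Real.exp a) u (castVec m.1) : ℝ)) : ℂ)
      = ∫ u in DD K, ((tt (BB K b) (Jset R) (lam K) (Real.exp a) u (castVec m.1) : ℝ) : ℂ) :=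
    (integral_ofReal (𝕜 := ℂ)).symm
  rw [e2, ← integral_const_mul, ← integral_const_mul]
  congr 1
  ext u
  rw [tt_BB, ← hxe]
  unfold Ker
  have h3 := coef_mul K R d M χ hχ x
  have h4 : (∏ v ∈ R, (Real.exp (ell K v.1 u / 2) * rv v (x : K)))
      = (∏ v ∈ R, Real.exp (ell K v.1 u / 2)) * ∏ v ∈ R, rv v (x : K) :=
    Finset.prod_mul_distrib
  have h5 : (∏ v ∈ R, (Real.exp (ell K v.1 u / 2) * v.1 (x : K)))
      = (∏ v ∈ R, Real.exp (ell K v.1 u / 2)) * ∏ v ∈ R, v.1 (x : K) :=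
    Finset.prod_mul_distrib
  simp only
  rw [h4, h5]
  push_cast at h3 ⊢
  linear_combination (Complex.exp (w * a) * (∏ v ∈ R, Complex.exp ((ell K v.1 u : ℂ) / 2)) *
    Complex.exp (-(Real.pi : ℂ) * (Complex.exp a * (QQ K (x : K) u : ℂ)))) * h3

/-- the integrals attached to elements of the ideal -/
def TT (w : ℂ) (x : 𝓞 K) (a : ℝ) : ℂ := ∫ u in DD K, CC d M x * Ker K R (x : K) w (a, u)

omit [NeZero M] in
lemma region (w : ℂ) (hw : (Module.finrank ℚ K : ℝ) / 2 + (R.card : ℝ) / 2 < w.re) :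
    (Fintype.card (index K) : ℝ) / 2 + ((Jset R).card : ℝ) / 2 < w.re := by
  rw [card_index, card_Jset]; exact hw

lemma hasSum_NZ_char {w : ℂ} (hw : (Module.finrank ℚ K : ℝ) / 2 + (R.card : ℝ) / 2 < w.re) :
    HasSum (fun x : NZ K b => ∫ a, TT K R d M w x.1 a) ((charPair K b R d M χ hχ).Λ w) := by
  have h := hasSum_mellin_ttI (BB K b) (BB_det K b) (Jset R) (lam K) (DD K) (DD_bounded K)
    (DD_measurable K) (sum_lam K) M (acoef K b χ) (norm_acoef K b R d M χ hχ)
    (acoef_per K b R d M χ hχ) (w := w) (region K R w hw)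
  rw [← (coordEquiv K b).hasSum_iff]
  refine h.congr_fun ?_ |> fun h => h
  intro m
  rw [← integral_exp_subst]
  simp only [Function.comp_apply]
  congr 1
  ext a
  exact (mellinTerm_char K b R d M χ hχ w m a).symm

include hχ in
lemma summable_NZ_char {w : ℂ} (hw : (Module.finrank ℚ K : ℝ) / 2 + (R.card : ℝ) / 2 < w.re) :
    Summable (fun x : NZ K b => ∫ a, ‖TT K R d M w x.1 a‖) := by
  have h := summable_mellin_ttI (BB K b) (BB_det K b) (Jset R) (lam K) (DD K) (DD_bounded K)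
    (acoef K b χ) (norm_acoef K b R d M χ hχ) (w := w) (region K R w hw)
  rw [← (coordEquiv K b).summable_iff]
  refine h.congr ?_
  intro m
  rw [← integral_exp_subst]
  simp only [Function.comp_apply]
  congr 1
  ext a
  have h2 := mellinTerm_char K b R d M χ hχ w m a
  unfold TT
  rw [← h2, _root_.norm_smul (Real.exp a), Real.norm_eq_abs,
    abs_of_pos (Real.exp_pos _), smul_eq_mul]

omit [NeZero M] in
lemma CC_unit_mul (hM : 2 ≤ M) (x : 𝓞 K) (ε : (𝓞 K)ˣ) : CC d M ((ε : 𝓞 K) * x) = CC d M x := by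
  rw [CC_mul d M hM]
  have h1 : CC d M (ε : 𝓞 K) = 1 := by
    unfold CC
    have h2 : IsCoprime (ε : 𝓞 K) (M : 𝓞 K) :=
      ⟨((ε⁻¹ : (𝓞 K)ˣ) : 𝓞 K), 0, by rw [zero_mul, add_zero]; exact Units.inv_mul ε⟩
    rw [if_pos h2, Ideal.span_singleton_eq_top.mpr ε.isUnit, ← Ideal.one_eq_top, jac_one]
  rw [h1, one_mul]

omit [NeZero M] in
lemma TT_unit (hM : 2 ≤ M) (w : ℂ) (x : 𝓞 K) (ε : (𝓞 K)ˣ) (a : ℝ) :
    TT K R d M w ((ε : 𝓞 K) * x) a = ∫ u in DD K, CC d M x *
      Ker K R (x : K) w (a, u + logEmbedding K (Additive.ofMul ε)) := by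
  unfold TT
  congr 1
  ext u
  rw [CC_unit_mul K d M hM]
  have h1 : (((ε : 𝓞 K) * x : 𝓞 K) : K) = (ε : K) * (x : K) := map_mul (algebraMap (𝓞 K) K) _ _
  rw [h1, Ker_unit]

lemma zd_pos {s : ℂ} (hs : 0 < s.re) (v : InfinitePlace K) :
    0 < (zd K (delta R) ((Module.finrank ℚ K : ℂ) * s / 2 + ((∑ v, delta R v : ℝ) : ℂ) / 2) v).re := by
  rw [zd_half]
  exact mult_half_re K (delta R) (delta_nonneg R) hs v

lemma integrable_Ker {x : K} (hx : x ≠ 0) {s : ℂ} (hs : 0 < s.re) :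
    Integrable (Ker K R x ((Module.finrank ℚ K : ℂ) * s / 2 + ((∑ v, delta R v : ℝ) : ℂ) / 2)) := by
  have h1 : Ker K R x ((Module.finrank ℚ K : ℂ) * s / 2 + ((∑ v, delta R v : ℝ) : ℂ) / 2)
      = fun p => ((∏ v ∈ R, v.1 x : ℝ) : ℂ) * FFd K (delta R) (fun v => Real.pi * (v x) ^ 2)
        ((Module.finrank ℚ K : ℂ) * s / 2 + ((∑ v, delta R v : ℝ) : ℂ) / 2) p :=
    funext (Ker_eq K R x _)
  rw [h1]
  refine Integrable.const_mul ?_ _
  refine integrable_FFd K _ _ _ (zd_pos K R hs) fun v => ?_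
  have : 0 < v x := by rw [InfinitePlace.pos_iff]; exact hx
  positivity

/-- Gamma factor -/
def gamR (s : ℂ) : ℂ := ∏ v : InfinitePlace K,
  Complex.Gamma ((mult v : ℂ) * s / 2 + (delta R v : ℂ) / 2)

/-- power of pi -/
def piR (s : ℂ) : ℂ :=
  Complex.exp (-(((Module.finrank ℚ K : ℂ) * s / 2 + (R.card : ℂ) / 2) * Real.log Real.pi))

lemma integral_Ker {x : K} (hx : x ≠ 0) {s : ℂ} (hs : 0 < s.re) :
    ∫ p, Ker K R x ((Module.finrank ℚ K : ℂ) * s / 2 + ((∑ v, delta R v : ℝ) : ℂ) / 2) p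
      = ((cst K : ℝ) : ℂ) * (piR K R s * gamR K R s *
        Complex.exp (-(s * Real.log |(Algebra.norm ℚ x : ℝ)|))) := by
  have hvpos : ∀ v : InfinitePlace K, 0 < v x := fun v => by rw [InfinitePlace.pos_iff]; exact hx
  simp_rw [Ker_eq]
  rw [integral_const_mul, integral_FFd K _ _ _ (zd_pos K R hs) (fun v => by
    have := hvpos v
    positivity)]
  rw [mul_left_comm]
  congr 1
  rw [Finset.prod_mul_distrib]
  have h1 : ∏ v : InfinitePlace K, Complex.Gamma (zd K (delta R)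
      ((Module.finrank ℚ K : ℂ) * s / 2 + ((∑ v, delta R v : ℝ) : ℂ) / 2) v) = gamR K R s := by
    unfold gamR
    exact Finset.prod_congr rfl fun v _ => by rw [zd_half]
  have h2 : ((∏ v ∈ R, v.1 x : ℝ) : ℂ)
      = Complex.exp (((∑ v, delta R v * Real.log (v x) : ℝ)) : ℂ) := by
    rw [delta_mul_sum R (fun v => Real.log (v x)), ← Complex.ofReal_exp, Real.exp_sum]
    congr 1
    exact Finset.prod_congr rfl fun v _ => (Real.exp_log (hvpos v.1)).symm
  have h3 : ∏ v : InfinitePlace K, (1 / ((Real.pi * (v x) ^ 2 : ℝ) : ℂ)) ^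
      (zd K (delta R) ((Module.finrank ℚ K : ℂ) * s / 2 + ((∑ v, delta R v : ℝ) : ℂ) / 2) v)
      = piR K R s * Complex.exp (-(s * Real.log |(Algebra.norm ℚ x : ℝ)|)) *
        Complex.exp (-(((∑ v, delta R v * Real.log (v x) : ℝ)) : ℂ)) := by
    have h4 : ∀ v : InfinitePlace K, (1 / ((Real.pi * (v x) ^ 2 : ℝ) : ℂ)) ^
      (zd K (delta R) ((Module.finrank ℚ K : ℂ) * s / 2 + ((∑ v, delta R v : ℝ) : ℂ) / 2) v)
        = Complex.exp (-(((mult v : ℂ) * s / 2 + (delta R v : ℂ) / 2) * Real.log Real.pi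
          + s * (((mult v : ℝ) * Real.log (v x) : ℝ) : ℂ)
          + ((delta R v * Real.log (v x) : ℝ) : ℂ))) := by
      intro v
      have hv := hvpos v
      have hb : 0 < Real.pi * (v x) ^ 2 := by positivity
      rw [one_div_cpow_eq _ hb, zd_half, Real.log_mul Real.pi_ne_zero (by positivity),
        Real.log_pow]
      congr 1
      push_cast
      ring
    simp_rw [h4]
    rw [← Complex.exp_sum, piR, ← Complex.exp_add, ← Complex.exp_add]
    congr 1
    rw [Finset.sum_neg_distrib, Finset.sum_add_distrib, Finset.sum_add_distrib, ← Finset.mul_sum,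
      ← Complex.ofReal_sum, ← Complex.ofReal_sum, sum_mult_log_place K x hx]
    have h5 : ∑ v : InfinitePlace K, ((mult v : ℂ) * s / 2 + (delta R v : ℂ) / 2) *
        (Real.log Real.pi : ℂ)
        = ((Module.finrank ℚ K : ℂ) * s / 2 + (R.card : ℂ) / 2) * Real.log Real.pi := by
      have h6 : ∑ v : InfinitePlace K, (mult v : ℂ) = (Module.finrank ℚ K : ℂ) := by
        exact_mod_cast InfinitePlace.sum_mult_eq (K := K)
      have h7 : ∑ v : InfinitePlace K, (delta R v : ℂ) = (R.card : ℂ) := by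
        exact_mod_cast sum_delta R
      rw [← Finset.sum_mul, Finset.sum_add_distrib, ← h6, ← h7, Finset.sum_mul, Finset.sum_div,
        Finset.sum_div]
    rw [h5]
    ring
  rw [h1, h2, h3]
  have h8 : Complex.exp (((∑ v, delta R v * Real.log (v x) : ℝ)) : ℂ) *
      Complex.exp (-(((∑ v, delta R v * Real.log (v x) : ℝ)) : ℂ)) = 1 := by
    rw [← Complex.exp_add, add_neg_cancel, Complex.exp_zero]
  calc _ = piR K R s * gamR K R s * Complex.exp (-(s * Real.log |(Algebra.norm ℚ x : ℝ)|)) *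
        (Complex.exp (((∑ v, delta R v * Real.log (v x) : ℝ)) : ℂ) *
        Complex.exp (-(((∑ v, delta R v * Real.log (v x) : ℝ)) : ℂ))) := by ring
    _ = _ := by rw [h8, mul_one]

/-- Sum over the ideals of a class. -/
lemma hasSum_ideals_char {s : ℂ} (hs : 1 < s.re) :
    HasSum (fun I : JJ K b => (Nat.card (torsion K) : ℂ) * (CC d M (gen K b I) *
      (((cst K : ℝ) : ℂ) * (piR K R s * gamR K R s *
        Complex.exp (-(s * Real.log |(Algebra.norm ℚ (gen K b I : K) : ℝ)|))))))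
      ((charPair K b R d M χ hχ).Λ
        ((Module.finrank ℚ K : ℂ) * s / 2 + ((∑ v, delta R v : ℝ) : ℂ) / 2)) := by
  set w : ℂ := (Module.finrank ℚ K : ℂ) * s / 2 + ((∑ v, delta R v : ℝ) : ℂ) / 2 with hw
  have hM : 2 ≤ M := hχ.1
  have hs0 : 0 < s.re := by linarith
  have hwre : (Module.finrank ℚ K : ℝ) / 2 + (R.card : ℝ) / 2 < w.re := by
    have h1 : w = s * (((Module.finrank ℚ K : ℝ) / 2 : ℝ) : ℂ)
        + (((∑ v, delta R v) / 2 : ℝ) : ℂ) := by
      rw [hw]; push_cast; ring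
    rw [h1, Complex.add_re, Complex.re_mul_ofReal, Complex.ofReal_re, sum_delta]
    have := finrank_pos_real K
    have h2 : 0 < (Module.finrank ℚ K : ℝ) / 2 := by positivity
    nlinarith
  have hs1 := (idealUnitEquiv K b).summable_iff.mpr (summable_NZ_char K b R d M χ hχ hwre)
  have hh1 := (idealUnitEquiv K b).hasSum_iff.mpr (hasSum_NZ_char K b R d M χ hχ hwre)
  have hval : ∀ p : JJ K b × (𝓞 K)ˣ, ∀ a, TT K R d M w ((idealUnitEquiv K b) p).1 a
      = ∫ u in DD K, CC d M (gen K b p.1) *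
      Ker K R (gen K b p.1 : K) w (a, u + logEmbedding K (Additive.ofMul p.2)) := by
    intro p a
    exact TT_unit K R d M hM w (gen K b p.1) p.2 a
  have hs2 : Summable fun p : JJ K b × (𝓞 K)ˣ => ∫ a, ‖∫ u in DD K, CC d M (gen K b p.1) *
      Ker K R (gen K b p.1 : K) w (a, u + logEmbedding K (Additive.ofMul p.2))‖ := by
    refine hs1.congr fun p => ?_
    simp only [Function.comp_apply]
    congr 1
    ext a
    rw [hval]
  have hh2 : HasSum (fun p : JJ K b × (𝓞 K)ˣ => ∫ a, ∫ u in DD K, CC d M (gen K b p.1) *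
      Ker K R (gen K b p.1 : K) w (a, u + logEmbedding K (Additive.ofMul p.2)))
      ((charPair K b R d M χ hχ).Λ w) := by
    refine hh1.congr_fun ?_ |> fun h => h
    intro p
    simp only [Function.comp_apply]
    congr 1
    ext a
    rw [hval]
  refine hh2.prod_fiberwise fun I => ?_
  have hgen := gen_coe_ne_zero K b I
  have h3 : Integrable (fun p => CC d M (gen K b I) * Ker K R (gen K b I : K) w p) :=
    (integrable_Ker K R hgen hs0).const_mul _
  have h4 : Summable fun ε : (𝓞 K)ˣ => ∫ a, ‖∫ u in DD K, CC d M (gen K b I) *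
      Ker K R (gen K b I : K) w (a, u + logEmbedding K (Additive.ofMul ε))‖ :=
    hs2.comp_injective (i := fun ε : (𝓞 K)ˣ => ((I, ε) : JJ K b × (𝓞 K)ˣ))
      (fun ε ε' h => (Prod.ext_iff.mp h).2)
  have h5 := hasSum_unfold_units K (fun p => CC d M (gen K b I) * Ker K R (gen K b I : K) w p)
    h3 h4
  rw [integral_const_mul, integral_Ker K R hgen hs0] at h5
  exact h5

end Pool.Agent.Helper4
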