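import Mathlib
import Pool.Agent.helper4.HeckeL
import Pool.Agent.helper4.Dedekind

/-! # Continuation of L-functions of quadratic characters -/

open MeasureTheory Filter Topology Set

noncomputable section

namespace Pool.Agent.Helper4

open NumberField NumberField.Units NumberField.InfinitePlace NumberField.mixedEmbedding
  NumberField.Units.dirichletUnitTheorem nonZeroDivisors UniqueFactorizationMonoid

variable {K : Type*} [Field K] [NumberField K]

open scoped Classical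

/-- the multiplicative coefficient of ideals -/
def cI (d : 𝓞 K) (M : ℕ) (a : Ideal (𝓞 K)) : ℂ :=
  if IsCoprime a (Ideal.span {(M : 𝓞 K)}) then jac d a else 0

lemma CC_eq_cI (d : 𝓞 K) (M : ℕ) (x : 𝓞 K) : CC d M x = cI d M (Ideal.span {x}) := by
  unfold CC cI
  rw [Ideal.isCoprime_span_singleton_iff]

lemma cI_mul (d : 𝓞 K) (M : ℕ) {a b : Ideal (𝓞 K)} (ha : a ≠ 0) (hb : b ≠ 0) :
    cI d M (a * b) = cI d M a * cI d M b := by
  unfold cI
  by_cases hx : IsCoprime a (Ideal.span {(M : 𝓞 K)})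
  · by_cases hy : IsCoprime b (Ideal.span {(M : 𝓞 K)})
    · rw [if_pos hx, if_pos hy, if_pos (hx.mul_left hy), jac_mul d ha hb]
    · rw [if_neg hy, if_neg (fun h => hy h.of_mul_left_right), mul_zero]
  · rw [if_neg hx, if_neg (fun h => hx h.of_mul_left_left), zero_mul]

lemma cI_one (d : 𝓞 K) (M : ℕ) : cI d M 1 = 1 := by
  unfold cI
  rw [if_pos isCoprime_one_left, jac_one]

lemma cI_sq {d : 𝓞 K} {M : ℕ}
    (hMq : ∀ q : Ideal (𝓞 K), q.IsPrime → (M : 𝓞 K) ∉ q → (2 : 𝓞 K) ∉ q ∧ d ∉ q)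
    {a : Ideal (𝓞 K)} (ha : IsCoprime a (Ideal.span {(M : 𝓞 K)})) :
    cI d M a * cI d M a = 1 := by
  unfold cI
  rw [if_pos ha]
  apply jac_sq
  intro q hq hqa
  apply (hMq q hq ?_).2
  intro hMmem
  have h1 : IsCoprime q (Ideal.span {(M : 𝓞 K)}) := by
    obtain ⟨c, rfl⟩ := hqa
    exact ha.of_mul_left_left
  rw [Ideal.isCoprime_iff_sup_eq] at h1
  apply hq.ne_top
  rw [← h1]
  symm
  rw [sup_eq_left, Ideal.span_singleton_le_iff_mem]
  exact hMmem

lemma norm_cI_le {d : 𝓞 K} {M : ℕ}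
    (hMq : ∀ q : Ideal (𝓞 K), q.IsPrime → (M : 𝓞 K) ∉ q → (2 : 𝓞 K) ∉ q ∧ d ∉ q)
    (a : Ideal (𝓞 K)) : ‖cI d M a‖ ≤ 1 := by
  by_cases ha : IsCoprime a (Ideal.span {(M : 𝓞 K)})
  · have h1 := cI_sq hMq ha
    have h2 : ‖cI d M a‖ * ‖cI d M a‖ = 1 := by rw [← norm_mul, h1, norm_one]
    have h3 : 0 ≤ ‖cI d M a‖ := norm_nonneg _
    nlinarith
  · unfold cI
    rw [if_neg ha, norm_zero]
    exact zero_le_one

/-- every ideal class contains an integral ideal prime to `M`. -/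
lemma exists_coprime_rep (M : ℕ) (hM : M ≠ 0) (C : ClassGroup (𝓞 K)) :
    ∃ b : (Ideal (𝓞 K))⁰, ClassGroup.mk0 b = C ∧
      IsCoprime (b : Ideal (𝓞 K)) (Ideal.span {(M : 𝓞 K)}) := by
  obtain ⟨b₀, hb₀⟩ := ClassGroup.mk0_surjective (C⁻¹)
  have hb0 : (b₀ : Ideal (𝓞 K)) ≠ 0 := nonZeroDivisors.coe_ne_zero b₀
  have hM0 : Ideal.span {(M : 𝓞 K)} ≠ 0 := by
    rw [Ne, Ideal.zero_eq_bot, Ideal.span_singleton_eq_bot]
    exact_mod_cast hM
  obtain ⟨a, ha⟩ := IsDedekindDomain.exists_sup_span_eq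
    (I := (b₀ : Ideal (𝓞 K)) * Ideal.span {(M : 𝓞 K)}) (J := (b₀ : Ideal (𝓞 K)))
    Ideal.mul_le_left (mul_ne_zero hb0 hM0)
  have hamem : a ∈ (b₀ : Ideal (𝓞 K)) := mem_of_sup_span ha
  by_cases ha0 : a = 0
  · -- then `(M) = 1`
    subst ha0
    have h1 : (b₀ : Ideal (𝓞 K)) * Ideal.span {(M : 𝓞 K)} = (b₀ : Ideal (𝓞 K)) * 1 := by
      rw [mul_one]
      conv_rhs => rw [← ha]
      rw [Ideal.span_singleton_eq_bot.mpr rfl, sup_bot_eq]
    have h2 := mul_left_cancel₀ hb0 h1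
    obtain ⟨b₁, hb₁⟩ := ClassGroup.mk0_surjective C
    exact ⟨b₁, hb₁, by rw [h2]; exact isCoprime_one_right⟩
  · have hdvd : (b₀ : Ideal (𝓞 K)) ∣ Ideal.span {a} := by
      rw [Ideal.dvd_span_singleton]; exact hamem
    obtain ⟨c, hc⟩ := hdvd
    have hspan0 : Ideal.span {a} ≠ 0 := by
      rw [Ne, Ideal.zero_eq_bot, Ideal.span_singleton_eq_bot]; exact ha0
    have hc0 : c ≠ 0 := by
      rintro rfl
      rw [mul_zero] at hc
      exact hspan0 hc
    set b : (Ideal (𝓞 K))⁰ := ⟨c, mem_nonZeroDivisors_of_ne_zero hc0⟩ with hb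
    refine ⟨b, ?_, ?_⟩
    · have h1 : ClassGroup.mk0 b₀ * ClassGroup.mk0 b = 1 := by
        rw [← map_mul, ClassGroup.mk0_eq_one_iff (b₀ * b).2]
        have : ((b₀ * b : (Ideal (𝓞 K))⁰) : Ideal (𝓞 K)) = Ideal.span {a} := hc.symm
        rw [this]
        exact ⟨⟨a, rfl⟩⟩
      rw [hb₀] at h1
      exact (inv_mul_eq_one.mp h1).symm
    · rw [Ideal.isCoprime_iff_sup_eq]
      have h2 : (b₀ : Ideal (𝓞 K)) * (c ⊔ Ideal.span {(M : 𝓞 K)}) = (b₀ : Ideal (𝓞 K)) * 1 := by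
        rw [mul_one, Ideal.mul_sup, ← hc, sup_comm]
        exact ha
      have h3 := mul_left_cancel₀ hb0 h2
      rw [hb]
      rw [h3, Ideal.one_eq_top]

variable (K)
variable (R : Finset (RP K))

/-- inverse Gamma factor -/
def igamR (s : ℂ) : ℂ := ∏ v : InfinitePlace K,
  (Complex.Gamma ((mult v : ℂ) * s / 2 + (delta R v : ℂ) / 2))⁻¹

lemma differentiable_igamR : Differentiable ℂ (igamR K R) := by
  unfold igamR
  refine Differentiable.fun_finsetProd fun v _ => ?_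
  have h := Complex.differentiable_one_div_Gamma
  have h2 : Differentiable ℂ (fun s : ℂ => (mult v : ℂ) * s / 2 + (delta R v : ℂ) / 2) := by
    fun_prop
  exact h.comp h2

lemma gamR_mul_igamR (s : ℂ) (hs : 0 < s.re) : gamR K R s * igamR K R s = 1 := by
  unfold gamR igamR
  rw [← Finset.prod_mul_distrib]
  apply Finset.prod_eq_one
  intro v _
  apply mul_inv_cancel₀
  apply Complex.Gamma_ne_zero_of_re_pos
  exact mult_half_re K (delta R) (delta_nonneg R) hs v

variable (b : (Ideal (𝓞 K))⁰) (d : 𝓞 K) (M : ℕ) (χ : 𝓞 K → ℂ) (hχ : CharRel K R d M χ)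
  [NeZero M]

/-- argument of the completed function -/
def wR (s : ℂ) : ℂ := (Module.finrank ℚ K : ℂ) * s / 2 + ((∑ v, delta R v : ℝ) : ℂ) / 2

/-- The entire function attached to an ideal class and a character. -/
def HCc (s : ℂ) : ℂ :=
  ((Nat.card (torsion K) : ℂ) * ((cst K : ℝ) : ℂ) * cI d M (b : Ideal (𝓞 K)))⁻¹ *
    (Ideal.absNorm (b : Ideal (𝓞 K)) : ℂ) ^ s *
    Complex.exp (((Module.finrank ℚ K : ℂ) * s / 2 + (R.card : ℂ) / 2) * Real.log Real.pi) *
    igamR K R s *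
    ((s - 1) * (charPair K b R d M χ hχ).Λ₀ (wR K R s)
      + 2 * ((charPair K b R d M χ hχ).ε * (charPair K b R d M χ hχ).g₀) /
        (Module.finrank ℚ K : ℂ))

lemma differentiable_HCc : Differentiable ℂ (HCc K R b d M χ hχ) := by
  unfold HCc
  have h1 := differentiable_igamR K R
  have h3 : Differentiable ℂ (fun s : ℂ => (charPair K b R d M χ hχ).Λ₀ (wR K R s)) :=
    (charPair K b R d M χ hχ).differentiable_Λ₀.comp (by unfold wR; fun_prop)
  have hb : (Ideal.absNorm (b : Ideal (𝓞 K)) : ℂ) ≠ 0 := by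
    exact_mod_cast (absNorm_pos K b).ne'
  have h4 : Differentiable ℂ (fun s : ℂ => (Ideal.absNorm (b : Ideal (𝓞 K)) : ℂ) ^ s) := by
    intro s
    exact (differentiableAt_id).const_cpow (Or.inl hb)
  fun_prop

omit [NeZero M] in
lemma CC_gen (I : JJ K b) : CC d M (gen K b I) = cI d M (I.1 : Ideal (𝓞 K)) * cI d M (b : Ideal (𝓞 K)) := by
  rw [CC_eq_cI, span_gen, cI_mul d M (coe_ne_bot K I.1) (coe_ne_bot K b)]

lemma HCc_eq (hb : IsCoprime (b : Ideal (𝓞 K)) (Ideal.span {(M : 𝓞 K)})) {s : ℂ} (hs : 1 < s.re) :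
    HasSum (fun I : JJ K b => cI d M (I.1 : Ideal (𝓞 K)) *
      (Ideal.absNorm (I.1 : Ideal (𝓞 K)) : ℂ) ^ (-s))
      (HCc K R b d M χ hχ s / (s - 1)) := by
  have h := hasSum_ideals_char K b R d M χ hχ hs
  have hs0 : 0 < s.re := by linarith
  have hcb : cI d M (b : Ideal (𝓞 K)) ≠ 0 := by
    intro h0
    have := cI_sq hχ.2.1 hb
    rw [h0, zero_mul] at this
    exact zero_ne_one this
  set A : ℂ := (Nat.card (torsion K) : ℂ) * ((cst K : ℝ) : ℂ) * piR K R s * gamR K R s *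
      (Ideal.absNorm (b : Ideal (𝓞 K)) : ℂ) ^ (-s) * cI d M (b : Ideal (𝓞 K)) with hA
  have hb : (Ideal.absNorm (b : Ideal (𝓞 K)) : ℂ) ≠ 0 := by
    exact_mod_cast (absNorm_pos K b).ne'
  have hgam : gamR K R s ≠ 0 := by
    intro h0
    have := gamR_mul_igamR K R s hs0
    rw [h0, zero_mul] at this
    exact zero_ne_one this
  have hA0 : A ≠ 0 := by
    rw [hA]
    refine mul_ne_zero (mul_ne_zero (mul_ne_zero (mul_ne_zero (mul_ne_zero
      (card_torsion_ne_zero K) (cst_ne_zero K)) (Complex.exp_ne_zero _)) hgam) ?_) hcb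
    rw [Ne, Complex.cpow_eq_zero_iff]
    tauto
  have h2 := h.mul_left A⁻¹
  have hs1 : s - 1 ≠ 0 := by
    intro h0
    have : s = 1 := by linear_combination h0
    rw [this] at hs
    simp at hs
  have h3 : HCc K R b d M χ hχ s / (s - 1)
      = A⁻¹ * (charPair K b R d M χ hχ).Λ (wR K R s) := by
    set P := charPair K b R d M χ hχ with hP
    have hn := finrank_ne_zero_complex K
    have hf0 : P.f₀ = 0 := by
      rw [hP]
      unfold charPair hPair acoef
      simp only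
      rw [eltO_zero, hχ.2.2.2.2.1, zero_mul, zero_mul]
    have hΛ : P.Λ (wR K R s) = P.Λ₀ (wR K R s)
          + 2 * (P.ε * P.g₀) / ((Module.finrank ℚ K : ℂ) * (s - 1)) := by
      rw [WeakFEPair.Λ, hf0, smul_zero, sub_zero, smul_eq_mul]
      by_cases hR : R = ∅
      · have hk : (P.k : ℂ) = (Module.finrank ℚ K : ℂ) / 2 := by
          have : P.k = (Fintype.card (index K) : ℝ) / 2 + ((Jset R).card : ℝ) := rfl
          rw [this, card_index, card_Jset, hR]
          push_cast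
          simp
        have hw : wR K R s = (Module.finrank ℚ K : ℂ) * s / 2 := by
          unfold wR
          rw [sum_delta, hR]
          simp
        rw [hk, hw]
        have e1 : (Module.finrank ℚ K : ℂ) / 2 - (Module.finrank ℚ K : ℂ) * s / 2
            = -((Module.finrank ℚ K : ℂ) * (s - 1) / 2) := by ring
        rw [e1]
        field_simp
        ring
      · have hg0 : P.g₀ = 0 := by
          rw [hP]
          unfold charPair hPair eJ
          simp only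
          rw [if_neg]
          · ring
          · intro h0
            apply hR
            rw [Jset, Finset.map_eq_empty] at h0
            exact h0
        rw [hg0]
        ring
    have hAinv : A⁻¹ = ((Nat.card (torsion K) : ℂ) * ((cst K : ℝ) : ℂ) *
        cI d M (b : Ideal (𝓞 K)))⁻¹ *
        (Ideal.absNorm (b : Ideal (𝓞 K)) : ℂ) ^ s *
        Complex.exp (((Module.finrank ℚ K : ℂ) * s / 2 + (R.card : ℂ) / 2) * Real.log Real.pi) *
        igamR K R s := by
      have e1 : (Ideal.absNorm (b : Ideal (𝓞 K)) : ℂ) ^ (-s)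
          = ((Ideal.absNorm (b : Ideal (𝓞 K)) : ℂ) ^ s)⁻¹ := Complex.cpow_neg _ _
      have e2 : piR K R s = (Complex.exp (((Module.finrank ℚ K : ℂ) * s / 2 + (R.card : ℂ) / 2) *
          Real.log Real.pi))⁻¹ := by
        rw [piR, Complex.exp_neg]
      have e3 : gamR K R s = (igamR K R s)⁻¹ :=
        eq_inv_of_mul_eq_one_left (gamR_mul_igamR K R s hs0)
      rw [hA, e1, e2, e3]
      simp only [mul_inv, inv_inv]
      ring
    rw [hΛ, hAinv, HCc, ← hP]
    generalize P.Λ₀ (wR K R s) = z1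
    generalize P.g₀ = z2
    generalize P.ε = z3
    field_simp
  rw [h3]
  refine h2.congr_fun ?_ |> fun h => h
  intro I
  rw [CC_gen, abs_norm_gen, natCast_cpow_neg _ (absNorm_pos K I.1)]
  have hI : (0 : ℝ) < Ideal.absNorm (I.1 : Ideal (𝓞 K)) := by exact_mod_cast absNorm_pos K I.1
  have hb' : (0 : ℝ) < Ideal.absNorm (b : Ideal (𝓞 K)) := by exact_mod_cast absNorm_pos K b
  have e5 : Complex.exp (-(s * Real.log ((Ideal.absNorm (I.1 : Ideal (𝓞 K)) : ℝ) *
      (Ideal.absNorm (b : Ideal (𝓞 K)) : ℝ))))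
      = Complex.exp (-(s * Real.log (Ideal.absNorm (I.1 : Ideal (𝓞 K))))) *
        (Ideal.absNorm (b : Ideal (𝓞 K)) : ℂ) ^ (-s) := by
    rw [natCast_cpow_neg _ (absNorm_pos K b), ← Complex.exp_add, Real.log_mul hI.ne' hb'.ne']
    congr 1
    push_cast
    ring
  rw [e5]
  have e6 : (Nat.card (torsion K) : ℂ) * (cI d M (I.1 : Ideal (𝓞 K)) * cI d M (b : Ideal (𝓞 K)) *
      (((cst K : ℝ) : ℂ) * (piR K R s * gamR K R s *
        (Complex.exp (-(s * Real.log (Ideal.absNorm (I.1 : Ideal (𝓞 K))))) *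
        (Ideal.absNorm (b : Ideal (𝓞 K)) : ℂ) ^ (-s)))))
      = A * (cI d M (I.1 : Ideal (𝓞 K)) *
        Complex.exp (-(s * Real.log (Ideal.absNorm (I.1 : Ideal (𝓞 K)))))) := by
    rw [hA]; ring
  rw [e6, ← mul_assoc, inv_mul_cancel₀ hA0, one_mul]

/-- representative of the inverse class -/
def repC (C : ClassGroup (𝓞 K)) : (Ideal (𝓞 K))⁰ :=
  (exists_coprime_rep (K := K) M (NeZero.ne M) C⁻¹).choose

lemma mk0_repC (C : ClassGroup (𝓞 K)) : ClassGroup.mk0 (repC K M C) = C⁻¹ :=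
  (exists_coprime_rep (K := K) M (NeZero.ne M) C⁻¹).choose_spec.1

lemma coprime_repC (C : ClassGroup (𝓞 K)) :
    IsCoprime (repC K M C : Ideal (𝓞 K)) (Ideal.span {(M : 𝓞 K)}) :=
  (exists_coprime_rep (K := K) M (NeZero.ne M) C⁻¹).choose_spec.2

/-- The entire function `(s - 1) L(s, χ)`. -/
def HL (s : ℂ) : ℂ := ∑ C : ClassGroup (𝓞 K), HCc K R (repC K M C) d M χ hχ s

theorem differentiable_HL : Differentiable ℂ (HL K R d M χ hχ) := by
  unfold HL
  exact Differentiable.fun_sum fun C _ => differentiable_HCc K R _ d M χ hχ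

theorem hasSum_HL {s : ℂ} (hs : 1 < s.re) :
    HasSum (fun I : (Ideal (𝓞 K))⁰ => cI d M (I : Ideal (𝓞 K)) *
      (Ideal.absNorm (I : Ideal (𝓞 K)) : ℂ) ^ (-s)) (HL K R d M χ hχ s / (s - 1)) := by
  unfold HL
  rw [Finset.sum_div]
  have h1 : ∀ C : ClassGroup (𝓞 K), HasSum (fun I : (Ideal (𝓞 K))⁰ =>
      if ClassGroup.mk0 I = C then cI d M (I : Ideal (𝓞 K)) *
        (Ideal.absNorm (I : Ideal (𝓞 K)) : ℂ) ^ (-s) else 0)
      (HCc K R (repC K M C) d M χ hχ s / (s - 1)) := by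
    intro C
    have h := HCc_eq K R (repC K M C) d M χ hχ (coprime_repC K M C) hs
    have h2 := (hasSum_subtype_iff_indicator (s := {I : (Ideal (𝓞 K))⁰ |
      ClassGroup.mk0 I * ClassGroup.mk0 (repC K M C) = 1})
      (f := fun I : (Ideal (𝓞 K))⁰ => cI d M (I : Ideal (𝓞 K)) *
        (Ideal.absNorm (I : Ideal (𝓞 K)) : ℂ) ^ (-s))).mp h
    refine h2.congr_fun ?_ |> fun h => h
    intro I
    have hiff : (I ∈ {I : (Ideal (𝓞 K))⁰ |
        ClassGroup.mk0 I * ClassGroup.mk0 (repC K M C) = 1}) ↔ ClassGroup.mk0 I = C := by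
      rw [Set.mem_ofPred_eq, mk0_repC, mul_inv_eq_one]
    by_cases hI : ClassGroup.mk0 I = C
    · rw [if_pos hI, Set.indicator_of_mem (hiff.mpr hI)]
    · rw [if_neg hI, Set.indicator_of_notMem (fun h => hI (hiff.mp h))]
  have h3 := hasSum_sum (s := Finset.univ) (fun C _ => h1 C)
  refine h3.congr_fun ?_ |> fun h => h
  intro I
  rw [Finset.sum_ite_eq]
  simp

end Pool.Agent.Helper4
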