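import Mathlib
import Pool.Agent.helper4.HeckeH
import Pool.Agent.helper4.LocalFactor
import Pool.Agent.helper4.HessMain

/-! # Euler products of quadratic L-functions and local factors -/

set_option linter.unusedSectionVars false

noncomputable section

namespace Pool.Agent.Helper4

open Filter Topology NumberField NumberField.InfinitePlace Module nonZeroDivisors IsDedekindDomain

variable {K : Type*} [Field K] [NumberField K]

open scoped Classical

/-! ### local factors as functions of `s` -/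

lemma one_sub_ne_zero (q : PK K) (ε : ℂ) (hε : ‖ε‖ ≤ 1) {s : ℂ} (hs : 0 < s.re) :
    1 - ε * (Ideal.absNorm q.asIdeal : ℂ) ^ (-s) ≠ 0 := by
  intro h
  have h1 := norm_cpow_lt_one q hs
  have h2 : ε * (Ideal.absNorm q.asIdeal : ℂ) ^ (-s) = 1 := by linear_combination -h
  have h3 : ‖ε * (Ideal.absNorm q.asIdeal : ℂ) ^ (-s)‖ = 1 := by rw [h2, norm_one]
  rw [norm_mul] at h3
  nlinarith [norm_nonneg ε, norm_nonneg ((Ideal.absNorm q.asIdeal : ℂ) ^ (-s))]

variable (K) in
/-- Euler factor of the Dedekind zeta function -/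
def zl (s : ℂ) (p : ℕ) : ℂ := locF (fun q : PK K => (Ideal.absNorm q.asIdeal : ℂ) ^ (-s)) p

lemma zl_eq {p : ℕ} [Fintype (Over K p)] (s : ℂ) :
    zl K s p = ∏ q : Over K p, (1 - (Ideal.absNorm q.1.asIdeal : ℂ) ^ (-s))⁻¹ := by
  unfold zl locF
  rw [finprod_eq_prod_of_fintype]

lemma zl_ne_zero {p : ℕ} (hp : p ≠ 0) {s : ℂ} (hs : 0 < s.re) : zl K s p ≠ 0 := by
  have := finite_Over (K := K) p hp
  have : Fintype (Over K p) := Fintype.ofFinite _
  rw [zl_eq, Finset.prod_ne_zero_iff]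
  intro q _
  apply inv_ne_zero
  have := one_sub_ne_zero q.1 1 (by simp) hs
  rwa [one_mul] at this

lemma differentiableAt_zl {p : ℕ} (hp : p ≠ 0) {s : ℂ} (hs : 0 < s.re) :
    DifferentiableAt ℂ (fun s => zl K s p) s := by
  have := finite_Over (K := K) p hp
  have : Fintype (Over K p) := Fintype.ofFinite _
  have h : (fun s => zl K s p)
      = fun s => ∏ q : Over K p, (1 - (Ideal.absNorm q.1.asIdeal : ℂ) ^ (-s))⁻¹ := by
    funext s
    rw [zl_eq]
  rw [h]
  refine DifferentiableAt.fun_finsetProd fun q _ => ?_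
  apply DifferentiableAt.fun_inv
  · apply DifferentiableAt.const_sub
    refine DifferentiableAt.const_cpow (differentiableAt_id.neg) (Or.inl ?_)
    have := two_le_absNorm q.1
    exact_mod_cast (by omega : Ideal.absNorm q.1.asIdeal ≠ 0)
  · have := one_sub_ne_zero q.1 1 (by simp) hs
    rwa [one_mul] at this

/-! ### Euler product of the quadratic L-function -/

variable (K) (R : Finset (RP K)) (d : 𝓞 K) (N : ℕ) (χ : 𝓞 K → ℂ) (hχ : CharRel K R d N χ) [NeZero N]

/-- Euler factor of the quadratic L-function -/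
def ll (s : ℂ) (p : ℕ) : ℂ :=
  locF (fun q : PK K => cI d N q.asIdeal * (Ideal.absNorm q.asIdeal : ℂ) ^ (-s)) p

include hχ in
lemma hasProd_ll {s : ℂ} (hs : 1 < s.re) :
    HasProd (fun p : Nat.Primes => ll K d N s p) (HL K R d N χ hχ s / (s - 1)) := by
  apply hasProd_locF
  apply hasProd_ideal _ _ _ _ (hasSum_HL K R d N χ hχ hs)
  · intro q
    rw [norm_mul]
    have h1 := norm_cpow_lt_one q (s := s) (by linarith)
    have h2 := norm_cI_le hχ.2.1 q.asIdeal
    nlinarith [norm_nonneg (cI d N q.asIdeal), norm_nonneg ((Ideal.absNorm q.asIdeal : ℂ) ^ (-s))]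
  · intro m
    rw [Multiset.prod_map_mul, ← cpow_prod, ← absNorm_prodM]
    congr 1
    induction m using Multiset.induction_on with
    | empty =>
      have : (prodM (0 : Multiset (PK K)) : Ideal (𝓞 K)) = 1 := by
        change (Multiset.map (fun q : PK K => q.asIdeal) 0).prod = 1
        simp
      rw [this, cI_one]
      simp
    | cons a m ih =>
      have : (prodM (a ::ₘ m) : Ideal (𝓞 K)) = a.asIdeal * (prodM m : Ideal (𝓞 K)) := by
        change (Multiset.map (fun q : PK K => q.asIdeal) (a ::ₘ m)).prod = _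
        rw [Multiset.map_cons, Multiset.prod_cons]
        rfl
      rw [this, cI_mul d N a.ne_bot (coe_ne_bot K (prodM m)), Multiset.map_cons, Multiset.prod_cons, ih]

variable {K R χ}

lemma isCoprime_iff (q : PK K) :
    IsCoprime q.asIdeal (Ideal.span {(N : 𝓞 K)}) ↔ (N : 𝓞 K) ∉ q.asIdeal := by
  rw [Ideal.isCoprime_iff_sup_eq]
  constructor
  · intro h hN
    apply q.isPrime.ne_top
    rw [← h]
    symm
    rw [sup_eq_left, Ideal.span_singleton_le_iff_mem]
    exact hN
  · intro h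
    by_contra hne
    have hmax : q.asIdeal.IsMaximal := q.isMaximal
    have h1 : q.asIdeal ⊔ Ideal.span {(N : 𝓞 K)} = q.asIdeal := (hmax.eq_of_le hne le_sup_left).symm
    rw [sup_eq_left, Ideal.span_singleton_le_iff_mem] at h1
    exact h h1

lemma natCast_mem_iff {p : ℕ} (hp : p.Prime) (q : PK K) (hq : (p : 𝓞 K) ∈ q.asIdeal) :
    (N : 𝓞 K) ∈ q.asIdeal ↔ p ∣ N := by
  constructor
  · intro h
    by_contra hne
    have hcop : Nat.Coprime p N := (Nat.Prime.coprime_iff_not_dvd hp).mpr hne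
    obtain ⟨a, b, hab⟩ := (Nat.isCoprime_iff_coprime.mpr hcop)
    apply q.isPrime.ne_top
    rw [Ideal.eq_top_iff_one]
    have h1 : ((a * (p : ℤ) + b * (N : ℤ) : ℤ) : 𝓞 K) = 1 := by rw [hab]; simp
    rw [← h1]
    push_cast
    exact q.asIdeal.add_mem (q.asIdeal.mul_mem_left _ hq) (q.asIdeal.mul_mem_left _ h)
  · rintro ⟨k, rfl⟩
    push_cast
    exact q.asIdeal.mul_mem_right _ hq

lemma ll_bad {p : ℕ} (hp : p.Prime) (hpN : p ∣ N) (s : ℂ) : ll K d N s p = 1 := by
  have := finite_Over (K := K) p hp.ne_zero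
  have : Fintype (Over K p) := Fintype.ofFinite _
  unfold ll locF
  rw [finprod_eq_prod_of_fintype]
  apply Finset.prod_eq_one
  intro q _
  have h : ¬ IsCoprime q.1.asIdeal (Ideal.span {(N : 𝓞 K)}) := by
    rw [isCoprime_iff, not_not, natCast_mem_iff N hp q.1 q.2]
    exact hpN
  unfold cI
  beta_reduce
  rw [if_neg h]
  simp

lemma ll_good {p : ℕ} (hp : p.Prime) (hpN : ¬ p ∣ N) (s : ℂ) : ll K d N s p
    = locF (fun q : PK K => chi d q.asIdeal * (Ideal.absNorm q.asIdeal : ℂ) ^ (-s)) p := by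
  have := finite_Over (K := K) p hp.ne_zero
  have : Fintype (Over K p) := Fintype.ofFinite _
  unfold ll locF
  rw [finprod_eq_prod_of_fintype, finprod_eq_prod_of_fintype]
  refine Finset.prod_congr rfl fun q _ => ?_
  have h : IsCoprime q.1.asIdeal (Ideal.span {(N : 𝓞 K)}) := by
    rw [isCoprime_iff, natCast_mem_iff N hp q.1 q.2]
    exact hpN
  unfold cI
  beta_reduce
  rw [if_pos h, jac_prime d q.1.ne_bot q.1.isPrime]

lemma exists_Over {p : ℕ} (hp : p.Prime) : Nonempty (Over K p) := by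
  have h1 : Ideal.span {(p : 𝓞 K)} ≠ ⊤ := by
    intro h
    have h2 := congrArg Ideal.absNorm h
    rw [Ideal.absNorm_span_natCast, Ideal.absNorm_top, RingOfIntegers.rank] at h2
    have h3 : 1 < p ^ finrank ℚ K := Nat.one_lt_pow (Module.finrank_pos (R := ℚ) (M := K)).ne' hp.one_lt
    omega
  obtain ⟨m, hm, hle⟩ := Ideal.exists_le_maximal _ h1
  have hmem : (p : 𝓞 K) ∈ m := hle (Ideal.mem_span_singleton_self _)
  have hne : m ≠ ⊥ := by
    rintro rfl
    rw [Ideal.mem_bot] at hmem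
    exact hp.ne_zero (by exact_mod_cast hmem)
  exact ⟨⟨⟨m, hm.isPrime, hne⟩, hmem⟩⟩

include hχ in
lemma good_of_not_dvd {p : ℕ} (hp : p.Prime) (hpN : ¬ p ∣ N) :
    p ≠ 2 ∧ ∀ q : PK K, (p : 𝓞 K) ∈ q.asIdeal → d ∉ q.asIdeal := by
  have h1 : ∀ q : PK K, (p : 𝓞 K) ∈ q.asIdeal → (2 : 𝓞 K) ∉ q.asIdeal ∧ d ∉ q.asIdeal := by
    intro q hq
    apply hχ.2.1 _ q.isPrime
    rw [natCast_mem_iff N hp q hq]
    exact hpN
  refine ⟨?_, fun q hq => (h1 q hq).2⟩
  rintro rfl
  obtain ⟨q⟩ := exists_Over (K := K) hp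
  apply (h1 q.1 q.2).1
  exact_mod_cast q.2

end Pool.Agent.Helper4
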