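import Mathlib

/-! # Only finitely many primes are bad -/

noncomputable section

namespace Pool.Agent.Helper4
open Polynomial

lemma exists_int_poly (u : ℚ[X]) : ∃ N : ℤ, N ≠ 0 ∧ ∃ U : ℤ[X],
    U.map (Int.castRingHom ℚ) = C (N : ℚ) * u := by
  obtain ⟨b, hb, h⟩ := IsLocalization.integerNormalization_spec (nonZeroDivisors ℤ) u
  refine ⟨b, nonZeroDivisors.ne_zero hb, IsLocalization.integerNormalization (nonZeroDivisors ℤ) u, ?_⟩
  have e : algebraMap ℤ ℚ = Int.castRingHom ℚ := rfl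
  rw [← e, h]
  ext k
  rw [coeff_smul, coeff_C_mul]
  simp

lemma finite_bad_poly (f : ℤ[X]) (hS : (f.map (Int.castRingHom ℚ)).Separable) :
    {p : ℕ | p.Prime ∧ ¬ (f.map (Int.castRingHom (ZMod p))).Separable}.Finite := by
  obtain ⟨u, v, huv⟩ := hS
  rw [derivative_map] at huv
  obtain ⟨N, hN, U, hU⟩ := exists_int_poly u
  obtain ⟨M, hM, V, hV⟩ := exists_int_poly v
  have h1 : C M * U * f + C N * V * derivative f = C (N * M) := by
    apply Polynomial.map_injective (Int.castRingHom ℚ) (Int.cast_injective)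
    simp only [Polynomial.map_add, Polynomial.map_mul, map_C, hU, hV]
    have : (C ((Int.castRingHom ℚ) M) * (C (N : ℚ) * u) * map (Int.castRingHom ℚ) f
        + C ((Int.castRingHom ℚ) N) * (C (M : ℚ) * v) * map (Int.castRingHom ℚ) (derivative f))
        = C (N : ℚ) * C (M : ℚ) * (u * map (Int.castRingHom ℚ) f
          + v * map (Int.castRingHom ℚ) (derivative f)) := by
      simp only [eq_intCast]
      ring
    rw [this, huv]
    simp
  have hNM : (N * M).natAbs ≠ 0 := by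
    rw [Int.natAbs_ne_zero]
    exact mul_ne_zero hN hM
  refine ((N * M).natAbs.divisors.finite_toSet).subset ?_
  rintro p ⟨hp, hbad⟩
  rw [Finset.mem_coe, Nat.mem_divisors]
  refine ⟨?_, hNM⟩
  by_contra hnd
  apply hbad
  have : Fact p.Prime := ⟨hp⟩
  have hunit : IsUnit ((N * M : ℤ) : ZMod p) := by
    rw [isUnit_iff_ne_zero, Ne, ZMod.intCast_zmod_eq_zero_iff_dvd]
    intro h
    exact hnd (Int.natCast_dvd.mp h)
  obtain ⟨w, hw⟩ := hunit
  have h2 := congrArg (Polynomial.map (Int.castRingHom (ZMod p))) h1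
  simp only [Polynomial.map_add, Polynomial.map_mul, map_C] at h2
  refine ⟨C ((w⁻¹ : (ZMod p)ˣ) : ZMod p) * (C ((Int.castRingHom (ZMod p)) M) * map (Int.castRingHom (ZMod p)) U),
    C ((w⁻¹ : (ZMod p)ˣ) : ZMod p) * (C ((Int.castRingHom (ZMod p)) N) * map (Int.castRingHom (ZMod p)) V), ?_⟩
  rw [derivative_map, mul_assoc, mul_assoc (C ((w⁻¹ : (ZMod p)ˣ) : ZMod p)), ← mul_add, h2, ← C_mul]
  have : ((w⁻¹ : (ZMod p)ˣ) : ZMod p) * (Int.castRingHom (ZMod p)) (N * M) = 1 := by
    rw [eq_intCast, ← hw]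
    exact Units.inv_mul w
  rw [this, C_1]

end Pool.Agent.Helper4
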