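import Mathlib
import Pool.Agent.helper4.HDedOne
import Pool.Agent.helper4.LEuler
import Pool.Agent.helper4.GammaQuot

/-! # The quotient of the zeta functions of a quadratic extension is entire -/

set_option linter.unusedSectionVars false

noncomputable section

namespace Pool.Agent.Helper4

open Filter Topology NumberField NumberField.InfinitePlace Module nonZeroDivisors IsDedekindDomain

open scoped Classical

variable {K M : Type*} [Field K] [NumberField K] [Field M] [NumberField M] [Algebra K M]
  {d : 𝓞 K} {δ : 𝓞 M} (hq : IsQuad d δ)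

/-- half planes -/
def HP0 : Set ℂ := {s : ℂ | 0 < s.re}

lemma isOpen_HP0 : IsOpen HP0 := isOpen_lt continuous_const Complex.continuous_re

lemma isPreconnected_HP0 : IsPreconnected HP0 := by
  have : HP0 = Complex.re ⁻¹' Set.Ioi 0 := rfl
  exact (convex_halfSpace_re_gt 0).isPreconnected

section aux

variable (K M) (N : ℕ)

/-- correction at the bad primes -/
def EE (s : ℂ) : ℂ := ∏ p ∈ N.primeFactors, zl M s p * (zl K s p)⁻¹

lemma differentiableAt_EE {s : ℂ} (hs : 0 < s.re) : DifferentiableAt ℂ (EE K M N) s := by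
  unfold EE
  refine DifferentiableAt.fun_finsetProd fun p hp => ?_
  have hp0 : p ≠ 0 := (Nat.prime_of_mem_primeFactors hp).ne_zero
  exact (differentiableAt_zl hp0 hs).fun_mul
    ((differentiableAt_zl hp0 hs).fun_inv (zl_ne_zero hp0 hs))

lemma EE_ne_zero {s : ℂ} (hs : 0 < s.re) : EE K M N s ≠ 0 := by
  unfold EE
  rw [Finset.prod_ne_zero_iff]
  intro p hp
  have hp0 : p ≠ 0 := (Nat.prime_of_mem_primeFactors hp).ne_zero
  exact mul_ne_zero (zl_ne_zero hp0 hs) (inv_ne_zero (zl_ne_zero hp0 hs))

end aux

section main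

variable (R : Finset (RP K)) (N : ℕ) (χ : 𝓞 K → ℂ) (hχ : CharRel K R d N χ) [NeZero N]

include hq hχ in
lemma zl_mul {s : ℂ} (hs : 0 < s.re) (p : Nat.Primes) :
    zl M s p = zl K s p * ll K d N s p *
      (if (p : ℕ) ∈ N.primeFactors then zl M s p * (zl K s p)⁻¹ else 1) := by
  by_cases h : (p : ℕ) ∣ N
  · have hmem : (p : ℕ) ∈ N.primeFactors := Nat.mem_primeFactors.mpr ⟨p.2, h, NeZero.ne N⟩
    rw [if_pos hmem, ll_bad d N p.2 h, mul_one]
    have := zl_ne_zero (K := K) p.2.ne_zero hs
    field_simp
  · have hmem : (p : ℕ) ∉ N.primeFactors := fun h' => h (Nat.dvd_of_mem_primeFactors h')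
    rw [if_neg hmem, mul_one, ll_good d N p.2 h]
    obtain ⟨hp2, hd⟩ := good_of_not_dvd d N hχ p.2 h
    exact hq.locF_eq p.2 hp2 hd s

include hq in
lemma prod_rel {s : ℂ} (hs : 1 < s.re) :
    HDed M s / (s - 1) = HDed K s / (s - 1) * (HL K R d N χ hχ s / (s - 1)) * EE K M N s := by
  have h1 := hasProd_dedekind M hs
  have h2 := hasProd_dedekind K hs
  have h3 := hasProd_ll K R d N χ hχ hs
  have h4 : HasProd (fun p : Nat.Primes =>
      if (p : ℕ) ∈ N.primeFactors then zl M s p * (zl K s p)⁻¹ else 1) (EE K M N s) := by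
    have h5 : HasProd (fun p : Nat.Primes =>
        if (p : ℕ) ∈ N.primeFactors then zl M s p * (zl K s p)⁻¹ else 1)
        (∏ p ∈ N.primeFactors.subtype Nat.Prime,
          if (p : ℕ) ∈ N.primeFactors then zl M s p * (zl K s p)⁻¹ else 1) :=
      hasProd_prod_of_ne_finset_one (by
        intro p hp
        exact if_neg (fun h => hp (Finset.mem_subtype.mpr h)))
    convert h5 using 1
    unfold EE
    rw [Finset.prod_subtype_of_mem (fun p : ℕ =>
        if p ∈ N.primeFactors then zl M s p * (zl K s p)⁻¹ else 1)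
        (fun p hp => Nat.prime_of_mem_primeFactors hp)]
    refine Finset.prod_congr rfl fun p hp => ?_
    rw [if_pos hp]
  refine h1.unique ?_
  have h6 := (h2.mul h3).mul h4
  refine h6.congr_fun ?_ |> fun h => h
  intro p
  exact zl_mul hq R N χ hχ (by linarith) p

end main

include hq in
/-- **The quotient `ζ_M / ζ_K` is entire** for a quadratic extension `M / K`. -/
theorem quad_entire : ∃ H : ℂ → ℂ, Differentiable ℂ H ∧
    ∀ s : ℂ, 1 < s.re → HDed M s = H s * HDed K s := by
  obtain ⟨N, hN2, hNq, R, χ, c1, c2, c3, c4⟩ := ray_character d hq.dO_ne_zero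
  have hχ : CharRel K R d N χ := ⟨hN2, hNq, c1, c2, c3, c4⟩
  have hNZ : NeZero N := ⟨by omega⟩
  set HLf := HL K R d N χ hχ with hHLf
  have dK := differentiable_HDed K
  have dM := differentiable_HDed M
  have dL : Differentiable ℂ HLf := differentiable_HL K R d N χ hχ
  have dE : DifferentiableOn ℂ (EE K M N) HP0 := fun s hs =>
    (differentiableAt_EE K M N hs).differentiableWithinAt
  have hopen1 : IsOpen {s : ℂ | 1 < s.re} := isOpen_lt continuous_const Complex.continuous_re
  have hne1 : ∀ s : ℂ, 1 < s.re → s - 1 ≠ 0 := by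
    intro s hs h
    have : s = 1 := by linear_combination h
    rw [this] at hs
    simp at hs
  -- identity principle on the half plane
  have ident : ∀ f g : ℂ → ℂ, DifferentiableOn ℂ f HP0 → DifferentiableOn ℂ g HP0 →
      (∀ s : ℂ, 1 < s.re → f s = g s) → ∀ s ∈ HP0, f s = g s := by
    intro f g hf hg h
    have hf' := hf.analyticOnNhd isOpen_HP0
    have hg' := hg.analyticOnNhd isOpen_HP0
    have h2 : (2 : ℂ) ∈ HP0 := by
      change 0 < (2 : ℂ).re
      simp
    refine hf'.eqOn_of_preconnected_of_eventuallyEq hg' isPreconnected_HP0 h2 ?_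
    filter_upwards [hopen1.mem_nhds (show (2 : ℂ) ∈ {s : ℂ | 1 < s.re} by simp)] with s hs
    exact h s hs
  have hA := ident (fun s => HDed M s * (s - 1)) (fun s => HDed K s * HLf s * EE K M N s)
    (by fun_prop) (by
      have := dK.differentiableOn (s := HP0)
      have := dL.differentiableOn (s := HP0)
      fun_prop) (by
      intro s hs
      have h := prod_rel hq R N χ hχ hs
      have h1 := hne1 s hs
      rw [← hHLf] at h
      field_simp at h
      linear_combination h)
  have one_mem : (1 : ℂ) ∈ HP0 := by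
    change 0 < (1 : ℂ).re
    simp
  have hL1 : HLf 1 = 0 := by
    have h := hA 1 one_mem
    simp only [sub_self, mul_zero] at h
    rcases mul_eq_zero.mp h.symm with h1 | h1
    · rcases mul_eq_zero.mp h1 with h2 | h2
      · exact absurd h2 (HDed_one_ne_zero K)
      · exact h2
    · exact absurd h1 (EE_ne_zero K M N one_mem)
  set L := dslope HLf 1 with hLdef
  have dLd : Differentiable ℂ L := by
    have h : DifferentiableOn ℂ (dslope HLf 1) Set.univ :=
      (Complex.differentiableOn_dslope Filter.univ_mem).mpr dL.differentiableOn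
    exact differentiableOn_univ.mp h
  have hL : ∀ s, HLf s = (s - 1) * L s := by
    intro s
    have h := sub_smul_dslope HLf 1 s
    rw [hL1, sub_zero, smul_eq_mul] at h
    exact h.symm
  set G : ℂ → ℂ := fun s => L s * EE K M N s with hGdef
  have dG : DifferentiableOn ℂ G HP0 := by
    have := dLd.differentiableOn (s := HP0)
    fun_prop
  have hG := ident (fun s => HDed M s) (fun s => HDed K s * G s) dM.differentiableOn (by
      have := dK.differentiableOn (s := HP0)
      fun_prop) (by
      intro s hs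
      have h := prod_rel hq R N χ hχ hs
      have h1 := hne1 s hs
      rw [← hHLf, hL s] at h
      field_simp at h
      simp only [hGdef]
      linear_combination h)
  -- the other half plane
  set H2 : ℂ → ℂ := fun z => Cc M / Cc K * Complex.exp ((1 - z) * (Lc M - Lc K)) * gamQ K M z *
    G (1 - z) * (igam K (1 - z) * (igam M (1 - z))⁻¹) with hH2def
  set HP1 : Set ℂ := {z : ℂ | z.re < 1} with hHP1
  have isOpen_HP1 : IsOpen HP1 := isOpen_lt Complex.continuous_re continuous_const
  have hmaps : ∀ z ∈ HP1, (1 - z) ∈ HP0 := by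
    intro z hz
    change 0 < (1 - z).re
    rw [Complex.sub_re, Complex.one_re]
    have : z.re < 1 := hz
    linarith
  have dH2 : DifferentiableOn ℂ H2 HP1 := by
    intro z hz
    have hz0 := hmaps z hz
    apply DifferentiableAt.differentiableWithinAt
    have e1 : DifferentiableAt ℂ (fun z : ℂ => 1 - z) z := by fun_prop
    have e2 : DifferentiableAt ℂ (fun z => G (1 - z)) z :=
      DifferentiableAt.comp z ((dG (1 - z) hz0).differentiableAt (isOpen_HP0.mem_nhds hz0)) e1
    have e3 : DifferentiableAt ℂ (fun z => igam K (1 - z)) z :=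
      ((differentiable_igam K).comp (by fun_prop : Differentiable ℂ (fun z : ℂ => 1 - z))) z
    have e4 : DifferentiableAt ℂ (fun z => igam M (1 - z)) z :=
      ((differentiable_igam M).comp (by fun_prop : Differentiable ℂ (fun z : ℂ => 1 - z))) z
    have e5 : DifferentiableAt ℂ (fun z => (igam M (1 - z))⁻¹) z :=
      e4.fun_inv (igam_ne_zero M hz0)
    have e6 : DifferentiableAt ℂ (gamQ K M) z := differentiable_gamQ z
    have e7 : DifferentiableAt ℂ (fun z : ℂ => Cc M / Cc K *
      Complex.exp ((1 - z) * (Lc M - Lc K))) z := by fun_prop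
    exact ((e7.fun_mul e6).fun_mul e2).fun_mul (e3.fun_mul e5)
  have hH2 : ∀ z ∈ HP1, z ≠ 0 → HDed M z = HDed K z * H2 z := by
    intro z hz hz0
    have hm := hmaps z hz
    have f1 := dedekind_FE M (1 - z)
    have f2 := dedekind_FE K (1 - z)
    rw [show (1 : ℂ) - z - 1 = -z by ring, sub_sub_cancel] at f1 f2
    rw [hq.igam_eq_mul z, hG (1 - z) hm] at f1
    have g1 := igam_ne_zero M hm
    have g2 := igam_ne_zero K hm
    have g3 := Cc_ne_zero K
    have g4 : Complex.exp ((1 - z) * Lc K) ≠ 0 := Complex.exp_ne_zero _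
    have e1 : Complex.exp ((1 - z) * (Lc M - Lc K))
        = Complex.exp ((1 - z) * Lc M) / Complex.exp ((1 - z) * Lc K) := by
      rw [← Complex.exp_sub]
      congr 1
      ring
    rw [hH2def]
    simp only
    rw [e1]
    -- solve
    have h3 : HDed M z = Cc M * Complex.exp ((1 - z) * Lc M) * (igam K z * gamQ K M z *
        ((1 - z) * (HDed K (1 - z) * G (1 - z)))) / (z * igam M (1 - z)) := by
      rw [eq_div_iff (mul_ne_zero hz0 g1)]
      linear_combination -f1
    have h4 : igam K z * ((1 - z) * HDed K (1 - z))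
        = igam K (1 - z) * (z * HDed K z) / (Cc K * Complex.exp ((1 - z) * Lc K)) := by
      rw [eq_div_iff (mul_ne_zero g3 g4)]
      linear_combination f2
    have h5 : Cc M * Complex.exp ((1 - z) * Lc M) * (igam K z * gamQ K M z *
        ((1 - z) * (HDed K (1 - z) * G (1 - z))))
        = Cc M * Complex.exp ((1 - z) * Lc M) * gamQ K M z * G (1 - z) *
          (igam K z * ((1 - z) * HDed K (1 - z))) := by ring
    rw [h3, h5, h4]
    field_simp
  -- agreement on the strip
  set St : Set ℂ := {z : ℂ | 0 < z.re ∧ z.re < 1} with hSt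
  have hStopen : IsOpen St := isOpen_HP0.inter isOpen_HP1
  have hStconv : IsPreconnected St := by
    have h1 : Convex ℝ St := (convex_halfSpace_re_gt 0).inter (convex_halfSpace_re_lt 1)
    exact h1.isPreconnected
  have hagree : ∀ z ∈ St, G z = H2 z := by
    have hne : ∀ᶠ z in 𝓝 (1 : ℂ), HDed K z ≠ 0 :=
      (dK.continuous.continuousAt).eventually_ne (HDed_one_ne_zero K)
    obtain ⟨ε, hε, hball⟩ := Metric.eventually_nhds_iff.mp hne
    set x : ℝ := 1 - min ε 1 / 2 with hx
    have hmin : 0 < min ε 1 := lt_min hε one_pos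
    have hmin1 : min ε 1 ≤ 1 := min_le_right _ _
    have hminε : min ε 1 ≤ ε := min_le_left _ _
    have hx0 : 0 < x := by rw [hx]; linarith
    have hx1 : x < 1 := by rw [hx]; linarith
    have hxSt : (x : ℂ) ∈ St := by
      change 0 < (x : ℂ).re ∧ (x : ℂ).re < 1
      rw [Complex.ofReal_re]
      exact ⟨hx0, hx1⟩
    have hxne : HDed K (x : ℂ) ≠ 0 := by
      apply hball
      rw [← Complex.ofReal_one, Complex.dist_of_im_eq (by simp), Complex.ofReal_re,
        Complex.ofReal_re, Real.dist_eq, abs_of_neg (by linarith), hx]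
      linarith
    have hev : ∀ᶠ z in 𝓝 (x : ℂ), G z = H2 z := by
      have h1 : ∀ᶠ z in 𝓝 (x : ℂ), HDed K z ≠ 0 := (dK.continuous.continuousAt).eventually_ne hxne
      filter_upwards [h1, hStopen.mem_nhds hxSt] with z hz hzS
      have hz0 : z ≠ 0 := by
        rintro rfl
        have := hzS.1
        simp at this
      have e1 := hG z hzS.1
      have e2 := hH2 z hzS.2 hz0
      rw [e1] at e2
      exact mul_left_cancel₀ hz e2
    have dG' := (dG.mono (fun z hz => hz.1 : St ⊆ HP0)).analyticOnNhd hStopen
    have dH' := (dH2.mono (fun z hz => hz.2 : St ⊆ HP1)).analyticOnNhd hStopen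
    exact dG'.eqOn_of_preconnected_of_eventuallyEq dH' hStconv hxSt hev
  refine ⟨fun z => if 0 < z.re then G z else H2 z, ?_, ?_⟩
  · intro z
    by_cases hz : 0 < z.re
    · have h1 : DifferentiableAt ℂ G z := (dG z hz).differentiableAt (isOpen_HP0.mem_nhds hz)
      refine h1.congr_of_eventuallyEq ?_
      filter_upwards [isOpen_HP0.mem_nhds (show z ∈ HP0 from hz)] with w hw
      exact if_pos hw
    · have hz1 : z ∈ HP1 := by
        change z.re < 1
        linarith
      have h1 : DifferentiableAt ℂ H2 z := (dH2 z hz1).differentiableAt (isOpen_HP1.mem_nhds hz1)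
      refine h1.congr_of_eventuallyEq ?_
      filter_upwards [isOpen_HP1.mem_nhds hz1] with w hw
      by_cases hw0 : 0 < w.re
      · rw [if_pos hw0]
        exact hagree w ⟨hw0, hw⟩
      · rw [if_neg hw0]
  · intro s hs
    have hs0 : 0 < s.re := by linarith
    simp only
    rw [if_pos hs0, hG s hs0, mul_comm]

end Pool.Agent.Helper4
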