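import Mathlib
import Pool.Agent.helper4.QuadEntire

/-! # Quadratic characters of number fields: summary -/

set_option linter.unusedSectionVars false

noncomputable section

namespace Pool.Agent.Helper4

open Filter Topology NumberField NumberField.InfinitePlace Module nonZeroDivisors IsDedekindDomain
  Polynomial

open scoped Classical

/-! ### non-vanishing of zeta functions -/

lemma hasProd_inv₀ {ι : Type*} {f : ι → ℂ} {a : ℂ} (h : HasProd f a) (ha : a ≠ 0) :
    HasProd (fun i => (f i)⁻¹) a⁻¹ := by
  have h1 := Filter.Tendsto.inv₀ h ha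
  unfold HasProd
  simpa only [Finset.prod_inv_distrib] using h1

section

variable (K : Type*) [Field K] [NumberField K]

lemma summable_primes {s : ℂ} (hs : 1 < s.re) :
    Summable (fun q : PK K => ‖(Ideal.absNorm q.asIdeal : ℂ) ^ (-s)‖) := by
  have h1 := (hasSum_HDed K (s := (s.re : ℂ)) (by rw [Complex.ofReal_re]; exact hs)).summable
  have h2 := h1.comp_injective (i := fun q : PK K =>
    (⟨q.asIdeal, mem_nonZeroDivisors_of_ne_zero q.ne_bot⟩ : (Ideal (𝓞 K))⁰)) (by
      intro q q' h
      exact HeightOneSpectrum.ext (congrArg Subtype.val h))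
  refine h2.norm.congr fun q => ?_
  simp only [Function.comp_apply]
  have hN : 0 < Ideal.absNorm q.asIdeal := by
    have := two_le_absNorm q
    omega
  rw [Complex.norm_natCast_cpow_of_pos hN, Complex.norm_natCast_cpow_of_pos hN]
  simp

theorem HDed_ne_zero {s : ℂ} (hs : 1 < s.re) : HDed K s / (s - 1) ≠ 0 := by
  have h1 : HasProd (fun q : PK K => (1 - (Ideal.absNorm q.asIdeal : ℂ) ^ (-s))⁻¹)
      (HDed K s / (s - 1)) := by
    apply hasProd_ideal _ (fun q => norm_cpow_lt_one q (by linarith)) _ _ (hasSum_HDed K hs)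
    intro m
    rw [absNorm_prodM, cpow_prod]
  have h2 : Multipliable (fun q : PK K => 1 + (-(Ideal.absNorm q.asIdeal : ℂ) ^ (-s))) := by
    apply multipliable_one_add_of_summable
    simpa using summable_primes K hs
  obtain ⟨b, hb⟩ := h2
  have h3 := h1.mul hb
  have h4 : (fun q : PK K => (1 - (Ideal.absNorm q.asIdeal : ℂ) ^ (-s))⁻¹ *
      (1 + (-(Ideal.absNorm q.asIdeal : ℂ) ^ (-s)))) = fun _ => 1 := by
    funext q
    rw [← sub_eq_add_neg]
    apply inv_mul_cancel₀
    have := one_sub_ne_zero q 1 (by simp) (s := s) (by linarith)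
    rwa [one_mul] at this
  rw [h4] at h3
  have h5 := h3.unique hasProd_one
  intro h0
  rw [h0, zero_mul] at h5
  exact zero_ne_one h5

end

/-! ### quadratic extensions exist -/

lemma exists_quad (K : Type) [Field K] [NumberField K] (d : 𝓞 K) (hd : ¬ IsSquare (d : K)) :
    ∃ (M : Type) (_ : Field M) (_ : NumberField M) (_ : Algebra K M) (δ : 𝓞 M), IsQuad d δ := by
  set P : K[X] := X ^ 2 - C (d : K) with hP
  have hdeg : P.natDegree = 2 := natDegree_X_pow_sub_C
  have hmonic : P.Monic := monic_X_pow_sub_C _ two_ne_zero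
  have hirr : Irreducible P := by
    rw [hmonic.irreducible_iff_roots_eq_zero_of_degree_le_three (by omega) (by omega)]
    rw [Multiset.eq_zero_iff_forall_notMem]
    intro a ha
    rw [mem_roots hmonic.ne_zero, IsRoot.def, hP, eval_sub, eval_pow, eval_X, eval_C] at ha
    exact hd ⟨a, by rw [← sq]; exact (sub_eq_zero.mp ha).symm⟩
  have hfact : Fact (Irreducible P) := ⟨hirr⟩
  let M := AdjoinRoot P
  have hfin : FiniteDimensional K M := (AdjoinRoot.powerBasis hmonic.ne_zero).finite
  have hchar : CharZero M := charZero_of_injective_algebraMap (algebraMap K M).injective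
  have hfinQ : FiniteDimensional ℚ M := Module.Finite.trans K M
  have hNF : NumberField M := { to_charZero := hchar, to_finiteDimensional := hfinQ }
  have hroot : (AdjoinRoot.root P) ^ 2 = algebraMap K M (d : K) := by
    have h := AdjoinRoot.eval₂_root P
    rw [hP, eval₂_sub, eval₂_pow, eval₂_X, eval₂_C] at h
    exact sub_eq_zero.mp h
  have hint : IsIntegral ℤ (AdjoinRoot.root P) := by
    apply IsIntegral.of_pow (n := 2) two_pos
    rw [hroot]
    exact d.isIntegral_coe.map (algebraMap K M).toIntAlgHom
  refine ⟨M, inferInstance, hNF, inferInstance, ⟨AdjoinRoot.root P, hint⟩, ⟨hroot, ?_, ?_⟩⟩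
  · have := (AdjoinRoot.powerBasis hmonic.ne_zero).finrank
    rw [this, AdjoinRoot.powerBasis_dim, hdeg]
  · intro a ha
    apply hd
    refine ⟨a, ?_⟩
    have h1 : algebraMap K M (a * a) = algebraMap K M (d : K) := by
      rw [map_mul, ha, ← hroot, sq]
      rfl
    exact ((algebraMap K M).injective h1).symm

/-- **Data of a quadratic character**: its L-function is entire, apart from a simple pole at `1`
when the character is trivial. -/
theorem quad_data (K : Type) [Field K] [NumberField K] (d : 𝓞 K) :
    ∃ (M : Type) (_ : Field M) (_ : NumberField M) (ε : ℤ) (H : ℂ → ℂ) (e : ℕ),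
      (∀ p : ℕ, p.Prime → p ≠ 2 → (∀ q : PK K, (p : 𝓞 K) ∈ q.asIdeal → d ∉ q.asIdeal) →
        ∀ s : ℂ, 0 < s.re →
          locF (fun q : PK K => chi d q.asIdeal * (Ideal.absNorm q.asIdeal : ℂ) ^ (-s)) p
            = zl M s p * zl K s p ^ ε) ∧
      Differentiable ℂ H ∧ ∀ s : ℂ, 1 < s.re →
        HasProd (fun p : Nat.Primes => zl M s p * zl K s p ^ ε) (H s / (s - 1) ^ e) := by
  by_cases hsq : IsSquare (d : K)
  · -- trivial character
    refine ⟨K, inferInstance, inferInstance, 0, HDed K, 1, ?_, differentiable_HDed K, ?_⟩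
    · intro p hp hp2 hd s hs
      have := finite_Over (K := K) p hp.ne_zero
      have : Fintype (Over K p) := Fintype.ofFinite _
      rw [zpow_zero, mul_one]
      unfold zl locF
      rw [finprod_eq_prod_of_fintype, finprod_eq_prod_of_fintype]
      refine Finset.prod_congr rfl fun q _ => ?_
      obtain ⟨z, hz⟩ := hsq
      have hzint : IsIntegral ℤ z := by
        apply IsIntegral.of_pow (n := 2) two_pos
        rw [sq, ← hz]
        exact d.isIntegral_coe
      have hchi : chi d q.1.asIdeal = 1 := by
        unfold chi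
        rw [if_neg (hd q.1 q.2), if_pos]
        obtain ⟨z', hz'⟩ : ∃ z' : 𝓞 K, (z' : K) = z := ⟨⟨z, hzint⟩, rfl⟩
        refine ⟨z', ?_⟩
        have h0 : z' ^ 2 - d = 0 := by
          apply RingOfIntegers.coe_injective
          rw [map_sub, map_pow, map_zero]
          change (z' : K) ^ 2 - (d : K) = 0
          rw [hz, hz']
          ring
        rw [h0]
        exact zero_mem _
      beta_reduce
      rw [hchi, one_mul]
    · intro s hs
      simp only [zpow_zero, mul_one, pow_one]
      exact hasProd_dedekind K hs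
  · obtain ⟨M, _, _, _, δ, hq⟩ := exists_quad K d hsq
    obtain ⟨H, hH, hHe⟩ := quad_entire hq
    refine ⟨M, inferInstance, inferInstance, -1, H, 0, ?_, hH, ?_⟩
    · intro p hp hp2 hd s hs
      have h1 := hq.locF_eq hp hp2 hd s
      have h2 : zl M s p = zl K s p *
        locF (fun q : PK K => chi d q.asIdeal * (Ideal.absNorm q.asIdeal : ℂ) ^ (-s)) p := h1
      have h3 := zl_ne_zero (K := K) hp.ne_zero hs
      rw [h2, zpow_neg_one]
      field_simp
    · intro s hs
      have h1 := hasProd_dedekind M hs
      have h2 := hasProd_inv₀ (hasProd_dedekind K hs) (HDed_ne_zero K hs)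
      have h3 := h1.mul h2
      have h4 : HDed M s / (s - 1) * (HDed K s / (s - 1))⁻¹ = H s / (s - 1) ^ 0 := by
        have h5 := HDed_ne_zero K hs
        have h6 : HDed K s ≠ 0 := fun h => h5 (by rw [h, zero_div])
        have h7 : s - 1 ≠ 0 := fun h => h5 (by rw [h, div_zero])
        rw [hHe s hs, pow_zero, div_one]
        field_simp
      rw [h4] at h3
      refine h3.congr_fun ?_ |> fun h => h
      intro p
      rw [zpow_neg_one]
      rfl

end Pool.Agent.Helper4
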