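import Mathlib
import Pool.Agent.helper4.QuadData

/-! # L-functions from point counts with quadratic characters -/

set_option linter.unusedSectionVars false

noncomputable section

namespace Pool.Agent.Helper4

open Filter Topology NumberField nonZeroDivisors IsDedekindDomain Module Polynomial

open scoped Classical

/-! ### the rational field -/

lemma specF_rat {p : ℕ} (hp : p.Prime) : specF ℚ p (fun _ => 1) = {1} := by
  have hpf : Fact p.Prime := ⟨hp⟩
  apply multiset_eq_of_power_sums hp.one_lt (N := fun _ => 1)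
  · intro α hα
    exact norm_of_mem_specF hp (fun _ _ => by simp) hα
  · intro α hα
    rw [Multiset.mem_singleton] at hα
    rw [hα, norm_one]
  · intro r hr
    have hcard : Nat.card (GaloisField p r) = p ^ r := GaloisField.card p r (by omega)
    rw [sum_pow_specF_one hp (GaloisField p r) r hcard]
    have e := Rat.ringOfIntegersEquiv
    have h1 : Nat.card (𝓞 ℚ →+* GaloisField p r) = 1 := by
      rw [Nat.card_eq_one_iff_unique]
      refine ⟨⟨fun φ ψ => ?_⟩, ⟨(Int.castRingHom _).comp (e : 𝓞 ℚ →+* ℤ)⟩⟩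
      ext x
      obtain ⟨n, rfl⟩ := e.symm.surjective x
      have h2 : φ.comp (e.symm : ℤ →+* 𝓞 ℚ) = ψ.comp (e.symm : ℤ →+* 𝓞 ℚ) := RingHom.ext_int _ _
      exact RingHom.congr_fun h2 n
    rw [h1]
  · intro r hr
    simp

lemma zl_rat {p : ℕ} (hp : p.Prime) (s : ℂ) : zl ℚ s p = (1 - (p : ℂ) ^ (-s))⁻¹ := by
  have h := prod_specF (K := ℚ) hp (fun _ => 1) s
  rw [specF_rat hp] at h
  simp only [one_mul, Multiset.map_singleton, Multiset.prod_singleton] at h
  exact h.symm

section core

variable {β : Type} [Fintype β] (Kf : β → Type) [∀ b, Field (Kf b)] [∀ b, NumberField (Kf b)]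
  (d : ∀ b, 𝓞 (Kf b)) (m D : ℕ) (c : ℕ → ℕ)

/-- the Frobenius eigenvalues -/
def specB (p i : ℕ) : Multiset ℂ :=
  if Even i then (if i / 2 < D then c (i / 2) • ({(p : ℂ) ^ (i / 2)} : Multiset ℂ) else 0) +
    (if i / 2 = m then ∑ b, (specF (Kf b) p (fun q => chi (d b) q.asIdeal)).map
      (fun α => (p : ℂ) ^ m * α) else 0)
  else 0

lemma norm_chi {K : Type*} [Field K] [NumberField K] {d : 𝓞 K} {q : PK K}
    (hd : d ∉ q.asIdeal) : ‖chi d q.asIdeal‖ = 1 := by
  have h1 := chi_sq hd
  have h2 : ‖chi d q.asIdeal‖ * ‖chi d q.asIdeal‖ = 1 := by rw [← norm_mul, h1, norm_one]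
  nlinarith [norm_nonneg (chi d q.asIdeal)]

theorem isFrobSpec_specB (p : ℕ) [hp : Fact p.Prime] (hp2 : p ≠ 2)
    (hd : ∀ b, ∀ q : PK (Kf b), (p : 𝓞 (Kf b)) ∈ q.asIdeal → d b ∉ q.asIdeal) (N : ℕ → ℕ)
    (hN : ∀ r, 1 ≤ r → (N r : ℂ) = ∑ k ∈ Finset.range D, (c k : ℂ) * ((p : ℂ) ^ r) ^ k +
      ((p : ℂ) ^ r) ^ m * ∑ b, ∑ᶠ φ : 𝓞 (Kf b) →+* GaloisField p r,
        eta (GaloisField p r) (φ (d b))) :
    IsFrobSpec p N (specB Kf d m D c p) := by
  have hzero : ∀ j, 2 * (D + m + 1) ≤ j → specB Kf d m D c p j = 0 := by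
    intro j hj
    unfold specB
    split_ifs with h1 h2 h3
    · omega
    · omega
    · omega
    · rfl
    · rfl
  refine ⟨?_, ⟨2 * (D + m + 1), hzero⟩, ?_⟩
  · intro j α hα
    unfold specB at hα
    by_cases h : Even j
    · rw [if_pos h] at hα
      obtain ⟨k, rfl⟩ := h
      have e1 : (k + k) / 2 = k := by omega
      rw [e1] at hα
      push_cast
      rw [add_self_div_two, Real.rpow_natCast]
      rw [Multiset.mem_add] at hα
      rcases hα with hα | hα
      · by_cases h1 : k < D
        · rw [if_pos h1] at hα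
          have h2 := Multiset.mem_of_mem_nsmul hα
          rw [Multiset.mem_singleton] at h2
          rw [h2, norm_pow, Complex.norm_natCast]
        · rw [if_neg h1] at hα
          simp at hα
      · by_cases h1 : k = m
        · rw [if_pos h1, Multiset.mem_sum] at hα
          obtain ⟨b, -, hα⟩ := hα
          rw [Multiset.mem_map] at hα
          obtain ⟨γ, hγ, rfl⟩ := hα
          rw [norm_mul, norm_of_mem_specF hp.out (fun q hq => norm_chi (hd b q hq)) hγ, mul_one,
            norm_pow, Complex.norm_natCast, h1]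
        · rw [if_neg h1] at hα
          simp at hα
    · rw [if_neg h] at hα
      simp at hα
  · intro r hr
    have hcard : Nat.card (GaloisField p r) = p ^ r := GaloisField.card p r (by omega)
    have h2 : ∑ᶠ j, (-1 : ℂ) ^ j * ((specB Kf d m D c p j).map (fun α => α ^ r)).sum
        = ∑ k ∈ Finset.range (D + m + 1),
          ((specB Kf d m D c p (2 * k)).map (fun α => α ^ r)).sum := by
      rw [finsum_eq_sum_of_support_subset (s := (Finset.range (D + m + 1)).image (fun k => 2 * k))]
      · rw [Finset.sum_image]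
        · refine Finset.sum_congr rfl fun k _ => ?_
          rw [pow_mul]; simp
        · intro x _ y _ hxy
          simp only at hxy
          omega
      · intro j hj
        rw [Function.mem_support] at hj
        rw [Finset.coe_image, Set.mem_image]
        by_cases hev : Even j
        · obtain ⟨k, rfl⟩ := hev
          refine ⟨k, ?_, by omega⟩
          rw [Finset.coe_range, Set.mem_Iio]
          by_contra h3
          apply hj
          rw [hzero _ (by omega)]
          simp
        · exfalso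
          apply hj
          unfold specB
          rw [if_neg hev]
          simp
    rw [h2, hN r hr]
    have h3 : ∀ k, ((specB Kf d m D c p (2 * k)).map (fun α => α ^ r)).sum
        = (if k < D then (c k : ℂ) * ((p : ℂ) ^ r) ^ k else 0) +
          (if k = m then ((p : ℂ) ^ r) ^ m * ∑ b, ∑ᶠ φ : 𝓞 (Kf b) →+* GaloisField p r,
            eta (GaloisField p r) (φ (d b)) else 0) := by
      intro k
      unfold specB
      rw [if_pos (even_two_mul k), Nat.mul_div_cancel_left k two_pos, Multiset.map_add,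
        Multiset.sum_add]
      congr 1
      · split_ifs
        · rw [Multiset.map_nsmul, Multiset.sum_nsmul, nsmul_eq_mul, Multiset.map_singleton,
            Multiset.sum_singleton, ← pow_mul, ← pow_mul, mul_comm k r]
        · simp
      · split_ifs
        · rw [sum_map_finset_sum, Finset.mul_sum]
          refine Finset.sum_congr rfl fun b _ => ?_
          rw [sum_eta_hom hp.out hp2 (d b) (hd b) (GaloisField p r) r hcard, Multiset.map_map]
          have h4 : (fun α : ℂ => α ^ r) ∘ (fun α : ℂ => (p : ℂ) ^ m * α)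
              = fun α => ((p : ℂ) ^ r) ^ m * α ^ r := by
            funext α
            simp only [Function.comp]
            rw [mul_pow, ← pow_mul, ← pow_mul, mul_comm m r]
          rw [h4, Multiset.sum_map_mul_left]
        · simp
    rw [Finset.sum_congr rfl (fun k _ => h3 k), Finset.sum_add_distrib]
    congr 1
    · rw [← Finset.sum_filter]
      congr 1
      ext k
      simp only [Finset.mem_filter, Finset.mem_range]
      omega
    · rw [Finset.sum_ite_eq' (Finset.range (D + m + 1)) m, if_pos (Finset.mem_range.mpr (by omega))]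

lemma cpow_shift {p : ℕ} (hp : p.Prime) (k : ℕ) (s : ℂ) :
    (p : ℂ) ^ (-(s - ((k + k : ℕ) : ℂ) / 2)) = (p : ℂ) ^ k * (p : ℂ) ^ (-s) := by
  have hp0 : (p : ℂ) ≠ 0 := by exact_mod_cast hp.ne_zero
  rw [neg_sub, sub_eq_add_neg, Complex.cpow_add _ _ hp0]
  congr 1
  push_cast
  rw [add_self_div_two, Complex.cpow_natCast]

/-- Euler factors of the Frobenius eigenvalues -/
lemma prod_specB {p : ℕ} (hp : p.Prime) (i : ℕ) (s : ℂ) :
    ((specB Kf d m D c p i).map (fun α => (1 - α * (p : ℂ) ^ (-s))⁻¹)).prod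
      = if Even i then zl ℚ (s - (i : ℂ) / 2) p ^ (if i / 2 < D then c (i / 2) else 0) *
        (if i / 2 = m then ∏ b, locF (fun q : PK (Kf b) => chi (d b) q.asIdeal *
          (Ideal.absNorm q.asIdeal : ℂ) ^ (-(s - (i : ℂ) / 2))) p else 1) else 1 := by
  unfold specB
  by_cases h : Even i
  · rw [if_pos h, if_pos h, Multiset.map_add, Multiset.prod_add]
    obtain ⟨k, rfl⟩ := h
    have e1 : (k + k) / 2 = k := by omega
    rw [e1]
    congr 1
    · rw [zl_rat hp, cpow_shift hp]
      split_ifs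
      · rw [Multiset.map_nsmul, Multiset.prod_nsmul, Multiset.map_singleton,
          Multiset.prod_singleton]
      · simp
    · split_ifs with h1
      · subst h1
        rw [prod_map_finset_sum]
        refine Finset.prod_congr rfl fun b _ => ?_
        rw [Multiset.map_map, ← prod_specF hp]
        congr 1
        apply Multiset.map_congr rfl
        intro α _
        simp only [Function.comp]
        rw [cpow_shift hp]
        ring
      · simp
  · rw [if_neg h, if_neg h]
    simp

end core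

/-- **Q1 for a system of point counts**: `N p r` is the number of points over the field with
`p ^ r` elements and `Z` is a set of primes to be avoided. -/
def Q1Sys (Z : Set ℕ) (N : ∀ (p : ℕ) [Fact p.Prime], ℕ → ℕ) : Prop :=
  (∀ (p : ℕ) [Fact p.Prime], p ∉ Z → ∃! B : ℕ → Multiset ℂ, IsFrobSpec p (N p) B) ∧
  ∃ (ι : Type) (_ : Fintype ι) (K : ι → Type) (_ : ∀ l, Field (K l)) (_ : ∀ l, NumberField (K l))
    (m : ι → ℕ → ℤ),
    (∀ (p : ℕ) [Fact p.Prime] (B : ℕ → Multiset ℂ), p ∉ Z → IsFrobSpec p (N p) B →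
      ∀ (i : ℕ) (s : ℂ), (i : ℝ) / 2 < s.re →
        ((B i).map (fun α => (1 - α * (p : ℂ) ^ (-s))⁻¹)).prod =
          ∏ l, zl (K l) (s - (i : ℂ) / 2) p ^ m l i) ∧
    ∀ i : ℕ, ∃ (H : ℂ → ℂ) (e : ℕ), Differentiable ℂ H ∧ (Odd i → e = 0) ∧
      ∀ s : ℂ, (i : ℝ) / 2 + 1 < s.re →
        HasProd (fun p : Nat.Primes => ∏ l, zl (K l) (s - (i : ℂ) / 2) p ^ m l i)
          (H s / (s - ((i : ℂ) / 2 + 1)) ^ e)

lemma re_sub_half (i : ℕ) (s : ℂ) : (s - (i : ℂ) / 2).re = s.re - (i : ℝ) / 2 := by
  rw [Complex.sub_re]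
  congr 1
  have : ((i : ℂ) / 2) = (((i : ℝ) / 2 : ℝ) : ℂ) := by push_cast; rfl
  rw [this, Complex.ofReal_re]

theorem core {β : Type} [Fintype β] (Kf : β → Type) [iF : ∀ b, Field (Kf b)]
    [iN : ∀ b, NumberField (Kf b)] (d : ∀ b, 𝓞 (Kf b)) (m D : ℕ) (c : ℕ → ℕ) (Z : Set ℕ)
    (N : ∀ (p : ℕ) [Fact p.Prime], ℕ → ℕ)
    (hgood : ∀ p : ℕ, p.Prime → p ∉ Z → p ≠ 2 ∧ ∀ b, ∀ q : PK (Kf b),
      (p : 𝓞 (Kf b)) ∈ q.asIdeal → d b ∉ q.asIdeal)
    (hN : ∀ (p : ℕ) [Fact p.Prime], p ∉ Z → ∀ r, 1 ≤ r → (N p r : ℂ)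
      = ∑ k ∈ Finset.range D, (c k : ℂ) * ((p : ℂ) ^ r) ^ k +
      ((p : ℂ) ^ r) ^ m * ∑ b, ∑ᶠ φ : 𝓞 (Kf b) →+* GaloisField p r,
        eta (GaloisField p r) (φ (d b))) : Q1Sys Z N := by
  have hspec : ∀ (p : ℕ) [Fact p.Prime], p ∉ Z → IsFrobSpec p (N p) (specB Kf d m D c p) := by
    intro p hp hpZ
    obtain ⟨h1, h2⟩ := hgood p hp.out hpZ
    exact isFrobSpec_specB Kf d m D c p h1 h2 (N p) (hN p hpZ)
  refine ⟨fun p hp hpZ => ⟨_, hspec p hpZ, fun B hB => hB.unique hp.out.one_lt (hspec p hpZ)⟩, ?_⟩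
  choose M iMF iMN ε H e h1 h2 h3 using fun b => quad_data (Kf b) (d b)
  -- the fields
  let K : Unit ⊕ (β ⊕ β) → Type := Sum.elim (fun _ => ℚ) (Sum.elim M Kf)
  let iK : ∀ l, Field (K l) := fun l => match l with
    | Sum.inl _ => (inferInstance : Field ℚ)
    | Sum.inr (Sum.inl b) => iMF b
    | Sum.inr (Sum.inr b) => iF b
  let iKN : ∀ l, @NumberField (K l) (iK l) := fun l => match l with
    | Sum.inl _ => (inferInstance : NumberField ℚ)
    | Sum.inr (Sum.inl b) => iMN b
    | Sum.inr (Sum.inr b) => iN b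
  let mm : Unit ⊕ (β ⊕ β) → ℕ → ℤ := fun l i => match l with
    | Sum.inl _ => if Even i then (if i / 2 < D then (c (i / 2) : ℤ) else 0) else 0
    | Sum.inr (Sum.inl _) => if Even i ∧ i / 2 = m then 1 else 0
    | Sum.inr (Sum.inr b) => if Even i ∧ i / 2 = m then ε b else 0
  have key : ∀ (i : ℕ) (s : ℂ) (p : ℕ), ∏ l, zl (K l) (s - (i : ℂ) / 2) p ^ mm l i
      = if Even i then zl ℚ (s - (i : ℂ) / 2) p ^ (if i / 2 < D then c (i / 2) else 0) *
        (if i / 2 = m then ∏ b, (zl (M b) (s - (i : ℂ) / 2) p * zl (Kf b) (s - (i : ℂ) / 2) p ^ ε b)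
          else 1) else 1 := by
    intro i s p
    rw [Fintype.prod_sum_type, Fintype.prod_sum_type]
    have f1 : ∏ l : Unit, zl (K (Sum.inl l)) (s - (i : ℂ) / 2) p ^ mm (Sum.inl l) i
        = zl ℚ (s - (i : ℂ) / 2) p ^ (if Even i then (if i / 2 < D then (c (i / 2) : ℤ) else 0) else 0) := by
      rw [Fintype.prod_unique]
      rfl
    have f2 : ∏ b : β, zl (K (Sum.inr (Sum.inl b))) (s - (i : ℂ) / 2) p ^ mm (Sum.inr (Sum.inl b)) i
        = ∏ b : β, zl (M b) (s - (i : ℂ) / 2) p ^ (if Even i ∧ i / 2 = m then (1 : ℤ) else 0) := rfl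
    have f3 : ∏ b : β, zl (K (Sum.inr (Sum.inr b))) (s - (i : ℂ) / 2) p ^ mm (Sum.inr (Sum.inr b)) i
        = ∏ b : β, zl (Kf b) (s - (i : ℂ) / 2) p ^ (if Even i ∧ i / 2 = m then ε b else 0) := rfl
    rw [f1, f2, f3]
    by_cases hev : Even i
    · simp only [hev, if_true, true_and]
      congr 1
      · split_ifs
        · rw [zpow_natCast]
        · rfl
      · by_cases him : i / 2 = m
        · simp only [him, if_true, zpow_one]
          rw [Finset.prod_mul_distrib]
        · simp only [him, if_false, zpow_zero, Finset.prod_const_one, mul_one]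
    · simp [hev]
  refine ⟨Unit ⊕ (β ⊕ β), inferInstance, K, iK, iKN, mm, ?_, ?_⟩
  · intro p hp B hpZ hB i s hs
    obtain ⟨g1, g2⟩ := hgood p hp.out hpZ
    rw [hB.unique hp.out.one_lt (hspec p hpZ), prod_specB Kf d m D c hp.out, key]
    have hs0 : 0 < (s - (i : ℂ) / 2).re := by
      rw [re_sub_half]; linarith
    have e1 : ∏ b, locF (fun q : PK (Kf b) => chi (d b) q.asIdeal *
          (Ideal.absNorm q.asIdeal : ℂ) ^ (-(s - (i : ℂ) / 2))) p
        = ∏ b, (zl (M b) (s - (i : ℂ) / 2) p * zl (Kf b) (s - (i : ℂ) / 2) p ^ ε b) :=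
      Finset.prod_congr rfl fun b _ => h1 b p hp.out g1 (g2 b) _ hs0
    rw [e1]
  · intro i
    refine ⟨fun s => if Even i then HDed ℚ (s - (i : ℂ) / 2) ^ (if i / 2 < D then c (i / 2) else 0) *
      (if i / 2 = m then ∏ b, H b (s - (i : ℂ) / 2) else 1) else 1,
      if Even i then (if i / 2 < D then c (i / 2) else 0) + (if i / 2 = m then ∑ b, e b else 0) else 0,
      ?_, ?_, ?_⟩
    · have g1 : Differentiable ℂ (fun s => HDed ℚ (s - (i : ℂ) / 2)) :=
        (differentiable_HDed ℚ).comp (differentiable_id.sub_const _)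
      have g2 : ∀ b, Differentiable ℂ (fun s => H b (s - (i : ℂ) / 2)) := fun b =>
        (h2 b).comp (differentiable_id.sub_const _)
      by_cases hev : Even i
      · simp only [if_pos hev]
        by_cases him : i / 2 = m
        · simp only [if_pos him]
          exact (g1.fun_pow _).fun_mul (Differentiable.fun_finsetProd fun b _ => g2 b)
        · simp only [if_neg him, mul_one]
          exact g1.fun_pow _
      · simp only [if_neg hev]
        exact differentiable_const _
    · intro hodd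
      rw [if_neg (Nat.not_even_iff_odd.mpr hodd)]
    · intro s hs
      simp only [key]
      by_cases hev : Even i
      · simp only [if_pos hev]
        have hs1 : 1 < (s - (i : ℂ) / 2).re := by
          rw [re_sub_half]; linarith
        have k1 := hasProd_pow (hasProd_dedekind ℚ hs1) (if i / 2 < D then c (i / 2) else 0)
        have e0 : s - ((i : ℂ) / 2 + 1) = s - (i : ℂ) / 2 - 1 := by ring
        rw [e0]
        by_cases him : i / 2 = m
        · simp only [if_pos him]
          have k2 : HasProd (fun p : Nat.Primes => ∏ b, (zl (M b) (s - (i : ℂ) / 2) p *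
              zl (Kf b) (s - (i : ℂ) / 2) p ^ ε b))
              (∏ b, (H b (s - (i : ℂ) / 2) / (s - (i : ℂ) / 2 - 1) ^ e b)) :=
            hasProd_prod fun b _ => h3 b _ hs1
          have k3 := k1.mul k2
          have k4 : (HDed ℚ (s - (i : ℂ) / 2) / (s - (i : ℂ) / 2 - 1)) ^
              (if i / 2 < D then c (i / 2) else 0) *
              ∏ b, (H b (s - (i : ℂ) / 2) / (s - (i : ℂ) / 2 - 1) ^ e b)
              = HDed ℚ (s - (i : ℂ) / 2) ^ (if i / 2 < D then c (i / 2) else 0) *
                (∏ b, H b (s - (i : ℂ) / 2)) / (s - (i : ℂ) / 2 - 1) ^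
                ((if i / 2 < D then c (i / 2) else 0) + ∑ b, e b) := by
            rw [Finset.prod_div_distrib, Finset.prod_pow_eq_pow_sum, div_pow, pow_add,
              div_mul_div_comm]
          rw [← k4]
          exact k3
        · simp only [if_neg him, mul_one, add_zero]
          rw [← div_pow]
          exact k1
      · simp only [if_neg hev, pow_zero, div_one]
        exact hasProd_one

end Pool.Agent.Helper4
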