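import Mathlib
import Pool.Agent.helper4.Core

/-! # L-functions from point counts: the general form -/

set_option linter.unusedSectionVars false

noncomputable section

namespace Pool.Agent.Helper4

open Filter Topology NumberField nonZeroDivisors IsDedekindDomain Module Polynomial

open scoped Classical

section core

variable {β : Type} [Fintype β] (Kf : β → Type) [∀ b, Field (Kf b)] [∀ b, NumberField (Kf b)]
  (d : ∀ b, 𝓞 (Kf b)) (c u w : ℕ → ℕ)

/-- the Frobenius eigenvalues -/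
def specC (p i : ℕ) : Multiset ℂ :=
  if Even i then c (i / 2) • ({(p : ℂ) ^ (i / 2)} : Multiset ℂ) +
    ∑ b, ((u (i / 2) • specF (Kf b) p (fun _ => 1)).map (fun α => (p : ℂ) ^ (i / 2) * α) +
      (w (i / 2) • specF (Kf b) p (fun q => chi (d b) q.asIdeal)).map
        (fun α => (p : ℂ) ^ (i / 2) * α))
  else 0

theorem isFrobSpec_specC (p : ℕ) [hp : Fact p.Prime] (hp2 : p ≠ 2) (D : ℕ)
    (hD : ∀ k, D ≤ k → c k = 0 ∧ u k = 0 ∧ w k = 0)
    (hd : ∀ b, ∀ q : PK (Kf b), (p : 𝓞 (Kf b)) ∈ q.asIdeal → d b ∉ q.asIdeal) (N : ℕ → ℕ)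
    (hN : ∀ r, 1 ≤ r → (N r : ℂ) = ∑ k ∈ Finset.range D, (c k : ℂ) * ((p : ℂ) ^ r) ^ k +
      (∑ k ∈ Finset.range D, (u k : ℂ) * ((p : ℂ) ^ r) ^ k) *
        ∑ b, (Nat.card (𝓞 (Kf b) →+* GaloisField p r) : ℂ) +
      (∑ k ∈ Finset.range D, (w k : ℂ) * ((p : ℂ) ^ r) ^ k) *
        ∑ b, ∑ᶠ φ : 𝓞 (Kf b) →+* GaloisField p r, eta (GaloisField p r) (φ (d b))) :
    IsFrobSpec p N (specC Kf d c u w p) := by
  have hzero : ∀ j, 2 * D ≤ j → specC Kf d c u w p j = 0 := by
    intro j hj
    unfold specC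
    split_ifs with h1
    · obtain ⟨e1, e2, e3⟩ := hD (j / 2) (by omega)
      rw [e1, e2, e3]
      simp
    · rfl
  refine ⟨?_, ⟨2 * D, hzero⟩, ?_⟩
  · intro j α hα
    unfold specC at hα
    by_cases h : Even j
    · rw [if_pos h] at hα
      obtain ⟨k, rfl⟩ := h
      have e1 : (k + k) / 2 = k := by omega
      rw [e1] at hα
      push_cast
      rw [add_self_div_two, Real.rpow_natCast]
      rw [Multiset.mem_add] at hα
      rcases hα with hα | hα
      · have h2 := Multiset.mem_of_mem_nsmul hα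
        rw [Multiset.mem_singleton] at h2
        rw [h2, norm_pow, Complex.norm_natCast]
      · rw [Multiset.mem_sum] at hα
        obtain ⟨b, -, hα⟩ := hα
        rw [Multiset.mem_add, Multiset.mem_map, Multiset.mem_map] at hα
        rcases hα with ⟨γ, hγ, rfl⟩ | ⟨γ, hγ, rfl⟩
        · rw [norm_mul, norm_of_mem_specF hp.out (fun q hq => norm_one)
            (Multiset.mem_of_mem_nsmul hγ), mul_one, norm_pow, Complex.norm_natCast]
        · rw [norm_mul, norm_of_mem_specF hp.out (fun q hq => norm_chi (hd b q hq))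
            (Multiset.mem_of_mem_nsmul hγ), mul_one, norm_pow, Complex.norm_natCast]
    · rw [if_neg h] at hα
      simp at hα
  · intro r hr
    have hcard : Nat.card (GaloisField p r) = p ^ r := GaloisField.card p r (by omega)
    have h2 : ∑ᶠ j, (-1 : ℂ) ^ j * ((specC Kf d c u w p j).map (fun α => α ^ r)).sum
        = ∑ k ∈ Finset.range D,
          ((specC Kf d c u w p (2 * k)).map (fun α => α ^ r)).sum := by
      rw [finsum_eq_sum_of_support_subset (s := (Finset.range D).image (fun k => 2 * k))]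
      · rw [Finset.sum_image]
        · refine Finset.sum_congr rfl fun k _ => ?_
          rw [pow_mul]; simp
        · intro x _ y _ hxy
          simp only at hxy
          omega
      · intro j hj
        rw [Function.mem_support] at hj
        rw [Finset.coe_image, Set.mem_image]
        by_cases hev : Even j
        · obtain ⟨k, rfl⟩ := hev
          refine ⟨k, ?_, by omega⟩
          rw [Finset.coe_range, Set.mem_Iio]
          by_contra h3
          apply hj
          rw [hzero _ (by omega)]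
          simp
        · exfalso
          apply hj
          unfold specC
          rw [if_neg hev]
          simp
    rw [h2, hN r hr]
    have h3 : ∀ k, ((specC Kf d c u w p (2 * k)).map (fun α => α ^ r)).sum
        = (c k : ℂ) * ((p : ℂ) ^ r) ^ k + (u k : ℂ) * ((p : ℂ) ^ r) ^ k *
          (∑ b, (Nat.card (𝓞 (Kf b) →+* GaloisField p r) : ℂ)) +
          (w k : ℂ) * ((p : ℂ) ^ r) ^ k * ∑ b, ∑ᶠ φ : 𝓞 (Kf b) →+* GaloisField p r,
            eta (GaloisField p r) (φ (d b)) := by
      intro k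
      unfold specC
      rw [if_pos (even_two_mul k), Nat.mul_div_cancel_left k two_pos, Multiset.map_add,
        Multiset.sum_add, sum_map_finset_sum, add_assoc]
      congr 1
      · rw [Multiset.map_nsmul, Multiset.sum_nsmul, nsmul_eq_mul, Multiset.map_singleton,
          Multiset.sum_singleton, ← pow_mul, ← pow_mul, mul_comm k r]
      · rw [Finset.mul_sum, Finset.mul_sum, ← Finset.sum_add_distrib]
        refine Finset.sum_congr rfl fun b _ => ?_
        have h4 : (fun α : ℂ => α ^ r) ∘ (fun α : ℂ => (p : ℂ) ^ k * α)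
            = fun α => ((p : ℂ) ^ r) ^ k * α ^ r := by
          funext α
          simp only [Function.comp]
          rw [mul_pow, ← pow_mul, ← pow_mul, mul_comm k r]
        rw [sum_eta_hom hp.out hp2 (d b) (hd b) (GaloisField p r) r hcard,
          ← sum_pow_specF_one hp.out (GaloisField p r) r hcard, Multiset.map_add,
          Multiset.sum_add, Multiset.map_map, Multiset.map_map, h4, Multiset.sum_map_mul_left,
          Multiset.sum_map_mul_left, Multiset.map_nsmul, Multiset.map_nsmul, Multiset.sum_nsmul,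
          Multiset.sum_nsmul, nsmul_eq_mul, nsmul_eq_mul]
        ring
    rw [Finset.sum_congr rfl (fun k _ => h3 k), Finset.sum_add_distrib, Finset.sum_add_distrib,
      ← Finset.sum_mul, ← Finset.sum_mul]

/-- Euler factors of the Frobenius eigenvalues -/
lemma prod_specC {p : ℕ} (hp : p.Prime) (i : ℕ) (s : ℂ) :
    ((specC Kf d c u w p i).map (fun α => (1 - α * (p : ℂ) ^ (-s))⁻¹)).prod
      = if Even i then zl ℚ (s - (i : ℂ) / 2) p ^ (c (i / 2)) *
        ∏ b, (zl (Kf b) (s - (i : ℂ) / 2) p ^ (u (i / 2)) *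
          locF (fun q : PK (Kf b) => chi (d b) q.asIdeal *
          (Ideal.absNorm q.asIdeal : ℂ) ^ (-(s - (i : ℂ) / 2))) p ^ (w (i / 2))) else 1 := by
  unfold specC
  by_cases h : Even i
  · rw [if_pos h, if_pos h, Multiset.map_add, Multiset.prod_add]
    obtain ⟨k, rfl⟩ := h
    have e1 : (k + k) / 2 = k := by omega
    rw [e1]
    congr 1
    · rw [zl_rat hp, cpow_shift hp, Multiset.map_nsmul, Multiset.prod_nsmul,
        Multiset.map_singleton, Multiset.prod_singleton]
    · rw [prod_map_finset_sum]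
      refine Finset.prod_congr rfl fun b _ => ?_
      have h4 : ∀ a : PK (Kf b) → ℂ, ((specF (Kf b) p a).map ((fun α => (1 - α * (p : ℂ) ^ (-s))⁻¹) ∘
          (fun α : ℂ => (p : ℂ) ^ k * α))).prod
          = locF (fun q : PK (Kf b) => a q *
          (Ideal.absNorm q.asIdeal : ℂ) ^ (-(s - ((k + k : ℕ) : ℂ) / 2))) p := by
        intro a
        rw [← prod_specF hp]
        congr 1
        apply Multiset.map_congr rfl
        intro α _
        simp only [Function.comp]
        rw [cpow_shift hp]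
        ring
      rw [Multiset.map_add, Multiset.prod_add, Multiset.map_map, Multiset.map_map,
        Multiset.map_nsmul, Multiset.map_nsmul, Multiset.prod_nsmul, Multiset.prod_nsmul, h4, h4]
      congr 2
      unfold zl
      simp only [one_mul]
  · rw [if_neg h, if_neg h]
    simp

end core

theorem core2 {β : Type} [Fintype β] (Kf : β → Type) [iF : ∀ b, Field (Kf b)]
    [iN : ∀ b, NumberField (Kf b)] (d : ∀ b, 𝓞 (Kf b)) (D : ℕ) (c u w : ℕ → ℕ)
    (hD : ∀ k, D ≤ k → c k = 0 ∧ u k = 0 ∧ w k = 0) (Z : Set ℕ)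
    (N : ∀ (p : ℕ) [Fact p.Prime], ℕ → ℕ)
    (hgood : ∀ p : ℕ, p.Prime → p ∉ Z → p ≠ 2 ∧ ∀ b, ∀ q : PK (Kf b),
      (p : 𝓞 (Kf b)) ∈ q.asIdeal → d b ∉ q.asIdeal)
    (hN : ∀ (p : ℕ) [Fact p.Prime], p ∉ Z → ∀ r, 1 ≤ r → (N p r : ℂ)
      = ∑ k ∈ Finset.range D, (c k : ℂ) * ((p : ℂ) ^ r) ^ k +
      (∑ k ∈ Finset.range D, (u k : ℂ) * ((p : ℂ) ^ r) ^ k) *
        ∑ b, (Nat.card (𝓞 (Kf b) →+* GaloisField p r) : ℂ) +
      (∑ k ∈ Finset.range D, (w k : ℂ) * ((p : ℂ) ^ r) ^ k) *
        ∑ b, ∑ᶠ φ : 𝓞 (Kf b) →+* GaloisField p r, eta (GaloisField p r) (φ (d b))) :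
    Q1Sys Z N := by
  have hspec : ∀ (p : ℕ) [Fact p.Prime], p ∉ Z → IsFrobSpec p (N p) (specC Kf d c u w p) := by
    intro p hp hpZ
    obtain ⟨h1, h2⟩ := hgood p hp.out hpZ
    exact isFrobSpec_specC Kf d c u w p h1 D hD h2 (N p) (hN p hpZ)
  refine ⟨fun p hp hpZ => ⟨_, hspec p hpZ, fun B hB => hB.unique hp.out.one_lt (hspec p hpZ)⟩, ?_⟩
  choose M iMF iMN ε H e h1 h2 h3 using fun b => quad_data (Kf b) (d b)
  -- the fields
  let K : Unit ⊕ (β ⊕ β) → Type := Sum.elim (fun _ => ℚ) (Sum.elim M Kf)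
  let iK : ∀ l, Field (K l) := fun l => match l with
    | Sum.inl _ => (inferInstance : Field ℚ)
    | Sum.inr (Sum.inl b) => iMF b
    | Sum.inr (Sum.inr b) => iF b
  let iKN : ∀ l, @NumberField (K l) (iK l) := fun l => match l with
    | Sum.inl _ => (inferInstance : NumberField ℚ)
    | Sum.inr (Sum.inl b) => iMN b
    | Sum.inr (Sum.inr b) => iN b
  let mm : Unit ⊕ (β ⊕ β) → ℕ → ℤ := fun l i => match l with
    | Sum.inl _ => if Even i then (c (i / 2) : ℤ) else 0
    | Sum.inr (Sum.inl _) => if Even i then (w (i / 2) : ℤ) else 0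
    | Sum.inr (Sum.inr b) => if Even i then (u (i / 2) : ℤ) + ε b * (w (i / 2) : ℤ) else 0
  have hzl : ∀ (b : β) (s : ℂ) (p : ℕ), 0 < s.re → p.Prime → zl (Kf b) s p ≠ 0 := by
    intro b s p hs hp
    exact zl_ne_zero hp.ne_zero hs
  have key : ∀ (i : ℕ) (s : ℂ) (p : ℕ), (i : ℝ) / 2 < s.re → p.Prime →
      ∏ l, zl (K l) (s - (i : ℂ) / 2) p ^ mm l i
      = if Even i then zl ℚ (s - (i : ℂ) / 2) p ^ (c (i / 2)) *
        ∏ b, (zl (Kf b) (s - (i : ℂ) / 2) p ^ (u (i / 2)) *
          (zl (M b) (s - (i : ℂ) / 2) p * zl (Kf b) (s - (i : ℂ) / 2) p ^ ε b) ^ (w (i / 2)))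
        else 1 := by
    intro i s p hs hp
    rw [Fintype.prod_sum_type, Fintype.prod_sum_type]
    have f1 : ∏ l : Unit, zl (K (Sum.inl l)) (s - (i : ℂ) / 2) p ^ mm (Sum.inl l) i
        = zl ℚ (s - (i : ℂ) / 2) p ^ (if Even i then (c (i / 2) : ℤ) else 0) := by
      rw [Fintype.prod_unique]
      rfl
    have f2 : ∏ b : β, zl (K (Sum.inr (Sum.inl b))) (s - (i : ℂ) / 2) p ^ mm (Sum.inr (Sum.inl b)) i
        = ∏ b : β, zl (M b) (s - (i : ℂ) / 2) p ^ (if Even i then (w (i / 2) : ℤ) else 0) := rfl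
    have f3 : ∏ b : β, zl (K (Sum.inr (Sum.inr b))) (s - (i : ℂ) / 2) p ^ mm (Sum.inr (Sum.inr b)) i
        = ∏ b : β, zl (Kf b) (s - (i : ℂ) / 2) p ^
          (if Even i then (u (i / 2) : ℤ) + ε b * (w (i / 2) : ℤ) else 0) := rfl
    rw [f1, f2, f3]
    by_cases hev : Even i
    · simp only [hev, if_true]
      rw [zpow_natCast, ← Finset.prod_mul_distrib]
      congr 1
      refine Finset.prod_congr rfl fun b _ => ?_
      have hs0 : 0 < (s - (i : ℂ) / 2).re := by
        rw [re_sub_half]; linarith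
      rw [zpow_natCast, zpow_add₀ (hzl b _ p hs0 hp), zpow_natCast, zpow_mul, zpow_natCast, mul_pow]
      ring
    · simp [hev]
  refine ⟨Unit ⊕ (β ⊕ β), inferInstance, K, iK, iKN, mm, ?_, ?_⟩
  · intro p hp B hpZ hB i s hs
    obtain ⟨g1, g2⟩ := hgood p hp.out hpZ
    rw [hB.unique hp.out.one_lt (hspec p hpZ), prod_specC Kf d c u w hp.out, key i s p hs hp.out]
    have hs0 : 0 < (s - (i : ℂ) / 2).re := by
      rw [re_sub_half]; linarith
    by_cases hev : Even i
    · rw [if_pos hev, if_pos hev]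
      congr 1
      refine Finset.prod_congr rfl fun b _ => ?_
      rw [h1 b p hp.out g1 (g2 b) _ hs0]
    · rw [if_neg hev, if_neg hev]
  · intro i
    refine ⟨fun s => if Even i then HDed ℚ (s - (i : ℂ) / 2) ^ (c (i / 2)) *
      ∏ b, (HDed (Kf b) (s - (i : ℂ) / 2) ^ (u (i / 2)) * H b (s - (i : ℂ) / 2) ^ (w (i / 2))) else 1,
      if Even i then c (i / 2) + ∑ b, (u (i / 2) + e b * w (i / 2)) else 0,
      ?_, ?_, ?_⟩
    · have g1 : Differentiable ℂ (fun s => HDed ℚ (s - (i : ℂ) / 2)) :=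
        (differentiable_HDed ℚ).comp (differentiable_id.sub_const _)
      have g2 : ∀ b, Differentiable ℂ (fun s => H b (s - (i : ℂ) / 2)) := fun b =>
        (h2 b).comp (differentiable_id.sub_const _)
      have g3 : ∀ b, Differentiable ℂ (fun s => HDed (Kf b) (s - (i : ℂ) / 2)) := fun b =>
        (differentiable_HDed (Kf b)).comp (differentiable_id.sub_const _)
      by_cases hev : Even i
      · simp only [if_pos hev]
        exact (g1.fun_pow _).fun_mul (Differentiable.fun_finsetProd fun b _ =>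
          ((g3 b).fun_pow _).fun_mul ((g2 b).fun_pow _))
      · simp only [if_neg hev]
        exact differentiable_const _
    · intro hodd
      rw [if_neg (Nat.not_even_iff_odd.mpr hodd)]
    · intro s hs
      have hs2 : (i : ℝ) / 2 < s.re := by linarith
      have hkey : (fun p : Nat.Primes => ∏ l, zl (K l) (s - (i : ℂ) / 2) p ^ mm l i)
          = fun p : Nat.Primes => (if Even i then zl ℚ (s - (i : ℂ) / 2) p ^ (c (i / 2)) *
        ∏ b, (zl (Kf b) (s - (i : ℂ) / 2) p ^ (u (i / 2)) *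
          (zl (M b) (s - (i : ℂ) / 2) p * zl (Kf b) (s - (i : ℂ) / 2) p ^ ε b) ^ (w (i / 2)))
        else 1) := by
        funext p
        exact key i s p hs2 p.2
      rw [hkey]
      by_cases hev : Even i
      · simp only [if_pos hev]
        have hs1 : 1 < (s - (i : ℂ) / 2).re := by
          rw [re_sub_half]; linarith
        have k1 := hasProd_pow (hasProd_dedekind ℚ hs1) (c (i / 2))
        have e0 : s - ((i : ℂ) / 2 + 1) = s - (i : ℂ) / 2 - 1 := by ring
        rw [e0]
        have k2 : HasProd (fun p : Nat.Primes => ∏ b, (zl (Kf b) (s - (i : ℂ) / 2) p ^ (u (i / 2)) *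
            (zl (M b) (s - (i : ℂ) / 2) p * zl (Kf b) (s - (i : ℂ) / 2) p ^ ε b) ^ (w (i / 2))))
            (∏ b, ((HDed (Kf b) (s - (i : ℂ) / 2) / (s - (i : ℂ) / 2 - 1)) ^ (u (i / 2)) *
              (H b (s - (i : ℂ) / 2) / (s - (i : ℂ) / 2 - 1) ^ e b) ^ (w (i / 2)))) :=
          hasProd_prod fun b _ => (hasProd_pow (hasProd_dedekind (Kf b) hs1) _).mul
            (hasProd_pow (h3 b _ hs1) _)
        have k3 := k1.mul k2
        have k4 : (HDed ℚ (s - (i : ℂ) / 2) / (s - (i : ℂ) / 2 - 1)) ^ (c (i / 2)) *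
            ∏ b, ((HDed (Kf b) (s - (i : ℂ) / 2) / (s - (i : ℂ) / 2 - 1)) ^ (u (i / 2)) *
              (H b (s - (i : ℂ) / 2) / (s - (i : ℂ) / 2 - 1) ^ e b) ^ (w (i / 2)))
            = (HDed ℚ (s - (i : ℂ) / 2) ^ (c (i / 2)) *
              ∏ b, (HDed (Kf b) (s - (i : ℂ) / 2) ^ (u (i / 2)) * H b (s - (i : ℂ) / 2) ^ (w (i / 2))))
              / (s - (i : ℂ) / 2 - 1) ^ (c (i / 2) + ∑ b, (u (i / 2) + e b * w (i / 2))) := by
          have k5 : ∀ b, ((HDed (Kf b) (s - (i : ℂ) / 2) / (s - (i : ℂ) / 2 - 1)) ^ (u (i / 2)) *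
              (H b (s - (i : ℂ) / 2) / (s - (i : ℂ) / 2 - 1) ^ e b) ^ (w (i / 2)))
              = (HDed (Kf b) (s - (i : ℂ) / 2) ^ (u (i / 2)) * H b (s - (i : ℂ) / 2) ^ (w (i / 2)))
                / (s - (i : ℂ) / 2 - 1) ^ (u (i / 2) + e b * w (i / 2)) := by
            intro b
            rw [div_pow, div_pow, ← pow_mul, pow_add, div_mul_div_comm]
          rw [Finset.prod_congr rfl (fun b _ => k5 b), Finset.prod_div_distrib,
            Finset.prod_pow_eq_pow_sum, div_pow, pow_add, div_mul_div_comm]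
        rw [← k4]
        exact k3
      · simp only [if_neg hev, pow_zero, div_one]
        exact hasProd_one

end Pool.Agent.Helper4
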