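import Mathlib

/-! # Quadric bundles over the projective line: definitions -/

noncomputable section

namespace Pool.Agent.Helper4

open Matrix Polynomial Module

/-- the fibre over the point `t` of a matrix of polynomials -/
def fib {n : ℕ} (A : Matrix (Fin n) (Fin n) ℤ[X]) (F : Type*) [Field F] (t : F) :
    Matrix (Fin n) (Fin n) F := A.map (fun P => P.eval₂ (Int.castRingHom F) t)

/-- the fibre at infinity of the bundle with degrees `δ`: the entry `(i, j)` is the coefficient of
degree `(δ i + δ j) / 2` -/
def infM {n : ℕ} (δ : Fin n → ℤ) (A : Matrix (Fin n) (Fin n) ℤ[X]) : Matrix (Fin n) (Fin n) ℤ :=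
  Matrix.of fun i j => if 0 ≤ δ i + δ j then (A i j).coeff ((δ i + δ j) / 2).toNat else 0

/-- **Bundles of quadratic forms of odd rank `2 m + 1` over the projective line with smooth total
space of the quadric bundle**: the matrix `A` has polynomial entries, `A i j` being the
dehomogenization of a form of degree `(δ i + δ j) / 2`; the fibre at infinity is nondegenerate and
the determinant is separable. -/
structure IsBundle (m : ℕ) (δ : Fin (2 * m + 1) → ℤ)
    (A : Matrix (Fin (2 * m + 1)) (Fin (2 * m + 1)) ℤ[X]) : Prop where
  symm : A.IsSymm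
  parity : ∀ i j, Even (δ i + δ j)
  degree : ∀ i j k, (A i j).coeff k ≠ 0 → 2 * (k : ℤ) ≤ δ i + δ j
  infinity : (infM δ A).det ≠ 0
  separable : (A.det.map (Int.castRingHom ℚ)).Separable

/-- number of isotropic subspaces of dimension `k` of the quadratic form with matrix `S` -/
def isoCount (F : Type*) [Field F] {n : ℕ} (S : Matrix (Fin n) (Fin n) F) (k : ℕ) : ℕ :=
  Nat.card {U : Submodule F (Fin n → F) // finrank F U = k ∧ ∀ x ∈ U, x ⬝ᵥ S *ᵥ x = 0}

/-- number of points over `F` of the relative orthogonal Grassmannian of `k`-dimensional isotropic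
subspaces of the fibres; for `k = 1` this is the quadric bundle -/
def ogCount {n : ℕ} (δ : Fin n → ℤ) (A : Matrix (Fin n) (Fin n) ℤ[X]) (k : ℕ) (F : Type*)
    [Field F] : ℕ :=
  (∑ᶠ t : F, isoCount F (fib A F t) k) + isoCount F ((infM δ A).map (Int.castRingHom F)) k

end Pool.Agent.Helper4
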