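import Mathlib
import Pool.Agent.helper4.QuadChar

/-! # Zeros of quadratic forms over finite fields -/

set_option linter.unusedSectionVars false

noncomputable section

namespace Pool.Agent.Helper4

open Matrix

open scoped Classical

section

variable {F : Type*} [Field F] [Fintype F]

lemma ringChar_ne_two (h2 : (2 : F) ≠ 0) : ringChar F ≠ 2 := by
  intro h
  apply h2
  have h3 : ((2 : ℕ) : F) = 0 := by
    rw [← h]; exact ringChar.Nat.cast_ringChar
  exact_mod_cast h3

lemma prim_ne_one {ψ : AddChar F ℂ} (hψ : ψ.IsPrimitive) : ψ ≠ 1 := by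
  have h := hψ (one_ne_zero (α := F))
  rwa [AddChar.mulShift_one] at h

lemma addChar_sum {ι : Type*} (ψ : AddChar F ℂ) (s : Finset ι) (f : ι → F) :
    ψ (∑ i ∈ s, f i) = ∏ i ∈ s, ψ (f i) := by
  classical
  induction s using Finset.induction_on with
  | empty => simp
  | insert a s ha ih => rw [Finset.sum_insert ha, Finset.prod_insert ha, AddChar.map_add_eq_mul, ih]

/-- quadratic Gauss sum -/
def gq (ψ : AddChar F ℂ) (u : F) : ℂ := ∑ x : F, ψ (u * x ^ 2)

lemma gq_zero (ψ : AddChar F ℂ) : gq ψ 0 = (Fintype.card F : ℂ) := by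
  unfold gq
  simp

lemma gq_ne (h2 : (2 : F) ≠ 0) {ψ : AddChar F ℂ} (hψ : ψ ≠ 1) {u : F} (hu : u ≠ 0) :
    gq ψ u = eta F u * gq ψ 1 := by
  unfold gq
  rw [gauss_field (ringChar_ne_two h2) ψ hψ u hu, eta_eq_quadraticChar]
  simp

lemma gq_sq (h2 : (2 : F) ≠ 0) {ψ : AddChar F ℂ} (hψ : ψ.IsPrimitive) :
    gq ψ 1 ^ 2 = eta F (-1) * (Fintype.card F : ℂ) := by
  set χ : MulChar F ℂ := (quadraticChar F).ringHomComp (Int.castRingHom ℂ) with hχ
  have hinj : Function.Injective (Int.castRingHom ℂ) := Int.cast_injective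
  have hne : χ ≠ 1 := by
    rw [hχ, Ne, MulChar.ringHomComp_eq_one_iff hinj]
    exact quadraticChar_ne_one (ringChar_ne_two h2)
  have hquad : χ.IsQuadratic := by
    rw [hχ]
    exact (quadraticChar_isQuadratic F).comp _
  have h1 := gaussSum_sq hne hquad hψ
  have hψ1 : ψ ≠ 1 := prim_ne_one hψ
  have h3 : gq ψ 1 = gaussSum χ ψ := by
    unfold gq gaussSum
    simp only [one_mul]
    rw [sum_sq_field (ringChar_ne_two h2) (fun y => ψ y)]
    have h0 : ∑ y : F, ψ y = 0 := AddChar.sum_eq_zero_of_ne_one hψ1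
    simp only [add_mul, one_mul, Finset.sum_add_distrib]
    rw [h0, zero_add]
    rfl
  rw [h3, h1, eta_eq_quadraticChar]
  rfl

variable {ι : Type*} [Fintype ι] [DecidableEq ι]

lemma card_diag (ψ : AddChar F ℂ) (hψ : ψ.IsPrimitive) (d : ι → F) :
    (Fintype.card F : ℂ) * (Nat.card {x : ι → F // ∑ i, d i * x i ^ 2 = 0} : ℂ)
      = ∑ t : F, ∏ i, gq ψ (t * d i) := by
  have h1 : ∀ t : F, ∏ i, gq ψ (t * d i) = ∑ x : ι → F, ψ (t * ∑ i, d i * x i ^ 2) := by
    intro t
    unfold gq
    rw [Finset.prod_univ_sum, Fintype.piFinset_univ]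
    refine Finset.sum_congr rfl fun x _ => ?_
    rw [Finset.mul_sum, addChar_sum]
    refine Finset.prod_congr rfl fun i _ => ?_
    congr 1
    ring
  simp_rw [h1]
  rw [Finset.sum_comm]
  have h2 : ∀ x : ι → F, ∑ t : F, ψ (t * ∑ i, d i * x i ^ 2)
      = if ∑ i, d i * x i ^ 2 = 0 then (Fintype.card F : ℂ) else 0 := by
    intro x
    have h := AddChar.sum_mulShift (∑ i, d i * x i ^ 2) hψ
    rw [h]
    split_ifs <;> simp
  simp_rw [h2]
  rw [← Finset.sum_filter, Finset.sum_const, nsmul_eq_mul, mul_comm]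
  congr 2
  rw [Nat.card_eq_fintype_card, Fintype.card_subtype]

lemma eta_prod (s : Finset ι) (d : ι → F) : eta F (∏ i ∈ s, d i) = ∏ i ∈ s, eta F (d i) := by
  induction s using Finset.induction_on with
  | empty => simp [eta_one]
  | insert a s ha ih => rw [Finset.prod_insert ha, Finset.prod_insert ha, eta_mul, ih]

lemma eta_pow' (x : F) (n : ℕ) : eta F (x ^ n) = eta F x ^ n := by
  induction n with
  | zero => simp [eta_one]
  | succ n ih => rw [pow_succ, pow_succ, eta_mul, ih]

lemma exists_prim (F : Type*) [Field F] [Finite F] : ∃ ψ : AddChar F ℂ, ψ.IsPrimitive :=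
  ⟨AddChar.FiniteField.primitiveChar_to_Complex F,
    AddChar.FiniteField.primitiveChar_to_Complex_isPrimitive F⟩

lemma card_ne_zeroC : (Fintype.card F : ℂ) ≠ 0 := by
  have : Fintype.card F ≠ 0 := Fintype.card_ne_zero
  exact_mod_cast this

lemma sum_split (g : F → ℂ) : ∑ t : F, g t = g 0 + ∑ t ∈ Finset.univ.erase (0 : F), g t := by
  rw [← Finset.add_sum_erase Finset.univ g (Finset.mem_univ 0)]

/-- nondegenerate diagonal forms of odd rank -/
lemma card_diag_nondeg (h2 : (2 : F) ≠ 0) (m : ℕ) (hn : Fintype.card ι = 2 * m + 1) (d : ι → F)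
    (hd : ∀ i, d i ≠ 0) :
    (Nat.card {x : ι → F // ∑ i, d i * x i ^ 2 = 0} : ℂ) = (Fintype.card F : ℂ) ^ (2 * m) := by
  obtain ⟨ψ, hψ⟩ := exists_prim F
  have h := card_diag ψ hψ d
  have hψ1 : ψ ≠ 1 := prim_ne_one hψ
  rw [sum_split] at h
  have h3 : ∑ t ∈ Finset.univ.erase (0 : F), ∏ i, gq ψ (t * d i) = 0 := by
    have h4 : ∀ t ∈ Finset.univ.erase (0 : F), ∏ i, gq ψ (t * d i)
        = eta F t * ((∏ i, eta F (d i)) * gq ψ 1 ^ (2 * m + 1)) := by
      intro t ht
      have ht0 : t ≠ 0 := Finset.ne_of_mem_erase ht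
      have h5 : ∀ i, gq ψ (t * d i) = eta F t * (eta F (d i) * gq ψ 1) := by
        intro i
        rw [gq_ne h2 hψ1 (mul_ne_zero ht0 (hd i)), eta_mul]
        ring
      rw [Finset.prod_congr rfl (fun i _ => h5 i), Finset.prod_mul_distrib, Finset.prod_mul_distrib,
        Finset.prod_const, Finset.prod_const, Finset.card_univ, hn]
      have h6 : eta F t ^ (2 * m + 1) = eta F t := by
        rw [pow_succ, pow_mul, sq, eta_sq F ht0, one_pow, one_mul]
      rw [h6]
    rw [Finset.sum_congr rfl h4, ← Finset.sum_mul]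
    have h7 := sum_eta F h2
    rw [sum_split, eta_zero, zero_add] at h7
    rw [h7, zero_mul]
  have h8 : ∏ i : ι, gq ψ (0 * d i) = (Fintype.card F : ℂ) ^ (2 * m + 1) := by
    have : ∀ i : ι, gq ψ (0 * d i) = (Fintype.card F : ℂ) := by
      intro i
      rw [zero_mul, gq_zero]
    rw [Finset.prod_congr rfl (fun i _ => this i), Finset.prod_const, Finset.card_univ, hn]
  rw [h3, h8, add_zero, pow_succ, mul_comm] at h
  exact mul_right_cancel₀ card_ne_zeroC h

/-- diagonal forms of corank one -/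
lemma card_diag_corank (h2 : (2 : F) ≠ 0) (m : ℕ) (hn : Fintype.card ι = 2 * m + 1) (d : ι → F)
    (k : ι) (hk : d k = 0) (hd : ∀ i, i ≠ k → d i ≠ 0) :
    (Nat.card {x : ι → F // ∑ i, d i * x i ^ 2 = 0} : ℂ) = (Fintype.card F : ℂ) ^ (2 * m)
      + ((Fintype.card F : ℂ) - 1) * (Fintype.card F : ℂ) ^ m *
        eta F ((-1) ^ m * ∏ i ∈ Finset.univ.erase k, d i) := by
  obtain ⟨ψ, hψ⟩ := exists_prim F
  have h := card_diag ψ hψ d
  have hψ1 : ψ ≠ 1 := prim_ne_one hψ
  rw [sum_split] at h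
  have hcard : (Finset.univ.erase k).card = 2 * m := by
    rw [Finset.card_erase_of_mem (Finset.mem_univ k), Finset.card_univ, hn]
    rfl
  have h3 : ∑ t ∈ Finset.univ.erase (0 : F), ∏ i, gq ψ (t * d i)
      = ((Fintype.card F : ℂ) - 1) * ((Fintype.card F : ℂ) * ((Fintype.card F : ℂ) ^ m *
        eta F ((-1) ^ m * ∏ i ∈ Finset.univ.erase k, d i))) := by
    have h4 : ∀ t ∈ Finset.univ.erase (0 : F), ∏ i, gq ψ (t * d i)
        = (Fintype.card F : ℂ) * ((Fintype.card F : ℂ) ^ m *
        eta F ((-1) ^ m * ∏ i ∈ Finset.univ.erase k, d i)) := by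
      intro t ht
      have ht0 : t ≠ 0 := Finset.ne_of_mem_erase ht
      rw [← Finset.mul_prod_erase Finset.univ _ (Finset.mem_univ k), hk, mul_zero, gq_zero]
      congr 1
      have h5 : ∀ i ∈ Finset.univ.erase k, gq ψ (t * d i) = eta F t * (eta F (d i) * gq ψ 1) := by
        intro i hi
        rw [gq_ne h2 hψ1 (mul_ne_zero ht0 (hd i (Finset.ne_of_mem_erase hi))), eta_mul]
        ring
      rw [Finset.prod_congr rfl h5, Finset.prod_mul_distrib, Finset.prod_mul_distrib,
        Finset.prod_const, Finset.prod_const, hcard, pow_mul (eta F t), sq, eta_sq F ht0, one_pow,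
        one_mul, pow_mul, gq_sq h2 hψ, eta_mul, eta_prod, eta_pow', mul_pow]
      ring
    rw [Finset.sum_congr rfl h4, Finset.sum_const, nsmul_eq_mul,
      Finset.card_erase_of_mem (Finset.mem_univ (0 : F)), Finset.card_univ]
    rw [Nat.cast_sub (Fintype.card_pos), Nat.cast_one]
  have h8 : ∏ i : ι, gq ψ (0 * d i) = (Fintype.card F : ℂ) * (Fintype.card F : ℂ) ^ (2 * m) := by
    have : ∀ i : ι, gq ψ (0 * d i) = (Fintype.card F : ℂ) := by
      intro i
      rw [zero_mul, gq_zero]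
    rw [Finset.prod_congr rfl (fun i _ => this i), Finset.prod_const, Finset.card_univ, hn, pow_succ,
      mul_comm]
  rw [h3, h8] at h
  apply mul_left_cancel₀ (card_ne_zeroC (F := F))
  rw [h]
  ring

end

section matrix

variable {F : Type*} [Field F]

/-- diagonalization of symmetric matrices -/
lemma exists_diagF (h2 : (2 : F) ≠ 0) {n : ℕ} (S : Matrix (Fin n) (Fin n) F) (hS : S.IsSymm) :
    ∃ (P : Matrix (Fin n) (Fin n) F) (d : Fin n → F), P.det ≠ 0 ∧
      S = P.transpose * Matrix.diagonal d * P := by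
  have : Invertible (2 : F) := invertibleOfNonzero h2
  have hsymm : (Matrix.toBilin' S).IsSymm := by
    rw [LinearMap.BilinForm.isSymm_def]
    intro x y
    rw [Matrix.toBilin'_apply', Matrix.toBilin'_apply', Matrix.dotProduct_mulVec,
      ← Matrix.mulVec_transpose, hS.eq, dotProduct_comm]
  obtain ⟨v, hv⟩ := LinearMap.BilinForm.exists_orthogonal_basis
    (LinearMap.BilinForm.isSymm_iff.mp hsymm)
  have hfr : Module.finrank F (Fin n → F) = n := by simp
  set v' := v.reindex (finCongr hfr) with hv'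
  set Q : Matrix (Fin n) (Fin n) F := Matrix.of fun i j => v' j i with hQ
  have hQdet : Q.det ≠ 0 := by
    have h1 : Q = (Pi.basisFun F (Fin n)).toMatrix v' := by
      ext i j
      rw [Module.Basis.toMatrix_apply, Pi.basisFun_repr]
      rfl
    rw [h1, ← Module.Basis.det_apply]
    exact ((Pi.basisFun F (Fin n)).isUnit_det v').ne_zero
  have hD : Q.transpose * S * Q = Matrix.diagonal (fun i => (Q.transpose * S * Q) i i) := by
    ext i j
    by_cases hij : i = j
    · subst hij
      rw [Matrix.diagonal_apply_eq]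
    · rw [Matrix.diagonal_apply_ne _ hij]
      have h1 : (Q.transpose * S * Q) i j = Matrix.toBilin' S (v' i) (v' j) := by
        rw [Matrix.toBilin'_apply', Matrix.mul_assoc, Matrix.mul_apply]
        unfold dotProduct Matrix.mulVec
        refine Finset.sum_congr rfl fun k _ => ?_
        rw [Matrix.mul_apply]
        rfl
      rw [h1, hv', Module.Basis.reindex_apply, Module.Basis.reindex_apply]
      apply hv
      intro h
      apply hij
      exact (finCongr hfr).symm.injective h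
  refine ⟨Q⁻¹, fun i => (Q.transpose * S * Q) i i, ?_, ?_⟩
  · rw [Matrix.det_nonsing_inv, Ring.inverse_eq_inv']
    exact inv_ne_zero hQdet
  · rw [← hD]
    have hu : IsUnit Q.det := isUnit_iff_ne_zero.mpr hQdet
    have e1 : Q * Q⁻¹ = 1 := Matrix.mul_nonsing_inv _ hu
    have e2 : Q⁻¹.transpose * Q.transpose = 1 := by
      rw [← Matrix.transpose_mul, e1, Matrix.transpose_one]
    calc S = 1 * S * 1 := by rw [Matrix.one_mul, Matrix.mul_one]
      _ = (Q⁻¹.transpose * Q.transpose) * S * (Q * Q⁻¹) := by rw [e1, e2]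
      _ = _ := by simp only [Matrix.mul_assoc]

/-- the number of zeros of a quadratic form -/
def zeroCount {n : ℕ} (S : Matrix (Fin n) (Fin n) F) : ℕ :=
  Nat.card {x : Fin n → F // x ⬝ᵥ S *ᵥ x = 0}

lemma dot_diagF {n : ℕ} (P : Matrix (Fin n) (Fin n) F) (d : Fin n → F) (x : Fin n → F) :
    x ⬝ᵥ (P.transpose * Matrix.diagonal d * P) *ᵥ x = ∑ j, d j * (P *ᵥ x) j ^ 2 := by
  rw [← Matrix.mulVec_mulVec, ← Matrix.mulVec_mulVec, Matrix.dotProduct_mulVec,
    Matrix.vecMul_transpose]
  unfold dotProduct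
  refine Finset.sum_congr rfl fun j _ => ?_
  rw [Matrix.mulVec_diagonal]
  ring

lemma zeroCount_diag {n : ℕ} (P : Matrix (Fin n) (Fin n) F) (hP : P.det ≠ 0) (d : Fin n → F) :
    zeroCount (P.transpose * Matrix.diagonal d * P)
      = Nat.card {x : Fin n → F // ∑ i, d i * x i ^ 2 = 0} := by
  have hu : IsUnit P.det := isUnit_iff_ne_zero.mpr hP
  unfold zeroCount
  refine Nat.card_congr
    { toFun := fun x => ⟨P *ᵥ x.1, by rw [← dot_diagF]; exact x.2⟩
      invFun := fun y => ⟨P⁻¹ *ᵥ y.1, by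
        rw [dot_diagF, Matrix.mulVec_mulVec, Matrix.mul_nonsing_inv _ hu, Matrix.one_mulVec]
        exact y.2⟩
      left_inv := fun x => by
        apply Subtype.ext
        simp only
        rw [Matrix.mulVec_mulVec, Matrix.nonsing_inv_mul _ hu, Matrix.one_mulVec]
      right_inv := fun y => by
        apply Subtype.ext
        simp only
        rw [Matrix.mulVec_mulVec, Matrix.mul_nonsing_inv _ hu, Matrix.one_mulVec] }

variable [Finite F]

theorem zeroCount_nondeg (h2 : (2 : F) ≠ 0) (m : ℕ) (S : Matrix (Fin (2 * m + 1)) (Fin (2 * m + 1)) F)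
    (hS : S.IsSymm) (hdet : S.det ≠ 0) :
    (zeroCount S : ℂ) = (Nat.card F : ℂ) ^ (2 * m) := by
  have := Fintype.ofFinite F
  obtain ⟨P, d, hP, rfl⟩ := exists_diagF h2 S hS
  rw [zeroCount_diag P hP, card_diag_nondeg h2 m (by simp) d, Nat.card_eq_fintype_card]
  intro i hi
  apply hdet
  rw [Matrix.det_mul, Matrix.det_mul, Matrix.det_diagonal, Finset.prod_eq_zero (Finset.mem_univ i) hi]
  simp

theorem zeroCount_corank (h2 : (2 : F) ≠ 0) (m : ℕ) (S : Matrix (Fin (2 * m + 1)) (Fin (2 * m + 1)) F)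
    (hS : S.IsSymm) (hdet : S.det = 0) (i : Fin (2 * m + 1)) (hi : S.adjugate i i ≠ 0) :
    (zeroCount S : ℂ) = (Nat.card F : ℂ) ^ (2 * m)
      + ((Nat.card F : ℂ) - 1) * (Nat.card F : ℂ) ^ m * eta F ((-1) ^ m * S.adjugate i i) := by
  have := Fintype.ofFinite F
  obtain ⟨P, d, hP, rfl⟩ := exists_diagF h2 S hS
  have hadj : (P.transpose * Matrix.diagonal d * P).adjugate i i
      = ∑ k, P.adjugate i k ^ 2 * ∏ j ∈ Finset.univ.erase k, d j := by
    rw [Matrix.adjugate_mul_distrib, Matrix.adjugate_mul_distrib, ← Matrix.adjugate_transpose,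
      Matrix.adjugate_diagonal, Matrix.mul_apply]
    refine Finset.sum_congr rfl fun k _ => ?_
    rw [Matrix.diagonal_mul, Matrix.transpose_apply]
    ring
  have hk : ∃ k, d k = 0 := by
    rw [Matrix.det_mul, Matrix.det_mul, Matrix.det_diagonal, Matrix.det_transpose] at hdet
    have h3 : ∏ j, d j = 0 := by
      rcases mul_eq_zero.mp hdet with h | h
      · rcases mul_eq_zero.mp h with h' | h'
        · exact absurd h' hP
        · exact h'
      · exact absurd h hP
    obtain ⟨k, -, hk⟩ := Finset.prod_eq_zero_iff.mp h3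
    exact ⟨k, hk⟩
  obtain ⟨k, hk⟩ := hk
  have hzero : ∀ j, j ≠ k → ∏ l ∈ Finset.univ.erase j, d l = 0 := fun j hj =>
    Finset.prod_eq_zero (Finset.mem_erase.mpr ⟨hj.symm, Finset.mem_univ k⟩) hk
  have hadj2 : (P.transpose * Matrix.diagonal d * P).adjugate i i
      = P.adjugate i k ^ 2 * ∏ j ∈ Finset.univ.erase k, d j := by
    rw [hadj, Finset.sum_eq_single k]
    · intro j _ hj
      rw [hzero j hj, mul_zero]
    · intro h
      exact absurd (Finset.mem_univ k) h
  rw [hadj2] at hi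
  have hprod : ∏ j ∈ Finset.univ.erase k, d j ≠ 0 := right_ne_zero_of_mul hi
  have hPk : P.adjugate i k ≠ 0 := fun h => left_ne_zero_of_mul hi (by rw [h]; ring)
  rw [zeroCount_diag P hP, card_diag_corank h2 m (by simp) d k hk (by
    intro j hj h0
    exact hprod (Finset.prod_eq_zero (Finset.mem_erase.mpr ⟨hj, Finset.mem_univ j⟩) h0)), hadj2,
    Nat.card_eq_fintype_card]
  congr 2
  rw [show (-1 : F) ^ m * (P.adjugate i k ^ 2 * ∏ j ∈ Finset.univ.erase k, d j)
    = ((-1) ^ m * ∏ j ∈ Finset.univ.erase k, d j) * P.adjugate i k ^ 2 by ring, eta_mul_sq F hPk]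

end matrix

end Pool.Agent.Helper4
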