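import Mathlib
import Pool.Agent.helper4.BundleDefs
import Pool.Agent.helper4.QuadCount
import Pool.Agent.helper4.RootSum

/-! # Point counts of quadric bundles over the projective line -/

set_option linter.unusedSectionVars false

noncomputable section

namespace Pool.Agent.Helper4

open Matrix Polynomial Module

open scoped Classical

/-! ### adjugates at the roots of the determinant -/

lemma exists_diag_adj {E : Type*} [Field E] (h2 : (2 : E) ≠ 0) {n : ℕ}
    (S : Matrix (Fin n) (Fin n) E) (hS : S.IsSymm) (hdet : S.det = 0) (hadj : S.adjugate ≠ 0) :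
    ∃ i, S.adjugate i i ≠ 0 := by
  obtain ⟨P, d, hP, hSe⟩ := exists_diagF h2 S hS
  have hadjS : S.adjugate = P.adjugate * Matrix.diagonal (fun k => ∏ j ∈ Finset.univ.erase k, d j) *
      P.adjugate.transpose := by
    rw [hSe, Matrix.adjugate_mul_distrib, Matrix.adjugate_mul_distrib, ← Matrix.adjugate_transpose,
      Matrix.adjugate_diagonal, Matrix.mul_assoc]
  have hentry : ∀ i, S.adjugate i i
      = ∑ k, P.adjugate i k ^ 2 * ∏ j ∈ Finset.univ.erase k, d j := by
    intro i
    rw [hadjS, Matrix.mul_apply]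
    refine Finset.sum_congr rfl fun k _ => ?_
    rw [Matrix.mul_diagonal, Matrix.transpose_apply]
    ring
  have hk : ∃ k, d k = 0 := by
    rw [hSe, Matrix.det_mul, Matrix.det_mul, Matrix.det_diagonal, Matrix.det_transpose] at hdet
    have h3 : ∏ j, d j = 0 := by
      rcases mul_eq_zero.mp hdet with h | h
      · rcases mul_eq_zero.mp h with h' | h'
        · exact absurd h' hP
        · exact h'
      · exact absurd h hP
    obtain ⟨k, -, hk⟩ := Finset.prod_eq_zero_iff.mp h3
    exact ⟨k, hk⟩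
  obtain ⟨k, hk⟩ := hk
  have hzero : ∀ j, j ≠ k → ∏ l ∈ Finset.univ.erase j, d l = 0 := fun j hj =>
    Finset.prod_eq_zero (Finset.mem_erase.mpr ⟨hj.symm, Finset.mem_univ k⟩) hk
  have hkne : ∏ l ∈ Finset.univ.erase k, d l ≠ 0 := by
    intro h0
    apply hadj
    have h1 : (fun k => ∏ j ∈ Finset.univ.erase k, d j) = fun _ => (0 : E) := by
      funext j
      by_cases hj : j = k
      · rw [hj]; exact h0
      · exact hzero j hj
    rw [hadjS, h1]
    have h2 : (Matrix.diagonal (fun _ : Fin n => (0 : E))) = 0 := Matrix.diagonal_zero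
    rw [h2, Matrix.mul_zero, Matrix.zero_mul]
  -- the column `k` of the adjugate of `P` is not zero
  have hcol : ∃ i, P.adjugate i k ≠ 0 := by
    by_contra hne
    push Not at hne
    have h1 : P.adjugate.det = 0 := Matrix.det_eq_zero_of_column_eq_zero k hne
    rw [Matrix.det_adjugate] at h1
    exact pow_ne_zero _ hP h1
  obtain ⟨i, hi⟩ := hcol
  refine ⟨i, ?_⟩
  rw [hentry, Finset.sum_eq_single k]
  · exact mul_ne_zero (pow_ne_zero _ hi) hkne
  · intro j _ hj
    rw [hzero j hj, mul_zero]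
  · intro h
    exact absurd (Finset.mem_univ k) h

lemma adj_ne_zero_of_separable {k : Type*} [Field k] {n : ℕ} (hn : 0 < n)
    (A : Matrix (Fin n) (Fin n) k[X]) (t : k)
    (hsep : A.det.Separable) (hroot : A.det.eval t = 0) :
    (A.map (fun P => P.eval t)).adjugate ≠ 0 := by
  intro h0
  have hadj : (A.map (fun P => P.eval t)).adjugate = A.adjugate.map (fun P => P.eval t) :=
    ((Polynomial.evalRingHom t).map_adjugate A).symm
  have h1 : ∀ i j, ∃ c, A.adjugate i j = (X - C t) * c := by
    intro i j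
    have h2 : (A.adjugate i j).eval t = 0 := by
      have := congrFun (congrFun (hadj.symm.trans h0) i) j
      exact this
    exact (dvd_iff_isRoot.mpr h2)
  choose B hB using h1
  have h2 : A.adjugate = (X - C t) • (Matrix.of B) := by
    ext i j : 2
    rw [Matrix.smul_apply, smul_eq_mul, Matrix.of_apply, ← hB]
  have h3 := Matrix.det_adjugate A
  rw [h2, Matrix.det_smul, Fintype.card_fin] at h3
  obtain ⟨g, hg⟩ := (dvd_iff_isRoot.mpr hroot : (X - C t) ∣ A.det)
  have hX : (X - C t : k[X]) ≠ 0 := X_sub_C_ne_zero t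
  have hgne : ¬ (X - C t) ∣ g := by
    rintro ⟨g', rfl⟩
    have hsq := hsep.squarefree
    have h4 : IsUnit (X - C t : k[X]) := hsq _ ⟨g', by rw [hg]; ring⟩
    exact (not_isUnit_X_sub_C t) h4
  rw [hg] at h3
  have h5 : (X - C t) ∣ g ^ (n - 1) := by
    refine ⟨(Matrix.of B).det, ?_⟩
    apply mul_left_cancel₀ (pow_ne_zero (n - 1) hX)
    have h6 : (X - C t) ^ n = (X - C t) ^ (n - 1) * (X - C t : k[X]) := by
      rw [← pow_succ]
      congr 1
      omega
    rw [h6, mul_pow] at h3
    rw [← h3]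
    ring
  exact hgne ((prime_X_sub_C t).dvd_of_dvd_pow h5)

/-! ### counting on projective quadrics -/

/-- number of points of the projective quadric -/
def quadricCount (F : Type*) [Field F] {n : ℕ} (S : Matrix (Fin n) (Fin n) F) : ℕ :=
  Nat.card {L : Submodule F (Fin n → F) // finrank F L = 1 ∧ ∀ x ∈ L, x ⬝ᵥ S *ᵥ x = 0}

lemma quad_smul {F : Type*} [Field F] {n : ℕ} (S : Matrix (Fin n) (Fin n) F) (c : F)
    (x : Fin n → F) : (c • x) ⬝ᵥ S *ᵥ (c • x) = c ^ 2 * (x ⬝ᵥ S *ᵥ x) := by
  rw [Matrix.mulVec_smul, dotProduct_smul, smul_dotProduct, smul_eq_mul, smul_eq_mul]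
  ring

lemma quadricCount_mul (F : Type*) [Field F] [Finite F] {n : ℕ} (S : Matrix (Fin n) (Fin n) F) :
    (Nat.card F - 1) * quadricCount F S + 1 = zeroCount S := by
  have hfinS : Finite (Submodule F (Fin n → F)) :=
    Finite.of_injective (fun L => (L : Set (Fin n → F))) SetLike.coe_injective
  have hft : Fintype {L : Submodule F (Fin n → F) // finrank F L = 1 ∧ ∀ x ∈ L, x ⬝ᵥ S *ᵥ x = 0} :=
    Fintype.ofFinite _
  -- nonzero zeros
  have h1 : zeroCount S = Nat.card {x : Fin n → F // x ≠ 0 ∧ x ⬝ᵥ S *ᵥ x = 0} + 1 := by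
    unfold zeroCount
    have e : {x : Fin n → F // x ⬝ᵥ S *ᵥ x = 0}
        ≃ {x : Fin n → F // x ≠ 0 ∧ x ⬝ᵥ S *ᵥ x = 0} ⊕ Unit :=
      { toFun := fun x => if h : x.1 = 0 then Sum.inr () else Sum.inl ⟨x.1, h, x.2⟩
        invFun := fun y => match y with
          | Sum.inl x => ⟨x.1, x.2.2⟩
          | Sum.inr _ => ⟨0, by simp⟩
        left_inv := fun x => by
          by_cases h : x.1 = 0
          · simp only [dif_pos h]
            apply Subtype.ext
            exact h.symm
          · simp only [dif_neg h]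
        right_inv := fun y => by
          rcases y with x | u
          · simp only [dif_neg x.2.1]
          · simp }
    rw [Nat.card_congr e, Nat.card_sum]
    simp
  rw [h1]
  congr 1
  let e : {x : Fin n → F // x ≠ 0 ∧ x ⬝ᵥ S *ᵥ x = 0} ≃
      (Σ L : {L : Submodule F (Fin n → F) // finrank F L = 1 ∧ ∀ x ∈ L, x ⬝ᵥ S *ᵥ x = 0},
        {x : L.1 // x ≠ 0}) :=
    { toFun := fun x => ⟨⟨F ∙ x.1, finrank_span_singleton x.2.1, by
          intro y hy
          obtain ⟨c, rfl⟩ := Submodule.mem_span_singleton.mp hy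
          rw [quad_smul, x.2.2, mul_zero]⟩, ⟨⟨x.1, Submodule.mem_span_singleton_self _⟩, by
          intro h
          exact x.2.1 (congrArg Subtype.val h)⟩⟩
      invFun := fun y => ⟨y.2.1.1, by
          intro h
          exact y.2.2 (Subtype.ext h), y.1.2.2 _ y.2.1.2⟩
      left_inv := fun x => rfl
      right_inv := by
        rintro ⟨⟨L, hL1, hL2⟩, ⟨⟨x, hxL⟩, hx0⟩⟩
        have hx : x ≠ 0 := fun h => hx0 (Subtype.ext h)
        have hspan : F ∙ x = L := by
          have : FiniteDimensional F L := inferInstance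
          apply Submodule.eq_of_le_of_finrank_eq
          · rw [Submodule.span_singleton_le_iff_mem]; exact hxL
          · rw [finrank_span_singleton hx, hL1]
        subst hspan
        rfl }
  rw [Nat.card_congr e, Nat.card_sigma]
  have h3 : ∀ L : {L : Submodule F (Fin n → F) // finrank F L = 1 ∧ ∀ x ∈ L, x ⬝ᵥ S *ᵥ x = 0},
      Nat.card {x : L.1 // x ≠ 0} = Nat.card F - 1 := by
    intro L
    have hc : Nat.card L.1 = Nat.card F := by
      rw [Module.natCard_eq_pow_finrank (K := F), L.2.1, pow_one]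
    have : Fintype L.1 := Fintype.ofFinite _
    rw [Nat.card_eq_fintype_card, Fintype.card_subtype_compl, ← hc, Nat.card_eq_fintype_card]
    simp
  rw [Finset.sum_congr rfl (fun L _ => h3 L), Finset.sum_const, smul_eq_mul, Finset.card_univ,
    mul_comm, ← Nat.card_eq_fintype_card]
  rfl

/-! ### bundles -/

variable {n : ℕ}

/-- number of points of the quadric bundle over the projective line -/
def bundleCount (δ : Fin n → ℤ) (A : Matrix (Fin n) (Fin n) ℤ[X]) (F : Type*) [Field F] : ℕ :=
  (∑ᶠ t : F, quadricCount F (fib A F t)) + quadricCount F ((infM δ A).map (Int.castRingHom F))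

section

variable {F : Type*} [Field F] [Finite F]

lemma one_lt_cardF : 1 < Nat.card F := Finite.one_lt_card

lemma card_sub_one_ne : (Nat.card F : ℂ) - 1 ≠ 0 := by
  have := one_lt_cardF (F := F)
  rw [sub_ne_zero]
  exact_mod_cast this.ne'

lemma cardF_ne : (Nat.card F : ℂ) ≠ 0 := by
  have := one_lt_cardF (F := F)
  exact_mod_cast (by omega : Nat.card F ≠ 0)

/-- the character of a fibre -/
def hcan (m : ℕ) {n : ℕ} (S : Matrix (Fin n) (Fin n) F) : ℂ :=
  ((zeroCount S : ℂ) - (Nat.card F : ℂ) ^ (2 * m)) / (((Nat.card F : ℂ) - 1) * (Nat.card F : ℂ) ^ m)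

lemma hcan_nondeg (h2 : (2 : F) ≠ 0) (m : ℕ) (S : Matrix (Fin (2 * m + 1)) (Fin (2 * m + 1)) F)
    (hS : S.IsSymm) (hdet : S.det ≠ 0) : hcan m S = 0 := by
  unfold hcan
  rw [zeroCount_nondeg h2 m S hS hdet, sub_self, zero_div]

lemma hcan_corank (h2 : (2 : F) ≠ 0) (m : ℕ) (S : Matrix (Fin (2 * m + 1)) (Fin (2 * m + 1)) F)
    (hS : S.IsSymm) (hdet : S.det = 0) (i : Fin (2 * m + 1)) (hi : S.adjugate i i ≠ 0) :
    hcan m S = eta F ((-1) ^ m * S.adjugate i i) := by
  unfold hcan
  rw [zeroCount_corank h2 m S hS hdet i hi, add_sub_cancel_left,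
    mul_div_cancel_left₀ _ (mul_ne_zero card_sub_one_ne (pow_ne_zero _ cardF_ne))]

lemma quadricCount_eq (m : ℕ) {n : ℕ} (S : Matrix (Fin n) (Fin n) F) :
    (quadricCount F S : ℂ) = ∑ j ∈ Finset.range (2 * m), (Nat.card F : ℂ) ^ j
      + (Nat.card F : ℂ) ^ m * hcan m S := by
  have h := quadricCount_mul F S
  have hq := one_lt_cardF (F := F)
  have h1 : ((Nat.card F : ℂ) - 1) * (quadricCount F S : ℂ) + 1 = (zeroCount S : ℂ) := by
    rw [← h]
    push_cast [Nat.cast_sub hq.le]
    ring
  have hne := card_sub_one_ne (F := F)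
  have hne1 : (Nat.card F : ℂ) ≠ 1 := sub_ne_zero.mp hne
  rw [geom_sum_eq hne1]
  unfold hcan
  rw [← h1]
  have h3 := cardF_ne (F := F)
  field_simp
  ring

lemma fib_symm {A : Matrix (Fin n) (Fin n) ℤ[X]} (hA : A.IsSymm) (t : F) : (fib A F t).IsSymm := by
  unfold fib
  exact hA.map _

lemma det_fib (A : Matrix (Fin n) (Fin n) ℤ[X]) (F : Type*) [Field F] (t : F) :
    (fib A F t).det = A.det.eval₂ (Int.castRingHom F) t :=
  ((Polynomial.eval₂RingHom (Int.castRingHom F) t).map_det A).symm

lemma adj_fib (A : Matrix (Fin n) (Fin n) ℤ[X]) (F : Type*) [Field F] (t : F) (i j : Fin n) :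
    (fib A F t).adjugate i j = (A.adjugate i j).eval₂ (Int.castRingHom F) t :=
  congrFun (congrFun ((Polynomial.eval₂RingHom (Int.castRingHom F) t).map_adjugate A).symm i) j

/-- **Point count of a quadric bundle of odd rank over the projective line.** -/
theorem bundle_formula (h2 : (2 : F) ≠ 0) (m : ℕ) (δ : Fin (2 * m + 1) → ℤ)
    (A : Matrix (Fin (2 * m + 1)) (Fin (2 * m + 1)) ℤ[X]) (hA : A.IsSymm)
    (hinf : ((infM δ A).map (Int.castRingHom F)).det ≠ 0) :
    (bundleCount δ A F : ℂ) = ((Nat.card F : ℂ) + 1) * ∑ j ∈ Finset.range (2 * m), (Nat.card F : ℂ) ^ j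
      + (Nat.card F : ℂ) ^ m *
        ∑ᶠ t : {t : F // A.det.eval₂ (Int.castRingHom F) t = 0}, hcan m (fib A F t.1) := by
  have : Fintype F := Fintype.ofFinite F
  have hinfS : (infM δ A).IsSymm := by
    ext i j
    unfold infM
    rw [Matrix.transpose_apply, Matrix.of_apply, Matrix.of_apply, add_comm (δ j) (δ i)]
    have : A j i = A i j := by
      have := congrFun (congrFun hA i) j
      rwa [Matrix.transpose_apply] at this
    rw [this]
  unfold bundleCount
  push_cast
  rw [quadricCount_eq m ((infM δ A).map (Int.castRingHom F)),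
    hcan_nondeg h2 m _ (hinfS.map _) hinf, mul_zero, add_zero]
  rw [finsum_eq_sum_of_fintype]
  push_cast
  simp_rw [quadricCount_eq m]
  rw [Finset.sum_add_distrib, Finset.sum_const, Finset.card_univ, nsmul_eq_mul,
    ← Finset.mul_sum, ← Nat.card_eq_fintype_card]
  have h4 : ∑ᶠ t : {t : F // A.det.eval₂ (Int.castRingHom F) t = 0}, hcan m (fib A F t.1)
      = ∑ t : F, hcan m (fib A F t) := by
    rw [finsum_eq_sum_of_fintype, ← Finset.sum_subtype (Finset.univ.filter
      (fun t : F => A.det.eval₂ (Int.castRingHom F) t = 0)) (fun t => by simp)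
      (fun t => hcan m (fib A F t)),
      ← Finset.sum_filter_add_sum_filter_not Finset.univ
      (fun t : F => A.det.eval₂ (Int.castRingHom F) t = 0)]
    have h5 : ∑ t ∈ Finset.univ.filter (fun t : F => ¬ A.det.eval₂ (Int.castRingHom F) t = 0),
        hcan m (fib A F t) = 0 := by
      apply Finset.sum_eq_zero
      intro t ht
      apply hcan_nondeg h2 m _ (fib_symm hA t)
      rw [det_fib]
      exact (Finset.mem_filter.mp ht).2
    rw [h5, add_zero]
  rw [h4]
  ring

end

end Pool.Agent.Helper4
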