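import Mathlib
import Pool.Agent.helper4.BundleCount
import Pool.Agent.helper4.FiniteBad
import Pool.Agent.helper4.LEuler

/-! # The quadratic characters attached to a quadric bundle -/

set_option linter.unusedSectionVars false

noncomputable section

namespace Pool.Agent.Helper4

open Matrix Polynomial Module NumberField nonZeroDivisors

open scoped Classical

/-! ### normalization of the determinant -/

lemma root_iff (f : ℤ[X]) {R : Type*} [Field R] (ha : (f.leadingCoeff : R) ≠ 0) (t : R) :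
    f.eval₂ (Int.castRingHom R) t = 0 ↔
      f.integralNormalization.eval₂ (Int.castRingHom R) ((f.leadingCoeff : R) * t) = 0 := by
  have h1 := congrArg (Polynomial.eval₂ (Int.castRingHom R) ((f.leadingCoeff : R) * t))
    (integralNormalization_mul_C_leadingCoeff f)
  have h2 := scaleRoots_eval₂_mul (p := f) (Int.castRingHom R) t f.leadingCoeff
  rw [eval₂_mul, eval₂_C] at h1
  simp only [eq_intCast] at h1 h2
  rw [h2] at h1
  constructor
  · intro h
    rw [h, mul_zero] at h1
    exact (mul_eq_zero.mp h1).resolve_right ha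
  · intro h
    rw [h, zero_mul] at h1
    exact (mul_eq_zero.mp h1.symm).resolve_left (pow_ne_zero _ ha)

lemma separable_comp_scale {k : Type*} [Field k] {F : k[X]} (h : F.Separable) {c : k} (hc : c ≠ 0) :
    (F.comp (C c * X)).Separable := by
  obtain ⟨u, v, huv⟩ := h
  have h1 := congrArg (fun P : k[X] => P.comp (C c * X)) huv
  simp only [add_comp, mul_comp, one_comp] at h1
  have h2 : derivative (F.comp (C c * X)) = C c * (derivative F).comp (C c * X) := by
    rw [derivative_comp]
    simp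
  refine ⟨u.comp (C c * X), C c⁻¹ * v.comp (C c * X), ?_⟩
  rw [h2]
  have h3 : C c⁻¹ * C c = (1 : k[X]) := by
    rw [← C_mul, inv_mul_cancel₀ hc, C_1]
  linear_combination h1 + (v.comp (C c * X) * (derivative F).comp (C c * X)) * h3

lemma separable_norm (f : ℤ[X]) {k : Type*} [Field k] (ha : (f.leadingCoeff : k) ≠ 0)
    (h : (f.map (Int.castRingHom k)).Separable) :
    (f.integralNormalization.map (Int.castRingHom k)).Separable := by
  obtain ⟨a, hadef⟩ : ∃ a : k, a = (f.leadingCoeff : k) := ⟨_, rfl⟩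
  rw [← hadef] at ha
  have h1 : f.integralNormalization.map (Int.castRingHom k) * C a
      = C (a ^ f.natDegree) * (f.map (Int.castRingHom k)).comp (C a⁻¹ * X) := by
    have h2 := congrArg (Polynomial.map (Int.castRingHom k)) (integralNormalization_mul_C_leadingCoeff f)
    rw [Polynomial.map_mul, map_C] at h2
    simp only [eq_intCast] at h2
    rw [← hadef] at h2
    rw [h2]
    ext i
    rw [coeff_map, coeff_scaleRoots, coeff_C_mul, comp_C_mul_X_coeff, coeff_map]
    simp only [eq_intCast, map_mul, map_pow]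
    by_cases hi : i ≤ f.natDegree
    · have h3 : a ^ f.natDegree = a ^ (f.natDegree - i) * a ^ i := by
        rw [← pow_add, Nat.sub_add_cancel hi]
      rw [h3, inv_pow]
      rw [← hadef]
      have : a ^ i ≠ 0 := pow_ne_zero _ ha
      field_simp
    · rw [coeff_eq_zero_of_natDegree_lt (by omega)]
      simp
  have h4 : (C (a ^ f.natDegree) * (f.map (Int.castRingHom k)).comp (C a⁻¹ * X)).Separable := by
    apply Separable.unit_mul
    · exact isUnit_C.mpr (isUnit_iff_ne_zero.mpr (pow_ne_zero _ ha))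
    · exact separable_comp_scale h (inv_ne_zero ha)
  exact h4.of_dvd ⟨C a, h1.symm⟩

/-- scaled polynomial -/
def dhat (P : ℤ[X]) (a : ℤ) : ℤ[X] := C (a ^ P.natDegree) * scaleRoots P a

lemma dhat_eval (P : ℤ[X]) (a : ℤ) {R : Type*} [CommRing R] (t : R) :
    (dhat P a).eval₂ (Int.castRingHom R) ((a : R) * t)
      = ((a : R) ^ P.natDegree) ^ 2 * P.eval₂ (Int.castRingHom R) t := by
  unfold dhat
  have h2 := scaleRoots_eval₂_mul (p := P) (Int.castRingHom R) t a
  simp only [eq_intCast] at h2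
  rw [eval₂_mul, eval₂_C, h2]
  simp only [eq_intCast]
  push_cast
  ring

/-! ### the bundle -/

variable {m : ℕ} {δ : Fin (2 * m + 1) → ℤ} {A : Matrix (Fin (2 * m + 1)) (Fin (2 * m + 1)) ℤ[X]}

/-- the monic polynomial of the degenerate fibres -/
def ff (A : Matrix (Fin (2 * m + 1)) (Fin (2 * m + 1)) ℤ[X]) : ℤ[X] := A.det.integralNormalization

/-- diagonal entries of the adjugate -/
def DP (A : Matrix (Fin (2 * m + 1)) (Fin (2 * m + 1)) ℤ[X]) (i : Fin (2 * m + 1)) : ℤ[X] :=
  (-1) ^ m * A.adjugate i i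

lemma DP_eval (A : Matrix (Fin (2 * m + 1)) (Fin (2 * m + 1)) ℤ[X]) (i : Fin (2 * m + 1))
    {R : Type*} [Field R] (t : R) :
    (DP A i).eval₂ (Int.castRingHom R) t = (-1) ^ m * (fib A R t).adjugate i i := by
  unfold DP
  rw [eval₂_mul, eval₂_pow, eval₂_neg, eval₂_one, adj_fib]

lemma det_ne_zero (hsep : (A.det.map (Int.castRingHom ℚ)).Separable) : A.det ≠ 0 := by
  intro h
  rw [h, Polynomial.map_zero] at hsep
  exact not_separable_zero hsep

lemma lead_ne_zero (hsep : (A.det.map (Int.castRingHom ℚ)).Separable) : A.det.leadingCoeff ≠ 0 :=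
  leadingCoeff_ne_zero.mpr (det_ne_zero hsep)

lemma ff_monic (hsep : (A.det.map (Int.castRingHom ℚ)).Separable) : (ff A).Monic :=
  monic_integralNormalization (det_ne_zero hsep)

lemma ff_sep (hsep : (A.det.map (Int.castRingHom ℚ)).Separable) :
    ((ff A).map (Int.castRingHom ℚ)).Separable :=
  separable_norm _ (by exact_mod_cast lead_ne_zero hsep) hsep

/-- elements representing the characters -/
def dI' (A : Matrix (Fin (2 * m + 1)) (Fin (2 * m + 1)) ℤ[X]) (B : Finset (𝓞 (LL (ff A))))
    (i : Fin (2 * m + 1)) : 𝓞 (fieldA B) :=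
  (dhat (DP A i) A.det.leadingCoeff).eval₂ (Int.castRingHom (𝓞 (fieldA B))) (thA B)

lemma exists_dI (hA : A.IsSymm) (hsep : (A.det.map (Int.castRingHom ℚ)).Separable)
    {B : Finset (𝓞 (LL (ff A)))} (hB : B ∈ reps (ff A) 1) : ∃ i, dI' A B i ≠ 0 := by
  set K := fieldA B with hK
  set a : K := ((A.det.leadingCoeff : ℤ) : K) with ha
  have ha0 : a ≠ 0 := by
    rw [ha]
    exact_mod_cast lead_ne_zero hsep
  set t : K := a⁻¹ * (thA B : K) with ht
  have hat : a * t = (thA B : K) := by rw [ht, mul_inv_cancel_left₀ ha0]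
  have hcomp : (algebraMap (𝓞 K) K).comp (Int.castRingHom (𝓞 K)) = Int.castRingHom K :=
    RingHom.ext_int _ _
  have hroot : A.det.eval₂ (Int.castRingHom K) t = 0 := by
    rw [root_iff _ ha0, hat]
    have h1 := eval_thA (ff_monic hsep) (ff_sep hsep) hB
    have h2 := congrArg (algebraMap (𝓞 K) K) h1
    rw [hom_eval₂, map_zero, hcomp] at h2
    exact h2
  -- the adjugate does not vanish
  have hsepK : (A.det.map (Int.castRingHom K)).Separable := by
    have h1 := hsep.map (f := algebraMap ℚ K)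
    rw [Polynomial.map_map] at h1
    have h2 : (algebraMap ℚ K).comp (Int.castRingHom ℚ) = Int.castRingHom K := RingHom.ext_int _ _
    rwa [h2] at h1
  have hadj := adj_ne_zero_of_separable (k := K) (n := 2 * m + 1) (by omega)
    (A.map (fun P => P.map (Int.castRingHom K))) t (by
      have h3 : (A.map (fun P => P.map (Int.castRingHom K))).det = A.det.map (Int.castRingHom K) :=
        ((Polynomial.mapRingHom (Int.castRingHom K)).map_det A).symm
      rw [h3]
      exact hsepK) (by
      have h3 : (A.map (fun P => P.map (Int.castRingHom K))).det = A.det.map (Int.castRingHom K) :=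
        ((Polynomial.mapRingHom (Int.castRingHom K)).map_det A).symm
      rw [h3, eval_map]
      exact hroot)
  have hfib : (A.map (fun P => P.map (Int.castRingHom K))).map (fun P => P.eval t) = fib A K t := by
    ext i j
    simp only [Matrix.map_apply, fib, eval_map]
  rw [hfib] at hadj
  obtain ⟨i, hi⟩ := exists_diag_adj (by exact two_ne_zero) (fib A K t)
    (show (fib A K t).IsSymm from hA.map _)
    (by rw [det_fib]; exact hroot) hadj
  refine ⟨i, ?_⟩
  intro h0
  have h1 := congrArg (algebraMap (𝓞 K) K) h0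
  unfold dI' at h1
  rw [hom_eval₂, map_zero, hcomp] at h1
  have h2 : algebraMap (𝓞 K) K (thA B) = a * t := hat.symm
  rw [h2, dhat_eval, DP_eval] at h1
  rcases mul_eq_zero.mp h1 with h3 | h3
  · exact pow_ne_zero _ (pow_ne_zero _ ha0) h3
  · rcases mul_eq_zero.mp h3 with h4 | h4
    · exact pow_ne_zero _ (neg_ne_zero.mpr one_ne_zero) h4
    · exact hi h4

/-- the element of the field attached to a degenerate fibre -/
def dB (A : Matrix (Fin (2 * m + 1)) (Fin (2 * m + 1)) ℤ[X]) (B : Finset (𝓞 (LL (ff A)))) :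
    𝓞 (fieldA B) := if h : ∃ i, dI' A B i ≠ 0 then dI' A B h.choose else 1

lemma dB_spec {B : Finset (𝓞 (LL (ff A)))} (h : ∃ i, dI' A B i ≠ 0) :
    ∃ i, dB A B = dI' A B i ∧ dB A B ≠ 0 := by
  unfold dB
  rw [dif_pos h]
  exact ⟨h.choose, rfl, h.choose_spec⟩

/-- the primes to be avoided -/
def badSet (δ : Fin (2 * m + 1) → ℤ) (A : Matrix (Fin (2 * m + 1)) (Fin (2 * m + 1)) ℤ[X]) : Set ℕ :=
  {p : ℕ | p.Prime ∧ ¬ (p ≠ 2 ∧ ¬ ((p : ℤ) ∣ A.det.leadingCoeff) ∧ ¬ ((p : ℤ) ∣ (infM δ A).det) ∧
    (A.det.map (Int.castRingHom (ZMod p))).Separable ∧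
    ∀ B ∈ reps (ff A) 1, ∀ q : PK (fieldA B), (p : 𝓞 (fieldA B)) ∈ q.asIdeal →
      dB A B ∉ q.asIdeal)}

lemma finite_dvd {z : ℤ} (hz : z ≠ 0) : {p : ℕ | (p : ℤ) ∣ z}.Finite := by
  refine ((z.natAbs.divisors).finite_toSet).subset ?_
  intro p hp
  rw [Finset.mem_coe, Nat.mem_divisors]
  exact ⟨Int.natCast_dvd.mp hp, by rwa [Int.natAbs_ne_zero]⟩

lemma finite_badSet (h : IsBundle m δ A) : (badSet δ A).Finite := by
  have h1 : ({2} : Set ℕ).Finite := Set.finite_singleton 2
  have h2 := finite_dvd (lead_ne_zero h.separable)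
  have h3 := finite_dvd h.infinity
  have h4 := finite_bad_poly A.det h.separable
  have h5 : (⋃ B ∈ reps (ff A) 1, {p : ℕ | p.Prime ∧ p ∣ Ideal.absNorm (Ideal.span {dB A B})}).Finite := by
    apply Set.Finite.biUnion (Finset.finite_toSet _)
    intro B hB
    have hne : Ideal.absNorm (Ideal.span {dB A B}) ≠ 0 := by
      rw [Ne, Ideal.absNorm_eq_zero_iff, Ideal.span_singleton_eq_bot]
      obtain ⟨i, -, hi⟩ := dB_spec (exists_dI h.symm h.separable hB)
      exact hi
    refine ((Nat.divisors _).finite_toSet).subset (s := ↑(Ideal.absNorm (Ideal.span {dB A B})).divisors) ?_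
    intro p hp
    rw [Finset.mem_coe, Nat.mem_divisors]
    exact ⟨hp.2, hne⟩
  refine ((((h1.union h2).union h3).union h4).union h5).subset ?_
  rintro p ⟨hp, hbad⟩
  by_contra hn
  simp only [Set.mem_union, not_or] at hn
  obtain ⟨⟨⟨⟨n1, n2⟩, n3⟩, n4⟩, n5⟩ := hn
  apply hbad
  refine ⟨n1, n2, n3, ?_, ?_⟩
  · by_contra hs
    exact n4 ⟨hp, hs⟩
  · intro B hB q hq hd
    apply n5
    rw [Set.mem_iUnion₂]
    refine ⟨B, hB, hp, ?_⟩
    have hne : Ideal.absNorm (Ideal.span {dB A B}) ≠ 0 := by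
      rw [Ne, Ideal.absNorm_eq_zero_iff, Ideal.span_singleton_eq_bot]
      obtain ⟨i, -, hi⟩ := dB_spec (exists_dI h.symm h.separable hB)
      exact hi
    have : NeZero (Ideal.absNorm (Ideal.span {dB A B})) := ⟨hne⟩
    rw [← natCast_mem_iff _ hp q hq]
    have h6 : ((Ideal.absNorm (Ideal.span {dB A B}) : ℕ) : 𝓞 (fieldA B)) ∈ Ideal.span {dB A B} :=
      Ideal.absNorm_mem _
    exact (Ideal.span_singleton_le_iff_mem _ |>.mpr hd) h6

end Pool.Agent.Helper4
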