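import Mathlib
import Pool.Agent.helper4.BundleField
import Pool.Agent.helper4.Core

/-! # Quadric bundles: the point counts and the theorem -/

set_option linter.unusedSectionVars false

noncomputable section

namespace Pool.Agent.Helper4

open Matrix Polynomial Module NumberField nonZeroDivisors

open scoped Classical

lemma hom_ne_zero {K : Type*} [Field K] [NumberField K] {F : Type*} [Field F] {p : ℕ}
    (hp : p.Prime) [CharP F p] (d : 𝓞 K)
    (hd : ∀ q : PK K, (p : 𝓞 K) ∈ q.asIdeal → d ∉ q.asIdeal) (φ : 𝓞 K →+* F) : φ d ≠ 0 := by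
  have hpk : (p : 𝓞 K) ∈ RingHom.ker φ := by
    rw [RingHom.mem_ker, map_natCast, CharP.cast_eq_zero]
  have hne : RingHom.ker φ ≠ ⊥ := by
    intro h
    rw [h, Ideal.mem_bot] at hpk
    exact hp.ne_zero (by exact_mod_cast hpk)
  have h := hd ⟨RingHom.ker φ, RingHom.ker_isPrime φ, hne⟩ hpk
  intro h0
  exact h ((RingHom.mem_ker).mpr h0)

lemma intCast_ne_zero_of {F : Type*} [Field F] {p : ℕ} [CharP F p] {z : ℤ}
    (h : ¬ ((p : ℤ) ∣ z)) : (z : F) ≠ 0 := by
  intro h0
  exact h ((CharP.intCast_eq_zero_iff F p z).mp h0)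

section

variable {m : ℕ} {δ : Fin (2 * m + 1) → ℤ} {A : Matrix (Fin (2 * m + 1)) (Fin (2 * m + 1)) ℤ[X]}

theorem hcan_sum (h : IsBundle m δ A) (F : Type*) [Field F] [Finite F] {p : ℕ} (hp : p.Prime)
    [CharP F p] (hpZ : p ∉ badSet δ A) :
    ∑ᶠ t : {t : F // A.det.eval₂ (Int.castRingHom F) t = 0}, hcan m (fib A F t.1)
      = ∑ B ∈ reps (ff A) 1, ∑ᶠ φ : 𝓞 (fieldA B) →+* F, eta F (φ (dB A B)) := by
  have hgood : p ≠ 2 ∧ ¬ ((p : ℤ) ∣ A.det.leadingCoeff) ∧ ¬ ((p : ℤ) ∣ (infM δ A).det) ∧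
    (A.det.map (Int.castRingHom (ZMod p))).Separable ∧
    ∀ B ∈ reps (ff A) 1, ∀ q : PK (fieldA B), (p : 𝓞 (fieldA B)) ∈ q.asIdeal →
      dB A B ∉ q.asIdeal := by
    by_contra hc
    exact hpZ ⟨hp, hc⟩
  obtain ⟨hp2, hlead, -, hsepp, hdB⟩ := hgood
  have h2 : (2 : F) ≠ 0 := by
    have := intCast_ne_zero_of (F := F) (p := p) (z := 2) (by
      intro hdvd
      have h1 : p ∣ 2 := by exact_mod_cast hdvd
      exact hp2 ((Nat.prime_dvd_prime_iff_eq hp Nat.prime_two).mp h1))
    exact_mod_cast this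
  obtain ⟨a, hadef⟩ : ∃ a : F, a = (A.det.leadingCoeff : F) := ⟨_, rfl⟩
  have ha : a ≠ 0 := by
    rw [hadef]
    exact intCast_ne_zero_of hlead
  have hsepF : (A.det.map (Int.castRingHom F)).Separable := by
    have h1 := hsepp.map (f := ZMod.castHom dvd_rfl F)
    rw [Polynomial.map_map] at h1
    have h3 : (ZMod.castHom (dvd_refl p) F).comp (Int.castRingHom (ZMod p)) = Int.castRingHom F :=
      RingHom.ext_int _ _
    rwa [h3] at h1
  have hsepff : ((ff A).map (Int.castRingHom F)).Separable :=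
    separable_norm _ (by rw [← hadef]; exact ha) hsepF
  -- change of variables
  let e : {t : F // A.det.eval₂ (Int.castRingHom F) t = 0} ≃
      {y : F // (ff A).eval₂ (Int.castRingHom F) y = 0} :=
    { toFun := fun t => ⟨a * t.1, by
        have := (root_iff A.det (R := F) (by rw [← hadef]; exact ha) t.1).mp t.2
        rw [hadef]; exact this⟩
      invFun := fun y => ⟨a⁻¹ * y.1, by
        apply (root_iff A.det (R := F) (by rw [← hadef]; exact ha) _).mpr
        rw [← hadef, mul_inv_cancel_left₀ ha]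
        exact y.2⟩
      left_inv := fun t => by
        apply Subtype.ext
        exact inv_mul_cancel_left₀ ha _
      right_inv := fun y => by
        apply Subtype.ext
        exact mul_inv_cancel_left₀ ha _ }
  have h3 := root_sum (ff_monic h.separable) (ff_sep h.separable) F hsepff
    (fun y => hcan m (fib A F (a⁻¹ * y)))
  have h4 : ∑ᶠ t : {t : F // A.det.eval₂ (Int.castRingHom F) t = 0}, hcan m (fib A F t.1)
      = ∑ᶠ y : {y : F // (ff A).eval₂ (Int.castRingHom F) y = 0},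
        hcan m (fib A F (a⁻¹ * y.1)) := by
    apply finsum_eq_of_bijective e e.bijective
    intro t
    have : a⁻¹ * (e t).1 = t.1 := inv_mul_cancel_left₀ ha _
    rw [this]
  rw [h4, h3]
  refine Finset.sum_congr rfl fun B hB => finsum_congr fun φ => ?_
  obtain ⟨i, hi1, hi2⟩ := dB_spec (exists_dI h.symm h.separable hB)
  have hne := hom_ne_zero hp (dB A B) (hdB B hB) φ
  have hcomp : φ.comp (Int.castRingHom (𝓞 (fieldA B))) = Int.castRingHom F := RingHom.ext_int _ _
  obtain ⟨t, ht⟩ : ∃ t : F, t = a⁻¹ * φ (thA B) := ⟨_, rfl⟩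
  have hat : a * t = φ (thA B) := by rw [ht, mul_inv_cancel_left₀ ha]
  have hroot : A.det.eval₂ (Int.castRingHom F) t = 0 := by
    apply (root_iff A.det (R := F) (by rw [← hadef]; exact ha) _).mpr
    rw [← hadef, hat]
    have h5 := congrArg φ (eval_thA (ff_monic h.separable) (ff_sep h.separable) hB)
    rw [hom_eval₂, map_zero, hcomp] at h5
    exact h5
  have hd : φ (dB A B) = (((-1) ^ m * (fib A F t).adjugate i i) *
      (a ^ (DP A i).natDegree) ^ 2) := by
    rw [hi1]
    unfold dI'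
    rw [hom_eval₂, hcomp, ← hat, hadef, dhat_eval, DP_eval]
    ring
  have hadj : (fib A F t).adjugate i i ≠ 0 := by
    intro h0
    apply hne
    rw [hd, h0]
    ring
  rw [← ht, hd, eta_mul_sq F (pow_ne_zero _ ha),
    hcan_corank h2 m _ (show (fib A F t).IsSymm from h.symm.map _)
    (by rw [det_fib]; exact hroot) i hadj]

theorem bundle_hN (h : IsBundle m δ A) (F : Type*) [Field F] [Finite F] {p : ℕ} (hp : p.Prime)
    [CharP F p] (hpZ : p ∉ badSet δ A) :
    (bundleCount δ A F : ℂ) = ((Nat.card F : ℂ) + 1) * ∑ j ∈ Finset.range (2 * m), (Nat.card F : ℂ) ^ j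
      + (Nat.card F : ℂ) ^ m *
        ∑ B ∈ reps (ff A) 1, ∑ᶠ φ : 𝓞 (fieldA B) →+* F, eta F (φ (dB A B)) := by
  have hgood : p ≠ 2 ∧ ¬ ((p : ℤ) ∣ A.det.leadingCoeff) ∧ ¬ ((p : ℤ) ∣ (infM δ A).det) ∧
    (A.det.map (Int.castRingHom (ZMod p))).Separable ∧
    ∀ B ∈ reps (ff A) 1, ∀ q : PK (fieldA B), (p : 𝓞 (fieldA B)) ∈ q.asIdeal →
      dB A B ∉ q.asIdeal := by
    by_contra hc
    exact hpZ ⟨hp, hc⟩
  have h2 : (2 : F) ≠ 0 := by
    have := intCast_ne_zero_of (F := F) (p := p) (z := 2) (by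
      intro hdvd
      have h1 : p ∣ 2 := by exact_mod_cast hdvd
      exact hgood.1 ((Nat.prime_dvd_prime_iff_eq hp Nat.prime_two).mp h1))
    exact_mod_cast this
  have hinf : ((infM δ A).map (Int.castRingHom F)).det ≠ 0 := by
    have h1 : ((infM δ A).map (Int.castRingHom F)).det = ((infM δ A).det : F) :=
      ((Int.castRingHom F).map_det (infM δ A)).symm
    rw [h1]
    exact intCast_ne_zero_of hgood.2.2.1
  rw [bundle_formula h2 m δ A h.symm hinf, hcan_sum h F hp hpZ]

lemma poly_id (x : ℂ) (m : ℕ) : (x + 1) * ∑ j ∈ Finset.range (2 * m), x ^ j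
    = ∑ k ∈ Finset.range (2 * m + 1), (((if k < 2 * m then 1 else 0) + (if 1 ≤ k then 1 else 0) : ℕ) : ℂ)
      * x ^ k := by
  push_cast
  simp_rw [add_mul]
  rw [Finset.sum_add_distrib, add_comm]
  congr 1
  · rw [Finset.sum_range_succ]
    simp only [lt_irrefl, if_false, zero_mul, add_zero, one_mul]
    refine Finset.sum_congr rfl fun k hk => ?_
    rw [if_pos (Finset.mem_range.mp hk), one_mul]
  · rw [Finset.sum_range_succ', Finset.mul_sum]
    simp [pow_succ, mul_comm]

theorem bundle_Q1 (h : IsBundle m δ A) :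
    Q1Sys (badSet δ A) (fun p _ r => bundleCount δ A (GaloisField p r)) := by
  apply core (β := {B // B ∈ reps (ff A) 1}) (fun B => fieldA B.1) (fun B => dB A B.1) m (2 * m + 1)
    (fun k => (if k < 2 * m then 1 else 0) + (if 1 ≤ k then 1 else 0))
  · intro p hp hpZ
    have hgood : p ≠ 2 ∧ ¬ ((p : ℤ) ∣ A.det.leadingCoeff) ∧ ¬ ((p : ℤ) ∣ (infM δ A).det) ∧
      (A.det.map (Int.castRingHom (ZMod p))).Separable ∧
      ∀ B ∈ reps (ff A) 1, ∀ q : PK (fieldA B), (p : 𝓞 (fieldA B)) ∈ q.asIdeal →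
        dB A B ∉ q.asIdeal := by
      by_contra hc
      exact hpZ ⟨hp, hc⟩
    exact ⟨hgood.1, fun b => hgood.2.2.2.2 b.1 b.2⟩
  · intro p hp hpZ r hr
    have hcard : Nat.card (GaloisField p r) = p ^ r := GaloisField.card p r (by omega)
    rw [bundle_hN h (GaloisField p r) hp.out hpZ, hcard, poly_id]
    push_cast
    congr 2
    exact (Finset.sum_coe_sort (reps (ff A) 1)
      (fun B => ∑ᶠ φ : 𝓞 (fieldA B) →+* GaloisField p r, eta (GaloisField p r) (φ (dB A B)))).symm

end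

end Pool.Agent.Helper4
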