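import Mathlib
import Pool.Agent.helper4.BundleCount

/-! # Counting isotropic subspaces -/

set_option linter.unusedSectionVars false

noncomputable section

namespace Pool.Agent.Helper4

open Matrix Module

open scoped Classical

/-- counting tuples one element at a time -/
lemma card_tuples {V : Type*} [Finite V] (P : ∀ k : ℕ, (Fin k → V) → Prop)
    (E : ∀ k : ℕ, (Fin k → V) → V → Prop) (h0 : ∀ x, P 0 x)
    (hcons : ∀ (k : ℕ) (x : Fin k → V) (a : V), P (k + 1) (Fin.cons a x) ↔ P k x ∧ E k x a)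
    (e : ℕ → ℂ) (hcard : ∀ (k : ℕ) (x : Fin k → V), P k x → (Nat.card {a // E k x a} : ℂ) = e k)
    (k : ℕ) :
    (Nat.card {x : Fin k → V // P k x} : ℂ) = ∏ j ∈ Finset.range k, e j := by
  induction k with
  | zero =>
    have : Nat.card {x : Fin 0 → V // P 0 x} = 1 := by
      rw [Nat.card_eq_one_iff_unique]
      exact ⟨⟨fun a b => Subtype.ext (Subsingleton.elim _ _)⟩, ⟨⟨Fin.elim0, h0 _⟩⟩⟩
    rw [this]
    simp
  | succ k ih =>
    rw [Finset.prod_range_succ, ← ih]
    let E' : {x : Fin (k + 1) → V // P (k + 1) x} ≃ Σ x : {x : Fin k → V // P k x}, {a // E k x.1 a} :=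
      { toFun := fun x => ⟨⟨Fin.tail x.1, ((hcons k (Fin.tail x.1) (x.1 0)).mp (by
            rw [Fin.cons_self_tail]; exact x.2)).1⟩, ⟨x.1 0, ((hcons k (Fin.tail x.1) (x.1 0)).mp (by
            rw [Fin.cons_self_tail]; exact x.2)).2⟩⟩
        invFun := fun y => ⟨Fin.cons y.2.1 y.1.1, (hcons k _ _).mpr ⟨y.1.2, y.2.2⟩⟩
        left_inv := fun x => by
          apply Subtype.ext
          exact Fin.cons_self_tail x.1
        right_inv := fun y => by
          rcases y with ⟨⟨x, hx⟩, ⟨a, ha⟩⟩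
          rfl }
    have : Fintype {x : Fin k → V // P k x} := Fintype.ofFinite _
    rw [Nat.card_congr E', Nat.card_sigma]
    push_cast
    rw [Finset.sum_congr rfl (fun x _ => hcard k x.1 x.2), Finset.sum_const, nsmul_eq_mul,
      Finset.card_univ, Nat.card_eq_fintype_card]

variable {F : Type*} [Field F]

lemma finrank_comap_le {V W : Type*} [AddCommGroup V] [Module F V] [FiniteDimensional F V]
    [AddCommGroup W] [Module F W] [FiniteDimensional F W] (f : V →ₗ[F] W) (T : Submodule F W)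
    (hT : T ≤ LinearMap.range f) :
    finrank F (T.comap f) = finrank F T + finrank F (LinearMap.ker f) := by
  have h1 := LinearMap.finrank_range_add_finrank_ker (f.submoduleComap T)
  have hsurj : LinearMap.range (f.submoduleComap T) = ⊤ := by
    rw [LinearMap.range_eq_top]
    rintro ⟨y, hy⟩
    obtain ⟨x, rfl⟩ := hT hy
    exact ⟨⟨x, hy⟩, rfl⟩
  have hker : LinearMap.ker (f.submoduleComap T) = (LinearMap.ker f).comap (T.comap f).subtype := by
    ext x
    rw [LinearMap.mem_ker, Submodule.mem_comap, LinearMap.mem_ker]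
    constructor
    · intro h
      exact congrArg Subtype.val h
    · intro h
      exact Subtype.ext h
  have hle : LinearMap.ker f ≤ T.comap f := by
    intro x hx
    rw [Submodule.mem_comap, LinearMap.mem_ker.mp hx]
    exact T.zero_mem
  have h2 : finrank F (LinearMap.ker (f.submoduleComap T)) = finrank F (LinearMap.ker f) := by
    rw [hker]
    exact (Submodule.comapSubtypeEquivOfLe hle).finrank_eq
  rw [hsurj, finrank_top, h2] at h1
  exact h1.symm

variable [Finite F]

lemma natCard_pow {V : Type*} [AddCommGroup V] [Module F V] [FiniteDimensional F V] :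
    Nat.card V = Nat.card F ^ finrank F V := Module.natCard_eq_pow_finrank (K := F)

/-- independent tuples -/
lemma card_LI_map {V W : Type*} [AddCommGroup V] [Module F V] [FiniteDimensional F V]
    [AddCommGroup W] [Module F W] [FiniteDimensional F W] (f : V →ₗ[F] W) (k : ℕ) :
    (Nat.card {y : Fin k → V // LinearIndependent F (fun i => f (y i))} : ℂ)
      = ∏ j ∈ Finset.range k, ((Nat.card F : ℂ) ^ finrank F V -
        (Nat.card F : ℂ) ^ (finrank F (LinearMap.ker f) + j)) := by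
  have hfin : Finite V := Module.finite_of_finite F
  apply card_tuples (fun k y => LinearIndependent F (fun i => f (y i)))
    (fun k y a => f a ∉ Submodule.span F (Set.range (fun i => f (y i))))
  · intro x
    exact linearIndependent_empty_type
  · intro k x a
    have : (fun i => f ((Fin.cons a x : Fin (k + 1) → V) i))
        = Fin.cons (f a) (fun i => f (x i)) := by
      funext i
      refine Fin.cases ?_ ?_ i
      · simp
      · intro j; simp
    rw [this, linearIndependent_finCons]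
  · intro k x hx
    set T := Submodule.span F (Set.range (fun i => f (x i))) with hT
    have h1 : finrank F T = k := by
      rw [hT, finrank_span_eq_card hx, Fintype.card_fin]
    have h2 : T ≤ LinearMap.range f := by
      rw [hT, Submodule.span_le]
      rintro _ ⟨i, rfl⟩
      exact ⟨x i, rfl⟩
    have h3 := finrank_comap_le f T h2
    have : Fintype V := Fintype.ofFinite V
    have h4 : Nat.card {a // f a ∉ T} + Nat.card (T.comap f) = Nat.card V := by
      have e : Nat.card (T.comap f) = Nat.card {a // f a ∈ T} := rfl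
      rw [e, add_comm, ← Nat.card_sum]
      exact Nat.card_congr (Equiv.sumCompl (fun a => f a ∈ T))
    rw [natCard_pow (F := F) (V := T.comap f), natCard_pow (F := F) (V := V), h3, h1] at h4
    have h5 : (Nat.card {a // f a ∉ T} : ℂ) = ((Nat.card {a // f a ∉ T} +
      Nat.card F ^ (k + finrank F (LinearMap.ker f)) : ℕ) : ℂ) -
        (Nat.card F : ℂ) ^ (k + finrank F (LinearMap.ker f)) := by
      push_cast; ring
    rw [h5, h4, add_comm k]
    push_cast
    rfl

lemma fiber_card {V : Type*} [AddCommGroup V] [Module F V] [FiniteDimensional F V]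
    (g : V →ₗ[F] F) (hg : g ≠ 0) (b : F) : Nat.card {c // g c = b} * Nat.card F = Nat.card V := by
  have hsurj : Function.Surjective g := LinearMap.surjective hg
  obtain ⟨c0, hc0⟩ := hsurj b
  let e : {c // g c = b} ≃ LinearMap.ker g :=
    { toFun := fun c => ⟨c.1 - c0, by rw [LinearMap.mem_ker, map_sub, c.2, hc0, sub_self]⟩
      invFun := fun c => ⟨c.1 + c0, by rw [map_add, LinearMap.mem_ker.mp c.2, zero_add, hc0]⟩
      left_inv := fun c => Subtype.ext (sub_add_cancel _ _)
      right_inv := fun c => Subtype.ext (add_sub_cancel_right _ _) }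
  have h1 := LinearMap.finrank_range_add_finrank_ker g
  rw [LinearMap.range_eq_top.mpr hsurj, finrank_top, finrank_self] at h1
  rw [Nat.card_congr e, natCard_pow (F := F) (V := LinearMap.ker g), natCard_pow (F := F) (V := V),
    ← h1, ← pow_succ, add_comm]

lemma dot_symm {n : ℕ} {S : Matrix (Fin n) (Fin n) F} (hS : S.IsSymm) (a b : Fin n → F) :
    a ⬝ᵥ S *ᵥ b = b ⬝ᵥ S *ᵥ a := by
  rw [Matrix.dotProduct_mulVec, dotProduct_comm, ← Matrix.mulVec_transpose, hS]

lemma mulVec_sum_smul {n k : ℕ} (S : Matrix (Fin n) (Fin n) F) (x : Fin k → Fin n → F)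
    (c : Fin k → F) : S *ᵥ (∑ i, c i • x i) = ∑ i, c i • (S *ᵥ x i) := by
  have := map_sum S.mulVecLin (fun i => c i • x i) Finset.univ
  simp only [Matrix.mulVecLin_apply, Matrix.mulVec_smul] at this
  exact this

lemma quad_translate {n k : ℕ} {S : Matrix (Fin n) (Fin n) F} (hS : S.IsSymm)
    (x : Fin k → Fin n → F) (hiso : ∀ i j, x i ⬝ᵥ S *ᵥ x j = 0) (a : Fin n → F) (c : Fin k → F) :
    (a + ∑ i, c i • x i) ⬝ᵥ S *ᵥ (a + ∑ i, c i • x i)
      = a ⬝ᵥ S *ᵥ a + 2 * ∑ i, c i * (a ⬝ᵥ S *ᵥ x i) := by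
  have h1 : ∀ b : Fin n → F, b ⬝ᵥ S *ᵥ (∑ i, c i • x i) = ∑ i, c i * (b ⬝ᵥ S *ᵥ x i) := by
    intro b
    rw [mulVec_sum_smul, dotProduct_sum]
    refine Finset.sum_congr rfl fun i _ => ?_
    rw [dotProduct_smul, smul_eq_mul]
  have h2 : (∑ i, c i • x i) ⬝ᵥ S *ᵥ (∑ i, c i • x i) = 0 := by
    rw [h1]
    apply Finset.sum_eq_zero
    intro i _
    rw [dot_symm hS, h1]
    rw [Finset.sum_eq_zero, mul_zero]
    intro j _
    rw [hiso i j, mul_zero]
  rw [Matrix.mulVec_add, add_dotProduct, dotProduct_add, dotProduct_add, h2,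
    dot_symm hS (∑ i, c i • x i) a, h1 a]
  ring

/-- zeros orthogonal to an isotropic subspace -/
lemma perp_count {n k : ℕ} {S : Matrix (Fin n) (Fin n) F} (h2 : (2 : F) ≠ 0) (hS : S.IsSymm)
    (x : Fin k → Fin n → F) (hx : LinearIndependent F (fun i => S *ᵥ x i))
    (hiso : ∀ i j, x i ⬝ᵥ S *ᵥ x j = 0) :
    (Nat.card {a : Fin n → F // a ⬝ᵥ S *ᵥ a = 0 ∧ ∀ i, a ⬝ᵥ S *ᵥ x i = 0} : ℂ)
      = (zeroCount S : ℂ) - (Nat.card F : ℂ) ^ n / Nat.card F
        + (Nat.card F : ℂ) ^ n / ((Nat.card F : ℂ) ^ k * Nat.card F) := by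
  have hF : Fintype F := Fintype.ofFinite F
  have hq : (Nat.card F : ℂ) ≠ 0 := cardF_ne
  have hqn : Nat.card F ≠ 0 := Nat.card_pos.ne'
  set q : ℂ := (Nat.card F : ℂ) with hqdef
  -- the orthogonal complement
  let M : Matrix (Fin k) (Fin n) F := Matrix.of fun i => S *ᵥ x i
  have hM : ∀ (a : Fin n → F) i, (M.mulVecLin a) i = a ⬝ᵥ S *ᵥ x i := by
    intro a i
    rw [Matrix.mulVecLin_apply, Matrix.mulVec, dotProduct_comm]
    rfl
  have hrank : finrank F (LinearMap.ker M.mulVecLin) + k = n := by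
    have h3 := LinearMap.finrank_range_add_finrank_ker M.mulVecLin
    have h4 : M.rank = k := by
      have := LinearIndependent.rank_matrix (M := M) hx
      rwa [Fintype.card_fin] at this
    have h5 : finrank F (LinearMap.range M.mulVecLin) = k := h4
    rw [h5, finrank_fin_fun] at h3
    omega
  have hperp : (Nat.card {a : Fin n → F // ∀ i, a ⬝ᵥ S *ᵥ x i = 0} : ℂ) * q ^ k = q ^ n := by
    have e : {a : Fin n → F // ∀ i, a ⬝ᵥ S *ᵥ x i = 0} ≃ LinearMap.ker M.mulVecLin :=
      Equiv.subtypeEquivRight fun a => by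
        rw [LinearMap.mem_ker, funext_iff]
        simp only [hM, Pi.zero_apply]
    rw [Nat.card_congr e, natCard_pow (F := F) (V := LinearMap.ker M.mulVecLin)]
    push_cast
    rw [← pow_add, hrank]
  -- double counting
  have hcount : ∀ a : Fin n → F, (Nat.card {c : Fin k → F //
      (a + ∑ i, c i • x i) ⬝ᵥ S *ᵥ (a + ∑ i, c i • x i) = 0} : ℂ)
      = if ∀ i, a ⬝ᵥ S *ᵥ x i = 0 then (if a ⬝ᵥ S *ᵥ a = 0 then q ^ k else 0) else q ^ k / q := by
    intro a
    have e1 : {c : Fin k → F // (a + ∑ i, c i • x i) ⬝ᵥ S *ᵥ (a + ∑ i, c i • x i) = 0}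
        ≃ {c : Fin k → F // a ⬝ᵥ S *ᵥ a + 2 * ∑ i, c i * (a ⬝ᵥ S *ᵥ x i) = 0} :=
      Equiv.subtypeEquivRight fun c => by rw [quad_translate hS x hiso]
    rw [Nat.card_congr e1]
    split_ifs with h3 h4
    · have e2 : {c : Fin k → F // a ⬝ᵥ S *ᵥ a + 2 * ∑ i, c i * (a ⬝ᵥ S *ᵥ x i) = 0} ≃ (Fin k → F) :=
        Equiv.subtypeUnivEquiv fun c => by simp [h3, h4]
      rw [Nat.card_congr e2, Nat.card_eq_fintype_card, Fintype.card_fun, Fintype.card_fin,
        hqdef, Nat.card_eq_fintype_card]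
      push_cast
      rfl
    · have : IsEmpty {c : Fin k → F // a ⬝ᵥ S *ᵥ a + 2 * ∑ i, c i * (a ⬝ᵥ S *ᵥ x i) = 0} := by
        refine ⟨fun c => h4 ?_⟩
        have := c.2
        simpa [h3] using this
      rw [Nat.card_of_isEmpty]
      simp
    · let g : (Fin k → F) →ₗ[F] F :=
        { toFun := fun c => 2 * ∑ i, c i * (a ⬝ᵥ S *ᵥ x i)
          map_add' := fun c d => by
            simp only [Pi.add_apply, add_mul, Finset.sum_add_distrib, mul_add]
          map_smul' := fun r c => by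
            simp only [Pi.smul_apply, smul_eq_mul, RingHom.id_apply, Finset.mul_sum]
            refine Finset.sum_congr rfl fun i _ => ?_
            ring }
      have hg : g ≠ 0 := by
        push Not at h3
        obtain ⟨i, hi⟩ := h3
        intro h0
        have h5 := LinearMap.congr_fun h0 (Pi.single i 1)
        simp only [LinearMap.zero_apply] at h5
        have h6 : g (Pi.single i 1) = 2 * (a ⬝ᵥ S *ᵥ x i) := by
          change 2 * ∑ j, (Pi.single i 1 : Fin k → F) j * (a ⬝ᵥ S *ᵥ x j) = _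
          rw [Finset.sum_eq_single i]
          · simp
          · intro j _ hj
            simp [hj]
          · intro h; exact absurd (Finset.mem_univ i) h
        rw [h6] at h5
        exact mul_ne_zero h2 hi h5
      have h7 := fiber_card g hg (-(a ⬝ᵥ S *ᵥ a))
      have e3 : {c : Fin k → F // a ⬝ᵥ S *ᵥ a + 2 * ∑ i, c i * (a ⬝ᵥ S *ᵥ x i) = 0}
          ≃ {c // g c = -(a ⬝ᵥ S *ᵥ a)} :=
        Equiv.subtypeEquivRight fun c => by
          change _ ↔ 2 * ∑ i, c i * (a ⬝ᵥ S *ᵥ x i) = _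
          rw [add_comm, add_eq_zero_iff_eq_neg]
      rw [Nat.card_congr e3, eq_div_iff hq]
      have h8 : Nat.card (Fin k → F) = Nat.card F ^ k := by
        rw [Nat.card_eq_fintype_card, Fintype.card_fun, Fintype.card_fin, Nat.card_eq_fintype_card]
      rw [h8] at h7
      rw [hqdef]
      exact_mod_cast h7
  have hz : ∑ a : Fin n → F, (Nat.card {c : Fin k → F //
      (a + ∑ i, c i • x i) ⬝ᵥ S *ᵥ (a + ∑ i, c i • x i) = 0} : ℂ) = q ^ k * (zeroCount S : ℂ) := by
    have e1 : ∀ a : Fin n → F, (Nat.card {c : Fin k → F //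
      (a + ∑ i, c i • x i) ⬝ᵥ S *ᵥ (a + ∑ i, c i • x i) = 0} : ℂ)
        = ∑ c : Fin k → F, if (a + ∑ i, c i • x i) ⬝ᵥ S *ᵥ (a + ∑ i, c i • x i) = 0 then 1 else 0 := by
      intro a
      rw [Nat.card_eq_fintype_card, Fintype.card_subtype, Finset.card_filter]
      push_cast
      rfl
    simp_rw [e1]
    rw [Finset.sum_comm]
    have e2 : ∀ c : Fin k → F, ∑ a : Fin n → F,
        (if (a + ∑ i, c i • x i) ⬝ᵥ S *ᵥ (a + ∑ i, c i • x i) = 0 then (1 : ℂ) else 0)
        = zeroCount S := by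
      intro c
      rw [Fintype.sum_equiv (Equiv.addRight (∑ i, c i • x i)) (fun a : Fin n → F =>
        (if (a + ∑ i, c i • x i) ⬝ᵥ S *ᵥ (a + ∑ i, c i • x i) = 0 then (1 : ℂ) else 0))
        (fun a => if a ⬝ᵥ S *ᵥ a = 0 then (1 : ℂ) else 0) (fun a => rfl)]
      unfold zeroCount
      rw [Nat.card_eq_fintype_card, Fintype.card_subtype, Finset.card_filter]
      push_cast
      rfl
    rw [Finset.sum_congr rfl (fun c _ => e2 c), Finset.sum_const, nsmul_eq_mul, Finset.card_univ,
      Fintype.card_fun, Fintype.card_fin, hqdef, Nat.card_eq_fintype_card]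
    push_cast
    rfl
  rw [Finset.sum_congr rfl (fun a _ => hcount a)] at hz
  have hsplit : ∑ a : Fin n → F, (if ∀ i, a ⬝ᵥ S *ᵥ x i = 0 then
      (if a ⬝ᵥ S *ᵥ a = 0 then q ^ k else 0) else q ^ k / q)
      = q ^ k * (Nat.card {a : Fin n → F // a ⬝ᵥ S *ᵥ a = 0 ∧ ∀ i, a ⬝ᵥ S *ᵥ x i = 0} : ℂ)
        + q ^ k / q * (q ^ n - (Nat.card {a : Fin n → F // ∀ i, a ⬝ᵥ S *ᵥ x i = 0} : ℂ)) := by
    have e1 : (Nat.card {a : Fin n → F // a ⬝ᵥ S *ᵥ a = 0 ∧ ∀ i, a ⬝ᵥ S *ᵥ x i = 0} : ℂ)
        = ∑ a : Fin n → F, if a ⬝ᵥ S *ᵥ a = 0 ∧ ∀ i, a ⬝ᵥ S *ᵥ x i = 0 then 1 else 0 := by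
      rw [Nat.card_eq_fintype_card, Fintype.card_subtype, Finset.card_filter]
      push_cast
      rfl
    have e2 : (Nat.card {a : Fin n → F // ∀ i, a ⬝ᵥ S *ᵥ x i = 0} : ℂ)
        = ∑ a : Fin n → F, if ∀ i, a ⬝ᵥ S *ᵥ x i = 0 then 1 else 0 := by
      rw [Nat.card_eq_fintype_card, Fintype.card_subtype, Finset.card_filter]
      push_cast
      rfl
    have e3 : q ^ n = ∑ a : Fin n → F, 1 := by
      rw [Finset.sum_const, Finset.card_univ, nsmul_eq_mul, mul_one, Fintype.card_fun,
        Fintype.card_fin, hqdef, Nat.card_eq_fintype_card]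
      push_cast
      rfl
    rw [e1, e2, e3, ← Finset.sum_sub_distrib, Finset.mul_sum, Finset.mul_sum,
      ← Finset.sum_add_distrib]
    refine Finset.sum_congr rfl fun a _ => ?_
    by_cases h3 : ∀ i, a ⬝ᵥ S *ᵥ x i = 0
    · by_cases h4 : a ⬝ᵥ S *ᵥ a = 0
      · simp [h3, h4]
      · simp [h3, h4]
    · simp [h3]
  rw [hsplit] at hz
  have hqk : q ^ k ≠ 0 := pow_ne_zero _ hq
  have h9 : (Nat.card {a : Fin n → F // ∀ i, a ⬝ᵥ S *ᵥ x i = 0} : ℂ) = q ^ n / q ^ k := by
    rw [eq_div_iff hqk]; exact hperp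
  rw [h9] at hz
  apply mul_left_cancel₀ hqk
  have h10 : q ^ k * (Nat.card {a : Fin n → F // a ⬝ᵥ S *ᵥ a = 0 ∧ ∀ i, a ⬝ᵥ S *ᵥ x i = 0} : ℂ)
      = q ^ k * (zeroCount S : ℂ) - q ^ k / q * (q ^ n - q ^ n / q ^ k) := by
    linear_combination hz
  rw [h10]
  field_simp
  ring

/-- the ratio for the frames -/
def eFr (q z : ℂ) (n r j : ℕ) : ℂ := z - q ^ n / q + q ^ n / (q ^ j * q) - q ^ (r + j)

/-- independent isotropic tuples -/
lemma card_frames {n : ℕ} {S : Matrix (Fin n) (Fin n) F} (h2 : (2 : F) ≠ 0) (hS : S.IsSymm)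
    (r : ℕ) (hr : finrank F (LinearMap.ker S.mulVecLin) = r) (k : ℕ) :
    (Nat.card {x : Fin k → Fin n → F // LinearIndependent F (fun i => S *ᵥ x i) ∧
      ∀ i j, x i ⬝ᵥ S *ᵥ x j = 0} : ℂ)
      = ∏ j ∈ Finset.range k, eFr (Nat.card F) (zeroCount S) n r j := by
  apply card_tuples (fun k (x : Fin k → Fin n → F) => LinearIndependent F (fun i => S *ᵥ x i) ∧
      ∀ i j, x i ⬝ᵥ S *ᵥ x j = 0)
    (fun k x a => S *ᵥ a ∉ Submodule.span F (Set.range (fun i => S *ᵥ x i)) ∧
      a ⬝ᵥ S *ᵥ a = 0 ∧ ∀ i, a ⬝ᵥ S *ᵥ x i = 0)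
  · intro x
    exact ⟨linearIndependent_empty_type, fun i => Fin.elim0 i⟩
  · intro k x a
    have : (fun i => S *ᵥ ((Fin.cons a x : Fin (k + 1) → Fin n → F) i))
        = Fin.cons (S *ᵥ a) (fun i => S *ᵥ (x i)) := by
      funext i
      refine Fin.cases ?_ ?_ i
      · simp
      · intro j; simp
    rw [this, linearIndependent_finCons]
    constructor
    · rintro ⟨⟨h3, h4⟩, h5⟩
      refine ⟨⟨h3, fun i j => ?_⟩, h4, ?_, fun i => ?_⟩
      · have := h5 i.succ j.succ
        simpa using this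
      · have := h5 0 0
        simpa using this
      · have := h5 0 i.succ
        simpa using this
    · rintro ⟨⟨h3, h4⟩, h5, h6, h7⟩
      refine ⟨⟨h3, h5⟩, fun i j => ?_⟩
      refine Fin.cases ?_ (fun i => ?_) i
      · refine Fin.cases ?_ (fun j => ?_) j
        · simpa using h6
        · simpa using h7 j
      · refine Fin.cases ?_ (fun j => ?_) j
        · have := h7 i
          rw [dot_symm hS] at this
          simpa using this
        · simpa using h4 i j
  · rintro k x ⟨hx, hiso⟩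
    set T := Submodule.span F (Set.range (fun i => S *ᵥ x i)) with hT
    have h1 : finrank F T = k := by
      rw [hT, finrank_span_eq_card hx, Fintype.card_fin]
    have h3 : T ≤ LinearMap.range S.mulVecLin := by
      rw [hT, Submodule.span_le]
      rintro _ ⟨i, rfl⟩
      exact ⟨x i, rfl⟩
    have h4 := finrank_comap_le S.mulVecLin T h3
    -- the elements of the comap satisfy the conditions
    have h5 : ∀ a, S *ᵥ a ∈ T → a ⬝ᵥ S *ᵥ a = 0 ∧ ∀ i, a ⬝ᵥ S *ᵥ x i = 0 := by
      intro a ha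
      obtain ⟨c, hc⟩ := (Submodule.mem_span_range_iff_exists_fun F).mp ha
      have h6 : ∀ i, a ⬝ᵥ S *ᵥ x i = 0 := by
        intro i
        rw [dot_symm hS, ← hc, dotProduct_sum]
        apply Finset.sum_eq_zero
        intro j _
        rw [dotProduct_smul, hiso i j, smul_zero]
      refine ⟨?_, h6⟩
      rw [← hc, dotProduct_sum]
      apply Finset.sum_eq_zero
      intro j _
      rw [dotProduct_smul, h6 j, smul_zero]
    have h6 : Nat.card {a : Fin n → F // S *ᵥ a ∉ T ∧ a ⬝ᵥ S *ᵥ a = 0 ∧ ∀ i, a ⬝ᵥ S *ᵥ x i = 0}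
        + Nat.card (T.comap S.mulVecLin)
        = Nat.card {a : Fin n → F // a ⬝ᵥ S *ᵥ a = 0 ∧ ∀ i, a ⬝ᵥ S *ᵥ x i = 0} := by
      have e : Nat.card (T.comap S.mulVecLin) = Nat.card {a : Fin n → F // S *ᵥ a ∈ T} := rfl
      rw [e, ← Nat.card_sum]
      refine Nat.card_congr
        { toFun := fun a => match a with
            | Sum.inl a => ⟨a.1, a.2.2⟩
            | Sum.inr a => ⟨a.1, h5 a.1 a.2⟩
          invFun := fun a => if h : S *ᵥ a.1 ∈ T then Sum.inr ⟨a.1, h⟩ else Sum.inl ⟨a.1, h, a.2⟩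
          left_inv := fun a => by
            rcases a with a | a
            · simp only [dif_neg a.2.1]
            · simp only [dif_pos a.2]
          right_inv := fun a => by
            by_cases h : S *ᵥ a.1 ∈ T
            · simp only [dif_pos h]
            · simp only [dif_neg h] }
    have h7 := perp_count h2 hS x hx hiso
    rw [← h6] at h7
    rw [natCard_pow (F := F) (V := T.comap S.mulVecLin), h4, h1, hr] at h7
    push_cast at h7
    unfold eFr
    rw [← h7, add_comm r k]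
    ring

/-- counting through a map with fibres of constant size -/
lemma card_fiber_const {α β : Type*} [Finite α] [Finite β] (g : α → β) (c : ℂ)
    (h : ∀ b, (Nat.card {a // g a = b} : ℂ) = c) : (Nat.card α : ℂ) = Nat.card β * c := by
  have : Fintype β := Fintype.ofFinite β
  rw [← Nat.card_congr (Equiv.sigmaFiberEquiv g), Nat.card_sigma]
  push_cast
  rw [Finset.sum_congr rfl (fun b _ => h b), Finset.sum_const, nsmul_eq_mul, Finset.card_univ,
    Nat.card_eq_fintype_card]

lemma polar {n : ℕ} {S : Matrix (Fin n) (Fin n) F} (h2 : (2 : F) ≠ 0) (hS : S.IsSymm)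
    (U : Submodule F (Fin n → F)) (hU : ∀ x ∈ U, x ⬝ᵥ S *ᵥ x = 0) (x y : Fin n → F)
    (hx : x ∈ U) (hy : y ∈ U) : x ⬝ᵥ S *ᵥ y = 0 := by
  have h := hU (x + y) (U.add_mem hx hy)
  rw [Matrix.mulVec_add, add_dotProduct, dotProduct_add, dotProduct_add, hU x hx, hU y hy,
    dot_symm hS y x] at h
  have h3 : (2 : F) * (x ⬝ᵥ S *ᵥ y) = 0 := by linear_combination h
  exact (mul_eq_zero.mp h3).resolve_left h2

lemma iso_span {n k : ℕ} {S : Matrix (Fin n) (Fin n) F} (hS : S.IsSymm) (x : Fin k → Fin n → F)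
    (hiso : ∀ i j, x i ⬝ᵥ S *ᵥ x j = 0) (y : Fin n → F)
    (hy : y ∈ Submodule.span F (Set.range x)) : y ⬝ᵥ S *ᵥ y = 0 := by
  obtain ⟨c, rfl⟩ := (Submodule.mem_span_range_iff_exists_fun F).mp hy
  have := quad_translate hS x hiso 0 c
  simpa using this

/-- isotropic subspaces which do not meet the kernel -/
lemma card_iso0 {n : ℕ} {S : Matrix (Fin n) (Fin n) F} (h2 : (2 : F) ≠ 0) (hS : S.IsSymm)
    (r : ℕ) (hr : finrank F (LinearMap.ker S.mulVecLin) = r) (k : ℕ) :
    (Nat.card {U : Submodule F (Fin n → F) // (finrank F U = k ∧ ∀ x ∈ U, x ⬝ᵥ S *ᵥ x = 0) ∧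
      U ⊓ LinearMap.ker S.mulVecLin = ⊥} : ℂ) *
      ∏ j ∈ Finset.range k, ((Nat.card F : ℂ) ^ k - (Nat.card F : ℂ) ^ j)
      = ∏ j ∈ Finset.range k, eFr (Nat.card F) (zeroCount S) n r j := by
  have hfinS : Finite (Submodule F (Fin n → F)) :=
    Finite.of_injective (fun L => (L : Set (Fin n → F))) SetLike.coe_injective
  rw [← card_frames h2 hS r hr k]
  symm
  let g : {x : Fin k → Fin n → F // LinearIndependent F (fun i => S *ᵥ x i) ∧
      ∀ i j, x i ⬝ᵥ S *ᵥ x j = 0} → {U : Submodule F (Fin n → F) //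
      (finrank F U = k ∧ ∀ x ∈ U, x ⬝ᵥ S *ᵥ x = 0) ∧ U ⊓ LinearMap.ker S.mulVecLin = ⊥} :=
    fun x => ⟨Submodule.span F (Set.range x.1), by
      have hli : LinearIndependent F x.1 :=
        LinearIndependent.of_comp S.mulVecLin x.2.1
      refine ⟨⟨?_, ?_⟩, ?_⟩
      · rw [finrank_span_eq_card hli, Fintype.card_fin]
      · intro y hy
        exact iso_span hS x.1 x.2.2 y hy
      · rw [eq_bot_iff]
        rintro y ⟨hy1, hy2⟩
        obtain ⟨c, rfl⟩ := (Submodule.mem_span_range_iff_exists_fun F).mp hy1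
        rw [SetLike.mem_coe, LinearMap.mem_ker, Matrix.mulVecLin_apply, mulVec_sum_smul] at hy2
        have h3 := (Fintype.linearIndependent_iff.mp x.2.1) c hy2
        rw [Submodule.mem_bot]
        apply Finset.sum_eq_zero
        intro i _
        rw [h3 i, zero_smul]⟩
  apply card_fiber_const g
  rintro ⟨U, ⟨hU1, hU2⟩, hU3⟩
  let f : U →ₗ[F] (Fin n → F) := S.mulVecLin.comp U.subtype
  have hkerf : LinearMap.ker f = ⊥ := by
    rw [LinearMap.ker_eq_bot']
    intro y hy
    have h3 : (y : Fin n → F) ∈ U ⊓ LinearMap.ker S.mulVecLin := ⟨y.2, hy⟩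
    rw [hU3, Submodule.mem_bot] at h3
    exact Subtype.ext h3
  have hcount := card_LI_map f k
  rw [hkerf, finrank_bot, hU1] at hcount
  simp only [zero_add] at hcount
  rw [← hcount]
  congr 1
  refine Nat.card_congr
    { toFun := fun x => ⟨fun i => ⟨x.1.1 i, by
          have h3 := congrArg Subtype.val x.2
          change Submodule.span F (Set.range x.1.1) = U at h3
          exact h3.le (Submodule.subset_span ⟨i, rfl⟩)⟩, x.1.2.1⟩
      invFun := fun y => ⟨⟨fun i => (y.1 i : Fin n → F), y.2, fun i j =>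
          polar h2 hS U hU2 _ _ (y.1 i).2 (y.1 j).2⟩, by
          apply Subtype.ext
          change Submodule.span F (Set.range (fun i => (y.1 i : Fin n → F))) = U
          apply Submodule.eq_of_le_of_finrank_eq
          · rw [Submodule.span_le]
            rintro _ ⟨i, rfl⟩
            exact (y.1 i).2
          · have hli : LinearIndependent F (fun i => (y.1 i : Fin n → F)) :=
              LinearIndependent.of_comp S.mulVecLin y.2
            rw [finrank_span_eq_card hli, Fintype.card_fin, hU1]⟩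
      left_inv := fun x => rfl
      right_inv := fun y => rfl }

/-- isotropic subspaces which contain the kernel -/
lemma card_iso1 {n : ℕ} {S : Matrix (Fin n) (Fin n) F} (h2 : (2 : F) ≠ 0) (hS : S.IsSymm)
    (r : ℕ) (hr : finrank F (LinearMap.ker S.mulVecLin) = r) (k : ℕ) :
    (Nat.card {U : Submodule F (Fin n → F) // (finrank F U = r + k ∧ ∀ x ∈ U, x ⬝ᵥ S *ᵥ x = 0) ∧
      LinearMap.ker S.mulVecLin ≤ U} : ℂ) *
      ∏ j ∈ Finset.range k, ((Nat.card F : ℂ) ^ (r + k) - (Nat.card F : ℂ) ^ (r + j))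
      = ∏ j ∈ Finset.range k, eFr (Nat.card F) (zeroCount S) n r j := by
  have hfinS : Finite (Submodule F (Fin n → F)) :=
    Finite.of_injective (fun L => (L : Set (Fin n → F))) SetLike.coe_injective
  rw [← card_frames h2 hS r hr k]
  symm
  have hdisj : ∀ x : Fin k → Fin n → F, LinearIndependent F (fun i => S *ᵥ x i) →
      Disjoint (LinearMap.ker S.mulVecLin) (Submodule.span F (Set.range x)) := by
    intro x hx
    rw [disjoint_iff, eq_bot_iff]
    rintro y ⟨hy2, hy1⟩
    obtain ⟨c, rfl⟩ := (Submodule.mem_span_range_iff_exists_fun F).mp hy1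
    rw [SetLike.mem_coe, LinearMap.mem_ker, Matrix.mulVecLin_apply, mulVec_sum_smul] at hy2
    have h3 := (Fintype.linearIndependent_iff.mp hx) c hy2
    rw [Submodule.mem_bot]
    apply Finset.sum_eq_zero
    intro i _
    rw [h3 i, zero_smul]
  have hdim : ∀ x : Fin k → Fin n → F, LinearIndependent F (fun i => S *ᵥ x i) →
      finrank F (LinearMap.ker S.mulVecLin ⊔ Submodule.span F (Set.range x) : Submodule F (Fin n → F))
        = r + k := by
    intro x hx
    have hli : LinearIndependent F x := LinearIndependent.of_comp S.mulVecLin hx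
    have h3 := Submodule.finrank_sup_add_finrank_inf_eq (LinearMap.ker S.mulVecLin)
      (Submodule.span F (Set.range x))
    rw [(hdisj x hx).eq_bot, finrank_bot, finrank_span_eq_card hli, Fintype.card_fin, hr] at h3
    omega
  let g : {x : Fin k → Fin n → F // LinearIndependent F (fun i => S *ᵥ x i) ∧
      ∀ i j, x i ⬝ᵥ S *ᵥ x j = 0} → {U : Submodule F (Fin n → F) //
      (finrank F U = r + k ∧ ∀ x ∈ U, x ⬝ᵥ S *ᵥ x = 0) ∧ LinearMap.ker S.mulVecLin ≤ U} :=
    fun x => ⟨LinearMap.ker S.mulVecLin ⊔ Submodule.span F (Set.range x.1), by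
      refine ⟨⟨hdim x.1 x.2.1, ?_⟩, le_sup_left⟩
      intro y hy
      obtain ⟨u, hu, w, hw, rfl⟩ := Submodule.mem_sup.mp hy
      have hu' : S *ᵥ u = 0 := hu
      rw [Matrix.mulVec_add, hu', zero_add, add_dotProduct, iso_span hS x.1 x.2.2 w hw, add_zero,
        dot_symm hS, hu', dotProduct_zero]⟩
  apply card_fiber_const g
  rintro ⟨U, ⟨hU1, hU2⟩, hU3⟩
  let f : U →ₗ[F] (Fin n → F) := S.mulVecLin.comp U.subtype
  have hkerf : finrank F (LinearMap.ker f) = r := by
    have h3 : LinearMap.ker f = (LinearMap.ker S.mulVecLin).comap U.subtype := rfl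
    rw [h3, (Submodule.comapSubtypeEquivOfLe hU3).finrank_eq, hr]
  have hcount := card_LI_map f k
  rw [hkerf, hU1] at hcount
  rw [← hcount]
  congr 1
  refine Nat.card_congr
    { toFun := fun x => ⟨fun i => ⟨x.1.1 i, by
          have h3 := congrArg Subtype.val x.2
          change LinearMap.ker S.mulVecLin ⊔ Submodule.span F (Set.range x.1.1) = U at h3
          exact h3.le (Submodule.mem_sup_right (Submodule.subset_span ⟨i, rfl⟩))⟩, x.1.2.1⟩
      invFun := fun y => ⟨⟨fun i => (y.1 i : Fin n → F), y.2, fun i j =>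
          polar h2 hS U hU2 _ _ (y.1 i).2 (y.1 j).2⟩, by
          apply Subtype.ext
          change LinearMap.ker S.mulVecLin ⊔
            Submodule.span F (Set.range (fun i => (y.1 i : Fin n → F))) = U
          apply Submodule.eq_of_le_of_finrank_eq
          · apply sup_le hU3
            rw [Submodule.span_le]
            rintro _ ⟨i, rfl⟩
            exact (y.1 i).2
          · exact (hdim (fun i => (y.1 i : Fin n → F)) y.2).trans hU1.symm⟩
      left_inv := fun x => rfl
      right_inv := fun y => rfl }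

end Pool.Agent.Helper4
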