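import Mathlib
import Pool.Agent.helper4.IsoCount

/-! # Polynomials counting isotropic subspaces -/

set_option linter.unusedSectionVars false

noncomputable section

namespace Pool.Agent.Helper4

open Matrix Module Polynomial

open scoped Classical

/-- one step of the recursion -/
def stepP (s : ℕ) (c0 : ℕ[X]) (f : ℕ → ℕ[X]) : ℕ → ℕ[X]
  | 0 => c0
  | k + 1 => (1 + X ^ (s - k)) * f k + X ^ (k + 1) * f (k + 1)

/-- isotropic subspaces of a nondegenerate form of rank `2 m + 1` -/
def pA : ℕ → ℕ → ℕ[X]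
  | 0 => fun k => if k = 0 then 1 else 0
  | m + 1 => stepP (2 * m + 1) 1 (pA m)

/-- isotropic subspaces of a form of rank `2 m + 2` (average over the two types) -/
def pa : ℕ → ℕ → ℕ[X]
  | 0 => fun k => if k ≤ 1 then 1 else 0
  | m + 1 => stepP (2 * (m + 1)) 1 (pa m)

/-- isotropic subspaces of a form of rank `2 m + 2` (half of the difference of the two types) -/
def pb : ℕ → ℕ → ℕ[X]
  | 0 => fun k => if k = 1 then 1 else 0
  | m + 1 => stepP (2 * (m + 1)) 0 (pb m)

/-- isotropic subspaces of a form on a space with one-dimensional radical -/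
def rad1 (f : ℕ → ℕ[X]) : ℕ → ℕ[X]
  | 0 => f 0
  | k + 1 => X ^ (k + 1) * f (k + 1) + f k

/-- the difference between the degenerate and the nondegenerate fibres -/
def pE : ℕ → ℕ → ℕ[X]
  | 0 => fun k => if k = 2 then 1 else 0
  | m + 1 => stepP (2 * m + 3) 0 (pE m)

lemma pA_zero_of {m k : ℕ} (h : m < k) : pA m k = 0 := by
  induction m generalizing k with
  | zero =>
    simp only [pA]
    rw [if_neg (by omega)]
  | succ m ih =>
    obtain ⟨k, rfl⟩ := Nat.exists_eq_add_of_le' (show 1 ≤ k by omega)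
    simp only [pA, stepP]
    rw [ih (by omega), ih (by omega)]
    ring

lemma pa_zero_of {m k : ℕ} (h : m + 1 < k) : pa m k = 0 := by
  induction m generalizing k with
  | zero =>
    simp only [pa]
    rw [if_neg (by omega)]
  | succ m ih =>
    obtain ⟨k, rfl⟩ := Nat.exists_eq_add_of_le' (show 1 ≤ k by omega)
    simp only [pa, stepP]
    rw [ih (by omega), ih (by omega)]
    ring

lemma pb_zero_of {m k : ℕ} (h : m + 1 < k) : pb m k = 0 := by
  induction m generalizing k with
  | zero =>
    simp only [pb]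
    rw [if_neg (by omega)]
  | succ m ih =>
    obtain ⟨k, rfl⟩ := Nat.exists_eq_add_of_le' (show 1 ≤ k by omega)
    simp only [pb, stepP]
    rw [ih (by omega), ih (by omega)]
    ring

lemma pA_at_zero (m : ℕ) : pA m 0 = 1 := by
  cases m <;> simp [pA, stepP]

lemma pa_at_zero (m : ℕ) : pa m 0 = 1 := by
  cases m <;> simp [pa, stepP]

lemma pb_at_zero (m : ℕ) : pb m 0 = 0 := by
  cases m <;> simp [pb, stepP]

lemma pE_at_zero (m : ℕ) : pE m 0 = 0 := by
  cases m <;> simp [pE, stepP]

/-- the recursion for the degenerate fibres -/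
lemma rad1_pa_succ (m k : ℕ) :
    rad1 (pa (m + 1)) k = stepP (2 * m + 3) 1 (rad1 (pa m)) k := by
  cases k with
  | zero => simp [rad1, stepP, pa]
  | succ k =>
    cases k with
    | zero =>
      simp only [rad1, stepP, pa, pa_at_zero]
      have e1 : 2 * (m + 1) - 0 = 2 * m + 2 := by omega
      have e2 : 2 * m + 3 - 0 = 2 * m + 3 := by omega
      rw [e1, e2]
      ring
    | succ k =>
      simp only [rad1, stepP, pa]
      by_cases hk : k + 1 ≤ 2 * (m + 1)
      · obtain ⟨j, hj⟩ := Nat.exists_eq_add_of_le hk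
        have e1 : 2 * (m + 1) - (k + 1) = j := by omega
        have e2 : 2 * m + 3 - (k + 1) = j + 1 := by omega
        have e3 : 2 * (m + 1) - k = j + 1 := by omega
        rw [e1, e2, e3]
        ring
      · rw [pa_zero_of (show m + 1 < k + 1 by omega), pa_zero_of (show m + 1 < k + 1 + 1 by omega),
          pa_zero_of (show m + 1 < k by omega)]
        ring

lemma rad1_pa_eq (m k : ℕ) : rad1 (pa m) k = pA (m + 1) k + pE m k := by
  induction m generalizing k with
  | zero =>
    rcases k with _ | _ | _ | k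
    · simp [rad1, pa, pA, pE, stepP]
    · simp [rad1, pa, pA, pE, stepP]
      ring
    · simp [rad1, pa, pA, pE, stepP]
    · simp [rad1, pa, pA, pE, stepP]
  | succ m ih =>
    rw [rad1_pa_succ]
    cases k with
    | zero => simp [stepP, pA, pE]
    | succ k =>
      simp only [stepP]
      rw [ih, ih]
      simp only [pE, stepP]
      rw [show pA (m + 1 + 1) (k + 1) = (1 + X ^ (2 * (m + 1) + 1 - k)) * pA (m + 1) k
        + X ^ (k + 1) * pA (m + 1) (k + 1) from rfl,
        show 2 * (m + 1) + 1 = 2 * m + 3 by ring]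
      ring

/-- evaluation -/
def ev (P : ℕ[X]) (q : ℂ) : ℂ := P.eval₂ (Nat.castRingHom ℂ) q

lemma ev_add (P Q : ℕ[X]) (q : ℂ) : ev (P + Q) q = ev P q + ev Q q := eval₂_add _ _
lemma ev_mul (P Q : ℕ[X]) (q : ℂ) : ev (P * Q) q = ev P q * ev Q q := eval₂_mul _ _
lemma ev_one (q : ℂ) : ev 1 q = 1 := eval₂_one _ _
lemma ev_zero (q : ℂ) : ev 0 q = 0 := eval₂_zero _ _
lemma ev_X_pow (n : ℕ) (q : ℂ) : ev (X ^ n) q = q ^ n := by
  unfold ev
  rw [eval₂_pow, eval₂_X]

lemma ev_stepP_succ (s : ℕ) (c0 : ℕ[X]) (f : ℕ → ℕ[X]) (k : ℕ) (q : ℂ) :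
    ev (stepP s c0 f (k + 1)) q = (1 + q ^ (s - k)) * ev (f k) q + q ^ (k + 1) * ev (f (k + 1)) q := by
  simp only [stepP]
  rw [ev_add, ev_mul, ev_mul, ev_add, ev_one, ev_X_pow, ev_X_pow]

lemma pow_mul_prod (q : ℂ) (k : ℕ) (f : ℕ → ℂ) :
    q ^ k * ∏ j ∈ Finset.range k, f j = ∏ j ∈ Finset.range k, q * f j := by
  rw [Finset.prod_mul_distrib, Finset.prod_const, Finset.card_range]

/-- the order of the general linear group -/
def GLo (q : ℂ) (k : ℕ) : ℂ := ∏ j ∈ Finset.range k, (q ^ k - q ^ j)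

lemma GLo_succ (q : ℂ) (k : ℕ) : GLo q (k + 1) = (q ^ (k + 1) - 1) * q ^ k * GLo q k := by
  unfold GLo
  rw [Finset.prod_range_succ']
  have : ∏ j ∈ Finset.range k, (q ^ (k + 1) - q ^ (j + 1)) = q ^ k * ∏ j ∈ Finset.range k, (q ^ k - q ^ j) := by
    rw [pow_mul_prod]
    refine Finset.prod_congr rfl fun j _ => ?_
    ring
  rw [this]
  ring

lemma GLo_ne_zero {q : ℕ} (hq : 1 < q) (k : ℕ) : GLo (q : ℂ) k ≠ 0 := by
  unfold GLo
  rw [Finset.prod_ne_zero_iff]
  intro j hj
  rw [sub_ne_zero]
  have : q ^ k ≠ q ^ j := fun h => (Finset.mem_range.mp hj).ne' (Nat.pow_right_injective hq h)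
  exact_mod_cast this

/-- numerator for nondegenerate forms -/
def NA (q : ℂ) (m k : ℕ) : ℂ := ∏ j ∈ Finset.range k, (q ^ (2 * m) / q ^ j - q ^ j)

lemma NA_succ {q : ℂ} (hq : q ≠ 0) (m k : ℕ) :
    NA q (m + 1) (k + 1) = (q ^ (2 * m + 2) - 1) * q ^ k * NA q m k := by
  unfold NA
  rw [Finset.prod_range_succ']
  have : ∏ j ∈ Finset.range k, (q ^ (2 * (m + 1)) / q ^ (j + 1) - q ^ (j + 1))
      = q ^ k * ∏ j ∈ Finset.range k, (q ^ (2 * m) / q ^ j - q ^ j) := by
    rw [pow_mul_prod]
    refine Finset.prod_congr rfl fun j _ => ?_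
    have h1 : q ^ (2 * (m + 1)) = q ^ (2 * m) * q * q := by ring
    have h2 : q ^ j ≠ 0 := pow_ne_zero _ hq
    rw [h1, pow_succ q j]
    field_simp
  rw [this, pow_zero, div_one]
  ring

theorem ev_pA {q : ℂ} (hq : q ≠ 0) (m k : ℕ) : ev (pA m k) q * GLo q k = NA q m k := by
  induction m generalizing k with
  | zero =>
    cases k with
    | zero => simp [pA, GLo, NA, ev_one]
    | succ k =>
      simp only [pA]
      rw [if_neg (by omega), ev_zero, zero_mul]
      symm
      unfold NA
      rw [Finset.prod_range_succ']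
      simp
  | succ m ih =>
    cases k with
    | zero => simp [pA, stepP, GLo, NA, ev_one]
    | succ k =>
      have h0 : pA (m + 1) (k + 1) = stepP (2 * m + 1) 1 (pA m) (k + 1) := rfl
      rw [h0, ev_stepP_succ, NA_succ hq]
      by_cases hk : k ≤ m
      · have h1 := ih k
        have h2 := ih (k + 1)
        have h3 : NA q m (k + 1) = NA q m k * (q ^ (2 * m) / q ^ k - q ^ k) := by
          unfold NA
          rw [Finset.prod_range_succ]
        rw [h3] at h2
        obtain ⟨j, hj⟩ := Nat.exists_eq_add_of_le (show k ≤ 2 * m by omega)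
        have e1 : 2 * m + 1 - k = j + 1 := by omega
        have hqk : q ^ k ≠ 0 := pow_ne_zero _ hq
        have e2 : q ^ (2 * m) / q ^ k = q ^ j := by
          rw [hj, pow_add, mul_comm, mul_div_assoc, div_self hqk, mul_one]
        rw [e2] at h2
        rw [e1, add_mul, mul_assoc (q ^ (k + 1)), h2, mul_assoc, GLo_succ]
        have e3 : q ^ (2 * m + 2) = q ^ k * q ^ j * q * q := by rw [← pow_add, ← hj]; ring
        rw [e3]
        calc (1 + q ^ (j + 1)) * (ev (pA m k) q * ((q ^ (k + 1) - 1) * q ^ k * GLo q k))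
              + q ^ (k + 1) * (NA q m k * (q ^ j - q ^ k))
            = (1 + q ^ (j + 1)) * ((q ^ (k + 1) - 1) * q ^ k * (ev (pA m k) q * GLo q k))
              + q ^ (k + 1) * (NA q m k * (q ^ j - q ^ k)) := by ring
          _ = _ := by rw [h1]; ring
      · rw [pA_zero_of (show m < k by omega), pA_zero_of (show m < k + 1 by omega), ev_zero,
          mul_zero, mul_zero, add_zero, zero_mul]
        have h1 := ih k
        rw [pA_zero_of (show m < k by omega), ev_zero, zero_mul] at h1
        rw [← h1, mul_zero]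

/-- numerator for degenerate forms -/
def NQ (q ε : ℂ) (m k : ℕ) : ℂ :=
  ∏ j ∈ Finset.range k, (ε * (q - 1) * q ^ m + q ^ (2 * m) / q ^ j - q ^ (1 + j))

lemma NQ_succ {q : ℂ} (hq : q ≠ 0) (ε : ℂ) (m k : ℕ) :
    NQ q ε (m + 1) (k + 1) = (q * (ε * (q - 1) * q ^ m + q ^ (2 * m + 1) - 1)) * q ^ k * NQ q ε m k := by
  unfold NQ
  rw [Finset.prod_range_succ']
  have : ∏ j ∈ Finset.range k, (ε * (q - 1) * q ^ (m + 1) + q ^ (2 * (m + 1)) / q ^ (j + 1)
      - q ^ (1 + (j + 1)))
      = q ^ k * ∏ j ∈ Finset.range k, (ε * (q - 1) * q ^ m + q ^ (2 * m) / q ^ j - q ^ (1 + j)) := by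
    rw [pow_mul_prod]
    refine Finset.prod_congr rfl fun j _ => ?_
    have h1 : q ^ (2 * (m + 1)) = q ^ (2 * m) * q * q := by ring
    have h2 : q ^ j ≠ 0 := pow_ne_zero _ hq
    rw [h1, pow_succ q j]
    field_simp
    ring
  rw [this, pow_zero, div_one]
  ring

/-- the number for the degenerate forms, as function of the type -/
theorem ev_pab {q : ℂ} (hq : q ≠ 0) {ε : ℂ} (hε : ε = 1 ∨ ε = -1) (m k : ℕ) :
    (ev (pa m k) q + ε * ev (pb m k) q) * (q ^ k * GLo q k) = NQ q ε (m + 1) k := by
  induction m generalizing k with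
  | zero =>
    rcases k with _ | _ | k
    · simp [pa, pb, GLo, NQ, ev_one, ev_zero]
    · simp only [pa, pb, GLo, NQ, le_refl, if_true]
      rw [ev_one]
      simp
      ring
    · simp only [pa, pb]
      rw [if_neg (by omega), if_neg (by omega), ev_zero, mul_zero, add_zero, zero_mul]
      symm
      unfold NQ
      rcases hε with rfl | rfl
      · apply Finset.prod_eq_zero (i := 1) (Finset.mem_range.mpr (by omega))
        field_simp
        ring
      · apply Finset.prod_eq_zero (i := 0) (Finset.mem_range.mpr (by omega))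
        simp
        ring
  | succ m ih =>
    cases k with
    | zero => simp [pa, pb, stepP, GLo, NQ, ev_one, ev_zero]
    | succ k =>
      have h0 : pa (m + 1) (k + 1) = stepP (2 * (m + 1)) 1 (pa m) (k + 1) := rfl
      have h0' : pb (m + 1) (k + 1) = stepP (2 * (m + 1)) 0 (pb m) (k + 1) := rfl
      rw [h0, h0', ev_stepP_succ, ev_stepP_succ, NQ_succ hq]
      have h1 := ih k
      have h2 := ih (k + 1)
      by_cases hk : k ≤ m + 1
      · have h3 : NQ q ε (m + 1) (k + 1) = NQ q ε (m + 1) k *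
            (ε * (q - 1) * q ^ (m + 1) + q ^ (2 * (m + 1)) / q ^ k - q ^ (1 + k)) := by
          unfold NQ
          rw [Finset.prod_range_succ]
        rw [h3] at h2
        obtain ⟨j, hj⟩ := Nat.exists_eq_add_of_le (show k ≤ 2 * (m + 1) by omega)
        have e1 : 2 * (m + 1) - k = j := by omega
        have hqk : q ^ k ≠ 0 := pow_ne_zero _ hq
        have e2 : q ^ (2 * (m + 1)) / q ^ k = q ^ j := by
          rw [hj, pow_add, mul_comm, mul_div_assoc, div_self hqk, mul_one]
        rw [e2] at h2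
        rw [e1]
        have e3 : q ^ (2 * (m + 1) + 1) = q ^ k * q ^ j * q := by
          rw [← pow_add, ← hj]; ring
        rw [e3]
        calc ((1 + q ^ j) * ev (pa m k) q + q ^ (k + 1) * ev (pa m (k + 1)) q +
              ε * ((1 + q ^ j) * ev (pb m k) q + q ^ (k + 1) * ev (pb m (k + 1)) q)) *
              (q ^ (k + 1) * GLo q (k + 1))
            = (1 + q ^ j) * (ev (pa m k) q + ε * ev (pb m k) q) * (q ^ (k + 1) * GLo q (k + 1))
              + q ^ (k + 1) * ((ev (pa m (k + 1)) q + ε * ev (pb m (k + 1)) q)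
                * (q ^ (k + 1) * GLo q (k + 1))) := by ring
          _ = (1 + q ^ j) * q * (q ^ (k + 1) - 1) * q ^ k *
              ((ev (pa m k) q + ε * ev (pb m k) q) * (q ^ k * GLo q k))
              + q ^ (k + 1) * (NQ q ε (m + 1) k *
                (ε * (q - 1) * q ^ (m + 1) + q ^ j - q ^ (1 + k))) := by
            rw [h2, GLo_succ]; ring
          _ = _ := by rw [h1]; ring
      · rw [pa_zero_of (show m + 1 < k by omega), pa_zero_of (show m + 1 < k + 1 by omega),
          pb_zero_of (show m + 1 < k by omega), pb_zero_of (show m + 1 < k + 1 by omega), ev_zero]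
        rw [pa_zero_of (show m + 1 < k by omega), pb_zero_of (show m + 1 < k by omega),
          ev_zero, mul_zero, add_zero, zero_mul] at h1
        rw [← h1]
        ring

end Pool.Agent.Helper4
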