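import Mathlib
import Pool.Agent.helper4.IsoPoly

/-! # Isotropic subspaces of the fibres -/

set_option linter.unusedSectionVars false

noncomputable section

namespace Pool.Agent.Helper4

open Matrix Module Polynomial

open scoped Classical

variable {F : Type*} [Field F]

lemma finrank_ker_nondeg {n : ℕ} (S : Matrix (Fin n) (Fin n) F) (hdet : S.det ≠ 0) :
    LinearMap.ker S.mulVecLin = ⊥ := by
  rw [LinearMap.ker_eq_bot']
  intro v hv
  by_contra hne
  exact hdet ((Matrix.exists_mulVec_eq_zero_iff).mp ⟨v, hne, hv⟩)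

lemma finrank_ker_corank {n : ℕ} (S : Matrix (Fin n) (Fin n) F) (hdet : S.det = 0)
    (i : Fin n) (hi : S.adjugate i i ≠ 0) : finrank F (LinearMap.ker S.mulVecLin) = 1 := by
  apply le_antisymm
  · let g : LinearMap.ker S.mulVecLin →ₗ[F] F :=
      (LinearMap.proj i).comp (LinearMap.ker S.mulVecLin).subtype
    have hg : Function.Injective g := by
      rw [← LinearMap.ker_eq_bot, LinearMap.ker_eq_bot']
      intro v hv
      have hv1 : (v : Fin n → F) i = 0 := hv
      have hv2 : S *ᵥ (v : Fin n → F) = 0 := v.2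
      rw [Matrix.adjugate_apply] at hi
      by_contra hne
      apply hi
      apply (Matrix.exists_mulVec_eq_zero_iff).mp
      refine ⟨v.1, fun h => hne (Subtype.ext h), ?_⟩
      ext j
      by_cases hj : j = i
      · subst hj
        rw [Matrix.mulVec, Matrix.updateRow_self, single_dotProduct, one_mul, hv1]
        rfl
      · have := congrFun hv2 j
        rw [Matrix.mulVec, Matrix.updateRow_ne hj]
        exact this
    have := LinearMap.finrank_le_finrank_of_injective hg
    rwa [finrank_self] at this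
  · obtain ⟨v, hv, hv0⟩ := (Matrix.exists_mulVec_eq_zero_iff).mpr hdet
    have hnt : Nontrivial (LinearMap.ker S.mulVecLin) :=
      ⟨⟨⟨v, hv0⟩, 0, fun h => hv (congrArg Subtype.val h)⟩⟩
    exact Module.finrank_pos

variable [Finite F]

lemma eFr_nondeg {q : ℂ} (hq : q ≠ 0) (m j : ℕ) :
    eFr q (q ^ (2 * m)) (2 * m + 1) 0 j = q ^ (2 * m) / q ^ j - q ^ j := by
  unfold eFr
  have h1 : q ^ j ≠ 0 := pow_ne_zero _ hq
  rw [zero_add, pow_succ q (2 * m)]
  field_simp
  ring

lemma eFr_corank {q : ℂ} (hq : q ≠ 0) (m j : ℕ) (ε : ℂ) :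
    eFr q (q ^ (2 * m) + (q - 1) * q ^ m * ε) (2 * m + 1) 1 j
      = ε * (q - 1) * q ^ m + q ^ (2 * m) / q ^ j - q ^ (1 + j) := by
  unfold eFr
  have h1 : q ^ j ≠ 0 := pow_ne_zero _ hq
  rw [pow_succ q (2 * m)]
  field_simp
  ring

theorem isoCount_nondeg (h2 : (2 : F) ≠ 0) (m : ℕ) (S : Matrix (Fin (2 * m + 1)) (Fin (2 * m + 1)) F)
    (hS : S.IsSymm) (hdet : S.det ≠ 0) (k : ℕ) :
    (isoCount F S k : ℂ) = ev (pA m k) (Nat.card F) := by
  have hker := finrank_ker_nondeg S hdet
  have h1 := card_iso0 h2 hS 0 (by rw [hker, finrank_bot]) k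
  rw [zeroCount_nondeg h2 m S hS hdet] at h1
  have h3 : ∏ j ∈ Finset.range k, eFr (Nat.card F) ((Nat.card F : ℂ) ^ (2 * m)) (2 * m + 1) 0 j
      = NA (Nat.card F) m k := by
    unfold NA
    exact Finset.prod_congr rfl fun j _ => eFr_nondeg cardF_ne m j
  have h4 : Nat.card {U : Submodule F (Fin (2 * m + 1) → F) // (finrank F U = k ∧
      ∀ x ∈ U, x ⬝ᵥ S *ᵥ x = 0) ∧ U ⊓ LinearMap.ker S.mulVecLin = ⊥} = isoCount F S k := by
    unfold isoCount
    refine Nat.card_congr (Equiv.subtypeEquivRight fun U => ?_)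
    rw [hker, inf_bot_eq]
    simp
  rw [h3, h4, ← ev_pA cardF_ne] at h1
  exact mul_right_cancel₀ (GLo_ne_zero one_lt_cardF k) h1

theorem isoCount_corank (h2 : (2 : F) ≠ 0) (m : ℕ)
    (S : Matrix (Fin (2 * (m + 1) + 1)) (Fin (2 * (m + 1) + 1)) F)
    (hS : S.IsSymm) (hdet : S.det = 0) (i : Fin (2 * (m + 1) + 1)) (hi : S.adjugate i i ≠ 0) (k : ℕ) :
    (isoCount F S k : ℂ) = ev (rad1 (pa m) k) (Nat.card F)
      + ev (rad1 (pb m) k) (Nat.card F) * hcan (m + 1) S := by
  have hfinS : Finite (Submodule F (Fin (2 * (m + 1) + 1) → F)) :=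
    Finite.of_injective (fun L => (L : Set (Fin (2 * (m + 1) + 1) → F))) SetLike.coe_injective
  have hker := finrank_ker_corank S hdet i hi
  have hq : (Nat.card F : ℂ) ≠ 0 := cardF_ne
  have hG := GLo_ne_zero (one_lt_cardF (F := F))
  set q : ℂ := (Nat.card F : ℂ) with hqdef
  have hz := zeroCount_corank h2 (m + 1) S hS hdet i hi
  rw [← hcan_corank h2 (m + 1) S hS hdet i hi] at hz
  have hε : hcan (m + 1) S = 1 ∨ hcan (m + 1) S = -1 := by
    rw [hcan_corank h2 (m + 1) S hS hdet i hi]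
    unfold eta
    rw [if_neg (mul_ne_zero (pow_ne_zero _ (neg_ne_zero.mpr one_ne_zero)) hi)]
    split_ifs
    · exact Or.inl rfl
    · exact Or.inr rfl
  set ε := hcan (m + 1) S with hεdef
  have hNQ : ∀ k, ∏ j ∈ Finset.range k, eFr q (zeroCount S) (2 * (m + 1) + 1) 1 j
      = NQ q ε (m + 1) k := by
    intro k
    rw [hz]
    unfold NQ
    exact Finset.prod_congr rfl fun j _ => eFr_corank hq (m + 1) j ε
  have i0 : ∀ k, (Nat.card {U : Submodule F (Fin (2 * (m + 1) + 1) → F) // (finrank F U = k ∧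
      ∀ x ∈ U, x ⬝ᵥ S *ᵥ x = 0) ∧ U ⊓ LinearMap.ker S.mulVecLin = ⊥} : ℂ)
      = q ^ k * (ev (pa m k) q + ε * ev (pb m k) q) := by
    intro k
    have h1 := card_iso0 h2 hS 1 hker k
    rw [hNQ, ← ev_pab hq hε] at h1
    apply mul_right_cancel₀ (hG k)
    have h3 : ∏ j ∈ Finset.range k, (q ^ k - q ^ j) = GLo q k := rfl
    rw [h3] at h1
    rw [h1]
    ring
  have i1 : ∀ k, (Nat.card {U : Submodule F (Fin (2 * (m + 1) + 1) → F) // (finrank F U = 1 + k ∧
      ∀ x ∈ U, x ⬝ᵥ S *ᵥ x = 0) ∧ LinearMap.ker S.mulVecLin ≤ U} : ℂ)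
      = ev (pa m k) q + ε * ev (pb m k) q := by
    intro k
    have h1 := card_iso1 h2 hS 1 hker k
    rw [hNQ, ← ev_pab hq hε] at h1
    have h3 : ∏ j ∈ Finset.range k, (q ^ (1 + k) - q ^ (1 + j)) = q ^ k * GLo q k := by
      unfold GLo
      rw [pow_mul_prod]
      refine Finset.prod_congr rfl fun j _ => ?_
      rw [pow_add, pow_add]
      ring
    rw [h3] at h1
    exact mul_right_cancel₀ (mul_ne_zero (pow_ne_zero _ hq) (hG k)) h1
  cases k with
  | zero =>
    have h4 : Nat.card {U : Submodule F (Fin (2 * (m + 1) + 1) → F) // (finrank F U = 0 ∧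
        ∀ x ∈ U, x ⬝ᵥ S *ᵥ x = 0) ∧ U ⊓ LinearMap.ker S.mulVecLin = ⊥} = isoCount F S 0 := by
      unfold isoCount
      refine Nat.card_congr (Equiv.subtypeEquivRight fun U => ?_)
      constructor
      · exact fun h => h.1
      · intro h
        refine ⟨h, ?_⟩
        rw [Submodule.finrank_eq_zero.mp h.1, bot_inf_eq]
    rw [← h4, i0]
    simp only [rad1]
    ring
  | succ k =>
    have h4 : isoCount F S (k + 1) = Nat.card {U : Submodule F (Fin (2 * (m + 1) + 1) → F) //
        (finrank F U = k + 1 ∧ ∀ x ∈ U, x ⬝ᵥ S *ᵥ x = 0) ∧ U ⊓ LinearMap.ker S.mulVecLin = ⊥}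
        + Nat.card {U : Submodule F (Fin (2 * (m + 1) + 1) → F) // (finrank F U = 1 + k ∧
        ∀ x ∈ U, x ⬝ᵥ S *ᵥ x = 0) ∧ LinearMap.ker S.mulVecLin ≤ U} := by
      have hdich : ∀ U : Submodule F (Fin (2 * (m + 1) + 1) → F), ¬ LinearMap.ker S.mulVecLin ≤ U →
          U ⊓ LinearMap.ker S.mulVecLin = ⊥ := by
        intro U hU
        by_contra hne
        apply hU
        have h5 : U ⊓ LinearMap.ker S.mulVecLin = LinearMap.ker S.mulVecLin := by
          apply Submodule.eq_of_le_of_finrank_le inf_le_right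
          rw [hker]
          exact Submodule.one_le_finrank_iff.mpr hne
        rw [← h5]
        exact inf_le_left
      have hdich2 : ∀ U : Submodule F (Fin (2 * (m + 1) + 1) → F), LinearMap.ker S.mulVecLin ≤ U →
          U ⊓ LinearMap.ker S.mulVecLin ≠ ⊥ := by
        intro U hU h5
        rw [inf_eq_right.mpr hU] at h5
        rw [h5, finrank_bot] at hker
        exact zero_ne_one hker
      unfold isoCount
      rw [← Nat.card_sum]
      refine Nat.card_congr
        { toFun := fun U => if h : LinearMap.ker S.mulVecLin ≤ U.1 then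
              Sum.inr ⟨U.1, ⟨by rw [U.2.1, add_comm], U.2.2⟩, h⟩
            else Sum.inl ⟨U.1, U.2, hdich U.1 h⟩
          invFun := fun U => match U with
            | Sum.inl U => ⟨U.1, U.2.1⟩
            | Sum.inr U => ⟨U.1, by rw [U.2.1.1, add_comm], U.2.1.2⟩
          left_inv := fun U => by
            by_cases h : LinearMap.ker S.mulVecLin ≤ U.1
            · simp only [dif_pos h]
            · simp only [dif_neg h]
          right_inv := fun U => by
            rcases U with U | U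
            · have h : ¬ LinearMap.ker S.mulVecLin ≤ U.1 := fun h => hdich2 U.1 h U.2.2
              simp only [dif_neg h]
            · simp only [dif_pos U.2.2] }
    rw [h4]
    push_cast
    rw [i0, i1]
    simp only [rad1]
    rw [ev_add, ev_mul, ev_X_pow, ev_add, ev_mul, ev_X_pow]
    ring

/-- number of isotropic subspaces of a fibre -/
theorem isoCount_fib (h2 : (2 : F) ≠ 0) (m : ℕ)
    (S : Matrix (Fin (2 * (m + 1) + 1)) (Fin (2 * (m + 1) + 1)) F)
    (hS : S.IsSymm) (hc : S.det = 0 → ∃ i, S.adjugate i i ≠ 0) (k : ℕ) :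
    (isoCount F S k : ℂ) = ev (pA (m + 1) k) (Nat.card F)
      + (if S.det = 0 then 1 else 0) * ev (pE m k) (Nat.card F)
      + ev (rad1 (pb m) k) (Nat.card F) * hcan (m + 1) S := by
  by_cases hdet : S.det = 0
  · obtain ⟨i, hi⟩ := hc hdet
    rw [isoCount_corank h2 m S hS hdet i hi, rad1_pa_eq, ev_add, if_pos hdet]
    ring
  · rw [isoCount_nondeg h2 (m + 1) S hS hdet, hcan_nondeg h2 (m + 1) S hS hdet, if_neg hdet]
    ring

end Pool.Agent.Helper4
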