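import Mathlib
import Pool.Agent.helper4.IsoFib
import Pool.Agent.helper4.BundleMain

/-! # Relative orthogonal Grassmannians of quadric bundles: point counts -/

set_option linter.unusedSectionVars false

noncomputable section

namespace Pool.Agent.Helper4

open Matrix Polynomial Module NumberField nonZeroDivisors

open scoped Classical

section

variable {m : ℕ} {δ : Fin (2 * m + 1) → ℤ} {A : Matrix (Fin (2 * m + 1)) (Fin (2 * m + 1)) ℤ[X]}

/-- the properties of the good primes -/
def GoodAt (δ : Fin (2 * m + 1) → ℤ) (A : Matrix (Fin (2 * m + 1)) (Fin (2 * m + 1)) ℤ[X]) (p : ℕ) :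
    Prop := p ≠ 2 ∧ ¬ ((p : ℤ) ∣ A.det.leadingCoeff) ∧ ¬ ((p : ℤ) ∣ (infM δ A).det) ∧
    (A.det.map (Int.castRingHom (ZMod p))).Separable ∧
    ∀ B ∈ reps (ff A) 1, ∀ q : PK (fieldA B), (p : 𝓞 (fieldA B)) ∈ q.asIdeal →
      dB A B ∉ q.asIdeal

lemma goodAt_of {p : ℕ} (hp : p.Prime) (hpZ : p ∉ badSet δ A) : GoodAt δ A p := by
  by_contra hc
  exact hpZ ⟨hp, hc⟩

lemma two_ne_of {F : Type*} [Field F] {p : ℕ} (hp : p.Prime) [CharP F p] (hp2 : p ≠ 2) :
    (2 : F) ≠ 0 := by
  have := intCast_ne_zero_of (F := F) (p := p) (z := 2) (by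
    intro hdvd
    have h1 : p ∣ 2 := by exact_mod_cast hdvd
    exact hp2 ((Nat.prime_dvd_prime_iff_eq hp Nat.prime_two).mp h1))
  exact_mod_cast this

lemma sep_of {F : Type*} [Field F] {p : ℕ} [CharP F p]
    (hsepp : (A.det.map (Int.castRingHom (ZMod p))).Separable) :
    (A.det.map (Int.castRingHom F)).Separable := by
  have h1 := hsepp.map (f := ZMod.castHom dvd_rfl F)
  rw [Polynomial.map_map] at h1
  have h3 : (ZMod.castHom (dvd_refl p) F).comp (Int.castRingHom (ZMod p)) = Int.castRingHom F :=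
    RingHom.ext_int _ _
  rwa [h3] at h1

lemma exists_adj_fib (h : IsBundle m δ A) (F : Type*) [Field F] (h2 : (2 : F) ≠ 0)
    (hsepF : (A.det.map (Int.castRingHom F)).Separable) (t : F) (ht : (fib A F t).det = 0) :
    ∃ i, (fib A F t).adjugate i i ≠ 0 := by
  have e3 : (A.map (fun P => P.map (Int.castRingHom F))).det = A.det.map (Int.castRingHom F) :=
    ((Polynomial.mapRingHom (Int.castRingHom F)).map_det A).symm
  have hadj := adj_ne_zero_of_separable (k := F) (n := 2 * m + 1) (by omega)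
    (A.map (fun P => P.map (Int.castRingHom F))) t (by rw [e3]; exact hsepF) (by
      rw [e3, eval_map, ← det_fib]
      exact ht)
  have hfib : (A.map (fun P => P.map (Int.castRingHom F))).map (fun P => P.eval t) = fib A F t := by
    ext i j
    simp only [Matrix.map_apply, fib, eval_map]
  rw [hfib] at hadj
  exact exists_diag_adj h2 (fib A F t) (show (fib A F t).IsSymm from h.symm.map _) ht hadj

/-- the number of degenerate fibres -/
theorem sum_roots (h : IsBundle m δ A) (F : Type*) [Field F] [Fintype F] {p : ℕ} (hp : p.Prime)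
    [CharP F p] (hpZ : p ∉ badSet δ A) :
    ∑ t : F, (if (fib A F t).det = 0 then (1 : ℂ) else 0)
      = ∑ B ∈ reps (ff A) 1, (Nat.card (𝓞 (fieldA B) →+* F) : ℂ) := by
  obtain ⟨hp2, hlead, -, hsepp, -⟩ := goodAt_of hp hpZ
  obtain ⟨a, hadef⟩ : ∃ a : F, a = (A.det.leadingCoeff : F) := ⟨_, rfl⟩
  have ha : a ≠ 0 := by
    rw [hadef]
    exact intCast_ne_zero_of hlead
  have hsepF := sep_of (F := F) hsepp
  have hsepff : ((ff A).map (Int.castRingHom F)).Separable :=
    separable_norm _ (by rw [← hadef]; exact ha) hsepF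
  -- change of variables
  let e : {t : F // A.det.eval₂ (Int.castRingHom F) t = 0} ≃
      {y : F // (ff A).eval₂ (Int.castRingHom F) y = 0} :=
    { toFun := fun t => ⟨a * t.1, by
        have := (root_iff A.det (R := F) (by rw [← hadef]; exact ha) t.1).mp t.2
        rw [hadef]; exact this⟩
      invFun := fun y => ⟨a⁻¹ * y.1, by
        apply (root_iff A.det (R := F) (by rw [← hadef]; exact ha) _).mpr
        rw [← hadef, mul_inv_cancel_left₀ ha]
        exact y.2⟩
      left_inv := fun t => by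
        apply Subtype.ext
        exact inv_mul_cancel_left₀ ha _
      right_inv := fun y => by
        apply Subtype.ext
        exact mul_inv_cancel_left₀ ha _ }
  have h3 := root_sum (ff_monic h.separable) (ff_sep h.separable) F hsepff (fun _ => 1)
  have h5 : ∀ B : Finset (𝓞 (LL (ff A))), ∑ᶠ φ : 𝓞 (fieldA B) →+* F, (1 : ℂ)
      = (Nat.card (𝓞 (fieldA B) →+* F) : ℂ) := by
    intro B
    have : Fintype (𝓞 (fieldA B) →+* F) := Fintype.ofFinite _
    rw [finsum_eq_sum_of_fintype, Finset.sum_const, nsmul_eq_mul, mul_one, Finset.card_univ,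
      Nat.card_eq_fintype_card]
  rw [Finset.sum_congr rfl (fun B _ => h5 B)] at h3
  rw [← h3, finsum_eq_sum_of_fintype, Finset.sum_const, nsmul_eq_mul, mul_one, Finset.card_univ,
    ← Nat.card_eq_fintype_card, ← Nat.card_congr e, Nat.card_eq_fintype_card,
    Fintype.card_subtype, Finset.card_filter]
  push_cast
  refine Finset.sum_congr rfl fun t _ => ?_
  rw [det_fib]

/-- the sum of the characters of the fibres -/
theorem sum_hcan (h : IsBundle m δ A) (F : Type*) [Field F] [Fintype F] {p : ℕ} (hp : p.Prime)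
    [CharP F p] (hpZ : p ∉ badSet δ A) :
    ∑ t : F, hcan m (fib A F t)
      = ∑ B ∈ reps (ff A) 1, ∑ᶠ φ : 𝓞 (fieldA B) →+* F, eta F (φ (dB A B)) := by
  have h2 := two_ne_of (F := F) hp (goodAt_of hp hpZ).1
  rw [← hcan_sum h F hp hpZ]
  rw [finsum_eq_sum_of_fintype, ← Finset.sum_subtype (Finset.univ.filter
    (fun t : F => A.det.eval₂ (Int.castRingHom F) t = 0)) (fun t => by simp)
    (fun t => hcan m (fib A F t)),
    ← Finset.sum_filter_add_sum_filter_not Finset.univ
    (fun t : F => A.det.eval₂ (Int.castRingHom F) t = 0)]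
  have h5 : ∑ t ∈ Finset.univ.filter (fun t : F => ¬ A.det.eval₂ (Int.castRingHom F) t = 0),
      hcan m (fib A F t) = 0 := by
    apply Finset.sum_eq_zero
    intro t ht
    apply hcan_nondeg h2 m _ (fib_symm h.symm t)
    rw [det_fib]
    exact (Finset.mem_filter.mp ht).2
  rw [h5, add_zero]

end

section

variable {m : ℕ} {δ : Fin (2 * (m + 1) + 1) → ℤ}
  {A : Matrix (Fin (2 * (m + 1) + 1)) (Fin (2 * (m + 1) + 1)) ℤ[X]}

theorem og_hN (h : IsBundle (m + 1) δ A) (F : Type*) [Field F] [Finite F] {p : ℕ} (hp : p.Prime)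
    [CharP F p] (hpZ : p ∉ badSet δ A) (k : ℕ) :
    (ogCount δ A k F : ℂ) = ev ((1 + X) * pA (m + 1) k) (Nat.card F)
      + ev (pE m k) (Nat.card F) * ∑ B ∈ reps (ff A) 1, (Nat.card (𝓞 (fieldA B) →+* F) : ℂ)
      + ev (rad1 (pb m) k) (Nat.card F) *
        ∑ B ∈ reps (ff A) 1, ∑ᶠ φ : 𝓞 (fieldA B) →+* F, eta F (φ (dB A B)) := by
  have hF : Fintype F := Fintype.ofFinite F
  obtain ⟨hp2, hlead, hinf, hsepp, -⟩ := goodAt_of hp hpZ
  have h2 := two_ne_of (F := F) hp hp2
  have hsepF := sep_of (F := F) hsepp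
  have hinf : ((infM δ A).map (Int.castRingHom F)).det ≠ 0 := by
    have h1 : ((infM δ A).map (Int.castRingHom F)).det = ((infM δ A).det : F) :=
      ((Int.castRingHom F).map_det (infM δ A)).symm
    rw [h1]
    exact intCast_ne_zero_of hinf
  have hinfS : (infM δ A).IsSymm := by
    ext i j
    unfold infM
    rw [Matrix.transpose_apply, Matrix.of_apply, Matrix.of_apply, add_comm (δ j) (δ i)]
    have : A j i = A i j := by
      have := congrFun (congrFun h.symm i) j
      rwa [Matrix.transpose_apply] at this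
    rw [this]
  rw [← sum_roots h F hp hpZ, ← sum_hcan h F hp hpZ]
  unfold ogCount
  rw [finsum_eq_sum_of_fintype]
  push_cast
  rw [isoCount_nondeg h2 (m + 1) _ (hinfS.map _) hinf]
  have h3 : ∀ t : F, (isoCount F (fib A F t) k : ℂ) = ev (pA (m + 1) k) (Nat.card F)
      + (if (fib A F t).det = 0 then 1 else 0) * ev (pE m k) (Nat.card F)
      + ev (rad1 (pb m) k) (Nat.card F) * hcan (m + 1) (fib A F t) := fun t =>
    isoCount_fib h2 m _ (show (fib A F t).IsSymm from h.symm.map _)
      (exists_adj_fib h F h2 hsepF t) k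
  rw [Finset.sum_congr rfl (fun t _ => h3 t), Finset.sum_add_distrib, Finset.sum_add_distrib,
    Finset.sum_const, nsmul_eq_mul, Finset.card_univ, ← Nat.card_eq_fintype_card,
    ← Finset.sum_mul, ← Finset.mul_sum, ev_mul, ev_add, ev_one]
  have h4 : ev X (Nat.card F : ℂ) = (Nat.card F : ℂ) := eval₂_X _ _
  rw [h4]
  ring

/-- evaluation as a sum -/
lemma ev_eq_sum (P : ℕ[X]) (q : ℂ) {D : ℕ} (hD : P.natDegree < D) :
    ev P q = ∑ k ∈ Finset.range D, (P.coeff k : ℂ) * q ^ k := by
  unfold ev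
  rw [eval₂_eq_sum_range' _ hD]
  rfl

end

end Pool.Agent.Helper4
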