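import Mathlib
import Pool.Agent.helper4.OGCount
import Pool.Agent.helper4.Core2

/-! # Relative orthogonal Grassmannians of quadric bundles -/

set_option linter.unusedSectionVars false

noncomputable section

namespace Pool.Agent.Helper4

open Matrix Polynomial Module NumberField nonZeroDivisors

open scoped Classical

variable {m : ℕ} {δ : Fin (2 * (m + 1) + 1) → ℤ}
  {A : Matrix (Fin (2 * (m + 1) + 1)) (Fin (2 * (m + 1) + 1)) ℤ[X]}

theorem og_Q1 (h : IsBundle (m + 1) δ A) (k : ℕ) :
    Q1Sys (badSet δ A) (fun p _ r => ogCount δ A k (GaloisField p r)) := by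
  set P1 : ℕ[X] := (1 + X) * pA (m + 1) k with hP1
  set P2 : ℕ[X] := pE m k with hP2
  set P3 : ℕ[X] := rad1 (pb m) k with hP3
  set D := P1.natDegree + P2.natDegree + P3.natDegree + 1 with hDdef
  apply core2 (β := {B // B ∈ reps (ff A) 1}) (fun B => fieldA B.1) (fun B => dB A B.1) D
    P1.coeff P2.coeff P3.coeff
  · intro j hj
    exact ⟨coeff_eq_zero_of_natDegree_lt (by omega), coeff_eq_zero_of_natDegree_lt (by omega),
      coeff_eq_zero_of_natDegree_lt (by omega)⟩
  · intro p hp hpZ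
    have hgood := goodAt_of hp hpZ
    exact ⟨hgood.1, fun b => hgood.2.2.2.2 b.1 b.2⟩
  · intro p hp hpZ r hr
    have hcard : Nat.card (GaloisField p r) = p ^ r := GaloisField.card p r (by omega)
    rw [og_hN h (GaloisField p r) hp.out hpZ, hcard,
      ev_eq_sum _ _ (show P1.natDegree < D by omega), ev_eq_sum _ _ (show P2.natDegree < D by omega),
      ev_eq_sum _ _ (show P3.natDegree < D by omega)]
    push_cast
    have e1 : ∑ b : {B // B ∈ reps (ff A) 1}, (Nat.card (𝓞 (fieldA b.1) →+* GaloisField p r) : ℂ)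
        = ∑ B ∈ reps (ff A) 1, (Nat.card (𝓞 (fieldA B) →+* GaloisField p r) : ℂ) :=
      Finset.sum_coe_sort (reps (ff A) 1) (fun B => (Nat.card (𝓞 (fieldA B) →+* GaloisField p r) : ℂ))
    have e2 : ∑ b : {B // B ∈ reps (ff A) 1}, ∑ᶠ φ : 𝓞 (fieldA b.1) →+* GaloisField p r,
          eta (GaloisField p r) (φ (dB A b.1))
        = ∑ B ∈ reps (ff A) 1, ∑ᶠ φ : 𝓞 (fieldA B) →+* GaloisField p r,
          eta (GaloisField p r) (φ (dB A B)) :=
      Finset.sum_coe_sort (reps (ff A) 1) (fun B => ∑ᶠ φ : 𝓞 (fieldA B) →+* GaloisField p r,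
          eta (GaloisField p r) (φ (dB A B)))
    rw [e1, e2]

end Pool.Agent.Helper4
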