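import Mathlib
import Pool.Agent.helper4.BundleMain

/-! # Complete intersections of two quadrics -/

set_option linter.unusedSectionVars false

noncomputable section

namespace Pool.Agent.Helper4

open Matrix Polynomial Module NumberField nonZeroDivisors

open scoped Classical

/-- lines on which a property holds, and the cone over them -/
lemma lines_mul (F : Type*) [Field F] [Finite F] {n : ℕ} (P : (Fin n → F) → Prop) (h0 : P 0)
    (hsm : ∀ (c : F) x, P x → P (c • x)) :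
    (Nat.card F - 1) * Nat.card {L : Submodule F (Fin n → F) // finrank F L = 1 ∧ ∀ x ∈ L, P x} + 1
      = Nat.card {x : Fin n → F // P x} := by
  have hfinS : Finite (Submodule F (Fin n → F)) :=
    Finite.of_injective (fun L => (L : Set (Fin n → F))) SetLike.coe_injective
  have hft : Fintype {L : Submodule F (Fin n → F) // finrank F L = 1 ∧ ∀ x ∈ L, P x} :=
    Fintype.ofFinite _
  -- nonzero zeros
  have h1 : Nat.card {x : Fin n → F // P x} = Nat.card {x : Fin n → F // x ≠ 0 ∧ P x} + 1 := by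
    have e : {x : Fin n → F // P x}
        ≃ {x : Fin n → F // x ≠ 0 ∧ P x} ⊕ Unit :=
      { toFun := fun x => if h : x.1 = 0 then Sum.inr () else Sum.inl ⟨x.1, h, x.2⟩
        invFun := fun y => match y with
          | Sum.inl x => ⟨x.1, x.2.2⟩
          | Sum.inr _ => ⟨0, h0⟩
        left_inv := fun x => by
          by_cases h : x.1 = 0
          · simp only [dif_pos h]
            apply Subtype.ext
            exact h.symm
          · simp only [dif_neg h]
        right_inv := fun y => by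
          rcases y with x | u
          · simp only [dif_neg x.2.1]
          · simp }
    rw [Nat.card_congr e, Nat.card_sum]
    simp
  rw [h1]
  congr 1
  let e : {x : Fin n → F // x ≠ 0 ∧ P x} ≃
      (Σ L : {L : Submodule F (Fin n → F) // finrank F L = 1 ∧ ∀ x ∈ L, P x},
        {x : L.1 // x ≠ 0}) :=
    { toFun := fun x => ⟨⟨F ∙ x.1, finrank_span_singleton x.2.1, by
          intro y hy
          obtain ⟨c, rfl⟩ := Submodule.mem_span_singleton.mp hy
          exact hsm c _ x.2.2⟩, ⟨⟨x.1, Submodule.mem_span_singleton_self _⟩, by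
          intro h
          exact x.2.1 (congrArg Subtype.val h)⟩⟩
      invFun := fun y => ⟨y.2.1.1, by
          intro h
          exact y.2.2 (Subtype.ext h), y.1.2.2 _ y.2.1.2⟩
      left_inv := fun x => rfl
      right_inv := by
        rintro ⟨⟨L, hL1, hL2⟩, ⟨⟨x, hxL⟩, hx0⟩⟩
        have hx : x ≠ 0 := fun h => hx0 (Subtype.ext h)
        have hspan : F ∙ x = L := by
          have : FiniteDimensional F L := inferInstance
          apply Submodule.eq_of_le_of_finrank_eq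
          · rw [Submodule.span_singleton_le_iff_mem]; exact hxL
          · rw [finrank_span_singleton hx, hL1]
        subst hspan
        rfl }
  rw [Nat.card_congr e, Nat.card_sigma]
  have h3 : ∀ L : {L : Submodule F (Fin n → F) // finrank F L = 1 ∧ ∀ x ∈ L, P x},
      Nat.card {x : L.1 // x ≠ 0} = Nat.card F - 1 := by
    intro L
    have hc : Nat.card L.1 = Nat.card F := by
      rw [Module.natCard_eq_pow_finrank (K := F), L.2.1, pow_one]
    have : Fintype L.1 := Fintype.ofFinite _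
    rw [Nat.card_eq_fintype_card, Fintype.card_subtype_compl, ← hc, Nat.card_eq_fintype_card]
    simp
  rw [Finset.sum_congr rfl (fun L _ => h3 L), Finset.sum_const, smul_eq_mul, Finset.card_univ,
    mul_comm, ← Nat.card_eq_fintype_card]

/-- number of points of the intersection of two quadrics -/
def ciCount (F : Type*) [Field F] {n : ℕ} (S T : Matrix (Fin n) (Fin n) F) : ℕ :=
  Nat.card {L : Submodule F (Fin n → F) // finrank F L = 1 ∧
    ∀ x ∈ L, x ⬝ᵥ S *ᵥ x = 0 ∧ x ⬝ᵥ T *ᵥ x = 0}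

lemma ciCount_mul (F : Type*) [Field F] [Finite F] {n : ℕ} (S T : Matrix (Fin n) (Fin n) F) :
    (Nat.card F - 1) * ciCount F S T + 1
      = Nat.card {x : Fin n → F // x ⬝ᵥ S *ᵥ x = 0 ∧ x ⬝ᵥ T *ᵥ x = 0} := by
  apply lines_mul F (fun x => x ⬝ᵥ S *ᵥ x = 0 ∧ x ⬝ᵥ T *ᵥ x = 0)
  · simp
  · rintro c x ⟨h1, h2⟩
    exact ⟨by rw [quad_smul, h1, mul_zero], by rw [quad_smul, h2, mul_zero]⟩

/-- the affine count -/
lemma affine_count (F : Type*) [Field F] [Fintype F] {n : ℕ} (S T : Matrix (Fin n) (Fin n) F) :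
    (∑ t : F, zeroCount (t • S + T)) + zeroCount S
      = Nat.card F ^ n + Nat.card F * Nat.card {x : Fin n → F // x ⬝ᵥ S *ᵥ x = 0 ∧ x ⬝ᵥ T *ᵥ x = 0} := by
  have hz : ∀ M : Matrix (Fin n) (Fin n) F, zeroCount M
      = ∑ x : Fin n → F, if x ⬝ᵥ M *ᵥ x = 0 then 1 else 0 := by
    intro M
    unfold zeroCount
    rw [Nat.card_eq_fintype_card, Fintype.card_subtype, Finset.card_filter]
  have hci : Nat.card {x : Fin n → F // x ⬝ᵥ S *ᵥ x = 0 ∧ x ⬝ᵥ T *ᵥ x = 0}
      = ∑ x : Fin n → F, if x ⬝ᵥ S *ᵥ x = 0 ∧ x ⬝ᵥ T *ᵥ x = 0 then 1 else 0 := by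
    rw [Nat.card_eq_fintype_card, Fintype.card_subtype, Finset.card_filter]
  have hn : Nat.card F ^ n = ∑ x : Fin n → F, 1 := by
    rw [Finset.sum_const, Finset.card_univ, smul_eq_mul, mul_one, Fintype.card_fun,
      Fintype.card_fin, Nat.card_eq_fintype_card]
  rw [Finset.sum_congr rfl (fun t _ => hz _), hz, hci, Finset.sum_comm, hn, Finset.mul_sum,
    ← Finset.sum_add_distrib, ← Finset.sum_add_distrib]
  refine Finset.sum_congr rfl fun x _ => ?_
  have hlin : ∀ t : F, x ⬝ᵥ (t • S + T) *ᵥ x = t * (x ⬝ᵥ S *ᵥ x) + x ⬝ᵥ T *ᵥ x := by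
    intro t
    rw [Matrix.add_mulVec, Matrix.smul_mulVec, dotProduct_add, dotProduct_smul, smul_eq_mul]
  simp_rw [hlin]
  by_cases h1 : x ⬝ᵥ S *ᵥ x = 0
  · by_cases h2 : x ⬝ᵥ T *ᵥ x = 0
    · simp [h1, h2, add_comm, Nat.card_eq_fintype_card]
    · simp [h1, h2]
  · have h3 : ∀ t : F, (t * (x ⬝ᵥ S *ᵥ x) + x ⬝ᵥ T *ᵥ x = 0)
        ↔ t = -(x ⬝ᵥ T *ᵥ x) / (x ⬝ᵥ S *ᵥ x) := by
      intro t
      rw [eq_div_iff h1, eq_neg_iff_add_eq_zero]
    simp_rw [h3]
    simp [h1]

/-- the pencil spanned by two forms -/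
def pencil {n : ℕ} (S T : Matrix (Fin n) (Fin n) ℤ) : Matrix (Fin n) (Fin n) ℤ[X] :=
  Matrix.of fun i j => X * C (S i j) + C (T i j)

lemma fib_pencil {n : ℕ} (S T : Matrix (Fin n) (Fin n) ℤ) (F : Type*) [Field F] (t : F) :
    fib (pencil S T) F t = t • S.map (Int.castRingHom F) + T.map (Int.castRingHom F) := by
  ext i j
  simp only [fib, pencil, Matrix.map_apply, Matrix.of_apply, Matrix.add_apply, Matrix.smul_apply,
    smul_eq_mul, eval₂_add, eval₂_mul, eval₂_X, eval₂_C]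

lemma infM_pencil {n : ℕ} (S T : Matrix (Fin n) (Fin n) ℤ) :
    infM (fun _ => 1) (pencil S T) = S := by
  ext i j
  simp only [infM, pencil, Matrix.of_apply]
  rw [if_pos (by norm_num)]
  have : ((1 + 1 : ℤ) / 2).toNat = 1 := by norm_num
  rw [this, coeff_add, show (1 : ℕ) = 0 + 1 from rfl, coeff_X_mul, coeff_C, coeff_C]
  simp

lemma isBundle_pencil {M : ℕ} {S T : Matrix (Fin (2 * M + 1)) (Fin (2 * M + 1)) ℤ}
    (hS : S.IsSymm) (hT : T.IsSymm) (hdet : S.det ≠ 0)
    (hsep : ((pencil S T).det.map (Int.castRingHom ℚ)).Separable) :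
    IsBundle M (fun _ => 1) (pencil S T) := by
  refine ⟨?_, ?_, ?_, ?_, hsep⟩
  · ext i j : 2
    have h1 : S j i = S i j := by
      have := congrFun (congrFun hS i) j
      rwa [Matrix.transpose_apply] at this
    have h2 : T j i = T i j := by
      have := congrFun (congrFun hT i) j
      rwa [Matrix.transpose_apply] at this
    rw [Matrix.transpose_apply]
    simp only [pencil, Matrix.of_apply, h1, h2]
  · intro i j
    exact ⟨1, by norm_num⟩
  · intro i j k hk
    by_contra hlt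
    apply hk
    have h2 : 2 ≤ k := by omega
    simp only [pencil, Matrix.of_apply]
    obtain ⟨l, rfl⟩ := Nat.exists_eq_add_of_le' h2
    rw [coeff_add, show l + 2 = (l + 1) + 1 from rfl, coeff_X_mul, coeff_C, coeff_C]
    simp
  · rw [infM_pencil]
    exact hdet

theorem ci_hN {m : ℕ} {S T : Matrix (Fin (2 * (m + 1) + 1)) (Fin (2 * (m + 1) + 1)) ℤ}
    (h : IsBundle (m + 1) (fun _ => 1) (pencil S T)) (F : Type*) [Field F] [Finite F] {p : ℕ}
    (hp : p.Prime) [CharP F p] (hpZ : p ∉ badSet (fun _ => 1) (pencil S T)) :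
    (ciCount F (S.map (Int.castRingHom F)) (T.map (Int.castRingHom F)) : ℂ)
      = ∑ j ∈ Finset.range (2 * m + 1), (Nat.card F : ℂ) ^ j + (Nat.card F : ℂ) ^ m *
        ∑ B ∈ reps (ff (pencil S T)) 1, ∑ᶠ φ : 𝓞 (fieldA B) →+* F,
          eta F (φ (dB (pencil S T) B)) := by
  have : Fintype F := Fintype.ofFinite F
  have h1 := bundle_hN h F hp hpZ
  set E : ℂ := ∑ B ∈ reps (ff (pencil S T)) 1, ∑ᶠ φ : 𝓞 (fieldA B) →+* F,
          eta F (φ (dB (pencil S T) B)) with hE
  set S' := S.map (Int.castRingHom F) with hS'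
  set T' := T.map (Int.castRingHom F) with hT'
  have hq1 := card_sub_one_ne (F := F)
  have hq0 := cardF_ne (F := F)
  have hq := one_lt_cardF (F := F)
  have hmul : ∀ M : Matrix (Fin (2 * (m + 1) + 1)) (Fin (2 * (m + 1) + 1)) F,
      ((Nat.card F : ℂ) - 1) * (quadricCount F M : ℂ) = (zeroCount M : ℂ) - 1 := by
    intro M
    have h2 := quadricCount_mul F M
    rw [← h2]
    push_cast [Nat.cast_sub hq.le]
    ring
  have hci : ((Nat.card F : ℂ) - 1) * (ciCount F S' T' : ℂ)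
      = (Nat.card {x : Fin (2 * (m + 1) + 1) → F // x ⬝ᵥ S' *ᵥ x = 0 ∧ x ⬝ᵥ T' *ᵥ x = 0} : ℂ) - 1 := by
    rw [← ciCount_mul F S' T']
    push_cast [Nat.cast_sub hq.le]
    ring
  have haff : (((∑ t : F, zeroCount (t • S' + T')) + zeroCount S' : ℕ) : ℂ)
      = (Nat.card F : ℂ) ^ (2 * (m + 1) + 1) + (Nat.card F : ℂ) *
        (Nat.card {x : Fin (2 * (m + 1) + 1) → F // x ⬝ᵥ S' *ᵥ x = 0 ∧ x ⬝ᵥ T' *ᵥ x = 0} : ℂ) := by
    rw [affine_count]
    push_cast
    rfl
  -- the count of the bundle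
  have hb : ((Nat.card F : ℂ) - 1) * (bundleCount (fun _ => 1) (pencil S T) F : ℂ)
      = (((∑ t : F, zeroCount (t • S' + T')) + zeroCount S' : ℕ) : ℂ) - ((Nat.card F : ℂ) + 1) := by
    unfold bundleCount
    rw [infM_pencil, finsum_eq_sum_of_fintype]
    push_cast
    rw [mul_add, Finset.mul_sum, hmul]
    simp_rw [fib_pencil, hmul]
    rw [Finset.sum_sub_distrib, Finset.sum_const, Finset.card_univ, nsmul_eq_mul,
      Nat.card_eq_fintype_card]
    ring
  rw [haff, h1] at hb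
  have hg1 : ((Nat.card F : ℂ) - 1) * ∑ j ∈ Finset.range (2 * (m + 1)), (Nat.card F : ℂ) ^ j
      = (Nat.card F : ℂ) ^ (2 * (m + 1)) - 1 := by
    rw [mul_comm]
    exact geom_sum_mul _ _
  have hg2 : ((Nat.card F : ℂ) - 1) * ∑ j ∈ Finset.range (2 * m + 1), (Nat.card F : ℂ) ^ j
      = (Nat.card F : ℂ) ^ (2 * m + 1) - 1 := by
    rw [mul_comm]
    exact geom_sum_mul _ _
  apply mul_left_cancel₀ hq0
  apply mul_left_cancel₀ hq1
  have e1 : ((Nat.card F : ℂ) - 1) * ((Nat.card F : ℂ) * (ciCount F S' T' : ℂ))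
      = (Nat.card F : ℂ) * (((Nat.card F : ℂ) - 1) * (ciCount F S' T' : ℂ)) := by ring
  rw [e1, hci]
  have e2 : ((Nat.card F : ℂ) - 1) * ((Nat.card F : ℂ) *
      (∑ j ∈ Finset.range (2 * m + 1), (Nat.card F : ℂ) ^ j + (Nat.card F : ℂ) ^ m * E))
      = (Nat.card F : ℂ) * ((Nat.card F : ℂ) ^ (2 * m + 1) - 1) +
        ((Nat.card F : ℂ) - 1) * (Nat.card F : ℂ) ^ (m + 1) * E := by
    rw [← hg2]
    ring
  rw [e2]
  have e3 : ((Nat.card F : ℂ) - 1) * (((Nat.card F : ℂ) + 1) *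
      ∑ j ∈ Finset.range (2 * (m + 1)), (Nat.card F : ℂ) ^ j + (Nat.card F : ℂ) ^ (m + 1) * E)
      = ((Nat.card F : ℂ) + 1) * ((Nat.card F : ℂ) ^ (2 * (m + 1)) - 1) +
        ((Nat.card F : ℂ) - 1) * (Nat.card F : ℂ) ^ (m + 1) * E := by
    rw [← hg1]
    ring
  rw [e3] at hb
  have e4 : (Nat.card F : ℂ) ^ (2 * (m + 1) + 1) = (Nat.card F : ℂ) * (Nat.card F : ℂ) ^ (2 * (m + 1)) := by
    rw [pow_succ]; ring
  have e5 : (Nat.card F : ℂ) ^ (2 * (m + 1)) = (Nat.card F : ℂ) * (Nat.card F : ℂ) ^ (2 * m + 1) := by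
    rw [show 2 * (m + 1) = (2 * m + 1) + 1 by ring, pow_succ]; ring
  rw [e4, e5] at hb
  linear_combination -hb

theorem ci_Q1 {m : ℕ} {S T : Matrix (Fin (2 * (m + 1) + 1)) (Fin (2 * (m + 1) + 1)) ℤ}
    (h : IsBundle (m + 1) (fun _ => 1) (pencil S T)) :
    Q1Sys (badSet (fun _ => 1) (pencil S T)) (fun p _ r => ciCount (GaloisField p r)
      (S.map (Int.castRingHom (GaloisField p r))) (T.map (Int.castRingHom (GaloisField p r)))) := by
  apply core (β := {B // B ∈ reps (ff (pencil S T)) 1}) (fun B => fieldA B.1)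
    (fun B => dB (pencil S T) B.1) m (2 * m + 1) (fun k => 1)
  · intro p hp hpZ
    have hgood : p ≠ 2 ∧ ¬ ((p : ℤ) ∣ (pencil S T).det.leadingCoeff) ∧
      ¬ ((p : ℤ) ∣ (infM (fun _ => 1) (pencil S T)).det) ∧
      ((pencil S T).det.map (Int.castRingHom (ZMod p))).Separable ∧
      ∀ B ∈ reps (ff (pencil S T)) 1, ∀ q : PK (fieldA B), (p : 𝓞 (fieldA B)) ∈ q.asIdeal →
        dB (pencil S T) B ∉ q.asIdeal := by
      by_contra hc
      exact hpZ ⟨hp, hc⟩
    exact ⟨hgood.1, fun b => hgood.2.2.2.2 b.1 b.2⟩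
  · intro p hp hpZ r hr
    have hcard : Nat.card (GaloisField p r) = p ^ r := GaloisField.card p r (by omega)
    rw [ci_hN h (GaloisField p r) hp.out hpZ, hcard]
    push_cast
    simp only [one_mul]
    congr 2
    exact (Finset.sum_coe_sort (reps (ff (pencil S T)) 1)
      (fun B => ∑ᶠ φ : 𝓞 (fieldA B) →+* GaloisField p r,
        eta (GaloisField p r) (φ (dB (pencil S T) B)))).symm

end Pool.Agent.Helper4
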